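import Pool.Agent.ACB.Bal

/-!
# ACB/GluC: a manifold structure from a family of charts

PROOF.  `ChartedSpace` with `atlas = 𝓕` and `chartAt v` = a chosen `e ∈ 𝓕` with `v ∈ e.source`.  `IsManifold`: `isManifold_of_contDiffOn (𝓡 4) ∞` (for the model `𝓡 4` the
maps `(𝓡 4) ∘ (e.symm.trans e') ∘ (𝓡 4).symm` are `e.symm.trans e'`, the range is `univ`).  For `e ∈ 𝓕`: `e` is in the maximal atlas
(`IsManifold.subset_maximalAtlas`), so `e` is `ContMDiffOn` on `e.source` and `e.symm` on `e.target` (`contMDiffOn_of_mem_maximalAtlas`,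
`contMDiffOn_symm_of_mem_maximalAtlas`); this is a `PartialDiffeomorph`.
-/

open scoped ContDiff Manifold Topology unitInterval
open Set Filter

namespace Pool.Agent.ACB

universe u
variable {N : Type u} [TopologicalSpace N] [ChartedSpace E4 N]

theorem mfd_of_family {V : Type u} [TopologicalSpace V] (𝓕 : Set (OpenPartialHomeomorph V E4))
    (hc : ∀ v, ∃ e ∈ 𝓕, v ∈ e.source)
    (hs : ∀ e ∈ 𝓕, ∀ e' ∈ 𝓕, ContDiffOn ℝ ∞ (e.symm.trans e') (e.symm.trans e').source) :
    ∃ _ : ChartedSpace E4 V, IsManifold (𝓡 4) ∞ V ∧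
      ∀ e ∈ 𝓕, ∀ v ∈ e.source, IsLocalDiffeomorphAt (𝓡 4) (𝓡 4) ∞ e v := by
  classical
  choose c hcF hcs using hc
  let cs : ChartedSpace E4 V :=
    { atlas := 𝓕
      chartAt := c
      mem_chart_source := hcs
      chart_mem_atlas := hcF }
  have hM : IsManifold (𝓡 4) ∞ V := by
    refine isManifold_of_contDiffOn (𝓡 4) ∞ V ?_
    intro e e' he he'
    have h1 := hs e he e' he'
    simpa using h1
  refine ⟨cs, hM, ?_⟩
  intro e he v hv
  have hmax : e ∈ IsManifold.maximalAtlas (𝓡 4) ∞ V := IsManifold.subset_maximalAtlas he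
  exact ⟨{ toPartialEquiv := e.toPartialEquiv
           open_source := e.open_source
           open_target := e.open_target
           contMDiffOn_toFun := contMDiffOn_of_mem_maximalAtlas hmax
           contMDiffOn_invFun := contMDiffOn_symm_of_mem_maximalAtlas hmax }, hv, fun _ _ => rfl⟩

end Pool.Agent.ACB
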