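import Pool.Agent.ACB.Bal

/-!
# ACB/GluT: gluing of two Hausdorff spaces

`V` is the set `X₀ ⊔ (Y ∖ Y₁)` (as a type: `{x : N // x ∈ X₀} ⊕ {y : E // y ∈ Y ∧ y ∉ Y₁}`).

PROOF.  Fix `x₀ ∈ X₀`.  `A x = inl ⟨x, _⟩` for `x ∈ X₀`, `A x = inl x₀` otherwise.  `B y = A (θ y)` for `y ∈ Y₁`, `B y = inr ⟨y, _⟩` for `y ∈ Y ∖ Y₁`, `B y = inl x₀`
otherwise.  `A` is injective on `X₀`, `B` is injective on `Y` (`θ` is injective on `Y₁`, `inl ≠ inr`), `A '' X₀ ∪ B '' Y = univ`, and for `y ∈ Y`, `x ∈ X₀`: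
`B y = A x ↔ y ∈ Y₁ ∧ θ y = x`.  Topology: `U` is open iff `X₀ ∩ A ⁻¹' U` and `Y ∩ B ⁻¹' U` are open (this is a topology: `X₀`, `Y` are open).
`A` is continuous on `X₀`, `B` is continuous on `Y` by definition.
If `O ⊆ X₀` is open then `A '' O` is open: `X₀ ∩ A ⁻¹' (A '' O) = O`, `Y ∩ B ⁻¹' (A '' O) = Y₁ ∩ θ ⁻¹' O`, open by `hθc`.
If `O ⊆ Y` is open then `B '' O` is open: `Y ∩ B ⁻¹' (B '' O) = O`, `X₀ ∩ A ⁻¹' (B '' O) = θ '' (O ∩ Y₁)`, open by `hθo`.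
The two `OpenPartialHomeomorph`s: sources `X₀`, `Y`, targets `A '' X₀`, `B '' Y`, inverse functions `Function.invFunOn` (nonempty types: if `E` is empty the second
one is easy; or use that `Y` may be assumed ... define the inverse by cases with `Classical`), continuous on the targets because the maps are open
(`OpenPartialHomeomorph.ofContinuousOpenRestrict` or similar, or `continuousOn_iff'`).
If `E` is empty, `B` needs an inverse function `V → E`, impossible for nonempty `V`: so the hypothesis `[Nonempty E]`.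
Hausdorff: two points of `A '' X₀`: separate in `N` (intersect with `X₀`), take images; two points of `B '' Y`: the same in `E`; `A x` and `B y` with
`y ∉ Y₁`: take `U, W` from `hsep` (open, inside), `B '' (U ∩ Y)` and `A '' (W ∩ X₀)` are open and disjoint: `B z = A x'` gives `z ∈ Y₁`, `θ z = x' ∈ W`.
-/

open scoped ContDiff Manifold Topology unitInterval
open Set Filter

namespace Pool.Agent.ACB

universe u
variable {N : Type u} [TopologicalSpace N] [ChartedSpace E4 N]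

theorem glut_main {M : Type u} [TopologicalSpace M] [T2Space M] [Nonempty M] {E : Type} [TopologicalSpace E] [T2Space E]
    [Nonempty E] {X₀ : Set M} (hX : IsOpen X₀) {Y Y₁ : Set E} (hY : IsOpen Y)
    (hY₁ : IsOpen Y₁) (hs : Y₁ ⊆ Y) {θ : E → M} (hθc : ContinuousOn θ Y₁)
    (hθo : ∀ U ⊆ Y₁, IsOpen U → IsOpen (θ '' U)) (hθX : MapsTo θ Y₁ X₀)
    (hsep : ∀ y ∈ Y, y ∉ Y₁ → ∀ x ∈ X₀, ∃ U ∈ 𝓝 y, ∃ W ∈ 𝓝 x, ∀ z ∈ U, z ∈ Y₁ → θ z ∉ W)
    {V : Type u} (A : M → V) (B : E → V) (hA : InjOn A X₀) (hB : InjOn B Y)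
    (hAB : ∀ y ∈ Y, ∀ x ∈ X₀, B y = A x ↔ y ∈ Y₁ ∧ θ y = x)
    (hcov : ∀ v, (∃ x ∈ X₀, A x = v) ∨ ∃ y ∈ Y, B y = v) :
    ∃ (_ : TopologicalSpace V) (A : OpenPartialHomeomorph M V) (B : OpenPartialHomeomorph E V),
      T2Space V ∧ A.source = X₀ ∧ B.source = Y ∧ (∀ y ∈ Y₁, B y = A (θ y)) ∧
      (∀ y ∈ Y, y ∉ Y₁ → B y ∉ A.target) ∧ A.target ∪ B.target = univ := by
  have hBA : ∀ y ∈ Y₁, B y = A (θ y) := fun y hy => (hAB y (hs hy) _ (hθX hy)).2 ⟨hy, rfl⟩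
  letI t : TopologicalSpace V :=
    { IsOpen := fun U => IsOpen (X₀ ∩ A ⁻¹' U) ∧ IsOpen (Y ∩ B ⁻¹' U)
      isOpen_univ := by
        refine ⟨?_, ?_⟩
        · rw [preimage_univ, inter_univ]; exact hX
        · rw [preimage_univ, inter_univ]; exact hY
      isOpen_inter := by
        rintro U W ⟨h1, h2⟩ ⟨h3, h4⟩
        refine ⟨?_, ?_⟩
        · rw [preimage_inter, inter_inter_distrib_left]; exact h1.inter h3
        · rw [preimage_inter, inter_inter_distrib_left]; exact h2.inter h4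
      isOpen_sUnion := by
        intro s hs
        refine ⟨?_, ?_⟩
        · rw [preimage_sUnion, inter_iUnion₂]
          exact isOpen_biUnion fun U hU => (hs U hU).1
        · rw [preimage_sUnion, inter_iUnion₂]
          exact isOpen_biUnion fun U hU => (hs U hU).2 }
  have hopen : ∀ U : Set V, IsOpen U ↔ IsOpen (X₀ ∩ A ⁻¹' U) ∧ IsOpen (Y ∩ B ⁻¹' U) := fun U => Iff.rfl
  have hAc : ContinuousOn A X₀ := (continuousOn_open_iff hX).2 fun U hU => ((hopen U).1 hU).1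
  have hBc : ContinuousOn B Y := (continuousOn_open_iff hY).2 fun U hU => ((hopen U).1 hU).2
  have hAo : ∀ O : Set M, O ⊆ X₀ → IsOpen O → IsOpen (A '' O) := by
    intro O hO hOo
    rw [hopen]
    refine ⟨?_, ?_⟩
    · have e : X₀ ∩ A ⁻¹' (A '' O) = O := by
        ext x
        constructor
        · rintro ⟨hx, x', hx', hxx⟩
          rw [← hA (hO hx') hx hxx]
          exact hx'
        · intro hx
          exact ⟨hO hx, x, hx, rfl⟩
      rw [e]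
      exact hOo
    · have e : Y ∩ B ⁻¹' (A '' O) = Y₁ ∩ θ ⁻¹' O := by
        ext y
        constructor
        · rintro ⟨hy, x', hx', hxx⟩
          obtain ⟨h1, h2⟩ := (hAB y hy x' (hO hx')).1 hxx.symm
          refine ⟨h1, ?_⟩
          rw [mem_preimage, h2]
          exact hx'
        · rintro ⟨hy, hy'⟩
          exact ⟨hs hy, θ y, hy', (hBA y hy).symm⟩
      rw [e]
      exact hθc.isOpen_inter_preimage hY₁ hOo
  have hBo : ∀ O : Set E, O ⊆ Y → IsOpen O → IsOpen (B '' O) := by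
    intro O hO hOo
    rw [hopen]
    refine ⟨?_, ?_⟩
    · have e : X₀ ∩ A ⁻¹' (B '' O) = θ '' (O ∩ Y₁) := by
        ext x
        constructor
        · rintro ⟨hx, y, hy, hyx⟩
          obtain ⟨h1, h2⟩ := (hAB y (hO hy) x hx).1 hyx
          exact ⟨y, ⟨hy, h1⟩, h2⟩
        · rintro ⟨y, ⟨hy, hy'⟩, rfl⟩
          exact ⟨hθX hy', y, hy, hBA y hy'⟩
      rw [e]
      exact hθo _ inter_subset_right (hOo.inter hY₁)
    · have e : Y ∩ B ⁻¹' (B '' O) = O := by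
        ext x
        constructor
        · rintro ⟨hx, x', hx', hxx⟩
          rw [← hB (hO hx') hx hxx]
          exact hx'
        · intro hx
          exact ⟨hO hx, x, hx, rfl⟩
      rw [e]
      exact hOo
  have hcov' : ∀ v, (∃ x ∈ X₀, A x = v) ∨ ∃ y ∈ Y, y ∉ Y₁ ∧ B y = v := by
    intro v
    rcases hcov v with h | ⟨y, hy, rfl⟩
    · exact Or.inl h
    · by_cases h : y ∈ Y₁
      · exact Or.inl ⟨θ y, hθX h, (hBA y h).symm⟩
      · exact Or.inr ⟨y, hy, h, rfl⟩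
  have hmix : ∀ x ∈ X₀, ∀ y ∈ Y, y ∉ Y₁ → ∃ u w : Set V, IsOpen u ∧ IsOpen w ∧ A x ∈ u ∧ B y ∈ w ∧
      Disjoint u w := by
    intro x hx y hy hy'
    obtain ⟨U, hU, W, hW, hUW⟩ := hsep y hy hy' x hx
    obtain ⟨U', hU', hU'o, hyU⟩ := mem_nhds_iff.1 hU
    obtain ⟨W', hW', hW'o, hxW⟩ := mem_nhds_iff.1 hW
    refine ⟨A '' (W' ∩ X₀), B '' (U' ∩ Y), hAo _ inter_subset_right (hW'o.inter hX),
      hBo _ inter_subset_right (hU'o.inter hY), ⟨x, ⟨hxW, hx⟩, rfl⟩, ⟨y, ⟨hyU, hy⟩, rfl⟩, ?_⟩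
    rw [Set.disjoint_left]
    rintro _ ⟨x', ⟨hx', hx''⟩, rfl⟩ ⟨z, ⟨hz, hz'⟩, hzx⟩
    obtain ⟨h1, h2⟩ := (hAB z hz' x' hx'').1 hzx
    apply hUW z (hU' hz) h1
    rw [h2]
    exact hW' hx'
  have hT2 : T2Space V := by
    refine ⟨?_⟩
    intro v w hvw
    rcases hcov' v with ⟨x, hx, rfl⟩ | ⟨y, hy, hy', rfl⟩
    · rcases hcov' w with ⟨x', hx', rfl⟩ | ⟨y', hy', hy'', rfl⟩
      · have hne : x ≠ x' := fun h => hvw (by rw [h])
        obtain ⟨u, w, hu, hw, hxu, hxw, hd⟩ := t2_separation hne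
        refine ⟨A '' (u ∩ X₀), A '' (w ∩ X₀), hAo _ inter_subset_right (hu.inter hX),
          hAo _ inter_subset_right (hw.inter hX), ⟨x, ⟨hxu, hx⟩, rfl⟩, ⟨x', ⟨hxw, hx'⟩, rfl⟩, ?_⟩
        rw [Set.disjoint_left]
        rintro _ ⟨z, ⟨hz, hz'⟩, rfl⟩ ⟨z', ⟨hz1, hz2⟩, hzz⟩
        have e := hA hz2 hz' hzz
        rw [e] at hz1
        exact Set.disjoint_left.1 hd hz hz1
      · exact hmix x hx y' hy' hy''
    · rcases hcov' w with ⟨x', hx', rfl⟩ | ⟨y', hy1, hy2, rfl⟩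
      · obtain ⟨u, w, h1, h2, h3, h4, h5⟩ := hmix x' hx' y hy hy'
        exact ⟨w, u, h2, h1, h4, h3, h5.symm⟩
      · have hne : y ≠ y' := fun h => hvw (by rw [h])
        obtain ⟨u, w, hu, hw, hxu, hxw, hd⟩ := t2_separation hne
        refine ⟨B '' (u ∩ Y), B '' (w ∩ Y), hBo _ inter_subset_right (hu.inter hY),
          hBo _ inter_subset_right (hw.inter hY), ⟨y, ⟨hxu, hy⟩, rfl⟩, ⟨y', ⟨hxw, hy1⟩, rfl⟩, ?_⟩
        rw [Set.disjoint_left]
        rintro _ ⟨z, ⟨hz, hz'⟩, rfl⟩ ⟨z', ⟨hz1, hz2⟩, hzz⟩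
        have e := hB hz2 hz' hzz
        rw [e] at hz1
        exact Set.disjoint_left.1 hd hz hz1
  have hAr : IsOpenMap (X₀.restrict A) := by
    intro U hU
    have e : X₀.restrict A '' U = A '' (Subtype.val '' U) := by
      rw [image_image]
      rfl
    rw [e]
    refine hAo _ ?_ (hX.isOpenMap_subtype_val U hU)
    rintro _ ⟨z, -, rfl⟩
    exact z.2
  have hBr : IsOpenMap (Y.restrict B) := by
    intro U hU
    have e : Y.restrict B '' U = B '' (Subtype.val '' U) := by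
      rw [image_image]
      rfl
    rw [e]
    refine hBo _ ?_ (hY.isOpenMap_subtype_val U hU)
    rintro _ ⟨z, -, rfl⟩
    exact z.2
  let A' : OpenPartialHomeomorph M V :=
    OpenPartialHomeomorph.ofContinuousOpenRestrict (hA.toPartialEquiv A X₀) hAc hAr hX
  let B' : OpenPartialHomeomorph E V :=
    OpenPartialHomeomorph.ofContinuousOpenRestrict (hB.toPartialEquiv B Y) hBc hBr hY
  refine ⟨t, A', B', hT2, rfl, rfl, hBA, ?_, ?_⟩
  · rintro y hy hy' ⟨x, hx, hxy⟩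
    exact hy' ((hAB y hy x hx).1 hxy.symm).1
  · rw [eq_univ_iff_forall]
    intro v
    rcases hcov v with ⟨x, hx, rfl⟩ | ⟨y, hy, rfl⟩
    · exact Or.inl ⟨x, hx, rfl⟩
    · exact Or.inr ⟨y, hy, rfl⟩

theorem glue_top {M : Type u} [TopologicalSpace M] [T2Space M] {E : Type} [TopologicalSpace E] [T2Space E]
    [Nonempty E] {X₀ : Set M} (hX : IsOpen X₀) (hne : X₀.Nonempty) {Y Y₁ : Set E} (hY : IsOpen Y)
    (hY₁ : IsOpen Y₁) (hs : Y₁ ⊆ Y) {θ : E → M} (hθc : ContinuousOn θ Y₁) (hθi : InjOn θ Y₁)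
    (hθo : ∀ U ⊆ Y₁, IsOpen U → IsOpen (θ '' U)) (hθX : MapsTo θ Y₁ X₀)
    (hsep : ∀ y ∈ Y, y ∉ Y₁ → ∀ x ∈ X₀, ∃ U ∈ 𝓝 y, ∃ W ∈ 𝓝 x, ∀ z ∈ U, z ∈ Y₁ → θ z ∉ W) :
    ∃ (V : Type u) (_ : TopologicalSpace V) (A : OpenPartialHomeomorph M V) (B : OpenPartialHomeomorph E V),
      T2Space V ∧ A.source = X₀ ∧ B.source = Y ∧ (∀ y ∈ Y₁, B y = A (θ y)) ∧
      (∀ y ∈ Y, y ∉ Y₁ → B y ∉ A.target) ∧ A.target ∪ B.target = univ := by
  classical
  obtain ⟨x₀, hx₀⟩ := hne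
  have hM : Nonempty M := ⟨x₀⟩
  let A : M → X₀ ⊕ {y : E // y ∈ Y ∧ y ∉ Y₁} := fun x =>
    if h : x ∈ X₀ then Sum.inl ⟨x, h⟩ else Sum.inl ⟨x₀, hx₀⟩
  let B : E → X₀ ⊕ {y : E // y ∈ Y ∧ y ∉ Y₁} := fun y =>
    if h : y ∈ Y₁ then Sum.inl ⟨θ y, hθX h⟩ else
      if h' : y ∈ Y then Sum.inr ⟨y, h', h⟩ else Sum.inl ⟨x₀, hx₀⟩
  have hA1 : ∀ (x : M) (h : x ∈ X₀), A x = Sum.inl ⟨x, h⟩ := fun x h => dif_pos h
  have hB1 : ∀ (y : E) (h : y ∈ Y₁), B y = Sum.inl ⟨θ y, hθX h⟩ := fun y h => dif_pos h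
  have hB2 : ∀ (y : E) (h : y ∉ Y₁) (h' : y ∈ Y), B y = Sum.inr ⟨y, h', h⟩ := fun y h h' => by
    simp only [B, dif_neg h, dif_pos h']
  refine ⟨X₀ ⊕ {y : E // y ∈ Y ∧ y ∉ Y₁}, glut_main hX hY hY₁ hs hθc hθo hθX hsep A B ?_ ?_ ?_ ?_⟩
  · intro x hx x' hx' h
    rw [hA1 x hx, hA1 x' hx', Sum.inl.injEq] at h
    exact congrArg Subtype.val h
  · intro y hy y' hy' h
    by_cases h1 : y ∈ Y₁
    · by_cases h2 : y' ∈ Y₁
      · rw [hB1 y h1, hB1 y' h2, Sum.inl.injEq] at h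
        exact hθi h1 h2 (congrArg Subtype.val h)
      · rw [hB1 y h1, hB2 y' h2 hy'] at h
        exact absurd h Sum.inl_ne_inr
    · by_cases h2 : y' ∈ Y₁
      · rw [hB2 y h1 hy, hB1 y' h2] at h
        exact absurd h Sum.inr_ne_inl
      · rw [hB2 y h1 hy, hB2 y' h2 hy', Sum.inr.injEq] at h
        exact congrArg Subtype.val h
  · intro y hy x hx
    by_cases h1 : y ∈ Y₁
    · rw [hB1 y h1, hA1 x hx, Sum.inl.injEq]
      constructor
      · intro h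
        exact ⟨h1, congrArg Subtype.val h⟩
      · rintro ⟨-, h⟩
        exact Subtype.ext h
    · rw [hB2 y h1 hy, hA1 x hx]
      constructor
      · intro h
        exact absurd h Sum.inr_ne_inl
      · rintro ⟨h, -⟩
        exact absurd h h1
  · rintro (⟨x, hx⟩ | ⟨y, hy, hy'⟩)
    · exact Or.inl ⟨x, hx, hA1 x hx⟩
    · exact Or.inr ⟨y, hy, hB2 y hy' hy⟩

end Pool.Agent.ACB
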