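import Pool.Agent.ACB.Bal
import Pool.Agent.ACB.GluT
import Pool.Agent.ACB.GluC

/-!
# ACB/GluM: gluing of manifolds

PROOF.  `θ` is continuous on `Y₁` and maps open subsets of `Y₁` to open sets (local diffeomorphism).  `glue_top` gives `V, A, B`.  Let
`𝓕 = {A.symm.trans e | e ∈ atlas E4 N} ∪ {B.symm}`.  They cover: `v ∈ A.target`: `e = chartAt (A.symm v)`; otherwise `v ∈ B.target`.
Compatibility: (1) `(A.symm.trans e).symm.trans (A.symm.trans e') = e.symm ∘ (restricted to X₀) ∘ e'`: equal to `e' ∘ e.symm` on an open subset of the source of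
`e.symm.trans e'`, smooth (`contDiffOn` of transition maps: `IsManifold`, or `contMDiffOn_chart` etc.).
(2) from `B`-chart to `A.symm.trans e`: `z ↦ e (A.symm (B z))`, defined for `z ∈ Y` with `B z ∈ A.target`, so `z ∈ Y₁`, `A.symm (B z) = θ z`: `e ∘ θ`, smooth since `θ` is smooth at `z`.
(3) from `A.symm.trans e` to `B.symm`: `w ↦ B.symm (A (e.symm w))`, where `x = e.symm w ∈ X₀`, `A x ∈ B.target`: `y = B.symm (A x) ∈ Y`, `B y = A x`, so `y ∈ Y₁` and `θ y = x`
(`A` injective on `X₀`).  Let `Φ` be the partial diffeomorphism of `hθ y`; for `x'` near `x`: `y' = Φ.symm x' ∈ Y₁` (near `y`), `θ y' = x'`, so `B y' = A x'` and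
`B.symm (A x') = y' = Φ.symm x'`: smooth at `x`; compose with `e.symm`.
(4) `B.symm` with itself: identity.
By `mfd_of_family` `V` is a manifold; `B` is the inverse of the chart `B.symm` (`IsLocalDiffeomorphAt` of `B` on `Y`), and `A = (A.symm.trans e).symm ∘ e` near `x`, `e = chartAt x`
(composition of local diffeomorphisms; `chartAt x` is a local diffeomorphism at `x`).
-/

open scoped ContDiff Manifold Topology unitInterval
open Set Filter

namespace Pool.Agent.ACB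

universe u
variable {N : Type u} [TopologicalSpace N] [ChartedSpace E4 N]

section helpers

variable {𝕜 : Type*} [NontriviallyNormedField 𝕜]
  {E : Type*} [NormedAddCommGroup E] [NormedSpace 𝕜 E]
  {F : Type*} [NormedAddCommGroup F] [NormedSpace 𝕜 F]
  {F' : Type*} [NormedAddCommGroup F'] [NormedSpace 𝕜 F']
  {H₁ : Type*} [TopologicalSpace H₁] {H₂ : Type*} [TopologicalSpace H₂]
  {H₃ : Type*} [TopologicalSpace H₃]
  {I₁ : ModelWithCorners 𝕜 E H₁} {J₁ : ModelWithCorners 𝕜 F H₂} {K₁ : ModelWithCorners 𝕜 F' H₃}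
  {M : Type*} [TopologicalSpace M] [ChartedSpace H₁ M]
  {M' : Type*} [TopologicalSpace M'] [ChartedSpace H₂ M']
  {P : Type*} [TopologicalSpace P] [ChartedSpace H₃ P] {n : WithTop ℕ∞}

/-- restriction of a partial diffeomorphism to an open set -/
def gluM_restr (Φ : PartialDiffeomorph I₁ J₁ M M' n) (U : Set M) (hU : IsOpen U) :
    PartialDiffeomorph I₁ J₁ M M' n where
  toPartialEquiv := (Φ.toOpenPartialHomeomorph.restrOpen U hU).toPartialEquiv
  open_source := (Φ.toOpenPartialHomeomorph.restrOpen U hU).open_source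
  open_target := (Φ.toOpenPartialHomeomorph.restrOpen U hU).open_target
  contMDiffOn_toFun := Φ.contMDiffOn_toFun.mono inter_subset_left
  contMDiffOn_invFun := Φ.contMDiffOn_invFun.mono inter_subset_left

theorem gluM_congr {f g : M → M'} {x : M} (hf : IsLocalDiffeomorphAt I₁ J₁ n f x)
    (h : g =ᶠ[𝓝 x] f) : IsLocalDiffeomorphAt I₁ J₁ n g x := by
  obtain ⟨Φ, hx, heq⟩ := hf
  obtain ⟨U, hUsub, hU, hxU⟩ := mem_nhds_iff.1 h
  refine ⟨gluM_restr Φ U hU, ⟨hx, hxU⟩, ?_⟩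
  rintro y ⟨hy1, hy2⟩
  have h1 : g y = f y := hUsub hy2
  rw [h1]
  exact heq hy1

theorem gluM_image_nhds {f : M → M'} {x : M} (hf : IsLocalDiffeomorphAt I₁ J₁ n f x)
    {U : Set M} (hU : U ∈ 𝓝 x) : f '' U ∈ 𝓝 (f x) := by
  obtain ⟨Φ, hx, heq⟩ := hf
  have h1 : Filter.map Φ (𝓝 x) = 𝓝 (Φ x) := Φ.toOpenPartialHomeomorph.map_nhds_eq hx
  have h2 : f =ᶠ[𝓝 x] Φ := Filter.eventuallyEq_of_mem (Φ.open_source.mem_nhds hx) heq
  have h3 : Filter.map f (𝓝 x) = 𝓝 (f x) := by
    rw [Filter.map_congr h2, h1, heq hx]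
  rw [← h3]
  exact Filter.image_mem_map hU

theorem gluM_right {f : M → M'} {g : M' → P} {x : M}
    (hgf : IsLocalDiffeomorphAt I₁ K₁ n (g ∘ f) x) (hg : IsLocalDiffeomorphAt J₁ K₁ n g (f x))
    (hf : ContinuousAt f x) :
    IsLocalDiffeomorphAt I₁ J₁ n f x := by
  have h1 := hg.localInverse_isLocalDiffeomorphAt
  have h3 : IsLocalDiffeomorphAt I₁ J₁ n (hg.localInverse ∘ (g ∘ f)) x :=
    IsLocalDiffeomorphAt.comp (hf := hgf) (hg := h1) ..
  refine gluM_congr h3 ?_
  have h4 := hf.eventually hg.localInverse_eventuallyEq_left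
  filter_upwards [h4] with y hy
  exact hy.symm

end helpers

/-- the charts of the glued manifold -/
def gluM_fam {V : Type u} [TopologicalSpace V] (A : OpenPartialHomeomorph N V)
    (B : OpenPartialHomeomorph E4 V) : Set (OpenPartialHomeomorph V E4) :=
  {e | (∃ c ∈ atlas E4 N, e = A.symm.trans c) ∨ e = B.symm}

theorem gluM_smooth [IsManifold (𝓡 4) ∞ N] {V : Type u} [TopologicalSpace V]
    (A : OpenPartialHomeomorph N V) (B : OpenPartialHomeomorph E4 V) {Y₁ : Set E4}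
    (hY₁ : IsOpen Y₁) {θ : E4 → N} (hθ : ∀ y ∈ Y₁, IsLocalDiffeomorphAt (𝓡 4) (𝓡 4) ∞ θ y)
    (hθX : MapsTo θ Y₁ A.source) (hs : Y₁ ⊆ B.source) (hAB : ∀ y ∈ Y₁, B y = A (θ y))
    (hAB' : ∀ y ∈ B.source, y ∉ Y₁ → B y ∉ A.target) :
    ∀ e ∈ gluM_fam A B, ∀ e' ∈ gluM_fam A B,
      ContDiffOn ℝ ∞ (e.symm.trans e') (e.symm.trans e').source := by
  have hin : ∀ y ∈ B.source, B y ∈ A.target → y ∈ Y₁ := by
    intro y hy hyA
    by_contra h
    exact hAB' y hy h hyA
  have hcs : ∀ c ∈ atlas E4 N, ∀ x ∈ c.source, ContMDiffAt (𝓡 4) (𝓡 4) ∞ c x := by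
    intro c hc x hx
    exact (contMDiffOn_of_mem_maximalAtlas (IsManifold.subset_maximalAtlas hc)).contMDiffAt
      (c.open_source.mem_nhds hx)
  have hcs' : ∀ c ∈ atlas E4 N, ∀ w ∈ c.target, ContMDiffAt (𝓡 4) (𝓡 4) ∞ c.symm w := by
    intro c hc w hw
    exact (contMDiffOn_symm_of_mem_maximalAtlas (IsManifold.subset_maximalAtlas hc)).contMDiffAt
      (c.open_target.mem_nhds hw)
  rintro e he e' he'
  intro w hw
  have hopen : (e.symm.trans e').source ∈ 𝓝 w := (e.symm.trans e').open_source.mem_nhds hw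
  refine ContDiffAt.contDiffWithinAt ?_
  rw [← contMDiffAt_iff_contDiffAt]
  rcases he with ⟨c, hc, rfl⟩ | rfl
  · -- the first chart comes from `N`
    have hw1 : w ∈ (A.symm.trans c).target := hw.1
    have hw2 : A (c.symm w) ∈ e'.source := hw.2
    have hwc : w ∈ c.target := hw1.1
    have hwA : c.symm w ∈ A.source := hw1.2
    rcases he' with ⟨c', hc', rfl⟩ | rfl
    · have hx' : c.symm w ∈ c'.source := by
        have : A.symm (A (c.symm w)) ∈ c'.source := hw2.2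
        rwa [A.left_inv hwA] at this
      have h1 : ContMDiffAt (𝓡 4) (𝓡 4) ∞ (c' ∘ c.symm) w :=
        ContMDiffAt.comp w (hcs c' hc' _ hx') (hcs' c hc w hwc)
      refine h1.congr_of_eventuallyEq ?_
      filter_upwards [hopen] with z hz
      have hzA : c.symm z ∈ A.source := hz.1.2
      show c' (A.symm (A (c.symm z))) = c' (c.symm z)
      rw [A.left_inv hzA]
    · have hw3 : A (c.symm w) ∈ B.target := hw2
      set y := B.symm (A (c.symm w)) with hy
      have hyB : y ∈ B.source := B.map_target hw3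
      have hBy : B y = A (c.symm w) := B.right_inv hw3
      have hyY : y ∈ Y₁ := hin y hyB (by rw [hBy]; exact A.map_source hwA)
      have hθy : θ y = c.symm w := by
        apply A.injOn (hθX hyY) hwA
        rw [← hAB y hyY, hBy]
      obtain ⟨Φ, hΦy, hΦ⟩ := hθ y hyY
      have hΦy' : Φ y = c.symm w := by rw [← hΦ hΦy, hθy]
      have hxT : c.symm w ∈ Φ.target := by
        rw [← hΦy']
        exact Φ.map_source hΦy
      have hsy : Φ.symm (c.symm w) = y := by
        rw [← hΦy']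
        exact Φ.left_inv hΦy
      have h2 : ContMDiffAt (𝓡 4) (𝓡 4) ∞ Φ.symm (c.symm w) :=
        Φ.symm.contMDiffOn_toFun.contMDiffAt (Φ.symm.open_source.mem_nhds hxT)
      have h3 : ContMDiffAt (𝓡 4) (𝓡 4) ∞ (Φ.symm ∘ c.symm) w :=
        ContMDiffAt.comp w h2 (hcs' c hc w hwc)
      refine h3.congr_of_eventuallyEq ?_
      have e1 : ∀ᶠ z in 𝓝 w, c.symm z ∈ Φ.target :=
        (hcs' c hc w hwc).continuousAt.eventually (Φ.open_target.mem_nhds hxT)
      have e2 : ∀ᶠ z in 𝓝 w, Φ.symm (c.symm z) ∈ Y₁ := by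
        have := h3.continuousAt.eventually (hY₁.mem_nhds (by
          show Φ.symm (c.symm w) ∈ Y₁
          rw [hsy]
          exact hyY))
        exact this
      filter_upwards [hopen, e1, e2] with z hz hz1 hz2
      have hzA : c.symm z ∈ A.source := hz.1.2
      show B.symm (A (c.symm z)) = Φ.symm (c.symm z)
      have h4 : Φ.symm (c.symm z) ∈ Φ.source := Φ.map_target hz1
      have h5 : θ (Φ.symm (c.symm z)) = c.symm z := by
        rw [hΦ h4]
        exact Φ.right_inv hz1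
      rw [← h5, ← hAB _ hz2, B.left_inv (hs hz2), h5]
  · -- the first chart comes from `E4`
    have hwB : w ∈ B.source := by
      have := hw.1
      simpa using this
    have hw2 : B w ∈ e'.source := by
      have := hw.2
      simpa using this
    rcases he' with ⟨c, hc, rfl⟩ | rfl
    · have hwY : w ∈ Y₁ := hin w hwB hw2.1
      have hxc : θ w ∈ c.source := by
        have : A.symm (B w) ∈ c.source := hw2.2
        rwa [hAB w hwY, A.left_inv (hθX hwY)] at this
      have h1 : ContMDiffAt (𝓡 4) (𝓡 4) ∞ (c ∘ θ) w :=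
        ContMDiffAt.comp w (hcs c hc _ hxc) (hθ w hwY).contMDiffAt
      refine h1.congr_of_eventuallyEq ?_
      filter_upwards [hY₁.mem_nhds hwY] with z hz
      show c (A.symm (B.symm.symm z)) = c (θ z)
      rw [OpenPartialHomeomorph.symm_symm, hAB z hz, A.left_inv (hθX hz)]
    · have h1 : ContMDiffAt (𝓡 4) (𝓡 4) ∞ (id : E4 → E4) w := contMDiffAt_id
      refine h1.congr_of_eventuallyEq ?_
      filter_upwards [B.open_source.mem_nhds hwB] with z hz
      show B.symm (B.symm.symm z) = z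
      rw [OpenPartialHomeomorph.symm_symm, B.left_inv hz]

theorem glue_mfd [T2Space N] [IsManifold (𝓡 4) ∞ N] {X₀ : Set N} (hX : IsOpen X₀) (hne : X₀.Nonempty)
    {Y Y₁ : Set E4} (hY : IsOpen Y) (hY₁ : IsOpen Y₁) (hs : Y₁ ⊆ Y) {θ : E4 → N}
    (hθ : ∀ y ∈ Y₁, IsLocalDiffeomorphAt (𝓡 4) (𝓡 4) ∞ θ y) (hθi : InjOn θ Y₁) (hθX : MapsTo θ Y₁ X₀)
    (hsep : ∀ y ∈ Y, y ∉ Y₁ → ∀ x ∈ X₀, ∃ U ∈ 𝓝 y, ∃ W ∈ 𝓝 x, ∀ z ∈ U, z ∈ Y₁ → θ z ∉ W) :
    ∃ (V : Type u) (_ : TopologicalSpace V) (_ : ChartedSpace E4 V), IsManifold (𝓡 4) ∞ V ∧ T2Space V ∧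
      ∃ (A : N → V) (B : E4 → V), (∀ x ∈ X₀, IsLocalDiffeomorphAt (𝓡 4) (𝓡 4) ∞ A x) ∧ InjOn A X₀ ∧
        (∀ y ∈ Y, IsLocalDiffeomorphAt (𝓡 4) (𝓡 4) ∞ B y) ∧ InjOn B Y ∧ (∀ y ∈ Y₁, B y = A (θ y)) ∧
        (∀ y ∈ Y, y ∉ Y₁ → ∀ x ∈ X₀, B y ≠ A x) ∧ ∀ v, (∃ x ∈ X₀, v = A x) ∨ ∃ y ∈ Y, v = B y := by
  have hθc : ContinuousOn θ Y₁ := fun y hy => (hθ y hy).contMDiffAt.continuousAt.continuousWithinAt
  have hθo : ∀ U ⊆ Y₁, IsOpen U → IsOpen (θ '' U) := by
    intro U hU hUo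
    rw [isOpen_iff_mem_nhds]
    rintro _ ⟨y, hy, rfl⟩
    exact gluM_image_nhds (hθ y (hU hy)) (hUo.mem_nhds hy)
  obtain ⟨V, tV, A, B, hT2, hAs, hBs, hAB, hAB', hcov⟩ :=
    glue_top hX hne hY hY₁ hs hθc hθi hθo hθX hsep
  have hcov' : ∀ v, v ∈ A.target ∨ v ∈ B.target := fun v => by
    have : v ∈ A.target ∪ B.target := by
      rw [hcov]
      exact mem_univ v
    exact this
  have hcharts : ∀ v, ∃ e ∈ gluM_fam A B, v ∈ e.source := by
    intro v
    rcases hcov' v with hv | hv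
    · refine ⟨A.symm.trans (chartAt E4 (A.symm v)), Or.inl ⟨_, chart_mem_atlas E4 _, rfl⟩, ?_⟩
      exact ⟨hv, mem_chart_source E4 _⟩
    · exact ⟨B.symm, Or.inr rfl, hv⟩
  have hsm := gluM_smooth A B hY₁ hθ (hAs ▸ hθX) (hBs ▸ hs) hAB (by rw [hBs]; exact hAB')
  obtain ⟨cV, hmV, hloc⟩ := mfd_of_family (gluM_fam A B) hcharts hsm
  refine ⟨V, tV, cV, hmV, hT2, A, B, ?_, hAs ▸ A.injOn, ?_, hBs ▸ B.injOn, hAB, ?_, ?_⟩
  · intro x hx
    rw [← hAs] at hx
    have hc : IsLocalDiffeomorphAt (𝓡 4) (𝓡 4) ∞ (chartAt E4 x) x := by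
      refine ⟨⟨(chartAt E4 x).toPartialEquiv, (chartAt E4 x).open_source,
        (chartAt E4 x).open_target, contMDiffOn_chart, contMDiffOn_chart_symm⟩,
        mem_chart_source E4 x, fun _ _ => rfl⟩
    have he : A.symm.trans (chartAt E4 x) ∈ gluM_fam A B :=
      Or.inl ⟨_, chart_mem_atlas E4 _, rfl⟩
    have hv : A x ∈ (A.symm.trans (chartAt E4 x)).source := by
      refine ⟨A.map_source hx, ?_⟩
      show A.symm (A x) ∈ (chartAt E4 x).source
      rw [A.left_inv hx]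
      exact mem_chart_source E4 x
    refine gluM_right (g := A.symm.trans (chartAt E4 x)) ?_ (hloc _ he _ hv) (A.continuousAt hx)
    refine gluM_congr hc ?_
    filter_upwards [A.open_source.mem_nhds hx] with z hz
    show chartAt E4 x (A.symm (A z)) = chartAt E4 x z
    rw [A.left_inv hz]
  · intro y hy
    rw [← hBs] at hy
    refine gluM_right (g := B.symm) ?_ (hloc B.symm (Or.inr rfl) _ (B.map_source hy))
      (B.continuousAt hy)
    refine gluM_congr ((Diffeomorph.refl (𝓡 4) E4 ∞).isLocalDiffeomorph y) ?_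
    filter_upwards [B.open_source.mem_nhds hy] with z hz
    show B.symm (B z) = z
    exact B.left_inv hz
  · intro y hy hyn x hx h
    apply hAB' y hy hyn
    rw [h]
    exact A.map_source (by rw [hAs]; exact hx)
  · intro v
    rcases hcov' v with hv | hv
    · left
      refine ⟨A.symm v, ?_, (A.right_inv hv).symm⟩
      rw [← hAs]
      exact A.map_target hv
    · right
      refine ⟨B.symm v, ?_, (B.right_inv hv).symm⟩
      rw [← hBs]
      exact B.map_target hv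

end Pool.Agent.ACB
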