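import Pool.Agent.ACB.Bal

/-!
# ACB/PlP: polar embedding of C x S2 in E4

`plP (z, v) = (exp (re z) • v, im z) ∈ ℝ³ × ℝ = E4`.

PROOF.  `plP` is a bijection onto the open set `U = {y | (y 0, y 1, y 2) ≠ 0}` with inverse `y ↦ (log ‖w‖ + i y 3, w / ‖w‖)`, `w = (y 0, y 1, y 2) ∈ E3`.  Smooth: `plP` is
`(z, v) ↦ exp (re z) • v` with `v ↦ v.1` smooth (`contMDiff_coe_sphere`); the inverse: `w ≠ 0` on `U`, `ContMDiff.codRestrict_sphere` (or `ContMDiffOn` / at a point) for `w / ‖w‖`.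
So it is a `PartialDiffeomorph` with source `univ`.
-/

open scoped ContDiff Manifold Topology unitInterval
open Set Filter

namespace Pool.Agent.ACB

universe u
variable {N : Type u} [TopologicalSpace N] [ChartedSpace E4 N]

/-- polar embedding -/
noncomputable def plP (x : ℂ × S2) : E4 :=
  !₂[Real.exp x.1.re * x.2.1 0, Real.exp x.1.re * x.2.1 1, Real.exp x.1.re * x.2.1 2, x.1.im]

/-- a base point of the sphere -/
noncomputable def plP_e : S2 := ⟨EuclideanSpace.single 0 1, by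
  rw [mem_sphere_zero_iff_norm, EuclideanSpace.norm_single, norm_one]⟩

theorem plP_mem {v : E3} (h : v ≠ 0) : ‖v‖⁻¹ • v ∈ Metric.sphere (0 : E3) 1 := by
  rw [mem_sphere_zero_iff_norm, norm_smul, norm_inv, norm_norm, inv_mul_cancel₀ (norm_ne_zero_iff.2 h)]

open Classical in
noncomputable def plP_sph (v : E3) : S2 := if h : v ≠ 0 then ⟨‖v‖⁻¹ • v, plP_mem h⟩ else plP_e

theorem plP_sph_coe {v : E3} (hv : v ≠ 0) : (plP_sph v : E3) = ‖v‖⁻¹ • v := by
  unfold plP_sph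
  rw [dif_pos hv]

theorem plP_fact : Fact (Module.finrank ℝ E3 = 2 + 1) := ⟨finrank_euclideanSpace_fin⟩

theorem plP_sph_smooth {v : E3} (hv : v ≠ 0) : ContMDiffAt 𝓘(ℝ, E3) (𝓡 2) ∞ plP_sph v := by
  have hv' : 0 < ‖v‖ := norm_pos_iff.2 hv
  let f : ContDiffBump v := ⟨‖v‖ / 4, ‖v‖ / 2, by linarith, by linarith⟩
  set g : E3 → E3 := fun x => v + f x • (x - v) with hg
  have hgs : ContDiff ℝ ∞ g := contDiff_const.add (f.contDiff.smul (contDiff_id.sub contDiff_const))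
  have hg0 : ∀ x, g x ≠ 0 := by
    intro x hx
    have h1 : f x • (x - v) = -v := by
      have : v + f x • (x - v) = 0 := hx
      exact eq_neg_of_add_eq_zero_right this
    have h2 : |f x| * ‖x - v‖ = ‖v‖ := by
      rw [← Real.norm_eq_abs, ← norm_smul, h1, norm_neg]
    by_cases hd : dist x v < ‖v‖ / 2
    · have h3 : |f x| ≤ 1 := by
        rw [abs_of_nonneg f.nonneg]
        exact f.le_one
      rw [dist_eq_norm] at hd
      have h4 : |f x| * ‖x - v‖ ≤ 1 * ‖x - v‖ := mul_le_mul_of_nonneg_right h3 (norm_nonneg _)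
      linarith
    · have h3 : f x = 0 := f.zero_of_le_dist (not_lt.1 hd)
      rw [h3, abs_zero, zero_mul] at h2
      linarith
  have hF : ContDiff ℝ ∞ fun x => ‖g x‖⁻¹ • g x := by
    have h3 : ContDiff ℝ ∞ fun x => ‖g x‖ := hgs.norm ℝ hg0
    exact (h3.inv fun x => norm_ne_zero_iff.2 (hg0 x)).smul hgs
  have hm : ∀ x, (fun x => ‖g x‖⁻¹ • g x) x ∈ Metric.sphere (0 : E3) 1 := by
    intro x
    exact plP_mem (hg0 x)
  have := plP_fact
  have h1 := ContMDiff.codRestrict_sphere (n := 2) hF.contMDiff hm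
  refine (h1 v).congr_of_eventuallyEq ?_
  have hball : Metric.ball v (‖v‖ / 4) ∈ 𝓝 v := Metric.ball_mem_nhds v (by linarith)
  filter_upwards [hball] with x hx
  have hfx : f x = 1 := f.one_of_mem_closedBall (Metric.ball_subset_closedBall hx)
  have hgx : g x = x := by
    rw [hg]
    change v + f x • (x - v) = x
    rw [hfx, one_smul, add_sub_cancel]
  have hx0 : x ≠ 0 := by
    rw [← hgx]
    exact hg0 x
  apply Subtype.ext
  rw [plP_sph_coe hx0]
  change _ = ‖g x‖⁻¹ • g x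
  rw [hgx]

/-- the first three coordinates -/
noncomputable def plP_w (y : E4) : E3 := !₂[y 0, y 1, y 2]

theorem plP_w_smooth : ContDiff ℝ ∞ plP_w := by
  rw [contDiff_euclidean]
  intro i
  have h : ∀ j : Fin 4, ContDiff ℝ ∞ fun y : E4 => y j := fun j => contDiff_euclidean.1 contDiff_id j
  fin_cases i
  · exact h 0
  · exact h 1
  · exact h 2

theorem plP_w_open : IsOpen {y : E4 | plP_w y ≠ 0} :=
  isOpen_ne_fun plP_w_smooth.continuous continuous_const

/-- the inverse -/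
noncomputable def plP_inv (y : E4) : ℂ × S2 :=
  ((Real.log ‖plP_w y‖ : ℂ) + (y 3 : ℂ) * Complex.I, plP_sph (plP_w y))

theorem plP_inv_smooth {y : E4} (h : plP_w y ≠ 0) :
    ContMDiffAt (𝓡 4) (𝓘(ℝ, ℂ).prod (𝓡 2)) ∞ plP_inv y := by
  have h1 : ContDiffAt ℝ ∞ (fun y : E4 => ‖plP_w y‖) y := plP_w_smooth.contDiffAt.norm ℝ h
  have h2 : ContDiffAt ℝ ∞ (fun y : E4 => Real.log ‖plP_w y‖) y := h1.log (norm_ne_zero_iff.2 h)
  have h3 : ContDiff ℝ ∞ fun y : E4 => y 3 := contDiff_euclidean.1 contDiff_id 3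
  have h4 : ContDiffAt ℝ ∞ (fun y : E4 => (Real.log ‖plP_w y‖ : ℂ) + (y 3 : ℂ) * Complex.I) y :=
    (Complex.ofRealCLM.contDiff.contDiffAt.comp y h2).add
      ((Complex.ofRealCLM.contDiff.comp h3).contDiffAt.mul contDiffAt_const)
  have h5 : ContMDiffAt (𝓡 4) (𝓡 2) ∞ (fun y : E4 => plP_sph (plP_w y)) y :=
    (plP_sph_smooth h).comp y plP_w_smooth.contMDiff.contMDiffAt
  exact h4.contMDiffAt.prodMk h5

theorem plP_smooth : ContMDiff (𝓘(ℝ, ℂ).prod (𝓡 2)) (𝓡 4) ∞ plP := by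
  have := plP_fact
  have h0 : ContMDiff (𝓡 2) 𝓘(ℝ, E3) ∞ (Subtype.val : S2 → E3) := contMDiff_coe_sphere (n := 2)
  have h1 : ContMDiff (𝓘(ℝ, ℂ).prod (𝓡 2)) 𝓘(ℝ, ℂ × E3) ∞ fun x : ℂ × S2 => (x.1, (x.2 : E3)) := by
    exact contMDiff_fst.prodMk_space (h0.comp contMDiff_snd)
  have hre : ContDiff ℝ ∞ fun x : ℂ × E3 => Real.exp x.1.re :=
    Real.contDiff_exp.comp (Complex.reCLM.contDiff.comp contDiff_fst)
  have him : ContDiff ℝ ∞ fun x : ℂ × E3 => x.1.im := Complex.imCLM.contDiff.comp contDiff_fst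
  have hc : ∀ j : Fin 3, ContDiff ℝ ∞ fun x : ℂ × E3 => x.2 j := fun j =>
    contDiff_euclidean.1 contDiff_snd j
  have h2 : ContDiff ℝ ∞ fun x : ℂ × E3 =>
      (!₂[Real.exp x.1.re * x.2 0, Real.exp x.1.re * x.2 1, Real.exp x.1.re * x.2 2, x.1.im] : E4) := by
    rw [contDiff_euclidean]
    intro i
    fin_cases i
    · exact hre.mul (hc 0)
    · exact hre.mul (hc 1)
    · exact hre.mul (hc 2)
    · exact him
  exact h2.contMDiff.comp h1

theorem plP_w_plP (x : ℂ × S2) : plP_w (plP x) = Real.exp x.1.re • (x.2 : E3) := by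
  ext i
  fin_cases i <;> rfl

theorem plP_three (x : ℂ × S2) : plP x 3 = x.1.im := rfl

theorem plP_norm (v : S2) : ‖(v : E3)‖ = 1 := norm_eq_of_mem_sphere v

theorem plP_w_norm (x : ℂ × S2) : ‖plP_w (plP x)‖ = Real.exp x.1.re := by
  rw [plP_w_plP, norm_smul, plP_norm, mul_one, Real.norm_eq_abs, abs_of_pos (Real.exp_pos _)]

theorem plP_w_ne (x : ℂ × S2) : plP_w (plP x) ≠ 0 := by
  rw [← norm_ne_zero_iff, plP_w_norm]
  exact (Real.exp_pos _).ne'

theorem plP_left (x : ℂ × S2) : plP_inv (plP x) = x := by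
  refine Prod.ext ?_ ?_
  · show (Real.log ‖plP_w (plP x)‖ : ℂ) + (plP x 3 : ℂ) * Complex.I = x.1
    rw [plP_w_norm, Real.log_exp, plP_three]
    exact Complex.re_add_im x.1
  · show plP_sph (plP_w (plP x)) = x.2
    apply Subtype.ext
    rw [plP_sph_coe (plP_w_ne x), plP_w_norm, plP_w_plP, smul_smul, inv_mul_cancel₀ (Real.exp_pos _).ne', one_smul]

theorem plP_right {y : E4} (h : plP_w y ≠ 0) : plP (plP_inv y) = y := by
  have hn : 0 < ‖plP_w y‖ := norm_pos_iff.2 h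
  have h1 : plP_w (plP (plP_inv y)) = plP_w y := by
    rw [plP_w_plP]
    have e1 : ((plP_inv y).2 : E3) = ‖plP_w y‖⁻¹ • plP_w y := plP_sph_coe h
    have e2 : (plP_inv y).1.re = Real.log ‖plP_w y‖ := by
      show ((Real.log ‖plP_w y‖ : ℂ) + (y 3 : ℂ) * Complex.I).re = _
      simp
    rw [e1, e2, Real.exp_log hn, smul_smul, mul_inv_cancel₀ hn.ne', one_smul]
  have h2 : plP (plP_inv y) 3 = y 3 := by
    rw [plP_three]
    show ((Real.log ‖plP_w y‖ : ℂ) + (y 3 : ℂ) * Complex.I).im = _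
    simp
  ext i
  fin_cases i
  · exact congrArg (fun w : E3 => w 0) h1
  · exact congrArg (fun w : E3 => w 1) h1
  · exact congrArg (fun w : E3 => w 2) h1
  · exact h2

theorem plP_loc (x : ℂ × S2) : IsLocalDiffeomorphAt (𝓘(ℝ, ℂ).prod (𝓡 2)) (𝓡 4) ∞ plP x := by
  refine ⟨⟨⟨plP, plP_inv, univ, {y | plP_w y ≠ 0}, fun x _ => plP_w_ne x, fun _ _ => mem_univ _,
    fun x _ => plP_left x, fun y hy => plP_right hy⟩, isOpen_univ, plP_w_open, plP_smooth.contMDiffOn,
    fun y hy => (plP_inv_smooth hy).contMDiffWithinAt⟩, mem_univ _, fun _ _ => rfl⟩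

theorem plP_inj : Function.Injective plP := Function.LeftInverse.injective plP_left

theorem plP_open {U : Set (ℂ × S2)} (hU : IsOpen U) : IsOpen (plP '' U) := by
  have e : plP '' U = {y | plP_w y ≠ 0} ∩ plP_inv ⁻¹' U := by
    ext y
    constructor
    · rintro ⟨x, hx, rfl⟩
      exact ⟨plP_w_ne x, by rw [mem_preimage, plP_left]; exact hx⟩
    · rintro ⟨hy, hy'⟩
      exact ⟨plP_inv y, hy', plP_right hy⟩
  rw [e]
  have hc : ContinuousOn plP_inv {y | plP_w y ≠ 0} := fun y hy =>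
    (plP_inv_smooth hy).continuousAt.continuousWithinAt
  exact hc.isOpen_inter_preimage plP_w_open hU

theorem plP_cont : Continuous plP := plP_smooth.continuous

end Pool.Agent.ACB
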