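import Pool.Agent.ACB.Bal

/-!
# ACB/PlT: polar coordinates around a thick circle

PROOF.  `θ₀ (z, v) = κ (arg z / (2 π), ‖z‖ • v)`.  Formula: `z = r * ex l`, `0 < r`: `‖z‖ = r`, `arg z = 2 π l + 2 π m` for an integer `m` (`ex (arg z / 2π) = z / ‖z‖ = ex l`; `ex` is
injective modulo `ℤ`), periodicity of `κ` (for `‖r v‖ < ε`; periodicity by integers: induction from `h.per`).
Local diffeomorphism at `(z₀, v₀)`: let `l₀ = arg z₀ / 2π`; for `z` near `z₀` put `l (z) = l₀ + arg (z / z₀) / (2 π)` (smooth near `z₀`: `Complex.arg` / `Complex.log` is smooth near `1`);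
`z = ‖z‖ * ex (l z)`, so `θ₀ (z, v) = κ (l z, ‖z‖ • v)` near `(z₀, v₀)`.  The map `T (z, v) = (l z, ‖z‖ • v) ∈ ℝ × E3` is a local diffeomorphism: inverse near `T (z₀, v₀)`:
`(l, w) ↦ (‖w‖ * ex l, w / ‖w‖)` (smooth for `w ≠ 0`, `ContMDiff.codRestrict_sphere`).  Compose with `κ` (`h.loc`, `‖‖z₀‖ • v₀‖ = ‖z₀‖ < ε`).
Injectivity: `h.inj` gives `‖z‖ • v = ‖z'‖ • v'`, so `‖z‖ = ‖z'‖`, `v = v'`, and the arguments agree modulo `2 π ℤ`.
-/

open scoped ContDiff Manifold Topology unitInterval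
open Set Filter

namespace Pool.Agent.ACB

universe u
variable {N : Type u} [TopologicalSpace N] [ChartedSpace E4 N]

/-! ### the function `ex` -/

theorem plT_ex_add (x y : ℝ) : ex (x + y) = ex x * ex y := by
  unfold ex
  rw [← Complex.exp_add]
  congr 1
  push_cast
  ring

theorem plT_ex_int (m : ℤ) : ex m = 1 := by
  unfold ex
  rw [Complex.exp_eq_one_iff]
  refine ⟨m, ?_⟩
  push_cast
  ring

theorem plT_ex_add_int (x : ℝ) (m : ℤ) : ex (x + m) = ex x := by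
  rw [plT_ex_add, plT_ex_int, mul_one]

theorem plT_ex_norm (x : ℝ) : ‖ex x‖ = 1 := by
  unfold ex
  exact Complex.norm_exp_ofReal_mul_I _

theorem plT_ex_ne (x : ℝ) : ex x ≠ 0 := Complex.exp_ne_zero _

theorem plT_ex_eq {x y : ℝ} (h : ex x = ex y) : ∃ m : ℤ, y = x + m := by
  unfold ex at h
  rw [Complex.exp_eq_exp_iff_exists_int] at h
  obtain ⟨m, hm⟩ := h
  refine ⟨-m, ?_⟩
  have h2 := congrArg Complex.im hm
  have hpi : Real.pi ≠ 0 := Real.pi_ne_zero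
  have e1 : (((2 * Real.pi * x : ℝ) : ℂ) * Complex.I).im = 2 * Real.pi * x := by
    rw [Complex.im_ofReal_mul, Complex.I_im, mul_one]
  have e2 : (((2 * Real.pi * y : ℝ) : ℂ) * Complex.I + (m : ℂ) * (2 * Real.pi * Complex.I)).im =
      2 * Real.pi * y + m * (2 * Real.pi) := by
    have e3 : ((2 * Real.pi * y : ℝ) : ℂ) * Complex.I + (m : ℂ) * (2 * Real.pi * Complex.I) =
        ((2 * Real.pi * y + m * (2 * Real.pi) : ℝ) : ℂ) * Complex.I := by
      push_cast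
      ring
    rw [e3, Complex.im_ofReal_mul, Complex.I_im, mul_one]
  rw [e1, e2] at h2
  push_cast
  have h3 : (2 * Real.pi) * x = (2 * Real.pi) * (y + m) := by linarith
  have h4 := mul_left_cancel₀ (by positivity) h3
  linarith

theorem plT_ex_arg (p : ℂ) : (‖p‖ : ℂ) * ex (Complex.arg p / (2 * Real.pi)) = p := by
  unfold ex
  have hpi : Real.pi ≠ 0 := Real.pi_ne_zero
  rw [show 2 * Real.pi * (Complex.arg p / (2 * Real.pi)) = Complex.arg p by field_simp]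
  exact Complex.norm_mul_exp_arg_mul_I p

theorem plT_ex_smooth : ContDiff ℝ ∞ ex := by
  unfold ex
  apply Complex.contDiff_exp.comp
  apply ContDiff.mul _ contDiff_const
  have h : ContDiff ℝ ∞ (fun x : ℝ => 2 * Real.pi * x) := by fun_prop
  exact Complex.ofRealCLM.contDiff.comp h

theorem plT_ex_log {r x : ℝ} (hr : 0 < r) (h1 : -(1 / 2) < x) (h2 : x < 1 / 2) :
    (Complex.log ((r : ℂ) * ex x)).im = 2 * Real.pi * x := by
  have hpi := Real.pi_pos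
  rw [Complex.log_im, Complex.arg_real_mul _ hr]
  unfold ex
  rw [Complex.arg_exp_mul_I, toIocMod_eq_self]
  constructor
  · nlinarith
  · nlinarith

/-! ### local diffeomorphisms -/

section
variable {E : Type*} [NormedAddCommGroup E] [NormedSpace ℝ E]
  {F : Type*} [NormedAddCommGroup F] [NormedSpace ℝ F]
  {H : Type*} [TopologicalSpace H] {G : Type*} [TopologicalSpace G]
  {I₁ : ModelWithCorners ℝ E H} {J : ModelWithCorners ℝ F G}
  {M : Type*} [TopologicalSpace M] [ChartedSpace H M]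
  {N : Type*} [TopologicalSpace N] [ChartedSpace G N]

theorem plT_ld_two {f : M → N} {g : N → M} {x : M}
    (hf : ∀ᶠ y in 𝓝 x, ContMDiffAt I₁ J ∞ f y) (hg : ∀ᶠ y in 𝓝 (f x), ContMDiffAt J I₁ ∞ g y)
    (hgf : ∀ᶠ y in 𝓝 x, g (f y) = y) (hfg : ∀ᶠ y in 𝓝 (f x), f (g y) = y) :
    IsLocalDiffeomorphAt I₁ J ∞ f x := by
  obtain ⟨U, hUs, hU, hxU⟩ := mem_nhds_iff.1 (hf.and hgf)
  obtain ⟨V, hVs, hV, hxV⟩ := mem_nhds_iff.1 (hg.and hfg)
  have hfc : ContinuousOn f U := fun y hy => (hUs hy).1.continuousAt.continuousWithinAt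
  have hgc : ContinuousOn g V := fun y hy => (hVs hy).1.continuousAt.continuousWithinAt
  refine ⟨{ toFun := f, invFun := g, source := U ∩ f ⁻¹' V, target := V ∩ g ⁻¹' U,
            map_source' := ?_, map_target' := ?_, left_inv' := ?_, right_inv' := ?_,
            open_source := hfc.isOpen_inter_preimage hU hV,
            open_target := hgc.isOpen_inter_preimage hV hU,
            contMDiffOn_toFun := ?_, contMDiffOn_invFun := ?_ }, ⟨hxU, hxV⟩, fun _ _ => rfl⟩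
  · rintro y ⟨hy1, hy2⟩
    refine ⟨hy2, ?_⟩
    change g (f y) ∈ U
    rw [(hUs hy1).2]
    exact hy1
  · rintro y ⟨hy1, hy2⟩
    refine ⟨hy2, ?_⟩
    change f (g y) ∈ V
    rw [(hVs hy1).2]
    exact hy1
  · rintro y ⟨hy1, hy2⟩
    exact (hUs hy1).2
  · rintro y ⟨hy1, hy2⟩
    exact (hVs hy1).2
  · rintro y ⟨hy1, hy2⟩
    exact (hUs hy1).1.contMDiffWithinAt
  · rintro y ⟨hy1, hy2⟩
    exact (hVs hy1).1.contMDiffWithinAt

/-- restriction of a partial diffeomorphism to an open set -/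
noncomputable def plT_restr (Φ : PartialDiffeomorph I₁ J M N ∞) (U : Set M) (hU : IsOpen U) :
    PartialDiffeomorph I₁ J M N ∞ where
  toPartialEquiv := (Φ.toOpenPartialHomeomorph.restrOpen U hU).toPartialEquiv
  open_source := (Φ.toOpenPartialHomeomorph.restrOpen U hU).open_source
  open_target := (Φ.toOpenPartialHomeomorph.restrOpen U hU).open_target
  contMDiffOn_toFun := Φ.contMDiffOn_toFun.mono inter_subset_left
  contMDiffOn_invFun := Φ.contMDiffOn_invFun.mono inter_subset_left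

theorem plT_ld_congr {f g : M → N} {x : M} (hf : IsLocalDiffeomorphAt I₁ J ∞ f x)
    (h : g =ᶠ[𝓝 x] f) : IsLocalDiffeomorphAt I₁ J ∞ g x := by
  obtain ⟨Φ, hx, heq⟩ := hf
  obtain ⟨U, hUsub, hU, hxU⟩ := mem_nhds_iff.1 h
  refine ⟨plT_restr Φ U hU, ⟨hx, hxU⟩, ?_⟩
  rintro y ⟨hy1, hy2⟩
  have h1 : g y = f y := hUsub hy2
  rw [h1]
  exact heq hy1

end

/-! ### the radial projection to the sphere -/

/-- the radial projection to the sphere -/
noncomputable def plT_sph (e : S2) (v : E3) : S2 :=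
  open Classical in
  if h : v = 0 then e else ⟨‖v‖⁻¹ • v, by simp [norm_smul, norm_ne_zero_iff.2 h]⟩

theorem plT_sph_coe (e : S2) {v : E3} (hv : v ≠ 0) : (plT_sph e v : E3) = ‖v‖⁻¹ • v := by
  unfold plT_sph
  rw [dif_neg hv]

theorem plT_sph_smooth (e : S2) {v : E3} (hv : v ≠ 0) :
    ContMDiffAt 𝓘(ℝ, E3) (𝓡 2) ∞ (plT_sph e) v := by
  have := Fact.mk (@finrank_euclideanSpace_fin ℝ _ (2 + 1))
  have hv' : 0 < ‖v‖ := norm_pos_iff.2 hv
  let f : ContDiffBump v := ⟨‖v‖ / 4, ‖v‖ / 2, by linarith, by linarith⟩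
  set g : E3 → E3 := fun x => v + f x • (x - v) with hg
  have hgs : ContDiff ℝ ∞ g := contDiff_const.add (f.contDiff.smul (contDiff_id.sub contDiff_const))
  have hg0 : ∀ x, g x ≠ 0 := by
    intro x hx
    have h1 : f x • (x - v) = -v := by
      have : v + f x • (x - v) = 0 := hx
      exact eq_neg_of_add_eq_zero_right this
    have h2 : |f x| * ‖x - v‖ = ‖v‖ := by
      rw [← Real.norm_eq_abs, ← norm_smul, h1, norm_neg]
    by_cases hd : dist x v < ‖v‖ / 2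
    · have h3 : |f x| ≤ 1 := by
        rw [abs_of_nonneg f.nonneg]
        exact f.le_one
      rw [dist_eq_norm] at hd
      have h4 : |f x| * ‖x - v‖ ≤ 1 * ‖x - v‖ := mul_le_mul_of_nonneg_right h3 (norm_nonneg _)
      linarith
    · have h3 : f x = 0 := f.zero_of_le_dist (not_lt.1 hd)
      rw [h3, abs_zero, zero_mul] at h2
      linarith
  have hF : ContDiff ℝ ∞ fun x => ‖g x‖⁻¹ • g x := by
    have h3 : ContDiff ℝ ∞ fun x => ‖g x‖ := hgs.norm ℝ hg0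
    exact (h3.inv fun x => norm_ne_zero_iff.2 (hg0 x)).smul hgs
  have hm : ∀ x, (fun x => ‖g x‖⁻¹ • g x) x ∈ Metric.sphere (0 : E3) 1 := by
    intro x
    rw [mem_sphere_zero_iff_norm]
    change ‖‖g x‖⁻¹ • g x‖ = 1
    rw [norm_smul, norm_inv, norm_norm, inv_mul_cancel₀ (norm_ne_zero_iff.2 (hg0 x))]
  have h1 := ContMDiff.codRestrict_sphere (n := 2) hF.contMDiff hm
  refine (h1 v).congr_of_eventuallyEq ?_
  have hball : Metric.ball v (‖v‖ / 4) ∈ 𝓝 v := Metric.ball_mem_nhds v (by linarith)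
  filter_upwards [hball] with x hx
  have hfx : f x = 1 := f.one_of_mem_closedBall (Metric.ball_subset_closedBall hx)
  have hgx : g x = x := by
    rw [hg]
    change v + f x • (x - v) = x
    rw [hfx, one_smul, add_sub_cancel]
  have hx0 : x ≠ 0 := by
    rw [← hgx]
    exact hg0 x
  apply Subtype.ext
  rw [plT_sph_coe e hx0]
  change _ = ‖g x‖⁻¹ • g x
  rw [hgx]

theorem plT_norm (v : S2) : ‖v.1‖ = 1 := norm_eq_of_mem_sphere v

theorem plT_norm_smul {r : ℝ} (hr : 0 ≤ r) (v : S2) : ‖r • v.1‖ = r := by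
  rw [norm_smul, plT_norm, mul_one, Real.norm_of_nonneg hr]

/-! ### the coordinate change -/

/-- the angle near `z₀` -/
noncomputable def plT_l (z₀ z : ℂ) : ℝ :=
  Complex.arg z₀ / (2 * Real.pi) + (Complex.log (z / z₀)).im / (2 * Real.pi)

theorem plT_l_spec {z₀ z : ℂ} (h0 : z₀ ≠ 0) : (‖z‖ : ℂ) * ex (plT_l z₀ z) = z := by
  unfold plT_l
  rw [Complex.log_im, plT_ex_add]
  have h1 := plT_ex_arg z₀
  have h2 := plT_ex_arg (z / z₀)
  have h3 : z = (z / z₀) * z₀ := by rw [div_mul_cancel₀ _ h0]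
  have h4 : (‖z‖ : ℂ) = (‖z / z₀‖ : ℂ) * ‖z₀‖ := by
    rw [← Complex.ofReal_mul, ← norm_mul, div_mul_cancel₀ _ h0]
  rw [h4]
  calc (‖z / z₀‖ : ℂ) * ‖z₀‖ * (ex (Complex.arg z₀ / (2 * Real.pi)) *
        ex (Complex.arg (z / z₀) / (2 * Real.pi)))
      = ((‖z / z₀‖ : ℂ) * ex (Complex.arg (z / z₀) / (2 * Real.pi))) *
        ((‖z₀‖ : ℂ) * ex (Complex.arg z₀ / (2 * Real.pi))) := by ring
    _ = z := by rw [h1, h2, ← h3]

theorem plT_l_smooth {z₀ z : ℂ} (h : z / z₀ ∈ Complex.slitPlane) :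
    ContDiffAt ℝ ∞ (plT_l z₀) z := by
  have h5 : ContDiffAt ℝ ∞ Complex.log (z / z₀) := (Complex.contDiffAt_log h).restrict_scalars ℝ
  have h4 : ContDiffAt ℝ ∞ (fun q : ℂ => Complex.log (q / z₀)) z :=
    ContDiffAt.comp (f := fun q : ℂ => q / z₀) z h5 (contDiffAt_id.div_const _)
  exact contDiffAt_const.add ((Complex.imCLM.contDiff.contDiffAt.comp _ h4).div_const _)

/-- the polar coordinates are a local diffeomorphism -/
theorem plT_ld {z₀ : ℂ} (v₀ : S2) (h0 : z₀ ≠ 0) :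
    IsLocalDiffeomorphAt (𝓘(ℝ, ℂ).prod (𝓡 2)) 𝓘(ℝ, ℝ × E3) ∞
      (fun q : ℂ × S2 => (plT_l z₀ q.1, ‖q.1‖ • q.2.1)) (z₀, v₀) := by
  have := Fact.mk (@finrank_euclideanSpace_fin ℝ _ (2 + 1))
  have hn0 : 0 < ‖z₀‖ := norm_pos_iff.2 h0
  have hpi := Real.pi_pos
  -- the inverse
  let g : ℝ × E3 → ℂ × S2 := fun p => ((‖p.2‖ : ℂ) * ex p.1, plT_sph v₀ p.2)
  have hl0 : plT_l z₀ z₀ = Complex.arg z₀ / (2 * Real.pi) := by
    unfold plT_l
    rw [div_self h0, Complex.log_one]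
    simp
  have o1 : ∀ᶠ q : ℂ × S2 in 𝓝 (z₀, v₀), q.1 ≠ 0 :=
    continuousAt_fst.eventually_ne h0
  have o2 : ∀ᶠ q : ℂ × S2 in 𝓝 (z₀, v₀), q.1 / z₀ ∈ Complex.slitPlane := by
    have hc : ContinuousAt (fun q : ℂ × S2 => q.1 / z₀) (z₀, v₀) := by
      apply Continuous.continuousAt
      exact continuous_fst.div_const _
    apply hc.eventually_mem
    apply Complex.isOpen_slitPlane.mem_nhds
    change z₀ / z₀ ∈ Complex.slitPlane
    rw [div_self h0]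
    exact Complex.one_mem_slitPlane
  have hne : ‖z₀‖ • v₀.1 ≠ 0 := by
    rw [← norm_pos_iff, plT_norm_smul hn0.le]
    exact hn0
  have o3 : ∀ᶠ p : ℝ × E3 in 𝓝 (Complex.arg z₀ / (2 * Real.pi), ‖z₀‖ • v₀.1), p.2 ≠ 0 :=
    continuousAt_snd.eventually_ne hne
  have o4 : ∀ᶠ p : ℝ × E3 in 𝓝 (Complex.arg z₀ / (2 * Real.pi), ‖z₀‖ • v₀.1),
      |p.1 - Complex.arg z₀ / (2 * Real.pi)| < 1 / 2 := by
    have : ContinuousAt (fun p : ℝ × E3 => |p.1 - Complex.arg z₀ / (2 * Real.pi)|)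
        (Complex.arg z₀ / (2 * Real.pi), ‖z₀‖ • v₀.1) := by fun_prop
    exact this.eventually_lt continuousAt_const (by simp)
  refine plT_ld_two (g := g) ?_ ?_ ?_ ?_
  · filter_upwards [o1, o2] with q h1 h2
    have s1 : ContMDiffAt (𝓘(ℝ, ℂ).prod (𝓡 2)) 𝓘(ℝ, ℝ) ∞ (fun q : ℂ × S2 => plT_l z₀ q.1) q :=
      (plT_l_smooth h2).contMDiffAt.comp q contMDiffAt_fst
    have s2 : ContMDiffAt (𝓘(ℝ, ℂ).prod (𝓡 2)) 𝓘(ℝ, ℝ) ∞ (fun q : ℂ × S2 => ‖q.1‖) q :=
      (contDiffAt_norm ℝ h1).contMDiffAt.comp q contMDiffAt_fst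
    have s3 : ContMDiffAt (𝓘(ℝ, ℂ).prod (𝓡 2)) 𝓘(ℝ, E3) ∞ (fun q : ℂ × S2 => q.2.1) q :=
      ContMDiffAt.comp q ((contMDiff_coe_sphere (n := 2)) q.2) contMDiffAt_snd
    exact s1.prodMk_space (s2.smul s3)
  · change ∀ᶠ y : ℝ × E3 in 𝓝 (plT_l z₀ z₀, ‖z₀‖ • v₀.1), _
    rw [hl0]
    filter_upwards [o3] with p h3
    have s1 : ContDiffAt ℝ ∞ (fun p : ℝ × E3 => (‖p.2‖ : ℂ) * ex p.1) p := by
      have a1 : ContDiffAt ℝ ∞ (fun p : ℝ × E3 => ((‖p.2‖ : ℝ) : ℂ)) p :=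
        Complex.ofRealCLM.contDiff.contDiffAt.comp _
          (ContDiffAt.comp p (contDiffAt_norm ℝ h3) contDiffAt_snd)
      exact a1.mul (plT_ex_smooth.contDiffAt.comp p contDiffAt_fst)
    have s2 : ContMDiffAt 𝓘(ℝ, ℝ × E3) (𝓡 2) ∞ (fun p : ℝ × E3 => plT_sph v₀ p.2) p :=
      ContMDiffAt.comp p (plT_sph_smooth v₀ h3) contDiffAt_snd.contMDiffAt
    exact s1.contMDiffAt.prodMk s2
  · have hc : ∀ᶠ q : ℂ × S2 in 𝓝 (z₀, v₀), q.1 ≠ 0 := o1
    filter_upwards [o1] with q h1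
    have hn : 0 < ‖q.1‖ := norm_pos_iff.2 h1
    change ((‖‖q.1‖ • q.2.1‖ : ℂ) * ex (plT_l z₀ q.1), plT_sph v₀ (‖q.1‖ • q.2.1)) = q
    rw [plT_norm_smul hn.le, plT_l_spec h0]
    refine Prod.ext rfl (Subtype.ext ?_)
    have h2 : ‖q.1‖ • q.2.1 ≠ 0 := by
      rw [← norm_pos_iff, plT_norm_smul hn.le]
      exact hn
    change (plT_sph v₀ (‖q.1‖ • q.2.1) : E3) = q.2.1
    rw [plT_sph_coe _ h2, plT_norm_smul hn.le, smul_smul, inv_mul_cancel₀ hn.ne', one_smul]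
  · change ∀ᶠ y : ℝ × E3 in 𝓝 (plT_l z₀ z₀, ‖z₀‖ • v₀.1), _
    rw [hl0]
    filter_upwards [o3, o4] with p h3 h4
    have hp : 0 < ‖p.2‖ := norm_pos_iff.2 h3
    change (plT_l z₀ ((‖p.2‖ : ℂ) * ex p.1), ‖(‖p.2‖ : ℂ) * ex p.1‖ • (plT_sph v₀ p.2).1) = p
    have e1 : ‖(‖p.2‖ : ℂ) * ex p.1‖ = ‖p.2‖ := by
      rw [norm_mul, plT_ex_norm, mul_one, Complex.norm_real, norm_norm]
    have e2 : plT_l z₀ ((‖p.2‖ : ℂ) * ex p.1) = p.1 := by
      unfold plT_l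
      have h5 : (‖p.2‖ : ℂ) * ex p.1 / z₀ =
          ((‖p.2‖ / ‖z₀‖ : ℝ) : ℂ) * ex (p.1 - Complex.arg z₀ / (2 * Real.pi)) := by
        rw [div_eq_iff h0]
        have h8 := plT_ex_arg z₀
        have h6 : ex p.1 = ex (p.1 - Complex.arg z₀ / (2 * Real.pi)) *
            ex (Complex.arg z₀ / (2 * Real.pi)) := by
          rw [← plT_ex_add, sub_add_cancel]
        rw [h6]
        have h7 : (‖z₀‖ : ℂ) ≠ 0 := by exact_mod_cast hn0.ne'
        generalize ex (p.1 - Complex.arg z₀ / (2 * Real.pi)) = A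
        generalize ex (Complex.arg z₀ / (2 * Real.pi)) = B at h8 ⊢
        push_cast
        rw [div_mul_eq_mul_div, div_mul_eq_mul_div, eq_div_iff h7]
        linear_combination (‖p.2‖ : ℂ) * A * h8
      rw [h5, plT_ex_log (div_pos hp hn0) (by linarith [(abs_lt.1 h4).1]) (abs_lt.1 h4).2]
      field_simp
      ring
    rw [e1, e2, plT_sph_coe _ h3, smul_smul, mul_inv_cancel₀ hp.ne', one_smul]

theorem plT_per {κ : ℝ × E3 → N} {ε : ℝ} (h : Thick κ ε) (l : ℝ) {v : E3} (hv : ‖v‖ < ε)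
    (m : ℤ) : κ (l + m, v) = κ (l, v) := by
  have hnat : ∀ (n : ℕ) (l : ℝ), κ (l + n, v) = κ (l, v) := by
    intro n
    induction n with
    | zero => intro l; simp
    | succ n ih =>
      intro l
      rw [Nat.cast_succ, ← add_assoc, h.per _ _ hv, ih]
  obtain ⟨n, rfl | rfl⟩ := m.eq_nat_or_neg
  · exact hnat n l
  · rw [← hnat n (l + ((-(n : ℤ) : ℤ) : ℝ))]
    congr 2
    push_cast
    ring

theorem polar_map {κ : ℝ × E3 → N} {ε : ℝ} (h : Thick κ ε) :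
    ∃ θ₀ : ℂ × S2 → N,
      (∀ (l r : ℝ) (v : S2), 0 < r → r < ε → θ₀ (r * ex l, v) = κ (l, r • v.1)) ∧
      (∀ (z : ℂ) (v : S2), 0 < ‖z‖ → ‖z‖ < ε →
        IsLocalDiffeomorphAt (𝓘(ℝ, ℂ).prod (𝓡 2)) (𝓡 4) ∞ θ₀ (z, v)) ∧
      ∀ (z : ℂ) (v : S2) (z' : ℂ) (v' : S2), 0 < ‖z‖ → ‖z‖ < ε → 0 < ‖z'‖ → ‖z'‖ < ε →
        θ₀ (z, v) = θ₀ (z', v') → z = z' ∧ v = v' := by
  -- general form of the formula
  have key : ∀ (z : ℂ) (l : ℝ) (v : S2), 0 < ‖z‖ → ‖z‖ < ε → (‖z‖ : ℂ) * ex l = z →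
      κ (Complex.arg z / (2 * Real.pi), ‖z‖ • v.1) = κ (l, ‖z‖ • v.1) := by
    intro z l v h1 h2 h3
    have h4 : ex (Complex.arg z / (2 * Real.pi)) = ex l := by
      have h5 := plT_ex_arg z
      have h6 : (‖z‖ : ℂ) ≠ 0 := by exact_mod_cast h1.ne'
      exact mul_left_cancel₀ h6 (h5.trans h3.symm)
    obtain ⟨m, hm⟩ := plT_ex_eq h4
    rw [hm, plT_per h _ (by rw [plT_norm_smul h1.le]; exact h2)]
  refine ⟨fun q => κ (Complex.arg q.1 / (2 * Real.pi), ‖q.1‖ • q.2.1), ?_, ?_, ?_⟩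
  · intro l r v h1 h2
    have e1 : ‖(r : ℂ) * ex l‖ = r := by
      rw [norm_mul, plT_ex_norm, mul_one, Complex.norm_real, Real.norm_of_nonneg h1.le]
    have h3 := key (r * ex l) l v (by rw [e1]; exact h1) (by rw [e1]; exact h2) (by rw [e1])
    rw [e1] at h3
    change κ (Complex.arg ((r : ℂ) * ex l) / (2 * Real.pi), ‖(r : ℂ) * ex l‖ • v.1) = _
    rw [e1]
    exact h3
  · intro z v h1 h2
    have h0 : z ≠ 0 := norm_pos_iff.1 h1
    have hld := plT_ld v h0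
    have hκ : IsLocalDiffeomorphAt 𝓘(ℝ, ℝ × E3) (𝓡 4) ∞ κ
        ((fun q : ℂ × S2 => (plT_l z q.1, ‖q.1‖ • q.2.1)) (z, v)) :=
      h.loc _ _ (by
        change ‖‖z‖ • v.1‖ < ε
        rw [plT_norm_smul h1.le]
        exact h2)
    have hc := IsLocalDiffeomorphAt.comp (hf := hld) (g := κ) (hg := hκ)
    refine plT_ld_congr hc ?_
    have o1 : ∀ᶠ q : ℂ × S2 in 𝓝 (z, v), 0 < ‖q.1‖ := by
      have : ContinuousAt (fun q : ℂ × S2 => ‖q.1‖) (z, v) := by fun_prop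
      exact continuousAt_const.eventually_lt this h1
    have o2 : ∀ᶠ q : ℂ × S2 in 𝓝 (z, v), ‖q.1‖ < ε := by
      have : ContinuousAt (fun q : ℂ × S2 => ‖q.1‖) (z, v) := by fun_prop
      exact this.eventually_lt continuousAt_const h2
    filter_upwards [o1, o2] with q h3 h4
    exact key q.1 (plT_l z q.1) q.2 h3 h4 (plT_l_spec h0)
  · intro z v z' v' h1 h2 h3 h4 he
    obtain ⟨h5, m, hm⟩ := h.inj _ _ _ _ (by
      change ‖‖z‖ • v.1‖ < ε
      rw [plT_norm_smul h1.le]; exact h2) (by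
      change ‖‖z'‖ • v'.1‖ < ε
      rw [plT_norm_smul h3.le]; exact h4) he
    change ‖z‖ • v.1 = ‖z'‖ • v'.1 at h5
    have h6 : ‖z‖ = ‖z'‖ := by
      have := congrArg norm h5
      rwa [plT_norm_smul h1.le, plT_norm_smul h3.le] at this
    constructor
    · rw [← plT_ex_arg z, ← plT_ex_arg z', h6]
      have h7 : Complex.arg z' / (2 * Real.pi) = Complex.arg z / (2 * Real.pi) + m := hm
      rw [h7, plT_ex_add_int]
    · rw [h6] at h5
      exact Subtype.ext (smul_right_injective E3 h3.ne' h5)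

end Pool.Agent.ACB
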