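import Pool.Agent.ACB.Bal

/-!
# ACB/Imm: immersed curves

PROOFS.  `coord_smooth`: `b'` is smooth at `c t` (`IsBall.contMDiffAt'`), composition; `contMDiffAt_iff_contDiffAt`.
`imm_iff`: (<-) by definition.  (->) Let `e, e'` be a ball with `c t ∈ range e`, `deriv (e' ∘ c) t ≠ 0`.  Near `t`
(`c` is continuous at `t`, `range b` is open) `e' ∘ c = (e' ∘ b) ∘ (b' ∘ c)` (`IsBall.right_inv`), `e' ∘ b` is differentiable
at `b' (c t)` (`b` smooth, `e'` smooth at `c t = b (b' (c t))`).  If `deriv (b' ∘ c) t = 0` then the chain rule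
(`fderiv.comp_deriv` or `HasDerivAt` of a composition `HasFDerivAt.comp_hasDerivAt`) gives `deriv (e' ∘ c) t = 0`.
`imm_congr`: same ball, `Filter.EventuallyEq.deriv_eq`.  `imm_shift`: `c ∘ (· + n) = c`, `deriv_comp_add_const`; do `n = 1` and
induct over the integers, or prove `c (t + n) = c t` first (`per_int`).
`imm_diffeo`: use the ball `F ∘ b`, `b' ∘ F.symm` (`IsBall.diffeo`): `(b' ∘ F.symm) ∘ (F ∘ c) = b' ∘ c`; converse with `F.symm`.
`Circ.diffeo`: immediate.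
`Thick.circ`: smooth: `κ` is smooth at `(l, 0)` (local diffeomorphism), composed with `l ↦ (l, 0)`.  Imm at `l`: take a ball
`b, b'` at `κ (l, 0)` (`exists_ball`); let `Φ` be the partial diffeomorphism of `loc`; the function `f = fst ∘ Φ.symm ∘ b` is
differentiable at `b' (κ (l, 0))` and `f (b' (κ (l', 0))) = l'` for `l'` near `l`; if `deriv (b' ∘ core κ) l = 0` then the
derivative of `l' ↦ l'` would be `0`.  Injectivity: `Thick.inj` with `v = v' = 0`.
-/

open scoped ContDiff Manifold Topology unitInterval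
open Set Filter

namespace Pool.Agent.ACB

universe u
variable {N : Type u} [TopologicalSpace N] [ChartedSpace E4 N]

theorem coord_smooth {c : ℝ → N} {t : ℝ} (hc : ContMDiffAt 𝓘(ℝ, ℝ) (𝓡 4) ∞ c t) {b : E4 → N} {b' : N → E4}
    (hb : IsBall b b') (ht : c t ∈ range b) : ContDiffAt ℝ ∞ (b' ∘ c) t := by
  rw [← contMDiffAt_iff_contDiffAt]
  exact ContMDiffAt.comp t (hb.contMDiffAt' ht) hc

/-- the chain rule with a vanishing inner derivative -/
theorem Imm_chain {V : Type*} [NormedAddCommGroup V] [NormedSpace ℝ V] {f : E4 → V} {g : ℝ → E4} {h : ℝ → V} {t : ℝ}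
    (hf : DifferentiableAt ℝ f (g t)) (hg : DifferentiableAt ℝ g t) (hg0 : deriv g t = 0)
    (hh : h =ᶠ[𝓝 t] fun s => f (g s)) : deriv h t = 0 := by
  rw [hh.deriv_eq]
  have h1 : HasDerivAt g 0 t := by
    have := hg.hasDerivAt
    rwa [hg0] at this
  have h2 : HasDerivAt (f ∘ g) (fderiv ℝ f (g t) 0) t := hf.hasFDerivAt.comp_hasDerivAt t h1
  rw [map_zero] at h2
  exact h2.deriv

theorem imm_iff {c : ℝ → N} {t : ℝ} (hc : ContMDiffAt 𝓘(ℝ, ℝ) (𝓡 4) ∞ c t) {b : E4 → N} {b' : N → E4}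
    (hb : IsBall b b') (ht : c t ∈ range b) : Imm c t ↔ deriv (b' ∘ c) t ≠ 0 := by
  constructor
  · rintro ⟨e, e', he, het, hne⟩ h0
    apply hne
    have hd : DifferentiableAt ℝ (b' ∘ c) t :=
      (coord_smooth hc hb ht).differentiableAt (by simp)
    have hx : b (b' (c t)) = c t := hb.right_inv ht
    have hf : ContDiffAt ℝ ∞ (e' ∘ b) (b' (c t)) := by
      rw [← contMDiffAt_iff_contDiffAt]
      refine ContMDiffAt.comp (b' (c t)) ?_ (hb.smooth _)
      rw [hx]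
      exact he.contMDiffAt' het
    refine Imm_chain (f := e' ∘ b) (g := b' ∘ c) (hf.differentiableAt (by simp)) hd h0 ?_
    have hev : ∀ᶠ s in 𝓝 t, c s ∈ range b := hc.continuousAt.eventually (hb.eventually ht)
    filter_upwards [hev] with s hs
    show e' (c s) = e' (b (b' (c s)))
    rw [hb.right_inv hs]
  · intro h
    exact ⟨b, b', hb, ht, h⟩

theorem Imm_congr_aux {c c' : ℝ → N} {t : ℝ} (h : c =ᶠ[𝓝 t] c') (h1 : Imm c t) : Imm c' t := by
  obtain ⟨b, b', hb, ht, hne⟩ := h1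
  refine ⟨b, b', hb, ?_, ?_⟩
  · rw [← h.eq_of_nhds]; exact ht
  · have h2 : (b' ∘ c) =ᶠ[𝓝 t] (b' ∘ c') := h.fun_comp b'
    rw [← h2.deriv_eq]
    exact hne

theorem imm_congr {c c' : ℝ → N} {t : ℝ} (h : c =ᶠ[𝓝 t] c') : Imm c t ↔ Imm c' t :=
  ⟨Imm_congr_aux h, Imm_congr_aux h.symm⟩

theorem per_int {c : ℝ → N} (hper : ∀ t, c (t + 1) = c t) (t : ℝ) (n : ℤ) : c (t + n) = c t := by
  have h : Function.Periodic c (1 : ℝ) := hper
  have h2 := h.int_mul n t
  simpa using h2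

theorem imm_shift {c : ℝ → N} (hper : ∀ t, c (t + 1) = c t) (t : ℝ) (n : ℤ) : Imm c (t + n) ↔ Imm c t := by
  have hder : ∀ b' : N → E4, deriv (b' ∘ c) (t + n) = deriv (b' ∘ c) t := by
    intro b'
    have h1 : deriv (fun s : ℝ => (b' ∘ c) (s + n)) t = deriv (b' ∘ c) (t + n) :=
      deriv_comp_add_const (f := b' ∘ c) (a := (n : ℝ)) (x := t)
    rw [← h1]
    congr 1
    funext s
    show b' (c (s + n)) = b' (c s)
    rw [per_int hper]
  constructor
  · rintro ⟨b, b', hb, ht, hne⟩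
    refine ⟨b, b', hb, ?_, ?_⟩
    · rwa [per_int hper] at ht
    · rwa [hder] at hne
  · rintro ⟨b, b', hb, ht, hne⟩
    refine ⟨b, b', hb, ?_, ?_⟩
    · rwa [per_int hper]
    · rwa [hder]

theorem Imm_diffeo_aux {N₁ : Type*} [TopologicalSpace N₁] [ChartedSpace E4 N₁]
    {N₂ : Type*} [TopologicalSpace N₂] [ChartedSpace E4 N₂] {c : ℝ → N₁} {t : ℝ}
    (F : N₁ ≃ₘ⟮𝓡 4, 𝓡 4⟯ N₂) (h : Imm c t) : Imm (fun t => F (c t)) t := by
  obtain ⟨b, b', hb, ht, hne⟩ := h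
  refine ⟨F ∘ b, b' ∘ F.symm, hb.diffeo F, ?_, ?_⟩
  · obtain ⟨x, hx⟩ := ht
    exact ⟨x, by show F (b x) = F (c t); rw [hx]⟩
  · have e : (b' ∘ F.symm) ∘ (fun t => F (c t)) = b' ∘ c := by
      funext s
      show b' (F.symm (F (c s))) = b' (c s)
      rw [F.symm_apply_apply]
    rw [e]
    exact hne

theorem imm_diffeo {N' : Type*} [TopologicalSpace N'] [ChartedSpace E4 N'] {c : ℝ → N} {t : ℝ}
    (F : N ≃ₘ⟮𝓡 4, 𝓡 4⟯ N') : Imm (fun t => F (c t)) t ↔ Imm c t := by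
  constructor
  · intro h
    have h2 := Imm_diffeo_aux F.symm h
    have e : (fun t => F.symm ((fun t => F (c t)) t)) = c := by
      funext s
      show F.symm (F (c s)) = c s
      rw [F.symm_apply_apply]
    rwa [e] at h2
  · exact Imm_diffeo_aux F

theorem Circ.diffeo {N' : Type*} [TopologicalSpace N'] [ChartedSpace E4 N'] {c : ℝ → N} (h : Circ c)
    (F : N ≃ₘ⟮𝓡 4, 𝓡 4⟯ N') : Circ fun t => F (c t) := by
  refine ⟨⟨F.contMDiff.comp h.smooth, fun t => ?_⟩, fun t => (imm_diffeo F).mpr (h.imm t), fun t t' e => ?_⟩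
  · show F (c (t + 1)) = F (c t)
    rw [h.per]
  · exact h.inj t t' (F.injective e)

theorem Thick.circ [IsManifold (𝓡 4) ∞ N] {κ : ℝ × E3 → N} {ε : ℝ} (h : Thick κ ε) : Circ (core κ) := by
  have h0 : ‖(0 : E3)‖ < ε := by rw [norm_zero]; exact h.pos
  have hsm : ContMDiff 𝓘(ℝ, ℝ) (𝓡 4) ∞ (core κ) := by
    intro l
    have h1 : ContMDiffAt 𝓘(ℝ, ℝ × E3) (𝓡 4) ∞ κ (l, 0) := (h.loc l 0 h0).contMDiffAt
    have h2 : ContMDiffAt 𝓘(ℝ, ℝ) 𝓘(ℝ, ℝ × E3) ∞ (fun l : ℝ => (l, (0 : E3))) l := by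
      rw [contMDiffAt_iff_contDiffAt]
      exact contDiffAt_id.prodMk contDiffAt_const
    exact ContMDiffAt.comp (g := κ) (f := fun l : ℝ => (l, (0 : E3))) l h1 h2
  refine ⟨⟨hsm, fun l => h.per l 0 h0⟩, fun l => ?_, fun l l' e => ?_⟩
  · obtain ⟨b, b', hb, hb0, -⟩ := exists_ball (core κ l) (U := univ) Filter.univ_mem
    have ht : core κ l ∈ range b := ⟨0, hb0⟩
    rw [imm_iff (hsm l) hb ht]
    intro hz
    obtain ⟨Φ, hΦ, hΦe⟩ := h.loc l 0 h0
    have hx : b (b' (core κ l)) = core κ l := hb.right_inv ht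
    have hκ : core κ l = Φ (l, 0) := hΦe hΦ
    have hmem : core κ l ∈ Φ.target := by
      rw [hκ]; exact Φ.map_source hΦ
    have hΦs : ContMDiffAt (𝓡 4) 𝓘(ℝ, ℝ × E3) ∞ Φ.symm (core κ l) :=
      Φ.contMDiffOn_invFun.contMDiffAt (Φ.open_target.mem_nhds hmem)
    have hf : ContDiffAt ℝ ∞ (fun x => (Φ.symm (b x)).1) (b' (core κ l)) := by
      have h3 : ContMDiffAt (𝓡 4) 𝓘(ℝ, ℝ × E3) ∞ (Φ.symm ∘ b) (b' (core κ l)) := by
        refine ContMDiffAt.comp (b' (core κ l)) ?_ (hb.smooth _)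
        rw [hx]
        exact hΦs
      rw [contMDiffAt_iff_contDiffAt] at h3
      exact contDiffAt_fst.comp _ h3
    have hd : DifferentiableAt ℝ (b' ∘ core κ) l :=
      (coord_smooth (hsm l) hb ht).differentiableAt (by simp)
    have hid : deriv (fun s : ℝ => s) l = 0 := by
      refine Imm_chain (f := fun x => (Φ.symm (b x)).1) (g := b' ∘ core κ) (hf.differentiableAt (by simp)) hd hz ?_
      have hev1 : ∀ᶠ s in 𝓝 l, core κ s ∈ range b := (hsm l).continuousAt.eventually (hb.eventually ht)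
      have hcont : ContinuousAt (fun s : ℝ => (s, (0 : E3))) l := by fun_prop
      have hev2 : ∀ᶠ s in 𝓝 l, ((s, (0 : E3)) : ℝ × E3) ∈ Φ.source :=
        hcont.eventually (Φ.open_source.mem_nhds hΦ)
      filter_upwards [hev1, hev2] with s hs1 hs2
      show s = (Φ.symm (b (b' (core κ s)))).1
      rw [hb.right_inv hs1]
      have h5 : core κ s = Φ (s, 0) := hΦe hs2
      rw [h5]
      have h6 : Φ.symm (Φ (s, 0)) = (s, 0) := Φ.left_inv hs2
      rw [h6]
    have h1 : deriv (fun s : ℝ => s) l = 1 := by simp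
    rw [h1] at hid
    exact one_ne_zero hid
  · exact (h.inj l 0 l' 0 h0 h0 e).2

end Pool.Agent.ACB
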