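import Pool.Agent.ACB.Bal
import Pool.Agent.ACB.Imm

/-!
# ACB/Tbe: tubes

PROOFS.  `per_int'`: induction (`h.per`).  `ex_polar`: `r = ‖z‖`, `l = arg z / 2π`.  `ex_inj`: `Complex.exp_eq_exp_iff_exists_int`.
`core_compact`: `range (core κ) = core κ '' Icc 0 1`.
`thick_near`: the open set `κ ⁻¹' U` (inside `ℝ × ball 0 ε`, where `κ` is continuous: `h.loc`) contains the compact set `Icc 0 1 × {0}`, hence `Icc 0 1 × ball 0 δ`; periodicity.
`tube_sep`: for `δ < ε` the set `K = κ '' (Icc 0 1 ×ˢ closedBall 0 δ)` is compact; if `x ∈ K` for all small `δ` then (compactness, subsequence / nested compact sets in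
`Icc 0 1 ×ˢ closedBall 0 (ε/2)`, continuity of `κ`) `x = κ (l, 0)` for some `l`, excluded.  So for some `δ` the open set `Kᶜ` is a neighbourhood of `x`.
`tubes_pair`: for two thick circles with disjoint cores: the compact sets `K₁ δ`, `K₂ δ` (`δ → 0`) decrease to the disjoint compact cores; or: the function
`(l, v, l', v') ↦ (κ₁ (l, v), κ₂ (l', v'))` maps the compact set `Icc 0 1 × {0} × Icc 0 1 × {0}` into the open set `{(x, y) | x ≠ y}` of `N × N` (Hausdorff); tube lemma; periodicity.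
`Thick.mono`, `Tubes.mono`, `Surg.mono`: restrict.
`thick_comp`: `F ∘ κ` for a map `F` which is a local diffeomorphism and injective on an open set containing the tube.
-/

open scoped ContDiff Manifold Topology unitInterval
open Set Filter

namespace Pool.Agent.ACB

universe u
variable {N : Type u} [TopologicalSpace N] [ChartedSpace E4 N]

theorem ex_polar (z : ℂ) : ∃ l : ℝ, z = ‖z‖ * ex l := by
  refine ⟨Complex.arg z / (2 * Real.pi), ?_⟩
  have h1 : 2 * Real.pi * (Complex.arg z / (2 * Real.pi)) = Complex.arg z := by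
    field_simp
  unfold ex
  rw [h1]
  exact (Complex.norm_mul_exp_arg_mul_I z).symm

theorem ex_inj {l l' : ℝ} (h : ex l = ex l') : ∃ m : ℤ, l' = l + m := by
  unfold ex at h
  obtain ⟨n, hn⟩ := Complex.exp_eq_exp_iff_exists_int.mp h
  refine ⟨-n, ?_⟩
  have h1 : (((2 * Real.pi * l : ℝ) : ℂ)) * Complex.I =
      (((2 * Real.pi * l' + n * (2 * Real.pi) : ℝ)) : ℂ) * Complex.I := by
    rw [hn]; push_cast; ring
  have h2 : ((2 * Real.pi * l : ℝ) : ℂ) = ((2 * Real.pi * l' + n * (2 * Real.pi) : ℝ) : ℂ) :=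
    mul_right_cancel₀ Complex.I_ne_zero h1
  have h3 : 2 * Real.pi * l = 2 * Real.pi * l' + n * (2 * Real.pi) := Complex.ofReal_injective h2
  have h4 : (2 * Real.pi) ≠ 0 := by positivity
  have h5 : l = l' + n := by
    apply mul_left_cancel₀ h4
    linarith
  push_cast
  linarith

theorem Thick.per_int {κ : ℝ × E3 → N} {ε : ℝ} (h : Thick κ ε) (l : ℝ) (m : ℤ) (v : E3) (hv : ‖v‖ < ε) :
    κ (l + m, v) = κ (l, v) :=
  ACB.per_int (c := fun t => κ (t, v)) (fun t => h.per t v hv) l m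

theorem Thick.mono {κ : ℝ × E3 → N} {ε ε' : ℝ} (h : Thick κ ε) (h0 : 0 < ε') (h1 : ε' ≤ ε) : Thick κ ε' :=
  ⟨h0, fun l v hv => h.per l v (lt_of_lt_of_le hv h1), fun l v hv => h.loc l v (lt_of_lt_of_le hv h1),
    fun l v l' v' hv hv' e => h.inj l v l' v' (lt_of_lt_of_le hv h1) (lt_of_lt_of_le hv' h1) e⟩

theorem Tubes.mono {ι : Type} {κ : ι → ℝ × E3 → N} {ε ε' : ℝ} (h : Tubes κ ε) (h0 : 0 < ε') (h1 : ε' ≤ ε) :
    Tubes κ ε' :=
  ⟨fun i => (h.thick i).mono h0 h1, fun i j hij l v l' v' hv hv' =>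
    h.disj i j hij l v l' v' (lt_of_lt_of_le hv h1) (lt_of_lt_of_le hv' h1)⟩

/-- smaller radius, the same maps -/
def Surg.mono {ι : Type} {κ : ι → ℝ × E3 → N} {ε ε' : ℝ} {X : Type*} [TopologicalSpace X] [ChartedSpace E4 X]
    (S : Surg κ ε X) (h : ε' ≤ ε) : Surg κ ε' X where
  A := S.A
  Q := S.Q
  A_loc := S.A_loc
  A_inj := S.A_inj
  Q_loc := fun i z v hz => S.Q_loc i z v (lt_of_lt_of_le hz h)
  glue := fun i l r v h0 h1 => S.glue i l r v h0 (lt_of_lt_of_le h1 h)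
  Q_inj := S.Q_inj
  disj := S.disj
  cover := S.cover

theorem Tbe_cont {κ : ℝ × E3 → N} {ε : ℝ} (h : Thick κ ε) :
    ContinuousOn κ {x : ℝ × E3 | ‖x.2‖ < ε} := by
  rintro ⟨l, v⟩ hv
  exact (h.loc l v hv).contMDiffAt.continuousAt.continuousWithinAt

theorem Tbe_open (ε : ℝ) : IsOpen {x : ℝ × E3 | ‖x.2‖ < ε} :=
  isOpen_lt (continuous_norm.comp continuous_snd) continuous_const

theorem Tbe_fract {κ : ℝ × E3 → N} {ε : ℝ} (h : Thick κ ε) (l : ℝ) (v : E3) (hv : ‖v‖ < ε) :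
    κ (l, v) = κ (Int.fract l, v) := by
  have h1 := h.per_int (Int.fract l) ⌊l⌋ v hv
  rw [Int.fract_add_floor] at h1
  exact h1

theorem core_compact {κ : ℝ × E3 → N} {ε : ℝ} (h : Thick κ ε) : IsCompact (range (core κ)) := by
  have h0 : ‖(0 : E3)‖ < ε := by rw [norm_zero]; exact h.pos
  have hc : Continuous (core κ) := by
    rw [continuous_iff_continuousAt]
    intro l
    have h1 : ContinuousAt κ (l, 0) := (h.loc l 0 h0).contMDiffAt.continuousAt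
    exact ContinuousAt.comp (f := fun l : ℝ => (l, (0 : E3))) (x := l) h1 (by fun_prop)
  have e : range (core κ) = core κ '' Icc 0 1 := by
    ext y
    constructor
    · rintro ⟨l, rfl⟩
      exact ⟨Int.fract l, ⟨Int.fract_nonneg l, (Int.fract_lt_one l).le⟩, (Tbe_fract h l 0 h0).symm⟩
    · rintro ⟨l, -, rfl⟩
      exact ⟨l, rfl⟩
  rw [e]
  exact isCompact_Icc.image hc

theorem thick_near {κ : ℝ × E3 → N} {ε : ℝ} (h : Thick κ ε) {U : Set N} (hU : IsOpen U)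
    (hc : ∀ l, κ (l, 0) ∈ U) : ∃ δ > 0, δ ≤ ε ∧ ∀ (l : ℝ) (v : E3), ‖v‖ < δ → κ (l, v) ∈ U := by
  have hS : IsOpen ({x : ℝ × E3 | ‖x.2‖ < ε} ∩ κ ⁻¹' U) :=
    (Tbe_cont h).isOpen_inter_preimage (Tbe_open ε) hU
  have hsub : Icc (0 : ℝ) 1 ×ˢ ({0} : Set E3) ⊆ {x : ℝ × E3 | ‖x.2‖ < ε} ∩ κ ⁻¹' U := by
    rintro ⟨l, v⟩ ⟨-, hv⟩
    rw [mem_singleton_iff] at hv
    simp only at hv
    subst hv
    exact ⟨by show ‖(0 : E3)‖ < ε; rw [norm_zero]; exact h.pos, hc l⟩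
  obtain ⟨u, w, -, hw, hu', hw', huw⟩ := generalized_tube_lemma isCompact_Icc isCompact_singleton hS hsub
  obtain ⟨δ, hδ, hb⟩ := Metric.isOpen_iff.mp hw 0 (hw' rfl)
  refine ⟨min δ ε, lt_min hδ h.pos, min_le_right _ _, fun l v hv => ?_⟩
  rw [Tbe_fract h l v (lt_of_lt_of_le hv (min_le_right _ _))]
  refine (huw ⟨hu' ⟨Int.fract_nonneg l, (Int.fract_lt_one l).le⟩, hb ?_⟩).2
  show v ∈ Metric.ball 0 δ
  rw [mem_ball_zero_iff]
  exact lt_of_lt_of_le hv (min_le_left _ _)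

theorem tube_sep [T2Space N] {κ : ℝ × E3 → N} {ε : ℝ} (h : Thick κ ε) {x : N} (hx : x ∉ range (core κ)) :
    ∃ δ > 0, δ ≤ ε ∧ ∃ W : Set N, IsOpen W ∧ x ∈ W ∧ ∀ (l : ℝ) (v : E3), ‖v‖ < δ → κ (l, v) ∉ W := by
  obtain ⟨U, W, hU, hW, hU', hW', hd⟩ := SeparatedNhds.of_isCompact_isCompact (core_compact h)
    (isCompact_singleton (x := x)) (Set.disjoint_singleton_right.mpr hx)
  obtain ⟨δ, hδ, hδε, hn⟩ := thick_near h hU fun l => hU' ⟨l, rfl⟩
  exact ⟨δ, hδ, hδε, W, hW, hW' rfl, fun l v hv hm => Set.disjoint_left.mp hd (hn l v hv) hm⟩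

theorem tubes_pair [T2Space N] {κ₁ κ₂ : ℝ × E3 → N} {ε : ℝ} (h₁ : Thick κ₁ ε) (h₂ : Thick κ₂ ε)
    (hd : ∀ l l', κ₁ (l, 0) ≠ κ₂ (l', 0)) : ∃ δ > 0, δ ≤ ε ∧ Tubes ![κ₁, κ₂] δ := by
  have hdis : Disjoint (range (core κ₁)) (range (core κ₂)) := by
    rw [Set.disjoint_left]
    rintro _ ⟨l, rfl⟩ ⟨l', e⟩
    exact hd l l' e.symm
  obtain ⟨U, W, hU, hW, hU', hW', hUW⟩ := SeparatedNhds.of_isCompact_isCompact (core_compact h₁)
    (core_compact h₂) hdis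
  obtain ⟨δ₁, hδ₁, hle₁, hn₁⟩ := thick_near h₁ hU fun l => hU' ⟨l, rfl⟩
  obtain ⟨δ₂, hδ₂, hle₂, hn₂⟩ := thick_near h₂ hW fun l => hW' ⟨l, rfl⟩
  have key : ∀ (l : ℝ) (v : E3) (l' : ℝ) (v' : E3), ‖v‖ < min δ₁ δ₂ → ‖v'‖ < min δ₁ δ₂ →
      κ₁ (l, v) ≠ κ₂ (l', v') := by
    intro l v l' v' hv hv' e
    have h1 := hn₁ l v (lt_of_lt_of_le hv (min_le_left _ _))
    have h2 := hn₂ l' v' (lt_of_lt_of_le hv' (min_le_right _ _))
    rw [e] at h1
    exact Set.disjoint_left.mp hUW h1 h2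
  refine ⟨min δ₁ δ₂, lt_min hδ₁ hδ₂, (min_le_left _ _).trans hle₁, ⟨fun i => ?_, fun i j hij => ?_⟩⟩
  · fin_cases i
    · exact h₁.mono (lt_min hδ₁ hδ₂) ((min_le_left _ _).trans hle₁)
    · exact h₂.mono (lt_min hδ₁ hδ₂) ((min_le_left _ _).trans hle₁)
  · fin_cases i <;> fin_cases j
    · exact absurd rfl hij
    · exact key
    · exact fun l v l' v' hv hv' e => key l' v' l v hv' hv e.symm
    · exact absurd rfl hij

theorem thick_comp {N' : Type*} [TopologicalSpace N'] [ChartedSpace E4 N'] {κ : ℝ × E3 → N} {ε : ℝ}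
    (h : Thick κ ε) {U : Set N} (hU : ∀ (l : ℝ) (v : E3), ‖v‖ < ε → κ (l, v) ∈ U) {F : N → N'}
    (hF : ∀ x ∈ U, IsLocalDiffeomorphAt (𝓡 4) (𝓡 4) ∞ F x) (hi : InjOn F U) : Thick (fun x => F (κ x)) ε := by
  refine ⟨h.pos, fun l v hv => ?_, fun l v hv => ?_, fun l v l' v' hv hv' e => ?_⟩
  · show F (κ (l + 1, v)) = F (κ (l, v))
    rw [h.per l v hv]
  · exact IsLocalDiffeomorphAt.comp (hf := h.loc l v hv) (hg := hF _ (hU l v hv))
  · exact h.inj l v l' v' hv hv' (hi (hU l v hv) (hU l' v' hv') e)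

end Pool.Agent.ACB
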