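import Pool.Agent.ACB.Bal
import Pool.Agent.ACB.GluM
import Pool.Agent.ACB.PlP
import Pool.Agent.ACB.PlT
import Pool.Agent.ACB.Tbe

/-!
# ACB/ExS: the surgered manifold exists

PROOF.  Apply `glue_mfd` with `X₀ = (range (core κ))ᶜ` (open: `core_compact`), `Y = plP '' {(z, v) | ‖z‖ < ε}`, `Y₁ = plP '' {(z, v) | 0 < ‖z‖ < ε}`, `θ = θ₀ ∘ plP⁻¹`
(`Function.invFun plP`; `θ₀` from `polar_map`).  `X₀` is not empty: it contains `κ (0, (ε / 2) • v)`, `‖v‖ = 1` (injectivity of `κ`).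
`hθ`: near `plP (z, v)` `plP⁻¹` is the inverse of a local diffeomorphism, compose.  `hθX`: `θ₀ (r ex l, v) = κ (l, r v)` is not on the core (injectivity); every `z ≠ 0` is `r * ex l` (`ex_polar`).
`hsep`: `y = plP (0, v)`, `x ∉ range (core κ)`: by `tube_sep` there is `0 < δ ≤ ε` and a neighbourhood `W` of `x` which does not meet `κ (ℝ × {‖v‖ < δ})`; `U = plP '' {‖z‖ < δ}`.
Surgery data: `A`, `Q () = B ∘ plP`.  `A_loc`, `A_inj`: `Off (fun _ => κ) p ↔ p ∉ range (core κ)`.  `Q_loc`: composition of `plP_loc` and `B`.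
`glue`: `Q (r ex l, v) = B (plP _) = A (θ (plP _)) = A (θ₀ (r ex l, v)) = A (κ (l, r v))`.  `Q_inj`: `B` injective on `Y`, `plP_inj`.  `disj`: `plP (0, v) ∈ Y ∖ Y₁`.
`cover`: `v = A x` or `v = B (plP (z, w))`; if `z ≠ 0` then `z = r ex l` and `v = A (κ (l, r w))`.
-/

open scoped ContDiff Manifold Topology unitInterval
open Set Filter

namespace Pool.Agent.ACB

universe u
variable {N : Type u} [TopologicalSpace N] [ChartedSpace E4 N]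

/-- a point of the sphere -/
noncomputable def exs_pt : S2 := ⟨EuclideanSpace.single 0 1, by simp⟩

instance exs_nonempty : Nonempty (ℂ × S2) := ⟨(0, exs_pt)⟩

theorem exs_norm (v : S2) : ‖v.1‖ = 1 := by
  simp

theorem exs_norm_smul {r : ℝ} (hr : 0 ≤ r) (v : S2) : ‖r • v.1‖ = r := by
  rw [norm_smul, exs_norm, mul_one, Real.norm_eq_abs, abs_of_nonneg hr]

theorem exs_ex (l : ℝ) : ‖ex l‖ = 1 := by
  unfold ex
  exact Complex.norm_exp_ofReal_mul_I _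

theorem exs_norm_ex {r : ℝ} (hr : 0 ≤ r) (l : ℝ) : ‖(r : ℂ) * ex l‖ = r := by
  rw [norm_mul, exs_ex, mul_one, Complex.norm_real, Real.norm_eq_abs, abs_of_nonneg hr]

theorem exs_left (x : ℂ × S2) : Function.invFun plP (plP x) = x :=
  Function.leftInverse_invFun plP_inj x

theorem exs_inv (x : ℂ × S2) :
    IsLocalDiffeomorphAt (𝓡 4) (𝓘(ℝ, ℂ).prod (𝓡 2)) ∞ (Function.invFun plP) (plP x) := by
  obtain ⟨Φ, hx, he⟩ := plP_loc x
  refine ⟨Φ.symm, ?_, ?_⟩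
  · show plP x ∈ Φ.target
    rw [he hx]
    exact Φ.map_source hx
  · intro y hy
    have hy' : y ∈ Φ.target := hy
    have h1 : Φ.toPartialEquiv.symm y ∈ Φ.source := Φ.map_target hy'
    have h2 : plP (Φ.toPartialEquiv.symm y) = y := by
      rw [he h1]
      exact Φ.right_inv hy'
    show Function.invFun plP y = Φ.toPartialEquiv.symm y
    rw [← exs_left (Φ.toPartialEquiv.symm y), h2]

theorem exists_surg [T2Space N] [IsManifold (𝓡 4) ∞ N] {κ : ℝ × E3 → N} {ε : ℝ} (h : Thick κ ε) :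
    ∃ (V : Type u) (_ : TopologicalSpace V) (_ : ChartedSpace E4 V), IsManifold (𝓡 4) ∞ V ∧ T2Space V ∧
      Nonempty (Surg (fun _ : Unit => κ) ε V) := by
  have hε := h.pos
  obtain ⟨θ₀, hθf, hθl, hθi⟩ := polar_map h
  have hθf' : ∀ (z : ℂ) (v : S2), 0 < ‖z‖ → ‖z‖ < ε → ∃ l : ℝ, z = ‖z‖ * ex l ∧
      θ₀ (z, v) = κ (l, ‖z‖ • v.1) := by
    intro z v h0 h1
    obtain ⟨l, hl⟩ := ex_polar z
    refine ⟨l, hl, ?_⟩
    conv_lhs => rw [hl]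
    exact hθf l ‖z‖ v h0 h1
  let X₀ : Set N := (range (core κ))ᶜ
  have hX₀ : IsOpen X₀ := (core_compact h).isClosed.isOpen_compl
  have hoff : ∀ (l r : ℝ) (v : S2), 0 < r → r < ε → κ (l, r • v.1) ∈ X₀ := by
    rintro l r v h0 h1 ⟨l', hl'⟩
    have h2 : κ (l', 0) = κ (l, r • v.1) := hl'
    have h3 := (h.inj l' 0 l (r • v.1) (by simpa using hε) (by rw [exs_norm_smul h0.le]; exact h1) h2).1
    have h4 := exs_norm_smul h0.le v
    rw [← h3, norm_zero] at h4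
    linarith
  have hne : X₀.Nonempty := ⟨_, hoff 0 (ε / 2) exs_pt (by linarith) (by linarith)⟩
  let Y : Set E4 := plP '' {x | ‖x.1‖ < ε}
  let Y₁ : Set E4 := plP '' {x | 0 < ‖x.1‖ ∧ ‖x.1‖ < ε}
  have hY : IsOpen Y := plP_open (isOpen_lt (continuous_norm.comp continuous_fst) continuous_const)
  have hY₁ : IsOpen Y₁ := plP_open ((isOpen_lt continuous_const (continuous_norm.comp continuous_fst)).inter
    (isOpen_lt (continuous_norm.comp continuous_fst) continuous_const))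
  have hs : Y₁ ⊆ Y := image_mono fun x hx => hx.2
  let θ : E4 → N := θ₀ ∘ Function.invFun plP
  have hθe : ∀ x, θ (plP x) = θ₀ x := fun x => by
    show θ₀ (Function.invFun plP (plP x)) = θ₀ x
    rw [exs_left]
  have hθ : ∀ y ∈ Y₁, IsLocalDiffeomorphAt (𝓡 4) (𝓡 4) ∞ θ y := by
    rintro _ ⟨⟨z, v⟩, ⟨h0, h1⟩, rfl⟩
    have h2 := exs_inv (z, v)
    refine h2.comp (𝓡 4) N ?_
    rw [exs_left]
    exact hθl z v h0 h1
  have hθinj : InjOn θ Y₁ := by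
    rintro _ ⟨⟨z, v⟩, ⟨h0, h1⟩, rfl⟩ _ ⟨⟨z', v'⟩, ⟨h0', h1'⟩, rfl⟩ he
    rw [hθe, hθe] at he
    obtain ⟨e1, e2⟩ := hθi z v z' v' h0 h1 h0' h1' he
    rw [e1, e2]
  have hθX : MapsTo θ Y₁ X₀ := by
    rintro _ ⟨⟨z, v⟩, ⟨h0, h1⟩, rfl⟩
    rw [hθe]
    obtain ⟨l, -, hl⟩ := hθf' z v h0 h1
    rw [hl]
    exact hoff l ‖z‖ v h0 h1
  have hz : ∀ (z : ℂ) (v : S2), plP (z, v) ∈ Y → plP (z, v) ∉ Y₁ → z = 0 := by
    rintro z v ⟨⟨z', v'⟩, h1, he⟩ h2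
    have h3 := plP_inj he
    rw [Prod.mk.injEq] at h3
    by_contra hne
    refine h2 ⟨(z, v), ⟨norm_pos_iff.mpr hne, ?_⟩, rfl⟩
    rw [← h3.1]
    exact h1
  have hz0 : ∀ v : S2, plP (0, v) ∈ Y ∧ plP (0, v) ∉ Y₁ := by
    intro v
    refine ⟨⟨(0, v), by simpa using hε, rfl⟩, ?_⟩
    rintro ⟨⟨z', v'⟩, ⟨h0, -⟩, he⟩
    have h3 := plP_inj he
    rw [Prod.mk.injEq] at h3
    rw [h3.1] at h0
    simp at h0
  have hsep : ∀ y ∈ Y, y ∉ Y₁ → ∀ x ∈ X₀, ∃ U ∈ 𝓝 y, ∃ W ∈ 𝓝 x, ∀ z ∈ U, z ∈ Y₁ → θ z ∉ W := by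
    rintro _ ⟨⟨z, v⟩, hzv, rfl⟩ h1 x hx
    have hz1 := hz z v ⟨(z, v), hzv, rfl⟩ h1
    obtain ⟨δ, hδ, hδε, W, hW, hxW, hWd⟩ := tube_sep h hx
    refine ⟨plP '' {x | ‖x.1‖ < δ}, (plP_open (isOpen_lt (continuous_norm.comp continuous_fst)
      continuous_const)).mem_nhds ⟨(z, v), by simpa [hz1] using hδ, rfl⟩, W, hW.mem_nhds hxW, ?_⟩
    rintro _ ⟨⟨z', v'⟩, h2, rfl⟩ ⟨⟨z'', v''⟩, ⟨h0, h3⟩, he⟩
    have h4 := plP_inj he
    rw [Prod.mk.injEq] at h4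
    have h0' : 0 < ‖z'‖ := by rw [← h4.1]; exact h0
    have h3' : ‖z'‖ < ε := by rw [← h4.1]; exact h3
    obtain ⟨l, -, hl⟩ := hθf' z' v' h0' h3'
    rw [hθe, hl]
    refine hWd _ _ ?_
    rw [exs_norm_smul (norm_nonneg _)]
    exact h2
  obtain ⟨V, tV, cV, mV, t2V, A, B, hA, hAi, hB, hBi, hBA, hBd, hcov⟩ :=
    glue_mfd hX₀ hne hY hY₁ hs hθ hθinj hθX hsep
  have hOff : ∀ p, Off (fun _ : Unit => κ) p → p ∈ X₀ := by
    rintro p hp ⟨l, hl⟩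
    exact hp () l hl.symm
  have hOff' : ∀ p ∈ X₀, Off (fun _ : Unit => κ) p := by
    intro p hp _ l hl
    exact hp ⟨l, hl.symm⟩
  refine ⟨V, tV, cV, mV, t2V, ⟨⟨A, fun _ x => B (plP x), ?_, ?_, ?_, ?_, ?_, ?_, ?_⟩⟩⟩
  · exact fun p hp => hA p (hOff p hp)
  · exact fun p p' hp hp' he => hAi (hOff p hp) (hOff p' hp') he
  · intro _ z v hzε
    exact (plP_loc (z, v)).comp (𝓡 4) V (hB (plP (z, v)) ⟨(z, v), hzε, rfl⟩)
  · intro _ l r v h0 h1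
    have h2 : plP ((r : ℂ) * ex l, v) ∈ Y₁ :=
      ⟨_, ⟨by rw [exs_norm_ex h0.le]; exact h0, by rw [exs_norm_ex h0.le]; exact h1⟩, rfl⟩
    show B (plP ((r : ℂ) * ex l, v)) = A (κ (l, r • v.1))
    rw [hBA _ h2, hθe, hθf l r v h0 h1]
  · intro i j v v' he
    have h1 := plP_inj (hBi (hz0 v).1 (hz0 v').1 he)
    rw [Prod.mk.injEq] at h1
    exact ⟨rfl, h1.2⟩
  · intro _ v p hp
    exact hBd _ (hz0 v).1 (hz0 v).2 p (hOff p hp)
  · intro q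
    rcases hcov q with ⟨x, hx, hq⟩ | ⟨y, hy, hq⟩
    · exact Or.inl ⟨x, hOff' x hx, hq⟩
    · by_cases hy1 : y ∈ Y₁
      · left
        exact ⟨θ y, hOff' _ (hθX hy1), by rw [hq, hBA y hy1]⟩
      · right
        obtain ⟨⟨z, v⟩, hzv, rfl⟩ := hy
        have := hz z v ⟨(z, v), hzv, rfl⟩ hy1
        exact ⟨(), v, by rw [hq, this]⟩

end Pool.Agent.ACB
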