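import Pool.Agent.ACB.Bal
import Pool.Agent.ACB.Imm

/-!
# ACB/FHm: free homotopies

PROOFS.  `FHom.mk'`: `H' s t = H (projIcc 0 1 _ s) t`; `ContinuousOn` composed with the continuous map `(s, t) ↦ (projIcc s, t)`
(`ContinuousOn.comp_continuous`).  `FHom.refl`: constant in `s`.  `FHom.symm`: `H (1 - s)`.
`FHom.trans`: `mk'` with `H s = if s ≤ 1/2 then H₁ (2 s) else H₂ (2 s - 1)` (`Continuous.if_le`; `H₁ 1 = c' = H₂ 0`).
`FHom.mono`.  `FHom.map`: compose with a continuous map `f : N → N'`.  `FHom.graph`: the case `s = 0` / `s = 1`.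
`FHom.inter`: if the homotopy stays in `O`, it stays in `O ∩ O'` when `O ⊆ O'` (this is `mono`).
-/

open scoped ContDiff Manifold Topology unitInterval
open Set Filter

namespace Pool.Agent.ACB

universe u
variable {N : Type u} [TopologicalSpace N] [ChartedSpace E4 N]

theorem FHom.mk' {O : Set (ℝ × N)} {c c' : ℝ → N} (H : ℝ → ℝ → N)
    (hH : ContinuousOn (fun x : ℝ × ℝ => H x.1 x.2) (Icc 0 1 ×ˢ univ))
    (hper : ∀ s ∈ Icc (0 : ℝ) 1, ∀ t, H s (t + 1) = H s t) (h0 : H 0 = c) (h1 : H 1 = c')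
    (hO : ∀ s ∈ Icc (0 : ℝ) 1, ∀ t, (t, H s t) ∈ O) : FHom O c c' := by
  have hp : ∀ s : ℝ, (projIcc (0 : ℝ) 1 zero_le_one s : ℝ) ∈ Icc (0 : ℝ) 1 := fun s => (projIcc 0 1 zero_le_one s).2
  refine ⟨fun s t => H (projIcc (0 : ℝ) 1 zero_le_one s : ℝ) t, ?_, fun s t => hper _ (hp s) t, ?_, ?_,
    fun s t => hO _ (hp s) t⟩
  · have hc : Continuous fun q : ℝ × ℝ => ((projIcc (0 : ℝ) 1 zero_le_one q.1 : ℝ), q.2) :=
      (continuous_subtype_val.comp (continuous_projIcc.comp continuous_fst)).prodMk continuous_snd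
    exact hH.comp_continuous hc fun q => ⟨hp q.1, mem_univ _⟩
  · funext t
    simp only [projIcc_left]
    rw [h0]
  · funext t
    simp only [projIcc_right]
    rw [h1]

theorem FHom.refl {O : Set (ℝ × N)} {c : ℝ → N} (hc : Continuous c) (hper : ∀ t, c (t + 1) = c t)
    (hO : ∀ t, (t, c t) ∈ O) : FHom O c c :=
  ⟨fun _ t => c t, hc.comp continuous_snd, fun _ => hper, rfl, rfl, fun _ => hO⟩

theorem FHom.symm {O : Set (ℝ × N)} {c c' : ℝ → N} (h : FHom O c c') : FHom O c' c := by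
  obtain ⟨H, hc, hper, h0, h1, hO⟩ := h
  refine ⟨fun s => H (1 - s), ?_, fun s => hper _, ?_, ?_, fun s => hO _⟩
  · exact hc.comp ((continuous_const.sub continuous_fst).prodMk continuous_snd)
  · simp only [sub_zero]; exact h1
  · simp only [sub_self]; exact h0

theorem FHom.trans {O : Set (ℝ × N)} {c c' c'' : ℝ → N} (h : FHom O c c') (h' : FHom O c' c'') :
    FHom O c c'' := by
  obtain ⟨H, hc, hper, h0, h1, hO⟩ := h
  obtain ⟨K, kc, kper, k0, k1, kO⟩ := h'
  refine FHom.mk' (fun s t => if s ≤ 1 / 2 then H (2 * s) t else K (2 * s - 1) t) ?_ ?_ ?_ ?_ ?_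
  · refine Continuous.continuousOn ?_
    refine Continuous.if_le (f' := fun q : ℝ × ℝ => H (2 * q.1) q.2) (g' := fun q : ℝ × ℝ => K (2 * q.1 - 1) q.2)
      (hc.comp ((continuous_const.mul continuous_fst).prodMk continuous_snd))
      (kc.comp (((continuous_const.mul continuous_fst).sub continuous_const).prodMk continuous_snd))
      continuous_fst continuous_const ?_
    intro q hq
    rw [hq]
    have e1 : (2 : ℝ) * (1 / 2) = 1 := by norm_num
    rw [e1, sub_self, h1, k0]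
  · intro s _ t
    split_ifs
    · exact hper _ _
    · exact kper _ _
  · funext t
    simp only [mul_zero]
    rw [if_pos (by norm_num), h0]
  · funext t
    rw [if_neg (by norm_num)]
    have e1 : (2 : ℝ) * 1 - 1 = 1 := by norm_num
    rw [e1, k1]
  · intro s _ t
    split_ifs
    · exact hO _ _
    · exact kO _ _

theorem FHom.mono {O O' : Set (ℝ × N)} {c c' : ℝ → N} (h : FHom O c c') (hO : O ⊆ O') : FHom O' c c' := by
  obtain ⟨H, hc, hper, h0, h1, hH⟩ := h
  exact ⟨H, hc, hper, h0, h1, fun s t => hO (hH s t)⟩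

theorem FHom.left {O : Set (ℝ × N)} {c c' : ℝ → N} (h : FHom O c c') (t : ℝ) : (t, c t) ∈ O := by
  obtain ⟨H, hc, hper, h0, h1, hH⟩ := h
  rw [← h0]; exact hH 0 t

theorem FHom.right {O : Set (ℝ × N)} {c c' : ℝ → N} (h : FHom O c c') (t : ℝ) : (t, c' t) ∈ O := by
  obtain ⟨H, hc, hper, h0, h1, hH⟩ := h
  rw [← h1]; exact hH 1 t

theorem FHom.map {N' : Type*} [TopologicalSpace N'] {O : Set (ℝ × N)} {O' : Set (ℝ × N')} {c c' : ℝ → N}
    (h : FHom O c c') {f : N → N'} (hf : ContinuousOn f {x | ∃ t, (t, x) ∈ O})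
    (hO : ∀ t x, (t, x) ∈ O → (t, f x) ∈ O') : FHom O' (fun t => f (c t)) fun t => f (c' t) := by
  obtain ⟨H, hc, hper, h0, h1, hH⟩ := h
  refine ⟨fun s t => f (H s t), hf.comp_continuous hc fun q => ⟨q.2, hH q.1 q.2⟩, fun s t => congrArg f (hper s t), ?_, ?_,
    fun s t => hO _ _ (hH s t)⟩
  · simp only [h0]
  · simp only [h1]

end Pool.Agent.ACB
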