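import Pool.Agent.ACB.Bal
import Pool.Agent.ACB.FHm

/-!
# ACB/InsA: insertion of a closed curve

`ins m d c` is the closed curve `m, d, m⁻¹, c` (four quarters of the period).

PROOFS.  Unfold.  Continuity: `ContinuousOn.comp_fract'` (or `ContinuousOn.comp_fract`) for the function `f` on `[0, 1]` (`Continuous.if_le` three times; the values agree at `1/4`: `m 1 = d 0`, at `1/2`:
`d 1 = d 0 = m 1`, at `3/4`: `m 0 = c 0`), `f 0 = m 0 = c 0 = c 1 = f 1`.
-/

open scoped ContDiff Manifold Topology unitInterval
open Set Filter

namespace Pool.Agent.ACB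

universe u
variable {N : Type u} [TopologicalSpace N] [ChartedSpace E4 N]

/-- the closed curve `m, d, m⁻¹, c` -/
noncomputable def ins (m d c : ℝ → N) (t : ℝ) : N :=
  if Int.fract t ≤ 1 / 4 then m (4 * Int.fract t)
  else if Int.fract t ≤ 1 / 2 then d (4 * Int.fract t - 1)
  else if Int.fract t ≤ 3 / 4 then m (3 - 4 * Int.fract t) else c (4 * Int.fract t - 3)

theorem ins_cont {m d c : ℝ → N} (hm : Continuous m) (hd : Continuous d) (hc : Continuous c)
    (hdp : ∀ t, d (t + 1) = d t) (hcp : ∀ t, c (t + 1) = c t) (h0 : m 0 = c 0) (h1 : m 1 = d 0) :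
    Continuous (ins m d c) := by
  have e1 : (4 : ℝ) * (1 / 4) = 1 := by norm_num
  have e2 : (4 : ℝ) * (1 / 2) - 1 = 1 := by norm_num
  have e3 : (3 : ℝ) - 4 * (1 / 2) = 1 := by norm_num
  have e4 : (3 : ℝ) - 4 * (3 / 4) = 0 := by norm_num
  have e5 : (4 : ℝ) * (3 / 4) - 3 = 0 := by norm_num
  have hd1 : d 1 = d 0 := by have := hdp 0; rwa [zero_add] at this
  have hc1 : c 1 = c 0 := by have := hcp 0; rwa [zero_add] at this
  have hf : Continuous fun x : ℝ => if x ≤ 1 / 4 then m (4 * x)
      else if x ≤ 1 / 2 then d (4 * x - 1)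
      else if x ≤ 3 / 4 then m (3 - 4 * x) else c (4 * x - 3) := by
    refine Continuous.if_le (hm.comp (continuous_const.mul continuous_id)) ?_ continuous_id continuous_const ?_
    · refine Continuous.if_le (hd.comp ((continuous_const.mul continuous_id).sub continuous_const)) ?_
        continuous_id continuous_const ?_
      · refine Continuous.if_le (hm.comp (continuous_const.sub (continuous_const.mul continuous_id)))
          (hc.comp ((continuous_const.mul continuous_id).sub continuous_const)) continuous_id continuous_const ?_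
        intro x hx
        replace hx : x = _ := hx
        rw [hx, e4, e5, h0]
      · intro x hx
        replace hx : x = _ := hx
        rw [hx, e2, if_pos (by norm_num), e3, hd1, h1]
    · intro x hx
      replace hx : x = _ := hx
      rw [hx, e1, if_pos (by norm_num), h1]
      norm_num
  have := ContinuousOn.comp_fract'' hf.continuousOn (by
    have : (4 : ℝ) * 1 - 3 = 1 := by norm_num
    rw [if_pos (by norm_num), if_neg (by norm_num), if_neg (by norm_num), if_neg (by norm_num), this, mul_zero,
      h0, hc1])
  exact this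

theorem ins_per (m d c : ℝ → N) (t : ℝ) : ins m d c (t + 1) = ins m d c t := by
  unfold ins
  rw [Int.fract_add_one]

theorem ins_mem {m d c : ℝ → N} {U : Set N} (hm : ∀ t, m t ∈ U) (hd : ∀ t, d t ∈ U) (hc : ∀ t, c t ∈ U) (t : ℝ) :
    ins m d c t ∈ U := by
  unfold ins
  split_ifs
  · exact hm _
  · exact hd _
  · exact hm _
  · exact hc _

theorem ins_map {N' : Type*} [TopologicalSpace N'] [ChartedSpace E4 N'] (f : N → N') (m d c : ℝ → N) :
    (fun t => f (ins m d c t)) = ins (fun t => f (m t)) (fun t => f (d t)) fun t => f (c t) := by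
  funext t
  unfold ins
  split_ifs <;> rfl

end Pool.Agent.ACB
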