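import Pool.Agent.ACB.Bal
import Pool.Agent.ACB.InsA

/-!
# ACB/InsN: insertion of a null-homotopic curve

PROOF.  Write `m, d, c` for the data, `y` for the value of `D 1`.  All functions of `s` are used for `s ∈ [0, 1]` (`FHom.mk'`); `fr` means `Int.fract t`; continuity by `ContinuousOn.comp_fract'`.
(1) `ins m d c ~ ins m₀ d c` with `m₀ x = m (min (2 x) 1)`: `H s = ins (fun x => m ((1 - s) * x + s * min (2 * x) 1)) d c` (for `x ∈ [0, 1]` the ends are fixed).
(2) `ins m₀ d c ~ ins m₁ (fun _ => y) c`, `H s = ins (m_s) (D s) c`, `m_s x = m (2 x)` for `x ≤ 1/2`, `D (s * (2 x - 1)) 0` for `x ≥ 1/2` (continuous since `m 1 = d 0 = D 0 0`;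
`m_s 1 = D s 0`); `m_0 = m₀` on `[0, 1]`, `m₁` = the case `s = 1`.
(3) `ins m₁ (fun _ => y) c ~ ins (fun _ => c 0) (fun _ => c 0) c`: `H s = ins (fun x => m₁ ((1 - s) * x)) (fun _ => m₁ (1 - s)) c` (`m₁ 1 = y`, `m₁ 0 = c 0`).
(4) `ins (fun _ => c 0) (fun _ => c 0) c = c (max (4 fr - 3) 0) ~ c`: `H s t = c ((1 - s) * max (4 fr - 3) 0 + s * fr)` (at `fr = 0` and `fr = 1` the value is `c 0`).
Joint continuity of `ins` in a parameter: prove once `InsN_fam`: if `m_s, d_s, c_s` are jointly continuous, periodic (`d, c`), `m_s 0 = c_s 0`, `m_s 1 = d_s 0`, then `(s, t) ↦ ins m_s d_s c_s t` is continuous.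
-/

open scoped ContDiff Manifold Topology unitInterval
open Set Filter

namespace Pool.Agent.ACB

universe u
variable {N : Type u} [TopologicalSpace N] [ChartedSpace E4 N]

omit [ChartedSpace E4 N] in
/-- joint continuity of the insertion -/
theorem InsN_fam {m d c : ℝ → ℝ → N} (hm : Continuous fun x : ℝ × ℝ => m x.1 x.2)
    (hd : Continuous fun x : ℝ × ℝ => d x.1 x.2) (hc : Continuous fun x : ℝ × ℝ => c x.1 x.2)
    (hdp : ∀ s t, d s (t + 1) = d s t) (hcp : ∀ s t, c s (t + 1) = c s t) (h0 : ∀ s, m s 0 = c s 0)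
    (h1 : ∀ s, m s 1 = d s 0) : Continuous fun x : ℝ × ℝ => ins (m x.1) (d x.1) (c x.1) x.2 := by
  have hd1 : ∀ s, d s 1 = d s 0 := fun s => by
    have := hdp s 0
    rwa [zero_add] at this
  have hc1 : ∀ s, c s 1 = c s 0 := fun s => by
    have := hcp s 0
    rwa [zero_add] at this
  have e1 : Continuous fun x : ℝ × ℝ => m x.1 (4 * x.2) :=
    hm.comp (f := fun x : ℝ × ℝ => ((x.1, 4 * x.2) : ℝ × ℝ)) (by fun_prop)
  have e2 : Continuous fun x : ℝ × ℝ => d x.1 (4 * x.2 - 1) :=
    hd.comp (f := fun x : ℝ × ℝ => ((x.1, 4 * x.2 - 1) : ℝ × ℝ)) (by fun_prop)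
  have e3 : Continuous fun x : ℝ × ℝ => m x.1 (3 - 4 * x.2) :=
    hm.comp (f := fun x : ℝ × ℝ => ((x.1, 3 - 4 * x.2) : ℝ × ℝ)) (by fun_prop)
  have e4 : Continuous fun x : ℝ × ℝ => c x.1 (4 * x.2 - 3) :=
    hc.comp (f := fun x : ℝ × ℝ => ((x.1, 4 * x.2 - 3) : ℝ × ℝ)) (by fun_prop)
  have hf : Continuous fun x : ℝ × ℝ =>
      if x.2 ≤ 1 / 4 then m x.1 (4 * x.2)
      else if x.2 ≤ 1 / 2 then d x.1 (4 * x.2 - 1)
      else if x.2 ≤ 3 / 4 then m x.1 (3 - 4 * x.2) else c x.1 (4 * x.2 - 3) := by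
    refine Continuous.if_le e1 (Continuous.if_le e2 (Continuous.if_le e3 e4 continuous_snd continuous_const ?_)
      continuous_snd continuous_const ?_) continuous_snd continuous_const ?_
    · intro x hx
      rw [hx]
      norm_num
      exact h0 x.1
    · intro x hx
      rw [hx]
      norm_num
      rw [hd1, h1]
    · intro x hx
      rw [hx]
      norm_num
      exact h1 x.1
  have key := ContinuousOn.comp_fract' (f := fun s x : ℝ =>
      if x ≤ 1 / 4 then m s (4 * x)
      else if x ≤ 1 / 2 then d s (4 * x - 1)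
      else if x ≤ 3 / 4 then m s (3 - 4 * x) else c s (4 * x - 3)) hf.continuousOn (by
    intro s
    norm_num
    rw [hc1, h0])
  exact key

/-- homotopies of the insertion -/
theorem InsN_hom {m d c : ℝ → ℝ → N} (hm : Continuous fun x : ℝ × ℝ => m x.1 x.2)
    (hd : Continuous fun x : ℝ × ℝ => d x.1 x.2) (hc : Continuous fun x : ℝ × ℝ => c x.1 x.2)
    (hdp : ∀ s t, d s (t + 1) = d s t) (hcp : ∀ s t, c s (t + 1) = c s t) (h0 : ∀ s, m s 0 = c s 0)
    (h1 : ∀ s, m s 1 = d s 0) {c₀ c₁ : ℝ → N} (e0 : ins (m 0) (d 0) (c 0) = c₀)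
    (e1 : ins (m 1) (d 1) (c 1) = c₁) : FHom univ c₀ c₁ :=
  ⟨fun s t => ins (m s) (d s) (c s) t, InsN_fam hm hd hc hdp hcp h0 h1, fun s t => ins_per _ _ _ t,
    e0, e1, fun _ _ => mem_univ _⟩

theorem ins_null {m c : ℝ → N} (hm : Continuous m) (hc : Continuous c) (hcp : ∀ t, c (t + 1) = c t)
    (h0 : m 0 = c 0) {D : ℝ → ℝ → N} (hD : Continuous fun x : ℝ × ℝ => D x.1 x.2)
    (hDp : ∀ s t, D s (t + 1) = D s t) {y : N} (hy : ∀ t, D 1 t = y) (h1 : m 1 = D 0 0) :
    FHom univ (ins m (D 0) c) c := by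
  have hc1 : c 1 = c 0 := by
    have := hcp 0
    rwa [zero_add] at this
  have hD0 : Continuous (D 0) := hD.comp (f := fun t : ℝ => ((0, t) : ℝ × ℝ)) (by fun_prop)
  have hcc : Continuous fun x : ℝ × ℝ => c x.2 := hc.comp continuous_snd
  -- step 1
  have s1 : FHom univ (ins m (D 0) c) (ins (fun x => m (min (2 * x) 1)) (D 0) c) := by
    refine InsN_hom (m := fun s x => m ((1 - s) * x + s * min (2 * x) 1)) (d := fun _ => D 0) (c := fun _ => c)
      (hm.comp (by fun_prop)) (hD0.comp continuous_snd) hcc (fun _ t => hDp 0 t) (fun _ t => hcp t) (fun s => ?_)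
      (fun s => ?_) ?_ ?_
    · simp [h0]
    · show m ((1 - s) * 1 + s * min (2 * 1) 1) = D 0 0
      have e : (1 - s) * 1 + s * min (2 * 1) 1 = 1 := by
        rw [min_eq_right (by norm_num)]; ring
      rw [e, h1]
    · simp
    · simp
  -- the path through the base points
  have hD00 : Continuous fun x : ℝ × ℝ => D (x.1 * (2 * x.2 - 1)) 0 :=
    hD.comp (f := fun x : ℝ × ℝ => ((x.1 * (2 * x.2 - 1), 0) : ℝ × ℝ)) (by fun_prop)
  have hm1 : Continuous fun x : ℝ × ℝ => if x.2 ≤ 1 / 2 then m (2 * x.2) else D (x.1 * (2 * x.2 - 1)) 0 := by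
    refine Continuous.if_le (hm.comp (by fun_prop)) hD00 continuous_snd continuous_const ?_
    intro x hx
    rw [hx]
    norm_num
    exact h1
  have s2 : FHom univ (ins (fun x => m (min (2 * x) 1)) (D 0) c)
      (ins (fun x => if x ≤ 1 / 2 then m (2 * x) else D (1 * (2 * x - 1)) 0) (fun _ => y) c) := by
    refine InsN_hom (m := fun s x => if x ≤ 1 / 2 then m (2 * x) else D (s * (2 * x - 1)) 0) (d := D)
      (c := fun _ => c) hm1 hD hcc hDp (fun _ t => hcp t) (fun s => ?_) (fun s => ?_) ?_ ?_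
    · norm_num
      exact h0
    · norm_num
    · congr 1
      funext x
      by_cases hx : x ≤ 1 / 2
      · rw [if_pos hx, min_eq_left (by linarith)]
      · rw [if_neg hx, min_eq_right (by linarith), zero_mul, h1]
    · congr 1
      funext t
      exact hy t
  have hm2 : Continuous fun x : ℝ => if x ≤ 1 / 2 then m (2 * x) else D (1 * (2 * x - 1)) 0 :=
    hm1.comp (f := fun x : ℝ => ((1, x) : ℝ × ℝ)) (by fun_prop)
  have hm20 : (fun x : ℝ => if x ≤ 1 / 2 then m (2 * x) else D (1 * (2 * x - 1)) 0) 0 = c 0 := by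
    norm_num
    exact h0
  have hm21 : (fun x : ℝ => if x ≤ 1 / 2 then m (2 * x) else D (1 * (2 * x - 1)) 0) 1 = y := by
    norm_num
    exact hy 0
  generalize (fun x : ℝ => if x ≤ 1 / 2 then m (2 * x) else D (1 * (2 * x - 1)) 0) = n at s2 hm2 hm20 hm21
  have s3 : FHom univ (ins n (fun _ => y) c) (ins (fun _ => c 0) (fun _ => c 0) c) := by
    refine InsN_hom (m := fun s x => n ((1 - s) * x)) (d := fun s _ => n (1 - s)) (c := fun _ => c)
      (hm2.comp (by fun_prop)) (hm2.comp (by fun_prop)) hcc (fun _ t => rfl) (fun _ t => hcp t) (fun s => ?_)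
      (fun s => ?_) ?_ ?_
    · show n ((1 - s) * 0) = c 0
      rw [mul_zero, hm20]
    · show n ((1 - s) * 1) = n (1 - s)
      rw [mul_one]
    · have e1 : (fun x : ℝ => n ((1 - 0) * x)) = n := by
        funext x
        rw [sub_zero, one_mul]
      have e2 : (fun _ : ℝ => n (1 - 0)) = fun _ => y := by
        funext _
        rw [sub_zero, hm21]
      show ins (fun x : ℝ => n ((1 - 0) * x)) (fun _ : ℝ => n (1 - 0)) c = ins n (fun _ => y) c
      rw [e1, e2]
    · have e1 : (fun x : ℝ => n ((1 - 1) * x)) = fun _ => c 0 := by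
        funext x
        rw [sub_self, zero_mul, hm20]
      have e2 : (fun _ : ℝ => n (1 - 1)) = fun _ => c 0 := by
        funext _
        rw [sub_self, hm20]
      show ins (fun x : ℝ => n ((1 - 1) * x)) (fun _ : ℝ => n (1 - 1)) c = _
      rw [e1, e2]
  have s4 : FHom univ (ins (fun _ => c 0) (fun _ => c 0) c) c := by
    have hcont := ContinuousOn.comp_fract' (f := fun s x : ℝ => c ((1 - s) * max (4 * x - 3) 0 + s * x))
      (Continuous.continuousOn (hc.comp (by fun_prop))) (by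
        intro s
        show c ((1 - s) * max (4 * 0 - 3) 0 + s * 0) = c ((1 - s) * max (4 * 1 - 3) 0 + s * 1)
        have e1 : (1 - s) * max (4 * 0 - 3) 0 + s * 0 = 0 := by
          rw [max_eq_right (by norm_num)]; ring
        have e2 : (1 - s) * max (4 * 1 - 3) 0 + s * 1 = 1 := by
          rw [max_eq_left (by norm_num)]; ring
        rw [e1, e2, hc1])
    refine ⟨fun s t => c ((1 - s) * max (4 * Int.fract t - 3) 0 + s * Int.fract t), hcont, fun s t => ?_, ?_, ?_,
      fun _ _ => mem_univ _⟩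
    · show c ((1 - s) * max (4 * Int.fract (t + 1) - 3) 0 + s * Int.fract (t + 1)) = _
      rw [Int.fract_add_one]
    · funext t
      show c ((1 - 0) * max (4 * Int.fract t - 3) 0 + 0 * Int.fract t) = ins (fun _ => c 0) (fun _ => c 0) c t
      unfold ins
      by_cases h3 : Int.fract t ≤ 3 / 4
      · rw [max_eq_right (by linarith)]
        have e : (1 - 0) * 0 + 0 * Int.fract t = 0 := by ring
        rw [e]
        split_ifs <;> rfl
      · rw [max_eq_left (by linarith), if_neg (by linarith), if_neg (by linarith), if_neg h3]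
        congr 1
        ring
    · funext t
      show c ((1 - 1) * max (4 * Int.fract t - 3) 0 + 1 * Int.fract t) = c t
      have e : (1 - 1) * max (4 * Int.fract t - 3) 0 + 1 * Int.fract t = Int.fract t := by ring
      rw [e]
      have h2 := ACB.per_int hcp (Int.fract t) ⌊t⌋
      rw [Int.fract_add_floor] at h2
      exact h2.symm
  exact ((s1.trans s2).trans s3).trans s4

end Pool.Agent.ACB
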