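import Pool.Agent.ACB.Bal
import Pool.Agent.ISO.Defs

/-!
# ACB/Ext: transfer of a compactly supported diffeomorphism through a ball

`ISO.Move ⊥ O G`: `G` is a diffeomorphism of `E4` which is the identity off a compact set `C ⊆ O` (`⊥` = trivial lattice: the condition
`∀ m ∈ ⊥, x + m ∉ C` is `x ∉ C`).

PROOF.  Let `C` be from `hG.supp`.  `F y = b (G (b' y))` if `y ∈ range b`, `F y = y` otherwise; inverse: the same with `G.symm` (`G.symm x = x` for
`x ∉ C`: if `G x = x` then `G.symm x = x`).  `b '' C` is compact, hence closed (`N` is Hausdorff); `range b` and `(b '' C)ᶜ` are open and cover `N`.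
On `range b`: `F = b ∘ G ∘ b'` is smooth.  On `(b '' C)ᶜ`: `F y = y` (if `y = b x`, `x ∉ C`, `F y = b (G x) = b x`).  Same for the inverse.  Build the
`Diffeomorph`.
-/

open scoped ContDiff Manifold Topology unitInterval
open Set Filter

namespace Pool.Agent.ACB

universe u
variable {N : Type u} [TopologicalSpace N] [ChartedSpace E4 N]

open Classical in
/-- the extension by the identity -/
noncomputable def ext_f (b : E4 → N) (b' : N → E4) (G : E4 → E4) (y : N) : N :=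
  if y ∈ range b then b (G (b' y)) else y

omit [TopologicalSpace N] [ChartedSpace E4 N] in
theorem ext_f_pos (b : E4 → N) (b' : N → E4) (G : E4 → E4) {y : N} (hy : y ∈ range b) :
    ext_f b b' G y = b (G (b' y)) := if_pos hy

omit [TopologicalSpace N] [ChartedSpace E4 N] in
theorem ext_f_neg (b : E4 → N) (b' : N → E4) (G : E4 → E4) {y : N} (hy : y ∉ range b) :
    ext_f b b' G y = y := if_neg hy

theorem ext_f_b {b : E4 → N} {b' : N → E4} (hb : IsBall b b') (G : E4 → E4) (x : E4) :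
    ext_f b b' G (b x) = b (G x) := by
  rw [ext_f_pos b b' G ⟨x, rfl⟩, hb.left_inv]

theorem ext_f_off {b : E4 → N} {b' : N → E4} (hb : IsBall b b') {G : E4 → E4} {C : Set E4}
    (hC : ∀ x, x ∉ C → G x = x) {y : N} (hy : y ∉ b '' C) : ext_f b b' G y = y := by
  by_cases h : y ∈ range b
  · obtain ⟨x, rfl⟩ := h
    rw [ext_f_b hb, hC x fun hx => hy ⟨x, hx, rfl⟩]
  · exact ext_f_neg b b' G h

theorem ext_f_smooth [T2Space N] {b : E4 → N} {b' : N → E4} (hb : IsBall b b') {G : E4 → E4}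
    {C : Set E4} (hG : ContDiff ℝ ∞ G) (hCc : IsCompact C) (hC : ∀ x, x ∉ C → G x = x) :
    ContMDiff (𝓡 4) (𝓡 4) ∞ (ext_f b b' G) := by
  intro y
  by_cases h : y ∈ range b
  · have h1 : ContMDiffAt (𝓡 4) (𝓡 4) ∞ (b ∘ (G ∘ b')) y := by
      have h2 : ContMDiffAt (𝓡 4) (𝓡 4) ∞ (G ∘ b') y :=
        ContMDiffAt.comp y (hG.contMDiff.contMDiffAt) (hb.contMDiffAt' h)
      exact ContMDiffAt.comp y (hb.smooth.contMDiffAt) h2
    refine h1.congr_of_eventuallyEq ?_
    filter_upwards [hb.eventually h] with z hz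
    exact ext_f_pos b b' G hz
  · have hop : IsOpen (b '' C)ᶜ := (hCc.image hb.cont).isClosed.isOpen_compl
    have hy : y ∈ (b '' C)ᶜ := by
      rintro ⟨x, -, hx⟩
      exact h ⟨x, hx⟩
    have h0 : ContMDiffAt (𝓡 4) (𝓡 4) ∞ (id : N → N) y := contMDiffAt_id
    refine h0.congr_of_eventuallyEq ?_
    filter_upwards [hop.mem_nhds hy] with z hz
    exact ext_f_off hb hC hz

theorem ext_f_inv {b : E4 → N} {b' : N → E4} (hb : IsBall b b') {G G' : E4 → E4}
    (hG : ∀ x, G' (G x) = x) (y : N) : ext_f b b' G' (ext_f b b' G y) = y := by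
  by_cases h : y ∈ range b
  · obtain ⟨x, rfl⟩ := h
    rw [ext_f_b hb, ext_f_b hb, hG]
  · rw [ext_f_neg b b' G h, ext_f_neg b b' G' h]

theorem ext_move [T2Space N] [IsManifold (𝓡 4) ∞ N] {b : E4 → N} {b' : N → E4} (hb : IsBall b b') {O : Set E4}
    {G : Equiv.Perm E4} (hG : ISO.Move (⊥ : AddSubgroup E4) O G) :
    ∃ F : N ≃ₘ⟮𝓡 4, 𝓡 4⟯ N, (∀ x, F (b x) = b (G x)) ∧
      ∃ C : Set E4, IsCompact C ∧ C ⊆ O ∧ ∀ y, y ∉ b '' C → F y = y := by
  obtain ⟨C, hCc, hCO, hC⟩ := hG.supp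
  have hC1 : ∀ x, x ∉ C → G x = x := by
    intro x hx
    refine hC x fun m hm => ?_
    rw [AddSubgroup.mem_bot.1 hm, add_zero]
    exact hx
  have hC2 : ∀ x, x ∉ C → G.symm x = x := by
    intro x hx
    rw [Equiv.symm_apply_eq, hC1 x hx]
  refine ⟨⟨⟨ext_f b b' G, ext_f b b' G.symm, ext_f_inv hb fun x => G.symm_apply_apply x,
    ext_f_inv hb fun x => G.apply_symm_apply x⟩, ext_f_smooth hb hG.smooth hCc hC1,
    ext_f_smooth hb hG.smooth_symm hCc hC2⟩, fun x => ext_f_b hb G x, C, hCc, hCO,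
    fun y hy => ext_f_off hb hC1 hy⟩

end Pool.Agent.ACB
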