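import Pool.Agent.ACB.Bal

/-!
# ACB/Cts: cutoff functions

PROOFS.  `cut_plateau`: `β t = smoothTransition ((t - a) / (p₀ - a)) * smoothTransition ((c - t) / (c - q₀))` with `a = (p + p₀) / 2`,
`c = (q₀ + q) / 2` (`Real.smoothTransition.contDiff`, `.nonneg`, `.le_one`, `.one_of_one_le`, `.zero_of_nonpos`); the support is in `(a, c)`.
`cut_exact`: `β t = smoothTransition (t - p₂) * smoothTransition (q₂ - t)`, positive iff both factors are positive iff `p₂ < t < q₂`
(`Real.smoothTransition.pos_of_pos`, `.zero_of_nonpos`); `p' = (p + p₂) / 2`, `q' = (q₂ + q) / 2` in `supp`.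
`cut_two`: `β = β₁ + β₂`, `β₁` exact on `(τ - 3 η / 4, τ - η / 4)`, `β₂` exact on `(τ + η / 4, τ + 3 η / 4)`.
-/

open scoped ContDiff Manifold Topology unitInterval
open Set Filter

namespace Pool.Agent.ACB

universe u
variable {N : Type u} [TopologicalSpace N] [ChartedSpace E4 N]

theorem cut_plateau {p p₀ q₀ q : ℝ} (h1 : p < p₀) (h2 : p₀ < q₀) (h3 : q₀ < q) :
    ∃ β : ℝ → ℝ, Cut β p q ∧ (∀ t ∈ Icc p₀ q₀, β t = 1) ∧ ∀ t, β t ≤ 1 := by
  obtain ⟨a, ha⟩ : ∃ a : ℝ, a = (p + p₀) / 2 := ⟨_, rfl⟩
  obtain ⟨c, hc⟩ : ∃ c : ℝ, c = (q₀ + q) / 2 := ⟨_, rfl⟩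
  have ha1 : p < a := by linarith
  have ha2 : a < p₀ := by linarith
  have hc1 : q₀ < c := by linarith
  have hc2 : c < q := by linarith
  refine ⟨fun t => Real.smoothTransition ((t - a) / (p₀ - a)) * Real.smoothTransition ((c - t) / (c - q₀)),
    ⟨?_, ?_, a, c, ha1, by linarith, hc2, ?_⟩, ?_, ?_⟩
  · refine ContDiff.mul ?_ ?_
    · exact Real.smoothTransition.contDiff.comp ((contDiff_id.sub contDiff_const).div_const _)
    · exact Real.smoothTransition.contDiff.comp ((contDiff_const.sub contDiff_id).div_const _)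
  · intro t
    exact mul_nonneg (Real.smoothTransition.nonneg _) (Real.smoothTransition.nonneg _)
  · intro t ht
    constructor
    · by_contra h
      refine ht ?_
      show Real.smoothTransition ((t - a) / (p₀ - a)) * Real.smoothTransition ((c - t) / (c - q₀)) = 0
      rw [Real.smoothTransition.zero_of_nonpos, zero_mul]
      exact div_nonpos_of_nonpos_of_nonneg (by linarith [not_lt.1 h]) (by linarith)
    · by_contra h
      refine ht ?_
      show Real.smoothTransition ((t - a) / (p₀ - a)) * Real.smoothTransition ((c - t) / (c - q₀)) = 0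
      rw [Real.smoothTransition.zero_of_nonpos (x := (c - t) / (c - q₀)), mul_zero]
      exact div_nonpos_of_nonpos_of_nonneg (by linarith [not_lt.1 h]) (by linarith)
  · intro t ht
    show Real.smoothTransition ((t - a) / (p₀ - a)) * Real.smoothTransition ((c - t) / (c - q₀)) = 1
    rw [Real.smoothTransition.one_of_one_le, Real.smoothTransition.one_of_one_le, mul_one]
    · rw [one_le_div (by linarith)]
      linarith [ht.2]
    · rw [one_le_div (by linarith)]
      linarith [ht.1]
  · intro t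
    exact mul_le_one₀ (Real.smoothTransition.le_one _) (Real.smoothTransition.nonneg _) (Real.smoothTransition.le_one _)

theorem cut_exact {p p₂ q₂ q : ℝ} (h1 : p < p₂) (h2 : p₂ < q₂) (h3 : q₂ < q) :
    ∃ β : ℝ → ℝ, Cut β p q ∧ ∀ t, β t ≠ 0 ↔ t ∈ Ioo p₂ q₂ := by
  have key : ∀ t, Real.smoothTransition (t - p₂) * Real.smoothTransition (q₂ - t) ≠ 0 ↔ t ∈ Ioo p₂ q₂ := by
    intro t
    constructor
    · intro ht
      constructor
      · by_contra h
        refine ht ?_
        rw [Real.smoothTransition.zero_of_nonpos (x := t - p₂) (by linarith [not_lt.1 h]), zero_mul]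
      · by_contra h
        refine ht ?_
        rw [Real.smoothTransition.zero_of_nonpos (x := q₂ - t) (by linarith [not_lt.1 h]), mul_zero]
    · rintro ⟨h4, h5⟩
      exact mul_ne_zero (Real.smoothTransition.pos_of_pos (by linarith)).ne'
        (Real.smoothTransition.pos_of_pos (by linarith)).ne'
  refine ⟨fun t => Real.smoothTransition (t - p₂) * Real.smoothTransition (q₂ - t),
    ⟨?_, ?_, (p + p₂) / 2, (q₂ + q) / 2, by linarith, by linarith, by linarith, ?_⟩, key⟩
  · refine ContDiff.mul ?_ ?_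
    · exact Real.smoothTransition.contDiff.comp (contDiff_id.sub contDiff_const)
    · exact Real.smoothTransition.contDiff.comp (contDiff_const.sub contDiff_id)
  · intro t
    exact mul_nonneg (Real.smoothTransition.nonneg _) (Real.smoothTransition.nonneg _)
  · intro t ht
    obtain ⟨h4, h5⟩ := (key t).1 ht
    exact ⟨by linarith, by linarith⟩

theorem cut_two {τ η : ℝ} (hη : 0 < η) :
    ∃ β : ℝ → ℝ, Cut β (τ - η) (τ + η) ∧ ∀ t, β t ≠ 0 ↔ |t - τ| ∈ Ioo (η / 4) (3 * η / 4) := by
  obtain ⟨β₁, h1, h1'⟩ := cut_exact (p := τ - η) (p₂ := τ - 3 * η / 4) (q₂ := τ - η / 4) (q := τ)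
    (by linarith) (by linarith) (by linarith)
  obtain ⟨β₂, h2, h2'⟩ := cut_exact (p := τ) (p₂ := τ + η / 4) (q₂ := τ + 3 * η / 4) (q := τ + η)
    (by linarith) (by linarith) (by linarith)
  have key : ∀ t, β₁ t + β₂ t ≠ 0 ↔ |t - τ| ∈ Ioo (η / 4) (3 * η / 4) := by
    intro t
    have e1 : β₁ t + β₂ t ≠ 0 ↔ (β₁ t ≠ 0 ∨ β₂ t ≠ 0) := by
      constructor
      · intro h
        by_contra h'
        push Not at h'
        exact h (by rw [h'.1, h'.2, add_zero])
      · rintro (h | h)
        · have h3 := lt_of_le_of_ne (h1.nonneg t) (Ne.symm h)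
          have h4 := h2.nonneg t
          intro h5
          linarith
        · have h3 := lt_of_le_of_ne (h2.nonneg t) (Ne.symm h)
          have h4 := h1.nonneg t
          intro h5
          linarith
    rw [e1, h1' t, h2' t]
    constructor
    · rintro (⟨h3, h4⟩ | ⟨h3, h4⟩)
      · have h5 : |t - τ| = τ - t := by rw [abs_of_neg (by linarith)]; ring
        rw [h5]
        exact ⟨by linarith, by linarith⟩
      · have h5 : |t - τ| = t - τ := abs_of_pos (by linarith)
        rw [h5]
        exact ⟨by linarith, by linarith⟩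
    · rintro ⟨h3, h4⟩
      rcases le_or_gt t τ with h6 | h6
      · have h5 : |t - τ| = τ - t := by rw [abs_of_nonpos (by linarith)]; ring
        rw [h5] at h3 h4
        exact Or.inl ⟨by linarith, by linarith⟩
      · have h5 : |t - τ| = t - τ := abs_of_pos (by linarith)
        rw [h5] at h3 h4
        exact Or.inr ⟨by linarith, by linarith⟩
  refine ⟨fun t => β₁ t + β₂ t, ⟨h1.smooth.add h2.smooth, ?_, τ - 3 * η / 4, τ + 3 * η / 4, by linarith,
    by linarith, by linarith, ?_⟩, key⟩
  · intro t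
    exact add_nonneg (h1.nonneg t) (h2.nonneg t)
  · intro t ht
    obtain ⟨h3, h4⟩ := (key t).1 ht
    obtain ⟨h5, h6⟩ := abs_lt.1 h4
    exact ⟨by linarith, by linarith⟩

end Pool.Agent.ACB
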