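import Pool.Agent.ACB.Bal

/-!
# ACB/Thn: thin sets

`Thin S` means: `S ⊆ E4 × E4` has measure zero.

PROOFS.  `thin_image`: let `ι : ℝ × ℝ × ℝ × E4 →L[ℝ] E4 × E4`, `ι (s, t, u, w) = (toLp (s, t, u, 0), w)` and `ρ` its linear left inverse
`ρ (x, w) = (x 0, x 1, x 2, w)`.  `S = ι '' U` is contained in the proper subspace `{(x, w) | x 3 = 0}` (kernel of the nonzero functional
`(x, w) ↦ x 3`), so `volume S = 0` (`MeasureTheory.Measure.addHaar_submodule`, `measure_mono_null`).  `G '' U = (G ∘ ρ) '' S`, and `G ∘ ρ` is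
differentiable on `S` (at `ι x`, `x ∈ U`: `ρ (ι x) = x`).  Now
`MeasureTheory.addHaar_image_eq_zero_of_differentiableOn_of_addHaar_image_eq_zero` / (name may be
`MeasureTheory.addHaar_image_eq_zero_of_differentiableOn_of_addHaar_eq_zero`, file `Mathlib/MeasureTheory/Function/Jacobian.lean`).  The volume of the
product `E4 × E4` is an additive Haar measure (instance for `Measure.prod`).
`thin_avoid`: the open set `ball 0 δ ×ˢ ball 0 δ` is not empty, so has positive volume (`IsOpen.measure_pos`), it is not contained in `S`.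
-/

open scoped ContDiff Manifold Topology unitInterval
open Set Filter

namespace Pool.Agent.ACB

universe u
variable {N : Type u} [TopologicalSpace N] [ChartedSpace E4 N]

theorem Thin.mono {S T : Set (E4 × E4)} (h : Thin T) (hs : S ⊆ T) : Thin S :=
  MeasureTheory.measure_mono_null hs h

theorem Thin.union {S T : Set (E4 × E4)} (h : Thin S) (h' : Thin T) : Thin (S ∪ T) :=
  MeasureTheory.measure_union_null h h'

theorem Thin.iUnion {n : ℕ} {S : Fin n → Set (E4 × E4)} (h : ∀ i, Thin (S i)) : Thin (⋃ i, S i) :=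
  MeasureTheory.measure_iUnion_null h

/-- linear left inverse -/
noncomputable def thn_rho : E4 × E4 →L[ℝ] ℝ × ℝ × ℝ × E4 :=
  ((EuclideanSpace.proj 0 : E4 →L[ℝ] ℝ).comp (ContinuousLinearMap.fst ℝ E4 E4)).prod
    (((EuclideanSpace.proj 1 : E4 →L[ℝ] ℝ).comp (ContinuousLinearMap.fst ℝ E4 E4)).prod
      (((EuclideanSpace.proj 2 : E4 →L[ℝ] ℝ).comp (ContinuousLinearMap.fst ℝ E4 E4)).prod
        (ContinuousLinearMap.snd ℝ E4 E4)))

/-- the functional `x 3` -/
noncomputable def thn_phi : E4 × E4 →L[ℝ] ℝ :=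
  (EuclideanSpace.proj 3 : E4 →L[ℝ] ℝ).comp (ContinuousLinearMap.fst ℝ E4 E4)

theorem thin_image {U : Set (ℝ × ℝ × ℝ × E4)} {G : ℝ × ℝ × ℝ × E4 → E4 × E4}
    (hG : ∀ x ∈ U, DifferentiableAt ℝ G x) : Thin (G '' U) := by
  set S : Set (E4 × E4) := {x | thn_phi x = 0 ∧ thn_rho x ∈ U} with hS
  have hS0 : MeasureTheory.volume S = 0 := by
    refine MeasureTheory.measure_mono_null (t := ((LinearMap.ker (thn_phi : E4 × E4 →ₗ[ℝ] ℝ) : Submodule ℝ (E4 × E4)) :
      Set (E4 × E4))) ?_ ?_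
    · intro x hx
      exact hx.1
    · haveI : (MeasureTheory.volume : MeasureTheory.Measure (E4 × E4)).IsAddHaarMeasure := by
        rw [MeasureTheory.Measure.volume_eq_prod]; infer_instance
      apply MeasureTheory.Measure.addHaar_submodule
      intro htop
      have h1 : ((WithLp.toLp 2 (fun _ => (1 : ℝ)) : E4), (0 : E4)) ∈
          (LinearMap.ker (thn_phi : E4 × E4 →ₗ[ℝ] ℝ) : Submodule ℝ (E4 × E4)) := by
        rw [htop]; trivial
      rw [LinearMap.mem_ker] at h1
      have h2 : (1 : ℝ) = 0 := h1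
      norm_num at h2
  have hsub : G '' U ⊆ (G ∘ thn_rho) '' S := by
    rintro _ ⟨⟨a, b, c, w⟩, hu, rfl⟩
    refine ⟨(WithLp.toLp 2 ![a, b, c, 0], w), ?_, ?_⟩
    · refine ⟨?_, ?_⟩
      · simp [thn_phi]
      · have : thn_rho ((WithLp.toLp 2 ![a, b, c, 0] : E4), w) = (a, b, c, w) := by
          simp [thn_rho]
        rw [this]; exact hu
    · have : thn_rho ((WithLp.toLp 2 ![a, b, c, 0] : E4), w) = (a, b, c, w) := by
        simp [thn_rho]
      simp [this]
  refine MeasureTheory.measure_mono_null hsub ?_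
  haveI : (MeasureTheory.volume : MeasureTheory.Measure (E4 × E4)).IsAddHaarMeasure := by
    rw [MeasureTheory.Measure.volume_eq_prod]; infer_instance
  refine MeasureTheory.addHaar_image_eq_zero_of_differentiableOn_of_addHaar_eq_zero _ ?_ hS0
  intro x hx
  exact ((hG _ hx.2).comp x thn_rho.differentiableAt).differentiableWithinAt

theorem thin_avoid {S : Set (E4 × E4)} (h : Thin S) {δ : ℝ} (hδ : 0 < δ) :
    ∃ v : E4 × E4, v ∉ S ∧ ‖v.1‖ < δ ∧ ‖v.2‖ < δ := by
  by_contra hc
  push Not at hc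
  have hsub : Metric.ball (0 : E4) δ ×ˢ Metric.ball (0 : E4) δ ⊆ S := by
    rintro ⟨x, y⟩ ⟨hx, hy⟩
    by_contra hn
    have h1 := hc (x, y) hn (by simpa using hx)
    have h2 : ‖y‖ < δ := by simpa using hy
    exact absurd h2 (not_lt.2 h1)
  have h0 : MeasureTheory.volume (Metric.ball (0 : E4) δ ×ˢ Metric.ball (0 : E4) δ) = 0 :=
    MeasureTheory.measure_mono_null hsub h
  have hpos : 0 < MeasureTheory.volume (Metric.ball (0 : E4) δ ×ˢ Metric.ball (0 : E4) δ) := by
    rw [MeasureTheory.Measure.volume_eq_prod]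
    refine (Metric.isOpen_ball.prod Metric.isOpen_ball).measure_pos _ ?_
    exact ⟨(0, 0), Metric.mem_ball_self hδ, Metric.mem_ball_self hδ⟩
  exact hpos.ne' h0

end Pool.Agent.ACB
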