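import Pool.Agent.ACB.Bal
import Pool.Agent.ACB.Thn

/-!
# ACB/GpZ: double points of a perturbed family

`pert K B v (s, t) = K (s, t) + B (s, t) • (v.1 + t • v.2)`.

PROOF of `gp_zz`.  Let `U₁ = {(s, t, t', w) | (s, t) ∈ D, (s, t') ∈ D, B (s, t) ≠ B (s, t')}`,
`G₁ (s, t, t', w) = ((B (s, t) - B (s, t'))⁻¹ • (K (s, t') - K (s, t) - (t * B (s, t) - t' * B (s, t')) • w), w)` and
`U₂ = {(s, t, t', w) | (s, t) ∈ D, (s, t') ∈ D, t * B (s, t) ≠ t' * B (s, t')}`,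
`G₂ (s, t, t', w) = (w, (t * B (s, t) - t' * B (s, t'))⁻¹ • (K (s, t') - K (s, t) - (B (s, t) - B (s, t')) • w))`.
`G₁`, `G₂` are differentiable at the points of `U₁`, `U₂` (`DifferentiableAt.comp` with the projections, `DifferentiableAt.inv`), so
`thin_image` applies.  If `v` is bad at `(s, t, t')` then `(B - B') • v.1 + (t B - t' B') • v.2 = K' - K`.  If `B ≠ B'` then
`v = G₁ (s, t, t', v.2)`.  If `B = B'` then `t B - t' B' = (t - t') B ≠ 0` and `v = G₂ (s, t, t', v.1)`.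
PROOF of `gp_zc`.  `U = {(s, t, u, w) | (s, t) ∈ D, u ∈ J, B (s, t) ≠ 0}`, `G (s, t, u, w) = ((B (s, t))⁻¹ • (d u - K (s, t)) - t • w, w)`.
-/

open scoped ContDiff Manifold Topology unitInterval
open Set Filter

namespace Pool.Agent.ACB

universe u
variable {N : Type u} [TopologicalSpace N] [ChartedSpace E4 N]

/-- the perturbed family -/
noncomputable def pert (K : ℝ × ℝ → E4) (B : ℝ × ℝ → ℝ) (v : E4 × E4) (x : ℝ × ℝ) : E4 :=
  K x + B x • (v.1 + x.2 • v.2)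

theorem gp_zz {D : Set (ℝ × ℝ)} {K : ℝ × ℝ → E4} {B : ℝ × ℝ → ℝ} (hK : ∀ x ∈ D, DifferentiableAt ℝ K x)
    (hB : ∀ x ∈ D, DifferentiableAt ℝ B x) :
    Thin {v | ∃ s t t' : ℝ, (s, t) ∈ D ∧ (s, t') ∈ D ∧ t ≠ t' ∧ B (s, t) ≠ 0 ∧
      pert K B v (s, t) = pert K B v (s, t')} := by
  have T1 : Thin ((fun x : ℝ × ℝ × ℝ × E4 => (((B (x.1, x.2.1) - B (x.1, x.2.2.1))⁻¹ •
      (K (x.1, x.2.2.1) - K (x.1, x.2.1) -
        (x.2.1 * B (x.1, x.2.1) - x.2.2.1 * B (x.1, x.2.2.1)) • x.2.2.2), x.2.2.2) : E4 × E4)) ''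
      {x | (x.1, x.2.1) ∈ D ∧ (x.1, x.2.2.1) ∈ D ∧ B (x.1, x.2.1) - B (x.1, x.2.2.1) ≠ 0}) := by
    apply thin_image
    rintro x ⟨h1, h2, h3⟩
    have p1 : DifferentiableAt ℝ (fun x : ℝ × ℝ × ℝ × E4 => (x.1, x.2.1)) x := by fun_prop
    have p2 : DifferentiableAt ℝ (fun x : ℝ × ℝ × ℝ × E4 => (x.1, x.2.2.1)) x := by fun_prop
    have q1 : DifferentiableAt ℝ (fun x : ℝ × ℝ × ℝ × E4 => x.2.1) x := by fun_prop
    have q2 : DifferentiableAt ℝ (fun x : ℝ × ℝ × ℝ × E4 => x.2.2.1) x := by fun_prop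
    have q3 : DifferentiableAt ℝ (fun x : ℝ × ℝ × ℝ × E4 => x.2.2.2) x := by fun_prop
    have hB1 : DifferentiableAt ℝ (fun x : ℝ × ℝ × ℝ × E4 => B (x.1, x.2.1)) x :=
      DifferentiableAt.comp (g := B) x (hB _ h1) p1
    have hB2 : DifferentiableAt ℝ (fun x : ℝ × ℝ × ℝ × E4 => B (x.1, x.2.2.1)) x :=
      DifferentiableAt.comp (g := B) x (hB _ h2) p2
    have hK1 : DifferentiableAt ℝ (fun x : ℝ × ℝ × ℝ × E4 => K (x.1, x.2.1)) x :=
      DifferentiableAt.comp (g := K) x (hK _ h1) p1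
    have hK2 : DifferentiableAt ℝ (fun x : ℝ × ℝ × ℝ × E4 => K (x.1, x.2.2.1)) x :=
      DifferentiableAt.comp (g := K) x (hK _ h2) p2
    exact (((hB1.sub hB2).inv h3).smul ((hK2.sub hK1).sub
      (((q1.mul hB1).sub (q2.mul hB2)).smul q3))).prodMk q3
  have T2 : Thin ((fun x : ℝ × ℝ × ℝ × E4 => ((x.2.2.2,
      (x.2.1 * B (x.1, x.2.1) - x.2.2.1 * B (x.1, x.2.2.1))⁻¹ •
      (K (x.1, x.2.2.1) - K (x.1, x.2.1) - (B (x.1, x.2.1) - B (x.1, x.2.2.1)) • x.2.2.2)) :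
        E4 × E4)) ''
      {x | (x.1, x.2.1) ∈ D ∧ (x.1, x.2.2.1) ∈ D ∧
        x.2.1 * B (x.1, x.2.1) - x.2.2.1 * B (x.1, x.2.2.1) ≠ 0}) := by
    apply thin_image
    rintro x ⟨h1, h2, h3⟩
    have p1 : DifferentiableAt ℝ (fun x : ℝ × ℝ × ℝ × E4 => (x.1, x.2.1)) x := by fun_prop
    have p2 : DifferentiableAt ℝ (fun x : ℝ × ℝ × ℝ × E4 => (x.1, x.2.2.1)) x := by fun_prop
    have q1 : DifferentiableAt ℝ (fun x : ℝ × ℝ × ℝ × E4 => x.2.1) x := by fun_prop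
    have q2 : DifferentiableAt ℝ (fun x : ℝ × ℝ × ℝ × E4 => x.2.2.1) x := by fun_prop
    have q3 : DifferentiableAt ℝ (fun x : ℝ × ℝ × ℝ × E4 => x.2.2.2) x := by fun_prop
    have hB1 : DifferentiableAt ℝ (fun x : ℝ × ℝ × ℝ × E4 => B (x.1, x.2.1)) x :=
      DifferentiableAt.comp (g := B) x (hB _ h1) p1
    have hB2 : DifferentiableAt ℝ (fun x : ℝ × ℝ × ℝ × E4 => B (x.1, x.2.2.1)) x :=
      DifferentiableAt.comp (g := B) x (hB _ h2) p2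
    have hK1 : DifferentiableAt ℝ (fun x : ℝ × ℝ × ℝ × E4 => K (x.1, x.2.1)) x :=
      DifferentiableAt.comp (g := K) x (hK _ h1) p1
    have hK2 : DifferentiableAt ℝ (fun x : ℝ × ℝ × ℝ × E4 => K (x.1, x.2.2.1)) x :=
      DifferentiableAt.comp (g := K) x (hK _ h2) p2
    exact q3.prodMk ((((q1.mul hB1).sub (q2.mul hB2)).inv h3).smul ((hK2.sub hK1).sub
      ((hB1.sub hB2).smul q3)))
  refine (T1.union T2).mono ?_
  rintro ⟨v1, v2⟩ ⟨s, t, t', hD, hD', htt, hB0, he⟩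
  unfold pert at he
  simp only at he
  by_cases hBB : B (s, t) - B (s, t') = 0
  · right
    have hB' : B (s, t') = B (s, t) := (sub_eq_zero.1 hBB).symm
    have hne : t * B (s, t) - t' * B (s, t') ≠ 0 := by
      rw [hB', ← sub_mul]
      exact mul_ne_zero (sub_ne_zero.2 htt) hB0
    refine ⟨(s, t, t', v1), ⟨hD, hD', hne⟩, ?_⟩
    simp only
    have e : K (s, t') - K (s, t) - (B (s, t) - B (s, t')) • v1 =
        (t * B (s, t) - t' * B (s, t')) • v2 := by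
      have e1 : K (s, t') - K (s, t) - (B (s, t) - B (s, t')) • v1 =
          (K (s, t') + B (s, t') • (v1 + t' • v2)) - (K (s, t) + B (s, t) • (v1 + t • v2)) +
            (t * B (s, t) - t' * B (s, t')) • v2 := by module
      rw [e1, he, sub_self, zero_add]
    rw [e, inv_smul_smul₀ hne]
  · left
    refine ⟨(s, t, t', v2), ⟨hD, hD', hBB⟩, ?_⟩
    simp only
    have e : K (s, t') - K (s, t) - (t * B (s, t) - t' * B (s, t')) • v2 =
        (B (s, t) - B (s, t')) • v1 := by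
      have e1 : K (s, t') - K (s, t) - (t * B (s, t) - t' * B (s, t')) • v2 =
          (K (s, t') + B (s, t') • (v1 + t' • v2)) - (K (s, t) + B (s, t) • (v1 + t • v2)) +
            (B (s, t) - B (s, t')) • v1 := by module
      rw [e1, he, sub_self, zero_add]
    rw [e, inv_smul_smul₀ hBB]

theorem gp_zc {D : Set (ℝ × ℝ)} {K : ℝ × ℝ → E4} {B : ℝ × ℝ → ℝ} (hK : ∀ x ∈ D, DifferentiableAt ℝ K x)
    (hB : ∀ x ∈ D, DifferentiableAt ℝ B x) {J : Set ℝ} {d : ℝ → E4} (hd : ∀ u ∈ J, DifferentiableAt ℝ d u) :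
    Thin {v | ∃ s t u : ℝ, (s, t) ∈ D ∧ u ∈ J ∧ B (s, t) ≠ 0 ∧ pert K B v (s, t) = d u} := by
  have T1 : Thin ((fun x : ℝ × ℝ × ℝ × E4 => (((B (x.1, x.2.1))⁻¹ •
      (d x.2.2.1 - K (x.1, x.2.1)) - x.2.1 • x.2.2.2, x.2.2.2) : E4 × E4)) ''
      {x | (x.1, x.2.1) ∈ D ∧ x.2.2.1 ∈ J ∧ B (x.1, x.2.1) ≠ 0}) := by
    apply thin_image
    rintro x ⟨h1, h2, h3⟩
    have p1 : DifferentiableAt ℝ (fun x : ℝ × ℝ × ℝ × E4 => (x.1, x.2.1)) x := by fun_prop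
    have q1 : DifferentiableAt ℝ (fun x : ℝ × ℝ × ℝ × E4 => x.2.1) x := by fun_prop
    have q2 : DifferentiableAt ℝ (fun x : ℝ × ℝ × ℝ × E4 => x.2.2.1) x := by fun_prop
    have q3 : DifferentiableAt ℝ (fun x : ℝ × ℝ × ℝ × E4 => x.2.2.2) x := by fun_prop
    have hB1 : DifferentiableAt ℝ (fun x : ℝ × ℝ × ℝ × E4 => B (x.1, x.2.1)) x :=
      DifferentiableAt.comp (g := B) x (hB _ h1) p1
    have hK1 : DifferentiableAt ℝ (fun x : ℝ × ℝ × ℝ × E4 => K (x.1, x.2.1)) x :=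
      DifferentiableAt.comp (g := K) x (hK _ h1) p1
    have hd1 : DifferentiableAt ℝ (fun x : ℝ × ℝ × ℝ × E4 => d x.2.2.1) x :=
      DifferentiableAt.comp (g := d) x (hd _ h2) q2
    exact (((hB1.inv h3).smul (hd1.sub hK1)).sub (q1.smul q3)).prodMk q3
  refine T1.mono ?_
  rintro ⟨v1, v2⟩ ⟨s, t, u, hD, hJ, hB0, he⟩
  unfold pert at he
  simp only at he
  refine ⟨(s, t, u, v2), ⟨hD, hJ, hB0⟩, ?_⟩
  simp only
  have e : (B (s, t))⁻¹ • (d u - K (s, t)) - t • v2 = v1 := by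
    rw [← he, add_sub_cancel_left, inv_smul_smul₀ hB0, add_sub_cancel_right]
  rw [e]

end Pool.Agent.ACB
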