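import Pool.Agent.ACB.Bal
import Pool.Agent.ACB.GpZ

/-!
# ACB/GpI: a perturbed family is immersed

PROOF.  Put `K' x = fderiv ℝ K x (0, 1)`, `B' x = fderiv ℝ B x (0, 1)`; for `x = (s, t) ∈ D` they are differentiable at `x`
(`ContDiffAt.fderiv_right` gives `ContDiffAt ℝ ∞ (fderiv ℝ K) x`, then apply to the constant vector) and
`deriv (fun t => pert K B v (s, t)) t = K' x + B' x • (v.1 + t • v.2) + B x • v.2` (chain rule with `t ↦ (s, t)`, derivative `(0, 1)`).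
Let `U₁ = {(s, t, u, w) | (s, t) ∈ D, B' (s, t) ≠ 0}`, `G₁ (s, t, u, w) = (-(B' (s, t))⁻¹ • (K' (s, t) + (t * B' (s, t) + B (s, t)) • w), w)` and
`U₂ = {(s, t, u, w) | (s, t) ∈ D, t * B' (s, t) + B (s, t) ≠ 0}`,
`G₂ (s, t, u, w) = (w, -(t * B' (s, t) + B (s, t))⁻¹ • (K' (s, t) + B' (s, t) • w))`; `thin_image`.  If `v` is bad at `(s, t)`: if `B' ≠ 0` then
`v = G₁ (s, t, 0, v.2)`; if `B' = 0` then `t B' + B = B ≠ 0` and `v = G₂ (s, t, 0, v.1)`.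
-/

open scoped ContDiff Manifold Topology unitInterval
open Set Filter

namespace Pool.Agent.ACB

universe u
variable {N : Type u} [TopologicalSpace N] [ChartedSpace E4 N]

/-- the derivative of the perturbed family in the time -/
theorem GpI_deriv {K : ℝ × ℝ → E4} {B : ℝ × ℝ → ℝ} {s t : ℝ} (hK : DifferentiableAt ℝ K (s, t))
    (hB : DifferentiableAt ℝ B (s, t)) (v : E4 × E4) :
    deriv (fun t => pert K B v (s, t)) t =
      fderiv ℝ K (s, t) (0, 1) + ((fderiv ℝ B (s, t) (0, 1)) • v.1 +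
        (t * fderiv ℝ B (s, t) (0, 1) + B (s, t)) • v.2) := by
  have hc : HasDerivAt (fun t : ℝ => ((s, t) : ℝ × ℝ)) ((0, 1) : ℝ × ℝ) t :=
    (hasDerivAt_const t s).prodMk (hasDerivAt_id t)
  have h1 : HasDerivAt (fun t : ℝ => K (s, t)) (fderiv ℝ K (s, t) (0, 1)) t :=
    HasFDerivAt.comp_hasDerivAt (f := fun t : ℝ => ((s, t) : ℝ × ℝ)) t hK.hasFDerivAt hc
  have h2 : HasDerivAt (fun t : ℝ => B (s, t)) (fderiv ℝ B (s, t) (0, 1)) t :=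
    HasFDerivAt.comp_hasDerivAt (f := fun t : ℝ => ((s, t) : ℝ × ℝ)) t hB.hasFDerivAt hc
  have h3 : HasDerivAt (fun t : ℝ => v.1 + t • v.2) (0 + (1 : ℝ) • v.2) t :=
    (hasDerivAt_const t v.1).add ((hasDerivAt_id t).smul_const v.2)
  have h4 : HasDerivAt (fun t : ℝ => K (s, t) + B (s, t) • (v.1 + t • v.2))
      (fderiv ℝ K (s, t) (0, 1) + (B (s, t) • (0 + (1 : ℝ) • v.2) + fderiv ℝ B (s, t) (0, 1) • (v.1 + t • v.2))) t :=
    h1.add (h2.smul h3)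
  have h5 : (fun t => pert K B v (s, t)) = fun t : ℝ => K (s, t) + B (s, t) • (v.1 + t • v.2) := rfl
  rw [h5, h4.deriv]
  module

theorem gp_imm {D : Set (ℝ × ℝ)} {K : ℝ × ℝ → E4} {B : ℝ × ℝ → ℝ} (hK : ∀ x ∈ D, ContDiffAt ℝ ∞ K x)
    (hB : ∀ x ∈ D, ContDiffAt ℝ ∞ B x) :
    Thin {v | ∃ s t : ℝ, (s, t) ∈ D ∧ B (s, t) ≠ 0 ∧ deriv (fun t => pert K B v (s, t)) t = 0} := by
  have dK : ∀ x ∈ D, DifferentiableAt ℝ (fun x => fderiv ℝ K x ((0, 1) : ℝ × ℝ)) x := by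
    intro x hx
    have h1 : ContDiffAt ℝ ∞ (fderiv ℝ K) x := (hK x hx).fderiv_right (m := ∞) (by simp)
    exact (h1.differentiableAt (by simp)).clm_apply (differentiableAt_const _)
  have dB : ∀ x ∈ D, DifferentiableAt ℝ (fun x => fderiv ℝ B x ((0, 1) : ℝ × ℝ)) x := by
    intro x hx
    have h1 : ContDiffAt ℝ ∞ (fderiv ℝ B) x := (hB x hx).fderiv_right (m := ∞) (by simp)
    exact (h1.differentiableAt (by simp)).clm_apply (differentiableAt_const _)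
  have dB0 : ∀ x ∈ D, DifferentiableAt ℝ B x := fun x hx => (hB x hx).differentiableAt (by simp)
  have dK0 : ∀ x ∈ D, DifferentiableAt ℝ K x := fun x hx => (hK x hx).differentiableAt (by simp)
  generalize hKK : (fun x => fderiv ℝ K x ((0, 1) : ℝ × ℝ)) = K' at dK
  generalize hBB : (fun x => fderiv ℝ B x ((0, 1) : ℝ × ℝ)) = B' at dB
  have hpr : ∀ x : ℝ × ℝ × ℝ × E4, DifferentiableAt ℝ (fun x : ℝ × ℝ × ℝ × E4 => ((x.1, x.2.1) : ℝ × ℝ)) x := by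
    intro x; fun_prop
  have hpt : ∀ x : ℝ × ℝ × ℝ × E4, DifferentiableAt ℝ (fun x : ℝ × ℝ × ℝ × E4 => x.2.1) x := by
    intro x; fun_prop
  have hpw : ∀ x : ℝ × ℝ × ℝ × E4, DifferentiableAt ℝ (fun x : ℝ × ℝ × ℝ × E4 => x.2.2.2) x := by
    intro x; fun_prop
  have cK : ∀ x : ℝ × ℝ × ℝ × E4, (x.1, x.2.1) ∈ D →
      DifferentiableAt ℝ (fun x : ℝ × ℝ × ℝ × E4 => K' (x.1, x.2.1)) x := fun x hx =>
    DifferentiableAt.comp (f := fun x : ℝ × ℝ × ℝ × E4 => ((x.1, x.2.1) : ℝ × ℝ)) x (dK _ hx) (hpr x)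
  have cB : ∀ x : ℝ × ℝ × ℝ × E4, (x.1, x.2.1) ∈ D →
      DifferentiableAt ℝ (fun x : ℝ × ℝ × ℝ × E4 => B' (x.1, x.2.1)) x := fun x hx =>
    DifferentiableAt.comp (f := fun x : ℝ × ℝ × ℝ × E4 => ((x.1, x.2.1) : ℝ × ℝ)) x (dB _ hx) (hpr x)
  have cB0 : ∀ x : ℝ × ℝ × ℝ × E4, (x.1, x.2.1) ∈ D →
      DifferentiableAt ℝ (fun x : ℝ × ℝ × ℝ × E4 => B (x.1, x.2.1)) x := fun x hx =>
    DifferentiableAt.comp (f := fun x : ℝ × ℝ × ℝ × E4 => ((x.1, x.2.1) : ℝ × ℝ)) x (dB0 _ hx) (hpr x)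
  have T1 : Thin ((fun x : ℝ × ℝ × ℝ × E4 => ((-(B' (x.1, x.2.1))⁻¹ •
      (K' (x.1, x.2.1) + (x.2.1 * B' (x.1, x.2.1) + B (x.1, x.2.1)) • x.2.2.2), x.2.2.2) : E4 × E4)) ''
      {x | (x.1, x.2.1) ∈ D ∧ B' (x.1, x.2.1) ≠ 0}) := by
    apply thin_image
    rintro x ⟨hx, hne⟩
    exact (((cB x hx).inv hne).neg.smul ((cK x hx).add
      ((((hpt x).mul (cB x hx)).add (cB0 x hx)).smul (hpw x)))).prodMk (hpw x)
  have T2 : Thin ((fun x : ℝ × ℝ × ℝ × E4 => ((x.2.2.2, -(x.2.1 * B' (x.1, x.2.1) + B (x.1, x.2.1))⁻¹ •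
      (K' (x.1, x.2.1) + B' (x.1, x.2.1) • x.2.2.2)) : E4 × E4)) ''
      {x | (x.1, x.2.1) ∈ D ∧ x.2.1 * B' (x.1, x.2.1) + B (x.1, x.2.1) ≠ 0}) := by
    apply thin_image
    rintro x ⟨hx, hne⟩
    exact (hpw x).prodMk (((((hpt x).mul (cB x hx)).add (cB0 x hx)).inv hne).neg.smul ((cK x hx).add
      ((cB x hx).smul (hpw x))))
  refine (T1.union T2).mono ?_
  rintro v ⟨s, t, hst, hB0, hd⟩
  rw [GpI_deriv (dK0 _ hst) (dB0 _ hst)] at hd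
  have e1 : fderiv ℝ K (s, t) ((0, 1) : ℝ × ℝ) = K' (s, t) := by rw [← hKK]
  have e2 : fderiv ℝ B (s, t) ((0, 1) : ℝ × ℝ) = B' (s, t) := by rw [← hBB]
  rw [e1, e2] at hd
  by_cases hb : B' (s, t) = 0
  · right
    refine ⟨(s, t, 0, v.1), ⟨hst, ?_⟩, ?_⟩
    · show t * B' (s, t) + B (s, t) ≠ 0
      rw [hb, mul_zero, zero_add]; exact hB0
    · have hne : t * B' (s, t) + B (s, t) ≠ 0 := by
        rw [hb, mul_zero, zero_add]; exact hB0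
      refine Prod.ext rfl ?_
      show -(t * B' (s, t) + B (s, t))⁻¹ • (K' (s, t) + B' (s, t) • v.1) = v.2
      have h1 : K' (s, t) + B' (s, t) • v.1 = -((t * B' (s, t) + B (s, t)) • v.2) := by
        rw [← add_assoc] at hd
        exact eq_neg_of_add_eq_zero_left hd
      rw [h1, smul_neg, neg_smul, neg_neg, smul_smul, inv_mul_cancel₀ hne, one_smul]
  · left
    refine ⟨(s, t, 0, v.2), ⟨hst, hb⟩, ?_⟩
    refine Prod.ext ?_ rfl
    show -(B' (s, t))⁻¹ • (K' (s, t) + (t * B' (s, t) + B (s, t)) • v.2) = v.1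
    have h1 : K' (s, t) + (t * B' (s, t) + B (s, t)) • v.2 = -(B' (s, t) • v.1) := by
      rw [add_comm (B' (s, t) • v.1), ← add_assoc] at hd
      exact eq_neg_of_add_eq_zero_left hd
    rw [h1, smul_neg, neg_smul, neg_neg, smul_smul, inv_mul_cancel₀ hb, one_smul]

end Pool.Agent.ACB
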