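import Pool.Agent.ACB.Bal
import Pool.Agent.ISO.Core
import Pool.Agent.ACB.GpI
import Pool.Agent.ACB.Cts

/-!
# ACB/IsV: isotopy of arcs in the vector space, avoiding curves

PROOF.  `p₂ = (a + p₁) / 2`, `q₂ = (q₁ + c) / 2`, `β` from `cut_exact` (for `a < p₂ < q₂ < c`): `β t ≠ 0 ↔ t ∈ (p₂, q₂)`, `β ≥ 0`, smooth.
`K (s, t) = (1 - s) • k₀ t + s • k₁ t`, `B (s, t) = s * (1 - s) * β t`, `D = {(s, t) | s ∈ (0, 1), t ∈ (p, q)}`; `K`, `B` are smooth at the points of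
`D`.  By `gp_zz`, `gp_zc` (for each `d i`, `J i`), `gp_imm` and `thin_avoid` choose `v` outside all the (finitely many) thin sets.
`k s l = K (s, l) + B (s, l) • (v.1 + l • v.2) = pert K B v (s, l)`.  Apply `ISO.core_arc` with `Λ = ⊥` (`Lat ⊥`: subsets of `{0}` are finite), `O = Yᶜ`,
`a₀ = p`, `a`, `a' = p₂`, `b' = q₂`, `b = c`, `b₀ = q`:
`hk`: smooth at `(s, l)`, `s ∈ [0, 1]`, `l ∈ (p, q)` (`k₀`, `k₁` smooth there).
`hend`: `l ≤ p₂` or `q₂ ≤ l`: `β l = 0`, `k₀ l = k₁ l`, so `k s l = k₀ l = k 0 l`.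
`hkO`: `l ∈ [p₂, q₂]`: `s = 0`: `k₀ l ∉ Y`; `s = 1`: `k₁ l ∉ Y`; `l = p₂` or `q₂`: `k s l = k₀ l ∉ Y`; otherwise `B ≠ 0` and `k s l = y ∈ Y` gives
`y = d i u`, `u ∈ J i`, against the choice of `v`.
`himm`: `s = 0`, `s = 1`: `k s = k₀`, `k₁` near `l`.  `0 < s < 1`, `l ∈ (p₂, q₂)`: choice of `v` (`gp_imm`).  `0 < s < 1`, `l ∉ (p₂, q₂)`: near `l` we have
`k₀ = k₁` (`l < p₁` or `q₁ < l`), so `k s = k₀ + B • (..)` near `l`, `β l = 0` and `deriv β l = 0` (minimum of `β ≥ 0`), so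
`deriv (k s) l = deriv k₀ l ≠ 0`.
`hinj` (`m = 0`): `s = 0`, `s = 1`: injectivity of `k₀`, `k₁`.  `0 < s < 1`: if `l` or `l'` is in `(p₂, q₂)`: choice of `v` (`gp_zz`, used in the symmetric
form if only `l'` is in `(p₂, q₂)`).  Otherwise `k s l = k₀ l`, `k s l' = k₀ l'`.
-/

open scoped ContDiff Manifold Topology unitInterval
open Set Filter

namespace Pool.Agent.ACB

universe u
variable {N : Type u} [TopologicalSpace N] [ChartedSpace E4 N]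

theorem iso_vec {p a p₁ q₁ c q : ℝ} (h1 : p < a) (h2 : a < p₁) (h3 : p₁ < q₁) (h4 : q₁ < c) (h5 : c < q)
    {k₀ k₁ : ℝ → E4} (hk₀ : ∀ t ∈ Ioo p q, ContDiffAt ℝ ∞ k₀ t) (hk₁ : ∀ t ∈ Ioo p q, ContDiffAt ℝ ∞ k₁ t)
    (hi₀ : ∀ t ∈ Ioo p q, deriv k₀ t ≠ 0) (hi₁ : ∀ t ∈ Ioo p q, deriv k₁ t ≠ 0)
    (hj₀ : ∀ t ∈ Ioo p q, ∀ t' ∈ Ioo p q, k₀ t = k₀ t' → t = t')
    (hj₁ : ∀ t ∈ Ioo p q, ∀ t' ∈ Ioo p q, k₁ t = k₁ t' → t = t')
    (heq : ∀ t ∈ Ioo p q, (t ≤ p₁ ∨ q₁ ≤ t) → k₀ t = k₁ t)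
    {n : ℕ} {d : Fin n → ℝ → E4} {J : Fin n → Set ℝ} (hd : ∀ i, ∀ u ∈ J i, DifferentiableAt ℝ (d i) u)
    {Y : Set E4} (hY : IsClosed Y) (hYd : Y ⊆ ⋃ i, d i '' J i) (hY₀ : ∀ t ∈ Ioo a c, k₀ t ∉ Y)
    (hY₁ : ∀ t ∈ Ioo a c, k₁ t ∉ Y) :
    ∃ G : Equiv.Perm E4, ISO.Move (⊥ : AddSubgroup E4) Yᶜ G ∧ ∀ t ∈ Icc a c, G (k₀ t) = k₁ t := by
  classical
  obtain ⟨p₂, hp₂⟩ : ∃ x : ℝ, x = (a + p₁) / 2 := ⟨_, rfl⟩
  obtain ⟨q₂, hq₂⟩ : ∃ x : ℝ, x = (q₁ + c) / 2 := ⟨_, rfl⟩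
  have e1 : a < p₂ := by rw [hp₂]; linarith
  have e2 : p₂ < p₁ := by rw [hp₂]; linarith
  have e3 : q₁ < q₂ := by rw [hq₂]; linarith
  have e4 : q₂ < c := by rw [hq₂]; linarith
  have e5 : p₂ < q₂ := by linarith
  obtain ⟨β, hβ, hβe⟩ := cut_exact e1 e5 e4
  have hβ0 : ∀ t, t ∉ Ioo p₂ q₂ → β t = 0 := by
    intro t ht
    by_contra h
    exact ht ((hβe t).1 h)
  obtain ⟨K, hKdef⟩ : ∃ K : ℝ × ℝ → E4, K = fun x : ℝ × ℝ => (1 - x.1) • k₀ x.2 + x.1 • k₁ x.2 := ⟨_, rfl⟩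
  obtain ⟨B, hBdef⟩ : ∃ B : ℝ × ℝ → ℝ, B = fun x : ℝ × ℝ => x.1 * (1 - x.1) * β x.2 := ⟨_, rfl⟩
  have hKs : ∀ s : ℝ, ∀ l ∈ Ioo p q, ContDiffAt ℝ ∞ K (s, l) := by
    intro s l hl
    rw [hKdef]
    have g0 : ContDiffAt ℝ ∞ (fun x : ℝ × ℝ => k₀ x.2) (s, l) :=
      ContDiffAt.comp (s, l) (hk₀ l hl) contDiffAt_snd
    have g1 : ContDiffAt ℝ ∞ (fun x : ℝ × ℝ => k₁ x.2) (s, l) :=
      ContDiffAt.comp (s, l) (hk₁ l hl) contDiffAt_snd
    exact ((contDiffAt_const.sub contDiffAt_fst).smul g0).add (contDiffAt_fst.smul g1)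
  have hBs : ContDiff ℝ ∞ B := by
    rw [hBdef]
    exact (contDiff_fst.mul (contDiff_const.sub contDiff_fst)).mul (hβ.smooth.comp contDiff_snd)
  let D : Set (ℝ × ℝ) := {x | x.1 ∈ Ioo (0 : ℝ) 1 ∧ x.2 ∈ Ioo p q}
  have hKD : ∀ x ∈ D, ContDiffAt ℝ ∞ K x := fun x hx => hKs x.1 x.2 hx.2
  have hBD : ∀ x ∈ D, ContDiffAt ℝ ∞ B x := fun x _ => hBs.contDiffAt
  have hKd : ∀ x ∈ D, DifferentiableAt ℝ K x := fun x hx => (hKD x hx).differentiableAt (by simp)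
  have hBd : ∀ x ∈ D, DifferentiableAt ℝ B x := fun x hx => (hBD x hx).differentiableAt (by simp)
  have T1 := gp_zz (D := D) hKd hBd
  have T2 := fun i => gp_zc (D := D) hKd hBd (hd i)
  have T3 := gp_imm (D := D) hKD hBD
  obtain ⟨v, hv, -, -⟩ := thin_avoid ((T1.union (Thin.iUnion T2)).union T3) one_pos
  have hv1 : v ∉ {v | ∃ s t t' : ℝ, (s, t) ∈ D ∧ (s, t') ∈ D ∧ t ≠ t' ∧ B (s, t) ≠ 0 ∧
      pert K B v (s, t) = pert K B v (s, t')} := fun h => hv (Or.inl (Or.inl h))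
  have hv2 : ∀ i, v ∉ {v | ∃ s t u : ℝ, (s, t) ∈ D ∧ u ∈ J i ∧ B (s, t) ≠ 0 ∧ pert K B v (s, t) = d i u} :=
    fun i h => hv (Or.inl (Or.inr (mem_iUnion.2 ⟨i, h⟩)))
  have hv3 : v ∉ {v | ∃ s t : ℝ, (s, t) ∈ D ∧ B (s, t) ≠ 0 ∧ deriv (fun t => pert K B v (s, t)) t = 0} :=
    fun h => hv (Or.inr h)
  let k : ℝ → ℝ → E4 := fun s l => pert K B v (s, l)
  have hkf : ∀ s l, k s l = (1 - s) • k₀ l + s • k₁ l + (s * (1 - s) * β l) • (v.1 + l • v.2) := by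
    intro s l
    show pert K B v (s, l) = _
    unfold pert
    rw [hKdef, hBdef]
  have hk0 : ∀ l, k 0 l = k₀ l := by
    intro l
    rw [hkf]
    simp
  have hk1 : ∀ l, k 1 l = k₁ l := by
    intro l
    rw [hkf]
    simp
  have hk0' : k 0 = k₀ := funext hk0
  have hk1' : k 1 = k₁ := funext hk1
  have hKend : ∀ s, ∀ l ∈ Icc a c, l ∉ Ioo p₂ q₂ → k s l = k₀ l := by
    intro s l hl hl'
    have g1 : β l = 0 := hβ0 l hl'
    have g2 : k₀ l = k₁ l := by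
      apply heq l ⟨by linarith [hl.1], by linarith [hl.2]⟩
      by_cases g3 : p₂ < l
      · right
        by_contra g4
        exact hl' ⟨g3, by linarith [not_le.1 g4]⟩
      · left
        linarith [not_lt.1 g3]
    rw [hkf, g1, ← g2, mul_zero, zero_smul, add_zero, ← add_smul]
    simp
  have hBne : ∀ s ∈ Ioo (0 : ℝ) 1, ∀ l ∈ Ioo p₂ q₂, B (s, l) ≠ 0 := by
    intro s hs l hl
    rw [hBdef]
    exact mul_ne_zero (mul_ne_zero hs.1.ne' (by linarith [hs.2])) ((hβe l).2 hl)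
  have hDm : ∀ s ∈ Ioo (0 : ℝ) 1, ∀ l ∈ Icc a c, ((s, l) : ℝ × ℝ) ∈ D := by
    intro s hs l hl
    exact ⟨hs, ⟨by linarith [hl.1], by linarith [hl.2]⟩⟩
  have hcase : ∀ s ∈ Icc (0 : ℝ) 1, s = 0 ∨ s = 1 ∨ s ∈ Ioo (0 : ℝ) 1 := by
    intro s hs
    rcases eq_or_lt_of_le hs.1 with h | h
    · exact Or.inl h.symm
    · rcases eq_or_lt_of_le hs.2 with h' | h'
      · exact Or.inr (Or.inl h')
      · exact Or.inr (Or.inr ⟨h, h'⟩)
  have hLat : ISO.Lat (⊥ : AddSubgroup E4) :=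
    fun R => (finite_singleton (0 : E4)).subset fun m hm => by simpa using hm.1
  have c1 : ∀ s ∈ Icc (0 : ℝ) 1, ∀ l ∈ Ioo p q, ContDiffAt ℝ ∞ (fun q : ℝ × ℝ => k q.1 q.2) (s, l) := by
    intro s _ l hl
    have g1 : ContDiffAt ℝ ∞ (fun x : ℝ × ℝ => v.1 + x.2 • v.2) (s, l) :=
      (contDiff_const.add (contDiff_snd.smul contDiff_const)).contDiffAt
    exact (hKs s l hl).add (hBs.contDiffAt.smul g1)
  have c2 : ∀ s ∈ Icc (0 : ℝ) 1, ∀ l ∈ Icc a c, l ≤ p₂ ∨ q₂ ≤ l → k s l = k 0 l := by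
    intro s _ l hl hor
    have g : l ∉ Ioo p₂ q₂ := by
      intro h
      rcases hor with h' | h'
      · linarith [h.1]
      · linarith [h.2]
    rw [hKend s l hl g, hk0]
  have c3 : ∀ s ∈ Icc (0 : ℝ) 1, ∀ l ∈ Icc p₂ q₂, k s l ∈ Yᶜ := by
    intro s hs l hl
    have hl' : l ∈ Ioo a c := ⟨by linarith [hl.1], by linarith [hl.2]⟩
    rcases hcase s hs with rfl | rfl | hs'
    · rw [hk0]
      exact hY₀ l hl'
    · rw [hk1]
      exact hY₁ l hl'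
    · by_cases hm : l ∈ Ioo p₂ q₂
      · intro hmem
        obtain ⟨i, u, hu, hdu⟩ := mem_iUnion.1 (hYd hmem)
        exact hv2 i ⟨s, l, u, hDm s hs' l ⟨hl'.1.le, hl'.2.le⟩, hu, hBne s hs' l hm, hdu.symm⟩
      · rw [hKend s l ⟨hl'.1.le, hl'.2.le⟩ hm]
        exact hY₀ l hl'
  have c4 : ∀ s ∈ Icc (0 : ℝ) 1, ∀ l ∈ Icc a c, deriv (k s) l ≠ 0 := by
    intro s hs l hl
    have hlpq : l ∈ Ioo p q := ⟨by linarith [hl.1], by linarith [hl.2]⟩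
    rcases hcase s hs with rfl | rfl | hs'
    · rw [hk0']
      exact hi₀ l hlpq
    · rw [hk1']
      exact hi₁ l hlpq
    · by_cases hm : l ∈ Ioo p₂ q₂
      · intro h0
        exact hv3 ⟨s, l, hDm s hs' l hl, hBne s hs' l hm, h0⟩
      · have hβl : β l = 0 := hβ0 l hm
        have hmin : IsLocalMin β l := by
          apply Filter.Eventually.of_forall
          intro y
          rw [hβl]
          exact hβ.nonneg y
        have hβd : HasDerivAt β 0 l := by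
          have g1 : HasDerivAt β (deriv β l) l :=
            ((hβ.smooth.differentiable (by simp)) l).hasDerivAt
          rwa [hmin.deriv_eq_zero] at g1
        have hk₀d : HasDerivAt k₀ (deriv k₀ l) l := ((hk₀ l hlpq).differentiableAt (by simp)).hasDerivAt
        have g2 : HasDerivAt (fun y : ℝ => s * (1 - s) * β y) (s * (1 - s) * 0) l := hβd.const_mul _
        have g3 : HasDerivAt (fun y : ℝ => v.1 + y • v.2) ((1 : ℝ) • v.2) l :=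
          ((hasDerivAt_id l).smul_const v.2).const_add v.1
        have g4 := hk₀d.add (g2.smul g3)
        have g5 : deriv k₀ l + ((s * (1 - s) * β l) • ((1 : ℝ) • v.2) + (s * (1 - s) * 0) • (v.1 + l • v.2)) =
            deriv k₀ l := by
          rw [hβl]
          simp
        rw [g5] at g4
        have hev : (k s) =ᶠ[𝓝 l] (fun y => k₀ y + (s * (1 - s) * β y) • (v.1 + y • v.2)) := by
          have g6 : ∀ᶠ y in 𝓝 l, k₀ y = k₁ y := by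
            have g7 : ∀ᶠ y in 𝓝 l, y ∈ Ioo p q := isOpen_Ioo.mem_nhds hlpq
            by_cases g8 : p₂ < l
            · have g9 : q₁ < l := by
                by_contra g10
                exact hm ⟨g8, by linarith [not_lt.1 g10]⟩
              filter_upwards [g7, lt_mem_nhds g9] with y hy hy'
              exact heq y hy (Or.inr hy'.le)
            · have g9 : l < p₁ := by linarith [not_lt.1 g8]
              filter_upwards [g7, gt_mem_nhds g9] with y hy hy'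
              exact heq y hy (Or.inl hy'.le)
          filter_upwards [g6] with y hy
          rw [hkf, ← hy, ← add_smul]
          simp
        rw [hev.deriv_eq]
        have g11 : deriv (fun y => k₀ y + (s * (1 - s) * β y) • (v.1 + y • v.2)) l = deriv k₀ l := g4.deriv
        rw [g11]
        exact hi₀ l hlpq
  have c5 : ∀ s ∈ Icc (0 : ℝ) 1, ∀ l ∈ Icc a c, ∀ l' ∈ Icc a c, ∀ m ∈ (⊥ : AddSubgroup E4),
      k s l = k s l' + m → l = l' := by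
    intro s hs l hl l' hl' m hm h
    have hm0 : m = 0 := by simpa using hm
    rw [hm0, add_zero] at h
    have hlpq : l ∈ Ioo p q := ⟨by linarith [hl.1], by linarith [hl.2]⟩
    have hlpq' : l' ∈ Ioo p q := ⟨by linarith [hl'.1], by linarith [hl'.2]⟩
    rcases hcase s hs with rfl | rfl | hs'
    · rw [hk0, hk0] at h
      exact hj₀ l hlpq l' hlpq' h
    · rw [hk1, hk1] at h
      exact hj₁ l hlpq l' hlpq' h
    · by_contra hne
      by_cases g1 : l ∈ Ioo p₂ q₂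
      · exact hv1 ⟨s, l, l', hDm s hs' l hl, hDm s hs' l' hl', hne, hBne s hs' l g1, h⟩
      · by_cases g2 : l' ∈ Ioo p₂ q₂
        · exact hv1 ⟨s, l', l, hDm s hs' l' hl', hDm s hs' l hl, Ne.symm hne, hBne s hs' l' g2, h.symm⟩
        · rw [hKend s l hl g1, hKend s l' hl' g2] at h
          exact hne (hj₀ l hlpq l' hlpq' h)
  obtain ⟨F, hF, hF'⟩ := ISO.core_arc hLat hY.isOpen_compl (k := k) h1 e1 e4 h5 c1 c2 c3 c4 c5
  refine ⟨F, hF, ?_⟩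
  intro t ht
  have g := hF' t ht
  rwa [hk0, hk1] at g

end Pool.Agent.ACB
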