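import Pool.Agent.ACB.Bal
import Pool.Agent.ACB.Imm

/-!
# ACB/IsoR: the relation Iso

PROOFS.  `refl`: identity, `V = univ`.  `symm`: `F.symm`, same `V`.  `trans`: `F.trans G`, `V ∩ V'`.  `mono`: same `V`.
`shift`: nothing to do with `F`.
-/

open scoped ContDiff Manifold Topology unitInterval
open Set Filter

namespace Pool.Agent.ACB

universe u
variable {N : Type u} [TopologicalSpace N] [ChartedSpace E4 N]

theorem Iso.refl (W : Set N) (c : ℝ → N) : Iso W c c :=
  ⟨Diffeomorph.refl _ N _, fun _ => rfl, univ, isOpen_univ, subset_univ _, fun _ _ => rfl⟩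

theorem Iso.symm {W : Set N} {c c' : ℝ → N} (h : Iso W c c') : Iso W c' c := by
  obtain ⟨F, h1, V, hV, hW, h2⟩ := h
  refine ⟨F.symm, fun t => by rw [← h1 t, F.symm_apply_apply], V, hV, hW, fun x hx => ?_⟩
  conv_lhs => rw [← h2 x hx]
  exact F.symm_apply_apply x

theorem Iso.trans {W : Set N} {c c' c'' : ℝ → N} (h : Iso W c c') (h' : Iso W c' c'') : Iso W c c'' := by
  obtain ⟨F, h1, V, hV, hW, h2⟩ := h
  obtain ⟨G, h3, V', hV', hW', h4⟩ := h'
  refine ⟨F.trans G, fun t => ?_, V ∩ V', hV.inter hV', subset_inter hW hW', fun x hx => ?_⟩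
  · rw [Diffeomorph.coe_trans, Function.comp_apply, h1, h3]
  · rw [Diffeomorph.coe_trans, Function.comp_apply, h2 x hx.1, h4 x hx.2]

theorem Iso.mono {W W' : Set N} {c c' : ℝ → N} (h : Iso W c c') (hs : W' ⊆ W) : Iso W' c c' := by
  obtain ⟨F, h1, V, hV, hW, h2⟩ := h
  exact ⟨F, h1, V, hV, hs.trans hW, h2⟩

end Pool.Agent.ACB
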