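import Pool.Agent.ACB.Bal
import Pool.Agent.ACB.Imm

/-!
# ACB/Obs: obstacles

PROOFS.  `Obst.range`: `range c = c '' Icc 0 1` (periodicity, `per_int`, `Int.fract`) is compact, hence closed; one curve.
`Obst.union`: append the two families (`Fin.append`, or `Fin (n + n')` via `finSumFinEquiv`).
`Obst.diffeo`: `F '' W` is closed (`F.toHomeomorph`), curves `F ∘ d i`.  `Obst.empty`: `n = 0`.
`Obst.mono`: closed subset.
-/

open scoped ContDiff Manifold Topology unitInterval
open Set Filter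

namespace Pool.Agent.ACB

universe u
variable {N : Type u} [TopologicalSpace N] [ChartedSpace E4 N]

theorem Obst.empty : Obst (∅ : Set N) :=
  ⟨isClosed_empty, 0, fun i => i.elim0, fun i => i.elim0, empty_subset _⟩

theorem obs_range {c : ℝ → N} (h : SCirc c) : Set.range c = c '' Icc 0 1 := by
  apply Subset.antisymm
  · rintro _ ⟨t, rfl⟩
    refine ⟨Int.fract t, ⟨Int.fract_nonneg t, (Int.fract_lt_one t).le⟩, ?_⟩
    have h1 := per_int h.per (Int.fract t) ⌊t⌋
    rw [Int.fract_add_floor] at h1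
    exact h1.symm
  · rintro _ ⟨t, -, rfl⟩
    exact ⟨t, rfl⟩

theorem Obst.range [T2Space N] {c : ℝ → N} (h : SCirc c) : Obst (range c) := by
  refine ⟨?_, 1, fun _ => c, fun _ => h.smooth, ?_⟩
  · rw [obs_range h]
    exact (isCompact_Icc.image h.smooth.continuous).isClosed
  · intro x hx
    exact mem_iUnion.2 ⟨0, hx⟩

theorem Obst.union {W W' : Set N} (h : Obst W) (h' : Obst W') : Obst (W ∪ W') := by
  obtain ⟨hc, n, d, hd, hW⟩ := h
  obtain ⟨hc', n', d', hd', hW'⟩ := h'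
  refine ⟨hc.union hc', n + n', Fin.append d d', ?_, ?_⟩
  · intro i
    refine Fin.addCases (fun j => ?_) (fun j => ?_) i
    · rw [Fin.append_left]
      exact hd j
    · rw [Fin.append_right]
      exact hd' j
  · rintro x (hx | hx)
    · obtain ⟨j, hj⟩ := mem_iUnion.1 (hW hx)
      refine mem_iUnion.2 ⟨Fin.castAdd n' j, ?_⟩
      rw [Fin.append_left]
      exact hj
    · obtain ⟨j, hj⟩ := mem_iUnion.1 (hW' hx)
      refine mem_iUnion.2 ⟨Fin.natAdd n j, ?_⟩
      rw [Fin.append_right]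
      exact hj

theorem Obst.mono {W W' : Set N} (h : Obst W) (hc : IsClosed W') (hs : W' ⊆ W) : Obst W' := by
  obtain ⟨-, n, d, hd, hW⟩ := h
  exact ⟨hc, n, d, hd, hs.trans hW⟩

theorem Obst.diffeo {N' : Type*} [TopologicalSpace N'] [ChartedSpace E4 N'] {W : Set N} (h : Obst W)
    (F : N ≃ₘ⟮𝓡 4, 𝓡 4⟯ N') : Obst (F '' W) := by
  obtain ⟨hc, n, d, hd, hW⟩ := h
  refine ⟨?_, n, fun i t => F (d i t), fun i => F.contMDiff.comp (hd i), ?_⟩
  · exact F.toHomeomorph.isClosedMap W hc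
  · rintro _ ⟨x, hx, rfl⟩
    obtain ⟨j, t, ht⟩ := mem_iUnion.1 (hW hx)
    exact mem_iUnion.2 ⟨j, t, congrArg F ht⟩

end Pool.Agent.ACB
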