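import Pool.Agent.ACB.Bal
import Pool.Agent.ACB.Ext
import Pool.Agent.ACB.IsV
import Pool.Agent.ACB.Obs
import Pool.Agent.ACB.IsoR

/-!
# ACB/Lis: local isotopy of embedded circles

PROOF.  `a = (p + p₁) / 2`, `x = (q₁ + q) / 2`, `k₀ = b' ∘ c`, `k₁ = b' ∘ c'`.  On `(p, q)` they are smooth (`coord_smooth`), immersed (`imm_iff`), injective
(`c t = c t'` gives `t' = t + n`, `|n| < 1` because `q < p + 1`), and equal for `t ≤ p₁` (`c t = c (t + 1)`, `t + 1 ∈ [q₁, p₁ + 1]`) and `t ≥ q₁`.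
`Y = b ⁻¹' (Z ∪ c '' Icc x (a + 1))`, closed (`c '' Icc` is compact).  Curves: `b' ∘ d i` with `J i = {u | d i u ∈ range b}` (`Z ⊆ ⋃ range (d i)`, `hZ`), and
`b' ∘ c` with `J = {u | c u ∈ range b}` (use `Fin (n + 1)`, `Fin.cons` / `Fin.cases`, or `Obst.union` and `Obst.range`: `Z ∪ range c` is an obstacle,
which gives one family for both).  `Y ⊆ ⋃`: if `b y ∈ Z ∪ range c` then `b y = d i u`, `y = b' (d i u)`.
`hY₀`: `t ∈ (a, x)`: `c t ∉ Z`; if `c t = c u`, `u ∈ [x, a + 1]`, then `u = t + n` and `0 < u - t < 1`, impossible.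
`hY₁`: `c' t ∉ Z`; if `c' t = c u`, `u ∈ [x, a + 1] ⊆ [q₁, p₁ + 1]`, then `c u = c' u` and the same argument with `c'`.
`iso_vec` gives `G`, `ext_move` gives `F`, `C ⊆ Yᶜ`.  For `t ∈ [a, x]`: `F (c t) = F (b (k₀ t)) = b (G (k₀ t)) = b (k₁ t) = c' t`.  For `t ∈ [x, a + 1]`:
`c t ∉ b '' C` (if `c t = b y`, then `y ∈ Y`), so `F (c t) = c t = c' t`.  Every real number is `t + n`, `t ∈ [a, a + 1)`: `per_int`.
`V = (b '' C)ᶜ` is open (`b '' C` compact), contains `Z` (`b y ∈ Z` gives `y ∈ Y`), `F = id` on `V`.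
-/

open scoped ContDiff Manifold Topology unitInterval
open Set Filter

namespace Pool.Agent.ACB

universe u
variable {N : Type u} [TopologicalSpace N] [ChartedSpace E4 N]

theorem lis_int {n : ℤ} (h1 : (-1 : ℝ) < n) (h2 : (n : ℝ) < 1) : n = 0 := by
  have h3 : -1 < n := by exact_mod_cast h1
  have h4 : n < 1 := by exact_mod_cast h2
  omega

theorem lis_dich (p q t : ℝ) : ∃ (n : ℤ) (t₀ : ℝ), t = t₀ + n ∧ (t₀ ∈ Ico p q ∨ t₀ ∈ Ico q (p + 1)) := by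
  refine ⟨⌊t - p⌋, t - ⌊t - p⌋, by ring, ?_⟩
  have h1 := Int.floor_le (t - p)
  have h2 := Int.lt_floor_add_one (t - p)
  rcases lt_or_ge (t - ⌊t - p⌋) q with h | h
  · exact Or.inl ⟨by linarith, h⟩
  · exact Or.inr ⟨h, by linarith⟩

/-- embedded circles which differ only inside a ball are isotopic -/
theorem local_iso [T2Space N] [IsManifold (𝓡 4) ∞ N] {Z : Set N} (hZ : Obst Z) {c c' : ℝ → N} (hc : Circ c)
    (hc' : Circ c') (hcZ : ∀ t, c t ∉ Z) (hcZ' : ∀ t, c' t ∉ Z) {b : E4 → N} {b' : N → E4} (hb : IsBall b b')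
    {p p₁ q₁ q : ℝ} (h1 : p < p₁) (h2 : p₁ < q₁) (h3 : q₁ < q) (hq : q < p + 1)
    (hcb : ∀ t ∈ Icc p q, c t ∈ range b) (hcb' : ∀ t ∈ Icc p q, c' t ∈ range b)
    (heq : ∀ t ∈ Icc q₁ (p₁ + 1), c t = c' t) : Iso Z c c' := by
  obtain ⟨a, ha1, ha2⟩ := exists_between h1
  obtain ⟨x, hx1, hx2⟩ := exists_between h3
  have hk : ∀ {e : ℝ → N} (he : Circ e) (heb : ∀ t ∈ Icc p q, e t ∈ range b),
      (∀ t ∈ Ioo p q, ContDiffAt ℝ ∞ (b' ∘ e) t) ∧ (∀ t ∈ Ioo p q, deriv (b' ∘ e) t ≠ 0) ∧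
      (∀ t ∈ Ioo p q, ∀ t' ∈ Ioo p q, (b' ∘ e) t = (b' ∘ e) t' → t = t') := by
    intro e he heb
    refine ⟨fun t ht => coord_smooth (he.smooth t) hb (heb t ⟨ht.1.le, ht.2.le⟩),
      fun t ht => (imm_iff (he.smooth t) hb (heb t ⟨ht.1.le, ht.2.le⟩)).1 (he.imm t), ?_⟩
    intro t ht t' ht' h
    have h4 : e t = e t' := by
      have h5 := congrArg b h
      simp only [Function.comp_apply] at h5
      rwa [hb.right_inv (heb t ⟨ht.1.le, ht.2.le⟩), hb.right_inv (heb t' ⟨ht'.1.le, ht'.2.le⟩)] at h5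
    obtain ⟨n, hn⟩ := he.inj t t' h4
    have h6 : n = 0 := by
      apply lis_int
      · linarith [ht.1, ht.2, ht'.1, ht'.2]
      · linarith [ht.1, ht.2, ht'.1, ht'.2]
    rw [hn, h6, Int.cast_zero, add_zero]
  obtain ⟨hk₀, hi₀, hj₀⟩ := hk hc hcb
  obtain ⟨hk₁, hi₁, hj₁⟩ := hk hc' hcb'
  have heqk : ∀ t ∈ Ioo p q, (t ≤ p₁ ∨ q₁ ≤ t) → (b' ∘ c) t = (b' ∘ c') t := by
    intro t ht h
    simp only [Function.comp_apply]
    congr 1
    rcases h with h | h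
    · rw [← hc.per t, ← hc'.per t]
      exact heq _ ⟨by linarith [ht.1], by linarith⟩
    · exact heq _ ⟨h, by linarith [ht.2]⟩
  obtain ⟨_, m, d, hd, hcover⟩ := hZ.union (Obst.range hc.toSCirc)
  have hcc : IsClosed (c '' Icc x (a + 1)) := (isCompact_Icc.image hc.smooth.continuous).isClosed
  have hYc : IsClosed (b ⁻¹' (Z ∪ c '' Icc x (a + 1))) := (hZ.1.union hcc).preimage hb.cont
  have hdd : ∀ i, ∀ u ∈ {u | d i u ∈ range b}, DifferentiableAt ℝ (b' ∘ d i) u := fun i u hu =>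
    (coord_smooth (hd i u) hb hu).differentiableAt (by simp)
  have hYd : b ⁻¹' (Z ∪ c '' Icc x (a + 1)) ⊆ ⋃ i, (b' ∘ d i) '' {u | d i u ∈ range b} := by
    intro y hy
    have h4 : b y ∈ Z ∪ range c := by
      rcases hy with h | h
      · exact Or.inl h
      · obtain ⟨u, _, hu⟩ := h
        exact Or.inr ⟨u, hu⟩
    obtain ⟨i, u, hu⟩ := mem_iUnion.1 (hcover h4)
    refine mem_iUnion.2 ⟨i, u, ?_, ?_⟩
    · show d i u ∈ range b
      rw [hu]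
      exact ⟨y, rfl⟩
    · show b' (d i u) = y
      rw [hu, hb.left_inv]
  have hend : ∀ t ∈ Ioo a x, ∀ u ∈ Icc x (a + 1), ∀ n : ℤ, u = t + n → False := by
    intro t ht u hu n hn
    have h5 : (0 : ℝ) < n := by linarith [ht.2, hu.1]
    have h6 : (n : ℝ) < 1 := by linarith [ht.1, hu.2]
    have h7 : (0 : ℤ) < n := by exact_mod_cast h5
    have h8 : n < (1 : ℤ) := by exact_mod_cast h6
    omega
  have hY₀ : ∀ t ∈ Ioo a x, (b' ∘ c) t ∉ b ⁻¹' (Z ∪ c '' Icc x (a + 1)) := by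
    intro t ht h
    rw [mem_preimage, Function.comp_apply, hb.right_inv (hcb t ⟨by linarith [ht.1], by linarith [ht.2]⟩)] at h
    rcases h with h | ⟨u, hu, hu'⟩
    · exact hcZ t h
    · obtain ⟨n, hn⟩ := hc.inj t u hu'.symm
      exact hend t ht u hu n hn
  have hY₁ : ∀ t ∈ Ioo a x, (b' ∘ c') t ∉ b ⁻¹' (Z ∪ c '' Icc x (a + 1)) := by
    intro t ht h
    rw [mem_preimage, Function.comp_apply, hb.right_inv (hcb' t ⟨by linarith [ht.1], by linarith [ht.2]⟩)] at h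
    rcases h with h | ⟨u, hu, hu'⟩
    · exact hcZ' t h
    · rw [heq u ⟨by linarith [hu.1], by linarith [hu.2]⟩] at hu'
      obtain ⟨n, hn⟩ := hc'.inj t u hu'.symm
      exact hend t ht u hu n hn
  obtain ⟨G, hG, hGk⟩ := iso_vec ha1 ha2 h2 hx1 hx2 hk₀ hk₁ hi₀ hi₁ hj₀ hj₁ heqk hdd hYc hYd hY₀ hY₁
  obtain ⟨F, hF, C, hC, hCY, hFC⟩ := ext_move hb hG
  refine ⟨F, ?_, (b '' C)ᶜ, ?_, ?_, fun y hy => hFC y hy⟩
  · intro t
    obtain ⟨n, t₀, rfl, h | h⟩ := lis_dich a x t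
    · rw [per_int hc.per, per_int hc'.per]
      have h4 : b ((b' ∘ c) t₀) = c t₀ := hb.right_inv (hcb t₀ ⟨by linarith [h.1], by linarith [h.2]⟩)
      have h5 : b ((b' ∘ c') t₀) = c' t₀ := hb.right_inv (hcb' t₀ ⟨by linarith [h.1], by linarith [h.2]⟩)
      rw [← h4, hF, hGk t₀ ⟨h.1, h.2.le⟩, h5]
    · rw [per_int hc.per, per_int hc'.per, ← heq t₀ ⟨by linarith [h.1], by linarith [h.2]⟩]
      apply hFC
      rintro ⟨y, hy, hy'⟩
      refine hCY hy (Or.inr ?_)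
      exact ⟨t₀, ⟨h.1, h.2.le⟩, hy'.symm⟩
  · exact (hC.image hb.cont).isClosed.isOpen_compl
  · rintro z hz ⟨y, hy, hy'⟩
    refine hCY hy (Or.inl ?_)
    rw [hy']
    exact hz

end Pool.Agent.ACB
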