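import Pool.Agent.ACB.Bal
import Pool.Agent.ACB.Imm

/-!
# ACB/Mdf: modification of a periodic curve in a ball

`mdf b p q k g t = if t - ⌊t - p⌋ < q then b (k (t - ⌊t - p⌋)) else g t`.  For `t = t₀ + n`, `t₀ ∈ [p, p + 1)`, `⌊t - p⌋ = n` and
`t - ⌊t - p⌋ = t₀` (`Int.floor_add_intCast`, `Int.floor_eq_iff`).

PROOFS.  `dich`: `n = ⌊t - p⌋`, `t₀ = t - n ∈ [p, p + 1)`; `t₀ < q` or `q ≤ t₀`.  `mdf_in`, `mdf_out`: unfold.  `mdf_per`: from `dich`, `mdf_in`, `mdf_out`.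
`mdf_near_in`: on the neighbourhood `(p + n, q + n)` of `t₀ + n` apply `mdf_in` with `t - n`.
`mdf_near_out`: on the neighbourhood `(q' + n, p' + 1 + n)`: if `t - n < q` then `mdf_in` and `hend` (`q' ≤ t - n`), and `g t = g (t - n)`
(`per_int`); if `q ≤ t - n < p + 1` then `mdf_out`; if `p + 1 ≤ t - n` then `mdf_in` with `n + 1`, and `hend` (`t - n - 1 ≤ p'`).
`mdf_at`: `ContMDiffAt` in the two open regions; `(p, q) + ℤ` and `(q', p' + 1) + ℤ` cover `ℝ` since `p < p'`, `q' < q`.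
`mdf_scirc`: all points.
-/

open scoped ContDiff Manifold Topology unitInterval
open Set Filter

namespace Pool.Agent.ACB

universe u
variable {N : Type u} [TopologicalSpace N] [ChartedSpace E4 N]

theorem dich (p q t : ℝ) : ∃ (n : ℤ) (t₀ : ℝ), t = t₀ + n ∧ (t₀ ∈ Ico p q ∨ t₀ ∈ Ico q (p + 1)) := by
  have h1 := Int.floor_le (t - p)
  have h2 := Int.lt_floor_add_one (t - p)
  refine ⟨⌊t - p⌋, t - ⌊t - p⌋, by ring, ?_⟩
  rcases lt_or_ge (t - ⌊t - p⌋) q with h | h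
  · exact Or.inl ⟨by linarith, h⟩
  · exact Or.inr ⟨h, by linarith⟩

theorem mdf_floor {p t : ℝ} (h1 : p ≤ t) (h2 : t < p + 1) (n : ℤ) : ⌊t + n - p⌋ = n := by
  rw [Int.floor_eq_iff]
  constructor <;> linarith

theorem mdf_in {b : E4 → N} {p q : ℝ} {k : ℝ → E4} {g : ℝ → N} (hq : q < p + 1) (n : ℤ) {t : ℝ}
    (ht : t ∈ Ico p q) : mdf b p q k g (t + n) = b (k t) := by
  unfold mdf
  rw [mdf_floor ht.1 (ht.2.trans hq), add_sub_cancel_right, if_pos ht.2]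

theorem mdf_out {b : E4 → N} {p q : ℝ} {k : ℝ → E4} {g : ℝ → N} (hpq : p < q) (n : ℤ) {t : ℝ}
    (ht : t ∈ Ico q (p + 1)) : mdf b p q k g (t + n) = g (t + n) := by
  unfold mdf
  rw [mdf_floor (hpq.le.trans ht.1) ht.2, add_sub_cancel_right, if_neg (not_lt.2 ht.1)]

theorem mdf_per {b : E4 → N} {p q : ℝ} {k : ℝ → E4} {g : ℝ → N} (hper : ∀ t, g (t + 1) = g t) (t : ℝ) :
    mdf b p q k g (t + 1) = mdf b p q k g t := by
  unfold mdf
  have h1 : ⌊t + 1 - p⌋ = ⌊t - p⌋ + 1 := by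
    rw [show t + 1 - p = t - p + 1 by ring, Int.floor_add_one]
  have h2 : t + 1 - ((⌊t - p⌋ + 1 : ℤ) : ℝ) = t - ⌊t - p⌋ := by
    push_cast
    ring
  rw [h1, h2, hper]

theorem mdf_near_in {b : E4 → N} {p q : ℝ} {k : ℝ → E4} {g : ℝ → N} (hq : q < p + 1) (n : ℤ) {t₀ : ℝ}
    (ht : t₀ ∈ Ioo p q) : mdf b p q k g =ᶠ[𝓝 (t₀ + n)] fun t => b (k (t - n)) := by
  have h1 : t₀ + n ∈ Ioo (p + n) (q + n) := ⟨by linarith [ht.1], by linarith [ht.2]⟩
  filter_upwards [isOpen_Ioo.mem_nhds h1] with t h2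
  have h3 := mdf_in (b := b) (k := k) (g := g) hq n (t := t - n) ⟨by linarith [h2.1], by linarith [h2.2]⟩
  rw [sub_add_cancel] at h3
  exact h3

theorem mdf_near_out {b : E4 → N} {p q p' q' : ℝ} {k : ℝ → E4} {g : ℝ → N} (hper : ∀ t, g (t + 1) = g t)
    (h1 : p < p') (h2 : p' < q') (h3 : q' < q) (hq : q < p + 1)
    (hend : ∀ t ∈ Ico p q, (t ≤ p' ∨ q' ≤ t) → b (k t) = g t) (n : ℤ) {t₀ : ℝ} (ht : t₀ ∈ Ioo q' (p' + 1)) :
    mdf b p q k g =ᶠ[𝓝 (t₀ + n)] g := by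
  have h4 : t₀ + n ∈ Ioo (q' + n) (p' + 1 + n) := ⟨by linarith [ht.1], by linarith [ht.2]⟩
  filter_upwards [isOpen_Ioo.mem_nhds h4] with t h5
  obtain ⟨s, rfl⟩ : ∃ s, t = s + n := ⟨t - n, by ring⟩
  have h6 : q' < s := by linarith [h5.1]
  have h7 : s < p' + 1 := by linarith [h5.2]
  rcases lt_or_ge s q with h8 | h8
  · rw [mdf_in hq n ⟨by linarith, h8⟩, hend s ⟨by linarith, h8⟩ (Or.inr h6.le), per_int hper]
  · rcases lt_or_ge s (p + 1) with h9 | h9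
    · exact mdf_out (by linarith) n ⟨h8, h9⟩
    · have h10 : s - 1 ∈ Ico p q := ⟨by linarith, by linarith⟩
      have e1 : s + n = (s - 1) + ((n + 1 : ℤ) : ℝ) := by
        push_cast
        ring
      rw [e1, mdf_in hq (n + 1) h10, hend (s - 1) h10 (Or.inl (by linarith)), per_int hper]

/-- values off the modified part -/
theorem mdf_eq {b : E4 → N} {p q p' q' : ℝ} {k : ℝ → E4} {g : ℝ → N} (hper : ∀ t, g (t + 1) = g t)
    (h1 : p < p') (h2 : p' < q') (h3 : q' < q) (hq : q < p + 1)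
    (hend : ∀ t ∈ Ico p q, (t ≤ p' ∨ q' ≤ t) → b (k t) = g t) {t : ℝ} (ht : ∀ n : ℤ, t + n ∉ Ioo p' q') :
    mdf b p q k g t = g t := by
  obtain ⟨n, t₀, rfl, h | h⟩ := dich p q t
  · have h4 : t₀ ∉ Ioo p' q' := by
      have := ht (-n)
      push_cast at this
      rwa [add_neg_cancel_right] at this
    have h5 : t₀ ≤ p' ∨ q' ≤ t₀ := by
      by_contra h6
      push_neg at h6
      exact h4 ⟨h6.1, h6.2⟩
    rw [mdf_in hq n h, hend t₀ h h5, per_int hper]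
  · exact mdf_out (by linarith) n h

theorem mdf_scirc {b : E4 → N} {b' : N → E4} (hb : IsBall b b') {p q p' q' : ℝ} {k : ℝ → E4} {g : ℝ → N}
    (hg : SCirc g) (h1 : p < p') (h2 : p' < q') (h3 : q' < q) (hq : q < p + 1)
    (hend : ∀ t ∈ Ico p q, (t ≤ p' ∨ q' ≤ t) → b (k t) = g t) (hk : ∀ t ∈ Ioo p q, ContDiffAt ℝ ∞ k t) :
    SCirc (mdf b p q k g) := by
  have hout : ∀ (n : ℤ) (t₀ : ℝ), t₀ ∈ Ioo q' (p' + 1) →
      ContMDiffAt 𝓘(ℝ, ℝ) (𝓡 4) ∞ (mdf b p q k g) (t₀ + n) := by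
    intro n t₀ ht
    exact (hg.smooth (t₀ + n)).congr_of_eventuallyEq (mdf_near_out hg.per h1 h2 h3 hq hend n ht)
  refine ⟨?_, mdf_per hg.per⟩
  intro t
  obtain ⟨n, t₀, rfl, h | h⟩ := dich p q t
  · rcases h.1.eq_or_lt with h4 | h4
    · have h5 := hout (n - 1) (t₀ + 1) ⟨by linarith, by linarith⟩
      have e1 : t₀ + 1 + ((n - 1 : ℤ) : ℝ) = t₀ + n := by
        push_cast
        ring
      rw [e1] at h5
      exact h5
    · refine ContMDiffAt.congr_of_eventuallyEq ?_ (mdf_near_in hq n ⟨h4, h.2⟩)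
      have h5 : ContDiffAt ℝ ∞ (fun t : ℝ => k (t - n)) (t₀ + n) := by
        have h6 : ContDiffAt ℝ ∞ k (t₀ + n - n) := by
          rw [add_sub_cancel_right]
          exact hk t₀ ⟨h4, h.2⟩
        exact ContDiffAt.comp (g := k) (f := fun t : ℝ => t - n) (t₀ + n) h6
          (contDiffAt_id.sub contDiffAt_const)
      exact ContMDiffAt.comp (g := b) (f := fun t : ℝ => k (t - n)) (t₀ + n) (hb.smooth _)
        h5.contMDiffAt
  · exact hout n t₀ ⟨by linarith [h.1], by linarith [h.2]⟩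

end Pool.Agent.ACB
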