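import Pool.Agent.ACB.Bal
import Pool.Agent.ACB.Mdf
import Pool.Agent.ACB.FHm

/-!
# ACB/MdfH: the modification is homotopic to the curve

PROOF of `mdf_fhom`.  `FHom.mk'` with `H s = mdf b p q (K s) g`.  `H 0 = g`: `dich` (with `p < q`), `mdf_in` and `h0`
(`g (t₀ + n) = g t₀`), `mdf_out`.  Periodicity `mdf_per`.  Graph: `t = t₀ + n`; `t₀ ∈ [p, q)`: `hOK` and the periodicity of `O`
(`(t₀, x) ∈ O ↔ (t₀ + n, x) ∈ O`, lemma `OpnS.int`); `t₀ ∈ [q, p + 1)`: `hgO`.  Continuity on `Icc 0 1 ×ˢ univ` at `(s₀, t₀ + n)`: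
either `t₀ ∈ (p, q)` (`mdf` equals `b (K s (t - n))` for all `t` near, all `s`: `ContinuousWithinAt` from `hK`, `b` continuous), or
`t₀ ∈ (q', p' + 1)` (`mdf = g t` near, for all `s ∈ Icc 0 1`: as in `mdf_near_out`); these two cases cover all `t`.
PROOF of `room`.  The map `f (t, y) = (t, b y)` is continuous, `f ⁻¹' O` is open in `ℝ × E4` and contains the compact set
`{(t, b' (g t)) | t ∈ Icc p q}` (`b'` is continuous on `range b`); `IsCompact.exists_thickening_subset_open`; the distance of `(t, y)` and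
`(t, b' (g t))` is `‖y - b' (g t)‖`.
-/

open scoped ContDiff Manifold Topology unitInterval
open Set Filter

namespace Pool.Agent.ACB

universe u
variable {N : Type u} [TopologicalSpace N] [ChartedSpace E4 N]

theorem OpnS.int {O : Set (ℝ × N)} (hO : OpnS O) (t : ℝ) (n : ℤ) (x : N) : (t + n, x) ∈ O ↔ (t, x) ∈ O := by
  have hp : Function.Periodic (fun t : ℝ => (t, x) ∈ O) 1 := fun t => propext (hO.per t x)
  have := (hp.int_mul n) t
  rw [mul_one] at this
  exact iff_of_eq this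

theorem mdfh_per {g : ℝ → N} (hper : ∀ t, g (t + 1) = g t) (t : ℝ) (n : ℤ) : g (t + n) = g t := by
  have hp : Function.Periodic g 1 := hper
  have := (hp.int_mul n) t
  rwa [mul_one] at this

theorem mdf_fhom {O : Set (ℝ × N)} (hO : OpnS O) {b : E4 → N} {b' : N → E4} (hb : IsBall b b')
    {p q p' q' : ℝ} {g : ℝ → N} (hg : Continuous g) (hper : ∀ t, g (t + 1) = g t)
    (h1 : p < p') (h2 : p' < q') (h3 : q' < q) (hq : q < p + 1) {K : ℝ → ℝ → E4}
    (hK : ContinuousOn (fun x : ℝ × ℝ => K x.1 x.2) (Icc 0 1 ×ˢ Icc p q))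
    (hend : ∀ s ∈ Icc (0 : ℝ) 1, ∀ t ∈ Icc p q, (t ≤ p' ∨ q' ≤ t) → b (K s t) = g t)
    (h0 : ∀ t ∈ Icc p q, b (K 0 t) = g t)
    (hOK : ∀ s ∈ Icc (0 : ℝ) 1, ∀ t ∈ Icc p q, (t, b (K s t)) ∈ O) (hgO : ∀ t, (t, g t) ∈ O) :
    FHom O g (mdf b p q (K 1) g) := by
  have hpq : p < q := by linarith
  refine FHom.mk' (fun s => mdf b p q (K s) g) ?_ (fun s _ t => mdf_per hper t) ?_ rfl ?_
  · rintro ⟨s₀, t⟩ ⟨hs₀, -⟩
    simp only at hs₀
    -- the two cases
    have hcase : (∃ (n : ℤ) (t₀ : ℝ), t = t₀ + n ∧ t₀ ∈ Ioo p q) ∨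
        ∃ (n : ℤ) (t₀ : ℝ), t = t₀ + n ∧ t₀ ∈ Ioo q' (p' + 1) := by
      obtain ⟨n, t₀, ht, ha | ha⟩ := dich p q t
      · rcases ha.1.eq_or_lt with he | hlt
        · right
          refine ⟨n - 1, p + 1, ?_, by linarith, by linarith⟩
          rw [ht, ← he]; push_cast; ring
        · exact Or.inl ⟨n, t₀, ht, hlt, ha.2⟩
      · exact Or.inr ⟨n, t₀, ht, by linarith [ha.1], by linarith [ha.2]⟩
    rcases hcase with ⟨n, t₀, ht, ha⟩ | ⟨n, t₀, ht, ha⟩
    · set V : Set ℝ := (fun t' : ℝ => t' - n) ⁻¹' Ioo p q with hV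
      have hVo : IsOpen V := isOpen_Ioo.preimage (continuous_id.sub continuous_const)
      have htV : t ∈ V := by
        show t - n ∈ Ioo p q
        rw [ht, add_sub_cancel_right]; exact ha
      have hmem : (Icc (0 : ℝ) 1 ×ˢ V) ∈ 𝓝[Icc (0 : ℝ) 1 ×ˢ univ] (s₀, t) := by
        have h5 := inter_mem_nhdsWithin (Icc (0 : ℝ) 1 ×ˢ (univ : Set ℝ))
          ((hVo.preimage continuous_snd).mem_nhds (show (s₀, t) ∈ (Prod.snd : ℝ × ℝ → ℝ) ⁻¹' V from htV))
        refine Filter.mem_of_superset h5 ?_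
        rintro ⟨a, c⟩ ⟨h6, h7⟩
        exact ⟨h6.1, h7⟩
      refine ContinuousWithinAt.mono_of_mem_nhdsWithin (t := Icc (0 : ℝ) 1 ×ˢ V) ?_ hmem
      have hcont : ContinuousOn (fun x : ℝ × ℝ => b (K x.1 (x.2 - n))) (Icc (0 : ℝ) 1 ×ˢ V) := by
        refine hb.cont.comp_continuousOn ?_
        refine hK.comp (f := fun x : ℝ × ℝ => (x.1, x.2 - (n : ℝ)))
          (continuous_fst.prodMk (continuous_snd.sub continuous_const)).continuousOn ?_
        rintro ⟨a, c⟩ ⟨h6, h7⟩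
        exact ⟨h6, Ioo_subset_Icc_self h7⟩
      refine (hcont (s₀, t) ⟨hs₀, htV⟩).congr ?_ ?_
      · rintro ⟨a, c⟩ ⟨h6, h7⟩
        have h8 := mdf_in (b := b) (k := K a) (g := g) hq n (Ioo_subset_Ico_self h7)
        simp only [sub_add_cancel] at h8
        exact h8
      · have h8 := mdf_in (b := b) (k := K s₀) (g := g) hq n (Ioo_subset_Ico_self htV)
        simp only [sub_add_cancel] at h8
        exact h8
    · set V : Set ℝ := (fun t' : ℝ => t' - n) ⁻¹' Ioo q' (p' + 1) with hV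
      have hVo : IsOpen V := isOpen_Ioo.preimage (continuous_id.sub continuous_const)
      have htV : t ∈ V := by
        show t - n ∈ Ioo q' (p' + 1)
        rw [ht, add_sub_cancel_right]; exact ha
      have hmem : (Icc (0 : ℝ) 1 ×ˢ V) ∈ 𝓝[Icc (0 : ℝ) 1 ×ˢ univ] (s₀, t) := by
        have h5 := inter_mem_nhdsWithin (Icc (0 : ℝ) 1 ×ˢ (univ : Set ℝ))
          ((hVo.preimage continuous_snd).mem_nhds (show (s₀, t) ∈ (Prod.snd : ℝ × ℝ → ℝ) ⁻¹' V from htV))
        refine Filter.mem_of_superset h5 ?_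
        rintro ⟨a, c⟩ ⟨h6, h7⟩
        exact ⟨h6.1, h7⟩
      refine ContinuousWithinAt.mono_of_mem_nhdsWithin (t := Icc (0 : ℝ) 1 ×ˢ V) ?_ hmem
      have key : ∀ a ∈ Icc (0 : ℝ) 1, ∀ c ∈ V, mdf b p q (K a) g c = g c := by
        intro a h6 c h7
        have h8 := (mdf_near_out (b := b) (k := K a) hper h1 h2 h3 hq
          (fun t ht' => hend a h6 t (Ico_subset_Icc_self ht')) n h7).eq_of_nhds
        simp only [sub_add_cancel] at h8
        exact h8
      have hcont : ContinuousOn (fun x : ℝ × ℝ => g x.2) (Icc (0 : ℝ) 1 ×ˢ V) :=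
        (hg.comp continuous_snd).continuousOn
      refine (hcont (s₀, t) ⟨hs₀, htV⟩).congr ?_ ?_
      · rintro ⟨a, c⟩ ⟨h6, h7⟩
        exact key a h6 c h7
      · exact key s₀ hs₀ t htV
  · funext t
    obtain ⟨n, t₀, ht, ha | ha⟩ := dich p q t
    · subst ht
      rw [mdf_in hq n ha, h0 t₀ (Ico_subset_Icc_self ha), mdfh_per hper]
    · subst ht
      rw [mdf_out hpq n ha]
  · intro s hs t
    obtain ⟨n, t₀, ht, ha | ha⟩ := dich p q t
    · subst ht
      show (t₀ + (n : ℝ), mdf b p q (K s) g (t₀ + n)) ∈ O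
      rw [mdf_in hq n ha, hO.int]
      exact hOK s hs t₀ (Ico_subset_Icc_self ha)
    · subst ht
      show (t₀ + (n : ℝ), mdf b p q (K s) g (t₀ + n)) ∈ O
      rw [mdf_out hpq n ha]
      exact hgO _

theorem room {O : Set (ℝ × N)} (hO : IsOpen O) {b : E4 → N} {b' : N → E4} (hb : IsBall b b')
    {p q : ℝ} {g : ℝ → N} (hg : Continuous g) (hgb : ∀ t ∈ Icc p q, g t ∈ range b)
    (hgO : ∀ t ∈ Icc p q, (t, g t) ∈ O) :
    ∃ δ > 0, ∀ t ∈ Icc p q, ∀ y : E4, ‖y - b' (g t)‖ < δ → (t, b y) ∈ O := by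
  have hf : Continuous fun x : ℝ × E4 => (x.1, b x.2) := continuous_fst.prodMk (hb.cont.comp continuous_snd)
  have hU : IsOpen ((fun x : ℝ × E4 => (x.1, b x.2)) ⁻¹' O) := hO.preimage hf
  have hc : ContinuousOn (fun t : ℝ => (t, b' (g t))) (Icc p q) :=
    continuousOn_id.prodMk (hb.contOn.comp hg.continuousOn hgb)
  have hK : IsCompact ((fun t : ℝ => (t, b' (g t))) '' Icc p q) := isCompact_Icc.image_of_continuousOn hc
  have hsub : (fun t : ℝ => (t, b' (g t))) '' Icc p q ⊆ (fun x : ℝ × E4 => (x.1, b x.2)) ⁻¹' O := by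
    rintro _ ⟨t, ht, rfl⟩
    show (t, b (b' (g t))) ∈ O
    rw [hb.right_inv (hgb t ht)]
    exact hgO t ht
  obtain ⟨δ, hδ, hth⟩ := hK.exists_thickening_subset_open hU hsub
  refine ⟨δ, hδ, fun t ht y hy => ?_⟩
  have : (t, y) ∈ Metric.thickening δ ((fun t : ℝ => (t, b' (g t))) '' Icc p q) := by
    rw [Metric.mem_thickening_iff]
    refine ⟨(t, b' (g t)), ⟨t, ht, rfl⟩, ?_⟩
    rw [Prod.dist_eq, dist_self, dist_eq_norm]
    exact max_lt hδ hy
  exact hth this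

end Pool.Agent.ACB
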