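import Pool.Agent.ACB.Bal
import Pool.Agent.ACB.Lis
import Pool.Agent.ACB.MdfH

/-!
# ACB/PhE: edge step

PROOF.  `l' t = g t` if there is `n : ℤ` with `t + n ∈ [τ, τ']`, `l' t = l t` otherwise.  Periodic: clear (`g`, `l` periodic).  Locally: let
`T = {t | ∃ n : ℤ, t + n ∈ (τ, τ')}` (open) and `T' = {t | ∀ n : ℤ, t + n ∉ [τ, τ']}` (open, see `Opn`; or: `t = t₀ + n` with `t₀ ∈ (τ', τ + 1)`).  On `T`
`l' = g`, on `T'` `l' = l`.  If `t = τ + n` or `t = τ' + n` then `l = g` near `t` (`hτ`, `hτ'`, periodicity), so `l' = g = l` near `t`.  Hence in all cases `l' = g` near `t` or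
`l' = l` near `t`: smooth, immersed (`imm_congr`).  Injective: (g, g), (l, l): clear, (l, g), (g, l): `hX`.  `Z`, `O`: clear.  New `hX`: clear.
`Iso Z l l'`: `local_iso` with `p = τ`, `q = τ'`, `p₁ = τ + η`, `q₁ = τ' - η`, ball `b`: for `t ∈ [τ, τ']` `l t`, `l' t ∈ range b` (`hbO`).  For `t ∈ [q₁, p₁ + 1]`:
`t ∈ [τ' - η, τ']`: `l' t = g t = l t`; `t ∈ (τ', τ + 1)`: `l' t = l t`; `t ∈ [τ + 1, τ + 1 + η]`: `l' t = g t = l t`.
-/

open scoped ContDiff Manifold Topology unitInterval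
open Set Filter

namespace Pool.Agent.ACB

universe u
variable {N : Type u} [TopologicalSpace N] [ChartedSpace E4 N]

/-- `t` is in `[τ, τ'] + ℤ` -/
def phEIn (τ τ' t : ℝ) : Prop := ∃ n : ℤ, t + n ∈ Icc τ τ'

theorem phEIn_add {τ τ' t : ℝ} (n : ℤ) (h : phEIn τ τ' (t + n)) : phEIn τ τ' t := by
  obtain ⟨m, hm⟩ := h
  refine ⟨n + m, ?_⟩
  push_cast
  rwa [← add_assoc]

theorem phEIn_not {τ τ' t : ℝ} (ht : t ∈ Ioo τ' (τ + 1)) : ¬ phEIn τ τ' t := by
  rintro ⟨n, h1, h2⟩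
  have h3 : (n : ℝ) < 0 := by
    have := ht.1
    linarith
  have h4 : n ≤ -1 := by
    have : n < 0 := by exact_mod_cast h3
    omega
  have h5 : (n : ℝ) ≤ -1 := by exact_mod_cast h4
  have := ht.2
  linarith

/-- the new curve -/
noncomputable def phEc (τ τ' : ℝ) (l g : ℝ → N) (t : ℝ) : N :=
  open Classical in if phEIn τ τ' t then g t else l t

theorem phEc_in {τ τ' : ℝ} {l g : ℝ → N} {t : ℝ} (h : phEIn τ τ' t) : phEc τ τ' l g t = g t := by
  unfold phEc
  rw [if_pos h]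

theorem phEc_out {τ τ' : ℝ} {l g : ℝ → N} {t : ℝ} (h : ¬ phEIn τ τ' t) : phEc τ τ' l g t = l t := by
  unfold phEc
  rw [if_neg h]

theorem phEc_or (τ τ' : ℝ) (l g : ℝ → N) (t : ℝ) : phEc τ τ' l g t = g t ∨ phEc τ τ' l g t = l t := by
  by_cases h : phEIn τ τ' t
  · exact Or.inl (phEc_in h)
  · exact Or.inr (phEc_out h)

theorem phEc_same {τ τ' : ℝ} {l g : ℝ → N} {t : ℝ} (h : l t = g t) : phEc τ τ' l g t = g t := by
  rcases phEc_or τ τ' l g t with h1 | h1
  · exact h1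
  · rw [h1, h]

theorem phEc_local {τ τ' η : ℝ} {l g : ℝ → N} (hη : 0 < η)
    (hlp : ∀ t, l (t + 1) = l t) (hgp : ∀ t, g (t + 1) = g t)
    (hτ : ∀ t ∈ Icc (τ - η) (τ + η), l t = g t) (hτ' : ∀ t ∈ Icc (τ' - η) (τ' + η), l t = g t) (t₀ : ℝ) :
    phEc τ τ' l g =ᶠ[𝓝 t₀] g ∨ phEc τ τ' l g =ᶠ[𝓝 t₀] l := by
  obtain ⟨n, s, rfl, hs⟩ := dich τ τ' t₀
  have key : ∀ (a b : ℝ), s ∈ Ioo a b → ∀ᶠ t : ℝ in 𝓝 (s + n), t - n ∈ Ioo a b := by
    intro a b hab
    have hc : Tendsto (fun t : ℝ => t - n) (𝓝 (s + n)) (𝓝 s) := by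
      have : Continuous fun t : ℝ => t - n := by fun_prop
      have h2 := this.tendsto (s + n)
      rwa [add_sub_cancel_right] at h2
    exact hc (Ioo_mem_nhds hab.1 hab.2)
  have bdry : ∀ w : ℝ, (∀ t ∈ Icc (w - η) (w + η), l t = g t) → s = w →
      phEc τ τ' l g =ᶠ[𝓝 (s + n)] g := by
    intro w hw hsw
    filter_upwards [key (w - η) (w + η) ⟨by linarith, by linarith⟩] with t ht
    apply phEc_same
    have h1 := hw (t - n) ⟨ht.1.le, ht.2.le⟩
    have h2 := per_int hlp (t - n) n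
    have h3 := per_int hgp (t - n) n
    rw [sub_add_cancel] at h2 h3
    rw [h2, h3, h1]
  rcases hs with hs | hs
  · rcases eq_or_lt_of_le hs.1 with h | h
    · exact Or.inl (bdry τ hτ h.symm)
    · left
      filter_upwards [key τ τ' ⟨h, hs.2⟩] with t ht
      exact phEc_in ⟨-n, by
        push_cast
        rw [← sub_eq_add_neg]
        exact ⟨ht.1.le, ht.2.le⟩⟩
  · rcases eq_or_lt_of_le hs.1 with h | h
    · exact Or.inl (bdry τ' hτ' h.symm)
    · right
      filter_upwards [key τ' (τ + 1) ⟨h, hs.2⟩] with t ht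
      apply phEc_out
      intro h5
      apply phEIn_not ht
      apply phEIn_add n
      rwa [sub_add_cancel]

theorem edge_step [T2Space N] [IsManifold (𝓡 4) ∞ N] {Z : Set N} (hZ : Obst Z) {l g : ℝ → N} (hl : Circ l)
    (hg : Circ g) (hlZ : ∀ t, l t ∉ Z) (hgZ : ∀ t, g t ∉ Z) (hX : ∀ t t', l t = g t' → ∃ n : ℤ, t' = t + n)
    {O : Set (ℝ × N)} (hlO : ∀ t, (t, l t) ∈ O) (hgO : ∀ t, (t, g t) ∈ O) {b : E4 → N}
    {b' : N → E4} (hb : IsBall b b') {τ τ' η : ℝ} (h1 : τ + 2 * η < τ') (h2 : τ' < τ + 1) (hη : 0 < η)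
    (hbO : ∀ t ∈ Icc τ τ', ∀ y, (t, y) ∈ O → y ∈ range b)
    (hτ : ∀ t ∈ Icc (τ - η) (τ + η), l t = g t) (hτ' : ∀ t ∈ Icc (τ' - η) (τ' + η), l t = g t) :
    ∃ l' : ℝ → N, Circ l' ∧ (∀ t, l' t ∉ Z) ∧ (∀ t, (t, l' t) ∈ O) ∧
      (∀ t t', l' t = g t' → ∃ n : ℤ, t' = t + n) ∧ Iso Z l l' ∧ (∀ t ∈ Icc τ τ', l' t = g t) ∧
      ∀ t, l t = g t → l' t = g t := by
  set l' : ℝ → N := phEc τ τ' l g with hl'
  have hloc : ∀ t₀, l' =ᶠ[𝓝 t₀] g ∨ l' =ᶠ[𝓝 t₀] l := phEc_local hη hl.per hg.per hτ hτ'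
  have hor : ∀ t, l' t = g t ∨ l' t = l t := phEc_or τ τ' l g
  have hcirc : Circ l' := by
    refine ⟨⟨?_, ?_⟩, ?_, ?_⟩
    · intro t₀
      rcases hloc t₀ with h | h
      · exact (hg.smooth t₀).congr_of_eventuallyEq h
      · exact (hl.smooth t₀).congr_of_eventuallyEq h
    · intro t
      by_cases h : phEIn τ τ' t
      · have h' : phEIn τ τ' (t + 1) := by
          apply phEIn_add (-1)
          push_cast
          rwa [add_neg_cancel_right]
        rw [hl', phEc_in h, phEc_in h', hg.per]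
      · have h' : ¬ phEIn τ τ' (t + 1) := by
          intro h2
          apply h
          apply phEIn_add 1
          push_cast
          exact h2
        rw [hl', phEc_out h, phEc_out h', hl.per]
    · intro t
      rcases hloc t with h | h
      · exact (imm_congr h).2 (hg.imm t)
      · exact (imm_congr h).2 (hl.imm t)
    · intro t t' h
      rcases hor t with h3 | h3 <;> rcases hor t' with h4 | h4 <;> rw [h3, h4] at h
      · exact hg.inj t t' h
      · obtain ⟨n, hn⟩ := hX t' t h.symm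
        exact ⟨-n, by rw [hn]; push_cast; ring⟩
      · exact hX t t' h
      · exact hl.inj t t' h
  have hZ' : ∀ t, l' t ∉ Z := by
    intro t
    rcases hor t with h | h <;> rw [h]
    · exact hgZ t
    · exact hlZ t
  have hO' : ∀ t, (t, l' t) ∈ O := by
    intro t
    rcases hor t with h | h <;> rw [h]
    · exact hgO t
    · exact hlO t
  refine ⟨l', hcirc, hZ', hO', ?_, ?_, ?_, ?_⟩
  · intro t t' h
    rcases hor t with h3 | h3 <;> rw [h3] at h
    · exact hg.inj t t' h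
    · exact hX t t' h
  · refine local_iso hZ hl hcirc hlZ hZ' hb (p := τ) (p₁ := τ + η) (q₁ := τ' - η) (q := τ')
      (by linarith) (by linarith) (by linarith) h2 (fun t ht => hbO t ht _ (hlO t))
      (fun t ht => hbO t ht _ (hO' t)) ?_
    intro t ht
    rcases hor t with h3 | h3
    · by_cases hin : phEIn τ τ' t
      · rw [h3]
        rcases le_or_gt t τ' with h4 | h4
        · exact hτ' t ⟨ht.1, by linarith⟩
        · rcases lt_or_ge t (τ + 1) with h5 | h5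
          · exact absurd hin (phEIn_not ⟨h4, h5⟩)
          · have h6 := hτ (t - 1) ⟨by linarith, by linarith [ht.2]⟩
            have h7 := hl.per (t - 1)
            have h8 := hg.per (t - 1)
            rw [sub_add_cancel] at h7 h8
            rw [h7, h8, h6]
      · rw [hl', phEc_out hin]
    · exact h3.symm
  · intro t ht
    exact phEc_in ⟨0, by rw [Int.cast_zero, add_zero]; exact ht⟩
  · intro t ht
    exact phEc_same ht

end Pool.Agent.ACB
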