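import Pool.Agent.ACB.Bal
import Pool.Agent.ACB.MdfH
import Pool.Agent.ACB.GpI
import Pool.Agent.ACB.Obs

/-!
# ACB/Gps: the general position step

PROOF.  Let `p', q'` be from `hβ.supp`, `K (s, t) = b' (g t)`, `B (s, t) = β t`, `D = {(s, t) | t ∈ Ioo p q}`; `K` is smooth at the points of `D`
(`coord_smooth`).  Let `W ⊆ ⋃ range (d i)` be from `hW`.  The following sets of `v` are thin: (a) `gp_zz`; (b) `gp_zc` with `b' ∘ g`,
`J = {u | g u ∈ range b}`; (c) `gp_zc` with `b' ∘ d i`, `J = {u | d i u ∈ range b}`, every `i`; (d) `gp_imm`.  Let `δ` be from `room` and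
`M ≥ 1` a bound of `β` and `|t|` on `[p, q]` (compact); by `thin_avoid` choose `v` outside (a) - (d) with
`‖v.1‖, ‖v.2‖ < δ / (2 M ^ 2)`; then `‖β t • (v.1 + t • v.2)‖ < δ` on `[p, q]`.
Put `k t = b' (g t) + β t • (v.1 + t • v.2)`, `g' = mdf b p q k g`.  On `[p, q]`, if `β t = 0` then `b (k t) = g t` (`IsBall.right_inv`); this holds for
`t ≤ p'` and `q' ≤ t`.  `SCirc g'`: `mdf_scirc`.  On `[p, q]` the values are in `range b` (at `t = q`: `g' q = g q`).
Off the zone: `t = t₀ + n` (`dich`); if `t₀ ∈ [p, q)` then `β t₀ = 0` and `g' t = b (k t₀) = g t₀ = g t`; else `mdf_out`.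
Zone: let `t ∈ Zn β`: there is `n` with `t₀ = t + n`, `β t₀ ≠ 0`, so `t₀ ∈ (p', q')`; by periodicity (`per_int`, `imm_shift`) one can replace `t` by `t₀`.
`g' t₀ = b (k t₀)`, `k t₀ = pert K B v (0, t₀)`.  Immersed: `imm_iff` with `b`; `b' ∘ g' = k` near `t₀` (`mdf_near_in`), (d).  Not in `W`: if
`b (k t₀) = d i u` then `d i u ∈ range b` and `k t₀ = b' (d i u)`, against (c).  Injectivity: `g' t₀ = g' t'`, `t' = t₁ + m` (`dich`).  If
`t₁ ∈ (p, q)`: `b (k t₀) = b (k t₁)`, so `k t₀ = k t₁` and `t₁ = t₀` by (a), so `t' = t₀ + m`.  Otherwise (`t₁ = p` or `t₁ ∈ [q, p + 1)`)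
`g' t' = g t'`, `g t' = b (k t₀) ∈ range b`, `k t₀ = b' (g t')`, against (b).
Immersed off the zone: `t ∉ Zn β`, `Imm g t`, `t = t₀ + n`.  If `t₀ ∈ (p, q)`: `imm_iff` for `g` and `g'` at `t₀` with the ball `b`:
`deriv k t₀ = deriv (b' ∘ g) t₀ + deriv β t₀ • (..) + β t₀ • v.2`, `β t₀ = 0`, and `t₀` is a minimum of `β ≥ 0`, so `deriv β t₀ = 0`
(`IsLocalMin.deriv_eq_zero`).  Else `g' = g` near `t` (`mdf_near_out`, `imm_congr`; the point `t₀ = p` is `(p + 1) + (n - 1)`, `p + 1 ∈ (q', p' + 1)`).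
`FHom`: `mdf_fhom` with `K s t = b' (g t) + s • β t • (v.1 + t • v.2)` (continuous on `Icc 0 1 ×ˢ Icc p q`), `room` gives `hOK`.
-/

open scoped ContDiff Manifold Topology unitInterval
open Set Filter

namespace Pool.Agent.ACB

universe u
variable {N : Type u} [TopologicalSpace N] [ChartedSpace E4 N]

theorem gps_dich {p q : ℝ} (hq : q < p + 1) (t : ℝ) :
    ∃ (n : ℤ) (t₀ : ℝ), t = t₀ + n ∧ (t₀ ∈ Ioo p q ∨ t₀ ∈ Icc q (p + 1)) := by
  obtain ⟨n, t₀, ht, h | h⟩ := dich p q t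
  · rcases eq_or_lt_of_le h.1 with h' | h'
    · refine ⟨n - 1, t₀ + 1, by push_cast; linarith, Or.inr ⟨by linarith, by linarith⟩⟩
    · exact ⟨n, t₀, ht, Or.inl ⟨h', h.2⟩⟩
  · exact ⟨n, t₀, ht, Or.inr ⟨h.1, h.2.le⟩⟩

/-- a common bound -/
theorem gps_bound {β : ℝ → ℝ} (hβ : Continuous β) (p q : ℝ) :
    ∃ M : ℝ, 1 ≤ M ∧ (∀ t ∈ Icc p q, |β t| ≤ M) ∧ ∀ t ∈ Icc p q, |t| ≤ M := by
  obtain ⟨C₁, hC₁⟩ := (isCompact_Icc (a := p) (b := q)).exists_bound_of_continuousOn hβ.continuousOn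
  obtain ⟨C₂, hC₂⟩ := (isCompact_Icc (a := p) (b := q)).exists_bound_of_continuousOn
    (continuous_id (X := ℝ)).continuousOn
  refine ⟨max 1 (max C₁ C₂), le_max_left _ _, ?_, ?_⟩
  · intro t ht
    exact (hC₁ t ht).trans ((le_max_left _ _).trans (le_max_right _ _))
  · intro t ht
    exact (hC₂ t ht).trans ((le_max_right _ _).trans (le_max_right _ _))

theorem gps_small {δ M : ℝ} (hM : 1 ≤ M) {v : E4 × E4} (hv1 : ‖v.1‖ < δ / (2 * M ^ 2))
    (hv2 : ‖v.2‖ < δ / (2 * M ^ 2)) {s r t : ℝ} (hs : |s| ≤ 1) (hr : |r| ≤ M) (ht : |t| ≤ M) :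
    ‖s • r • (v.1 + t • v.2)‖ < δ := by
  have hM0 : 0 < M := by linarith
  have h1 : ‖v.1 + t • v.2‖ ≤ ‖v.1‖ + M * ‖v.2‖ := by
    refine (norm_add_le _ _).trans ?_
    rw [norm_smul, Real.norm_eq_abs]
    gcongr
  have h2 : ‖s • r • (v.1 + t • v.2)‖ ≤ M * (‖v.1‖ + M * ‖v.2‖) := by
    rw [norm_smul, norm_smul, Real.norm_eq_abs, Real.norm_eq_abs]
    calc |s| * (|r| * ‖v.1 + t • v.2‖) ≤ 1 * (M * (‖v.1‖ + M * ‖v.2‖)) := by
          apply mul_le_mul hs _ (by positivity) (by norm_num)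
          exact mul_le_mul hr h1 (norm_nonneg _) hM0.le
      _ = M * (‖v.1‖ + M * ‖v.2‖) := one_mul _
  have h3 : M * ‖v.1‖ ≤ M ^ 2 * ‖v.1‖ := by
    apply mul_le_mul_of_nonneg_right _ (norm_nonneg _)
    nlinarith
  have h4 : M ^ 2 * ‖v.1‖ < M ^ 2 * (δ / (2 * M ^ 2)) := by
    apply mul_lt_mul_of_pos_left hv1; positivity
  have h5 : M ^ 2 * ‖v.2‖ < M ^ 2 * (δ / (2 * M ^ 2)) := by
    apply mul_lt_mul_of_pos_left hv2; positivity
  have h6 : M ^ 2 * (δ / (2 * M ^ 2)) = δ / 2 := by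
    field_simp
  rw [h6] at h4 h5
  calc ‖s • r • (v.1 + t • v.2)‖ ≤ M * (‖v.1‖ + M * ‖v.2‖) := h2
    _ = M * ‖v.1‖ + M ^ 2 * ‖v.2‖ := by ring
    _ < δ := by linarith

/-- general position in one ball: the curve is made immersed, injective and disjoint from `W` on the zone of `β` -/
theorem gp_step [T2Space N] [IsManifold (𝓡 4) ∞ N] {g : ℝ → N} (hg : SCirc g) {b : E4 → N} {b' : N → E4}
    (hb : IsBall b b') {p q : ℝ} (hq : q < p + 1) (hgb : ∀ t ∈ Icc p q, g t ∈ range b) {β : ℝ → ℝ}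
    (hβ : Cut β p q) {W : Set N} (hW : Obst W) {O : Set (ℝ × N)} (hO : OpnS O) (hgO : ∀ t, (t, g t) ∈ O) :
    ∃ g' : ℝ → N, SCirc g' ∧ (∀ t ∈ Icc p q, g' t ∈ range b) ∧ (∀ t, t ∉ Zn β → g' t = g t) ∧
      (∀ t ∈ Zn β, Imm g' t ∧ g' t ∉ W ∧ ∀ t', g' t = g' t' → ∃ n : ℤ, t' = t + n) ∧
      (∀ t, t ∉ Zn β → Imm g t → Imm g' t) ∧ FHom O g g' := by
  obtain ⟨p', q', h1, h2, h3, hsupp⟩ := hβ.supp
  obtain ⟨hWc, n, d, hd, hWd⟩ := hW
  have hgs : ContMDiff 𝓘(ℝ, ℝ) (𝓡 4) ∞ g := hg.smooth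
  have hgc : Continuous g := hgs.continuous
  have hβc : Continuous β := hβ.smooth.continuous
  have hcs : ∀ t, g t ∈ range b → ContDiffAt ℝ ∞ (b' ∘ g) t := fun t ht => coord_smooth (hgs t) hb ht
  have hcsI : ∀ t ∈ Ioo p q, ContDiffAt ℝ ∞ (b' ∘ g) t := fun t ht => hcs t (hgb t (Ioo_subset_Icc_self ht))
  let K : ℝ × ℝ → E4 := fun x => b' (g x.2)
  let B : ℝ × ℝ → ℝ := fun x => β x.2
  let D : Set (ℝ × ℝ) := {x | x.2 ∈ Ioo p q}
  have hK : ∀ x ∈ D, ContDiffAt ℝ ∞ K x := fun x hx => (hcsI x.2 hx).comp x contDiffAt_snd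
  have hB : ∀ x ∈ D, ContDiffAt ℝ ∞ B x := fun x _ => (hβ.smooth.contDiffAt).comp x contDiffAt_snd
  have hK' : ∀ x ∈ D, DifferentiableAt ℝ K x := fun x hx => (hK x hx).differentiableAt (by simp)
  have hB' : ∀ x ∈ D, DifferentiableAt ℝ B x := fun x hx => (hB x hx).differentiableAt (by simp)
  have Ta := gp_zz hK' hB'
  have Tb := gp_zc hK' hB' (J := {u | g u ∈ range b}) (d := b' ∘ g)
    (fun u hu => (hcs u hu).differentiableAt (by simp))
  have Tc := Thin.iUnion (fun i => gp_zc hK' hB' (J := {u | d i u ∈ range b}) (d := b' ∘ d i)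
    (fun u hu => (coord_smooth (hd i u) hb hu).differentiableAt (by simp)))
  have Td := gp_imm hK hB
  obtain ⟨δ, hδ, hroom⟩ := room hO.isOpen hb hgc hgb (fun t _ => hgO t)
  obtain ⟨M, hM1, hMβ, hMt⟩ := gps_bound hβc p q
  have hδM : 0 < δ / (2 * M ^ 2) := by positivity
  obtain ⟨v, hv, hv1, hv2⟩ := thin_avoid ((Ta.union Tb).union (Tc.union Td)) hδM
  simp only [mem_union, not_or] at hv
  obtain ⟨⟨hva, hvb⟩, hvc, hvd⟩ := hv
  have hva' : ∀ t t', t ∈ Ioo p q → t' ∈ Ioo p q → β t ≠ 0 →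
      b' (g t) + β t • (v.1 + t • v.2) = b' (g t') + β t' • (v.1 + t' • v.2) → t = t' := by
    intro t t' ht ht' hbt he
    by_contra hne
    exact hva ⟨0, t, t', ht, ht', hne, hbt, he⟩
  have hvb' : ∀ t u, t ∈ Ioo p q → g u ∈ range b → β t ≠ 0 →
      b' (g t) + β t • (v.1 + t • v.2) ≠ b' (g u) := by
    intro t u ht hu hbt he
    exact hvb ⟨0, t, u, ht, hu, hbt, he⟩
  have hvc' : ∀ t i u, t ∈ Ioo p q → d i u ∈ range b → β t ≠ 0 →
      b' (g t) + β t • (v.1 + t • v.2) ≠ b' (d i u) := by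
    intro t i u ht hu hbt he
    exact hvc (mem_iUnion.mpr ⟨i, 0, t, u, ht, hu, hbt, he⟩)
  have hvd' : ∀ t, t ∈ Ioo p q → β t ≠ 0 →
      deriv (fun t => b' (g t) + β t • (v.1 + t • v.2)) t ≠ 0 := by
    intro t ht hbt he
    exact hvd ⟨0, t, ht, hbt, he⟩
  clear hva hvb hvc hvd
  let k : ℝ → E4 := fun t => b' (g t) + β t • (v.1 + t • v.2)
  have hkdef : ∀ t, k t = b' (g t) + β t • (v.1 + t • v.2) := fun _ => rfl
  have hk0 : ∀ t ∈ Icc p q, β t = 0 → b (k t) = g t := by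
    intro t ht h0
    rw [hkdef, h0, zero_smul, add_zero]
    exact hb.right_inv (hgb t ht)
  have hβ0 : ∀ t, (t ≤ p' ∨ q' ≤ t) → β t = 0 := by
    intro t ht
    by_contra hne
    have := hsupp t hne
    rcases ht with ht | ht
    · exact absurd this.1 (not_lt.mpr ht)
    · exact absurd this.2 (not_lt.mpr ht)
  have hend : ∀ t ∈ Ico p q, (t ≤ p' ∨ q' ≤ t) → b (k t) = g t :=
    fun t ht h => hk0 t (Ico_subset_Icc_self ht) (hβ0 t h)
  have hkd : ∀ t ∈ Ioo p q, ContDiffAt ℝ ∞ k t := by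
    intro t ht
    refine (hcsI t ht).add ?_
    exact hβ.smooth.contDiffAt.smul (contDiffAt_const.add (contDiffAt_id.smul contDiffAt_const))
  let g' : ℝ → N := mdf b p q k g
  have hg' : SCirc g' := mdf_scirc hb hg h1 h2 h3 hq hend hkd
  have hin : ∀ t ∈ Ioo p q, g' t = b (k t) := by
    intro t ht
    have := mdf_in (b := b) (k := k) (g := g) hq 0 (t := t) ⟨ht.1.le, ht.2⟩
    simpa using this
  have hinE : ∀ t ∈ Ioo p q, g' =ᶠ[𝓝 t] fun t => b (k t) := by
    intro t ht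
    have := mdf_near_in (b := b) (k := k) (g := g) hq 0 (t₀ := t) ht
    simpa using this
  have hout : ∀ t₀ ∈ Icc q (p + 1), ∀ m : ℤ, g' =ᶠ[𝓝 (t₀ + m)] g := by
    intro t₀ ht m
    exact mdf_near_out hg.per h1 h2 h3 hq hend m ⟨lt_of_lt_of_le h3 ht.1, by linarith [ht.2]⟩
  have hnz : ∀ t, t ∉ Zn β → ∀ m : ℤ, β (t + m) = 0 := by
    intro t ht m
    by_contra hne
    exact ht ⟨m, hne⟩
  have hgper := fun t m => per_int hg.per t m
  have hg'per := fun t m => per_int hg'.per t m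
  have hoff : ∀ t, t ∉ Zn β → g' t = g t := by
    intro t ht
    obtain ⟨m, t₀, htt, h | h⟩ := gps_dich hq t
    · have h0 : β t₀ = 0 := by
        have := hnz t ht (-m)
        rw [htt] at this
        simpa using this
      rw [htt, hg'per, hgper, hin t₀ h]
      exact hk0 t₀ (Ioo_subset_Icc_self h) h0
    · rw [htt]
      exact (hout t₀ h m).eq_of_nhds
  have hkderiv : ∀ t ∈ Ioo p q, (Imm g' t ↔ deriv k t ≠ 0) := by
    intro t ht
    have hr : g' t ∈ range b := by rw [hin t ht]; exact ⟨_, rfl⟩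
    rw [imm_iff (hg'.smooth t) hb hr]
    have he : (b' ∘ g') =ᶠ[𝓝 t] k := by
      filter_upwards [hinE t ht] with u hu
      rw [Function.comp_apply, hu, hb.left_inv]
    rw [he.deriv_eq]
  refine ⟨g', hg', ?_, hoff, ?_, ?_, ?_⟩
  · intro t ht
    rcases eq_or_lt_of_le ht.2 with h | h
    · have : g' t = g t := by
        have := (hout t ⟨h.ge, by linarith⟩ 0).eq_of_nhds
        simpa using this
      rw [this]
      exact hgb t ht
    · have := mdf_in (b := b) (k := k) (g := g) hq 0 (t := t) ⟨ht.1, h⟩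
      rw [Int.cast_zero, add_zero] at this
      show mdf b p q k g t ∈ range b
      rw [this]
      exact ⟨_, rfl⟩
  · rintro t ⟨m, hm⟩
    have hm1 := hsupp _ hm
    have hm2 : t + m ∈ Ioo p q := ⟨by linarith [hm1.1], by linarith [hm1.2]⟩
    have e1 : g' t = b (k (t + m)) := by
      rw [← hin _ hm2, hg'per]
    refine ⟨?_, ?_, ?_⟩
    · rw [← imm_shift hg'.per t m, hkderiv _ hm2]
      exact hvd' _ hm2 hm
    · intro hw
      obtain ⟨i, u, hu⟩ := mem_iUnion.mp (hWd hw)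
      have hr : d i u ∈ range b := by rw [hu, e1]; exact ⟨_, rfl⟩
      refine hvc' _ i u hm2 hr hm ?_
      rw [hu, e1, hb.left_inv]
    · intro t' he
      obtain ⟨m', t₁, htt, h | h⟩ := gps_dich hq t'
      · rw [e1, htt, hg'per, hin t₁ h] at he
        have h5 := hva' _ _ hm2 h hm (hb.inj he)
        refine ⟨m + m', ?_⟩
        rw [htt, ← h5]
        push_cast
        ring
      · exfalso
        have h6 : g' t' = g t' := by rw [htt]; exact (hout t₁ h m').eq_of_nhds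
        have h7 : g t' ∈ range b := by rw [← h6, ← he, e1]; exact ⟨_, rfl⟩
        refine hvb' _ t' hm2 h7 hm ?_
        rw [← h6, ← he, e1, hb.left_inv]
  · intro t ht hI
    obtain ⟨m, t₀, htt, h | h⟩ := gps_dich hq t
    · have h0 : β t₀ = 0 := by
        have := hnz t ht (-m)
        rw [htt] at this
        simpa using this
      rw [htt, imm_shift hg.per] at hI
      rw [htt, imm_shift hg'.per, hkderiv t₀ h]
      rw [imm_iff (hgs t₀) hb (hgb t₀ (Ioo_subset_Icc_self h))] at hI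
      have hmin : deriv β t₀ = 0 := by
        apply IsLocalMin.deriv_eq_zero
        exact Filter.Eventually.of_forall fun u => by rw [h0]; exact hβ.nonneg u
      have d1 : HasDerivAt (b' ∘ g) (deriv (b' ∘ g) t₀) t₀ :=
        ((hcsI t₀ h).differentiableAt (by simp)).hasDerivAt
      have d2 : HasDerivAt β 0 t₀ := by
        have := ((hβ.smooth.differentiable (by simp)) t₀).hasDerivAt
        rwa [hmin] at this
      have d3 : HasDerivAt (fun t : ℝ => v.1 + t • v.2) ((1 : ℝ) • v.2) t₀ :=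
        ((hasDerivAt_id t₀).smul_const v.2).const_add v.1
      have d4 := d1.add (d2.smul d3)
      have d5 : deriv k t₀ = deriv (b' ∘ g) t₀ := by
        have : HasDerivAt k (deriv (b' ∘ g) t₀ + (β t₀ • (1 : ℝ) • v.2 + (0 : ℝ) • (v.1 + t₀ • v.2))) t₀ := d4
        rw [this.deriv, h0]
        simp
      rw [d5]
      exact hI
    · rw [htt, imm_congr (hout t₀ h m), ← htt]
      exact hI
  · let K1 : ℝ → ℝ → E4 := fun s t => b' (g t) + s • β t • (v.1 + t • v.2)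
    have hK1 : K1 1 = k := by
      funext t
      show b' (g t) + (1 : ℝ) • β t • (v.1 + t • v.2) = _
      rw [one_smul]
    have hcont : ContinuousOn (fun x : ℝ × ℝ => K1 x.1 x.2) (Icc 0 1 ×ˢ Icc p q) := by
      apply ContinuousOn.add
      · have : ContinuousOn (b' ∘ g) (Icc p q) := hb.contOn.comp hgc.continuousOn hgb
        exact this.comp continuous_snd.continuousOn fun x hx => hx.2
      · apply Continuous.continuousOn
        exact continuous_fst.smul ((hβc.comp continuous_snd).smul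
          (continuous_const.add (continuous_snd.smul continuous_const)))
    have := mdf_fhom (K := K1) hO hb hgc hg.per h1 h2 h3 hq hcont ?_ ?_ ?_ hgO
    · rw [hK1] at this
      exact this
    · intro s _ t ht h
      show b (b' (g t) + s • β t • (v.1 + t • v.2)) = g t
      rw [hβ0 t h, zero_smul, smul_zero, add_zero]
      exact hb.right_inv (hgb t ht)
    · intro t ht
      show b (b' (g t) + (0 : ℝ) • β t • (v.1 + t • v.2)) = g t
      rw [zero_smul, add_zero]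
      exact hb.right_inv (hgb t ht)
    · intro s hs t ht
      apply hroom t ht
      show ‖(b' (g t) + s • β t • (v.1 + t • v.2)) - b' (g t)‖ < δ
      rw [add_sub_cancel_left]
      exact gps_small hM1 hv1 hv2 (by rw [abs_le]; constructor <;> linarith [hs.1, hs.2]) (hMβ t ht) (hMt t ht)

end Pool.Agent.ACB
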