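import Pool.Agent.ACB.Bal
import Pool.Agent.ACB.Gps
import Pool.Agent.ACB.Lis

/-!
# ACB/PhV: vertex step

`l` and `g` are embedded circles without common points (except at equal times, `hX`).  The new circle is `g` near `τ` and `l` away from `τ`.

PROOF.  `χ` from `cut_plateau` (`p = τ - 2 η / 3`, `p₀ = τ - η / 3`, `q₀ = τ + η / 3`, `q = τ + 2 η / 3`): `0 ≤ χ ≤ 1`, `χ = 1` on `|t - τ| ≤ η / 3`, `χ = 0` for
`|t - τ| ≥ 2 η / 3`.  `k t = (1 - χ t) • e' (l t) + χ t • e' (g t)`, `g₀ = mdf e (τ - η) (τ + η) k l` (for `t ∈ [τ - η, τ + η]` both `l t` and `g t` are in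
`range e`, by `he`).  With `p' = τ - 2 η / 3`, `q' = τ + 2 η / 3` we have `e (k t) = l t` for `t ≤ p'`, `q' ≤ t`; `g₀` is an `SCirc` (`mdf_scirc`, `coord_smooth`), its graph is in
`O` (`t ∈ [τ - η, τ + η]`: `he`; otherwise `g₀ = l`; use `dich` and `OpnS.int`).  `β` from `cut_two`: `β t ≠ 0` iff `η / 4 < |t - τ| < 3 η / 4`.  Apply
`gp_step` to `g₀`, the ball `e`, `[τ - η, τ + η]`, `β`, `W = Z ∪ range g` (`Obst.union`, `Obst.range`), `O`: this gives `l'`.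
For `t ∉ Zn β` there are two cases (`t = t₀ + n`, `t₀ ∈ [τ - η, τ + 1 - η)`): (N) `|t₀ - τ| ≤ η / 4`: `g₀ = g` in a neighbourhood of `t` (`χ = 1` near
`t₀`), so `l' t = g t`; (F) `t₀ ≥ τ + 3 η / 4` or `t₀ ≤ τ - 3 η / 4`: `g₀ = l` in a neighbourhood of `t` (`χ = 0`), so `l' t = l t`.
`l'` is immersed: on `Zn β` by `gp_step`, off `Zn β` because `g₀` is immersed there (`imm_congr`).  Injective: if `t` or `t'` is in `Zn β`: `gp_step`.  Otherwise (N, N): `g`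
injective; (F, F): `l` injective; (F, N): `l t = g t'`: `hX`; (N, F): `g t = l t'`: `hX`.  Avoids `Z`: clear.  Graph in `O`: `FHom.right`.
New `hX`: `l' t = g t'`: `t ∈ Zn β` impossible (`l' t ∉ W`); (N): `g t = g t'`; (F): `hX`.
`Iso Z l l'`: `local_iso` with the ball `e`, `p = τ - η`, `q = τ + η`, `p₁ = τ - 3 η / 4`, `q₁ = τ + 3 η / 4`: for `t ∈ [q₁, p₁ + 1]` we are in case (F).
Last two statements: (N), (F).
-/

open scoped ContDiff Manifold Topology unitInterval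
open Set Filter

namespace Pool.Agent.ACB

universe u
variable {N : Type u} [TopologicalSpace N] [ChartedSpace E4 N]

/-- off the zone of the two-bump function -/
theorem phv_class {β : ℝ → ℝ} {τ η : ℝ} (hη : 0 < η) (hη' : η < 1 / 2)
    (hβ : ∀ t, β t ≠ 0 ↔ |t - τ| ∈ Ioo (η / 4) (3 * η / 4)) {t : ℝ} (ht : t ∉ Zn β) :
    ∃ (t₀ : ℝ) (n : ℤ), t = t₀ + n ∧ (|t₀ - τ| ≤ η / 4 ∨ t₀ ∈ Icc (τ + 3 * η / 4) (τ - 3 * η / 4 + 1)) := by
  obtain ⟨n, t₀, htt, h | h⟩ := gps_dich (p := τ - η) (q := τ + η) (by linarith) t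
  · have h0 : β t₀ = 0 := by
      by_contra hne
      refine ht ⟨-n, ?_⟩
      rw [htt]
      simpa using hne
    have h1 : ¬ (|t₀ - τ| ∈ Ioo (η / 4) (3 * η / 4)) := fun h' => (hβ t₀).mpr h' h0
    by_cases h2 : |t₀ - τ| ≤ η / 4
    · exact ⟨t₀, n, htt, Or.inl h2⟩
    · have h3 : 3 * η / 4 ≤ |t₀ - τ| := by
        by_contra h4
        exact h1 ⟨lt_of_not_ge h2, lt_of_not_ge h4⟩
      rcases le_abs.mp h3 with h4 | h4
      · exact ⟨t₀, n, htt, Or.inr ⟨by linarith, by linarith [h.2]⟩⟩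
      · refine ⟨t₀ + 1, n - 1, by push_cast; linarith, Or.inr ⟨by linarith [h.1], by linarith⟩⟩
  · exact ⟨t₀, n, htt, Or.inr ⟨by linarith [h.1], by linarith [h.2]⟩⟩

theorem phv_zn1 {β : ℝ → ℝ} {τ η : ℝ} (hη : 0 < η)
    (hβ : ∀ t, β t ≠ 0 ↔ |t - τ| ∈ Ioo (η / 4) (3 * η / 4)) {t : ℝ}
    (ht : t ∈ Icc (τ + 3 * η / 4) (τ - 3 * η / 4 + 1)) : t ∉ Zn β := by
  rintro ⟨n, hn⟩
  have h1 := ((hβ _).mp hn).2
  rw [abs_lt] at h1
  rcases le_or_gt 0 n with h2 | h2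
  · have h3 : (0 : ℝ) ≤ n := by exact_mod_cast h2
    linarith [ht.1, h1.2]
  · have h3 : (n : ℝ) ≤ -1 := by exact_mod_cast (by omega : n ≤ -1)
    linarith [ht.2, h1.1]

theorem phv_zn2 {β : ℝ → ℝ} {τ η : ℝ} (hη : 0 < η) (hη' : η < 1 / 2)
    (hβ : ∀ t, β t ≠ 0 ↔ |t - τ| ∈ Ioo (η / 4) (3 * η / 4)) {t : ℝ}
    (ht : |t - τ| ≤ η / 4) : t ∉ Zn β := by
  rintro ⟨n, hn⟩
  have h0 := ((hβ _).mp hn).1
  have h1 := ((hβ _).mp hn).2
  rw [abs_lt] at h1
  rw [abs_le] at ht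
  rcases lt_trichotomy n 0 with h2 | h2 | h2
  · have h3 : (n : ℝ) ≤ -1 := by exact_mod_cast (by omega : n ≤ -1)
    linarith [ht.1, ht.2, h1.1]
  · rw [h2, Int.cast_zero, add_zero] at h0
    have : |t - τ| ≤ η / 4 := abs_le.mpr ht
    linarith
  · have h3 : (1 : ℝ) ≤ n := by exact_mod_cast h2
    linarith [ht.1, ht.2, h1.2]

theorem vertex_step [T2Space N] [IsManifold (𝓡 4) ∞ N] {Z : Set N} (hZ : Obst Z) {l g : ℝ → N} (hl : Circ l)
    (hg : Circ g) (hlZ : ∀ t, l t ∉ Z) (hgZ : ∀ t, g t ∉ Z) (hX : ∀ t t', l t = g t' → ∃ n : ℤ, t' = t + n)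
    {O : Set (ℝ × N)} (hO : OpnS O) (hlO : ∀ t, (t, l t) ∈ O) (hgO : ∀ t, (t, g t) ∈ O) {e : E4 → N}
    {e' : N → E4} (he : IsBall e e') {τ η : ℝ} (hη : 0 < η) (hη' : η < 1 / 2)
    (heO : ∀ t ∈ Icc (τ - η) (τ + η), ∀ y, (t, y) ∈ O ↔ y ∈ range e) :
    ∃ l' : ℝ → N, Circ l' ∧ (∀ t, l' t ∉ Z) ∧ (∀ t, (t, l' t) ∈ O) ∧
      (∀ t t', l' t = g t' → ∃ n : ℤ, t' = t + n) ∧ Iso Z l l' ∧
      (∀ t ∈ Icc (τ - η / 4) (τ + η / 4), l' t = g t) ∧
      ∀ t : ℝ, (∀ n : ℤ, t + (n : ℝ) ∉ Ioo (τ - η) (τ + η)) → l' t = l t := by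
  obtain ⟨χ, hχ, hχ1, _⟩ := cut_plateau (p := τ - 2 * η / 3) (p₀ := τ - η / 3) (q₀ := τ + η / 3)
    (q := τ + 2 * η / 3) (by linarith) (by linarith) (by linarith)
  have hχ0 : ∀ t, (t ≤ τ - 2 * η / 3 ∨ τ + 2 * η / 3 ≤ t) → χ t = 0 := by
    obtain ⟨a, c, ha, _, hc, hs⟩ := hχ.supp
    intro t ht
    by_contra hne
    have := hs t hne
    rcases ht with ht | ht
    · linarith [this.1]
    · linarith [this.2]
  have hle : ∀ t ∈ Icc (τ - η) (τ + η), l t ∈ range e := fun t ht => (heO t ht _).mp (hlO t)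
  have hge : ∀ t ∈ Icc (τ - η) (τ + η), g t ∈ range e := fun t ht => (heO t ht _).mp (hgO t)
  have hq : τ + η < τ - η + 1 := by linarith
  have hlS : SCirc l := hl.toSCirc
  have hgS : SCirc g := hg.toSCirc
  let k : ℝ → E4 := fun t => (1 - χ t) • e' (l t) + χ t • e' (g t)
  have hend : ∀ t ∈ Ico (τ - η) (τ + η), (t ≤ τ - 2 * η / 3 ∨ τ + 2 * η / 3 ≤ t) → e (k t) = l t := by
    intro t ht h
    show e ((1 - χ t) • e' (l t) + χ t • e' (g t)) = l t
    rw [hχ0 t h, sub_zero, one_smul, zero_smul, add_zero]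
    exact he.right_inv (hle t (Ico_subset_Icc_self ht))
  have hk1 : ∀ t, |t - τ| < η / 3 → e (k t) = g t := by
    intro t ht
    have h1 : χ t = 1 := hχ1 t (by rw [abs_lt] at ht; exact ⟨by linarith [ht.1], by linarith [ht.2]⟩)
    show e ((1 - χ t) • e' (l t) + χ t • e' (g t)) = g t
    rw [h1, sub_self, zero_smul, zero_add, one_smul]
    exact he.right_inv (hge t (by rw [abs_lt] at ht; exact ⟨by linarith [ht.1], by linarith [ht.2]⟩))
  have hkd : ∀ t ∈ Ioo (τ - η) (τ + η), ContDiffAt ℝ ∞ k t := by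
    intro t ht
    have a1 : ContDiffAt ℝ ∞ (e' ∘ l) t := coord_smooth (hlS.smooth t) he (hle t (Ioo_subset_Icc_self ht))
    have a2 : ContDiffAt ℝ ∞ (e' ∘ g) t := coord_smooth (hgS.smooth t) he (hge t (Ioo_subset_Icc_self ht))
    have a3 : ContDiffAt ℝ ∞ χ t := hχ.smooth.contDiffAt
    exact ((contDiffAt_const.sub a3).smul a1).add (a3.smul a2)
  let g₀ : ℝ → N := mdf e (τ - η) (τ + η) k l
  have hg₀ : SCirc g₀ := mdf_scirc he hlS (by linarith : τ - η < τ - 2 * η / 3)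
    (by linarith : τ - 2 * η / 3 < τ + 2 * η / 3) (by linarith : τ + 2 * η / 3 < τ + η) hq hend hkd
  have hN : ∀ t₀, |t₀ - τ| < η / 3 → ∀ n : ℤ, g₀ =ᶠ[𝓝 (t₀ + n)] g := by
    intro t₀ ht n
    have ht' := abs_lt.mp ht
    have h1 := mdf_near_in (b := e) (k := k) (g := l) hq n (t₀ := t₀) ⟨by linarith [ht'.1], by linarith [ht'.2]⟩
    have h2 : ∀ᶠ t in 𝓝 (t₀ + (n : ℝ)), |t - n - τ| < η / 3 := by
      have hc : Continuous fun t : ℝ => |t - n - τ| := by fun_prop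
      have := hc.tendsto (t₀ + n)
      refine this.eventually (gt_mem_nhds ?_)
      simpa using ht
    filter_upwards [h1, h2] with t h3 h4
    show mdf e (τ - η) (τ + η) k l t = g t
    rw [h3]
    rw [hk1 _ h4]
    have := per_int hgS.per t (-n)
    rw [← this]
    congr 1
    push_cast
    ring
  have hF : ∀ t₀ ∈ Ioo (τ + 2 * η / 3) (τ - 2 * η / 3 + 1), ∀ n : ℤ, g₀ =ᶠ[𝓝 (t₀ + n)] l := by
    intro t₀ ht n
    exact mdf_near_out hlS.per (by linarith : τ - η < τ - 2 * η / 3)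
      (by linarith : τ - 2 * η / 3 < τ + 2 * η / 3) (by linarith : τ + 2 * η / 3 < τ + η) hq hend n ht
  have hg₀O : ∀ t, (t, g₀ t) ∈ O := by
    intro t
    obtain ⟨n, t₀, htt, h | h⟩ := dich (τ - η) (τ + η) t
    · rw [htt]
      have h1 : g₀ (t₀ + n) = e (k t₀) := mdf_in hq n h
      rw [h1, hO.int]
      exact (heO t₀ (Ico_subset_Icc_self h) _).mpr ⟨_, rfl⟩
    · have h1 : g₀ (t₀ + n) = l (t₀ + n) := mdf_out (by linarith) n h
      rw [htt, h1]
      exact hlO _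
  have hg₀e : ∀ t ∈ Icc (τ - η) (τ + η), g₀ t ∈ range e := fun t ht => (heO t ht _).mp (hg₀O t)
  obtain ⟨β, hβ, hβ0⟩ := cut_two (τ := τ) hη
  obtain ⟨l', hl's, hl'e, hl'off, hl'z, hl'imm, hl'h⟩ := gp_step hg₀ he hq hg₀e hβ
    (hZ.union (Obst.range hgS)) hO hg₀O
  have hcl : ∀ t, t ∉ Zn β → (g₀ =ᶠ[𝓝 t] g) ∨ (g₀ =ᶠ[𝓝 t] l) := by
    intro t ht
    obtain ⟨t₀, n, htt, h | h⟩ := phv_class hη hη' hβ0 ht
    · left
      rw [htt]
      exact hN t₀ (by linarith) n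
    · right
      rw [htt]
      exact hF t₀ ⟨by linarith [h.1], by linarith [h.2]⟩ n
  have hclv : ∀ t, t ∉ Zn β → l' t = g t ∨ l' t = l t := by
    intro t ht
    rw [hl'off t ht]
    exact (hcl t ht).imp (fun h => h.eq_of_nhds) (fun h => h.eq_of_nhds)
  have hl'c : Circ l' := by
    refine ⟨hl's, ?_, ?_⟩
    · intro t
      by_cases ht : t ∈ Zn β
      · exact (hl'z t ht).1
      · refine hl'imm t ht ?_
        rcases hcl t ht with h | h
        · rw [imm_congr h]; exact hg.imm t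
        · rw [imm_congr h]; exact hl.imm t
    · intro t t' htt
      by_cases ht : t ∈ Zn β
      · exact (hl'z t ht).2.2 t' htt
      · by_cases ht' : t' ∈ Zn β
        · obtain ⟨n, hn⟩ := (hl'z t' ht').2.2 t htt.symm
          exact ⟨-n, by rw [hn]; push_cast; ring⟩
        · rcases hclv t ht with h | h <;> rcases hclv t' ht' with h' | h'
          · rw [h, h'] at htt
            exact hg.inj _ _ htt
          · rw [h, h'] at htt
            obtain ⟨n, hn⟩ := hX _ _ htt.symm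
            exact ⟨-n, by rw [hn]; push_cast; ring⟩
          · rw [h, h'] at htt
            exact hX _ _ htt
          · rw [h, h'] at htt
            exact hl.inj _ _ htt
  have hl'Z : ∀ t, l' t ∉ Z := by
    intro t
    by_cases ht : t ∈ Zn β
    · exact fun h => (hl'z t ht).2.1 (Or.inl h)
    · rcases hclv t ht with h | h
      · rw [h]; exact hgZ t
      · rw [h]; exact hlZ t
  have hfar : ∀ t ∈ Icc (τ + 3 * η / 4) (τ - 3 * η / 4 + 1), l' t = l t := by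
    intro t ht
    rw [hl'off t (phv_zn1 hη hβ0 ht)]
    have := (hF t ⟨by linarith [ht.1], by linarith [ht.2]⟩ 0).eq_of_nhds
    simpa using this
  refine ⟨l', hl'c, hl'Z, hl'h.right, ?_, ?_, ?_, ?_⟩
  · intro t t' htt
    by_cases ht : t ∈ Zn β
    · exact absurd (Or.inr ⟨t', htt.symm⟩) (hl'z t ht).2.1
    · rcases hclv t ht with h | h
      · rw [h] at htt
        exact hg.inj _ _ htt
      · rw [h] at htt
        exact hX _ _ htt
  · exact local_iso hZ hl hl'c hlZ hl'Z he (p := τ - η) (p₁ := τ - 3 * η / 4) (q₁ := τ + 3 * η / 4)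
      (q := τ + η) (by linarith) (by linarith) (by linarith) hq hle hl'e (fun t ht => (hfar t ht).symm)
  · intro t ht
    have ht' : |t - τ| ≤ η / 4 := abs_le.mpr ⟨by linarith [ht.1], by linarith [ht.2]⟩
    rw [hl'off t (phv_zn2 hη hη' hβ0 ht')]
    have := (hN t (by linarith) 0).eq_of_nhds
    simpa using this
  · intro t ht
    have hz : t ∉ Zn β := by
      rintro ⟨n, hn⟩
      have h1 := ((hβ0 _).mp hn).2
      rw [abs_lt] at h1
      exact ht n ⟨by linarith [h1.1], by linarith [h1.2]⟩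
    rw [hl'off t hz]
    obtain ⟨n, t₀, htt, h | h⟩ := gps_dich (p := τ - η) (q := τ + η) hq t
    · exfalso
      refine ht (-n) ?_
      rw [htt]
      simpa using h
    · rw [htt]
      exact (hF t₀ ⟨by linarith [h.1], by linarith [h.2]⟩ n).eq_of_nhds

end Pool.Agent.ACB
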