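import Pool.Agent.ACB.Bal
import Pool.Agent.ACB.MdfH

/-!
# ACB/Opn: open sets of graphs

`Restr p q b = {(t, x) | ∀ n : ℤ, t + n ∈ [p, q] → x ∈ range b}`.

PROOFS.  `opn_restr`: the complement of `Restr` is `{t | ∃ n, t + n ∈ [p, q]} ×ˢ (range b)ᶜ`; the set `T = {t | ∃ n : ℤ, t + n ∈ [p, q]}` is closed: it is a locally
finite union of closed intervals (`LocallyFinite.isClosed_iUnion`), or: the preimage of a compact set under the quotient map to `AddCircle`; or directly: if
`p ≤ q`, `t ∉ T`, take `n` with `q - n < t < p - n + ..`; if `q < p` then `T = ∅` and if `q ≥ p + 1` then `T = univ`, otherwise `Tᶜ = ⋃ n, (q - n, p + 1 - n)`.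
Periodicity: `n ↦ n ± 1`.
`restr_graph`: `g (t + n) = g t` (`per_int`).  `restr_use`: `n = 0`.
`OpnS.inter`, `OpnS.biInter`: finite intersections (`Finset.range m`; induction or `isOpen_biInter_finset`).
`graph_near`: `{(s, t) | (t, H s t) ∈ O}` is open in `ℝ × ℝ` and contains `{s₀} × [0, 1]`; the tube lemma (`generalized_tube_lemma` or
`IsCompact.eventually_forall_of_forall_eventually`) gives a neighbourhood of `s₀` for all `t ∈ [0, 1]`; every `t` is `t₀ + n`, `t₀ ∈ [0, 1]`, use the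
periodicity of `H s` and of `O` (`OpnS.int`).
-/

open scoped ContDiff Manifold Topology unitInterval
open Set Filter

namespace Pool.Agent.ACB

universe u
variable {N : Type u} [TopologicalSpace N] [ChartedSpace E4 N]

/-- the curve must be in the ball `b` during `[p, q]` -/
def Restr (p q : ℝ) (b : E4 → N) : Set (ℝ × N) := {x | ∀ n : ℤ, x.1 + n ∈ Icc p q → x.2 ∈ range b}

theorem isOpen_notMem_Icc (p q : ℝ) : IsOpen {t : ℝ | ∀ n : ℤ, t + n ∉ Icc p q} := by
  rw [isOpen_iff_mem_nhds]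
  intro t ht
  have h1 : ∀ᶠ t' in 𝓝 t, ∀ n ∈ Finset.Icc ⌊p - t - 1⌋ ⌈q - t + 1⌉, t' + (n : ℝ) ∉ Icc p q := by
    rw [Filter.eventually_all_finset]
    intro n _
    have h3 : IsClosed {t' : ℝ | t' + (n : ℝ) ∈ Icc p q} := isClosed_Icc.preimage (by fun_prop)
    exact h3.isOpen_compl.mem_nhds (ht n)
  have h2 : ∀ᶠ t' in 𝓝 t, |t' - t| < 1 := Metric.ball_mem_nhds t one_pos
  filter_upwards [h1, h2] with t' a1 a2 n hn
  rw [abs_lt] at a2
  refine a1 n (Finset.mem_Icc.2 ⟨?_, ?_⟩) hn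
  · rw [Int.floor_le_iff]
    linarith [hn.1]
  · rw [Int.le_ceil_iff]
    linarith [hn.2]

theorem opn_restr {b : E4 → N} {b' : N → E4} (hb : IsBall b b') (p q : ℝ) : OpnS (Restr p q b) := by
  refine ⟨?_, ?_⟩
  · have e : Restr p q b = ({t : ℝ | ∀ n : ℤ, t + n ∉ Icc p q} ×ˢ (Set.univ : Set N)) ∪
        ((Set.univ : Set ℝ) ×ˢ range b) := by
      ext ⟨t, x⟩
      simp only [Restr, mem_setOf_eq, mem_union, mem_prod, mem_univ, and_true, true_and]
      constructor
      · intro h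
        by_cases hx : x ∈ range b
        · exact Or.inr hx
        · exact Or.inl fun n hn => hx (h n hn)
      · rintro (h | h) n hn
        · exact absurd hn (h n)
        · exact h
    rw [e]
    exact ((isOpen_notMem_Icc p q).prod isOpen_univ).union (isOpen_univ.prod hb.isOpen)
  · intro t x
    simp only [Restr, mem_setOf_eq]
    constructor
    · intro h n hn
      refine h (n - 1) ?_
      push_cast
      have : t + 1 + ((n : ℝ) - 1) = t + n := by ring
      rw [this]; exact hn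
    · intro h n hn
      refine h (n + 1) ?_
      push_cast
      have : t + ((n : ℝ) + 1) = t + 1 + n := by ring
      rw [this]; exact hn

theorem restr_graph {b : E4 → N} {p q : ℝ} {g : ℝ → N} (hper : ∀ t, g (t + 1) = g t)
    (h : ∀ t ∈ Icc p q, g t ∈ range b) (t : ℝ) : (t, g t) ∈ Restr p q b := by
  intro n hn
  have p1 : Function.Periodic g (1 : ℝ) := fun t => hper t
  have q1 := p1.int_mul n t
  rw [mul_one] at q1
  have := h _ hn
  simp only at this ⊢
  rwa [q1] at this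

theorem restr_use {b : E4 → N} {p q t : ℝ} {x : N} (h : (t, x) ∈ Restr p q b) (ht : t ∈ Icc p q) : x ∈ range b := by
  refine h 0 ?_
  simpa using ht

theorem OpnS.univ : OpnS (Set.univ : Set (ℝ × N)) :=
  ⟨isOpen_univ, fun _ _ => by simp⟩

theorem OpnS.inter {O O' : Set (ℝ × N)} (h : OpnS O) (h' : OpnS O') : OpnS (O ∩ O') :=
  ⟨h.isOpen.inter h'.isOpen, fun t x => by rw [mem_inter_iff, mem_inter_iff, h.per, h'.per]⟩

theorem OpnS.biInter {m : ℕ} {O : ℕ → Set (ℝ × N)} (h : ∀ i < m, OpnS (O i)) : OpnS {x | ∀ i < m, x ∈ O i} := by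
  refine ⟨?_, ?_⟩
  · have e : {x | ∀ i < m, x ∈ O i} = ⋂ i ∈ Finset.range m, O i := by
      ext x
      simp
    rw [e]
    exact isOpen_biInter_finset fun i hi => (h i (Finset.mem_range.1 hi)).isOpen
  · intro t x
    simp only [mem_setOf_eq]
    exact forall_congr' fun i => forall_congr' fun hi => (h i hi).per t x

theorem graph_near {O : Set (ℝ × N)} (hO : OpnS O) {H : ℝ → ℝ → N}
    (hH : Continuous fun x : ℝ × ℝ => H x.1 x.2) (hper : ∀ s t, H s (t + 1) = H s t) {s₀ : ℝ}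
    (h : ∀ t, (t, H s₀ t) ∈ O) : ∀ᶠ s in 𝓝 s₀, ∀ t, (t, H s t) ∈ O := by
  have h1 : IsOpen {x : ℝ × ℝ | (x.2, H x.1 x.2) ∈ O} := hO.isOpen.preimage (continuous_snd.prodMk hH)
  have h2 : ∀ᶠ s in 𝓝 s₀, ∀ t ∈ Icc (0 : ℝ) 1, (t, H s t) ∈ O := by
    refine isCompact_Icc.eventually_forall_of_forall_eventually (P := fun s t => (t, H s t) ∈ O) ?_
    intro t _
    exact h1.mem_nhds (h t)
  filter_upwards [h2] with s hs t
  have h3 := hs (t - ⌊t⌋) ⟨sub_nonneg.2 (Int.floor_le t), by linarith [Int.lt_floor_add_one t]⟩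
  have p1 : Function.Periodic (H s) (1 : ℝ) := fun t => hper s t
  have q1 := p1.sub_int_mul_eq (x := t) ⌊t⌋
  rw [mul_one] at q1
  rw [q1] at h3
  have h4 := (hO.int (t - ⌊t⌋) ⌊t⌋ (H s t)).2 h3
  rwa [sub_add_cancel] at h4

end Pool.Agent.ACB
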