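import Pool.Agent.ACB.Bal
import Pool.Agent.ACB.Opn

/-!
# ACB/Cov: a closed curve is covered by finitely many balls

PROOF of `cover`.  For every `t₀ ∈ ℝ` let `b, b'` be a ball with `g t₀ ∈ range b` (`exists_ball`); the open sets `g ⁻¹' range b` cover the compact set
`[-1, 2]`; Lebesgue number `δ > 0` (`lebesgue_number_lemma_of_metric`): for every `x ∈ [-1, 2]` the ball of radius `δ` about `x` is in one of them.  Take
`m ≥ 4` with `3 / m < δ`; for `i < m` and `x = i / m` the interval `[(i - 1) / m, (i + 2) / m]` is in `ball x δ` (`|t - x| ≤ 2 / m`).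
PROOF of `cover_opn`.  Intersect the sets `Restr ((i - 1) / m) ((i + 2) / m) (b i)`, `i < m` (choose `b i`; `opn_restr`, `OpnS.biInter`, `OpnS.inter`,
`restr_graph`, `restr_use`).
-/

open scoped ContDiff Manifold Topology unitInterval
open Set Filter

namespace Pool.Agent.ACB

universe u
variable {N : Type u} [TopologicalSpace N] [ChartedSpace E4 N]

theorem cover [IsManifold (𝓡 4) ∞ N] {g : ℝ → N} (hg : Continuous g) :
    ∃ m : ℕ, 4 ≤ m ∧ ∀ i < m, ∃ (b : E4 → N) (b' : N → E4), IsBall b b' ∧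
      ∀ t ∈ Icc (((i : ℝ) - 1) / m) (((i : ℝ) + 2) / m), g t ∈ range b := by
  choose b b' hb hb0 _ using fun t₀ : ℝ => exists_ball (g t₀) (U := Set.univ) Filter.univ_mem
  have h1 : ∀ t₀, IsOpen (g ⁻¹' range (b t₀)) := fun t₀ => (hb t₀).isOpen.preimage hg
  have h2 : Icc (-1 : ℝ) 2 ⊆ ⋃ t₀, g ⁻¹' range (b t₀) := by
    intro t _
    exact mem_iUnion.2 ⟨t, 0, hb0 t⟩
  obtain ⟨δ, hδ, h3⟩ := lebesgue_number_lemma_of_metric isCompact_Icc h1 h2
  obtain ⟨m₀, hm₀⟩ := exists_nat_gt (3 / δ)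
  obtain ⟨m, hm⟩ : ∃ m : ℕ, m = max 4 m₀ := ⟨_, rfl⟩
  have hm4 : 4 ≤ m := hm ▸ le_max_left _ _
  have hmm : (m₀ : ℝ) ≤ m := by exact_mod_cast (hm ▸ le_max_right _ _ : m₀ ≤ m)
  have hm4' : (4 : ℝ) ≤ m := by exact_mod_cast hm4
  have hmp : (0 : ℝ) < m := by linarith
  have hδm : 3 < δ * m := by
    rw [div_lt_iff₀ hδ] at hm₀
    nlinarith
  refine ⟨m, hm4, fun i hi => ?_⟩
  have hi' : (i : ℝ) < m := by exact_mod_cast hi
  have hi0 : (0 : ℝ) ≤ i := Nat.cast_nonneg i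
  have hx : (i : ℝ) / m ∈ Icc (-1 : ℝ) 2 := by
    constructor
    · have : 0 ≤ (i : ℝ) / m := by positivity
      linarith
    · rw [div_le_iff₀ hmp]
      linarith
  obtain ⟨t₀, ht₀⟩ := h3 _ hx
  refine ⟨b t₀, b' t₀, hb t₀, fun t ht => ?_⟩
  have h4 : t ∈ Metric.ball ((i : ℝ) / m) δ := by
    rw [Metric.mem_ball, Real.dist_eq, abs_lt]
    obtain ⟨h5, h6⟩ := ht
    rw [div_le_iff₀ hmp] at h5
    rw [le_div_iff₀ hmp] at h6
    have h7 : (i : ℝ) / m * m = i := div_mul_cancel₀ _ hmp.ne'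
    constructor
    · have h8 : -δ * m < (t - (i : ℝ) / m) * m := by
        rw [sub_mul, h7]
        linarith
      exact lt_of_mul_lt_mul_right h8 hmp.le
    · have h8 : (t - (i : ℝ) / m) * m < δ * m := by
        rw [sub_mul, h7]
        linarith
      exact lt_of_mul_lt_mul_right h8 hmp.le
  exact ht₀ h4

theorem cover_opn [IsManifold (𝓡 4) ∞ N] {g : ℝ → N} (hg : Continuous g) (hper : ∀ t, g (t + 1) = g t)
    {O : Set (ℝ × N)} (hO : OpnS O) (hgO : ∀ t, (t, g t) ∈ O) :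
    ∃ (m : ℕ) (O' : Set (ℝ × N)), 4 ≤ m ∧ OpnS O' ∧ O' ⊆ O ∧ (∀ t, (t, g t) ∈ O') ∧
      ∀ i < m, ∃ (b : E4 → N) (b' : N → E4), IsBall b b' ∧
        ∀ t ∈ Icc (((i : ℝ) - 1) / m) (((i : ℝ) + 2) / m), ∀ x, (t, x) ∈ O' → x ∈ range b := by
  obtain ⟨m, hm, h⟩ := cover hg
  have : Nonempty N := ⟨g 0⟩
  choose! b b' hb using h
  refine ⟨m, O ∩ {x | ∀ i < m, x ∈ Restr (((i : ℝ) - 1) / m) (((i : ℝ) + 2) / m) (b i)}, hm,
    hO.inter (OpnS.biInter fun i hi => opn_restr (hb i hi).1 _ _), inter_subset_left, ?_, ?_⟩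
  · intro t
    exact ⟨hgO t, fun i hi => restr_graph hper (hb i hi).2 t⟩
  · intro i hi
    exact ⟨b i, b' i, (hb i hi).1, fun t ht x hx => restr_use (hx.2 i hi) ht⟩

end Pool.Agent.ACB
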