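import Pool.Agent.ACB.Bal
import Pool.Agent.ACB.Gps
import Pool.Agent.ACB.Lis
import Pool.Agent.ACB.Cov

/-!
# ACB/Swp: sweeping a curve into general position

`Good W S g`: on `S` the curve `g` is immersed, off `W`, and has no double points (modulo the period) with any time.

PROOF of `sweep_step`.  `gp_step` gives `g'`.  Good on `Zn β`: the statement of `gp_step`.  Let `t ∈ S`, `t ∉ Zn β`: immersed (preserved), `g' t = g t ∉ W`; if
`g' t = g' t'`: for `t' ∈ Zn β` the property of `t'` gives `t = t' + n`; for `t' ∉ Zn β`: `g t = g t'`, `Good`.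
If `Circ g` and `g` avoids `Z ⊆ W`: the same argument (with `S = univ`) gives that `g'` is immersed and injective and avoids `Z`; `Iso Z g g'`: `local_iso` with
`p₁ = p'`, `q₁ = q'` from `hβ.supp`: for `t ∈ [q', p' + 1]` we have `t ∉ Zn β` (if `β (t + n) ≠ 0`, then `t + n ∈ (p', q')`, impossible since
`q' ≤ t ≤ p' + 1`, `q' < p' + 1`), so `g t = g' t`.
PROOF of `sweep`.  Let `m, O'` be from `cover_opn` (for `g₀`, `O`).  For `i < m` let `β i` be from `cut_plateau` with `p = (i - 1) / m`, `p₀ = (i - 1/2) / m`,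
`q₀ = (i + 3/2) / m`, `q = (i + 2) / m` (`q < p + 1` since `3 / m < 1`).  By induction on `j ≤ m` there is `g_j` with `SCirc`, graph in `O'`,
`Good W {t | ∃ i < j, t ∈ Zn (β i)} g_j`, `FHom O' g₀ g_j` and (if `g₀` is a `Circ` avoiding `Z`) `Circ g_j`, `g_j` avoids `Z`, `Iso Z g₀ g_j` (`Iso.trans`): step `j` is
`sweep_step` with the ball of index `j`.  For `j = m` the zones cover `ℝ`: `t = t₀ + n`, `t₀ ∈ [0, 1)`, `i = ⌊t₀ m⌋`, `β i t₀ = 1`.  So `c = g_m` is a `Circ`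
avoiding `W`.  (`FHom.mono` from `O'` to `O`.)
-/

open scoped ContDiff Manifold Topology unitInterval
open Set Filter

namespace Pool.Agent.ACB

universe u
variable {N : Type u} [TopologicalSpace N] [ChartedSpace E4 N]

/-- `g` is in good position during the times in `S` -/
def Good (W : Set N) (S : Set ℝ) (g : ℝ → N) : Prop :=
  ∀ t ∈ S, Imm g t ∧ g t ∉ W ∧ ∀ t', g t = g t' → ∃ n : ℤ, t' = t + n

theorem swp_pt {g g' : ℝ → N} {β : ℝ → ℝ} {W A : Set N} (hAW : A ⊆ W) (hoff : ∀ t, t ∉ Zn β → g' t = g t)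
    (hzn : ∀ t ∈ Zn β, Imm g' t ∧ g' t ∉ W ∧ ∀ t', g' t = g' t' → ∃ n : ℤ, t' = t + n)
    (himm : ∀ t, t ∉ Zn β → Imm g t → Imm g' t) {t : ℝ}
    (h : Imm g t ∧ g t ∉ A ∧ ∀ t', g t = g t' → ∃ n : ℤ, t' = t + n) :
    Imm g' t ∧ g' t ∉ A ∧ ∀ t', g' t = g' t' → ∃ n : ℤ, t' = t + n := by
  by_cases ht : t ∈ Zn β
  · obtain ⟨h1, h2, h3⟩ := hzn t ht
    exact ⟨h1, fun h4 => h2 (hAW h4), h3⟩
  · refine ⟨himm t ht h.1, ?_, ?_⟩
    · rw [hoff t ht]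
      exact h.2.1
    · intro t' he
      by_cases ht' : t' ∈ Zn β
      · obtain ⟨n, hn⟩ := (hzn t' ht').2.2 t he.symm
        refine ⟨-n, ?_⟩
        rw [hn]
        push_cast
        ring
      · rw [hoff t ht, hoff t' ht'] at he
        exact h.2.2 t' he

theorem sweep_step [T2Space N] [IsManifold (𝓡 4) ∞ N] {g : ℝ → N} (hg : SCirc g) {b : E4 → N} {b' : N → E4}
    (hb : IsBall b b') {p q : ℝ} (hq : q < p + 1) (hgb : ∀ t ∈ Icc p q, g t ∈ range b) {β : ℝ → ℝ}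
    (hβ : Cut β p q) {W Z : Set N} (hW : Obst W) (hZ : Obst Z) (hZW : Z ⊆ W) {O : Set (ℝ × N)} (hO : OpnS O)
    (hgO : ∀ t, (t, g t) ∈ O) {S : Set ℝ} (hS : Good W S g) :
    ∃ g' : ℝ → N, SCirc g' ∧ Good W (S ∪ Zn β) g' ∧ FHom O g g' ∧
      (Circ g → (∀ t, g t ∉ Z) → Circ g' ∧ (∀ t, g' t ∉ Z) ∧ Iso Z g g') := by
  obtain ⟨g', hg', hgb', hoff, hzn, himm, hF⟩ := gp_step hg hb hq hgb hβ hW hO hgO
  refine ⟨g', hg', ?_, hF, ?_⟩
  · rintro t (ht | ht)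
    · exact swp_pt (Subset.refl W) hoff hzn himm (hS t ht)
    · exact hzn t ht
  · intro hc hcZ
    have key : ∀ t, Imm g' t ∧ g' t ∉ Z ∧ ∀ t', g' t = g' t' → ∃ n : ℤ, t' = t + n := fun t =>
      swp_pt hZW hoff hzn himm ⟨hc.imm t, hcZ t, hc.inj t⟩
    have hc' : Circ g' := ⟨hg', fun t => (key t).1, fun t => (key t).2.2⟩
    obtain ⟨p', q', h1, h2, h3, h4⟩ := hβ.supp
    refine ⟨hc', fun t => (key t).2.1, ?_⟩
    refine local_iso hZ hc hc' hcZ (fun t => (key t).2.1) hb h1 h2 h3 hq hgb hgb' ?_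
    intro t ht
    refine (hoff t ?_).symm
    rintro ⟨n, hn⟩
    obtain ⟨h5, h6⟩ := h4 _ hn
    have h7 : (n : ℝ) < 0 := by linarith [ht.1]
    have h8 : n ≤ -1 := by
      have : n < 0 := by exact_mod_cast h7
      omega
    have h9 : (n : ℝ) ≤ -1 := by exact_mod_cast h8
    linarith [ht.2]

theorem swp_ind [T2Space N] [IsManifold (𝓡 4) ∞ N] {g₀ : ℝ → N} (hg : SCirc g₀) {W Z : Set N} (hW : Obst W)
    (hZ : Obst Z) (hZW : Z ⊆ W) {O' : Set (ℝ × N)} (hO' : OpnS O') (hgO' : ∀ t, (t, g₀ t) ∈ O') {m : ℕ} (hm : 4 ≤ m)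
    (hball : ∀ i < m, ∃ (b : E4 → N) (b' : N → E4), IsBall b b' ∧
      ∀ t ∈ Icc (((i : ℝ) - 1) / m) (((i : ℝ) + 2) / m), ∀ x, (t, x) ∈ O' → x ∈ range b)
    {β : ℕ → ℝ → ℝ} (hβ : ∀ i : ℕ, Cut (β i) (((i : ℝ) - 1) / m) (((i : ℝ) + 2) / m)) (j : ℕ) (hj : j ≤ m) :
    ∃ g : ℝ → N, SCirc g ∧ (∀ t, (t, g t) ∈ O') ∧ Good W {t | ∃ i < j, t ∈ Zn (β i)} g ∧ FHom O' g₀ g ∧
      (Circ g₀ → (∀ t, g₀ t ∉ Z) → Circ g ∧ (∀ t, g t ∉ Z) ∧ Iso Z g₀ g) := by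
  induction j with
  | zero =>
    refine ⟨g₀, hg, hgO', ?_, FHom.refl hg.smooth.continuous hg.per hgO', ?_⟩
    · rintro t ⟨i, hi, -⟩
      omega
    · intro h1 h2
      exact ⟨h1, h2, Iso.refl Z g₀⟩
  | succ j ih =>
    obtain ⟨g, h1, h2, h3, h4, h5⟩ := ih (by omega)
    obtain ⟨b, b', hb, hbr⟩ := hball j (by omega)
    have hm0 : (0 : ℝ) < m := by
      have : (4 : ℝ) ≤ m := by exact_mod_cast hm
      linarith
    have hq : ((j : ℝ) + 2) / m < ((j : ℝ) - 1) / m + 1 := by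
      have h6 : (4 : ℝ) ≤ m := by exact_mod_cast hm
      rw [div_add_one hm0.ne', div_lt_div_iff_of_pos_right hm0]
      linarith
    obtain ⟨g', k1, k2, k3, k4⟩ := sweep_step h1 hb hq (fun t ht => hbr t ht _ (h2 t)) (hβ j) hW hZ hZW hO' h2 h3
    refine ⟨g', k1, fun t => k3.right t, ?_, h4.trans k3, ?_⟩
    · intro t ht
      refine k2 t ?_
      obtain ⟨i, hi, hit⟩ := ht
      rcases Nat.lt_succ_iff_lt_or_eq.mp hi with h7 | h7
      · exact Or.inl ⟨i, h7, hit⟩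
      · subst h7
        exact Or.inr hit
    · intro c1 c2
      obtain ⟨c3, c4, c5⟩ := h5 c1 c2
      obtain ⟨c6, c7, c8⟩ := k4 c3 c4
      exact ⟨c6, c7, c5.trans c8⟩

theorem swp_zone {m : ℕ} (hm : 4 ≤ m) {β : ℕ → ℝ → ℝ}
    (hβ : ∀ i : ℕ, ∀ t ∈ Icc (((i : ℝ) - 1 / 2) / m) (((i : ℝ) + 3 / 2) / m), β i t = 1) (t : ℝ) :
    ∃ i < m, t ∈ Zn (β i) := by
  have hm0 : (0 : ℝ) < m := by
    have : (4 : ℝ) ≤ m := by exact_mod_cast hm
    linarith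
  have h0 := Int.fract_nonneg t
  have h1 := Int.fract_lt_one t
  have h2 : 0 ≤ Int.fract t * m := mul_nonneg h0 hm0.le
  have h3 := Nat.floor_le h2
  have h4 := Nat.lt_floor_add_one (Int.fract t * m)
  refine ⟨⌊Int.fract t * m⌋₊, ?_, -⌊t⌋, ?_⟩
  · rw [Nat.floor_lt h2]
    nlinarith
  · have h5 : t + ((-⌊t⌋ : ℤ) : ℝ) = Int.fract t := by
      push_cast
      rw [← sub_eq_add_neg]
      rfl
    rw [h5, hβ]
    · exact one_ne_zero
    · constructor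
      · rw [div_le_iff₀ hm0]
        linarith
      · rw [le_div_iff₀ hm0]
        linarith

theorem sweep [T2Space N] [IsManifold (𝓡 4) ∞ N] {g₀ : ℝ → N} (hg : SCirc g₀) {W Z : Set N} (hW : Obst W)
    (hZ : Obst Z) (hZW : Z ⊆ W) {O : Set (ℝ × N)} (hO : OpnS O) (hgO : ∀ t, (t, g₀ t) ∈ O) :
    ∃ c : ℝ → N, Circ c ∧ (∀ t, c t ∉ W) ∧ FHom O g₀ c ∧ (Circ g₀ → (∀ t, g₀ t ∉ Z) → Iso Z g₀ c) := by
  obtain ⟨m, O', hm, hO', hsub, hgO', hball⟩ := cover_opn hg.smooth.continuous hg.per hO hgO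
  have hm0 : (0 : ℝ) < m := by
    have : (4 : ℝ) ≤ m := by exact_mod_cast hm
    linarith
  have hcut : ∀ i : ℕ, ∃ β : ℝ → ℝ, Cut β (((i : ℝ) - 1) / m) (((i : ℝ) + 2) / m) ∧
      (∀ t ∈ Icc (((i : ℝ) - 1 / 2) / m) (((i : ℝ) + 3 / 2) / m), β t = 1) ∧ ∀ t, β t ≤ 1 := by
    intro i
    refine cut_plateau ?_ ?_ ?_
    · rw [div_lt_div_iff_of_pos_right hm0]
      linarith
    · rw [div_lt_div_iff_of_pos_right hm0]
      linarith
    · rw [div_lt_div_iff_of_pos_right hm0]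
      linarith
  choose β hβ1 hβ2 hβ3 using hcut
  obtain ⟨c, h1, h2, h3, h4, h5⟩ := swp_ind hg hW hZ hZW hO' hgO' hm hball hβ1 m le_rfl
  have key : ∀ t, Imm c t ∧ c t ∉ W ∧ ∀ t', c t = c t' → ∃ n : ℤ, t' = t + n := by
    intro t
    obtain ⟨i, hi, hit⟩ := swp_zone hm hβ2 t
    exact h3 t ⟨i, hi, hit⟩
  refine ⟨c, ⟨h1, fun t => (key t).1, fun t => (key t).2.2⟩, fun t => (key t).2.1, h4.mono hsub, ?_⟩
  intro c1 c2
  exact (h5 c1 c2).2.2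

end Pool.Agent.ACB
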