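import Pool.Agent.ACB.Bal
import Pool.Agent.ACB.Cov

/-!
# ACB/Sys: system of balls around a closed curve

PROOF.  By `cover` there are `m ≥ 4` and balls `b i`, `i < m`, with `h t ∈ range (b i)` for `t ∈ [(i - 1) / m, (i + 2) / m]`.  For `i < m` the point `h (i / m)` is in
`range (b i)` and in `range (b (i - 1))` if `i ≥ 1`, and `h 0 = h 1 ∈ range (b (m - 1))` if `i = 0`.  Let `e i` be a ball (`exists_ball`) with `e i 0 = h (i / m)` and
`range (e i) ⊆ range (b i) ∩ range (b (i - 1))` (`b (m - 1)` for `i = 0`).  By continuity (finitely many `i`) there is `0 < η ≤ 1 / (4 m)` with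
`h t ∈ range (e i)` for `|t - i / m| ≤ η`, `i < m`.  `O = {x | ∀ i < m, x ∈ Restr (i / m) ((i + 1) / m) (b i) ∧ x ∈ Restr (i / m - η) (i / m + η) (e i)}`.
`OpnS`: `OpnS.biInter`, `OpnS.inter`, `opn_restr`.  Graph of `h`: `restr_graph`.  Edges: `restr_use`.  Vertices: let `|t - i / m| ≤ η`.  If `(t, y) ∈ O` then
`y ∈ range (e i)` (`restr_use`).  Conversely let `y ∈ range (e i)`.  If `t + n ∈ [j / m, (j + 1) / m]`, `j < m`: then `i + n m ∈ [j - 1/4, j + 5/4]`, so `i + n m = j` or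
`j + 1` (integers).  If `i + n m = j`: `0 ≤ i, j < m` gives `n = 0`, `j = i`, `y ∈ range (b i)`.  If `i + n m = j + 1 < m`: `n = 0`, `j = i - 1`.  If
`i + n m = j + 1 = m`: `n = 1`, `i = 0`, `j = m - 1` (`n ≥ 1` since `i < m`, and `i ≥ 0` gives `n ≤ 1`).  If `t + n ∈ [j / m - η, j / m + η]`:
`|i + n m - j| ≤ 2 η m ≤ 1/2`, so `i + n m = j`, `n = 0`, `i = j`.
-/

open scoped ContDiff Manifold Topology unitInterval
open Set Filter

namespace Pool.Agent.ACB

universe u
variable {N : Type u} [TopologicalSpace N] [ChartedSpace E4 N]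

theorem sys_int {m i j : ℕ} (hi : i < m) (hj : j < m) {n : ℤ} (h : (i : ℤ) + n * m = j) : i = j := by
  have h0 : n = 0 := by
    by_contra hn
    rcases lt_or_gt_of_ne hn with h1 | h1
    · have h2 : n ≤ -1 := by omega
      have h3 : n * (m : ℤ) ≤ -1 * m := mul_le_mul_of_nonneg_right h2 (by omega)
      omega
    · have h2 : 1 ≤ n := by omega
      have h3 : 1 * (m : ℤ) ≤ n * m := mul_le_mul_of_nonneg_right h2 (by omega)
      omega
  rw [h0] at h
  omega

theorem sys_int' {m i j : ℕ} (hi : i < m) (hj : j < m) {n : ℤ} (h : (i : ℤ) + n * m = j + 1) :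
    (i ≠ 0 ∧ i - 1 = j) ∨ (i = 0 ∧ m - 1 = j) := by
  rcases eq_or_ne (j + 1) m with h1 | h1
  · right
    have h2 : (i : ℤ) + n * m = m := by rw [h]; omega
    have h3 : n = 1 := by
      by_contra hn
      rcases lt_or_gt_of_ne hn with h4 | h4
      · have h5 : n ≤ 0 := by omega
        have h6 : n * (m : ℤ) ≤ 0 * m := mul_le_mul_of_nonneg_right h5 (by omega)
        omega
      · have h5 : 2 ≤ n := by omega
        have h6 : 2 * (m : ℤ) ≤ n * m := mul_le_mul_of_nonneg_right h5 (by omega)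
        omega
    rw [h3] at h2
    omega
  · left
    have h2 : j + 1 < m := by omega
    have h3 : i = j + 1 := sys_int hi h2 (n := n) (by push_cast; exact h)
    omega

theorem sys [IsManifold (𝓡 4) ∞ N] {h : ℝ → N} (hh : Continuous h) (hper : ∀ t, h (t + 1) = h t) :
    ∃ (m : ℕ) (η : ℝ) (O : Set (ℝ × N)), 4 ≤ m ∧ 0 < η ∧ η ≤ 1 / (4 * m) ∧ OpnS O ∧ (∀ t, (t, h t) ∈ O) ∧
      (∀ i < m, ∃ (b : E4 → N) (b' : N → E4), IsBall b b' ∧
        ∀ t ∈ Icc ((i : ℝ) / m) (((i : ℝ) + 1) / m), ∀ y, (t, y) ∈ O → y ∈ range b) ∧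
      ∀ i < m, ∃ (e : E4 → N) (e' : N → E4), IsBall e e' ∧
        ∀ t ∈ Icc ((i : ℝ) / m - η) ((i : ℝ) / m + η), ∀ y, (t, y) ∈ O ↔ y ∈ range e := by
  obtain ⟨m, hm, hb⟩ := cover hh
  have hN : Nonempty N := ⟨h 0⟩
  choose! b b' hball hcov using hb
  have hm0 : (0 : ℝ) < m := by exact_mod_cast (by omega : 0 < m)
  let pr : ℕ → ℕ := fun i => if i = 0 then m - 1 else i - 1
  have hpr : ∀ i < m, pr i < m := by
    intro i hi
    show (if i = 0 then m - 1 else i - 1) < m
    split_ifs <;> omega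
  have hin : ∀ i < m, h ((i : ℝ) / m) ∈ range (b i) ∩ range (b (pr i)) := by
    intro i hi
    refine ⟨hcov i hi _ ⟨?_, ?_⟩, ?_⟩
    · exact (div_le_div_iff_of_pos_right hm0).2 (by linarith)
    · exact (div_le_div_iff_of_pos_right hm0).2 (by linarith)
    · by_cases h0 : i = 0
      · have e1 : pr i = m - 1 := if_pos h0
        have e2 : h ((i : ℝ) / m) = h 1 := by
          rw [h0]
          have := hper 0
          rw [zero_add] at this
          simp [this]
        have e3 : ((m - 1 : ℕ) : ℝ) = m - 1 := by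
          rw [Nat.cast_sub (by omega)]; simp
        rw [e1, e2]
        refine hcov (m - 1) (by omega) 1 ⟨?_, ?_⟩
        · rw [e3, div_le_one hm0]; linarith
        · rw [e3, one_le_div hm0]; linarith
      · have e1 : pr i = i - 1 := if_neg h0
        have e3 : ((i - 1 : ℕ) : ℝ) = i - 1 := by
          rw [Nat.cast_sub (by omega)]; simp
        rw [e1]
        refine hcov (i - 1) (by omega) _ ⟨?_, ?_⟩
        · rw [e3]; exact (div_le_div_iff_of_pos_right hm0).2 (by linarith)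
        · rw [e3]; exact (div_le_div_iff_of_pos_right hm0).2 (by linarith)
  have hex : ∀ i < m, ∃ (e : E4 → N) (e' : N → E4), IsBall e e' ∧ e 0 = h ((i : ℝ) / m) ∧
      range e ⊆ range (b i) ∩ range (b (pr i)) := by
    intro i hi
    exact exists_ball _ (((hball i hi).isOpen.inter (hball _ (hpr i hi)).isOpen).mem_nhds (hin i hi))
  choose! e e' he he0 hsub using hex
  -- the radius
  have hη : ∃ η : ℝ, 0 < η ∧ η ≤ 1 / (4 * m) ∧ ∀ i < m, ∀ t, |t - (i : ℝ) / m| ≤ η → h t ∈ range (e i) := by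
    have h1 : ∀ i ∈ Finset.range m, ∀ᶠ η in 𝓝[>] (0 : ℝ), ∀ t, |t - (i : ℝ) / m| ≤ η → h t ∈ range (e i) := by
      intro i hi
      have hi' := Finset.mem_range.1 hi
      have h2 : ∀ᶠ t in 𝓝 ((i : ℝ) / m), h t ∈ range (e i) :=
        hh.continuousAt.eventually ((he i hi').eventually ⟨0, he0 i hi'⟩)
      obtain ⟨r, hr, h3⟩ := Metric.eventually_nhds_iff.1 h2
      have h4 : ∀ᶠ η in 𝓝[>] (0 : ℝ), η < r := nhdsWithin_le_nhds (eventually_lt_nhds hr)
      filter_upwards [h4] with η hη t ht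
      exact h3 (by rw [Real.dist_eq]; linarith)
    have h2 := (Finset.eventually_all (Finset.range m)).2 h1
    have h3 : ∀ᶠ η : ℝ in 𝓝[>] (0 : ℝ), η < (1 : ℝ) / (4 * m) :=
      nhdsWithin_le_nhds (eventually_lt_nhds (by positivity))
    obtain ⟨η, ⟨h4, h5⟩, h6⟩ := ((h2.and h3).and self_mem_nhdsWithin).exists
    exact ⟨η, h6, h5.le, fun i hi => h4 i (Finset.mem_range.2 hi)⟩
  obtain ⟨η, η0, η1, hη⟩ := hη
  have ηm : η * m ≤ 1 / 4 := by
    have := mul_le_mul_of_nonneg_right η1 hm0.le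
    have e1 : 1 / (4 * (m : ℝ)) * m = 1 / 4 := by field_simp
    rwa [e1] at this
  refine ⟨m, η, {x | ∀ i < m, x ∈ Restr ((i : ℝ) / m) (((i : ℝ) + 1) / m) (b i) ∩
    Restr ((i : ℝ) / m - η) ((i : ℝ) / m + η) (e i)}, hm, η0, η1, ?_, ?_, ?_, ?_⟩
  · exact OpnS.biInter fun i hi => (opn_restr (hball i hi) _ _).inter (opn_restr (he i hi) _ _)
  · intro t i hi
    refine ⟨restr_graph hper (fun s hs => hcov i hi s ⟨?_, ?_⟩) t, restr_graph hper (fun s hs => hη i hi s ?_) t⟩
    · exact ((div_le_div_iff_of_pos_right hm0).2 (by linarith)).trans hs.1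
    · exact hs.2.trans ((div_le_div_iff_of_pos_right hm0).2 (by linarith))
    · rw [abs_le]
      constructor <;> linarith [hs.1, hs.2]
  · intro i hi
    exact ⟨b i, b' i, hball i hi, fun t ht y hy => restr_use (hy i hi).1 ht⟩
  · intro i hi
    refine ⟨e i, e' i, he i hi, fun t ht y => ⟨fun hy => restr_use (hy i hi).2 ht, ?_⟩⟩
    intro hy j hj
    have t1 : (i : ℝ) - 1 / 4 ≤ t * m := by
      have h1 := mul_le_mul_of_nonneg_right ht.1 hm0.le
      rw [sub_mul, div_mul_cancel₀ _ hm0.ne'] at h1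
      linarith
    have t2 : t * m ≤ (i : ℝ) + 1 / 4 := by
      have h1 := mul_le_mul_of_nonneg_right ht.2 hm0.le
      rw [add_mul, div_mul_cancel₀ _ hm0.ne'] at h1
      linarith
    constructor
    · intro n hn
      have h1 := mul_le_mul_of_nonneg_right hn.1 hm0.le
      have h2 := mul_le_mul_of_nonneg_right hn.2 hm0.le
      simp only [add_mul, div_mul_cancel₀ _ hm0.ne'] at h1 h2
      have a1 : ((j : ℤ) : ℝ) - 1 < (((i : ℤ) + n * m : ℤ) : ℝ) := by push_cast; linarith
      have a2 : (((i : ℤ) + n * m : ℤ) : ℝ) < ((j : ℤ) : ℝ) + 2 := by push_cast; linarith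
      have a3 : (j : ℤ) - 1 < (i : ℤ) + n * m := by exact_mod_cast a1
      have a4 : (i : ℤ) + n * m < (j : ℤ) + 2 := by exact_mod_cast a2
      have a5 : (i : ℤ) + n * m = j ∨ (i : ℤ) + n * m = j + 1 := by
        generalize (i : ℤ) + n * m = k at a3 a4
        omega
      rcases a5 with a5 | a5
      · rw [← sys_int hi hj a5]
        exact (hsub i hi hy).1
      · have h3 := (hsub i hi hy).2
        rcases sys_int' hi hj a5 with ⟨b1, b2⟩ | ⟨b1, b2⟩
        · have : pr i = j := by rw [← b2]; exact if_neg b1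
          rwa [this] at h3
        · have : pr i = j := by rw [← b2]; exact if_pos b1
          rwa [this] at h3
    · intro n hn
      have h1 := mul_le_mul_of_nonneg_right hn.1 hm0.le
      have h2 := mul_le_mul_of_nonneg_right hn.2 hm0.le
      simp only [add_mul, sub_mul, div_mul_cancel₀ _ hm0.ne'] at h1 h2
      have a1 : ((j : ℤ) : ℝ) - 1 < (((i : ℤ) + n * m : ℤ) : ℝ) := by push_cast; linarith
      have a2 : (((i : ℤ) + n * m : ℤ) : ℝ) < ((j : ℤ) : ℝ) + 1 := by push_cast; linarith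
      have a3 : (j : ℤ) - 1 < (i : ℤ) + n * m := by exact_mod_cast a1
      have a4 : (i : ℤ) + n * m < (j : ℤ) + 1 := by exact_mod_cast a2
      have a5 : (i : ℤ) + n * m = j := by
        generalize (i : ℤ) + n * m = k at a3 a4
        omega
      rw [← sys_int hi hj a5]
      exact hy

end Pool.Agent.ACB
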