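import Pool.Agent.ACB.Bal
import Pool.Agent.ACB.Sys
import Pool.Agent.ACB.PhV
import Pool.Agent.ACB.PhE
import Pool.Agent.ACB.Swp

/-!
# ACB/ClA: two circles close to the same closed curve are isotopic

PROOF.  `O` (and `m, η`) from `sys`.  Let `l, g` be embedded circles in `O` avoiding `Z`.
(0) `sweep` for `l` with `W = Z ∪ range g`: `l₁`, `Iso Z l l₁`, avoiding `W`, graph in `O` (`FHom.right`); so `hX` holds for `l₁` (vacuously: `l₁ t ≠ g t'`).
(1) By induction on `j ≤ m` there is an embedded circle `l_j` avoiding `Z`, in `O`, with `hX`, `Iso Z l₁ l_j` and `l_j t = g t` for all `i < j` and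
`t ∈ [i / m - η / 4, i / m + η / 4]`: `vertex_step` with `τ = j / m` (`η ≤ 1 / 16 < 1 / 2`); the earlier equalities are kept: `t ∈ [i / m - η / 4, i / m + η / 4]`, `i < j < m`, then
`t + n ∉ (j / m - η, j / m + η)` for all `n : ℤ` (`|i / m + n - j / m| ≥ 1 / m > 5 η / 4`, because `i + n m - j ≠ 0` is an integer).
(2) With `η' = η / 4`: by induction on `j ≤ m` there is an embedded circle `l_j` avoiding `Z`, in `O`, with `hX`, `Iso Z l l_j`, `l_j t = g t` for all `i < m`,
`t ∈ [i / m - η', i / m + η']` and for all `i < j`, `t ∈ [i / m, (i + 1) / m]`: `edge_step` with `τ = j / m`, `τ' = (j + 1) / m`, `η'` (`τ + 2 η' < τ'` since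
`2 η' ≤ 1 / (8 m)`; for `j + 1 = m` the equality near `τ' = 1` follows from the one near `0` by periodicity, `t - 1`).  All equalities are kept.
(3) For `j = m`: `l_m = g` on `[0, 1]`, hence everywhere.  So `Iso Z l g`.
-/

open scoped ContDiff Manifold Topology unitInterval
open Set Filter

namespace Pool.Agent.ACB

universe u
variable {N : Type u} [TopologicalSpace N] [ChartedSpace E4 N]

/-- the properties kept by the inductions -/
structure ClA_P (Z : Set N) (O : Set (ℝ × N)) (l₀ g l : ℝ → N) : Prop where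
  circ : Circ l
  off : ∀ t, l t ∉ Z
  mem : ∀ t, (t, l t) ∈ O
  hX : ∀ t t', l t = g t' → ∃ n : ℤ, t' = t + n
  iso : Iso Z l₀ l

theorem ClA_far {m : ℕ} (hm : 4 ≤ m) {η : ℝ} (hη : 0 < η) (hη' : η ≤ 1 / (4 * m)) {i j : ℕ} (hij : i < j) (hj : j < m)
    {t : ℝ} (ht : t ∈ Icc ((i : ℝ) / m - η / 4) ((i : ℝ) / m + η / 4)) (n : ℤ) :
    t + (n : ℝ) ∉ Ioo ((j : ℝ) / m - η) ((j : ℝ) / m + η) := by
  have hm0 : (0 : ℝ) < m := by
    have : (4 : ℝ) ≤ m := by exact_mod_cast hm
    linarith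
  have h4 : η * (4 * m) ≤ 1 := by
    rw [le_div_iff₀ (by positivity)] at hη'
    exact hη'
  rintro ⟨h1, h2⟩
  obtain ⟨h3, h5⟩ := ht
  -- the integer `i + n m - j` is not zero
  have hne : (i : ℤ) + n * m - j ≠ 0 := by
    intro h
    have hi : (i : ℤ) < j := by exact_mod_cast hij
    have hj' : (j : ℤ) < m := by exact_mod_cast hj
    have h6 : n * m = (j : ℤ) - i := by linarith
    have hmz : (0 : ℤ) < m := by omega
    have h7 : 0 < n * m := by rw [h6]; omega
    have h8 : 0 < n := by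
      by_contra hn
      push Not at hn
      have : n * m ≤ 0 := mul_nonpos_of_nonpos_of_nonneg hn hmz.le
      omega
    have h9 : (m : ℤ) ≤ n * m := by nlinarith
    omega
  have h10 : (1 : ℝ) ≤ |(i : ℝ) + n * m - j| := by
    have : (1 : ℤ) ≤ |(i : ℤ) + n * m - j| := Int.one_le_abs hne
    exact_mod_cast this
  have h11 : |(i : ℝ) + n * m - j| ≤ 5 / 4 * η * m := by
    have e : (i : ℝ) + n * m - j = ((i : ℝ) / m + n - (j : ℝ) / m) * m := by
      field_simp
    rw [e, abs_mul, abs_of_pos hm0]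
    refine mul_le_mul_of_nonneg_right ?_ hm0.le
    rw [abs_le]
    constructor <;> linarith
  nlinarith

theorem close_iso [T2Space N] [IsManifold (𝓡 4) ∞ N] {h : ℝ → N} (hh : Continuous h)
    (hper : ∀ t, h (t + 1) = h t) :
    ∃ O : Set (ℝ × N), OpnS O ∧ (∀ t, (t, h t) ∈ O) ∧ ∀ Z : Set N, Obst Z → ∀ l g : ℝ → N, Circ l → Circ g →
      (∀ t, l t ∉ Z) → (∀ t, g t ∉ Z) → (∀ t, (t, l t) ∈ O) → (∀ t, (t, g t) ∈ O) → Iso Z l g := by
  obtain ⟨m, η, O, hm, hη, hη', hO, hhO, hE, hV⟩ := sys hh hper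
  refine ⟨O, hO, hhO, fun Z hZ l g hl hg hlZ hgZ hlO hgO => ?_⟩
  have hmR : (4 : ℝ) ≤ m := by exact_mod_cast hm
  have hm0 : (0 : ℝ) < m := by linarith
  have h4 : η * (4 * m) ≤ 1 := by
    have := hη'
    rw [le_div_iff₀ (by positivity)] at this
    exact this
  have hη2 : η < 1 / 2 := by nlinarith
  -- step 0
  have s0 : ∃ l₁, ClA_P Z O l g l₁ := by
    obtain ⟨l₁, c1, c2, c3, c4⟩ := sweep hl.toSCirc (hZ.union (Obst.range hg.toSCirc)) hZ
      subset_union_left hO hlO
    exact ⟨l₁, c1, fun t ht => c2 t (Or.inl ht), fun t => c3.right t,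
      fun t t' htt => absurd (Or.inr ⟨t', htt.symm⟩) (c2 t), c4 hl hlZ⟩
  -- step 1
  have s1 : ∀ j ≤ m, ∃ l', ClA_P Z O l g l' ∧
      ∀ i < j, ∀ t ∈ Icc ((i : ℝ) / m - η / 4) ((i : ℝ) / m + η / 4), l' t = g t := by
    intro j
    induction j with
    | zero =>
      intro _
      obtain ⟨l₁, h1⟩ := s0
      exact ⟨l₁, h1, fun i hi => absurd hi (Nat.not_lt_zero i)⟩
    | succ j ih =>
      intro hj
      obtain ⟨l₁, h1, h2⟩ := ih (by omega)
      obtain ⟨e, e', he, heO⟩ := hV j (by omega)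
      obtain ⟨l', d1, d2, d3, d4, d5, d6, d7⟩ := vertex_step hZ h1.circ hg h1.off hgZ h1.hX hO h1.mem hgO he hη hη2 heO
      refine ⟨l', ⟨d1, d2, d3, d4, h1.iso.trans d5⟩, fun i hi t ht => ?_⟩
      rcases Nat.lt_succ_iff_lt_or_eq.1 hi with hi' | rfl
      · rw [d7 t fun n => ClA_far hm hη hη' hi' (by omega) ht n]
        exact h2 i hi' t ht
      · exact d6 t ht
  -- step 2
  have s2 : ∀ j ≤ m, ∃ l', ClA_P Z O l g l' ∧
      (∀ i < m, ∀ t ∈ Icc ((i : ℝ) / m - η / 4) ((i : ℝ) / m + η / 4), l' t = g t) ∧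
      ∀ i < j, ∀ t ∈ Icc ((i : ℝ) / m) (((i : ℝ) + 1) / m), l' t = g t := by
    intro j
    induction j with
    | zero =>
      intro _
      obtain ⟨l₁, h1, h2⟩ := s1 m le_rfl
      exact ⟨l₁, h1, h2, fun i hi => absurd hi (Nat.not_lt_zero i)⟩
    | succ j ih =>
      intro hj
      obtain ⟨l₁, h1, h2, h3⟩ := ih (by omega)
      obtain ⟨b, b', hb, hbO⟩ := hE j (by omega)
      have hτ' : ∀ t ∈ Icc (((j : ℝ) + 1) / m - η / 4) (((j : ℝ) + 1) / m + η / 4), l₁ t = g t := by
        intro t ht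
        rcases Nat.lt_or_ge (j + 1) m with h5 | h5
        · have := h2 (j + 1) h5 t (by push_cast; exact ht)
          exact this
        · have h6 : j + 1 = m := by omega
          have h7 : ((j : ℝ) + 1) / m = 1 := by
            have : ((j : ℝ) + 1) = m := by exact_mod_cast h6
            rw [this, div_self hm0.ne']
          rw [h7] at ht
          have h8 := h2 0 (by omega) (t - 1) (by
            obtain ⟨t1, t2⟩ := ht
            constructor
            · simp only [Nat.cast_zero, zero_div]; linarith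
            · simp only [Nat.cast_zero, zero_div]; linarith)
          have h9 := h1.circ.per (t - 1)
          have h10 := hg.per (t - 1)
          rw [sub_add_cancel] at h9 h10
          rw [h9, h10, h8]
      have e1 : ((j : ℝ) + 1) / m = (j : ℝ) / m + 1 / m := by ring
      have e2 : η ≤ 1 / m / 4 := by
        have : (1 : ℝ) / (4 * m) = 1 / m / 4 := by field_simp
        rw [← this]; exact hη'
      have e3 : (1 : ℝ) / m < 1 := by
        rw [div_lt_one hm0]; linarith
      have e4 : (0 : ℝ) < 1 / m := by positivity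
      obtain ⟨l', d1, d2, d3, d4, d5, d6, d7⟩ := edge_step (τ := (j : ℝ) / m) (τ' := ((j : ℝ) + 1) / m) (η := η / 4)
        hZ h1.circ hg h1.off hgZ h1.hX h1.mem hgO hb
        (by rw [e1]; linarith) (by rw [e1]; linarith) (by positivity) hbO
        (fun t ht => h2 j (by omega) t ht) hτ'
      refine ⟨l', ⟨d1, d2, d3, d4, h1.iso.trans d5⟩, fun i hi t ht => d7 t (h2 i hi t ht), fun i hi t ht => ?_⟩
      rcases Nat.lt_succ_iff_lt_or_eq.1 hi with hi' | rfl
      · exact d7 t (h3 i hi' t ht)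
      · exact d6 t ht
  obtain ⟨l', h1, -, h3⟩ := s2 m le_rfl
  have h5 : ∀ t ∈ Ico (0 : ℝ) 1, l' t = g t := by
    rintro t ⟨ht, ht'⟩
    have hf : 0 ≤ t * m := by positivity
    have hk := Nat.floor_le hf
    have hk' := Nat.lt_floor_add_one (t * m)
    refine h3 ⌊t * m⌋₊ ?_ t ⟨?_, ?_⟩
    · rw [Nat.floor_lt hf]
      nlinarith
    · rw [div_le_iff₀ hm0]; exact hk
    · rw [le_div_iff₀ hm0]; exact hk'.le
  have h6 : l' = g := by
    funext t
    have p1 : Function.Periodic l' (1 : ℝ) := fun t => h1.circ.per t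
    have p2 : Function.Periodic g (1 : ℝ) := fun t => hg.per t
    have q1 := p1.sub_int_mul_eq (x := t) ⌊t⌋
    have q2 := p2.sub_int_mul_eq (x := t) ⌊t⌋
    rw [mul_one] at q1 q2
    rw [← q1, ← q2]
    exact h5 _ ⟨sub_nonneg.2 (Int.floor_le t), by have := Int.lt_floor_add_one t; linarith⟩
  rw [← h6]
  exact h1.iso

end Pool.Agent.ACB
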