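import Pool.Agent.ACB.Bal
import Pool.Agent.ACB.MdfH
import Pool.Agent.ACB.Cts

/-!
# ACB/Smt: smoothing in one ball

PROOF.  `γ = b' ∘ g` is continuous on `[p, q]`.  Let `δ` be from `room`, `M ≥ 1` a bound of `β`.  By the theorem of Weierstrass for each coordinate
(`exists_polynomial_near_of_continuousOn`; `EuclideanSpace` norm: `‖y‖ ≤ 2 * max |y i|`, or sum of coordinates) there is a smooth `P : ℝ → E4` with
`‖P t - γ t‖ < δ / M` on `[p, q]`.  `K s t = γ t + (s * β t) • (P t - γ t)`, `g' = mdf b p q (K 1) g`.  `mdf_fhom` gives `FHom O g g'` (which contains the continuity and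
the periodicity of `g'`: for `Continuous g'` take `s = 1` in the homotopy, or the lemmas of `Mdf`).
`ContMDiffAt g t → ContMDiffAt g' t`: `t = t₀ + n`; if `t₀ ∈ (p, q)` then near `t` `g' = b (K 1 (· - n))`, `γ` is smooth at `t₀` (`coord_smooth`, `g (· + n) = g`), so
`K 1` is smooth at `t₀`; otherwise `g' = g` near `t` (`mdf_near_out` with `p', q'` from `hβ.supp`).
Where `β = 1` near `t + n =: t₀` (so `t₀ ∈ (p, q)`): `K 1 = P` near `t₀`.
-/

open scoped ContDiff Manifold Topology unitInterval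
open Set Filter

namespace Pool.Agent.ACB

universe u
variable {N : Type u} [TopologicalSpace N] [ChartedSpace E4 N]

/-- smooth approximation of a continuous curve in `E4` -/
theorem smt_approx {p q : ℝ} {γ : ℝ → E4} (hγ : ContinuousOn γ (Icc p q)) {ε : ℝ} (hε : 0 < ε) :
    ∃ P : ℝ → E4, ContDiff ℝ ∞ P ∧ ∀ t ∈ Icc p q, ‖P t - γ t‖ < ε := by
  have h1 : ∀ i : Fin 4, ∃ f : Polynomial ℝ, ∀ x ∈ Icc p q, |f.eval x - γ x i| < ε / 4 := by
    intro i
    refine exists_polynomial_near_of_continuousOn p q (fun t => γ t i) ?_ (ε / 4) (by positivity)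
    exact (EuclideanSpace.proj (𝕜 := ℝ) i).continuous.comp_continuousOn hγ
  choose f hf using h1
  refine ⟨fun t => WithLp.toLp 2 fun i => (f i).eval t, ?_, ?_⟩
  · rw [contDiff_euclidean]
    intro i
    have h6 := Polynomial.contDiff_aeval (𝕜 := ℝ) (f i) ∞
    simp only [Polynomial.coe_aeval_eq_eval] at h6
    exact h6
  · intro t ht
    rw [EuclideanSpace.norm_eq]
    have h2 : ∑ i : Fin 4, ‖(WithLp.toLp 2 (fun i => (f i).eval t) - γ t : E4) i‖ ^ 2 ≤ ∑ i : Fin 4, (ε / 4) ^ 2 := by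
      refine Finset.sum_le_sum fun i _ => ?_
      have h3 := hf i t ht
      have h4 : ‖(WithLp.toLp 2 (fun i => (f i).eval t) - γ t : E4) i‖ = |(f i).eval t - γ t i| := rfl
      rw [h4]
      exact pow_le_pow_left₀ (abs_nonneg _) h3.le 2
    have h5 : ∑ i : Fin 4, (ε / 4) ^ 2 = (ε / 2) ^ 2 := by
      simp
      ring
    rw [h5] at h2
    calc √(∑ i : Fin 4, ‖(WithLp.toLp 2 (fun i => (f i).eval t) - γ t : E4) i‖ ^ 2) ≤ √((ε / 2) ^ 2) := Real.sqrt_le_sqrt h2
      _ = ε / 2 := Real.sqrt_sq (by positivity)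
      _ < ε := by linarith

/-- the two kinds of points -/
theorem smt_dich {p q p' q' : ℝ} (h1 : p < p') (h3 : q' < q) (hq : q < p + 1) (t : ℝ) :
    ∃ (n : ℤ) (t₀ : ℝ), t = t₀ + n ∧ (t₀ ∈ Ioo p q ∨ t₀ ∈ Ioo q' (p' + 1)) := by
  obtain ⟨n, t₀, ht, h | h⟩ := dich p q t
  · rcases h.1.eq_or_lt with he | hl
    · refine ⟨n - 1, t₀ + 1, by push_cast; rw [ht]; ring, Or.inr ⟨?_, ?_⟩⟩
      · linarith
      · linarith
    · exact ⟨n, t₀, ht, Or.inl ⟨hl, h.2⟩⟩
  · exact ⟨n, t₀, ht, Or.inr ⟨by linarith [h.1], by linarith [h.2]⟩⟩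

theorem smooth_step [T2Space N] [IsManifold (𝓡 4) ∞ N] {g : ℝ → N} (hg : Continuous g)
    (hper : ∀ t, g (t + 1) = g t) {b : E4 → N} {b' : N → E4}
    (hb : IsBall b b') {p q : ℝ} (hq : q < p + 1) (hgb : ∀ t ∈ Icc p q, g t ∈ range b) {β : ℝ → ℝ}
    (hβ : Cut β p q) {O : Set (ℝ × N)} (hO : OpnS O) (hgO : ∀ t, (t, g t) ∈ O) :
    ∃ g' : ℝ → N, Continuous g' ∧ (∀ t, g' (t + 1) = g' t) ∧ FHom O g g' ∧
      (∀ t, ContMDiffAt 𝓘(ℝ, ℝ) (𝓡 4) ∞ g t → ContMDiffAt 𝓘(ℝ, ℝ) (𝓡 4) ∞ g' t) ∧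
      ∀ (t : ℝ) (n : ℤ), (∀ᶠ u in 𝓝 (t + n), β u = 1) → ContMDiffAt 𝓘(ℝ, ℝ) (𝓡 4) ∞ g' t := by
  obtain ⟨p', q', hp', hpq', hq', hsupp⟩ := hβ.supp
  have hγ : ContinuousOn (fun t => b' (g t)) (Icc p q) := hb.contOn.comp hg.continuousOn hgb
  obtain ⟨δ, hδ, hroom⟩ := room hO.isOpen hb hg hgb (fun t _ => hgO t)
  obtain ⟨M, hM1, hM⟩ : ∃ M : ℝ, 1 ≤ M ∧ ∀ t ∈ Icc p q, β t ≤ M := by
    obtain ⟨M, hM⟩ := (isCompact_Icc (a := p) (b := q)).bddAbove_image (f := β) hβ.smooth.continuous.continuousOn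
    refine ⟨max M 1, le_max_right _ _, fun t ht => le_max_of_le_left (hM ⟨t, ht, rfl⟩)⟩
  have hM0 : 0 < M := by linarith
  obtain ⟨P, hP, hPγ⟩ := smt_approx hγ (div_pos hδ hM0)
  set K : ℝ → ℝ → E4 := fun s t => b' (g t) + (s * β t) • (P t - b' (g t)) with hK
  have hz : ∀ t, (t ≤ p' ∨ q' ≤ t) → β t = 0 := by
    intro t ht
    by_contra h0
    have := hsupp t h0
    rcases ht with h | h
    · linarith [this.1]
    · linarith [this.2]
  have hend : ∀ s ∈ Icc (0 : ℝ) 1, ∀ t ∈ Icc p q, (t ≤ p' ∨ q' ≤ t) → b (K s t) = g t := by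
    intro s _ t ht h
    simp only [hK]
    rw [hz t h, mul_zero, zero_smul, add_zero, hb.right_inv (hgb t ht)]
  have hfh : FHom O g (mdf b p q (K 1) g) := by
    refine mdf_fhom hO hb hg hper hp' hpq' hq' hq ?_ hend ?_ ?_ hgO
    · have hγ2 : ContinuousOn (fun x : ℝ × ℝ => b' (g x.2)) (Icc (0 : ℝ) 1 ×ˢ Icc p q) :=
        hγ.comp continuous_snd.continuousOn fun x hx => hx.2
      have hγ3 : ContinuousOn (fun x : ℝ × ℝ => P x.2 - b' (g x.2)) (Icc (0 : ℝ) 1 ×ˢ Icc p q) :=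
        (hP.continuous.comp continuous_snd).continuousOn.sub hγ2
      have hγ4 : ContinuousOn (fun x : ℝ × ℝ => x.1 * β x.2) (Icc (0 : ℝ) 1 ×ˢ Icc p q) :=
        (continuous_fst.mul (hβ.smooth.continuous.comp continuous_snd)).continuousOn
      exact hγ2.add (hγ4.smul hγ3)
    · intro t ht
      simp only [hK]
      rw [zero_mul, zero_smul, add_zero, hb.right_inv (hgb t ht)]
    · intro s hs t ht
      refine hroom t ht _ ?_
      simp only [hK]
      rw [add_sub_cancel_left, norm_smul, Real.norm_eq_abs, abs_of_nonneg (mul_nonneg hs.1 (hβ.nonneg t))]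
      have h1 : s * β t ≤ M := by
        calc s * β t ≤ 1 * β t := mul_le_mul_of_nonneg_right hs.2 (hβ.nonneg t)
          _ = β t := one_mul _
          _ ≤ M := hM t ht
      calc s * β t * ‖P t - b' (g t)‖ ≤ M * ‖P t - b' (g t)‖ := mul_le_mul_of_nonneg_right h1 (norm_nonneg _)
        _ < M * (δ / M) := mul_lt_mul_of_pos_left (hPγ t ht) hM0
        _ = δ := by field_simp
  have hcont : Continuous (mdf b p q (K 1) g) := by
    obtain ⟨H, hH, _, _, hH1, _⟩ := hfh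
    rw [← hH1]
    exact hH.comp (continuous_const.prodMk continuous_id)
  refine ⟨mdf b p q (K 1) g, hcont, fun t => mdf_per hper t, hfh, ?_, ?_⟩
  · intro t ht
    obtain ⟨n, t₀, rfl, h | h⟩ := smt_dich hp' hq' hq t
    · refine ContMDiffAt.congr_of_eventuallyEq ?_ (mdf_near_in hq n h)
      have h1 : ContMDiffAt 𝓘(ℝ, ℝ) (𝓡 4) ∞ g t₀ := by
        have h2 : g = g ∘ fun u => u + (n : ℝ) := by
          funext u
          exact (per_int hper u n).symm
        rw [h2]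
        refine ContMDiffAt.comp t₀ ht ?_
        exact (contDiff_id.add contDiff_const).contMDiff.contMDiffAt
      have h3 : ContDiffAt ℝ ∞ (fun u => b' (g u)) t₀ := coord_smooth h1 hb (hgb t₀ ⟨h.1.le, h.2.le⟩)
      have h4 : ContDiffAt ℝ ∞ (K 1) t₀ := by
        have h6 : ContDiffAt ℝ ∞ (fun t => P t - b' (g t)) t₀ := hP.contDiffAt.sub h3
        have h7 : ContDiffAt ℝ ∞ (fun t => 1 * β t) t₀ := contDiffAt_const.mul hβ.smooth.contDiffAt
        exact h3.add (h7.smul h6)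
      have h5 : ContDiffAt ℝ ∞ (fun u : ℝ => K 1 (u - n)) (t₀ + n) := by
        refine ContDiffAt.comp (t₀ + n : ℝ) (g := K 1) (f := fun u : ℝ => u - n) ?_ (contDiffAt_id.sub contDiffAt_const)
        rw [add_sub_cancel_right]
        exact h4
      exact ContMDiffAt.comp (t₀ + n : ℝ) (g := b) hb.smooth.contMDiffAt h5.contMDiffAt
    · refine ContMDiffAt.congr_of_eventuallyEq ht (mdf_near_out hper hp' hpq' hq' hq ?_ n h)
      intro u hu hu'
      exact hend 1 ⟨zero_le_one, le_rfl⟩ u ⟨hu.1, hu.2.le⟩ hu'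
  · intro t n h1
    have h2 : β (t + n) = 1 := h1.self_of_nhds
    have h3 : t + n ∈ Ioo p' q' := hsupp _ (by rw [h2]; exact one_ne_zero)
    have h4 : t + n ∈ Ioo p q := ⟨by linarith [h3.1], by linarith [h3.2]⟩
    have h5 := mdf_near_in (b := b) (k := K 1) (g := g) hq (-n) h4
    have h6 : t + n + ((-n : ℤ) : ℝ) = t := by push_cast; ring
    rw [h6] at h5
    refine ContMDiffAt.congr_of_eventuallyEq ?_ h5
    have h7 : ContDiffAt ℝ ∞ (K 1) (t + n) := by
      refine hP.contDiffAt.congr_of_eventuallyEq ?_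
      filter_upwards [h1] with u hu
      simp only [hK]
      rw [hu, mul_one, one_smul]
      abel
    have h8 : ContDiffAt ℝ ∞ (fun u : ℝ => K 1 (u - ((-n : ℤ) : ℝ))) t := by
      refine ContDiffAt.comp t (g := K 1) (f := fun u : ℝ => u - ((-n : ℤ) : ℝ)) ?_ (contDiffAt_id.sub contDiffAt_const)
      have h9 : t - ((-n : ℤ) : ℝ) = t + n := by push_cast; ring
      rw [h9]
      exact h7
    exact ContMDiffAt.comp t (g := b) hb.smooth.contMDiffAt h8.contMDiffAt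

end Pool.Agent.ACB
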