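import Pool.Agent.ACB.Bal
import Pool.Agent.ACB.Smt
import Pool.Agent.ACB.Swp

/-!
# ACB/Smo: smoothing of closed curves; closed curves can be put in general position

PROOF of `smoothing`.  `m, O'` from `cover_opn`; `β i`, `i < m`, from `cut_plateau` with `p = (i - 1) / m`, `p₀ = (i - 1/2) / m`, `q₀ = (i + 3/2) / m`,
`q = (i + 2) / m`.  By induction on `j ≤ m` there is a continuous periodic `g_j`, `FHom O' h g_j`, smooth at every `t` for which there are `i < j` and `n : ℤ` with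
`t + n ∈ [i / m, (i + 1) / m]` (`smooth_step`; `β i = 1` near such a point).  For `j = m` this is every `t`.
PROOF of `closed_curve`.  `smoothing`, then `sweep` with `Z = ∅`, `FHom.trans`.
-/

open scoped ContDiff Manifold Topology unitInterval
open Set Filter

namespace Pool.Agent.ACB

universe u
variable {N : Type u} [TopologicalSpace N] [ChartedSpace E4 N]

theorem smoothing [T2Space N] [IsManifold (𝓡 4) ∞ N] {h : ℝ → N} (hh : Continuous h)
    (hper : ∀ t, h (t + 1) = h t) {O : Set (ℝ × N)} (hO : OpnS O) (hhO : ∀ t, (t, h t) ∈ O) :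
    ∃ g : ℝ → N, SCirc g ∧ FHom O h g := by
  obtain ⟨m, O', hm, hO', hsub, hgr, hball⟩ := cover_opn hh hper hO hhO
  have hmR : (4 : ℝ) ≤ m := by exact_mod_cast hm
  have hm0 : (0 : ℝ) < m := by linarith
  have key : ∀ j ≤ m, ∃ g : ℝ → N, Continuous g ∧ (∀ t, g (t + 1) = g t) ∧ FHom O' h g ∧
      ∀ t : ℝ, (∃ i < j, ∃ n : ℤ, t + (n : ℝ) ∈ Icc ((i : ℝ) / m) (((i : ℝ) + 1) / m)) →
        ContMDiffAt 𝓘(ℝ, ℝ) (𝓡 4) ∞ g t := by
    intro j
    induction j with
    | zero =>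
      intro _
      exact ⟨h, hh, hper, FHom.refl hh hper hgr, fun t ⟨i, hi, _⟩ => absurd hi (Nat.not_lt_zero i)⟩
    | succ j ih =>
      intro hj
      obtain ⟨g, hg, hgper, hfh, hsm⟩ := ih (Nat.le_of_succ_le hj)
      obtain ⟨b, b', hb, hbr⟩ := hball j (Nat.lt_of_succ_le hj)
      have h1 : ((j : ℝ) - 1) / m < ((j : ℝ) - 1 / 2) / m :=
        div_lt_div_of_pos_right (by linarith) hm0
      have h2 : ((j : ℝ) - 1 / 2) / m < ((j : ℝ) + 3 / 2) / m :=
        div_lt_div_of_pos_right (by linarith) hm0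
      have h3 : ((j : ℝ) + 3 / 2) / m < ((j : ℝ) + 2) / m :=
        div_lt_div_of_pos_right (by linarith) hm0
      obtain ⟨β, hβ, hβ1, -⟩ := cut_plateau h1 h2 h3
      have hq : ((j : ℝ) + 2) / m < ((j : ℝ) - 1) / m + 1 := by
        rw [div_add_one hm0.ne', div_lt_div_iff_of_pos_right hm0]
        linarith
      obtain ⟨g', hg', hgper', hfh', hsm', hsm1⟩ := smooth_step hg hgper hb hq
        (fun t ht => hbr t ht _ (hfh.right t)) hβ hO' (fun t => hfh.right t)
      refine ⟨g', hg', hgper', hfh.trans hfh', ?_⟩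
      rintro t ⟨i, hi, n, hn⟩
      rcases Nat.lt_succ_iff_lt_or_eq.mp hi with hi | hi
      · exact hsm' t (hsm t ⟨i, hi, n, hn⟩)
      · subst hi
        refine hsm1 t n ?_
        have h4 : t + (n : ℝ) ∈ Ioo (((i : ℝ) - 1 / 2) / m) (((i : ℝ) + 3 / 2) / m) := by
          constructor
          · exact lt_of_lt_of_le (div_lt_div_of_pos_right (by linarith) hm0) hn.1
          · exact lt_of_le_of_lt hn.2 (div_lt_div_of_pos_right (by linarith) hm0)
        filter_upwards [Ioo_mem_nhds h4.1 h4.2] with u hu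
        exact hβ1 u ⟨hu.1.le, hu.2.le⟩
  obtain ⟨g, -, hgper, hfh, hsm⟩ := key m le_rfl
  refine ⟨g, ⟨fun t => hsm t ?_, hgper⟩, hfh.mono hsub⟩
  have hf0 : 0 ≤ Int.fract t := Int.fract_nonneg t
  have hf1 : Int.fract t < 1 := Int.fract_lt_one t
  have hx0 : 0 ≤ Int.fract t * m := mul_nonneg hf0 hm0.le
  refine ⟨⌊Int.fract t * m⌋₊, ?_, -⌊t⌋, ?_⟩
  · rw [Nat.floor_lt hx0]
    nlinarith
  · have e : t + ((-⌊t⌋ : ℤ) : ℝ) = Int.fract t := by
      rw [Int.cast_neg, ← sub_eq_add_neg]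
      rfl
    rw [e]
    constructor
    · rw [div_le_iff₀ hm0]
      exact Nat.floor_le hx0
    · rw [le_div_iff₀ hm0]
      exact (Nat.lt_floor_add_one _).le

/-- **general position**: a closed curve is homotopic, in any neighbourhood of its graph, to an embedded circle avoiding `W` -/
theorem closed_curve [T2Space N] [IsManifold (𝓡 4) ∞ N] {h : ℝ → N} (hh : Continuous h)
    (hper : ∀ t, h (t + 1) = h t) {W : Set N} (hW : Obst W) {O : Set (ℝ × N)} (hO : OpnS O)
    (hhO : ∀ t, (t, h t) ∈ O) : ∃ c : ℝ → N, Circ c ∧ (∀ t, c t ∉ W) ∧ FHom O h c := by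
  obtain ⟨g, hg, hfh⟩ := smoothing hh hper hO hhO
  have hZ : Obst (∅ : Set N) :=
    ⟨isClosed_empty, 0, fun i => i.elim0, fun i => i.elim0, empty_subset _⟩
  obtain ⟨c, hc, hcW, hfc, -⟩ := sweep hg hW hZ (empty_subset W) hO (fun t => hfh.right t)
  exact ⟨c, hc, hcW, hfh.trans hfc⟩

end Pool.Agent.ACB
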