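import Pool.Agent.ACB.Bal
import Pool.Agent.ACB.ClA
import Pool.Agent.ACB.Smo

/-!
# ACB/Gpo: homotopic embedded circles are isotopic

PROOF.  Let `H` be the homotopy.  For `s ∈ ℝ` let `O_s` be the open set of `close_iso` for `H s`.  `closed_curve` (with `W = Z`, `O = O_s`) gives an embedded circle
`c_s` in `O_s` avoiding `Z`.  Claim: `Iso Z (c_s) (c_s')` for all `s, s'`.  By `isPreconnected_univ.induction₂` (as in `ISO.steps`; transitivity `Iso.trans`, symmetry
`Iso.symm`) it suffices: for every `s₀`, for all `s` near `s₀`, `Iso Z (c_s₀) (c_s)`.  By `graph_near` for `s` near `s₀` the graph of `H s` is in `O_s₀`.  `closed_curve` for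
`H s` with `O = O_s ∩ O_s₀` (`OpnS.inter`) gives an embedded circle `d` avoiding `Z` in `O_s ∩ O_s₀`; so `Iso Z (c_s₀) d` and `Iso Z d (c_s)`.
Finally `c = H 0` has its graph in `O_0`, so `Iso Z c (c_0)`, and `Iso Z (c_1) c'`.
-/

open scoped ContDiff Manifold Topology unitInterval
open Set Filter

namespace Pool.Agent.ACB

universe u
variable {N : Type u} [TopologicalSpace N] [ChartedSpace E4 N]

/-- **homotopic embedded circles in a 4-manifold are ambient isotopic**, in the complement of other circles -/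
theorem gp_iso [T2Space N] [IsManifold (𝓡 4) ∞ N] {Z : Set N} (hZ : Obst Z) {c c' : ℝ → N} (hc : Circ c)
    (hc' : Circ c') (hcZ : ∀ t, c t ∉ Z) (hcZ' : ∀ t, c' t ∉ Z) (h : FHom univ c c') : Iso Z c c' := by
  obtain ⟨H, hH, hper, h0, h1, -⟩ := h
  have hHs : ∀ s, Continuous (H s) := fun s => hH.comp (Continuous.prodMk continuous_const continuous_id)
  have hO : ∀ s, ∃ O : Set (ℝ × N), OpnS O ∧ (∀ t, (t, H s t) ∈ O) ∧ ∀ Z : Set N, Obst Z → ∀ l g : ℝ → N,
      Circ l → Circ g → (∀ t, l t ∉ Z) → (∀ t, g t ∉ Z) → (∀ t, (t, l t) ∈ O) → (∀ t, (t, g t) ∈ O) →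
      Iso Z l g := fun s => close_iso (hHs s) (hper s)
  choose O hO1 hO2 hO3 using hO
  have hc0 : ∀ s, ∃ c, Circ c ∧ (∀ t, c t ∉ Z) ∧ FHom (O s) (H s) c := fun s =>
    closed_curve (hHs s) (hper s) hZ (hO1 s) (hO2 s)
  choose e he1 he2 he3 using hc0
  have key : ∀ s₀, ∀ᶠ s in 𝓝 s₀, Iso Z (e s₀) (e s) := by
    intro s₀
    filter_upwards [graph_near (hO1 s₀) hH hper (hO2 s₀)] with s hs
    obtain ⟨d, d1, d2, d3⟩ := closed_curve (hHs s) (hper s) hZ ((hO1 s).inter (hO1 s₀))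
      (fun t => ⟨hO2 s t, hs t⟩)
    exact (hO3 s₀ Z hZ _ _ (he1 s₀) d1 (he2 s₀) d2 (fun t => (he3 s₀).right t) (fun t => (d3.right t).2)).trans
      (hO3 s Z hZ _ _ d1 (he1 s) d2 (he2 s) (fun t => (d3.right t).1) (fun t => (he3 s).right t))
  have conn : ∀ s s', Iso Z (e s) (e s') := by
    intro s s'
    refine isPreconnected_univ.induction₂ (fun a b => Iso Z (e a) (e b)) ?_ ?_ ?_ (mem_univ s) (mem_univ s')
    · intro x _
      rw [nhdsWithin_univ]
      exact key x
    · intro x y z _ _ _ h h'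
      exact h.trans h'
    · intro x y _ _ h
      exact h.symm
  have f0 : Iso Z c (e 0) := hO3 0 Z hZ _ _ hc (he1 0) hcZ (he2 0)
    (fun t => by have := hO2 0 t; rwa [h0] at this) (fun t => (he3 0).right t)
  have f1 : Iso Z (e 1) c' := hO3 1 Z hZ _ _ (he1 1) hc' (he2 1) hcZ'
    (fun t => (he3 1).right t) (fun t => by have := hO2 1 t; rwa [h1] at this)
  exact (f0.trans (conn 0 1)).trans f1

end Pool.Agent.ACB
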