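import Pool.Agent.ACB.Bal
import Pool.Agent.ACB.Tbe
import Pool.Agent.CSG.LDa

/-!
# ACB/Srg: elementary properties of surgery

PROOFS.  `isSurg_germ`: radius `ε' = min` of `ε` and the finitely many `δ i` (`Finset.univ.inf'`, or induction on `n`; for `n = 0` any radius).  The maps `A, Q` are the same
(`Surg.mono`); cores are equal (`v = 0`), so `Off` is the same; `κ' i = κ i` near the points of the tube of radius `ε'` (`IsLocalDiffeomorphAt` is local: congruence on a neighbourhood).
`isSurg_diffeo`: `A' = A ∘ F.symm`, `Q' = Q`; `Off (F ∘ κ) p ↔ Off κ (F.symm p)`.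
`isSurg_diffeo_X`: compose `A, Q` with `G`.
`isSurg_swap`: `Q' i = Q (1 - i)` (`![Q 1, Q 0]`), `Off` is symmetric; `Fin` cases.
`isSurg_rev`: `κ₁' (l, v) = κ₁ (- l, v)`; thick: reparametrisation; `A' = A`, `Q' 0 (z, v) = Q 0 (conj z, v)`: `conj (r * ex l) = r * ex (- l)`; `Q' 1 = Q 1`.
`isSurg_rot`: `κ₁' (l, v) = κ₁ (l, O v)`, `O` a linear isometry: `A' = A`, `Q' 0 (z, v) = Q 0 (z, O v)`: `O` induces a diffeomorphism of `S2`.
`off_iff`: unfold.
-/

open scoped ContDiff Manifold Topology unitInterval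
open Set Filter

namespace Pool.Agent.ACB

universe u
variable {N : Type u} [TopologicalSpace N] [ChartedSpace E4 N]

theorem srg_germ {ι : Type} [Finite ι] {κ κ' : ι → ℝ × E3 → N} {X : Type*} [TopologicalSpace X] [ChartedSpace E4 X]
    (h : IsSurg κ X) (hg : ∀ i, ∃ δ > 0, ∀ (l : ℝ) (v : E3), ‖v‖ < δ → κ' i (l, v) = κ i (l, v)) : IsSurg κ' X := by
  obtain ⟨ε, hT, ⟨S⟩⟩ := h
  choose δ hδ0 hδ using hg
  by_cases hne : Nonempty ι
  · obtain ⟨i₀⟩ := hne
    have hε : 0 < ε := (hT.thick i₀).pos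
    obtain ⟨ε', h0, h1, h2⟩ : ∃ ε' : ℝ, 0 < ε' ∧ ε' ≤ ε ∧ ∀ i, ε' ≤ δ i := by
      have e1 : ∀ᶠ r in 𝓝[>] (0 : ℝ), ∀ i, r ≤ δ i := by
        rw [Filter.eventually_all]
        intro i
        filter_upwards [Ioo_mem_nhdsGT (hδ0 i)] with r hr
        exact hr.2.le
      have e2 : ∀ᶠ r in 𝓝[>] (0 : ℝ), 0 < r ∧ r ≤ ε := by
        filter_upwards [Ioo_mem_nhdsGT hε] with r hr
        exact ⟨hr.1, hr.2.le⟩
      obtain ⟨r, hr1, hr2⟩ := (e1.and e2).exists
      exact ⟨r, hr2.1, hr2.2, hr1⟩
    have hT' := hT.mono h0 h1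
    have key : ∀ i (l : ℝ) (v : E3), ‖v‖ < ε' → κ' i (l, v) = κ i (l, v) := fun i l v hv =>
      hδ i l v (lt_of_lt_of_le hv (h2 i))
    have key0 : ∀ i (l : ℝ), κ' i (l, 0) = κ i (l, 0) := fun i l => key i l 0 (by rw [norm_zero]; exact h0)
    have hoff : ∀ p, Off κ' p ↔ Off κ p := by
      intro p
      constructor
      · intro hp i l
        rw [← key0]
        exact hp i l
      · intro hp i l
        rw [key0]
        exact hp i l
    refine ⟨ε', ⟨fun i => ⟨h0, ?_, ?_, ?_⟩, ?_⟩, ⟨?_⟩⟩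
    · intro l v hv
      rw [key i _ _ hv, key i _ _ hv, (hT'.thick i).per l v hv]
    · intro l v hv
      refine CSG.ld_congr ((hT'.thick i).loc l v hv) ?_
      have ho : IsOpen {q : ℝ × E3 | ‖q.2‖ < ε'} := isOpen_lt (continuous_norm.comp continuous_snd) continuous_const
      filter_upwards [ho.mem_nhds (show (l, v) ∈ {q : ℝ × E3 | ‖q.2‖ < ε'} from hv)] with q hq
      exact key i q.1 q.2 hq
    · intro l v l' v' hv hv' he
      rw [key i _ _ hv, key i _ _ hv'] at he
      exact (hT'.thick i).inj l v l' v' hv hv' he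
    · intro i j hij l v l' v' hv hv'
      rw [key i _ _ hv, key j _ _ hv']
      exact hT'.disj i j hij l v l' v' hv hv'
    · have S' := S.mono h1
      exact
        { A := S'.A
          Q := S'.Q
          A_loc := fun p hp => S'.A_loc p ((hoff p).mp hp)
          A_inj := fun p p' hp hp' => S'.A_inj p p' ((hoff p).mp hp) ((hoff p').mp hp')
          Q_loc := S'.Q_loc
          glue := by
            intro i l r v hr hr'
            rw [S'.glue i l r v hr hr']
            congr 1
            refine (key i l _ ?_).symm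
            rw [norm_smul, Real.norm_of_nonneg hr.le, norm_eq_of_mem_sphere v, mul_one]
            exact hr'
          Q_inj := S'.Q_inj
          disj := fun i v p hp => S'.disj i v p ((hoff p).mp hp)
          cover := by
            intro q
            rcases S'.cover q with ⟨p, hp, he⟩ | h3
            · exact Or.inl ⟨p, (hoff p).mpr hp, he⟩
            · exact Or.inr h3 }
  · have hi : ∀ i : ι, False := fun i => hne ⟨i⟩
    have : κ' = κ := by
      funext i
      exact (hi i).elim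
    rw [this]
    exact ⟨ε, hT, ⟨S⟩⟩

theorem isSurg_germ {n : ℕ} {κ κ' : Fin n → ℝ × E3 → N} {X : Type*} [TopologicalSpace X] [ChartedSpace E4 X]
    (h : IsSurg κ X) (hg : ∀ i, ∃ δ > 0, ∀ (l : ℝ) (v : E3), ‖v‖ < δ → κ' i (l, v) = κ i (l, v)) : IsSurg κ' X :=
  srg_germ h hg

theorem isSurg_diffeo {n : ℕ} {κ : Fin n → ℝ × E3 → N} {X : Type*} [TopologicalSpace X] [ChartedSpace E4 X]
    (h : IsSurg κ X) {N' : Type*} [TopologicalSpace N'] [ChartedSpace E4 N'] (F : N ≃ₘ⟮𝓡 4, 𝓡 4⟯ N') :
    IsSurg (fun i x => F (κ i x)) X := by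
  obtain ⟨ε, hT, ⟨S⟩⟩ := h
  have hoff : ∀ p, Off (fun i x => F (κ i x)) p ↔ Off κ (F.symm p) := by
    intro p
    constructor
    · intro hp i l he
      apply hp i l
      change p = F (κ i (l, 0))
      rw [← he, F.apply_symm_apply]
    · intro hp i l he
      apply hp i l
      rw [he]
      change F.symm (F (κ i (l, 0))) = _
      rw [F.symm_apply_apply]
  refine ⟨ε, ⟨fun i => ?_, ?_⟩, ⟨?_⟩⟩
  · exact thick_comp (hT.thick i) (U := univ) (fun _ _ _ => mem_univ _)
      (fun x _ => F.isLocalDiffeomorph x) F.injective.injOn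
  · intro i j hij l v l' v' hv hv' he
    exact hT.disj i j hij l v l' v' hv hv' (F.injective he)
  · exact
      { A := S.A ∘ F.symm
        Q := S.Q
        A_loc := fun p hp => IsLocalDiffeomorphAt.comp (hf := F.symm.isLocalDiffeomorph p) (g := S.A)
          (hg := S.A_loc _ ((hoff p).mp hp))
        A_inj := by
          intro p p' hp hp' he
          exact F.symm.injective (S.A_inj _ _ ((hoff p).mp hp) ((hoff p').mp hp') he)
        Q_loc := S.Q_loc
        glue := by
          intro i l r v hr hr'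
          rw [S.glue i l r v hr hr']
          change _ = S.A (F.symm (F _))
          rw [F.symm_apply_apply]
        Q_inj := S.Q_inj
        disj := fun i v p hp => S.disj i v _ ((hoff p).mp hp)
        cover := by
          intro q
          rcases S.cover q with ⟨p, hp, he⟩ | h3
          · refine Or.inl ⟨F p, (hoff _).mpr ?_, ?_⟩
            · rw [F.symm_apply_apply]
              exact hp
            · change q = S.A (F.symm (F p))
              rw [F.symm_apply_apply]
              exact he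
          · exact Or.inr h3 }

theorem isSurg_diffeo_X {n : ℕ} {κ : Fin n → ℝ × E3 → N} {X : Type*} [TopologicalSpace X] [ChartedSpace E4 X]
    (h : IsSurg κ X) {X' : Type*} [TopologicalSpace X'] [ChartedSpace E4 X'] (G : X ≃ₘ⟮𝓡 4, 𝓡 4⟯ X') :
    IsSurg κ X' := by
  obtain ⟨ε, hT, ⟨S⟩⟩ := h
  refine ⟨ε, hT, ⟨?_⟩⟩
  exact
    { A := G ∘ S.A
      Q := fun i => G ∘ S.Q i
      A_loc := fun p hp => IsLocalDiffeomorphAt.comp (hf := S.A_loc p hp) (g := G)
        (hg := G.isLocalDiffeomorph _)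
      A_inj := fun p p' hp hp' he => S.A_inj p p' hp hp' (G.injective he)
      Q_loc := fun i z v hz => IsLocalDiffeomorphAt.comp (hf := S.Q_loc i z v hz) (g := G)
        (hg := G.isLocalDiffeomorph _)
      glue := fun i l r v hr hr' => congrArg G (S.glue i l r v hr hr')
      Q_inj := fun i j v v' he => S.Q_inj i j v v' (G.injective he)
      disj := fun i v p hp he => S.disj i v p hp (G.injective he)
      cover := by
        intro q
        rcases S.cover (G.symm q) with ⟨p, hp, he⟩ | ⟨i, v, he⟩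
        · refine Or.inl ⟨p, hp, ?_⟩
          change q = G (S.A p)
          rw [← he, G.apply_symm_apply]
        · refine Or.inr ⟨i, v, ?_⟩
          change q = G (S.Q i (0, v))
          rw [← he, G.apply_symm_apply] }

theorem srg_reindex {ι : Type} {κ : ι → ℝ × E3 → N} {X : Type*} [TopologicalSpace X] [ChartedSpace E4 X]
    (h : IsSurg κ X) (e : ι ≃ ι) : IsSurg (fun i => κ (e i)) X := by
  obtain ⟨ε, hT, ⟨S⟩⟩ := h
  have hoff : ∀ p, Off (fun i => κ (e i)) p ↔ Off κ p := by
    intro p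
    constructor
    · intro hp i l
      have := hp (e.symm i) l
      simp only [Equiv.apply_symm_apply] at this
      exact this
    · intro hp i l
      exact hp (e i) l
  refine ⟨ε, ⟨fun i => hT.thick (e i), ?_⟩, ⟨?_⟩⟩
  · intro i j hij l v l' v' hv hv'
    exact hT.disj (e i) (e j) (e.injective.ne hij) l v l' v' hv hv'
  · exact
      { A := S.A
        Q := fun i => S.Q (e i)
        A_loc := fun p hp => S.A_loc p ((hoff p).mp hp)
        A_inj := fun p p' hp hp' => S.A_inj p p' ((hoff p).mp hp) ((hoff p').mp hp')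
        Q_loc := fun i z v hz => S.Q_loc (e i) z v hz
        glue := fun i l r v hr hr' => S.glue (e i) l r v hr hr'
        Q_inj := by
          intro i j v v' he
          obtain ⟨h1, h2⟩ := S.Q_inj (e i) (e j) v v' he
          exact ⟨e.injective h1, h2⟩
        disj := fun i v p hp => S.disj (e i) v p ((hoff p).mp hp)
        cover := by
          intro q
          rcases S.cover q with ⟨p, hp, he⟩ | ⟨i, v, he⟩
          · exact Or.inl ⟨p, (hoff p).mpr hp, he⟩
          · refine Or.inr ⟨e.symm i, v, ?_⟩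
            simp only [Equiv.apply_symm_apply]
            exact he }

theorem isSurg_swap {κ₁ κ₂ : ℝ × E3 → N} {X : Type*} [TopologicalSpace X] [ChartedSpace E4 X]
    (h : IsSurg ![κ₁, κ₂] X) : IsSurg ![κ₂, κ₁] X := by
  have h1 := srg_reindex h (Equiv.swap (0 : Fin 2) 1)
  have h2 : (fun i => ![κ₁, κ₂] (Equiv.swap (0 : Fin 2) 1 i)) = ![κ₂, κ₁] := by
    funext i
    fin_cases i
    · simp
    · simp
  rw [h2] at h1
  exact h1

/-- the diffeomorphism of the sphere -/
noncomputable def srg_sph (O : E3 ≃ₗᵢ[ℝ] E3) : S2 ≃ₘ⟮𝓡 2, 𝓡 2⟯ S2 where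
  toFun v := ⟨O v.1, by rw [mem_sphere_zero_iff_norm, O.norm_map]; exact norm_eq_of_mem_sphere v⟩
  invFun v := ⟨O.symm v.1, by rw [mem_sphere_zero_iff_norm, O.symm.norm_map]; exact norm_eq_of_mem_sphere v⟩
  left_inv v := Subtype.ext (O.symm_apply_apply v.1)
  right_inv v := Subtype.ext (O.apply_symm_apply v.1)
  contMDiff_toFun := by
    have : Fact (Module.finrank ℝ E3 = 2 + 1) := ⟨by simp⟩
    have h1 : ContMDiff (𝓡 2) 𝓘(ℝ, E3) ∞ (fun v : S2 => O v.1) :=
      (O.toContinuousLinearEquiv.contDiff.contMDiff).comp contMDiff_coe_sphere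
    exact h1.codRestrict_sphere _
  contMDiff_invFun := by
    have : Fact (Module.finrank ℝ E3 = 2 + 1) := ⟨by simp⟩
    have h1 : ContMDiff (𝓡 2) 𝓘(ℝ, E3) ∞ (fun v : S2 => O.symm v.1) :=
      (O.symm.toContinuousLinearEquiv.contDiff.contMDiff).comp contMDiff_coe_sphere
    exact h1.codRestrict_sphere _

theorem srg_sph_coe (O : E3 ≃ₗᵢ[ℝ] E3) (v : S2) : (srg_sph O v).1 = O v.1 := rfl

/-- the diffeomorphism of `ℝ × E3` -/
noncomputable def srg_lin (s : ℝ) (hs : s * s = 1) (O : E3 ≃ₗᵢ[ℝ] E3) : (ℝ × E3) ≃ (ℝ × E3) where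
  toFun x := (s * x.1, O x.2)
  invFun x := (s * x.1, O.symm x.2)
  left_inv x := by
    simp only [← mul_assoc, hs, one_mul, O.symm_apply_apply]
  right_inv x := by
    simp only [← mul_assoc, hs, one_mul, O.apply_symm_apply]

theorem srg_lin_ld (s : ℝ) (hs : s * s = 1) (O : E3 ≃ₗᵢ[ℝ] E3) (x : ℝ × E3) :
    IsLocalDiffeomorphAt 𝓘(ℝ, ℝ × E3) 𝓘(ℝ, ℝ × E3) ∞ (srg_lin s hs O) x := by
  have h1 : ContDiff ℝ ∞ (srg_lin s hs O) :=
    (contDiff_const.mul contDiff_fst).prodMk (O.toContinuousLinearEquiv.contDiff.comp contDiff_snd)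
  have h2 : ContDiff ℝ ∞ (srg_lin s hs O).symm :=
    (contDiff_const.mul contDiff_fst).prodMk (O.symm.toContinuousLinearEquiv.contDiff.comp contDiff_snd)
  let D : (ℝ × E3) ≃ₘ⟮𝓘(ℝ, ℝ × E3), 𝓘(ℝ, ℝ × E3)⟯ (ℝ × E3) := ⟨srg_lin s hs O, h1.contMDiff, h2.contMDiff⟩
  exact D.isLocalDiffeomorph x

theorem srg_mod {ι : Type} {κ : ι → ℝ × E3 → N} {X : Type*} [TopologicalSpace X] [ChartedSpace E4 X]
    (h : IsSurg κ X) (s : ι → ℝ) (hs : ∀ i, s i = 1 ∨ s i = -1) (c : ι → (ℂ ≃ₗᵢ[ℝ] ℂ))
    (hc : ∀ i (r l : ℝ), c i (r * ex l) = r * ex (s i * l)) (O : ι → (E3 ≃ₗᵢ[ℝ] E3)) :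
    IsSurg (fun i x => κ i (s i * x.1, O i x.2)) X := by
  obtain ⟨ε, hT, ⟨S⟩⟩ := h
  have hss : ∀ i, s i * s i = 1 := by
    intro i
    rcases hs i with h1 | h1 <;> rw [h1] <;> norm_num
  have hoff : ∀ p, Off (fun i x => κ i (s i * x.1, O i x.2)) p ↔ Off κ p := by
    intro p
    constructor
    · intro hp i l
      have := hp i (s i * l)
      simp only [← mul_assoc, hss, one_mul, map_zero] at this
      exact this
    · intro hp i l
      have := hp i (s i * l)
      simp only [map_zero]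
      exact this
  refine ⟨ε, ⟨fun i => ⟨(hT.thick i).pos, ?_, ?_, ?_⟩, ?_⟩, ⟨?_⟩⟩
  · intro l v hv
    have hv' : ‖O i v‖ < ε := by rwa [(O i).norm_map]
    simp only
    rcases hs i with h1 | h1
    · rw [h1, one_mul, one_mul]
      exact (hT.thick i).per l _ hv'
    · have e1 : s i * (l + 1) = s i * l + ((-1 : ℤ) : ℝ) := by
        rw [h1]
        push_cast
        ring
      rw [e1]
      exact (hT.thick i).per_int _ _ _ hv'
  · intro l v hv
    have hv' : ‖O i v‖ < ε := by rwa [(O i).norm_map]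
    exact IsLocalDiffeomorphAt.comp (hf := srg_lin_ld (s i) (hss i) (O i) (l, v)) (g := κ i)
      (hg := (hT.thick i).loc _ _ hv')
  · intro l v l' v' hv hv' he
    have k1 : ‖O i v‖ < ε := by rwa [(O i).norm_map]
    have k2 : ‖O i v'‖ < ε := by rwa [(O i).norm_map]
    obtain ⟨h1, m, hm⟩ := (hT.thick i).inj _ _ _ _ k1 k2 he
    refine ⟨(O i).injective h1, ?_⟩
    rcases hs i with h2 | h2
    · refine ⟨m, ?_⟩
      rw [h2] at hm
      linarith
    · refine ⟨-m, ?_⟩
      rw [h2] at hm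
      push_cast
      linarith
  · intro i j hij l v l' v' hv hv'
    exact hT.disj i j hij _ _ _ _ (by rwa [(O i).norm_map]) (by rwa [(O j).norm_map])
  · exact
      { A := S.A
        Q := fun i x => S.Q i (c i x.1, srg_sph (O i) x.2)
        A_loc := fun p hp => S.A_loc p ((hoff p).mp hp)
        A_inj := fun p p' hp hp' => S.A_inj p p' ((hoff p).mp hp) ((hoff p').mp hp')
        Q_loc := by
          intro i z v hz
          have hz' : ‖c i z‖ < ε := by rwa [(c i).norm_map]
          have h1 := ((c i).toContinuousLinearEquiv.toDiffeomorph.prodCongr (srg_sph (O i))).isLocalDiffeomorph (z, v)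
          exact IsLocalDiffeomorphAt.comp (hf := h1) (g := S.Q i) (hg := S.Q_loc i _ _ hz')
        glue := by
          intro i l r v hr hr'
          simp only
          rw [hc, S.glue i _ r _ hr hr', srg_sph_coe, map_smul]
        Q_inj := by
          intro i j v v' he
          simp only [map_zero] at he
          obtain ⟨h1, h2⟩ := S.Q_inj i j _ _ he
          subst h1
          exact ⟨rfl, (srg_sph (O i)).injective h2⟩
        disj := by
          intro i v p hp
          simp only [map_zero]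
          exact S.disj i _ p ((hoff p).mp hp)
        cover := by
          intro q
          rcases S.cover q with ⟨p, hp, he⟩ | ⟨i, v, he⟩
          · exact Or.inl ⟨p, (hoff p).mpr hp, he⟩
          · refine Or.inr ⟨i, (srg_sph (O i)).symm v, ?_⟩
            simp only [map_zero, Diffeomorph.apply_symm_apply]
            exact he }

theorem isSurg_rev {κ₁ κ₂ : ℝ × E3 → N} {X : Type*} [TopologicalSpace X] [ChartedSpace E4 X]
    (h : IsSurg ![κ₁, κ₂] X) : IsSurg ![fun x => κ₁ (-x.1, x.2), κ₂] X := by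
  have hconj : ∀ r l : ℝ, Complex.conjLIE (r * ex l) = r * ex (-1 * l) := by
    intro r l
    rw [Complex.conjLIE_apply, map_mul, Complex.conj_ofReal]
    unfold ex
    rw [← Complex.exp_conj]
    congr 2
    rw [map_mul, Complex.conj_I, Complex.conj_ofReal]
    push_cast
    ring
  have h1 := srg_mod h ![-1, 1] (by
      intro i
      fin_cases i
      · right
        rfl
      · left
        rfl) ![Complex.conjLIE, LinearIsometryEquiv.refl ℝ ℂ] (by
      intro i r l
      fin_cases i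
      · exact hconj r l
      · change (r * ex l : ℂ) = r * ex (1 * l)
        rw [one_mul]) (fun _ => LinearIsometryEquiv.refl ℝ E3)
  have h2 : (fun (i : Fin 2) (x : ℝ × E3) => ![κ₁, κ₂] i ((![-1, 1] : Fin 2 → ℝ) i * x.1,
      (LinearIsometryEquiv.refl ℝ E3) x.2)) = ![fun x => κ₁ (-x.1, x.2), κ₂] := by
    funext i x
    fin_cases i
    · simp
    · simp
  rw [h2] at h1
  exact h1

theorem isSurg_rot {κ₁ κ₂ : ℝ × E3 → N} {X : Type*} [TopologicalSpace X] [ChartedSpace E4 X]
    (h : IsSurg ![κ₁, κ₂] X) (O : E3 ≃ₗᵢ[ℝ] E3) : IsSurg ![fun x => κ₁ (x.1, O x.2), κ₂] X := by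
  have h1 := srg_mod h (fun _ => 1) (fun _ => Or.inl rfl) (fun _ => LinearIsometryEquiv.refl ℝ ℂ) (by
      intro i r l
      change (r * ex l : ℂ) = r * ex (1 * l)
      rw [one_mul]) ![O, LinearIsometryEquiv.refl ℝ E3]
  have h2 : (fun (i : Fin 2) (x : ℝ × E3) => ![κ₁, κ₂] i (1 * x.1,
      (![O, LinearIsometryEquiv.refl ℝ E3] : Fin 2 → (E3 ≃ₗᵢ[ℝ] E3)) i x.2)) = ![fun x => κ₁ (x.1, O x.2), κ₂] := by
    funext i x
    fin_cases i
    · simp
    · simp
  rw [h2] at h1
  exact h1

end Pool.Agent.ACB
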