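import Pool.Agent.ACB.Bal
import Pool.Agent.ACB.Gpo
import Pool.Agent.ACB.Srg

/-!
# ACB/Mv1: isotopy of the first circle in the complement of the second

PROOF.  Let `ε` be the radius of `h` (`h : ∃ ε, Tubes ∧ ..`), so `κ₁`, `κ₂` are thick and `core κ₁`, `core κ₂` are circles (`Thick.circ`).  `Z = range (core κ₂)` is an obstacle (`Obst.range`), `core κ₁` avoids `Z`
(`Tubes.disj`).  `gp_iso`: `F` with `F (core κ₁ t) = c t` and `F = id` on an open `V ⊇ Z`.  `κ₁' = F ∘ κ₁`.  `isSurg_diffeo`: `IsSurg (fun i x => F (![κ₁, κ₂] i x)) X`.  By `thick_near` (`κ₂`, `V`)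
`F ∘ κ₂ = κ₂` on a small tube.  `isSurg_germ` with `κ' = ![κ₁', κ₂]` (`Fin` cases).
-/

open scoped ContDiff Manifold Topology unitInterval
open Set Filter

namespace Pool.Agent.ACB

universe u
variable {N : Type u} [TopologicalSpace N] [ChartedSpace E4 N]

theorem move_N [T2Space N] [IsManifold (𝓡 4) ∞ N] {κ₁ κ₂ : ℝ × E3 → N} {X : Type*} [TopologicalSpace X]
    [ChartedSpace E4 X] (h : IsSurg ![κ₁, κ₂] X) {c : ℝ → N} (hc : Circ c)
    (hcκ : ∀ t, c t ∉ range (core κ₂)) (hh : FHom univ (core κ₁) c) :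
    ∃ κ₁' : ℝ × E3 → N, core κ₁' = c ∧ IsSurg ![κ₁', κ₂] X := by
  obtain ⟨ε, hT, -⟩ := id h
  have t1 : Thick κ₁ ε := hT.thick 0
  have t2 : Thick κ₂ ε := hT.thick 1
  have c1 : Circ (core κ₁) := t1.circ
  have c2 : Circ (core κ₂) := t2.circ
  have hZ : Obst (range (core κ₂)) := Obst.range c2.toSCirc
  have h0 : ∀ t, core κ₁ t ∉ range (core κ₂) := by
    rintro t ⟨l, hl⟩
    have hn : ‖(0 : E3)‖ < ε := by
      rw [norm_zero]
      exact t1.pos
    exact hT.disj 0 1 (by decide) t 0 l 0 hn hn hl.symm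
  obtain ⟨F, hF, V, hV, hZV, hVF⟩ := gp_iso hZ c1 hc h0 hcκ hh
  refine ⟨fun x => F (κ₁ x), funext fun t => hF t, ?_⟩
  obtain ⟨δ, hδ, -, hδV⟩ := thick_near t2 hV (fun l => hZV ⟨l, rfl⟩)
  refine isSurg_germ (isSurg_diffeo h F) ?_
  intro i
  refine ⟨δ, hδ, fun l v hv => ?_⟩
  fin_cases i
  · rfl
  · exact (hVF _ (hδV l v hv)).symm

end Pool.Agent.ACB
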