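import Pool.Agent.ACB.Bal
import Pool.Agent.ACB.Tbe

/-!
# ACB/CmF: surgery on two circles in two steps, II

PROOF.  `A p = S.A (SV.A p)`, `Q 0 = S.Q ()`, `Q 1 x = S.A (SV.Q () x)` (`Q = ![S.Q (), fun x => S.A (SV.Q () x)]`).
(a) For `p` off both cores, `SV.A p` is off the core of `SV.A ∘ κ₁` (`SV.A_inj`, `κ₁ (l, 0)` is not on the core of `κ₂` by `hT.disj`).
(b) For `‖z‖ < ε`, `SV.Q () (z, w)` is off the core of `SV.A ∘ κ₁`: for `z = 0`: `SV.disj`; for `z = r * ex l ≠ 0`: it is `SV.A (κ₂ (l, r w))`, `κ₂ (l, r w) ≠ κ₁ (l', 0)` (`hT.disj`), both off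
the core of `κ₂`, `SV.A_inj`.
`A_loc`: composition.  `A_inj`: composition.  `Q_loc 0`: `S.Q_loc`; `Q_loc 1`: composition with (b).  `glue 0`: `S.glue`.  `glue 1`: `S.A (SV.Q () (r ex l, v)) = S.A (SV.A (κ₂ (l, r v)))`.
`Q_inj`: `(0, 0)`: `S.Q_inj`; `(1, 1)`: `S.A_inj`, `SV.Q_inj`; `(0, 1)`: impossible by `S.disj`.  `disj 0`: `S.disj`; `disj 1`: `S.A_inj`, `SV.disj`.
`cover`: `S.cover q`: `q = S.A x` with `x` off the core, `x = SV.A p` (then `p` off both) or `x = SV.Q () (0, w)`; or `q = S.Q () (0, v)`.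
-/

open scoped ContDiff Manifold Topology unitInterval
open Set Filter

namespace Pool.Agent.ACB

universe u
variable {N : Type u} [TopologicalSpace N] [ChartedSpace E4 N]

theorem surg_from {κ₁ κ₂ : ℝ × E3 → N} {ε : ℝ} (hT : Tubes ![κ₁, κ₂] ε)
    {V : Type*} [TopologicalSpace V] [ChartedSpace E4 V] (SV : Surg (fun _ : Unit => κ₂) ε V)
    {X : Type*} [TopologicalSpace X] [ChartedSpace E4 X] (S : Surg (fun _ : Unit => fun x => SV.A (κ₁ x)) ε X) :
    Nonempty (Surg ![κ₁, κ₂] ε X) := by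
  have hd : ∀ (l : ℝ) (v : E3) (l' : ℝ) (v' : E3), ‖v‖ < ε → ‖v'‖ < ε → κ₁ (l, v) ≠ κ₂ (l', v') :=
    fun l v l' v' hv hv' => hT.disj 0 1 (by decide) l v l' v' hv hv'
  have ht2 : Thick κ₂ ε := hT.thick 1
  have hpos : 0 < ε := ht2.pos
  have h0 : ‖(0 : E3)‖ < ε := by rw [norm_zero]; exact hpos
  -- the points of the first tube are off the second core
  have hk1 : ∀ l, Off (fun _ : Unit => κ₂) (κ₁ (l, 0)) := fun l _ l' => hd l 0 l' 0 h0 h0
  have hoff2 : ∀ p, Off ![κ₁, κ₂] p → Off (fun _ : Unit => κ₂) p := fun p hp _ l => hp 1 l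
  have ha : ∀ p, Off ![κ₁, κ₂] p → Off (fun _ : Unit => fun x => SV.A (κ₁ x)) (SV.A p) := by
    intro p hp _ l he
    exact hp 0 l (SV.A_inj p (κ₁ (l, 0)) (hoff2 p hp) (hk1 l) he)
  have hb : ∀ (z : ℂ) (w : S2), ‖z‖ < ε →
      Off (fun _ : Unit => fun x => SV.A (κ₁ x)) (SV.Q () (z, w)) := by
    intro z w hz _ l' he
    by_cases hz0 : z = 0
    · subst hz0
      exact SV.disj () w (κ₁ (l', 0)) (hk1 l') he
    · obtain ⟨l, hl⟩ := ex_polar z
      have hr : 0 < ‖z‖ := norm_pos_iff.2 hz0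
      have hg : SV.Q () (z, w) = SV.A (κ₂ (l, ‖z‖ • w.1)) := by
        have := SV.glue () l ‖z‖ w hr hz
        rw [← hl] at this
        exact this
      have hw : ‖‖z‖ • w.1‖ < ε := by
        rw [norm_smul, norm_norm, norm_eq_of_mem_sphere w, mul_one]
        exact hz
      have hoff : Off (fun _ : Unit => κ₂) (κ₂ (l, ‖z‖ • w.1)) := by
        intro _ l'' he2
        have h3 := (ht2.inj l (‖z‖ • w.1) l'' 0 hw h0 he2).1
        have h4 : ‖‖z‖ • w.1‖ = 0 := by rw [h3, norm_zero]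
        rw [norm_smul, norm_norm, norm_eq_of_mem_sphere w, mul_one] at h4
        exact hz0 (norm_eq_zero.1 h4)
      rw [hg] at he
      have h5 := SV.A_inj _ _ hoff (hk1 l') he
      exact hd l' 0 l (‖z‖ • w.1) h0 hw h5.symm
  have hb0 : ∀ w : S2, Off (fun _ : Unit => fun x => SV.A (κ₁ x)) (SV.Q () (0, w)) :=
    fun w => hb 0 w (by rw [norm_zero]; exact hpos)
  refine ⟨{ A := fun p => S.A (SV.A p)
            Q := ![S.Q (), fun x => S.A (SV.Q () x)]
            A_loc := ?_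
            A_inj := ?_
            Q_loc := ?_
            glue := ?_
            Q_inj := ?_
            disj := ?_
            cover := ?_ }⟩
  · intro p hp
    exact IsLocalDiffeomorphAt.comp (hf := SV.A_loc p (hoff2 p hp)) (hg := S.A_loc _ (ha p hp)) ..
  · intro p p' hp hp' he
    exact SV.A_inj p p' (hoff2 p hp) (hoff2 p' hp') (S.A_inj _ _ (ha p hp) (ha p' hp') he)
  · intro i z v hz
    fin_cases i
    · exact S.Q_loc () z v hz
    · exact IsLocalDiffeomorphAt.comp (hf := SV.Q_loc () z v hz) (hg := S.A_loc _ (hb z v hz)) ..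
  · intro i l r v hr hr'
    fin_cases i
    · exact S.glue () l r v hr hr'
    · show S.A (SV.Q () (r * ex l, v)) = S.A (SV.A (κ₂ (l, r • v.1)))
      rw [SV.glue () l r v hr hr']
  · intro i j v v' he
    fin_cases i <;> fin_cases j
    · exact ⟨rfl, (S.Q_inj () () v v' he).2⟩
    · exact absurd he (S.disj () v _ (hb0 v'))
    · exact absurd he.symm (S.disj () v' _ (hb0 v))
    · refine ⟨rfl, ?_⟩
      have h1 : S.A (SV.Q () (0, v)) = S.A (SV.Q () (0, v')) := he
      exact (SV.Q_inj () () v v' (S.A_inj _ _ (hb0 v) (hb0 v') h1)).2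
  · intro i v p hp
    fin_cases i
    · exact S.disj () v _ (ha p hp)
    · intro he
      have h1 : S.A (SV.Q () (0, v)) = S.A (SV.A p) := he
      exact SV.disj () v p (hoff2 p hp) (S.A_inj _ _ (hb0 v) (ha p hp) h1)
  · intro q
    rcases S.cover q with ⟨x, hx, hq⟩ | ⟨_, v, hq⟩
    · rcases SV.cover x with ⟨p, hp, hxp⟩ | ⟨_, w, hxw⟩
      · refine Or.inl ⟨p, ?_, by rw [hq, hxp]⟩
        intro i l
        fin_cases i
        · intro he
          have he' : p = κ₁ (l, 0) := he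
          refine hx () l ?_
          show x = SV.A (κ₁ (l, 0))
          rw [hxp, he']
        · exact hp () l
      · exact Or.inr ⟨1, w, by rw [hq, hxw]; rfl⟩
    · exact Or.inr ⟨0, v, hq⟩

end Pool.Agent.ACB
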