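import Pool.Agent.ACB.Bal
import Pool.Agent.ACB.Tbe

/-!
# ACB/CmT: surgery on two circles in two steps, I

`V` is the result of the surgery on `N` along `κ₂`, `X` the result of the surgery along `κ₁, κ₂`.  Then `X` is the result of the surgery on `V` along `SV.A ∘ κ₁`.

PROOF.  Tubes: for `‖v‖ < ε` `κ₁ (l, v)` is off the core of `κ₂` (`hT.disj`), so `SV.A ∘ κ₁` is thick (`SV.A_loc`, `SV.A_inj`; `thick_comp`); for `ι = Unit` there is no disjointness.
Define `f : V → X` by `f (SV.A p) = S.A p` (`p ∉ core κ₂`) and `f (SV.Q () (0, w)) = S.Q 1 (0, w)` (well defined: `SV.cover`, `SV.A_inj`, `SV.disj`, `SV.Q_inj`).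
(a) `f (SV.Q () (z, w)) = S.Q 1 (z, w)` for `‖z‖ < ε`: for `z ≠ 0`, `z = r * ex l`, both are the images of `κ₂ (l, r w)`.
(b) `Off (fun _ => SV.A ∘ κ₁) q`: if `q = SV.A p`, `p ∉ core κ₂`, it says `p ∉ core κ₁` (`SV.A_inj`).
`A_loc`: at `q = SV.A p`, `p` off both cores: near `q` `f = S.A ∘ Φ.symm` (`Φ` from `SV.A_loc p`; points near `p` are off the cores: the cores are closed, `core_compact`); at
`q = SV.Q () (0, w)`: near `q` `f = S.Q 1 ∘ Ψ.symm` (`Ψ` from `SV.Q_loc`), by (a).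
`A_inj`: `S.A_inj`, `S.disj`, `S.Q_inj` (`i = j = 1`).  `Q = fun _ => S.Q 0`.  `Q_loc`: `S.Q_loc 0`.
`glue`: `S.Q 0 (r ex l, v) = S.A (κ₁ (l, r v)) = f (SV.A (κ₁ (l, r v)))`.  `Q_inj`: `S.Q_inj 0 0`.  `disj`: `S.Q 0 (0, v) ≠ S.A p` and `≠ S.Q 1 (0, w)`.
`cover`: `S.cover q`: `q = S.A p`, `q = S.Q 0 (0, v)`, `q = S.Q 1 (0, v) = f (SV.Q () (0, v))` (which is off the core of `SV.A ∘ κ₁` by `SV.disj`).
-/

open scoped ContDiff Manifold Topology unitInterval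
open Set Filter

namespace Pool.Agent.ACB

universe u
variable {N : Type u} [TopologicalSpace N] [ChartedSpace E4 N]

section
variable {E' : Type*} [NormedAddCommGroup E'] [NormedSpace ℝ E']
  {F' : Type*} [NormedAddCommGroup F'] [NormedSpace ℝ F']
  {G' : Type*} [NormedAddCommGroup G'] [NormedSpace ℝ G']
  {H₁ : Type*} [TopologicalSpace H₁]
  {H₂ : Type*} [TopologicalSpace H₂]
  {H₃ : Type*} [TopologicalSpace H₃]
  {I₁ : ModelWithCorners ℝ E' H₁} {J₁ : ModelWithCorners ℝ F' H₂} {K₁ : ModelWithCorners ℝ G' H₃}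
  {M₁ : Type*} [TopologicalSpace M₁] [ChartedSpace H₁ M₁]
  {M₂ : Type*} [TopologicalSpace M₂] [ChartedSpace H₂ M₂]
  {M₃ : Type*} [TopologicalSpace M₃] [ChartedSpace H₃ M₃]

/-- local diffeomorphisms depend on the germ only -/
theorem cmt_congr {f f' : M₁ → M₂} {x : M₁} (h : IsLocalDiffeomorphAt I₁ J₁ ∞ f x) (he : f =ᶠ[𝓝 x] f') :
    IsLocalDiffeomorphAt I₁ J₁ ∞ f' x := by
  obtain ⟨Φ, hx, hΦ⟩ := h
  obtain ⟨O, hO, hOo, hxO⟩ := mem_nhds_iff.1 he
  refine ⟨⟨Φ.toPartialEquiv.restr O, Φ.open_source.inter hOo, ?_, Φ.contMDiffOn_toFun.mono inter_subset_left,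
    Φ.contMDiffOn_invFun.mono inter_subset_left⟩, ⟨hx, hxO⟩, ?_⟩
  · exact Φ.contMDiffOn_invFun.continuousOn.isOpen_inter_preimage Φ.open_target hOo
  · intro y hy
    have h1 : f y = f' y := hO hy.2
    rw [← h1]
    exact hΦ hy.1

/-- if `f ∘ g = h` near `x` and `g`, `h` are local diffeomorphisms then so is `f` at `g x` -/
theorem cmt_quot {f : M₂ → M₃} {g : M₁ → M₂} {h : M₁ → M₃} {x : M₁} (hg : IsLocalDiffeomorphAt I₁ J₁ ∞ g x)
    (hh : IsLocalDiffeomorphAt I₁ K₁ ∞ h x) (he : ∀ᶠ y in 𝓝 x, f (g y) = h y) :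
    IsLocalDiffeomorphAt J₁ K₁ ∞ f (g x) := by
  have hx : hg.localInverse (g x) = x := hg.localInverse_left_inv hg.localInverse_mem_target
  have h1 : IsLocalDiffeomorphAt J₁ K₁ ∞ (h ∘ hg.localInverse) (g x) :=
    IsLocalDiffeomorphAt.comp (P := M₃) (g := h) (K := K₁) hg.localInverse_isLocalDiffeomorphAt (by rw [hx]; exact hh)
  refine cmt_congr h1 ?_
  have hc : Tendsto hg.localInverse (𝓝 (g x)) (𝓝 x) := by
    have h2 := hg.localInverse_contMDiffAt.continuousAt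
    rw [ContinuousAt, hx] at h2
    exact h2
  filter_upwards [hc.eventually he, hg.localInverse_eventuallyEq_right] with y h2 h3
  change g (hg.localInverse y) = y at h3
  rw [h3] at h2
  exact h2.symm

end

theorem surg_to [T2Space N] {κ₁ κ₂ : ℝ × E3 → N} {ε : ℝ} (hT : Tubes ![κ₁, κ₂] ε)
    {X : Type*} [TopologicalSpace X] [ChartedSpace E4 X] (S : Surg ![κ₁, κ₂] ε X)
    {V : Type*} [TopologicalSpace V] [ChartedSpace E4 V] (SV : Surg (fun _ : Unit => κ₂) ε V) :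
    Tubes (fun _ : Unit => fun x => SV.A (κ₁ x)) ε ∧
      Nonempty (Surg (fun _ : Unit => fun x => SV.A (κ₁ x)) ε X) := by
  have h1 : Thick κ₁ ε := hT.thick 0
  have h2 : Thick κ₂ ε := hT.thick 1
  have hd : ∀ (l : ℝ) (v : E3) (l' : ℝ) (v' : E3), ‖v‖ < ε → ‖v'‖ < ε → κ₁ (l, v) ≠ κ₂ (l', v') :=
    hT.disj 0 1 (by decide)
  have h0 : ‖(0 : E3)‖ < ε := by rw [norm_zero]; exact h1.pos
  have hoff1 : ∀ (l : ℝ) (v : E3), ‖v‖ < ε → Off (fun _ : Unit => κ₂) (κ₁ (l, v)) :=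
    fun l v hv _ l' => hd l v l' 0 hv h0
  have hoff2 : ∀ (p : N), Off (fun _ : Unit => κ₂) p → Off (fun _ : Unit => fun x => SV.A (κ₁ x)) (SV.A p) →
      Off ![κ₁, κ₂] p := by
    intro p hp hp'
    have e1 : ∀ l, p ≠ κ₁ (l, 0) := fun l h => hp' () l (congrArg SV.A h)
    have e2 : ∀ l, p ≠ κ₂ (l, 0) := fun l => hp () l
    intro i
    fin_cases i
    · exact e1
    · exact e2
  have hoff3 : ∀ (p : N), Off ![κ₁, κ₂] p → Off (fun _ : Unit => κ₂) p ∧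
      Off (fun _ : Unit => fun x => SV.A (κ₁ x)) (SV.A p) := by
    intro p hp
    have e1 : ∀ l, p ≠ κ₁ (l, 0) := hp 0
    have e2 : ∀ l, p ≠ κ₂ (l, 0) := hp 1
    have e3 : Off (fun _ : Unit => κ₂) p := fun _ l => e2 l
    exact ⟨e3, fun _ l h => e1 l (SV.A_inj p _ e3 (hoff1 l 0 h0) h)⟩
  have hTV : Tubes (fun _ : Unit => fun x => SV.A (κ₁ x)) ε := by
    refine ⟨fun _ => ?_, fun i j hij => absurd (Subsingleton.elim i j) hij⟩
    exact thick_comp (U := {p | Off (fun _ : Unit => κ₂) p}) h1 (fun l v hv => hoff1 l v hv)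
      (fun x hx => SV.A_loc x hx) (fun x hx y hy hxy => SV.A_inj x y hx hy hxy)
  refine ⟨hTV, ?_⟩
  -- the map
  have hex : ∀ q : V, ∃ x : X, (∀ p, Off (fun _ : Unit => κ₂) p → q = SV.A p → x = S.A p) ∧
      ∀ v, q = SV.Q () (0, v) → x = S.Q 1 (0, v) := by
    intro q
    rcases SV.cover q with ⟨p, hp, rfl⟩ | ⟨i, v, rfl⟩
    · refine ⟨S.A p, fun p' hp' h => ?_, fun v h => ?_⟩
      · rw [SV.A_inj p p' hp hp' h]
      · exact absurd h.symm (SV.disj () v p hp)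
    · refine ⟨S.Q 1 (0, v), fun p' hp' h => ?_, fun v' h => ?_⟩
      · exact absurd h (SV.disj i v p' hp')
      · rw [(SV.Q_inj i () v v' h).2]
  choose f hfA' hfQ' using hex
  have hfA : ∀ p, Off (fun _ : Unit => κ₂) p → f (SV.A p) = S.A p := fun p hp => hfA' _ p hp rfl
  have hfQ0 : ∀ (i : Unit) (v : S2), f (SV.Q i (0, v)) = S.Q 1 (0, v) := fun i v => hfQ' _ v rfl
  have hfQ : ∀ (i : Unit) (z : ℂ) (v : S2), ‖z‖ < ε → f (SV.Q i (z, v)) = S.Q 1 (z, v) := by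
    intro i z v hz
    by_cases hz0 : z = 0
    · rw [hz0]
      exact hfQ0 i v
    · obtain ⟨l, hl⟩ := ex_polar z
      have hr : 0 < ‖z‖ := norm_pos_iff.2 hz0
      have e1 := SV.glue i l ‖z‖ v hr hz
      have e2 : S.Q 1 ((‖z‖ : ℂ) * ex l, v) = S.A (κ₂ (l, ‖z‖ • v.1)) := S.glue 1 l ‖z‖ v hr hz
      rw [← hl] at e1 e2
      have hv1 : ‖v.1‖ = 1 := by
        have := v.2
        rwa [mem_sphere_zero_iff_norm] at this
      have hn : ‖‖z‖ • v.1‖ = ‖z‖ := by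
        rw [norm_smul, norm_norm, hv1, mul_one]
      have hof : Off (fun _ : Unit => κ₂) (κ₂ (l, ‖z‖ • v.1)) := by
        intro _ l' h
        have h3 := (h2.inj l _ l' 0 (by rw [hn]; exact hz) h0 h).1
        rw [h3, norm_zero] at hn
        exact hr.ne hn
      rw [e1, e2]
      exact hfA _ hof
  have hopen : ∀ p, Off (fun _ : Unit => κ₂) p → ∀ᶠ p' in 𝓝 p, Off (fun _ : Unit => κ₂) p' := by
    intro p hp
    have h3 : IsClosed (range (core κ₂)) := (core_compact h2).isClosed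
    have h4 : p ∈ (range (core κ₂))ᶜ := by
      rintro ⟨l, hl⟩
      exact hp () l hl.symm
    filter_upwards [h3.isOpen_compl.mem_nhds h4] with p' hp' _ l h
    exact hp' ⟨l, h.symm⟩
  refine ⟨⟨f, fun _ => S.Q 0, ?_, ?_, ?_, ?_, ?_, ?_, ?_⟩⟩
  · intro q hq
    rcases SV.cover q with ⟨p, hp, rfl⟩ | ⟨i, v, rfl⟩
    · refine cmt_quot (SV.A_loc p hp) (S.A_loc p (hoff2 p hp hq)) ?_
      filter_upwards [hopen p hp] with p' hp'
      exact hfA p' hp'
    · have hz : ‖(0 : ℂ)‖ < ε := by rw [norm_zero]; exact h1.pos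
      refine cmt_quot (SV.Q_loc i 0 v hz) (S.Q_loc 1 0 v hz) ?_
      have h3 : IsOpen {x : ℂ × S2 | ‖x.1‖ < ε} := isOpen_lt (continuous_norm.comp continuous_fst) continuous_const
      filter_upwards [h3.mem_nhds (show ((0 : ℂ), v) ∈ {x : ℂ × S2 | ‖x.1‖ < ε} from hz)] with x hx
      exact hfQ i x.1 x.2 hx
  · intro q q' hq hq' h
    rcases SV.cover q with ⟨p, hp, rfl⟩ | ⟨i, v, rfl⟩
    · rcases SV.cover q' with ⟨p', hp', rfl⟩ | ⟨i', v', rfl⟩
      · rw [hfA p hp, hfA p' hp'] at h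
        rw [S.A_inj p p' (hoff2 p hp hq) (hoff2 p' hp' hq') h]
      · rw [hfA p hp, hfQ0] at h
        exact absurd h.symm (S.disj 1 v' p (hoff2 p hp hq))
    · rcases SV.cover q' with ⟨p', hp', rfl⟩ | ⟨i', v', rfl⟩
      · rw [hfA p' hp', hfQ0] at h
        exact absurd h (S.disj 1 v p' (hoff2 p' hp' hq'))
      · rw [hfQ0, hfQ0] at h
        rw [(S.Q_inj 1 1 v v' h).2]
  · intro _ z v hz
    exact S.Q_loc 0 z v hz
  · intro _ l r v hr hr'
    have e1 : S.Q 0 ((r : ℂ) * ex l, v) = S.A (κ₁ (l, r • v.1)) := S.glue 0 l r v hr hr'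
    have hv1 : ‖v.1‖ = 1 := by
      have := v.2
      rwa [mem_sphere_zero_iff_norm] at this
    have hn : ‖r • v.1‖ < ε := by
      rw [norm_smul, hv1, mul_one, Real.norm_eq_abs, abs_of_pos hr]
      exact hr'
    rw [e1]
    exact (hfA _ (hoff1 l _ hn)).symm
  · intro i j v v' h
    exact ⟨Subsingleton.elim i j, (S.Q_inj 0 0 v v' h).2⟩
  · intro _ v q hq
    rcases SV.cover q with ⟨p, hp, rfl⟩ | ⟨i, w, rfl⟩
    · rw [hfA p hp]
      exact S.disj 0 v p (hoff2 p hp hq)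
    · rw [hfQ0]
      intro h
      exact absurd (S.Q_inj 0 1 v w h).1 (by decide)
  · intro x
    rcases S.cover x with ⟨p, hp, rfl⟩ | ⟨i, v, rfl⟩
    · obtain ⟨h3, h4⟩ := hoff3 p hp
      exact Or.inl ⟨SV.A p, h4, (hfA p h3).symm⟩
    · have hi : i = 0 ∨ i = 1 := by
        fin_cases i
        · exact Or.inl rfl
        · exact Or.inr rfl
      rcases hi with rfl | rfl
      · exact Or.inr ⟨(), v, rfl⟩
      · refine Or.inl ⟨SV.Q () (0, v), ?_, (hfQ0 () v).symm⟩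
        intro _ l
        exact SV.disj () v _ (hoff1 l 0 h0)

end Pool.Agent.ACB
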