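import Pool.Agent.ACB.Bal
import Pool.Agent.ACB.Tbe

/-!
# ACB/CrA: circles in the surgered manifold

PROOFS.  `p ∉ range (core κ)` is `Off (fun _ : Unit => κ) p`.  `circ_A`: smooth: `S.A` is smooth at `c t`; immersed: take the ball `b` at `c t`, a smaller one whose image avoids the closed set
`range (core κ)` (`exists_ball`, `core_compact`), `imm_iff`; or directly: `S.A` has a local inverse `Φ` at `c t`; if the derivative of `e' ∘ S.A ∘ c` at `t` is `0` (a ball `e` at `S.A (c t)`) then the derivative of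
`b' ∘ c = (b' ∘ Φ.symm ∘ e) ∘ (e' ∘ S.A ∘ c)` is `0`.  Injective: `S.A_inj`.
`A_contOn`: `S.A_loc`.
-/

open scoped ContDiff Manifold Topology unitInterval
open Set Filter

namespace Pool.Agent.ACB

universe u
variable {N : Type u} [TopologicalSpace N] [ChartedSpace E4 N]

theorem circ_A [T2Space N] [IsManifold (𝓡 4) ∞ N] {κ : ℝ × E3 → N} {ε : ℝ} (hκ : Thick κ ε) {V : Type*}
    [TopologicalSpace V] [ChartedSpace E4 V] [IsManifold (𝓡 4) ∞ V] (S : Surg (fun _ : Unit => κ) ε V)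
    {c : ℝ → N} (hc : Circ c) (hcκ : ∀ t, c t ∉ range (core κ)) : Circ fun t => S.A (c t) := by
  have off : ∀ t, Off (fun _ : Unit => κ) (c t) := fun t _ l h => hcκ t ⟨l, h.symm⟩
  refine ⟨⟨fun t => (S.A_loc (c t) (off t)).contMDiffAt.comp t (hc.smooth t), fun t => ?_⟩,
    fun t => ?_, fun t t' h => hc.inj t t' (S.A_inj _ _ (off t) (off t') h)⟩
  · show S.A (c (t + 1)) = S.A (c t)
    rw [hc.per]
  · obtain ⟨Φ, hx, hΦ⟩ := S.A_loc (c t) (off t)
    obtain ⟨b, b', hb, hb0, hbr⟩ := exists_ball (c t) (Φ.open_source.mem_nhds hx)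
    have hbs : ∀ x, b x ∈ Φ.source := fun x => hbr ⟨x, rfl⟩
    have hd : deriv (b' ∘ c) t ≠ 0 := (imm_iff (hc.smooth t) hb ⟨0, hb0⟩).1 (hc.imm t)
    have hli : ∀ y ∈ Φ.source, Φ.symm (Φ y) = y := fun y hy => Φ.toPartialEquiv.left_inv hy
    refine ⟨fun x => Φ (b x), fun y => b' (Φ.symm y), ⟨fun x => ?_, ?_, ?_, ?_⟩, ⟨0, ?_⟩, ?_⟩
    · show b' (Φ.symm (Φ (b x))) = x
      rw [hli _ (hbs x), hb.left_inv]
    · exact Φ.contMDiffOn_toFun.comp_contMDiff hb.smooth hbs
    · refine hb.smooth'.comp (Φ.contMDiffOn_invFun.mono ?_) ?_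
      · rintro _ ⟨x, rfl⟩
        exact Φ.toPartialEquiv.map_source (hbs x)
      · rintro _ ⟨x, rfl⟩
        show Φ.symm (Φ (b x)) ∈ range b
        rw [hli _ (hbs x)]
        exact ⟨x, rfl⟩
    · have e : (range fun x => Φ (b x)) = Φ.toOpenPartialHomeomorph '' (range b) := by
        rw [← range_comp]
        rfl
      rw [e]
      exact Φ.toOpenPartialHomeomorph.isOpen_image_of_subset_source hb.isOpen hbr
    · show Φ (b 0) = S.A (c t)
      rw [hb0]
      exact (hΦ hx).symm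
    · have e : ((fun y => b' (Φ.symm y)) ∘ fun t => S.A (c t)) =ᶠ[𝓝 t] b' ∘ c := by
        filter_upwards [(hc.smooth.continuous.tendsto t) (Φ.open_source.mem_nhds hx)] with s hs
        show b' (Φ.symm (S.A (c s))) = b' (c s)
        rw [hΦ hs, hli _ hs]
      rw [e.deriv_eq]
      exact hd

theorem A_contOn {κ : ℝ × E3 → N} {ε : ℝ} {V : Type*} [TopologicalSpace V] [ChartedSpace E4 V]
    (S : Surg (fun _ : Unit => κ) ε V) : ContinuousOn S.A (range (core κ))ᶜ :=
  fun p hp => ((S.A_loc p fun _ l h => hp ⟨l, h.symm⟩).contMDiffAt.continuousAt).continuousWithinAt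

end Pool.Agent.ACB
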