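import Pool.Agent.ACB.Bal
import Pool.Agent.ACB.Gpo
import Pool.Agent.ACB.Srg
import Pool.Agent.ACB.CmT
import Pool.Agent.ACB.CmF
import Pool.Agent.ACB.CrA

/-!
# ACB/Mv2: isotopy of the first circle in the surgered manifold

PROOF.  Let `ε₁` be the radius of `h`, `ε' = min ε ε₁`; restrict everything to `ε'` (`Tubes.mono`, `Surg.mono`: the map `A` of `SV.mono` is `SV.A`).  `surg_to` gives `Tubes` and a surgery `S'` on `V` along
`κ' = SV.A ∘ κ₁` (as a family indexed by `Unit`).  `core κ' = SV.A ∘ core κ₁` and `SV.A ∘ c` are circles in `V` (`Thick.circ`, `circ_A`).  `gp_iso` in `V` with `Z = ∅` (`Obst.empty`) gives a diffeomorphism `F` of `V` with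
`F (SV.A (core κ₁ t)) = SV.A (c t)`.  `κV = F ∘ κ'` is thick of radius `ε'`, and `X` is a surgery on `V` along `κV`: `A = S'.A ∘ F.symm`, `Q = S'.Q` (as in `isSurg_diffeo`, for `Unit`; do it directly).
`U = SV.A '' (range (core κ₂))ᶜ` is open (local diffeomorphism on an open set) and contains `κV (l, 0) = SV.A (c l)`: `thick_near` gives `δ ≤ ε'` with `κV (l, v) ∈ U` for `‖v‖ < δ`.
Let `R : V → N` be an inverse: `R (SV.A p) = p` for `p ∉ range (core κ₂)` (`Function.invFunOn`); it is a local diffeomorphism at the points of `U`, injective on `U`.  `κ₁' = R ∘ κV` is thick of radius `δ`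
(`thick_comp`), `SV.A (κ₁' (l, v)) = κV (l, v)` for `‖v‖ < δ`, `core κ₁' = c`.  `tubes_pair` (`κ₁'`, `κ₂`; the cores are disjoint by `hcκ`): `δ'` with `Tubes ![κ₁', κ₂] δ'`.  The surgery on `V` along `κV` of radius `δ'` is
also a surgery along `SV.A ∘ κ₁'` (the two maps agree on the tube of radius `δ'`; same `A, Q`).  `surg_from`.
-/

open scoped ContDiff Manifold Topology unitInterval
open Set Filter

namespace Pool.Agent.ACB

universe u
variable {N : Type u} [TopologicalSpace N] [ChartedSpace E4 N]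

/-- being a local diffeomorphism at a point is a local property -/
theorem mv2_congr {M M' : Type*} [TopologicalSpace M] [ChartedSpace E4 M] [TopologicalSpace M']
    [ChartedSpace E4 M'] {f g : M → M'} {x : M} (hf : IsLocalDiffeomorphAt (𝓡 4) (𝓡 4) ∞ f x)
    (h : g =ᶠ[𝓝 x] f) : IsLocalDiffeomorphAt (𝓡 4) (𝓡 4) ∞ g x := by
  obtain ⟨Φ, hx, he⟩ := hf
  obtain ⟨U, hU, hUo, hxU⟩ := mem_nhds_iff.mp h
  have hc : ContinuousOn Φ.toPartialEquiv.symm Φ.target := Φ.contMDiffOn_invFun.continuousOn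
  refine ⟨⟨⟨Φ.toFun, Φ.invFun, Φ.source ∩ U, Φ.target ∩ Φ.toPartialEquiv.symm ⁻¹' U, ?_, ?_, ?_, ?_⟩,
    Φ.open_source.inter hUo, hc.isOpen_inter_preimage Φ.open_target hUo,
    Φ.contMDiffOn_toFun.mono inter_subset_left, Φ.contMDiffOn_invFun.mono inter_subset_left⟩, ⟨hx, hxU⟩, ?_⟩
  · rintro y ⟨hy, hyU⟩
    refine ⟨Φ.map_source hy, ?_⟩
    show Φ.toPartialEquiv.symm (Φ.toPartialEquiv y) ∈ U
    rw [Φ.left_inv hy]
    exact hyU
  · rintro y ⟨hy, hyU⟩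
    exact ⟨Φ.map_target hy, hyU⟩
  · rintro y ⟨hy, hyU⟩
    exact Φ.left_inv hy
  · rintro y ⟨hy, hyU⟩
    exact Φ.right_inv hy
  · rintro y ⟨hy, hyU⟩
    show g y = Φ.toPartialEquiv y
    have h1 : g y = f y := hU hyU
    rw [h1]
    exact he hy

/-- the image of an open set under a local diffeomorphism -/
theorem mv2_open {M M' : Type*} [TopologicalSpace M] [ChartedSpace E4 M] [TopologicalSpace M']
    [ChartedSpace E4 M'] {f : M → M'} {C : Set M} (hC : IsOpen C)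
    (hf : ∀ x ∈ C, IsLocalDiffeomorphAt (𝓡 4) (𝓡 4) ∞ f x) : IsOpen (f '' C) := by
  rw [isOpen_iff_mem_nhds]
  rintro _ ⟨x, hx, rfl⟩
  obtain ⟨Φ, hxΦ, he⟩ := hf x hx
  have h1 : IsOpen (Φ.toOpenPartialHomeomorph '' (Φ.toOpenPartialHomeomorph.source ∩ C)) :=
    Φ.toOpenPartialHomeomorph.isOpen_image_source_inter hC
  refine mem_of_superset (h1.mem_nhds ⟨x, ⟨hxΦ, hx⟩, ?_⟩) ?_
  · exact (he hxΦ).symm
  · rintro _ ⟨y, ⟨hy, hyC⟩, rfl⟩
    exact ⟨y, hyC, he hy⟩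

/-- an inverse of an injective local diffeomorphism is a local diffeomorphism -/
theorem mv2_inv {M M' : Type*} [TopologicalSpace M] [ChartedSpace E4 M] [TopologicalSpace M']
    [ChartedSpace E4 M'] {f : M → M'} {C : Set M} (hC : IsOpen C)
    (hf : ∀ x ∈ C, IsLocalDiffeomorphAt (𝓡 4) (𝓡 4) ∞ f x) {R : M' → M} (hR : ∀ x ∈ C, R (f x) = x)
    {x : M} (hx : x ∈ C) : IsLocalDiffeomorphAt (𝓡 4) (𝓡 4) ∞ R (f x) := by
  obtain ⟨Φ, hxΦ, he⟩ := hf x hx
  have h0 : f x = Φ.toPartialEquiv x := he hxΦ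
  have h2 : IsLocalDiffeomorphAt (𝓡 4) (𝓡 4) ∞ Φ.symm (f x) := by
    refine ⟨Φ.symm, ?_, fun y _ => rfl⟩
    show f x ∈ Φ.target
    rw [h0]
    exact Φ.map_source hxΦ
  refine mv2_congr h2 ?_
  have h1 : IsOpen (Φ.toOpenPartialHomeomorph '' (Φ.toOpenPartialHomeomorph.source ∩ C)) :=
    Φ.toOpenPartialHomeomorph.isOpen_image_source_inter hC
  refine mem_of_superset (h1.mem_nhds ⟨x, ⟨hxΦ, hx⟩, h0.symm⟩) ?_
  rintro _ ⟨y, ⟨hy, hyC⟩, rfl⟩
  show R (Φ.toPartialEquiv y) = Φ.toPartialEquiv.symm (Φ.toPartialEquiv y)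
  have h3 : Φ.toPartialEquiv.symm (Φ.toPartialEquiv y) = y := Φ.left_inv hy
  have h4 : Φ.toPartialEquiv y = f y := (he hy).symm
  rw [h3, h4, hR y hyC]

theorem mv2_diffeo {V : Type*} [TopologicalSpace V] [ChartedSpace E4 V] {X : Type*} [TopologicalSpace X]
    [ChartedSpace E4 X] {κ : ℝ × E3 → V} {ε : ℝ} (S : Surg (fun _ : Unit => κ) ε X)
    (F : V ≃ₘ⟮𝓡 4, 𝓡 4⟯ V) : Nonempty (Surg (fun _ : Unit => fun x => F (κ x)) ε X) := by
  have hoff : ∀ p, Off (fun _ : Unit => fun x => F (κ x)) p → Off (fun _ : Unit => κ) (F.symm p) := by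
    intro p hp i l hl
    refine hp i l ?_
    show p = F (κ (l, 0))
    have h1 : F.symm p = κ (l, 0) := hl
    rw [← h1, F.apply_symm_apply]
  have hoff' : ∀ p, Off (fun _ : Unit => κ) p → Off (fun _ : Unit => fun x => F (κ x)) (F p) := by
    intro p hp i l hl
    exact hp i l (F.injective hl)
  refine ⟨⟨fun p => S.A (F.symm p), S.Q, ?_, ?_, ?_, ?_, ?_, ?_, ?_⟩⟩
  · intro p hp
    exact (F.symm.isLocalDiffeomorph p).comp (𝓡 4) X (S.A_loc (F.symm p) (hoff p hp))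
  · intro p p' hp hp' he
    exact F.symm.injective (S.A_inj _ _ (hoff p hp) (hoff p' hp') he)
  · exact S.Q_loc
  · intro i l r v h0 h1
    show S.Q i (r * ex l, v) = S.A (F.symm (F (κ (l, r • v.1))))
    rw [F.symm_apply_apply]
    exact S.glue i l r v h0 h1
  · exact S.Q_inj
  · intro i v p hp
    exact S.disj i v _ (hoff p hp)
  · intro q
    rcases S.cover q with ⟨p, hp, hq⟩ | ⟨i, v, hq⟩
    · refine Or.inl ⟨F p, hoff' p hp, ?_⟩
      rw [F.symm_apply_apply]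
      exact hq
    · exact Or.inr ⟨i, v, hq⟩

theorem mv2_germ {V : Type*} [TopologicalSpace V] [ChartedSpace E4 V] {X : Type*} [TopologicalSpace X]
    [ChartedSpace E4 X] {κ κ' : ℝ × E3 → V} {ε δ : ℝ} (S : Surg (fun _ : Unit => κ) ε X) (h0 : 0 < δ)
    (hδ : δ ≤ ε) (hg : ∀ (l : ℝ) (v : E3), ‖v‖ < δ → κ' (l, v) = κ (l, v)) :
    Nonempty (Surg (fun _ : Unit => κ') δ X) := by
  have hoff : ∀ p, Off (fun _ : Unit => κ') p ↔ Off (fun _ : Unit => κ) p := by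
    intro p
    constructor
    · intro hp i l hl
      refine hp i l ?_
      show p = κ' (l, 0)
      rw [hg l 0 (by simpa using h0)]
      exact hl
    · intro hp i l hl
      refine hp i l ?_
      show p = κ (l, 0)
      rw [← hg l 0 (by simpa using h0)]
      exact hl
  refine ⟨⟨S.A, S.Q, ?_, ?_, ?_, ?_, ?_, ?_, ?_⟩⟩
  · exact fun p hp => S.A_loc p ((hoff p).mp hp)
  · exact fun p p' hp hp' he => S.A_inj p p' ((hoff p).mp hp) ((hoff p').mp hp') he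
  · exact fun i z v hz => S.Q_loc i z v (lt_of_lt_of_le hz hδ)
  · intro i l r v h1 h2
    show S.Q i (r * ex l, v) = S.A (κ' (l, r • v.1))
    have h3 : ‖r • v.1‖ < δ := by
      have h4 : ‖v.1‖ = 1 := by simp
      rw [norm_smul, h4, mul_one, Real.norm_eq_abs, abs_of_pos h1]
      exact h2
    rw [hg l _ h3]
    exact S.glue i l r v h1 (lt_of_lt_of_le h2 hδ)
  · exact S.Q_inj
  · exact fun i v p hp => S.disj i v p ((hoff p).mp hp)
  · intro q
    rcases S.cover q with ⟨p, hp, hq⟩ | ⟨i, v, hq⟩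
    · exact Or.inl ⟨p, (hoff p).mpr hp, hq⟩
    · exact Or.inr ⟨i, v, hq⟩

theorem move_V [T2Space N] [IsManifold (𝓡 4) ∞ N] {κ₁ κ₂ : ℝ × E3 → N} {X : Type*} [TopologicalSpace X]
    [ChartedSpace E4 X] (h : IsSurg ![κ₁, κ₂] X) {ε : ℝ} {V : Type*} [TopologicalSpace V] [ChartedSpace E4 V]
    [IsManifold (𝓡 4) ∞ V] [T2Space V] (SV : Surg (fun _ : Unit => κ₂) ε V) (hε : 0 < ε) {c : ℝ → N} (hc : Circ c)
    (hcκ : ∀ t, c t ∉ range (core κ₂)) (hh : FHom univ (fun t => SV.A (κ₁ (t, 0))) fun t => SV.A (c t)) :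
    ∃ κ₁' : ℝ × E3 → N, core κ₁' = c ∧ IsSurg ![κ₁', κ₂] X := by
  obtain ⟨ε₁, hT₁, ⟨S₁⟩⟩ := h
  have hε₁ : 0 < ε₁ := (hT₁.thick 0).pos
  have hε' : 0 < min ε ε₁ := lt_min hε hε₁
  have hT : Tubes ![κ₁, κ₂] (min ε ε₁) := hT₁.mono hε' (min_le_right _ _)
  obtain ⟨hT', ⟨S'⟩⟩ := surg_to hT (S₁.mono (min_le_right ε ε₁)) (SV.mono (min_le_left ε ε₁))
  have hTv : Thick (fun x => SV.A (κ₁ x)) (min ε ε₁) := hT'.thick ()
  have h2 : Thick κ₂ (min ε ε₁) := hT.thick 1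
  have hc1 : Circ (fun t => SV.A (κ₁ (t, 0))) := hTv.circ
  have hc2 : Circ (fun t => SV.A (c t)) := circ_A h2 (SV.mono (min_le_left ε ε₁)) hc hcκ
  obtain ⟨F, hF, -⟩ := gp_iso Obst.empty hc1 hc2 (fun _ => Set.notMem_empty _) (fun _ => Set.notMem_empty _) hh
  have hF' : ∀ t, F (SV.A (κ₁ (t, 0))) = SV.A (c t) := hF
  let κV : ℝ × E3 → V := fun x => F (SV.A (κ₁ x))
  have hκV : Thick κV (min ε ε₁) := thick_comp hTv (U := univ) (fun _ _ _ => mem_univ _)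
    (fun x _ => F.isLocalDiffeomorph x) F.injective.injOn
  obtain ⟨SF⟩ := mv2_diffeo S' F
  let C : Set N := (range (core κ₂))ᶜ
  have hC : IsOpen C := (core_compact h2).isClosed.isOpen_compl
  have hoff : ∀ p ∈ C, Off (fun _ : Unit => κ₂) p := by
    intro p hp i l hl
    exact hp ⟨l, hl.symm⟩
  have hAl : ∀ p ∈ C, IsLocalDiffeomorphAt (𝓡 4) (𝓡 4) ∞ SV.A p := fun p hp => SV.A_loc p (hoff p hp)
  have hAi : InjOn SV.A C := fun p hp p' hp' he => SV.A_inj p p' (hoff p hp) (hoff p' hp') he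
  have hUo : IsOpen (SV.A '' C) := mv2_open hC hAl
  obtain ⟨δ, hδ, hδε, hδU⟩ := thick_near hκV hUo (fun l => by
    show F (SV.A (κ₁ (l, 0))) ∈ SV.A '' C
    rw [hF']
    exact ⟨c l, hcκ l, rfl⟩)
  have : Nonempty N := ⟨c 0⟩
  let R : V → N := Function.invFunOn SV.A C
  have hR : ∀ p ∈ C, R (SV.A p) = p := fun p hp => hAi.leftInvOn_invFunOn hp
  have hRl : ∀ q ∈ SV.A '' C, IsLocalDiffeomorphAt (𝓡 4) (𝓡 4) ∞ R q := by
    rintro _ ⟨p, hp, rfl⟩
    exact mv2_inv hC hAl hR hp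
  have hRi : InjOn R (SV.A '' C) := by
    rintro _ ⟨p, hp, rfl⟩ _ ⟨p', hp', rfl⟩ he
    rw [hR p hp, hR p' hp'] at he
    rw [he]
  have hAR : ∀ q ∈ SV.A '' C, SV.A (R q) = q := by
    rintro _ ⟨p, hp, rfl⟩
    rw [hR p hp]
  have hκ' : Thick (fun x => R (κV x)) δ := thick_comp (hκV.mono hδ hδε) hδU hRl hRi
  have hκ0 : ∀ l, R (κV (l, 0)) = c l := by
    intro l
    show R (F (SV.A (κ₁ (l, 0)))) = c l
    rw [hF', hR _ (hcκ l)]
  obtain ⟨δ', hδ', hδδ, hT''⟩ := tubes_pair hκ' (h2.mono hδ hδε) (fun l l' he => by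
    have h5 : c l = κ₂ (l', 0) := by rw [← hκ0 l]; exact he
    exact hcκ l ⟨l', h5.symm⟩)
  have hle : δ' ≤ min ε ε₁ := hδδ.trans hδε
  obtain ⟨S''⟩ := mv2_germ (κ' := fun x => SV.A (R (κV x))) SF hδ' hle (fun l v hv => by
    show SV.A (R (κV (l, v))) = κV (l, v)
    exact hAR _ (hδU l v (lt_of_lt_of_le hv hδδ)))
  refine ⟨fun x => R (κV x), funext hκ0, δ', hT'', ?_⟩
  exact surg_from hT'' (SV.mono (hle.trans (min_le_left _ _))) S''

end Pool.Agent.ACB
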