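import Pool.Agent.ACB.Bal
import Pool.Agent.ACB.FHm

/-!
# ACB/Lop: periodic curves of loops

PROOFS.  `per_coe`: `t < 1`: `Int.fract t = t`; `t = 1`: `per δ 1 = δ 0 = x = δ 1`.  `per_eq`: `c t = c (Int.fract t)` (`per_int`), `per_coe`.
`per_cont`, and all homotopies: `ContinuousOn.comp_fract'` (`f (s, t)` continuous on `univ × [0, 1]` with `f (s, 0) = f (s, 1)` gives that `(s, t) ↦ f (s, fract t)` is continuous);
`FHom.mk'` allows to restrict to `s ∈ [0, 1]` (clamp `s` first with `projIcc`).
`path_of`: `δ t = c t` (endpoint `c 1 = c 0`).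
`per_hom`: `h = ⟨F⟩`, `F : Path.Homotopy δ δ'`; `H s t = F (projIcc s, projIcc (fract t))`.
`per_conj`: for `t ∈ [0, 1]` the path `(μ.trans δ).trans μ.symm` is `μ (4 t)` on `[0, 1/4]`, `δ (4 t - 1)` on `[1/4, 1/2]`, `μ (2 - 2 t)` on `[1/2, 1]`.  First homotopy (`u ∈ [0, 1]`):
`μ (u + (1 - u) 4 t)`, `δ (4 t - 1)`, `μ (1 - (1 - u) (2 t - 1))`; closed: both ends are `μ u`.  For `u = 1` it is `δ (φ t)`, `φ t = max 0 (min 1 (4 t - 1))`.  Second homotopy:
`δ ((1 - s) φ t + s t)`.  (All with `Path.extend`, `FHom.trans`; `Continuous.if_le`.)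
-/

open scoped ContDiff Manifold Topology unitInterval
open Set Filter

namespace Pool.Agent.ACB

universe u
variable {N : Type u} [TopologicalSpace N] [ChartedSpace E4 N]

/-- the periodic curve of a loop -/
noncomputable def per {x : N} (δ : Path x x) (t : ℝ) : N := δ.extend (Int.fract t)

theorem per_cont {x : N} (δ : Path x x) : Continuous (per δ) := by
  have h := ContinuousOn.comp_fract'' (f := fun t : ℝ => δ.extend t) δ.continuous_extend.continuousOn
    (by simp)
  exact h

theorem per_per {x : N} (δ : Path x x) (t : ℝ) : per δ (t + 1) = per δ t := by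
  simp only [per, Int.fract_add_one]

theorem per_coe {x : N} (δ : Path x x) (t : I) : per δ t = δ t := by
  have h0 := t.2.1
  rcases t.2.2.lt_or_eq with h | h
  · have h2 : Int.fract (t : ℝ) = t := Int.fract_eq_self.2 ⟨h0, h⟩
    simp only [per, h2, Path.extend_extends']
  · have h2 : t = 1 := Subtype.ext h
    subst h2
    simp [per]

theorem lop_int {c : ℝ → N} (hper : ∀ t, c (t + 1) = c t) (t : ℝ) : c (Int.fract t) = c t := by
  have h : Function.Periodic c 1 := hper
  have h2 := h.sub_int_mul_eq (n := ⌊t⌋) (x := t)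
  rw [mul_one] at h2
  exact h2

theorem per_eq {c : ℝ → N} (hper : ∀ t, c (t + 1) = c t) {x : N} (γ : Path x x) (hγ : ∀ t : I, γ t = c t) :
    per γ = c := by
  funext t
  have hf : Int.fract t ∈ Icc (0 : ℝ) 1 := ⟨Int.fract_nonneg t, (Int.fract_lt_one t).le⟩
  rw [← lop_int hper t, per, Path.extend_apply _ hf]
  exact hγ ⟨_, hf⟩

theorem path_of {c : ℝ → N} (hc : Continuous c) (hper : ∀ t, c (t + 1) = c t) :
    ∃ δ : Path (c 0) (c 0), (∀ t : I, δ t = c t) ∧ per δ = c := by
  have h1 : c 1 = c 0 := by
    have := hper 0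
    rwa [zero_add] at this
  refine ⟨⟨⟨fun t : I => c t, by fun_prop⟩, by simp, by simp [h1]⟩, fun t => rfl, ?_⟩
  exact per_eq hper _ fun t => rfl

/-- clamp -/
noncomputable def lop_cl (s : ℝ) : I := projIcc 0 1 zero_le_one s

theorem lop_cl_cont : Continuous lop_cl := continuous_projIcc (h := zero_le_one)

theorem per_hom {x : N} {δ δ' : Path x x} (h : Path.Homotopic δ δ') : FHom univ (per δ) (per δ') := by
  obtain ⟨F⟩ := h
  have hcl : Continuous lop_cl := lop_cl_cont
  have hF : Continuous fun q : ℝ × ℝ => F (lop_cl q.1, lop_cl q.2) := by fun_prop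
  have h01 : (lop_cl 0) = 0 := by simp [lop_cl]
  have h11 : (lop_cl 1) = 1 := by simp [lop_cl]
  have hfr : ∀ t : ℝ, ∃ h : Int.fract t ∈ Icc (0 : ℝ) 1, lop_cl (Int.fract t) = ⟨Int.fract t, h⟩ := by
    intro t
    have h : Int.fract t ∈ Icc (0 : ℝ) 1 := ⟨Int.fract_nonneg t, (Int.fract_lt_one t).le⟩
    exact ⟨h, projIcc_of_mem _ h⟩
  refine ⟨fun s t => F (lop_cl s, lop_cl (Int.fract t)), ?_, ?_, ?_, ?_, fun _ _ => mem_univ _⟩
  · refine ContinuousOn.comp_fract' (f := fun s t : ℝ => F (lop_cl s, lop_cl t)) hF.continuousOn ?_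
    intro s
    rw [h01, h11]
    simp
  · intro s t
    simp only [Int.fract_add_one]
  · funext t
    obtain ⟨h, h2⟩ := hfr t
    simp only [per]
    rw [h2, h01, Path.extend_apply _ h]
    simp
  · funext t
    obtain ⟨h, h2⟩ := hfr t
    simp only [per]
    rw [h2, h11, Path.extend_apply _ h]
    simp

theorem per_conj {x y : N} (μ : Path y x) (δ : Path x x) :
    FHom univ (per ((μ.trans δ).trans μ.symm)) (per δ) := by
  have hcl : Continuous lop_cl := lop_cl_cont
  have h01 : (lop_cl 0) = 0 := by simp [lop_cl]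
  have h11 : (lop_cl 1) = 1 := by simp [lop_cl]
  have hμ := μ.continuous_extend
  have hδ := δ.continuous_extend
  refine FHom.trans (c' := fun t => δ.extend (4 * Int.fract t - 1)) ?_ ?_
  · -- first homotopy
    let K : ℝ → ℝ → N := fun s t =>
      if t ≤ 1 / 4 then μ.extend ((lop_cl s : ℝ) + (1 - lop_cl s) * (4 * t))
      else if t ≤ 1 / 2 then δ.extend (4 * t - 1)
      else μ.extend (1 - (1 - lop_cl s) * (2 * t - 1))
    have hK : Continuous (Function.uncurry K) := by
      refine Continuous.if_le (by fun_prop) ?_ continuous_snd continuous_const ?_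
      · refine Continuous.if_le (by fun_prop) (by fun_prop) continuous_snd continuous_const ?_
        intro q hq
        rw [hq]
        have e1 : (4 * (1 / 2 : ℝ) - 1) = 1 := by norm_num
        have e2 : (1 - (1 - (lop_cl q.1 : ℝ)) * (2 * (1 / 2) - 1)) = 1 := by ring
        rw [e1, e2, Path.extend_one, Path.extend_one]
      · intro q hq
        rw [hq]
        have e1 : (4 * (1 / 4 : ℝ) - 1) = 0 := by norm_num
        have e2 : ((lop_cl q.1 : ℝ) + (1 - lop_cl q.1) * (4 * (1 / 4))) = 1 := by ring
        rw [e1, e2, if_pos (by norm_num), Path.extend_one, Path.extend_zero]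
    refine ⟨fun s t => K s (Int.fract t), ?_, ?_, ?_, ?_, fun _ _ => mem_univ _⟩
    · refine ContinuousOn.comp_fract' (f := K) hK.continuousOn ?_
      intro s
      simp only [K]
      rw [if_pos (by norm_num), if_neg (by norm_num), if_neg (by norm_num)]
      congr 1
      ring
    · intro s t
      simp only [Int.fract_add_one]
    · funext t
      have hf : Int.fract t ∈ Icc (0 : ℝ) 1 := ⟨Int.fract_nonneg t, (Int.fract_lt_one t).le⟩
      simp only [K, per]
      generalize Int.fract t = f at hf
      rw [h01]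
      simp only [Set.Icc.coe_zero, sub_zero, one_mul, zero_add]
      by_cases h1 : f ≤ 1 / 4
      · rw [if_pos h1, Path.extend_trans_of_le_half _ _ (by linarith),
          Path.extend_trans_of_le_half _ _ (by linarith)]
        congr 1
        ring
      · push Not at h1
        rw [if_neg (by linarith)]
        by_cases h2 : f ≤ 1 / 2
        · rw [if_pos h2, Path.extend_trans_of_le_half _ _ (by linarith),
            Path.extend_trans_of_half_le _ _ (by linarith)]
          congr 1
          ring
        · push Not at h2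
          rw [if_neg (by linarith), Path.extend_trans_of_half_le _ _ (by linarith),
            Path.extend_symm_apply]
    · funext t
      have hf : Int.fract t ∈ Icc (0 : ℝ) 1 := ⟨Int.fract_nonneg t, (Int.fract_lt_one t).le⟩
      simp only [K]
      generalize Int.fract t = f at hf
      rw [h11]
      simp only [Set.Icc.coe_one, sub_self, zero_mul, add_zero, sub_zero]
      by_cases h1 : f ≤ 1 / 4
      · rw [if_pos h1, Path.extend_one, Path.extend_of_le_zero _ (by linarith)]
      · push Not at h1
        rw [if_neg (by linarith)]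
        by_cases h2 : f ≤ 1 / 2
        · rw [if_pos h2]
        · push Not at h2
          rw [if_neg (by linarith), Path.extend_one, Path.extend_of_one_le _ (by linarith)]
  · -- second homotopy
    let K : ℝ → ℝ → N := fun s t =>
      δ.extend ((1 - (lop_cl s : ℝ)) * (4 * t - 1) + lop_cl s * t)
    have hK : Continuous (Function.uncurry K) := by
      show Continuous fun q : ℝ × ℝ => δ.extend ((1 - (lop_cl q.1 : ℝ)) * (4 * q.2 - 1) + lop_cl q.1 * q.2)
      fun_prop
    refine ⟨fun s t => K s (Int.fract t), ?_, ?_, ?_, ?_, fun _ _ => mem_univ _⟩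
    · refine ContinuousOn.comp_fract' (f := K) hK.continuousOn ?_
      intro s
      have h1 := (lop_cl s).2.1
      have h2 := (lop_cl s).2.2
      simp only [K]
      rw [Path.extend_of_le_zero _ (by linarith), Path.extend_of_one_le _ (by linarith)]
    · intro s t
      simp only [Int.fract_add_one]
    · funext t
      simp only [K]
      rw [h01]
      simp
    · funext t
      simp only [K, per]
      rw [h11]
      simp

end Pool.Agent.ACB
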