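import Pool.Agent.ACB.Bal
import Pool.Agent.ACB.Lop

/-!
# ACB/ClF: classes of closed curves, I

PROOFS.  `Cls.mk`: `x = γ 0 = c 0`; `subst`.
(`σ` is a scoped symbol of unitInterval: in Lean the path is called `ρ`.)
`cls_track`: in the convex (contractible, simply connected) space `ℝ × ℝ` the straight path `β` from `(0, 0)` to `(0, 1)` is homotopic to `λ.trans (τ.trans ρ.symm)` where `λ` is the straight
path from `(0, 0)` to `(1, 0)`, `τ` from `(1, 0)` to `(1, 1)`, `ρ` from `(0, 1)` to `(1, 1)` (`SimplyConnectedSpace.paths_homotopic`, instance from `ContractibleSpace (ℝ × ℝ)`).  Its image under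
`(s, t) ↦ H s t` (`Path.Homotopic.map`, and `Path.map`): `γ ≃ σ.trans (γ'.trans σ.symm)`, after `Path.cast` / `Path.ext` (`H s 1 = H s 0 = σ s`).  Then
`(a.trans γ).trans a.symm ≃ (a.trans (σ.trans (γ'.trans σ.symm))).trans a.symm ≃ ((a.trans σ).trans γ').trans (a.trans σ).symm` (associativity: work in `Path.Homotopic.Quotient`, or in the
groupoid `FundamentalGroupoid`; `Path.trans_symm`).
`cls_fhom`: from `h` take `H`; from `hc` take `a, γ`; `σ s = H s 0` is a path from `c 0` to `c' 0`, `γ'` = `path_of c'`; `cls_track`, then `Cls` with `a.trans σ`; equality in the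
quotient: `Quotient.sound`.
-/

open scoped ContDiff Manifold Topology unitInterval
open Set Filter

namespace Pool.Agent.ACB

universe u
variable {N : Type u} [TopologicalSpace N] [ChartedSpace E4 N]

theorem clF_sq {x x' y y' : N} (F : C(ℝ × ℝ, N)) (γ : Path x y) (hγ : ∀ t : I, γ t = F (0, (t : ℝ)))
    (γ' : Path x' y') (hγ' : ∀ t : I, γ' t = F (1, (t : ℝ))) (ρ : Path x x') (hρ : ∀ s : I, ρ s = F ((s : ℝ), 0))
    (ρ' : Path y y') (hρ' : ∀ s : I, ρ' s = F ((s : ℝ), 1)) :
    Path.Homotopic γ (ρ.trans (γ'.trans ρ'.symm)) := by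
  obtain rfl : x = F (0, 0) := by have := hγ 0; rwa [γ.source] at this
  obtain rfl : y = F (0, 1) := by have := hγ 1; rwa [γ.target] at this
  obtain rfl : x' = F (1, 0) := by have := hγ' 0; rwa [γ'.source] at this
  obtain rfl : y' = F (1, 1) := by have := hγ' 1; rwa [γ'.target] at this
  let β : Path ((0, 0) : ℝ × ℝ) (0, 1) :=
    { toFun := fun t => (0, (t : ℝ)), continuous_toFun := by fun_prop, source' := by simp, target' := by simp }
  let τ : Path ((1, 0) : ℝ × ℝ) (1, 1) :=
    { toFun := fun t => (1, (t : ℝ)), continuous_toFun := by fun_prop, source' := by simp, target' := by simp }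
  let l : Path ((0, 0) : ℝ × ℝ) (1, 0) :=
    { toFun := fun t => ((t : ℝ), 0), continuous_toFun := by fun_prop, source' := by simp, target' := by simp }
  let r : Path ((0, 1) : ℝ × ℝ) (1, 1) :=
    { toFun := fun t => ((t : ℝ), 1), continuous_toFun := by fun_prop, source' := by simp, target' := by simp }
  have h := (SimplyConnectedSpace.paths_homotopic β (l.trans (τ.trans r.symm))).map F
  rw [Path.map_trans, Path.map_trans, ← Path.map_symm] at h
  have e1 : β.map F.continuous = γ := by ext t; exact (hγ t).symm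
  have e2 : τ.map F.continuous = γ' := by ext t; exact (hγ' t).symm
  have e3 : l.map F.continuous = ρ := by ext t; exact (hρ t).symm
  have e4 : r.map F.continuous = ρ' := by ext t; exact (hρ' t).symm
  rw [e1, e2, e3, e4] at h
  exact h

theorem Cls.mk {p : N} {c : ℝ → N} {g : FundamentalGroup N p} {x : N} (a : Path p x) (γ : Path x x)
    (hγ : ∀ t : I, γ t = c t) (h : FundamentalGroup.fromPath ⟦(a.trans γ).trans a.symm⟧ = g) : Cls p c g := by
  obtain rfl : x = c 0 := by have := hγ 0; rwa [γ.source] at this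
  exact ⟨a, γ, hγ, h⟩

theorem cls_track {p x x' : N} (H : ℝ → ℝ → N) (hH : Continuous fun y : ℝ × ℝ => H y.1 y.2)
    (hper : ∀ s t, H s (t + 1) = H s t) (a : Path p x) (γ : Path x x) (hγ : ∀ t : I, γ t = H 0 t)
    (γ' : Path x' x') (hγ' : ∀ t : I, γ' t = H 1 t) (ρ : Path x x') (hρ : ∀ s : I, ρ s = H s 0) :
    Path.Homotopic ((a.trans γ).trans a.symm) (((a.trans ρ).trans γ').trans (a.trans ρ).symm) := by
  have h := clF_sq ⟨fun y : ℝ × ℝ => H y.1 y.2, hH⟩ γ hγ γ' hγ' ρ hρ ρ (by
    intro s
    have := hper s 0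
    rw [zero_add] at this
    show ρ s = H s 1
    rw [this, hρ])
  rw [← Path.Homotopic.Quotient.eq] at h ⊢
  simp only [Path.Homotopic.Quotient.mk_trans, Path.Homotopic.Quotient.mk_symm, Path.trans_symm] at h ⊢
  rw [h]
  simp only [Path.Homotopic.Quotient.trans_assoc]

theorem cls_fhom {p : N} {c c' : ℝ → N} {g : FundamentalGroup N p} (h : FHom univ c c') (hc : Cls p c g) :
    Cls p c' g := by
  obtain ⟨H, hH, hper, rfl, rfl, -⟩ := h
  obtain ⟨a, γ, hγ, hg⟩ := hc
  let ρ : Path (H 0 0) (H 1 0) :=
    { toFun := fun s => H s 0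
      continuous_toFun := hH.comp (continuous_subtype_val.prodMk continuous_const)
      source' := rfl
      target' := rfl }
  let γ' : Path (H 1 0) (H 1 0) :=
    { toFun := fun t => H 1 t
      continuous_toFun := hH.comp (continuous_const.prodMk continuous_subtype_val)
      source' := rfl
      target' := by
        have := hper 1 0
        rw [zero_add] at this
        exact this }
  refine ⟨a.trans ρ, γ', fun _ => rfl, ?_⟩
  rw [← hg]
  exact (Quotient.sound (cls_track H hH hper a γ hγ γ' (fun _ => rfl) ρ fun _ => rfl)).symm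

end Pool.Agent.ACB
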