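import Pool.Agent.ACB.Bal
import Pool.Agent.ACB.Lop

/-!
# ACB/ClU: classes of closed curves, II

PROOFS.  `cls_unique`: from `h, h'`: `(a.trans γ).trans a.symm` and `(a'.trans γ').trans a'.symm` are homotopic (`Quotient.exact`; `FundamentalGroup.fromPath` is injective).  `per_conj`, `per_hom`:
`c = per γ ~ per ((a.trans γ).trans a.symm) ~ per ((a'.trans γ').trans a'.symm) ~ per γ' = c'` (`per_eq`, `FHom.symm`, `FHom.trans`).
`cls_conj`: `k` is the class of a loop `κ` at `p` (`FundamentalGroup.fromPath` is surjective, `Quotient.exists_rep`); use the path `κ.trans a` or `κ.symm.trans a` (depending on the order of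
multiplication in `FundamentalGroup`: `g * h` is the class of the composite in the category `FundamentalGroupoid`, look at `FundamentalGroup` and `CategoryTheory.Aut` / `End`).
`cls_inv`: the path `γ.symm` is `t ↦ c (1 - t) = c (- t)`; `((a.trans γ).trans a.symm).symm` is homotopic to `(a.trans γ.symm).trans a.symm`.
`loop_of`: `g` is the class of a loop `κ` at `p`; `γ = (a.symm.trans κ).trans a`.
-/

open scoped ContDiff Manifold Topology unitInterval
open Set Filter

namespace Pool.Agent.ACB

universe u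
variable {N : Type u} [TopologicalSpace N] [ChartedSpace E4 N]

theorem clU_mk {p : N} {c : ℝ → N} {g : FundamentalGroup N p} {x : N} (a : Path p x) (γ : Path x x)
    (hγ : ∀ t : I, γ t = c t) (h : FundamentalGroup.fromPath ⟦(a.trans γ).trans a.symm⟧ = g) : Cls p c g := by
  obtain rfl : x = c 0 := by have := hγ 0; rwa [γ.source] at this
  exact ⟨a, γ, hγ, h⟩

theorem cls_unique {p : N} {c c' : ℝ → N} {g : FundamentalGroup N p} (hper : ∀ t, c (t + 1) = c t)
    (hper' : ∀ t, c' (t + 1) = c' t) (h : Cls p c g) (h' : Cls p c' g) : FHom univ c c' := by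
  obtain ⟨a, γ, hγ, e⟩ := h
  obtain ⟨a', γ', hγ', e'⟩ := h'
  have h1 : Path.Homotopic ((a.trans γ).trans a.symm) ((a'.trans γ').trans a'.symm) :=
    Quotient.exact (e.trans e'.symm)
  have h2 := per_eq hper γ hγ
  have h3 := per_eq hper' γ' hγ'
  have h4 := ((per_conj a γ).symm.trans (per_hom h1)).trans (per_conj a' γ')
  rwa [h2, h3] at h4

theorem cls_conj {p : N} {c : ℝ → N} {g : FundamentalGroup N p} (h : Cls p c g) (k : FundamentalGroup N p) :
    Cls p c (k * g * k⁻¹) := by
  obtain ⟨a, γ, hγ, e⟩ := h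
  obtain ⟨κ, hκ⟩ := Path.Homotopic.Quotient.mk_surjective k
  refine ⟨κ.symm.trans a, γ, hγ, ?_⟩
  rw [FundamentalGroup.mul_def, FundamentalGroup.mul_def, FundamentalGroup.inv_def, ← e, ← hκ]
  show Path.Homotopic.Quotient.mk _ = Path.Homotopic.Quotient.trans (Path.Homotopic.Quotient.symm
    (Path.Homotopic.Quotient.mk κ)) (Path.Homotopic.Quotient.trans (Path.Homotopic.Quotient.mk _)
      (Path.Homotopic.Quotient.mk κ))
  simp only [Path.Homotopic.Quotient.mk_trans, Path.Homotopic.Quotient.mk_symm, Path.trans_symm,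
    Path.Homotopic.Quotient.trans_assoc, Path.symm_symm]

theorem cls_inv {p : N} {c : ℝ → N} {g : FundamentalGroup N p} (hper : ∀ t, c (t + 1) = c t) (h : Cls p c g) :
    Cls p (fun t => c (-t)) g⁻¹ := by
  obtain ⟨a, γ, hγ, e⟩ := h
  refine clU_mk a γ.symm ?_ ?_
  · intro t
    show γ (unitInterval.symm t) = c (-(t : ℝ))
    rw [hγ]
    have := hper (-(t : ℝ))
    rw [← this]
    congr 1
    rw [unitInterval.coe_symm_eq]
    ring
  · rw [FundamentalGroup.inv_def, ← e]
    show Path.Homotopic.Quotient.mk _ = Path.Homotopic.Quotient.symm (Path.Homotopic.Quotient.mk _)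
    rw [← Path.Homotopic.Quotient.mk_symm]
    simp only [Path.Homotopic.Quotient.mk_trans, Path.Homotopic.Quotient.mk_symm, Path.trans_symm,
      Path.Homotopic.Quotient.trans_assoc, Path.symm_symm]

theorem loop_of {p x : N} (a : Path p x) (g : FundamentalGroup N p) :
    ∃ γ : Path x x, FundamentalGroup.fromPath ⟦(a.trans γ).trans a.symm⟧ = g := by
  obtain ⟨κ, hκ⟩ := Path.Homotopic.Quotient.mk_surjective g
  refine ⟨(a.symm.trans κ).trans a, ?_⟩
  rw [← hκ]
  show Path.Homotopic.Quotient.mk _ = Path.Homotopic.Quotient.mk κ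
  simp only [Path.Homotopic.Quotient.mk_trans, Path.Homotopic.Quotient.mk_symm, Path.Homotopic.Quotient.trans_assoc]
  rw [Path.Homotopic.Quotient.trans_symm, Path.Homotopic.Quotient.trans_refl,
    ← Path.Homotopic.Quotient.trans_assoc, Path.Homotopic.Quotient.trans_symm, Path.Homotopic.Quotient.refl_trans]

end Pool.Agent.ACB
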