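import Pool.Agent.ACB.Bal
import Pool.Agent.ACB.InsA
import Pool.Agent.ACB.ClF
import Pool.Agent.ACB.ClU

/-!
# ACB/InsC: class of the insertion

PROOF.  The loop `ε = (μ.trans δ).trans (μ.symm.trans γ)` at `x` satisfies `ε t = ins m d c t` for `t ∈ [0, 1]` (`Path.trans_apply`: `μ` on `[0, 1/4]`, `δ` on `[1/4, 1/2]`, `μ.symm` on `[1/2, 3/4]`,
`γ` on `[3/4, 1]`; at `t = 1`: `fract 1 = 0`, `ins = m 0 = μ 0 = x`).  In the fundamental groupoid
`[(a.trans ε).trans a.symm] = [((a.trans μ).trans δ).trans (a.trans μ).symm] [(a.trans γ).trans a.symm]` (concatenation).  In the group `FundamentalGroup N p` this is `h * g` or `g * h`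
(depending on the convention).  If it is `g * h`: `Cls.mk`.  If it is `h * g`: `Cls.mk` gives `Cls p _ (h * g)`, and `g * h = h⁻¹ * (h * g) * h`: `cls_conj` with `k = h⁻¹`.
-/

open scoped ContDiff Manifold Topology unitInterval
open Set Filter

namespace Pool.Agent.ACB

universe u
variable {N : Type u} [TopologicalSpace N] [ChartedSpace E4 N]

theorem insc_path {x y : N} {m d c : ℝ → N} (γ : Path x x)
    (hγ : ∀ t : I, γ t = c t) (μ : Path x y)
    (hμ : ∀ t : I, μ t = m t) (δ : Path y y) (hδ : ∀ t : I, δ t = d t) (t : I) :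
    ((μ.trans δ).trans (μ.symm.trans γ)) t = ins m d c t := by
  have ht0 := t.2.1
  have ht1 := t.2.2
  by_cases h1 : (t : ℝ) = 1
  · have e1 : t = 1 := Subtype.ext h1
    have e2 : Int.fract (((1 : I) : ℝ)) = 0 := by simp
    have e3 : ins m d c ((1 : I) : ℝ) = m 0 := by
      unfold ins
      rw [if_pos (by rw [e2]; norm_num), e2, mul_zero]
    have e4 : μ 0 = m 0 := by
      have h := hμ 0
      rwa [Icc.coe_zero] at h
    rw [e1, Path.target, e3, ← e4, Path.source]
  · have hfr : Int.fract (t : ℝ) = t := Int.fract_eq_self.2 ⟨t.2.1, lt_of_le_of_ne t.2.2 h1⟩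
    unfold ins
    rw [hfr, Path.trans_apply]
    by_cases h2 : (t : ℝ) ≤ 1 / 2
    · rw [dif_pos h2, Path.trans_apply]
      by_cases h3 : (t : ℝ) ≤ 1 / 4
      · rw [dif_pos (show (2 * (t : ℝ)) ≤ 1 / 2 by linarith), if_pos h3, hμ]
        change m (2 * (2 * (t : ℝ))) = _
        congr 1
        ring
      · rw [dif_neg (show ¬ (2 * (t : ℝ)) ≤ 1 / 2 by linarith), if_neg h3, if_pos h2, hδ]
        change d (2 * (2 * (t : ℝ)) - 1) = _
        congr 1
        ring
    · rw [dif_neg h2, Path.trans_apply]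
      have h3 : ¬ (t : ℝ) ≤ 1 / 4 := by linarith
      rw [if_neg h3, if_neg h2]
      by_cases h4 : (t : ℝ) ≤ 3 / 4
      · rw [dif_pos (show (2 * (t : ℝ) - 1) ≤ 1 / 2 by linarith), if_pos h4, Path.symm_apply, Function.comp_apply, hμ]
        change m (1 - 2 * (2 * (t : ℝ) - 1)) = _
        congr 1
        ring
      · rw [dif_neg (show ¬ (2 * (t : ℝ) - 1) ≤ 1 / 2 by linarith), if_neg h4, hγ]
        change c (2 * (2 * (t : ℝ) - 1) - 1) = _
        congr 1
        ring

theorem insc_quot {p x y : N} (a : Path p x) (γ : Path x x) (μ : Path x y) (δ : Path y y) :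
    Path.Homotopic.Quotient.mk ((a.trans ((μ.trans δ).trans (μ.symm.trans γ))).trans a.symm) =
      (Path.Homotopic.Quotient.mk (((a.trans μ).trans δ).trans (a.trans μ).symm)).trans
        (Path.Homotopic.Quotient.mk ((a.trans γ).trans a.symm)) := by
  have hc : ∀ {z : N} (X : Path.Homotopic.Quotient x z),
      (Path.Homotopic.Quotient.mk a.symm).trans ((Path.Homotopic.Quotient.mk a).trans X) = X := by
    intro z X
    rw [← Path.Homotopic.Quotient.trans_assoc, Path.Homotopic.Quotient.mk_symm,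
      Path.Homotopic.Quotient.symm_trans, Path.Homotopic.Quotient.refl_trans]
  rw [Path.trans_symm]
  simp only [Path.Homotopic.Quotient.mk_trans, Path.Homotopic.Quotient.trans_assoc, hc]

theorem ins_cls {p x y : N} {m d c : ℝ → N} {g h : FundamentalGroup N p} (a : Path p x) (γ : Path x x)
    (hγ : ∀ t : I, γ t = c t) (hg : FundamentalGroup.fromPath ⟦(a.trans γ).trans a.symm⟧ = g) (μ : Path x y)
    (hμ : ∀ t : I, μ t = m t) (δ : Path y y) (hδ : ∀ t : I, δ t = d t)
    (hh : FundamentalGroup.fromPath ⟦((a.trans μ).trans δ).trans (a.trans μ).symm⟧ = h) :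
    Cls p (ins m d c) (g * h) := by
  refine Cls.mk a ((μ.trans δ).trans (μ.symm.trans γ)) (insc_path γ hγ μ hμ δ hδ) ?_
  rw [FundamentalGroup.mul_def, ← hg, ← hh]
  exact insc_quot a γ μ δ

end Pool.Agent.ACB
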