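import Pool.Agent.ACB.Bal
import Pool.Agent.ACB.Tbe
import Pool.Agent.ACB.FHm

/-!
# ACB/Prl: the parallel curve

PROOFS.  `par_null`: `D s t = S.Q () ((max 0 (min 1 (1 - s)) * r : ℝ) * ex t, v)`; `‖..‖ ≤ r < ε`, `S.Q ()` is continuous at these points (`S.Q_loc`), `ex` is continuous with period `1`;
`D 0 t = S.Q () (r * ex t, v) = S.A (κ (t, r • v))` (`S.glue`).  `par_hom`: `H s t = κ (t, (max 0 (min 1 s) * r) • v)`, `κ` is continuous on the tube (`h.loc`); `FHom.mk'`.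
`par_per`, `par_cont`, `par_off`: `κ (l, r v) = κ (l', 0)` gives `r v = 0` (`h.inj`).
-/

open scoped ContDiff Manifold Topology unitInterval
open Set Filter

namespace Pool.Agent.ACB

universe u
variable {N : Type u} [TopologicalSpace N] [ChartedSpace E4 N]

theorem prl_ex_norm (t : ℝ) : ‖ex t‖ = 1 := by
  unfold ex
  exact Complex.norm_exp_ofReal_mul_I _

theorem prl_ex_cont : Continuous ex := by
  unfold ex
  exact Complex.continuous_exp.comp ((Complex.continuous_ofReal.comp (continuous_const.mul continuous_id)).mul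
    continuous_const)

theorem prl_ex_per (t : ℝ) : ex (t + 1) = ex t := by
  unfold ex
  have e : ((2 * Real.pi * (t + 1) : ℝ) : ℂ) * Complex.I = ((2 * Real.pi * t : ℝ) : ℂ) * Complex.I +
      2 * Real.pi * Complex.I := by
    push_cast
    ring
  rw [e]
  exact Complex.exp_periodic _

theorem prl_S2 (v : S2) : ‖v.1‖ = 1 := by
  have h := v.2
  rwa [mem_sphere_zero_iff_norm] at h

theorem prl_cut (s : ℝ) : 0 ≤ max 0 (min 1 s) ∧ max 0 (min 1 s) ≤ 1 :=
  ⟨le_max_left _ _, max_le zero_le_one (min_le_left _ _)⟩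

theorem prl_norm {ε r : ℝ} (h0 : 0 < r) (h1 : r < ε) (v : S2) (s : ℝ) :
    ‖(max 0 (min 1 s) * r) • v.1‖ < ε := by
  obtain ⟨h2, h3⟩ := prl_cut s
  rw [norm_smul, prl_S2, mul_one, Real.norm_eq_abs, abs_of_nonneg (mul_nonneg h2 h0.le)]
  nlinarith

theorem prl_contAt {κ : ℝ × E3 → N} {ε : ℝ} (h : Thick κ ε) (l : ℝ) {v : E3} (hv : ‖v‖ < ε) :
    ContinuousAt κ (l, v) := (h.loc l v hv).contMDiffAt.continuousAt

theorem par_null {κ : ℝ × E3 → N} {ε : ℝ} {V : Type*} [TopologicalSpace V] [ChartedSpace E4 V]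
    (S : Surg (fun _ : Unit => κ) ε V) {r : ℝ} (h0 : 0 < r) (h1 : r < ε) (v : S2) :
    ∃ (D : ℝ → ℝ → V) (y : V), (Continuous fun x : ℝ × ℝ => D x.1 x.2) ∧ (∀ s t, D s (t + 1) = D s t) ∧
      (∀ t, D 0 t = S.A (κ (t, r • v.1))) ∧ ∀ t, D 1 t = y := by
  refine ⟨fun s t => S.Q () (((max 0 (min 1 (1 - s)) * r : ℝ) : ℂ) * ex t, v), S.Q () (0, v), ?_, ?_, ?_, ?_⟩
  · rw [continuous_iff_continuousAt]
    rintro ⟨s, t⟩
    have h2 : ‖((max 0 (min 1 (1 - s)) * r : ℝ) : ℂ) * ex t‖ < ε := by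
      obtain ⟨h3, h4⟩ := prl_cut (1 - s)
      rw [norm_mul, prl_ex_norm, mul_one, Complex.norm_real, Real.norm_eq_abs,
        abs_of_nonneg (mul_nonneg h3 h0.le)]
      nlinarith
    have h3 : ContinuousAt (S.Q ()) (((max 0 (min 1 (1 - s)) * r : ℝ) : ℂ) * ex t, v) :=
      (S.Q_loc () _ v h2).contMDiffAt.continuousAt
    have h4 : Continuous fun x : ℝ × ℝ => ((((max 0 (min 1 (1 - x.1)) * r : ℝ) : ℂ) * ex x.2, v) : ℂ × S2) := by
      have h5 : Continuous fun x : ℝ × ℝ => ex x.2 := prl_ex_cont.comp continuous_snd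
      have h6 : Continuous fun x : ℝ × ℝ => ((max 0 (min 1 (1 - x.1)) * r : ℝ) : ℂ) := by
        apply Complex.continuous_ofReal.comp
        fun_prop
      exact (h6.mul h5).prodMk continuous_const
    exact ContinuousAt.comp (g := S.Q ()) (x := (s, t)) h3 h4.continuousAt
  · intro s t
    change S.Q () (_ * ex (t + 1), v) = _
    rw [prl_ex_per]
  · intro t
    change S.Q () (((max 0 (min 1 (1 - 0)) * r : ℝ) : ℂ) * ex t, v) = _
    have e : (max 0 (min 1 (1 - 0)) * r : ℝ) = r := by norm_num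
    rw [e]
    exact S.glue () t r v h0 h1
  · intro t
    change S.Q () (((max 0 (min 1 (1 - 1)) * r : ℝ) : ℂ) * ex t, v) = _
    have e : (max 0 (min 1 (1 - 1)) * r : ℝ) = 0 := by norm_num
    rw [e, Complex.ofReal_zero, zero_mul]

theorem par_hom {κ : ℝ × E3 → N} {ε : ℝ} (h : Thick κ ε) {r : ℝ} (h0 : 0 < r) (h1 : r < ε) (v : S2) :
    FHom univ (core κ) fun t => κ (t, r • v.1) := by
  refine ⟨fun s t => κ (t, (max 0 (min 1 s) * r) • v.1), ?_, ?_, ?_, ?_, fun _ _ => mem_univ _⟩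
  · rw [continuous_iff_continuousAt]
    rintro ⟨s, t⟩
    have h4 : Continuous fun x : ℝ × ℝ => ((x.2, (max 0 (min 1 x.1) * r) • v.1) : ℝ × E3) := by
      fun_prop
    exact ContinuousAt.comp (g := κ) (x := (s, t)) (prl_contAt h t (prl_norm h0 h1 v s)) h4.continuousAt
  · intro s t
    exact h.per t _ (prl_norm h0 h1 v s)
  · funext t
    have e : (max 0 (min 1 0) * r : ℝ) = 0 := by norm_num
    change κ (t, (max 0 (min 1 0) * r) • v.1) = κ (t, 0)
    rw [e, zero_smul]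
  · funext t
    have e : (max 0 (min 1 1) * r : ℝ) = r := by norm_num
    change κ (t, (max 0 (min 1 1) * r) • v.1) = _
    rw [e]

theorem par_per {κ : ℝ × E3 → N} {ε : ℝ} (h : Thick κ ε) {r : ℝ} (h0 : 0 < r) (h1 : r < ε) (v : S2) (t : ℝ) :
    κ (t + 1, r • v.1) = κ (t, r • v.1) := by
  refine h.per t _ ?_
  rw [norm_smul, prl_S2, mul_one, Real.norm_eq_abs, abs_of_pos h0]
  exact h1

theorem par_cont {κ : ℝ × E3 → N} {ε : ℝ} (h : Thick κ ε) {r : ℝ} (h0 : 0 < r) (h1 : r < ε) (v : S2) :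
    Continuous fun t => κ (t, r • v.1) := by
  rw [continuous_iff_continuousAt]
  intro t
  have h2 : ‖r • v.1‖ < ε := by
    rw [norm_smul, prl_S2, mul_one, Real.norm_eq_abs, abs_of_pos h0]
    exact h1
  have h4 : Continuous fun t : ℝ => ((t, r • v.1) : ℝ × E3) := by
    fun_prop
  exact ContinuousAt.comp (g := κ) (x := t) (prl_contAt h t h2) h4.continuousAt

theorem par_off {κ : ℝ × E3 → N} {ε : ℝ} (h : Thick κ ε) {r : ℝ} (h0 : 0 < r) (h1 : r < ε) (v : S2) (t : ℝ) :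
    κ (t, r • v.1) ∉ range (core κ) := by
  rintro ⟨l, hl⟩
  have h2 : ‖r • v.1‖ = r := by
    rw [norm_smul, prl_S2, mul_one, Real.norm_eq_abs, abs_of_pos h0]
  have h3 := (h.inj t (r • v.1) l 0 (by rw [h2]; exact h1) (by rw [norm_zero]; exact h.pos) hl.symm).1
  rw [h3, norm_zero] at h2
  exact h0.ne h2

end Pool.Agent.ACB
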