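import Pool.Agent.ACB.Bal
import Pool.Agent.ACB.Smo
import Pool.Agent.ACB.InsC
import Pool.Agent.ACB.Prl

/-!
# ACB/SlD: the curves of a slide

PROOF.  `W = range (core κ)` is an obstacle (`Thick.circ`, `Obst.range`).  `d t = κ (t, r • v)`, periodic, continuous, off `W` (`par_per`, `par_cont`, `par_off`).  `par_hom` and `cls_fhom`: `Cls p d h`, i.e. a path `q : Path p (d 0)` and a loop
`δ` at `d 0`, `δ t = d t`, with class `h`.  `loop_of q g`: a loop `λ` at `d 0` with `[q λ q⁻¹] = g`.  `O = {(t, x) | (∃ n : ℤ, t = n) → x ∉ W}` is `OpnS`: it is the union of the open sets `{t ∉ ℤ} × N` and `ℝ × Wᶜ`.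
The graph of `per λ` is in `O`: `per λ n = λ 0 = d 0 ∉ W`.  `closed_curve` (for `per λ`, `W`, `O`) gives a circle `c` off `W` and a homotopy `H` in `O` from `per λ` to `c`.  `m s = H (1 - s) 0`: continuous, `m s ∉ W` (since
`(0, H _ 0) ∈ O`), `m 0 = c 0`, `m 1 = per λ 0 = d 0`.  Let `σ : Path (d 0) (c 0)`, `σ s = H s 0`, `γ : Path (c 0) (c 0)`, `γ t = c t`, `a = q.trans σ : Path p (c 0)`.
`cls_track` (for `H`, `q`, `λ`, `γ`, `σ`): `[a γ a⁻¹] = [q λ q⁻¹] = g`, so `Cls p c g`.  With `μ = σ.symm : Path (c 0) (d 0)` (`μ t = m t`): `a.trans μ = (q.trans σ).trans σ.symm` is homotopic to `q`, so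
`[(a μ) δ (a μ)⁻¹] = [q δ q⁻¹] = h`.  `ins_cls`: `Cls p (ins m d c) (g * h)`.
-/

open scoped ContDiff Manifold Topology unitInterval
open Set Filter

namespace Pool.Agent.ACB

universe u
variable {N : Type u} [TopologicalSpace N] [ChartedSpace E4 N]

theorem slD_open {W : Set N} (hW : IsClosed W) :
    OpnS {x : ℝ × N | (∃ n : ℤ, x.1 = n) → x.2 ∉ W} := by
  refine ⟨?_, ?_⟩
  · have e : {x : ℝ × N | (∃ n : ℤ, x.1 = n) → x.2 ∉ W} =
        (Prod.fst ⁻¹' (range ((↑) : ℤ → ℝ))ᶜ) ∪ (Prod.snd ⁻¹' Wᶜ) := by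
      ext x
      constructor
      · intro hx
        by_cases hn : ∃ n : ℤ, x.1 = n
        · exact Or.inr (hx hn)
        · refine Or.inl ?_
          rintro ⟨n, h⟩
          exact hn ⟨n, h.symm⟩
      · rintro (h | h) hn
        · obtain ⟨n, hn⟩ := hn
          exact absurd ⟨n, hn.symm⟩ h
        · exact h
    rw [e]
    exact (Int.isClosedEmbedding_coe_real.isClosed_range.isOpen_compl.preimage continuous_fst).union
      (hW.isOpen_compl.preimage continuous_snd)
  · intro t x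
    have e : (∃ n : ℤ, t + 1 = n) ↔ ∃ n : ℤ, t = n := by
      constructor
      · rintro ⟨n, hn⟩
        exact ⟨n - 1, by push_cast; linarith⟩
      · rintro ⟨n, hn⟩
        exact ⟨n + 1, by push_cast; linarith⟩
    change ((∃ n : ℤ, t + 1 = n) → x ∉ W) ↔ ((∃ n : ℤ, t = n) → x ∉ W)
    rw [e]

theorem slD_int {x : N} (δ : Path x x) (n : ℤ) : per δ n = x := by
  unfold per
  rw [Int.fract_intCast]
  exact δ.extend_zero

theorem slide_data [T2Space N] [IsManifold (𝓡 4) ∞ N] {κ : ℝ × E3 → N} {ε : ℝ} (hκ : Thick κ ε) {p : N}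
    {g h : FundamentalGroup N p} (hh : Cls p (core κ) h) {r : ℝ} (h0 : 0 < r) (h1 : r < ε) (v : S2) :
    ∃ m c : ℝ → N, Circ c ∧ (∀ t, c t ∉ range (core κ)) ∧ Continuous m ∧ (∀ s, m s ∉ range (core κ)) ∧
      m 0 = c 0 ∧ m 1 = κ (0, r • v.1) ∧ Cls p c g ∧ Cls p (ins m (fun t => κ (t, r • v.1)) c) (g * h) := by
  have hcirc : Circ (core κ) := hκ.circ
  have hW : Obst (range (core κ)) := Obst.range hcirc.toSCirc
  set W : Set N := range (core κ) with hWdef
  set d : ℝ → N := fun t => κ (t, r • v.1) with hd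
  have hdoff : ∀ t, d t ∉ W := par_off hκ h0 h1 v
  have hcd : Cls p d h := cls_fhom (par_hom hκ h0 h1 v) hh
  obtain ⟨q, δ, hδ, hδh⟩ := hcd
  obtain ⟨l, hl⟩ := loop_of q g
  have hO := slD_open (N := N) hW.1
  have hlO : ∀ t, (t, per l t) ∈ {x : ℝ × N | (∃ n : ℤ, x.1 = n) → x.2 ∉ W} := by
    rintro t ⟨n, hn⟩
    change t = n at hn
    subst hn
    change per l n ∉ W
    rw [slD_int]
    exact hdoff 0
  obtain ⟨c, hc, hcW, H, hH, hHper, hH0, hH1, hHO⟩ :=
    closed_curve (per_cont l) (per_per l) hW hO hlO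
  have hHW : ∀ s, H s 0 ∉ W := fun s => hHO s 0 ⟨0, by simp⟩
  have hH00 : H 0 0 = d 0 := by
    rw [hH0]
    have := slD_int l 0
    rwa [Int.cast_zero] at this
  have hcc : Continuous c := hc.smooth.continuous
  obtain ⟨γ, hγ, -⟩ := path_of hcc hc.per
  have hHc : Continuous fun s : ℝ => H s 0 := hH.comp (continuous_id.prodMk continuous_const)
  let ρ : Path (d 0) (c 0) :=
    { toFun := fun s => H s 0
      continuous_toFun := hHc.comp continuous_subtype_val
      source' := by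
        change H ((0 : I) : ℝ) 0 = d 0
        rw [Icc.coe_zero, hH00]
      target' := by
        change H ((1 : I) : ℝ) 0 = c 0
        rw [Icc.coe_one, hH1] }
  have hρ : ∀ s : I, ρ s = H s 0 := fun s => rfl
  have htr := cls_track H hH hHper q l (fun t => by rw [hH0, per_coe]) γ
    (fun t => by rw [hH1, hγ]) ρ hρ
  have hcg : FundamentalGroup.fromPath ⟦((q.trans ρ).trans γ).trans (q.trans ρ).symm⟧ = g := by
    rw [← hl]
    congr 1
    exact (Quotient.sound htr).symm
  refine ⟨fun s => H (1 - s) 0, c, hc, hcW, hHc.comp (continuous_const.sub continuous_id),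
    fun s => hHW _, ?_, ?_, ⟨q.trans ρ, γ, hγ, hcg⟩, ?_⟩
  · change H (1 - 0) 0 = c 0
    rw [sub_zero, hH1]
  · change H (1 - 1) 0 = _
    rw [sub_self, hH00]
  · refine ins_cls (q.trans ρ) γ hγ hcg ρ.symm ?_ δ hδ ?_
    · intro t
      change H ((σ t : I) : ℝ) 0 = _
      rfl
    · rw [← hδh]
      congr 1
      apply Quotient.sound
      have e1 : Path.Homotopic ((q.trans ρ).trans ρ.symm) q := by
        have a1 : Path.Homotopic ((q.trans ρ).trans ρ.symm) (q.trans (ρ.trans ρ.symm)) :=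
          ⟨Path.Homotopy.transAssoc q ρ ρ.symm⟩
        have a2 : Path.Homotopic (q.trans (ρ.trans ρ.symm)) (q.trans (Path.refl _)) :=
          Path.Homotopic.hcomp (Path.Homotopic.refl q) ⟨(Path.Homotopy.reflTransSymm ρ).symm⟩
        have a3 : Path.Homotopic (q.trans (Path.refl _)) q := ⟨Path.Homotopy.transRefl q⟩
        exact (a1.trans a2).trans a3
      exact Path.Homotopic.hcomp (Path.Homotopic.hcomp e1 (Path.Homotopic.refl δ)) e1.symm₂

end Pool.Agent.ACB
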