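import Pool.Agent.ACB.Bal
import Pool.Agent.ACB.Mv1
import Pool.Agent.ACB.Mv2
import Pool.Agent.ACB.SlD
import Pool.Agent.ACB.ExS
import Pool.Agent.ACB.InsN

/-!
# ACB/Sld: handle slides

PROOF.  Let `ε` be the radius of `h`; `κ₂` is thick.  `exists_surg` (for `κ₂`, `ε`): `V, SV`.  `r = ε / 2`, `v` any point of `S2`, `d t = κ₂ (t, r • v)`.  `slide_data` (with `h2`): `m, c`.  `W = range (core κ₂)`.
`l = ins m d c` is continuous (`ins_cont`, `par_cont`, `par_per`), periodic (`ins_per`), off `W` (`ins_mem`, `par_off`).  `closed_curve` for `l`, obstacle `W`, `O = univ ×ˢ Wᶜ` (`OpnS`): a circle `c'` off `W`,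
`FHom (univ ×ˢ Wᶜ) l c'`.  `Cls p c' (g * k)` (`cls_fhom`, `FHom.mono`).  By `cls_unique` `FHom univ (core κ₁) c'`, so `move_N` gives `κ₁'` with `core κ₁' = c'` and `IsSurg ![κ₁', κ₂] X`.
In `V`: `SV.A ∘ c' ~ SV.A ∘ l` (`FHom.map` with `A_contOn`, `FHom.symm`), `SV.A ∘ l = ins (SV.A ∘ m) (SV.A ∘ d) (SV.A ∘ c)` (`ins_map`), and by `par_null` (`D 0 = SV.A ∘ d`) and `ins_null`
`ins (SV.A ∘ m) (SV.A ∘ d) (SV.A ∘ c) ~ SV.A ∘ c` (`SV.A ∘ m` is continuous because `m` avoids `W`).  `move_V` (for `κ₁'`, `c`): `κ₁''` with core `c`; `Cls p c g`.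
-/

open scoped ContDiff Manifold Topology unitInterval
open Set Filter

namespace Pool.Agent.ACB

universe u
variable {N : Type u} [TopologicalSpace N] [ChartedSpace E4 N]

/-- **handle slide**: if `X` is a surgery along circles in the classes `g k`, `k`, then also along circles in the classes `g`, `k` -/
theorem slide [T2Space N] [IsManifold (𝓡 4) ∞ N] {κ₁ κ₂ : ℝ × E3 → N} {X : Type*} [TopologicalSpace X]
    [ChartedSpace E4 X] (h : IsSurg ![κ₁, κ₂] X) {p : N} {g k : FundamentalGroup N p}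
    (h1 : Cls p (core κ₁) (g * k)) (h2 : Cls p (core κ₂) k) :
    ∃ κ₁' : ℝ × E3 → N, IsSurg ![κ₁', κ₂] X ∧ Cls p (core κ₁') g := by
  have h' := h
  obtain ⟨ε, hT, ⟨S⟩⟩ := h'
  have hκ₁ : Thick κ₁ ε := hT.thick 0
  have hκ₂ : Thick κ₂ ε := hT.thick 1
  obtain ⟨V, tV, cV, hV, hT2, ⟨SV⟩⟩ := exists_surg hκ₂
  have hε := hκ₂.pos
  have hr0 : 0 < ε / 2 := by positivity
  have hr1 : ε / 2 < ε := by linarith
  set v : S2 := ⟨EuclideanSpace.single 0 1, by simp⟩ with hv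
  obtain ⟨m, c, hc, hcW, hm, hmW, hm0, hm1, hcg, hins⟩ := slide_data hκ₂ (g := g) h2 hr0 hr1 v
  set d : ℝ → N := fun t => κ₂ (t, (ε / 2) • v.1) with hd
  have hdc : Continuous d := par_cont hκ₂ hr0 hr1 v
  have hdp : ∀ t, d (t + 1) = d t := par_per hκ₂ hr0 hr1 v
  have hdW : ∀ t, d t ∉ range (core κ₂) := par_off hκ₂ hr0 hr1 v
  have hW : Obst (range (core κ₂)) := Obst.range hκ₂.circ.toSCirc
  have hcc : Continuous c := hc.smooth.continuous
  set O : Set (ℝ × N) := {q | q.2 ∉ range (core κ₂)} with hO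
  have hOO : OpnS O := by
    refine ⟨?_, fun t x => Iff.rfl⟩
    exact hW.1.isOpen_compl.preimage continuous_snd
  have hlc : Continuous (ins m d c) := ins_cont hm hdc hcc hdp hc.per hm0 hm1
  have hlO : ∀ t, (t, ins m d c t) ∈ O := fun t =>
    ins_mem (U := (range (core κ₂))ᶜ) hmW hdW hcW t
  obtain ⟨c', hc', hcW', hF⟩ := closed_curve hlc (ins_per m d c) hW hOO hlO
  have hcls' : Cls p c' (g * k) := cls_fhom (hF.mono (subset_univ _)) hins
  have hF1 : FHom univ (core κ₁) c' :=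
    cls_unique (fun t => hκ₁.per t 0 (by rw [norm_zero]; exact hε)) hc'.per h1 hcls'
  obtain ⟨κ₁', hcore', hS'⟩ := move_N h hc' hcW' hF1
  have hAc : ContinuousOn SV.A (range (core κ₂))ᶜ := A_contOn SV
  have hF2 : FHom univ (fun t => SV.A (c' t)) fun t => SV.A (ins m d c t) := by
    refine FHom.map hF.symm (f := SV.A) (hAc.mono ?_) fun t x _ => mem_univ _
    rintro x ⟨t, ht⟩
    exact ht
  rw [ins_map] at hF2
  obtain ⟨D, y, hD, hDp, hD0, hD1⟩ := par_null SV hr0 hr1 v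
  have hD0' : D 0 = fun t => SV.A (d t) := funext hD0
  have hF3 : FHom univ (ins (fun t => SV.A (m t)) (D 0) fun t => SV.A (c t)) fun t => SV.A (c t) := by
    have e1 : Continuous fun t => SV.A (m t) := hAc.comp_continuous hm hmW
    have e2 : Continuous fun t => SV.A (c t) := hAc.comp_continuous hcc hcW
    have e3 : ∀ t, SV.A (c (t + 1)) = SV.A (c t) := fun t => by rw [hc.per]
    have e4 : SV.A (m 0) = SV.A (c 0) := by rw [hm0]
    have e5 : SV.A (m 1) = D 0 0 := by rw [hD0, hm1]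
    exact ins_null e1 e2 e3 e4 hD hDp hD1 e5
  rw [hD0'] at hF3
  have hF4 := hF2.trans hF3
  rw [← hcore'] at hF4
  obtain ⟨κ₁'', hcore'', hS''⟩ := move_V hS' SV hε hc hcW hF4
  exact ⟨κ₁'', hS'', by rw [hcore'']; exact hcg⟩

end Pool.Agent.ACB
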