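import Pool.Agent.ACB.Bal
import Pool.Agent.ACB.Sld
import Pool.Agent.ACP.Basic

/-!
# ACB/Acb: Andrews-Curtis moves

PROOFS.  `two_swap`: `isSurg_swap`.  `two_inv`: `isSurg_rev`, `cls_inv` (`core (fun x => κ₁ (- x.1, x.2)) t = core κ₁ (- t)`).  `two_conj`: `cls_conj`.
`two_mul`: `slide`.  `two_mul'`: from `Two p g k X`: `g = (g * k) * k⁻¹`, and `Two p ((g * k) * k⁻¹) k⁻¹ X` (`two_swap`, `two_inv`, `two_swap`); `two_mul` gives `Two p (g * k) k⁻¹ X`; invert again.
`two_move`: the twelve moves: `mulR₁`: `two_mul'`; `mulRi₁` (`(u, v) → (u v⁻¹, v)`): `u = (u v⁻¹) v`, `two_mul`; `mulL₁` (`(v u, v)`): `v u = v (u v) v⁻¹`: `two_mul'`, `two_conj`; `mulLi₁` (`(v⁻¹ u, v)`):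
`v⁻¹ u = v⁻¹ (u v⁻¹) v`: `two_mul`, `two_conj`; the moves of the second component: conjugate by `two_swap`; `inv₁`, `inv₂`, `conj₁`, `conj₂`: clear.
`two_ac`: induction on `Relation.ReflTransGen`.
-/

open scoped ContDiff Manifold Topology unitInterval
open Set Filter

namespace Pool.Agent.ACB

universe u
variable {N : Type u} [TopologicalSpace N] [ChartedSpace E4 N]

section
variable {M : Type} [TopologicalSpace M] [ChartedSpace E4 M]

/-- `X` is the result of a surgery on `M` along two disjoint thick circles in the classes `g`, `k` (any framings) -/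
def Two (p : M) (g k : FundamentalGroup M p) (X : Type*) [TopologicalSpace X] [ChartedSpace E4 X] : Prop :=
  ∃ κ₁ κ₂ : ℝ × E3 → M, IsSurg ![κ₁, κ₂] X ∧ Cls p (core κ₁) g ∧ Cls p (core κ₂) k

theorem two_swap {p : M} {g k : FundamentalGroup M p} {X : Type*} [TopologicalSpace X] [ChartedSpace E4 X]
    (h : Two p g k X) : Two p k g X := by
  obtain ⟨κ₁, κ₂, hs, h1, h2⟩ := h
  exact ⟨κ₂, κ₁, isSurg_swap hs, h2, h1⟩

theorem acb_per {κ₁ κ₂ : ℝ × E3 → M} {X : Type*} [TopologicalSpace X] [ChartedSpace E4 X]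
    (h : IsSurg ![κ₁, κ₂] X) (t : ℝ) : core κ₁ (t + 1) = core κ₁ t := by
  obtain ⟨ε, hT, -⟩ := h
  have h0 := (hT.thick 0).per t 0 (by simpa using (hT.thick 0).pos)
  simpa [core] using h0

theorem two_inv {p : M} {g k : FundamentalGroup M p} {X : Type*} [TopologicalSpace X] [ChartedSpace E4 X]
    (h : Two p g k X) : Two p g⁻¹ k X := by
  obtain ⟨κ₁, κ₂, hs, h1, h2⟩ := h
  refine ⟨fun x => κ₁ (-x.1, x.2), κ₂, isSurg_rev hs, ?_, h2⟩
  exact cls_inv (acb_per hs) h1

theorem two_conj {p : M} {g k : FundamentalGroup M p} {X : Type*} [TopologicalSpace X] [ChartedSpace E4 X]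
    (h : Two p g k X) (w : FundamentalGroup M p) : Two p (w * g * w⁻¹) k X := by
  obtain ⟨κ₁, κ₂, hs, h1, h2⟩ := h
  exact ⟨κ₁, κ₂, hs, cls_conj h1 w, h2⟩

theorem two_mul [T2Space M] [IsManifold (𝓡 4) ∞ M] {p : M} {g k : FundamentalGroup M p} {X : Type*}
    [TopologicalSpace X] [ChartedSpace E4 X] (h : Two p (g * k) k X) : Two p g k X := by
  obtain ⟨κ₁, κ₂, hs, h1, h2⟩ := h
  obtain ⟨κ₁', hs', h1'⟩ := slide hs h1 h2
  exact ⟨κ₁', κ₂, hs', h1', h2⟩

theorem acb_inv2 {p : M} {g k : FundamentalGroup M p} {X : Type*} [TopologicalSpace X] [ChartedSpace E4 X]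
    (h : Two p g k X) : Two p g k⁻¹ X := two_swap (two_inv (two_swap h))

theorem two_mul' [T2Space M] [IsManifold (𝓡 4) ∞ M] {p : M} {g k : FundamentalGroup M p} {X : Type*}
    [TopologicalSpace X] [ChartedSpace E4 X] (h : Two p g k X) : Two p (g * k) k X := by
  have h1 : Two p ((g * k) * k⁻¹) k⁻¹ X := by
    rw [mul_inv_cancel_right]
    exact acb_inv2 h
  have h2 := acb_inv2 (two_mul h1)
  rwa [inv_inv] at h2

/-- one move of the first component -/
theorem acb_first [T2Space M] [IsManifold (𝓡 4) ∞ M] {p : M} {u v : FundamentalGroup M p} {X : Type*}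
    [TopologicalSpace X] [ChartedSpace E4 X] (h : Two p u v X) :
    Two p (u * v) v X ∧ Two p (u * v⁻¹) v X ∧ Two p (v * u) v X ∧ Two p (v⁻¹ * u) v X := by
  have a1 : Two p (u * v) v X := two_mul' h
  have a2 : Two p (u * v⁻¹) v X := two_mul (by rw [inv_mul_cancel_right]; exact h)
  refine ⟨a1, a2, ?_, ?_⟩
  · have h3 := two_conj a1 v
    have e : v * (u * v) * v⁻¹ = v * u := by group
    rwa [e] at h3
  · have h3 := two_conj a2 v⁻¹
    have e : v⁻¹ * (u * v⁻¹) * v⁻¹⁻¹ = v⁻¹ * u := by group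
    rwa [e] at h3

theorem acb_move [T2Space M] [IsManifold (𝓡 4) ∞ M] {p : M}
    {P P' : FundamentalGroup M p × FundamentalGroup M p} (hP : ACP.Move P P') {X : Type*}
    [TopologicalSpace X] [ChartedSpace E4 X] (h : Two p P.1 P.2 X) : Two p P'.1 P'.2 X := by
  cases hP with
  | mulR₁ u v => exact (acb_first h).1
  | mulRi₁ u v => exact (acb_first h).2.1
  | mulL₁ u v => exact (acb_first h).2.2.1
  | mulLi₁ u v => exact (acb_first h).2.2.2
  | mulR₂ u v => exact two_swap (acb_first (two_swap h)).1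
  | mulRi₂ u v => exact two_swap (acb_first (two_swap h)).2.1
  | mulL₂ u v => exact two_swap (acb_first (two_swap h)).2.2.1
  | mulLi₂ u v => exact two_swap (acb_first (two_swap h)).2.2.2
  | inv₁ u v => exact two_inv h
  | inv₂ u v => exact acb_inv2 h
  | conj₁ u v w =>
    have h1 := two_conj h w⁻¹
    rw [inv_inv] at h1
    exact h1
  | conj₂ u v w =>
    have h1 := two_swap (two_conj (two_swap h) w⁻¹)
    rw [inv_inv] at h1
    exact h1

/-- **Andrews-Curtis moves do not change the set of surgered manifolds** -/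
theorem two_ac [T2Space M] [IsManifold (𝓡 4) ∞ M] {p : M}
    {P P' : FundamentalGroup M p × FundamentalGroup M p} (hP : ACP.ACEquiv P P') {X : Type*}
    [TopologicalSpace X] [ChartedSpace E4 X] (h : Two p P.1 P.2 X) : Two p P'.1 P'.2 X := by
  induction hP with
  | refl => exact h
  | tail _ h2 ih => exact acb_move h2 ih

end

end Pool.Agent.ACB
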