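import Pool.Agent.ACB.Defs

/-!
# ACB/Bal: coordinate balls
-/

open scoped ContDiff Manifold Topology unitInterval
open Set Filter

namespace Pool.Agent.ACB

universe u
variable {N : Type u} [TopologicalSpace N] [ChartedSpace E4 N]

theorem IsBall.inj {b : E4 → N} {b' : N → E4} (h : IsBall b b') : Function.Injective b :=
  Function.LeftInverse.injective h.left_inv

theorem IsBall.right_inv {b : E4 → N} {b' : N → E4} (h : IsBall b b') {y : N} (hy : y ∈ range b) :
    b (b' y) = y := by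
  obtain ⟨x, rfl⟩ := hy
  rw [h.left_inv]

theorem IsBall.cont {b : E4 → N} {b' : N → E4} (h : IsBall b b') : Continuous b := h.smooth.continuous

theorem IsBall.contOn {b : E4 → N} {b' : N → E4} (h : IsBall b b') : ContinuousOn b' (range b) :=
  h.smooth'.continuousOn

theorem IsBall.isOpen_image {b : E4 → N} {b' : N → E4} (h : IsBall b b') {U : Set E4} (hU : IsOpen U) :
    IsOpen (b '' U) := by
  have e : b '' U = range b ∩ b' ⁻¹' U := by
    ext y
    constructor
    · rintro ⟨x, hx, rfl⟩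
      exact ⟨⟨x, rfl⟩, by rw [mem_preimage, h.left_inv]; exact hx⟩
    · rintro ⟨hy, hy'⟩
      exact ⟨b' y, hy', h.right_inv hy⟩
  rw [e]
  exact h.contOn.isOpen_inter_preimage h.isOpen hU

theorem IsBall.isOpenEmbedding {b : E4 → N} {b' : N → E4} (h : IsBall b b') : Topology.IsOpenEmbedding b :=
  Topology.IsOpenEmbedding.of_continuous_injective_isOpenMap h.cont h.inj fun _ hU => h.isOpen_image hU

theorem IsBall.contMDiffAt' {b : E4 → N} {b' : N → E4} (h : IsBall b b') {y : N} (hy : y ∈ range b) :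
    ContMDiffAt (𝓡 4) (𝓡 4) ∞ b' y :=
  h.smooth'.contMDiffAt (h.isOpen.mem_nhds hy)

theorem IsBall.eventually {b : E4 → N} {b' : N → E4} (h : IsBall b b') {y : N} (hy : y ∈ range b) :
    ∀ᶠ z in 𝓝 y, z ∈ range b := h.isOpen.mem_nhds hy

/-- `b` is a local diffeomorphism -/
theorem IsBall.loc {b : E4 → N} {b' : N → E4} (h : IsBall b b') (x : E4) :
    IsLocalDiffeomorphAt (𝓡 4) (𝓡 4) ∞ b x := by
  refine ⟨⟨⟨b, b', univ, range b, fun x _ => ⟨x, rfl⟩, fun _ _ => mem_univ _, fun x _ => h.left_inv x,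
    fun y hy => h.right_inv hy⟩, isOpen_univ, h.isOpen, h.smooth.contMDiffOn, h.smooth'⟩, mem_univ _,
    fun _ _ => rfl⟩

/-- there are arbitrarily small balls around every point -/
theorem exists_ball [IsManifold (𝓡 4) ∞ N] (x : N) {U : Set N} (hU : U ∈ 𝓝 x) :
    ∃ (b : E4 → N) (b' : N → E4), IsBall b b' ∧ b 0 = x ∧ range b ⊆ U := by
  let φ := chartAt E4 x
  have hx : x ∈ φ.source := mem_chart_source E4 x
  have h1 : φ.source ∩ interior U ∈ 𝓝 x :=
    Filter.inter_mem (φ.open_source.mem_nhds hx) (isOpen_interior.mem_nhds (mem_interior_iff_mem_nhds.mpr hU))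
  have h2 : IsOpen (φ '' (φ.source ∩ interior U)) :=
    φ.isOpen_image_source_inter isOpen_interior
  have h3 : φ x ∈ φ '' (φ.source ∩ interior U) := ⟨x, mem_of_mem_nhds h1, rfl⟩
  obtain ⟨r, hr, hb⟩ := Metric.isOpen_iff.mp h2 _ h3
  let u := OpenPartialHomeomorph.univBall (φ x) r
  have hsub : Metric.ball (φ x) r ⊆ φ.target := by
    intro y hy
    obtain ⟨z, hz, rfl⟩ := hb hy
    exact φ.map_source hz.1
  have hu1 : ∀ y, u y ∈ Metric.ball (φ x) r := by
    intro y
    have := u.map_source (x := y) (by simp [u])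
    rwa [OpenPartialHomeomorph.univBall_target _ hr] at this
  have hu2 : ∀ y ∈ Metric.ball (φ x) r, u (u.symm y) = y := by
    intro y hy
    exact u.right_inv (by rwa [OpenPartialHomeomorph.univBall_target _ hr])
  have hu3 : ∀ y, u.symm (u y) = y := fun y => u.left_inv (by simp [u])
  have hrange : range (fun y => φ.symm (u y)) = φ.source ∩ φ ⁻¹' Metric.ball (φ x) r := by
    ext z
    constructor
    · rintro ⟨y, rfl⟩
      refine ⟨φ.map_target (hsub (hu1 y)), ?_⟩
      rw [mem_preimage, φ.right_inv (hsub (hu1 y))]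
      exact hu1 y
    · rintro ⟨hz, hz'⟩
      refine ⟨u.symm (φ z), ?_⟩
      show φ.symm (u (u.symm (φ z))) = z
      rw [hu2 _ hz', φ.left_inv hz]
  have hop : IsOpen (φ.source ∩ φ ⁻¹' Metric.ball (φ x) r) :=
    φ.isOpen_inter_preimage Metric.isOpen_ball
  refine ⟨fun y => φ.symm (u y), fun z => u.symm (φ z), ⟨?_, ?_, ?_, ?_⟩, ?_, ?_⟩
  · intro y
    show u.symm (φ (φ.symm (u y))) = y
    rw [φ.right_inv (hsub (hu1 y)), hu3]
  · have h4 : ContMDiffOn (𝓡 4) (𝓡 4) ∞ φ.symm φ.target := contMDiffOn_chart_symm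
    have h5 : ContMDiff (𝓡 4) (𝓡 4) ∞ u := (OpenPartialHomeomorph.contDiff_univBall (c := φ x) (r := r)).contMDiff
    exact h4.comp_contMDiff h5 fun y => hsub (hu1 y)
  · rw [hrange]
    have h4 : ContMDiffOn (𝓡 4) (𝓡 4) ∞ φ φ.source := contMDiffOn_chart
    have h5 : ContMDiffOn (𝓡 4) (𝓡 4) ∞ u.symm (Metric.ball (φ x) r) :=
      (OpenPartialHomeomorph.contDiffOn_univBall_symm (c := φ x) (r := r)).contMDiffOn
    exact h5.comp (h4.mono inter_subset_left) fun z hz => hz.2
  · rw [hrange]; exact hop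
  · show φ.symm (u 0) = x
    simp only [u, OpenPartialHomeomorph.univBall_apply_zero]
    exact φ.left_inv hx
  · rw [hrange]
    rintro z ⟨hz, hz'⟩
    obtain ⟨w, hw, hw'⟩ := hb hz'
    have : w = z := φ.injOn hw.1 hz hw'
    rw [← this]
    exact interior_subset hw.2

/-- images of balls under diffeomorphisms -/
theorem IsBall.diffeo {N' : Type*} [TopologicalSpace N'] [ChartedSpace E4 N'] {b : E4 → N} {b' : N → E4}
    (h : IsBall b b') (F : N ≃ₘ⟮𝓡 4, 𝓡 4⟯ N') : IsBall (F ∘ b) (b' ∘ F.symm) := by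
  refine ⟨fun x => by simp [h.left_inv], F.contMDiff.comp h.smooth, ?_, ?_⟩
  · rw [range_comp]
    refine h.smooth'.comp F.symm.contMDiff.contMDiffOn ?_
    rintro _ ⟨y, hy, rfl⟩
    rw [mem_preimage, F.symm_apply_apply]
    exact hy
  · rw [range_comp]
    exact F.toHomeomorph.isOpenMap _ h.isOpen

end Pool.Agent.ACB
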