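import Pool.Agent.ACB.Bal

/-!
# ACB/GSm: Gram-Schmidt for loops of frames

PROOF.  `f i l = M l (e i)`, `e` the standard basis of `E3`, smooth, periodic, linearly independent for each `l`.
Gram-Schmidt gives `u i l`, and `P s l = (1 - σ s) • M l + σ s • L l`, `L l v = Σ v i • u i l`, which has an upper
triangular matrix with positive diagonal in the basis `u`.
-/

open scoped ContDiff Manifold Topology unitInterval
open Set Filter

namespace Pool.Agent.ACB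

universe u
variable {N : Type u} [TopologicalSpace N] [ChartedSpace E4 N]

open scoped RealInnerProductSpace

/-- first Gram-Schmidt vector -/
private noncomputable def gu (w : E3) : E3 := ‖w‖⁻¹ • w

private theorem gu_norm {w : E3} (h : w ≠ 0) : ⟪gu w, gu w⟫ = 1 := by
  have h' : ‖w‖ ≠ 0 := norm_ne_zero_iff.2 h
  rw [gu, inner_smul_left, inner_smul_right, real_inner_self_eq_norm_sq]
  simp
  field_simp

private theorem gu_smul {w : E3} (h : w ≠ 0) : ‖w‖ • gu w = w := by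
  have h' : ‖w‖ ≠ 0 := norm_ne_zero_iff.2 h
  rw [gu, smul_smul, mul_inv_cancel₀ h', one_smul]

private theorem gu_inner {w x : E3} (h : ⟪w, x⟫ = 0) : ⟪gu w, x⟫ = 0 := by
  rw [gu, inner_smul_left, h, mul_zero]

private theorem gu_contDiff {f : ℝ → E3} (hf : ContDiff ℝ ∞ f) (h0 : ∀ l, f l ≠ 0) :
    ContDiff ℝ ∞ fun l => gu (f l) := by
  have h1 : ContDiff ℝ ∞ fun l => ‖f l‖ := hf.norm ℝ h0
  exact (h1.inv fun l => norm_ne_zero_iff.2 (h0 l)).smul hf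

private noncomputable def gw1 (f0 f1 : E3) : E3 := f1 - ⟪gu f0, f1⟫ • gu f0

private noncomputable def gw2 (f0 f1 f2 : E3) : E3 :=
  f2 - ⟪gu f0, f2⟫ • gu f0 - ⟪gu (gw1 f0 f1), f2⟫ • gu (gw1 f0 f1)

private structure GS (f0 f1 f2 u0 u1 u2 : E3) : Prop where
  i00 : ⟪u0, u0⟫ = 1
  i11 : ⟪u1, u1⟫ = 1
  i22 : ⟪u2, u2⟫ = 1
  i01 : ⟪u0, u1⟫ = 0
  i02 : ⟪u0, u2⟫ = 0
  i12 : ⟪u1, u2⟫ = 0
  j20 : ⟪u2, f0⟫ = 0
  j21 : ⟪u2, f1⟫ = 0
  j10 : ⟪u1, f0⟫ = 0
  p0 : 0 < ⟪u0, f0⟫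
  p1 : 0 < ⟪u1, f1⟫
  p2 : 0 < ⟪u2, f2⟫

private theorem gs_ne {f0 f1 f2 : E3}
    (hi : ∀ a b c : ℝ, a • f0 + b • f1 + c • f2 = 0 → a = 0 ∧ b = 0 ∧ c = 0) :
    f0 ≠ 0 ∧ gw1 f0 f1 ≠ 0 ∧ gw2 f0 f1 f2 ≠ 0 := by
  refine ⟨fun h => ?_, fun h => ?_, fun h => ?_⟩
  · exact one_ne_zero (hi 1 0 0 (by simp [h])).1
  · refine one_ne_zero (hi (-(⟪gu f0, f1⟫ * ‖f0‖⁻¹)) 1 0 ?_).2.1
    rw [← h, gw1, gu]
    module
  · refine one_ne_zero (hi (-(⟪gu f0, f2⟫ * ‖f0‖⁻¹) +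
      ⟪gu (gw1 f0 f1), f2⟫ * ‖gw1 f0 f1‖⁻¹ * (⟪gu f0, f1⟫ * ‖f0‖⁻¹))
      (-(⟪gu (gw1 f0 f1), f2⟫ * ‖gw1 f0 f1‖⁻¹)) 1 ?_).2.2
    have e1 : gu (gw1 f0 f1) = ‖gw1 f0 f1‖⁻¹ • (f1 - (⟪gu f0, f1⟫ * ‖f0‖⁻¹) • f0) := by
      rw [gu]
      congr 1
      rw [gw1, gu, smul_smul]
    have e2 : gw2 f0 f1 f2 = f2 - ⟪gu f0, f2⟫ • (‖f0‖⁻¹ • f0) -
        ⟪gu (gw1 f0 f1), f2⟫ • (‖gw1 f0 f1‖⁻¹ • (f1 - (⟪gu f0, f1⟫ * ‖f0‖⁻¹) • f0)) := by
      rw [← e1]; rfl
    rw [← h, e2]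
    generalize ⟪gu f0, f2⟫ = a
    generalize ⟪gu (gw1 f0 f1), f2⟫ = b
    generalize ⟪gu f0, f1⟫ = c
    generalize ‖gw1 f0 f1‖⁻¹ = d
    generalize ‖f0‖⁻¹ = e
    module

private theorem gs_main {f0 f1 f2 : E3} (h0 : f0 ≠ 0) (h1 : gw1 f0 f1 ≠ 0) (h2 : gw2 f0 f1 f2 ≠ 0) :
    GS f0 f1 f2 (gu f0) (gu (gw1 f0 f1)) (gu (gw2 f0 f1 f2)) := by
  have i00 := gu_norm h0
  have i11 := gu_norm h1
  have i22 := gu_norm h2
  have a1 : ⟪gw1 f0 f1, gu f0⟫ = 0 := by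
    rw [gw1, inner_sub_left, inner_smul_left, i00, real_inner_comm f1]
    simp
  have i10 : ⟪gu (gw1 f0 f1), gu f0⟫ = 0 := gu_inner a1
  have i01 : ⟪gu f0, gu (gw1 f0 f1)⟫ = 0 := by rw [real_inner_comm]; exact i10
  have a2 : ⟪gw2 f0 f1 f2, gu f0⟫ = 0 := by
    rw [gw2, inner_sub_left, inner_sub_left, inner_smul_left, inner_smul_left, i00, i10,
      real_inner_comm (gu f0) f2]
    simp
  have a3 : ⟪gw2 f0 f1 f2, gu (gw1 f0 f1)⟫ = 0 := by
    rw [gw2, inner_sub_left, inner_sub_left, inner_smul_left, inner_smul_left, i11, i01,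
      real_inner_comm (gu (gw1 f0 f1)) f2]
    simp
  have i20 : ⟪gu (gw2 f0 f1 f2), gu f0⟫ = 0 := gu_inner a2
  have i21 : ⟪gu (gw2 f0 f1 f2), gu (gw1 f0 f1)⟫ = 0 := gu_inner a3
  have i02 : ⟪gu f0, gu (gw2 f0 f1 f2)⟫ = 0 := by rw [real_inner_comm]; exact i20
  have i12 : ⟪gu (gw1 f0 f1), gu (gw2 f0 f1 f2)⟫ = 0 := by rw [real_inner_comm]; exact i21
  have e0 : f0 = ‖f0‖ • gu f0 := (gu_smul h0).symm
  have e1 : f1 = ⟪gu f0, f1⟫ • gu f0 + ‖gw1 f0 f1‖ • gu (gw1 f0 f1) := by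
    rw [gu_smul h1, gw1]; abel
  have e2 : f2 = ⟪gu f0, f2⟫ • gu f0 + ⟪gu (gw1 f0 f1), f2⟫ • gu (gw1 f0 f1) +
      ‖gw2 f0 f1 f2‖ • gu (gw2 f0 f1 f2) := by
    rw [gu_smul h2, gw2]; abel
  refine ⟨i00, i11, i22, i01, i02, i12, ?_, ?_, ?_, ?_, ?_, ?_⟩
  · have : ⟪gu (gw2 f0 f1 f2), ‖f0‖ • gu f0⟫ = 0 := by rw [inner_smul_right, i20, mul_zero]
    rwa [gu_smul h0] at this
  · have : ⟪gu (gw2 f0 f1 f2), ⟪gu f0, f1⟫ • gu f0 + ‖gw1 f0 f1‖ • gu (gw1 f0 f1)⟫ = 0 := by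
      rw [inner_add_right, inner_smul_right, inner_smul_right, i20, i21, mul_zero, mul_zero, add_zero]
    rwa [← e1] at this
  · have : ⟪gu (gw1 f0 f1), ‖f0‖ • gu f0⟫ = 0 := by rw [inner_smul_right, i10, mul_zero]
    rwa [gu_smul h0] at this
  · have : ⟪gu f0, ‖f0‖ • gu f0⟫ = ‖f0‖ := by rw [inner_smul_right, i00, mul_one]
    rw [gu_smul h0] at this
    rw [this]
    exact norm_pos_iff.2 h0
  · have : ⟪gu (gw1 f0 f1), ⟪gu f0, f1⟫ • gu f0 + ‖gw1 f0 f1‖ • gu (gw1 f0 f1)⟫ = ‖gw1 f0 f1‖ := by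
      rw [inner_add_right, inner_smul_right, inner_smul_right, i10, i11, mul_zero, mul_one, zero_add]
    rw [← e1] at this
    rw [this]
    exact norm_pos_iff.2 h1
  · have : ⟪gu (gw2 f0 f1 f2), ⟪gu f0, f2⟫ • gu f0 + ⟪gu (gw1 f0 f1), f2⟫ • gu (gw1 f0 f1) +
        ‖gw2 f0 f1 f2‖ • gu (gw2 f0 f1 f2)⟫ = ‖gw2 f0 f1 f2‖ := by
      rw [inner_add_right, inner_add_right, inner_smul_right, inner_smul_right, inner_smul_right, i20, i21, i22,
        mul_zero, mul_zero, mul_one, zero_add, zero_add]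
    rw [← e2] at this
    rw [this]
    exact norm_pos_iff.2 h2

private noncomputable def gL (u0 u1 u2 : E3) : E3 →L[ℝ] E3 :=
  (EuclideanSpace.proj (0 : Fin 3) : E3 →L[ℝ] ℝ).smulRight u0 +
    (EuclideanSpace.proj (1 : Fin 3) : E3 →L[ℝ] ℝ).smulRight u1 +
    (EuclideanSpace.proj (2 : Fin 3) : E3 →L[ℝ] ℝ).smulRight u2

private theorem gL_apply (u0 u1 u2 v : E3) : gL u0 u1 u2 v = v 0 • u0 + v 1 • u1 + v 2 • u2 := rfl

private theorem e_decomp (v : E3) : v = v 0 • (EuclideanSpace.single 0 1 : E3) +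
    v 1 • (EuclideanSpace.single 1 1 : E3) + v 2 • (EuclideanSpace.single 2 1 : E3) := by
  ext i
  fin_cases i <;> simp

theorem gram {M : ℝ → E3 →L[ℝ] E3} (hM : ContDiff ℝ ∞ M) (hper : ∀ l, M (l + 1) = M l)
    (hbij : ∀ l, Function.Bijective (M l)) :
    ∃ P : ℝ → ℝ → E3 →L[ℝ] E3, (ContDiff ℝ ∞ fun q : ℝ × ℝ => P q.1 q.2) ∧ (∀ s l, P s (l + 1) = P s l) ∧
      (∀ s l, Function.Bijective (P s l)) ∧ P 0 = M ∧ ∀ l v, ‖P 1 l v‖ = ‖v‖ := by
  let f0 : ℝ → E3 := fun l => M l (EuclideanSpace.single 0 1 : E3)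
  let f1 : ℝ → E3 := fun l => M l (EuclideanSpace.single 1 1 : E3)
  let f2 : ℝ → E3 := fun l => M l (EuclideanSpace.single 2 1 : E3)
  have hf0 : ContDiff ℝ ∞ f0 := hM.clm_apply contDiff_const
  have hf1 : ContDiff ℝ ∞ f1 := hM.clm_apply contDiff_const
  have hf2 : ContDiff ℝ ∞ f2 := hM.clm_apply contDiff_const
  have hMv : ∀ l v, M l v = v 0 • f0 l + v 1 • f1 l + v 2 • f2 l := fun l v => by
    conv_lhs => rw [e_decomp v]
    rw [map_add, map_add, map_smul, map_smul, map_smul]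
  have hind : ∀ l, ∀ a b c : ℝ, a • f0 l + b • f1 l + c • f2 l = 0 → a = 0 ∧ b = 0 ∧ c = 0 := by
    intro l a b c h
    have h1 : M l (a • (EuclideanSpace.single 0 1 : E3) + b • (EuclideanSpace.single 1 1 : E3) +
        c • (EuclideanSpace.single 2 1 : E3)) = 0 := by
      rw [map_add, map_add, map_smul, map_smul, map_smul]
      exact h
    have h2 := (hbij l).1 (h1.trans (map_zero (M l)).symm)
    have k0 := congrArg (fun v : E3 => v 0) h2
    have k1 := congrArg (fun v : E3 => v 1) h2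
    have k2 := congrArg (fun v : E3 => v 2) h2
    simp at k0 k1 k2
    exact ⟨k0, k1, k2⟩
  have hne := fun l => gs_ne (hind l)
  have hgs := fun l => gs_main (hne l).1 (hne l).2.1 (hne l).2.2
  let u0 : ℝ → E3 := fun l => gu (f0 l)
  let u1 : ℝ → E3 := fun l => gu (gw1 (f0 l) (f1 l))
  let u2 : ℝ → E3 := fun l => gu (gw2 (f0 l) (f1 l) (f2 l))
  have hu0 : ContDiff ℝ ∞ u0 := gu_contDiff hf0 fun l => (hne l).1
  have hu1 : ContDiff ℝ ∞ u1 := by
    refine gu_contDiff ?_ fun l => (hne l).2.1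
    exact hf1.sub ((hu0.inner ℝ hf1).smul hu0)
  have hu2 : ContDiff ℝ ∞ u2 := by
    refine gu_contDiff ?_ fun l => (hne l).2.2
    exact (hf2.sub ((hu0.inner ℝ hf2).smul hu0)).sub ((hu1.inner ℝ hf2).smul hu1)
  have hp0 : ∀ l, f0 (l + 1) = f0 l := fun l => by show M (l + 1) _ = M l _; rw [hper]
  have hp1 : ∀ l, f1 (l + 1) = f1 l := fun l => by show M (l + 1) _ = M l _; rw [hper]
  have hp2 : ∀ l, f2 (l + 1) = f2 l := fun l => by show M (l + 1) _ = M l _; rw [hper]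
  have hL : ContDiff ℝ ∞ fun l => gL (u0 l) (u1 l) (u2 l) :=
    ((contDiff_const.smulRight hu0).add (contDiff_const.smulRight hu1)).add (contDiff_const.smulRight hu2)
  have hLp : ∀ l, gL (u0 (l + 1)) (u1 (l + 1)) (u2 (l + 1)) = gL (u0 l) (u1 l) (u2 l) := fun l => by
    show gL (gu (f0 (l + 1))) (gu (gw1 (f0 (l + 1)) (f1 (l + 1))))
      (gu (gw2 (f0 (l + 1)) (f1 (l + 1)) (f2 (l + 1)))) = _
    rw [hp0, hp1, hp2]
  refine ⟨fun s l => (1 - Real.smoothTransition s) • M l + Real.smoothTransition s • gL (u0 l) (u1 l) (u2 l),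
    ?_, ?_, ?_, ?_, ?_⟩
  · have hσ : ContDiff ℝ ∞ fun q : ℝ × ℝ => Real.smoothTransition q.1 :=
      Real.smoothTransition.contDiff.comp contDiff_fst
    exact ((contDiff_const.sub hσ).smul (hM.comp contDiff_snd)).add (hσ.smul (hL.comp contDiff_snd))
  · intro s l
    show (1 - Real.smoothTransition s) • M (l + 1) + Real.smoothTransition s •
      gL (u0 (l + 1)) (u1 (l + 1)) (u2 (l + 1)) = _
    rw [hper, hLp]
  · intro s l
    have g := hgs l
    have hσ0 := Real.smoothTransition.nonneg s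
    have hσ1 := Real.smoothTransition.le_one s
    have key : ∀ r : ℝ, 0 < r → 0 < (1 - Real.smoothTransition s) * r + Real.smoothTransition s := by
      intro r hr
      rcases eq_or_lt_of_le hσ0 with h | h
      · rw [← h]; linarith
      · have := mul_nonneg (sub_nonneg.2 hσ1) hr.le
        linarith
    have hinj : Function.Injective
        (((1 - Real.smoothTransition s) • M l + Real.smoothTransition s • gL (u0 l) (u1 l) (u2 l) :
          E3 →L[ℝ] E3) : E3 →ₗ[ℝ] E3) := by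
      rw [injective_iff_map_eq_zero]
      intro v hv
      have hv' : (1 - Real.smoothTransition s) • (v 0 • f0 l + v 1 • f1 l + v 2 • f2 l) +
          Real.smoothTransition s • (v 0 • u0 l + v 1 • u1 l + v 2 • u2 l) = 0 := by
        rw [← hMv, ← gL_apply]
        exact hv
      have E : ∀ x : E3, (1 - Real.smoothTransition s) * (v 0 * ⟪x, f0 l⟫ + v 1 * ⟪x, f1 l⟫ +
          v 2 * ⟪x, f2 l⟫) + Real.smoothTransition s * (v 0 * ⟪x, u0 l⟫ + v 1 * ⟪x, u1 l⟫ +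
          v 2 * ⟪x, u2 l⟫) = 0 := by
        intro x
        have := congrArg (fun y : E3 => ⟪x, y⟫) hv'
        simpa only [inner_add_right, inner_smul_right, inner_zero_right] using this
      have i20 : ⟪u2 l, u0 l⟫ = 0 := by rw [real_inner_comm]; exact g.i02
      have i21 : ⟪u2 l, u1 l⟫ = 0 := by rw [real_inner_comm]; exact g.i12
      have i10 : ⟪u1 l, u0 l⟫ = 0 := by rw [real_inner_comm]; exact g.i01
      have E2 := E (u2 l)
      have v2 : v 2 = 0 := by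
        have q1 : ⟪u2 l, f0 l⟫ = 0 := g.j20
        have q2 : ⟪u2 l, f1 l⟫ = 0 := g.j21
        have q3 : ⟪u2 l, u2 l⟫ = 1 := g.i22
        rw [q1, q2, i20, i21, q3] at E2
        have q4 : 0 < ⟪u2 l, f2 l⟫ := g.p2
        have : v 2 * ((1 - Real.smoothTransition s) * ⟪u2 l, f2 l⟫ + Real.smoothTransition s) = 0 := by
          linarith
        exact (mul_eq_zero.1 this).resolve_right (key _ q4).ne'
      have E1 := E (u1 l)
      have v1 : v 1 = 0 := by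
        have q1 : ⟪u1 l, f0 l⟫ = 0 := g.j10
        have q3 : ⟪u1 l, u1 l⟫ = 1 := g.i11
        rw [q1, v2, i10, q3] at E1
        have q4 : 0 < ⟪u1 l, f1 l⟫ := g.p1
        have : v 1 * ((1 - Real.smoothTransition s) * ⟪u1 l, f1 l⟫ + Real.smoothTransition s) = 0 := by
          linarith
        exact (mul_eq_zero.1 this).resolve_right (key _ q4).ne'
      have E0 := E (u0 l)
      have v0 : v 0 = 0 := by
        have q3 : ⟪u0 l, u0 l⟫ = 1 := g.i00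
        rw [v1, v2, q3] at E0
        have q4 : 0 < ⟪u0 l, f0 l⟫ := g.p0
        have : v 0 * ((1 - Real.smoothTransition s) * ⟪u0 l, f0 l⟫ + Real.smoothTransition s) = 0 := by
          linarith
        exact (mul_eq_zero.1 this).resolve_right (key _ q4).ne'
      rw [e_decomp v, v0, v1, v2]
      simp
    exact ⟨hinj, LinearMap.injective_iff_surjective.1 hinj⟩
  · funext l
    refine ContinuousLinearMap.ext fun v => ?_
    show (1 - Real.smoothTransition 0) • M l v + Real.smoothTransition 0 • gL (u0 l) (u1 l) (u2 l) v = M l v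
    rw [Real.smoothTransition.zero_of_nonpos le_rfl, sub_zero, one_smul, zero_smul, add_zero]
  · intro l v
    have g := hgs l
    have e : (1 - Real.smoothTransition 1) • M l v + Real.smoothTransition 1 • gL (u0 l) (u1 l) (u2 l) v =
        v 0 • u0 l + v 1 • u1 l + v 2 • u2 l := by
      rw [Real.smoothTransition.one_of_one_le le_rfl, sub_self, zero_smul, one_smul, zero_add]
      exact gL_apply _ _ _ _
    show ‖(1 - Real.smoothTransition 1) • M l v + Real.smoothTransition 1 • gL (u0 l) (u1 l) (u2 l) v‖ = ‖v‖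
    rw [e]
    have i00 : ⟪u0 l, u0 l⟫ = 1 := g.i00
    have i11 : ⟪u1 l, u1 l⟫ = 1 := g.i11
    have i22 : ⟪u2 l, u2 l⟫ = 1 := g.i22
    have i01 : ⟪u0 l, u1 l⟫ = 0 := g.i01
    have i02 : ⟪u0 l, u2 l⟫ = 0 := g.i02
    have i12 : ⟪u1 l, u2 l⟫ = 0 := g.i12
    have i20 : ⟪u2 l, u0 l⟫ = 0 := by rw [real_inner_comm]; exact g.i02
    have i21 : ⟪u2 l, u1 l⟫ = 0 := by rw [real_inner_comm]; exact g.i12
    have i10 : ⟪u1 l, u0 l⟫ = 0 := by rw [real_inner_comm]; exact g.i01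
    have h2 : ‖v 0 • u0 l + v 1 • u1 l + v 2 • u2 l‖ ^ 2 = ‖v‖ ^ 2 := by
      rw [← real_inner_self_eq_norm_sq, EuclideanSpace.norm_sq_eq, Fin.sum_univ_three]
      simp only [inner_add_left, inner_add_right, real_inner_smul_left, real_inner_smul_right, i00, i11, i22, i01, i02, i12,
        i10, i20, i21, Real.norm_eq_abs, sq_abs]
      ring
    exact (pow_left_inj₀ (norm_nonneg _) (norm_nonneg _) two_ne_zero).1 h2

end Pool.Agent.ACB
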