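import Pool.Agent.ACB.Bal
import Pool.Agent.ACB.Tbe
import Pool.Agent.ISO.Core

/-!
# ACB/ExT: transfer of a periodic diffeomorphism through a thick circle

`Lam1` is the lattice of the integer multiples of `(1, 0)` in `ℝ × E3`.

PROOF.  `lat1`: `‖m • (1, 0)‖ = |m|`.  `ext_tube`: let `C` be from `hf.supp`, `C' = C + Lam1`.  `f` is the identity off `C'`, so (bijection) `f` maps `C'` to `C'`, hence it maps the open tube `T = {x | ‖x.2‖ < ε} ⊇ C'` to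
itself, and the same for `f.symm`.  `F (κ x) = κ (f x)` for `x ∈ T` (well defined: `κ x = κ x'` gives `x' = x + m`, `m ∈ Lam1`, `f x' = f x + m`, periodicity of `κ`), `F y = y` for `y ∉ κ '' T`.
`κ '' C' = κ '' C` is compact, hence closed; `F = id` off `κ '' C` (if `y = κ x`, `x ∈ T`, `x ∉ C'`: `f x = x`).  Smooth: on the open set `κ '' T`: near `κ x` `F = κ ∘ f ∘ Φ.symm`; on the open set
`(κ '' C)ᶜ`: identity.  The inverse is the same construction for `f.symm`.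
-/

open scoped ContDiff Manifold Topology unitInterval
open Set Filter

namespace Pool.Agent.ACB

universe u
variable {N : Type u} [TopologicalSpace N] [ChartedSpace E4 N]

/-- the lattice of integer translations of the first coordinate -/
def Lam1 : AddSubgroup (ℝ × E3) := AddSubgroup.zmultiples ((1 : ℝ), (0 : E3))

theorem exT_mem {m : ℝ × E3} (hm : m ∈ Lam1) : ∃ k : ℤ, m = ((k : ℝ), 0) := by
  obtain ⟨k, hk⟩ := AddSubgroup.mem_zmultiples_iff.mp hm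
  refine ⟨k, ?_⟩
  rw [← hk, Prod.smul_mk, smul_zero]
  simp

theorem exT_mem' (k : ℤ) : (((k : ℝ), 0) : ℝ × E3) ∈ Lam1 := by
  refine AddSubgroup.mem_zmultiples_iff.mpr ⟨k, ?_⟩
  rw [Prod.smul_mk, smul_zero]
  simp

theorem lat1 : ISO.Lat Lam1 := by
  intro R
  refine Set.Finite.subset ((Set.finite_Icc (-⌈R⌉) ⌈R⌉).image fun k : ℤ => (((k : ℝ), 0) : ℝ × E3)) ?_
  rintro m ⟨hm, hR⟩
  obtain ⟨k, rfl⟩ := exT_mem hm
  refine ⟨k, ?_, rfl⟩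
  have h1 : |(k : ℝ)| ≤ R := by
    rw [Prod.norm_def] at hR
    simp only [norm_zero, Real.norm_eq_abs] at hR
    exact (le_max_left _ _).trans hR
  obtain ⟨h2, h3⟩ := abs_le.mp h1
  constructor
  · have : -(⌈R⌉ : ℝ) ≤ k := by linarith [Int.le_ceil R]
    exact_mod_cast this
  · have : (k : ℝ) ≤ ⌈R⌉ := by linarith [Int.le_ceil R]
    exact_mod_cast this

open Classical in
/-- the transferred map -/
noncomputable def exT_F (κ : ℝ × E3 → N) (ε : ℝ) (f : ℝ × E3 → ℝ × E3) (y : N) : N :=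
  if hy : ∃ x : ℝ × E3, ‖x.2‖ < ε ∧ κ x = y then κ (f hy.choose) else y

theorem exT_maps {f : Equiv.Perm (ℝ × E3)} {ε : ℝ} (hf : ISO.Move Lam1 {x : ℝ × E3 | ‖x.2‖ < ε} f)
    {x : ℝ × E3} (hx : ‖x.2‖ < ε) : ‖(f x).2‖ < ε := by
  obtain ⟨C, -, hCO, hC⟩ := hf.supp
  by_cases h1 : f x = x
  · rw [h1]; exact hx
  by_cases h2 : ∀ m ∈ Lam1, f x + m ∉ C
  · exact absurd (f.injective (hC _ h2)) h1
  · push Not at h2
    obtain ⟨m, hm, hc⟩ := h2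
    have h3 := hCO hc
    obtain ⟨k, rfl⟩ := exT_mem hm
    have h4 : (f x + ((k : ℝ), (0 : E3))).2 = (f x).2 := add_zero _
    have h5 : ‖(f x + ((k : ℝ), (0 : E3))).2‖ < ε := h3
    rwa [h4] at h5

theorem exT_on {κ : ℝ × E3 → N} {ε : ℝ} (h : Thick κ ε)
    {f : Equiv.Perm (ℝ × E3)} (hf : ISO.Move Lam1 {x : ℝ × E3 | ‖x.2‖ < ε} f) {x : ℝ × E3} (hx : ‖x.2‖ < ε) :
    exT_F κ ε f (κ x) = κ (f x) := by
  have hy : ∃ x' : ℝ × E3, ‖x'.2‖ < ε ∧ κ x' = κ x := ⟨x, hx, rfl⟩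
  have e1 : exT_F κ ε f (κ x) = κ (f hy.choose) := dif_pos hy
  rw [e1]
  obtain ⟨h1, h2⟩ := hy.choose_spec
  obtain ⟨e, m, hm⟩ := h.inj hy.choose.1 hy.choose.2 x.1 x.2 h1 hx h2
  have e2 : x = hy.choose + ((m : ℝ), (0 : E3)) := Prod.ext hm (by rw [Prod.snd_add]; simp [e])
  have e3 : f x = f hy.choose + ((m : ℝ), (0 : E3)) := by
    conv_lhs => rw [e2]
    exact hf.comm _ (exT_mem' m) _
  rw [e3]
  have h3 := exT_maps hf h1
  have h4 := h.per_int (f hy.choose).1 m (f hy.choose).2 h3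
  have h5 : f hy.choose + ((m : ℝ), (0 : E3)) = ((f hy.choose).1 + m, (f hy.choose).2) :=
    Prod.ext rfl (add_zero _)
  rw [h5, h4]

theorem exT_off {κ : ℝ × E3 → N} {ε : ℝ} {f : Equiv.Perm (ℝ × E3)} {y : N}
    (hy : ∀ x : ℝ × E3, ‖x.2‖ < ε → y ≠ κ x) : exT_F κ ε f y = y :=
  dif_neg fun ⟨x, hx, e⟩ => hy x hx e.symm

theorem exT_inv {κ : ℝ × E3 → N} {ε : ℝ} (h : Thick κ ε)
    {f : Equiv.Perm (ℝ × E3)} (hf : ISO.Move Lam1 {x : ℝ × E3 | ‖x.2‖ < ε} f) (y : N) :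
    exT_F κ ε f.symm (exT_F κ ε f y) = y := by
  by_cases hy : ∃ x : ℝ × E3, ‖x.2‖ < ε ∧ κ x = y
  · obtain ⟨x, hx, rfl⟩ := hy
    rw [exT_on h hf hx, exT_on h hf.symm (exT_maps hf hx), f.symm_apply_apply]
  · have h1 : ∀ x : ℝ × E3, ‖x.2‖ < ε → y ≠ κ x := fun x hx e => hy ⟨x, hx, e.symm⟩
    rw [exT_off h1, exT_off h1]

theorem exT_smooth [T2Space N] [IsManifold (𝓡 4) ∞ N] {κ : ℝ × E3 → N} {ε : ℝ} (h : Thick κ ε)
    {f : Equiv.Perm (ℝ × E3)} (hf : ISO.Move Lam1 {x : ℝ × E3 | ‖x.2‖ < ε} f) :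
    ContMDiff (𝓡 4) (𝓡 4) ∞ (exT_F κ ε f) := by
  intro y
  by_cases hy : ∃ x : ℝ × E3, ‖x.2‖ < ε ∧ κ x = y
  · obtain ⟨x, hx, rfl⟩ := hy
    obtain ⟨Φ, hΦ, he⟩ := h.loc x.1 x.2 hx
    have hΦ' : x ∈ Φ.source := hΦ
    have e1 : Φ.toPartialEquiv x = κ x := (he hΦ').symm
    have ht : κ x ∈ Φ.target := by rw [← e1]; exact Φ.map_source hΦ'
    have hs : ContMDiffAt (𝓡 4) 𝓘(ℝ, ℝ × E3) ∞ Φ.toPartialEquiv.symm (κ x) :=
      (Φ.contMDiffOn_invFun).contMDiffAt (Φ.open_target.mem_nhds ht)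
    have e2 : Φ.toPartialEquiv.symm (κ x) = x := by rw [← e1]; exact Φ.left_inv hΦ'
    have h1 : ContMDiffAt (𝓡 4) 𝓘(ℝ, ℝ × E3) ∞ (fun z => f (Φ.toPartialEquiv.symm z)) (κ x) :=
      (hf.smooth.contMDiff _).comp _ hs
    have h2 : ContMDiffAt 𝓘(ℝ, ℝ × E3) (𝓡 4) ∞ κ (f (Φ.toPartialEquiv.symm (κ x))) := by
      rw [e2]
      exact (h.loc (f x).1 (f x).2 (exT_maps hf hx)).contMDiffAt
    have h3 : ContMDiffAt (𝓡 4) (𝓡 4) ∞ (fun z => κ (f (Φ.toPartialEquiv.symm z))) (κ x) :=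
      ContMDiffAt.comp (κ x) (g := κ) h2 h1
    refine h3.congr_of_eventuallyEq ?_
    have o1 : ∀ᶠ z in 𝓝 (κ x), z ∈ Φ.target := Φ.open_target.mem_nhds ht
    have o2 : ∀ᶠ z in 𝓝 (κ x), ‖(Φ.toPartialEquiv.symm z).2‖ < ε := by
      refine (hs.continuousAt.snd.norm).eventually_lt continuousAt_const ?_
      rw [e2]; exact hx
    filter_upwards [o1, o2] with z a1 a2
    have e3 : κ (Φ.toPartialEquiv.symm z) = z := by
      rw [he (Φ.map_target a1)]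
      exact Φ.right_inv a1
    conv_lhs => rw [← e3]
    exact exT_on h hf a2
  · obtain ⟨C, hCc, hCO, hC⟩ := hf.supp
    have hcont : ContinuousOn κ C := fun x hx =>
      (h.loc x.1 x.2 (hCO hx)).contMDiffAt.continuousAt.continuousWithinAt
    have hcl : IsClosed (κ '' C) := (hCc.image_of_continuousOn hcont).isClosed
    have hyC : y ∈ (κ '' C)ᶜ := by
      rintro ⟨x, hx, rfl⟩
      exact hy ⟨x, hCO hx, rfl⟩
    refine contMDiffAt_id.congr_of_eventuallyEq ?_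
    filter_upwards [hcl.isOpen_compl.mem_nhds hyC] with z hz
    by_cases hz' : ∃ x : ℝ × E3, ‖x.2‖ < ε ∧ κ x = z
    · obtain ⟨x, hx, rfl⟩ := hz'
      rw [exT_on h hf hx, hC x]
      · rfl
      · intro m hm hc
        obtain ⟨k, rfl⟩ := exT_mem hm
        apply hz
        refine ⟨_, hc, ?_⟩
        have h5 : x + ((k : ℝ), (0 : E3)) = (x.1 + k, x.2) := Prod.ext rfl (add_zero _)
        rw [h5, h.per_int x.1 k x.2 hx]
    · exact exT_off fun x hx e => hz' ⟨x, hx, e.symm⟩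

theorem ext_tube [T2Space N] [IsManifold (𝓡 4) ∞ N] {κ : ℝ × E3 → N} {ε : ℝ} (h : Thick κ ε)
    {f : Equiv.Perm (ℝ × E3)} (hf : ISO.Move Lam1 {x : ℝ × E3 | ‖x.2‖ < ε} f) :
    ∃ F : N ≃ₘ⟮𝓡 4, 𝓡 4⟯ N, (∀ x : ℝ × E3, ‖x.2‖ < ε → F (κ x) = κ (f x)) ∧
      ∀ y : N, (∀ x : ℝ × E3, ‖x.2‖ < ε → y ≠ κ x) → F y = y := by
  have h2 := exT_inv h hf.symm
  rw [Equiv.symm_symm] at h2
  exact ⟨⟨⟨exT_F κ ε f, exT_F κ ε f.symm, exT_inv h hf, h2⟩, exT_smooth h hf, exT_smooth h hf.symm⟩,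
    fun x hx => exT_on h hf hx, fun y hy => exT_off hy⟩

end Pool.Agent.ACB
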