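import Pool.Agent.ACB.Bal
import Pool.Agent.ACB.Imm

/-!
# ACB/ThC: a tube around an embedded core is thick

PROOF.  The set of points where `κ` is a local diffeomorphism is open (`IsLocalDiffeomorphAt` holds on the source of the partial diffeomorphism) and contains `Icc 0 1 × {0}`; tube lemma and periodicity (if `κ` is a local
diffeomorphism at `(l, v)`, then at `(l + m, v)`: `κ (l + m, v) = κ (l, v)` on an open set): there is `δ₁ ≤ ρ` with `κ` a local diffeomorphism at all `(l, v)`, `‖v‖ < δ₁`.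
Injectivity: suppose that for every `n` there are `(l_n, v_n)`, `(l'_n, v'_n)`, `‖v_n‖, ‖v'_n‖ < 1 / (n + 1)`, with the same image, but not (`v_n = v'_n` and `l'_n - l_n ∈ ℤ`).  By periodicity
`l_n ∈ [0, 1]`, `|l'_n - l_n| ≤ 1/2`.  A subsequence converges (compactness): `l_n → l`, `l'_n → l'`, `κ (l, 0) = κ (l', 0)`, so `l' = l + m`, `|m| ≤ 1/2`, `l' = l`.  But `κ` is injective on a neighbourhood of
`(l, 0)`, which contains `(l_n, v_n)` and `(l'_n, v'_n)` for large `n`; so they are equal, contradiction.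
-/

open scoped ContDiff Manifold Topology unitInterval
open Set Filter

namespace Pool.Agent.ACB

universe u
variable {N : Type u} [TopologicalSpace N] [ChartedSpace E4 N]

/-- congruence -/
theorem thc_congr {f g : ℝ × E3 → N} {x : ℝ × E3} (hf : IsLocalDiffeomorphAt 𝓘(ℝ, ℝ × E3) (𝓡 4) ∞ f x)
    (h : g =ᶠ[𝓝 x] f) : IsLocalDiffeomorphAt 𝓘(ℝ, ℝ × E3) (𝓡 4) ∞ g x := by
  obtain ⟨Φ, hx, heq⟩ := hf
  obtain ⟨U, hUsub, hU, hxU⟩ := mem_nhds_iff.1 h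
  refine ⟨{ toPartialEquiv := (Φ.toOpenPartialHomeomorph.restrOpen U hU).toPartialEquiv
            open_source := (Φ.toOpenPartialHomeomorph.restrOpen U hU).open_source
            open_target := (Φ.toOpenPartialHomeomorph.restrOpen U hU).open_target
            contMDiffOn_toFun := Φ.contMDiffOn_toFun.mono inter_subset_left
            contMDiffOn_invFun := Φ.contMDiffOn_invFun.mono inter_subset_left }, ⟨hx, hxU⟩, ?_⟩
  rintro y ⟨hy1, hy2⟩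
  have h1 : g y = f y := hUsub hy2
  rw [h1]
  exact heq hy1

theorem thc_injOn {f : ℝ × E3 → N} {x : ℝ × E3} (hf : IsLocalDiffeomorphAt 𝓘(ℝ, ℝ × E3) (𝓡 4) ∞ f x) :
    ∃ U ∈ 𝓝 x, InjOn f U := by
  obtain ⟨Φ, hx, heq⟩ := hf
  exact ⟨Φ.source, Φ.open_source.mem_nhds hx, Φ.toPartialEquiv.injOn.congr heq.symm⟩

theorem thc_open {f : ℝ × E3 → N} : IsOpen {x | IsLocalDiffeomorphAt 𝓘(ℝ, ℝ × E3) (𝓡 4) ∞ f x} := by
  rw [isOpen_iff_mem_nhds]
  rintro x ⟨Φ, hx, heq⟩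
  filter_upwards [Φ.open_source.mem_nhds hx] with y hy
  exact ⟨Φ, hy, heq⟩

/-- translation -/
noncomputable def thc_tr (m : ℝ) : Diffeomorph 𝓘(ℝ, ℝ × E3) 𝓘(ℝ, ℝ × E3) (ℝ × E3) (ℝ × E3) ∞ where
  toFun q := (q.1 + m, q.2)
  invFun q := (q.1 - m, q.2)
  left_inv q := by simp
  right_inv q := by simp
  contMDiff_toFun := by
    have h : ContDiff ℝ ∞ fun q : ℝ × E3 => (q.1 + m, q.2) :=
      (contDiff_fst.add contDiff_const).prodMk contDiff_snd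
    exact h.contMDiff
  contMDiff_invFun := by
    have h : ContDiff ℝ ∞ fun q : ℝ × E3 => (q.1 - m, q.2) :=
      (contDiff_fst.sub contDiff_const).prodMk contDiff_snd
    exact h.contMDiff

theorem thc_shift {κ : ℝ × E3 → N} {ρ : ℝ} (hper : ∀ (l : ℝ) (v : E3), ‖v‖ < ρ → κ (l + 1, v) = κ (l, v))
    {l : ℝ} {v : E3} (hv : ‖v‖ < ρ) (m : ℤ) (h : IsLocalDiffeomorphAt 𝓘(ℝ, ℝ × E3) (𝓡 4) ∞ κ (l - m, v)) :
    IsLocalDiffeomorphAt 𝓘(ℝ, ℝ × E3) (𝓡 4) ∞ κ (l, v) := by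
  have h1 : IsLocalDiffeomorphAt 𝓘(ℝ, ℝ × E3) 𝓘(ℝ, ℝ × E3) ∞ (thc_tr (-m)) (l, v) :=
    (thc_tr (-m)).isLocalDiffeomorph (l, v)
  have h2 : (thc_tr (-m)) (l, v) = (l - m, v) := by
    show ((l + -(m : ℝ), v) : ℝ × E3) = (l - m, v)
    rw [sub_eq_add_neg]
  have h3 : IsLocalDiffeomorphAt 𝓘(ℝ, ℝ × E3) (𝓡 4) ∞ (κ ∘ thc_tr (-m)) (l, v) :=
    IsLocalDiffeomorphAt.comp (hf := h1) (g := κ) (hg := by rw [h2]; exact h) ..
  refine thc_congr h3 ?_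
  have hev : ∀ᶠ q : ℝ × E3 in 𝓝 (l, v), ‖q.2‖ < ρ :=
    (isOpen_lt (continuous_norm.comp continuous_snd) continuous_const).mem_nhds hv
  filter_upwards [hev] with q hq
  show κ q = κ (q.1 + -(m : ℝ), q.2)
  have h4 := per_int (c := fun t => κ (t, q.2)) (fun t => hper t q.2 hq) q.1 (-m)
  push_cast at h4
  exact h4.symm

theorem thc_seq [T2Space N] {κ : ℝ × E3 → N} (hloc : ∀ l : ℝ, IsLocalDiffeomorphAt 𝓘(ℝ, ℝ × E3) (𝓡 4) ∞ κ (l, 0))
    (hinj : ∀ l l' : ℝ, κ (l, 0) = κ (l', 0) → ∃ m : ℤ, l' = l + m) :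
    ∃ δ > 0, ∀ (l : ℝ) (v : E3) (l' : ℝ) (v' : E3), 0 ≤ l → l ≤ 1 → |l' - l| ≤ 1 / 2 → ‖v‖ < δ → ‖v'‖ < δ →
      κ (l, v) = κ (l', v') → v = v' ∧ l' = l := by
  by_contra hcon
  push Not at hcon
  have hcon' : ∀ n : ℕ, ∃ (l : ℝ) (v : E3) (l' : ℝ) (v' : E3), 0 ≤ l ∧ l ≤ 1 ∧ |l' - l| ≤ 1 / 2 ∧
      ‖v‖ < 1 / ((n : ℝ) + 1) ∧ ‖v'‖ < 1 / ((n : ℝ) + 1) ∧ κ (l, v) = κ (l', v') ∧ (v = v' → l' ≠ l) :=
    fun n => hcon (1 / ((n : ℝ) + 1)) Nat.one_div_pos_of_nat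
  choose l v l' v' h1 h2 h3 h4 h5 h6 h7 using hcon'
  have hK : IsCompact (Icc (0 : ℝ) 1 ×ˢ Icc (-(1 / 2) : ℝ) (3 / 2)) := isCompact_Icc.prod isCompact_Icc
  obtain ⟨a, ha, φ, hφ, hlim⟩ := hK.tendsto_subseq (x := fun n => (l n, l' n)) (by
    intro n
    have h8 := abs_le.1 (h3 n)
    exact ⟨⟨h1 n, h2 n⟩, ⟨by linarith [h1 n], by linarith [h2 n]⟩⟩)
  have hl : Tendsto (fun n => l (φ n)) atTop (𝓝 a.1) := (continuous_fst.tendsto a).comp hlim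
  have hl' : Tendsto (fun n => l' (φ n)) atTop (𝓝 a.2) := (continuous_snd.tendsto a).comp hlim
  have hz : Tendsto (fun n : ℕ => 1 / ((φ n : ℝ) + 1)) atTop (𝓝 0) :=
    tendsto_one_div_add_atTop_nhds_zero_nat.comp hφ.tendsto_atTop
  have hv : Tendsto (fun n => v (φ n)) atTop (𝓝 0) :=
    squeeze_zero_norm (fun n => (h4 (φ n)).le) hz
  have hv' : Tendsto (fun n => v' (φ n)) atTop (𝓝 0) :=
    squeeze_zero_norm (fun n => (h5 (φ n)).le) hz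
  have hp : Tendsto (fun n => (l (φ n), v (φ n))) atTop (𝓝 (a.1, 0)) := hl.prodMk_nhds hv
  have hp' : Tendsto (fun n => (l' (φ n), v' (φ n))) atTop (𝓝 (a.2, 0)) := hl'.prodMk_nhds hv'
  have hc : ∀ t : ℝ, ContinuousAt κ (t, 0) := fun t => (hloc t).contMDiffAt.continuousAt
  have ht1 : Tendsto (fun n => κ (l (φ n), v (φ n))) atTop (𝓝 (κ (a.1, 0))) := (hc a.1).tendsto.comp hp
  have ht2 : Tendsto (fun n => κ (l (φ n), v (φ n))) atTop (𝓝 (κ (a.2, 0))) := by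
    have h8 : (fun n => κ (l (φ n), v (φ n))) = fun n => κ (l' (φ n), v' (φ n)) := by
      funext n
      exact h6 (φ n)
    rw [h8]
    exact (hc a.2).tendsto.comp hp'
  obtain ⟨m, hm⟩ := hinj _ _ (tendsto_nhds_unique ht1 ht2)
  have habs : |a.2 - a.1| ≤ 1 / 2 := by
    refine le_of_tendsto ((hl'.sub hl).abs) ?_
    exact Eventually.of_forall fun n => h3 (φ n)
  have hm0 : m = 0 := by
    rw [hm, add_sub_cancel_left] at habs
    have h8 := abs_le.1 habs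
    have h9 : (m : ℝ) < 1 := by linarith
    have h10 : (-1 : ℝ) < m := by linarith
    have h11 : m < 1 := by exact_mod_cast h9
    have h12 : -1 < m := by exact_mod_cast h10
    omega
  have ha12 : a.2 = a.1 := by rw [hm, hm0]; simp
  rw [ha12] at hp'
  obtain ⟨U, hU, hUinj⟩ := thc_injOn (hloc a.1)
  obtain ⟨n, hn1, hn2⟩ := ((hp.eventually_mem hU).and (hp'.eventually_mem hU)).exists
  have h8 := hUinj hn1 hn2 (h6 (φ n))
  rw [Prod.mk.injEq] at h8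
  exact h7 (φ n) h8.2 h8.1.symm

theorem thick_of_core [T2Space N] {κ : ℝ × E3 → N} {ρ : ℝ} (hρ : 0 < ρ)
    (hper : ∀ (l : ℝ) (v : E3), ‖v‖ < ρ → κ (l + 1, v) = κ (l, v))
    (hloc : ∀ l : ℝ, IsLocalDiffeomorphAt 𝓘(ℝ, ℝ × E3) (𝓡 4) ∞ κ (l, 0))
    (hinj : ∀ l l' : ℝ, κ (l, 0) = κ (l', 0) → ∃ m : ℤ, l' = l + m) : ∃ δ > 0, δ ≤ ρ ∧ Thick κ δ := by
  have hpi : ∀ (t : ℝ) (v : E3), ‖v‖ < ρ → ∀ n : ℤ, κ (t + n, v) = κ (t, v) := fun t v hv n =>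
    per_int (c := fun t => κ (t, v)) (fun t => hper t v hv) t n
  have hK : IsCompact (Icc (0 : ℝ) 1 ×ˢ ({0} : Set E3)) := isCompact_Icc.prod isCompact_singleton
  obtain ⟨δ₁, hδ₁, hsub⟩ := hK.exists_cthickening_subset_open (thc_open (f := κ)) (by
    rintro ⟨l, v⟩ ⟨_, hv⟩
    rw [mem_singleton_iff] at hv
    simp only at hv
    rw [hv]
    exact hloc l)
  obtain ⟨δ₂, hδ₂, hseq⟩ := thc_seq hloc hinj
  refine ⟨min (min δ₁ δ₂) ρ, lt_min (lt_min hδ₁ hδ₂) hρ, min_le_right _ _, ?_⟩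
  have e1 : min (min δ₁ δ₂) ρ ≤ δ₁ := le_trans (min_le_left _ _) (min_le_left _ _)
  have e2 : min (min δ₁ δ₂) ρ ≤ δ₂ := le_trans (min_le_left _ _) (min_le_right _ _)
  have e3 : min (min δ₁ δ₂) ρ ≤ ρ := min_le_right _ _
  refine ⟨lt_min (lt_min hδ₁ hδ₂) hρ, fun l v hv => hper l v (lt_of_lt_of_le hv e3), ?_, ?_⟩
  · intro l v hv
    refine thc_shift hper (lt_of_lt_of_le hv e3) ⌊l⌋ ?_
    have h1 : ((l - ⌊l⌋, v) : ℝ × E3) ∈ Metric.cthickening δ₁ (Icc (0 : ℝ) 1 ×ˢ ({0} : Set E3)) := by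
      refine Metric.mem_cthickening_of_dist_le _ (l - ⌊l⌋, 0) _ _ ?_ ?_
      · refine ⟨⟨?_, ?_⟩, rfl⟩
        · exact Int.fract_nonneg l
        · exact (Int.fract_lt_one l).le
      · rw [Prod.dist_eq]
        simp only [dist_self, dist_zero_right]
        exact max_le hδ₁.le (le_trans hv.le e1)
    exact hsub h1
  · intro l v l' v' hv hv' h
    set a := l - ⌊l⌋ with ha
    set k := round (l' - ⌊l⌋ - a) with hk
    have hv1 := lt_of_lt_of_le hv e3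
    have hv2 := lt_of_lt_of_le hv' e3
    have h1 : κ (a, v) = κ (l, v) := by
      have := hpi a v hv1 ⌊l⌋
      rw [← this, ha, sub_add_cancel]
    have h2 : κ (l' - ⌊l⌋ - k, v') = κ (l', v') := by
      have := hpi (l' - ⌊l⌋ - k) v' hv2 (⌊l⌋ + k)
      rw [← this]
      push_cast
      rw [show l' - (⌊l⌋ : ℝ) - (k : ℝ) + (⌊l⌋ + k) = l' by ring]
    obtain ⟨h3, h4⟩ := hseq a v (l' - ⌊l⌋ - k) v' (Int.fract_nonneg l) (Int.fract_lt_one l).le (by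
      have := abs_sub_round (l' - ⌊l⌋ - a)
      rw [← hk] at this
      rw [show l' - (⌊l⌋ : ℝ) - (k : ℝ) - a = l' - ⌊l⌋ - a - k by ring]
      exact this) (lt_of_lt_of_le hv e2) (lt_of_lt_of_le hv' e2) (by rw [h1, h2, h])
    refine ⟨h3, k, ?_⟩
    rw [ha] at h4
    linarith

end Pool.Agent.ACB
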