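import Pool.Agent.ACB.Bal
import Pool.Agent.ACB.Tbe

/-!
# ACB/TrP: transition between two tubes with the same core

PROOF.  For `(s, l, v)` call `(l', v')` admissible if `‖v'‖ < ε`, `|l' - l| < 1/2`, `κ₀ (l', v') = K s (l, v)`.  At most one (`h.inj`: `l'` is determined modulo `ℤ`, two admissible values differ by less than `1`).  Define `g s (l, v)` as the
admissible value if it exists, `(l, v)` otherwise.  Existence near `(s₀, l₀, 0)`: `κ₀` is a local diffeomorphism at `(l₀, 0)` with partial diffeomorphism `Φ`; for `(s, l, v)` near `(s₀, l₀, 0)` the value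
`Φ.symm (K s (l, v))` is defined (`K s₀ (l₀, 0) = κ₀ (l₀, 0)`, `K` continuous) and near `(l₀, 0)`, hence admissible.  By compactness of `[0, 1] ∋ l₀` (and periodicity: if `(l', v')` is admissible for `(s, l, v)` then
`(l' + 1, v')` is for `(s, l + 1, v)`) there are `δ, η` such that an admissible value exists for `|s - s₀| < η`, `‖v‖ < δ`, all `l`.  Smoothness at `(s, (l, v))` in this region: let `(l', v') = g s (l, v)` and `Φ` the partial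
diffeomorphism of `κ₀` at `(l', v')`; for `(s₁, x₁)` near `(s, (l, v))` the value `Φ.symm (K s₁ x₁)` is admissible (open conditions), so it is `g s₁ x₁`: smooth.  Periodicity and `g s (l, 0) = (l, 0)`: uniqueness.
-/

open scoped ContDiff Manifold Topology unitInterval
open Set Filter

namespace Pool.Agent.ACB

universe u
variable {N : Type u} [TopologicalSpace N] [ChartedSpace E4 N]

/-- admissible values -/
def TrP_A (κ₀ : ℝ × E3 → N) (ε : ℝ) (K : ℝ → ℝ × E3 → N) (q : ℝ × (ℝ × E3)) (p : ℝ × E3) : Prop :=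
  ‖p.2‖ < ε ∧ |p.1 - q.2.1| < 1 / 2 ∧ κ₀ p = K q.1 q.2

theorem trP_uniq {κ₀ : ℝ × E3 → N} {ε : ℝ} (h : Thick κ₀ ε) {K : ℝ → ℝ × E3 → N} {q : ℝ × (ℝ × E3)}
    {p p' : ℝ × E3} (hp : TrP_A κ₀ ε K q p) (hp' : TrP_A κ₀ ε K q p') : p = p' := by
  obtain ⟨h1, h2, h3⟩ := hp
  obtain ⟨h1', h2', h3'⟩ := hp'
  obtain ⟨e, m, hm⟩ := h.inj p.1 p.2 p'.1 p'.2 h1 h1' (h3.trans h3'.symm)
  have h4 : |(m : ℝ)| < 1 := by
    have e1 : (m : ℝ) = (p'.1 - q.2.1) - (p.1 - q.2.1) := by rw [hm]; ring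
    rw [e1]
    calc _ ≤ |p'.1 - q.2.1| + |p.1 - q.2.1| := abs_sub _ _
      _ < 1 := by linarith
  have h5 : m = 0 := by
    have : |m| < 1 := by exact_mod_cast h4
    exact Int.abs_lt_one_iff.mp this
  rw [h5, Int.cast_zero, add_zero] at hm
  exact Prod.ext hm.symm e

theorem trP_loc {κ₀ : ℝ × E3 → N} {ε : ℝ} (h : Thick κ₀ ε) {K : ℝ → ℝ × E3 → N} {q₁ : ℝ × (ℝ × E3)}
    {p₁ : ℝ × E3} (hp : TrP_A κ₀ ε K q₁ p₁)
    (hK : ContMDiffAt 𝓘(ℝ, ℝ × (ℝ × E3)) (𝓡 4) ∞ (fun q : ℝ × (ℝ × E3) => K q.1 q.2) q₁) :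
    ∃ G : ℝ × (ℝ × E3) → ℝ × E3, ContDiffAt ℝ ∞ G q₁ ∧ ∀ᶠ q in 𝓝 q₁, TrP_A κ₀ ε K q (G q) := by
  obtain ⟨h1, h2, h3⟩ := hp
  obtain ⟨Φ, hx, he⟩ := h.loc p₁.1 p₁.2 h1
  have hx' : p₁ ∈ Φ.source := hx
  have e1 : Φ.toPartialEquiv p₁ = K q₁.1 q₁.2 := by rw [← h3]; exact (he hx').symm
  have ht : K q₁.1 q₁.2 ∈ Φ.target := by rw [← e1]; exact Φ.map_source hx'
  have hG : ContMDiffAt 𝓘(ℝ, ℝ × (ℝ × E3)) 𝓘(ℝ, ℝ × E3) ∞
      (fun q : ℝ × (ℝ × E3) => Φ.toPartialEquiv.symm (K q.1 q.2)) q₁ :=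
    ContMDiffAt.comp q₁ (g := Φ.toPartialEquiv.symm)
      ((Φ.contMDiffOn_invFun).contMDiffAt (Φ.open_target.mem_nhds ht)) hK
  have hG1 : Φ.toPartialEquiv.symm (K q₁.1 q₁.2) = p₁ := by rw [← e1]; exact Φ.left_inv hx'
  refine ⟨fun q => Φ.toPartialEquiv.symm (K q.1 q.2), contMDiffAt_iff_contDiffAt.mp hG, ?_⟩
  have c1 := hG.continuousAt
  have c2 : ContinuousAt (fun q : ℝ × (ℝ × E3) => K q.1 q.2) q₁ := hK.continuousAt
  have o1 : ∀ᶠ q in 𝓝 q₁, K q.1 q.2 ∈ Φ.target := c2.eventually (Φ.open_target.mem_nhds ht)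
  have o2 : ∀ᶠ q : ℝ × (ℝ × E3) in 𝓝 q₁, ‖(Φ.toPartialEquiv.symm (K q.1 q.2)).2‖ < ε := by
    refine (c1.snd.norm).eventually_lt continuousAt_const ?_
    show ‖(Φ.toPartialEquiv.symm (K q₁.1 q₁.2)).2‖ < ε
    rw [hG1]; exact h1
  have o3 : ∀ᶠ q : ℝ × (ℝ × E3) in 𝓝 q₁, |(Φ.toPartialEquiv.symm (K q.1 q.2)).1 - q.2.1| < 1 / 2 := by
    refine ((c1.fst.sub (continuous_fst.comp continuous_snd).continuousAt).abs).eventually_lt
      continuousAt_const ?_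
    show |(Φ.toPartialEquiv.symm (K q₁.1 q₁.2)).1 - q₁.2.1| < 1 / 2
    rw [hG1]; exact h2
  filter_upwards [o1, o2, o3] with q a1 a2 a3
  refine ⟨a2, a3, ?_⟩
  rw [he (Φ.map_target a1)]
  exact Φ.right_inv a1

theorem transition [T2Space N] {κ₀ : ℝ × E3 → N} {ε : ℝ} (h : Thick κ₀ ε) {K : ℝ → ℝ × E3 → N} {ρ : ℝ} (hρ : 0 < ρ)
    (hK : ∀ (s l : ℝ) (v : E3), ‖v‖ < ρ →
      ContMDiffAt 𝓘(ℝ, ℝ × (ℝ × E3)) (𝓡 4) ∞ (fun q : ℝ × (ℝ × E3) => K q.1 q.2) (s, (l, v)))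
    (hper : ∀ (s l : ℝ) (v : E3), ‖v‖ < ρ → K s (l + 1, v) = K s (l, v))
    (hcore : ∀ s l : ℝ, K s (l, 0) = κ₀ (l, 0)) (s₀ : ℝ) :
    ∃ (g : ℝ → ℝ × E3 → ℝ × E3) (δ η : ℝ), 0 < δ ∧ δ ≤ ρ ∧ 0 < η ∧
      ∀ (s l : ℝ) (v : E3), |s - s₀| < η → ‖v‖ < δ →
        ContDiffAt ℝ ∞ (fun q : ℝ × (ℝ × E3) => g q.1 q.2) (s, (l, v)) ∧ κ₀ (g s (l, v)) = K s (l, v) ∧
        ‖(g s (l, v)).2‖ < ε ∧ |(g s (l, v)).1 - l| < 1 / 2 ∧ g s (l + 1, v) = g s (l, v) + (1, 0) ∧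
        g s (l, 0) = (l, 0) := by
  classical
  have hper' : ∀ (s l : ℝ) (m : ℤ) (v : E3), ‖v‖ < ρ → K s (l + m, v) = K s (l, v) := fun s l m v hv =>
    ACB.per_int (c := fun t => K s (t, v)) (fun t => hper s t v hv) l m
  have shift : ∀ (s l : ℝ) (v : E3) (p : ℝ × E3) (m : ℤ), ‖v‖ < ρ → TrP_A κ₀ ε K (s, (l, v)) p →
      TrP_A κ₀ ε K (s, (l + m, v)) (p.1 + m, p.2) := by
    rintro s l v p m hv ⟨h1, h2, h3⟩
    refine ⟨h1, ?_, ?_⟩
    · show |p.1 + m - (l + m)| < 1 / 2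
      have e : p.1 + m - (l + m) = p.1 - l := by ring
      rw [e]; exact h2
    · show κ₀ (p.1 + m, p.2) = K s (l + m, v)
      rw [h.per_int p.1 m p.2 h1, hper' s l m v hv]
      exact h3
  have core0 : ∀ s l : ℝ, TrP_A κ₀ ε K (s, (l, 0)) (l, 0) := by
    intro s l
    refine ⟨?_, ?_, (hcore s l).symm⟩
    · show ‖(0 : E3)‖ < ε
      rw [norm_zero]; exact h.pos
    · show |l - l| < 1 / 2
      rw [sub_self, abs_zero]; norm_num
  -- the region of existence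
  obtain ⟨δ, hδ, hth⟩ : ∃ δ : ℝ, 0 < δ ∧
      Metric.thickening δ (({s₀} : Set ℝ) ×ˢ (Icc (0 : ℝ) 1 ×ˢ ({0} : Set E3))) ⊆
        interior {q | ∃ p, TrP_A κ₀ ε K q p} := by
    refine IsCompact.exists_thickening_subset_open
      (isCompact_singleton.prod (isCompact_Icc.prod isCompact_singleton)) isOpen_interior ?_
    rintro ⟨s, l, v⟩ ⟨hs, -, hv⟩
    rw [mem_singleton_iff] at hs hv
    simp only at hs hv
    subst hs hv
    rw [mem_interior_iff_mem_nhds]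
    obtain ⟨G, -, hG⟩ := trP_loc h (core0 s l) (hK s l 0 (by rw [norm_zero]; exact hρ))
    filter_upwards [hG] with q hq
    exact ⟨G q, hq⟩
  have ex : ∀ (s l : ℝ) (v : E3), |s - s₀| < δ → ‖v‖ < min δ ρ → ∃ p, TrP_A κ₀ ε K (s, (l, v)) p := by
    intro s l v hs hv
    have hv1 : ‖v‖ < δ := lt_of_lt_of_le hv (min_le_left _ _)
    have hv2 : ‖v‖ < ρ := lt_of_lt_of_le hv (min_le_right _ _)
    have h1 : (s, (Int.fract l, v)) ∈ interior {q | ∃ p, TrP_A κ₀ ε K q p} := by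
      apply hth
      rw [Metric.mem_thickening_iff]
      refine ⟨(s₀, (Int.fract l, 0)), ⟨rfl, ⟨Int.fract_nonneg l, (Int.fract_lt_one l).le⟩, rfl⟩, ?_⟩
      rw [Prod.dist_eq, Prod.dist_eq]
      simp only [dist_self, dist_zero_right]
      refine max_lt ?_ (max_lt hδ hv1)
      rw [Real.dist_eq]; exact hs
    obtain ⟨p, hp⟩ := interior_subset h1
    have := shift s (Int.fract l) v p ⌊l⌋ hv2 hp
    rw [Int.fract_add_floor] at this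
    exact ⟨_, this⟩
  let g : ℝ → ℝ × E3 → ℝ × E3 := fun s x => if hx : ∃ p, TrP_A κ₀ ε K (s, x) p then hx.choose else x
  have hg : ∀ q p, TrP_A κ₀ ε K q p → g q.1 q.2 = p := by
    intro q p hp
    have hx : ∃ p, TrP_A κ₀ ε K (q.1, q.2) p := ⟨p, hp⟩
    have : g q.1 q.2 = hx.choose := dif_pos hx
    rw [this]
    exact trP_uniq h hx.choose_spec hp
  refine ⟨g, min δ ρ, δ, lt_min hδ hρ, min_le_right _ _, hδ, ?_⟩
  intro s l v hs hv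
  have hv2 : ‖v‖ < ρ := lt_of_lt_of_le hv (min_le_right _ _)
  obtain ⟨p, hp⟩ := ex s l v hs hv
  have e1 : g s (l, v) = p := hg (s, (l, v)) p hp
  refine ⟨?_, ?_, ?_, ?_, ?_, ?_⟩
  · obtain ⟨G, hG, hG'⟩ := trP_loc h hp (hK s l v hv2)
    refine hG.congr_of_eventuallyEq ?_
    filter_upwards [hG'] with q hq
    exact hg q _ hq
  · rw [e1]; exact hp.2.2
  · rw [e1]; exact hp.1
  · rw [e1]; exact hp.2.1
  · have h1 := shift s l v p 1 hv2 hp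
    rw [Int.cast_one] at h1
    rw [hg (s, (l + 1, v)) _ h1, e1]
    exact Prod.ext rfl (add_zero _).symm
  · exact hg (s, (l, 0)) (l, 0) (core0 s l)

end Pool.Agent.ACB
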