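import Pool.Agent.ACB.Bal
import Pool.Agent.ACB.ThC
import Pool.Agent.ACB.TrP
import Pool.Agent.ACB.ExT

/-!
# ACB/GeI: isotopies of germs of tubes

PROOF.  By `isPreconnected_univ.induction₂` for the relation `R s s' := ∀ U open ⊇ range c, ∃ F, (F = id off U) ∧ ∃ δ > 0, F (K s (l, v)) = K s' (l, v) for ‖v‖ < δ` (transitive: compose; symmetric: `F.symm`) it suffices: for every
`s₀`, `R s₀ s` for all `s` near `s₀`.  But the neighbourhood of `s₀` may depend on `U`; so fix `U` first and do the induction for this `U`.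
`K s₀` is thick of some radius (`thick_of_core`), and by `thick_near` of a radius `ε` with `K s₀ (l, v) ∈ U` for `‖v‖ < ε`.  `transition` with `κ₀ = K s₀`: `g, δ, η` (we may take `δ < ε`).  By uniqueness
(`κ₀ (g s₀ x) = κ₀ x`, `|(g s₀ x).1 - l| < 1/2`, injectivity) `g s₀ x = x` for `‖x.2‖ < δ`.  Let `χ : E3 → ℝ` be smooth, `χ = 1` for `‖v‖ ≤ δ / 3`, `χ = 0` for `‖v‖ ≥ 2 δ / 3` (`ContDiffBump`), and let `ψ : ℝ → ℝ` be smooth with `ψ s₀ = s₀`,
`|ψ s - s₀| < η` for all `s`, `ψ s = s` near `s₀` (for example `s₀ + (s - s₀) * bump`).  `G (s, (l, v)) = χ v • (g (ψ s) (l, v) - (l, v))`, `0` for `‖v‖ ≥ δ`: smooth on `ℝ × (ℝ × E3)`, `Lam1`-periodic,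
`G (s₀, x) = 0`, supported in `C + Lam1`, `C = [0, 1] × closedBall 0 (2 δ / 3)`.  `ISO.small_family` (`lat1`): for `s` near `s₀` there is `f`, `Move Lam1 {‖x.2‖ < ε} f`, `f x = x + G (s, x)`; for `‖v‖ < δ / 3` and `s` near `s₀`
`f (l, v) = g s (l, v)`.  `ext_tube` for `K s₀`: `F (K s₀ (l, v)) = K s₀ (g s (l, v)) = K s (l, v)` for `‖v‖ < δ / 3`, and `F = id` off the tube of radius `ε`, so off `U`.
-/

open scoped ContDiff Manifold Topology unitInterval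
open Set Filter

namespace Pool.Agent.ACB

universe u
variable {N : Type u} [TopologicalSpace N] [ChartedSpace E4 N]

/-- the relation of the proof -/
def GeI_R (K : ℝ → ℝ × E3 → N) (U : Set N) (s s' : ℝ) : Prop :=
  ∃ F : N ≃ₘ⟮𝓡 4, 𝓡 4⟯ N, (∀ y, y ∉ U → F y = y) ∧
    ∃ δ > 0, ∀ (l : ℝ) (v : E3), ‖v‖ < δ → F (K s (l, v)) = K s' (l, v)

theorem geI_trans {K : ℝ → ℝ × E3 → N} {U : Set N} {s₁ s₂ s₃ : ℝ} (h : GeI_R K U s₁ s₂) (h' : GeI_R K U s₂ s₃) :
    GeI_R K U s₁ s₃ := by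
  obtain ⟨F, hF, δ, hδ, h1⟩ := h
  obtain ⟨F', hF', δ', hδ', h1'⟩ := h'
  refine ⟨F.trans F', fun y hy => ?_, min δ δ', lt_min hδ hδ', fun l v hv => ?_⟩
  · show F' (F y) = y
    rw [hF y hy, hF' y hy]
  · show F' (F (K s₁ (l, v))) = K s₃ (l, v)
    rw [h1 l v (lt_of_lt_of_le hv (min_le_left _ _)), h1' l v (lt_of_lt_of_le hv (min_le_right _ _))]

theorem geI_symm {K : ℝ → ℝ × E3 → N} {U : Set N} {s₁ s₂ : ℝ} (h : GeI_R K U s₁ s₂) : GeI_R K U s₂ s₁ := by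
  obtain ⟨F, hF, δ, hδ, h1⟩ := h
  refine ⟨F.symm, fun y hy => ?_, δ, hδ, fun l v hv => ?_⟩
  · conv_lhs => rw [← hF y hy]
    exact F.symm_apply_apply y
  · rw [← h1 l v hv]
    exact F.symm_apply_apply _

/-- the local version -/
theorem geI_local {g : ℝ → ℝ × E3 → ℝ × E3} {δ η ε s₀ : ℝ} (hδ : 0 < δ) (hη : 0 < η) (hε : 0 < ε)
    (hg : ∀ (s l : ℝ) (v : E3), |s - s₀| < η → ‖v‖ < δ →
        ContDiffAt ℝ ∞ (fun q : ℝ × (ℝ × E3) => g q.1 q.2) (s, (l, v)) ∧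
          g s (l + 1, v) = g s (l, v) + (1, 0))
    (hg0 : ∀ (l : ℝ) (v : E3), ‖v‖ < min δ ε → g s₀ (l, v) = (l, v)) :
    ∀ᶠ s in 𝓝 s₀, ∃ F : Equiv.Perm (ℝ × E3), ISO.Move Lam1 {x : ℝ × E3 | ‖x.2‖ < ε} F ∧
      ∀ (l : ℝ) (v : E3), ‖v‖ < min δ ε / 3 → F (l, v) = g s (l, v) := by
  set d := min δ ε with hd
  have hd0 : 0 < d := lt_min hδ hε
  have hd1 : d ≤ δ := min_le_left _ _
  have hd2 : d ≤ ε := min_le_right _ _
  let χ : ContDiffBump (0 : E3) := ⟨d / 3, 2 * d / 3, by positivity, by linarith⟩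
  let b : ContDiffBump s₀ := ⟨η / 3, η / 2, by positivity, by linarith⟩
  let ψ : ℝ → ℝ := fun s => s₀ + b s * (s - s₀)
  have hχ1 : ∀ v : E3, ‖v‖ < d / 3 → χ v = 1 := by
    intro v hv
    apply χ.one_of_mem_closedBall
    rw [mem_closedBall_zero_iff]
    exact hv.le
  have hχ0 : ∀ v : E3, 2 * d / 3 ≤ ‖v‖ → χ v = 0 := by
    intro v hv
    apply χ.zero_of_le_dist
    rw [dist_zero_right]
    exact hv
  have hψs : ContDiff ℝ ∞ ψ := contDiff_const.add (b.contDiff.mul (contDiff_id.sub contDiff_const))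
  have hψ0 : ψ s₀ = s₀ := by simp [ψ]
  have hψη : ∀ s, |ψ s - s₀| < η := by
    intro s
    have e1 : ψ s - s₀ = b s * (s - s₀) := by simp [ψ]
    rw [e1, abs_mul, abs_of_nonneg b.nonneg]
    by_cases hs : η / 2 ≤ |s - s₀|
    · have : b s = 0 := b.zero_of_le_dist (by rw [Real.dist_eq]; exact hs)
      rw [this, zero_mul]; exact hη
    · push Not at hs
      calc b s * |s - s₀| ≤ 1 * |s - s₀| := by
            exact mul_le_mul_of_nonneg_right b.le_one (abs_nonneg _)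
        _ < η := by linarith
  have hψn : ∀ s, |s - s₀| < η / 3 → ψ s = s := by
    intro s hs
    have : b s = 1 := b.one_of_mem_closedBall (by
      rw [Metric.mem_closedBall, Real.dist_eq]; exact hs.le)
    simp [ψ, this]
  let G : ℝ × (ℝ × E3) → ℝ × E3 := fun q => χ q.2.2 • (g (ψ q.1) q.2 - q.2)
  have hG0 : ∀ s x, 2 * d / 3 ≤ ‖x.2‖ → G (s, x) = 0 := by
    intro s x hx
    show χ x.2 • _ = _
    rw [hχ0 _ hx, zero_smul]
  have hG : ContDiff ℝ ∞ G := by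
    rw [contDiff_iff_contDiffAt]
    rintro ⟨s, l, v⟩
    by_cases hv : ‖v‖ < d
    · have h1 : ContDiffAt ℝ ∞ (fun q : ℝ × (ℝ × E3) => g q.1 q.2) (ψ s, (l, v)) :=
        (hg (ψ s) l v (hψη s) (lt_of_lt_of_le hv hd1)).1
      have h2 : ContDiffAt ℝ ∞ (fun q : ℝ × (ℝ × E3) => (ψ q.1, q.2)) (s, (l, v)) :=
        ((hψs.comp contDiff_fst).prodMk contDiff_snd).contDiffAt
      have h3 : ContDiffAt ℝ ∞ (fun q : ℝ × (ℝ × E3) => g (ψ q.1) q.2) (s, (l, v)) :=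
        ContDiffAt.comp (s, (l, v)) (g := fun q : ℝ × (ℝ × E3) => g q.1 q.2) h1 h2
      have h4 : ContDiffAt ℝ ∞ (fun q : ℝ × (ℝ × E3) => χ q.2.2) (s, (l, v)) :=
        (χ.contDiff.comp (contDiff_snd.comp contDiff_snd)).contDiffAt
      exact h4.smul (h3.sub contDiff_snd.contDiffAt)
    · push Not at hv
      have o : ∀ᶠ q : ℝ × (ℝ × E3) in 𝓝 (s, (l, v)), 2 * d / 3 < ‖q.2.2‖ := by
        refine continuousAt_const.eventually_lt
          ((continuous_snd.comp continuous_snd).norm.continuousAt) ?_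
        show 2 * d / 3 < ‖v‖
        linarith
      refine (contDiffAt_const (c := (0 : ℝ × E3))).congr_of_eventuallyEq ?_
      filter_upwards [o] with q hq
      exact hG0 q.1 q.2 hq.le
  have hGs : ∀ x, G (s₀, x) = 0 := by
    intro x
    by_cases hx : ‖x.2‖ < d
    · show χ x.2 • (g (ψ s₀) x - x) = 0
      rw [hψ0, hg0 x.1 x.2 hx, sub_self, smul_zero]
    · push Not at hx
      exact hG0 _ _ (by linarith)
  have hGp : ∀ s, Function.Periodic (fun x => G (s, x)) ((1 : ℝ), (0 : E3)) := by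
    intro s x
    have e0 : x + ((1 : ℝ), (0 : E3)) = (x.1 + 1, x.2) := Prod.ext rfl (add_zero _)
    by_cases hx : ‖x.2‖ < d
    · show χ (x + ((1 : ℝ), (0 : E3))).2 • (g (ψ s) (x + ((1 : ℝ), (0 : E3))) - (x + ((1 : ℝ), (0 : E3)))) =
        χ x.2 • (g (ψ s) x - x)
      have e1 : (x + ((1 : ℝ), (0 : E3))).2 = x.2 := add_zero _
      have e2 : g (ψ s) (x + ((1 : ℝ), (0 : E3))) = g (ψ s) x + (1, 0) := by
        rw [e0]
        exact (hg (ψ s) x.1 x.2 (hψη s) (lt_of_lt_of_le hx hd1)).2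
      rw [e1, e2, add_sub_add_right_eq_sub]
    · push Not at hx
      show G (s, x + ((1 : ℝ), (0 : E3))) = G (s, x)
      rw [e0, hG0 s x (by linarith), hG0 s (x.1 + 1, x.2) (by show 2 * d / 3 ≤ ‖x.2‖; linarith)]
  have hev := ISO.small_family lat1 (O := {x : ℝ × E3 | ‖x.2‖ < ε})
    (C := Icc (0 : ℝ) 1 ×ˢ Metric.closedBall (0 : E3) (2 * d / 3)) hG hGs (by
      intro m hm s x
      obtain ⟨k, rfl⟩ := AddSubgroup.mem_zmultiples_iff.mp hm
      exact (hGp s).zsmul k x) (isCompact_Icc.prod (isCompact_closedBall _ _)) (by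
      rintro ⟨l, v⟩ ⟨-, hv⟩
      rw [mem_closedBall_zero_iff] at hv
      show ‖v‖ < ε
      linarith) (by
      intro s x hx
      by_contra hne
      have h1 : ‖x.2‖ < 2 * d / 3 := by
        by_contra h2
        push Not at h2
        exact hne (hG0 s x h2)
      refine hx _ (exT_mem' (-⌊x.1⌋)) ⟨?_, ?_⟩
      · show x.1 + ((-⌊x.1⌋ : ℤ) : ℝ) ∈ Icc (0 : ℝ) 1
        rw [Int.cast_neg, ← sub_eq_add_neg]
        exact ⟨Int.fract_nonneg x.1, (Int.fract_lt_one x.1).le⟩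
      · show x.2 + 0 ∈ Metric.closedBall (0 : E3) (2 * d / 3)
        rw [add_zero, mem_closedBall_zero_iff]
        exact h1.le)
  have hn : ∀ᶠ s in 𝓝 s₀, |s - s₀| < η / 3 := by
    have := Metric.ball_mem_nhds s₀ (show 0 < η / 3 by positivity)
    filter_upwards [this] with s hs
    rwa [Metric.mem_ball, Real.dist_eq] at hs
  filter_upwards [hev, hn] with s hs hs'
  obtain ⟨F, hF, hFx⟩ := hs
  refine ⟨F, hF, fun l v hv => ?_⟩
  rw [hFx]
  show (l, v) + χ v • (g (ψ s) (l, v) - (l, v)) = _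
  rw [hχ1 v hv, hψn s hs', one_smul]
  abel

theorem germ_iso [T2Space N] [IsManifold (𝓡 4) ∞ N] {K : ℝ → ℝ × E3 → N} {c : ℝ → N} {ρ : ℝ} (hρ : 0 < ρ)
    (hK : ∀ (s l : ℝ) (v : E3), ‖v‖ < ρ →
      ContMDiffAt 𝓘(ℝ, ℝ × (ℝ × E3)) (𝓡 4) ∞ (fun q : ℝ × (ℝ × E3) => K q.1 q.2) (s, (l, v)))
    (hper : ∀ (s l : ℝ) (v : E3), ‖v‖ < ρ → K s (l + 1, v) = K s (l, v))
    (hcore : ∀ s l : ℝ, K s (l, 0) = c l)
    (hloc : ∀ s l : ℝ, IsLocalDiffeomorphAt 𝓘(ℝ, ℝ × E3) (𝓡 4) ∞ (K s) (l, 0))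
    (hinj : ∀ l l' : ℝ, c l = c l' → ∃ m : ℤ, l' = l + m) {U : Set N} (hU : IsOpen U) (hcU : ∀ l, c l ∈ U)
    (s s' : ℝ) :
    ∃ F : N ≃ₘ⟮𝓡 4, 𝓡 4⟯ N, (∀ y, y ∉ U → F y = y) ∧
      ∃ δ > 0, ∀ (l : ℝ) (v : E3), ‖v‖ < δ → F (K s (l, v)) = K s' (l, v) := by
  have main : GeI_R K U s s' := by
    refine isPreconnected_univ.induction₂ (GeI_R K U) ?_ (fun s₁ s₂ s₃ _ _ _ => geI_trans)
      (fun s₁ s₂ _ _ => geI_symm) (mem_univ s) (mem_univ s')
    intro s₀ _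
    rw [nhdsWithin_univ]
    obtain ⟨δ₀, hδ₀, hδρ, hth⟩ := thick_of_core hρ (fun l v hv => hper s₀ l v hv) (hloc s₀) (by
      intro l l' e
      rw [hcore, hcore] at e
      exact hinj l l' e)
    obtain ⟨ε, hε, hεδ, hεU⟩ := thick_near hth hU (fun l => by rw [hcore]; exact hcU l)
    have hth' := hth.mono hε hεδ
    obtain ⟨g, δ, η, hδ, hδ', hη, hg⟩ := transition hth' hρ hK hper (fun s l => by rw [hcore, hcore]) s₀
    have hev := geI_local (g := g) (s₀ := s₀) hδ hη hε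
      (fun s l v hs hv => ⟨(hg s l v hs hv).1, (hg s l v hs hv).2.2.2.2.1⟩) (by
        intro l v hv
        have hv1 : ‖v‖ < δ := lt_of_lt_of_le hv (min_le_left _ _)
        have hv2 : ‖v‖ < ε := lt_of_lt_of_le hv (min_le_right _ _)
        obtain ⟨-, h1, h2, h3, -, -⟩ := hg s₀ l v (by rw [sub_self, abs_zero]; exact hη) hv1
        obtain ⟨e, m, hm⟩ := hth'.inj (g s₀ (l, v)).1 (g s₀ (l, v)).2 l v h2 hv2 h1
        have h4 : |(m : ℝ)| < 1 := by
          have e1 : (m : ℝ) = -((g s₀ (l, v)).1 - l) := by rw [neg_sub]; linarith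
          rw [e1, abs_neg]
          linarith
        have h5 : m = 0 := by
          have : |m| < 1 := by exact_mod_cast h4
          exact Int.abs_lt_one_iff.mp this
        rw [h5, Int.cast_zero, add_zero] at hm
        exact Prod.ext hm.symm e)
    have hn : ∀ᶠ s in 𝓝 s₀, |s - s₀| < η := by
      have := Metric.ball_mem_nhds s₀ hη
      filter_upwards [this] with s hs
      rwa [Metric.mem_ball, Real.dist_eq] at hs
    filter_upwards [hev, hn] with s hs hsη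
    obtain ⟨f, hf, hfg⟩ := hs
    obtain ⟨F, hF1, hF2⟩ := ext_tube hth' hf
    refine ⟨F, ?_, min δ ε / 3, div_pos (lt_min hδ hε) (by norm_num), ?_⟩
    · intro y hy
      refine hF2 y fun x hx e => hy ?_
      rw [e]
      exact hεU x.1 x.2 hx
    · intro l v hv
      have hv0 : ‖v‖ < min δ ε := by
        have : 0 < min δ ε := lt_min hδ hε
        linarith
      have hv1 : ‖v‖ < δ := lt_of_lt_of_le hv0 (min_le_left _ _)
      have hv2 : ‖v‖ < ε := lt_of_lt_of_le hv0 (min_le_right _ _)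
      rw [hF1 (l, v) hv2, hfg l v hv]
      exact (hg s l v hsη hv1).2.1
  exact main

end Pool.Agent.ACB
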