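import Pool.Agent.ACB.Bal
import Pool.Agent.ACB.GeI
import Pool.Agent.ACB.Srg

/-!
# ACB/FrH: homotopic framings

`fr κ M (l, v) = κ (l, M l v)`.

PROOF.  Put `σ = Real.smoothTransition`, `K s = fr κ₁ (M (σ s))`.  `(s, l) ↦ M (σ s) l` is bounded (compactness of `[0, 1]²`, periodicity): `‖M (σ s) l‖ ≤ B`, `ρ = ε / (B + 1)`; for `‖v‖ < ρ` `K` is smooth at `(s, (l, v))` (`κ₁` is
smooth on the tube; `(s, l, v) ↦ M (σ s) l v` is smooth, `ContDiff.clm_apply`).  `K s (l, 0) = core κ₁ l`.  `K s` is a local diffeomorphism at `(l, 0)`: `(l, v) ↦ (l, M l v)` has derivative `(a, w) ↦ (a, M l w)` at `(l, 0)`, bijective: inverse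
function theorem (`ContDiffAt.toOpenPartialHomeomorph`), or explicitly: its inverse is `(l, v) ↦ (l, (M l)⁻¹ v)`, smooth (`ContinuousLinearMap.inverse`, `contDiffAt_map_inverse`).
`U = (κ₂ '' ([0, 1] × closedBall 0 (ε / 2)))ᶜ` is open and contains the core of `κ₁` (`hT.disj`).  `germ_iso` (`s = 0`, `s' = 1`): `F`.  `isSurg_diffeo` and `isSurg_germ`: `F (fr κ₁ (M 0) (l, v)) = fr κ₁ (M 1) (l, v)` near the core,
`F ∘ κ₂ = κ₂` on the tube of radius `ε / 2`.
-/

open scoped ContDiff Manifold Topology unitInterval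
open Set Filter

namespace Pool.Agent.ACB

universe u
variable {N : Type u} [TopologicalSpace N] [ChartedSpace E4 N]

/-- reframing of a thick circle -/
def fr (κ : ℝ × E3 → N) (M : ℝ → E3 →L[ℝ] E3) (x : ℝ × E3) : N := κ (x.1, M x.1 x.2)

theorem frh_per {M : ℝ → ℝ → E3 →L[ℝ] E3} (hper : ∀ s l, M s (l + 1) = M s l) (s l : ℝ) :
    M s l = M s (Int.fract l) := by
  have h1 : Function.Periodic (M s) 1 := fun t => hper s t
  have h2 := h1.sub_int_mul_eq (x := l) ⌊l⌋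
  rw [mul_one] at h2
  exact h2.symm

theorem frh_bound {M : ℝ → ℝ → E3 →L[ℝ] E3} (hM : Continuous fun q : ℝ × ℝ => M q.1 q.2)
    (hper : ∀ s l, M s (l + 1) = M s l) : ∃ B : ℝ, 0 < B ∧ ∀ s ∈ Icc (0 : ℝ) 1, ∀ l, ‖M s l‖ ≤ B := by
  have hK : IsCompact (Icc (0 : ℝ) 1 ×ˢ Icc (0 : ℝ) 1) := isCompact_Icc.prod isCompact_Icc
  obtain ⟨C, hC⟩ := hK.exists_bound_of_continuousOn hM.continuousOn
  refine ⟨|C| + 1, by positivity, ?_⟩
  intro s hs l
  rw [frh_per hper]
  have h1 := hC (s, Int.fract l) ⟨hs, Int.fract_nonneg l, (Int.fract_lt_one l).le⟩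
  have h2 := le_abs_self C
  simp only at h1
  linarith

theorem frh_inv {M : ℝ → E3 →L[ℝ] E3} (hM : ContDiff ℝ ∞ M) (hbij : ∀ l, Function.Bijective (M l)) :
    ContDiff ℝ ∞ fun l => (M l).inverse := by
  rw [contDiff_iff_contDiffAt]
  intro l
  let e : E3 ≃L[ℝ] E3 := (LinearEquiv.ofBijective (M l : E3 →ₗ[ℝ] E3) (hbij l)).toContinuousLinearEquiv
  have he : (e : E3 →L[ℝ] E3) = M l := by
    ext v
    rfl
  have h1 : ContDiffAt ℝ ∞ (ContinuousLinearMap.inverse : (E3 →L[ℝ] E3) → E3 →L[ℝ] E3) (M l) := by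
    rw [← he]
    exact contDiffAt_map_inverse e
  exact ContDiffAt.comp l h1 hM.contDiffAt

theorem frh_left {M : E3 →L[ℝ] E3} (hbij : Function.Bijective M) (v : E3) : M.inverse (M v) = v := by
  let e : E3 ≃L[ℝ] E3 := (LinearEquiv.ofBijective (M : E3 →ₗ[ℝ] E3) hbij).toContinuousLinearEquiv
  have he : (e : E3 →L[ℝ] E3) = M := by
    ext v
    rfl
  rw [← he, ContinuousLinearMap.inverse_equiv]
  exact e.symm_apply_apply v

theorem frh_right {M : E3 →L[ℝ] E3} (hbij : Function.Bijective M) (v : E3) : M (M.inverse v) = v := by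
  let e : E3 ≃L[ℝ] E3 := (LinearEquiv.ofBijective (M : E3 →ₗ[ℝ] E3) hbij).toContinuousLinearEquiv
  have he : (e : E3 →L[ℝ] E3) = M := by
    ext v
    rfl
  rw [← he, ContinuousLinearMap.inverse_equiv]
  exact e.apply_symm_apply v

/-- the reparametrisation -/
noncomputable def frh_th (M : ℝ → E3 →L[ℝ] E3) (hM : ContDiff ℝ ∞ M) (hbij : ∀ l, Function.Bijective (M l)) :
    Diffeomorph 𝓘(ℝ, ℝ × E3) 𝓘(ℝ, ℝ × E3) (ℝ × E3) (ℝ × E3) ∞ where
  toFun q := (q.1, M q.1 q.2)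
  invFun q := (q.1, (M q.1).inverse q.2)
  left_inv q := by
    show ((q.1, (M q.1).inverse (M q.1 q.2)) : ℝ × E3) = q
    rw [frh_left (hbij _)]
  right_inv q := by
    show ((q.1, M q.1 ((M q.1).inverse q.2)) : ℝ × E3) = q
    rw [frh_right (hbij _)]
  contMDiff_toFun := by
    have h : ContDiff ℝ ∞ fun q : ℝ × E3 => (q.1, M q.1 q.2) :=
      contDiff_fst.prodMk ((hM.comp contDiff_fst).clm_apply contDiff_snd)
    exact h.contMDiff
  contMDiff_invFun := by
    have h : ContDiff ℝ ∞ fun q : ℝ × E3 => (q.1, (M q.1).inverse q.2) :=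
      contDiff_fst.prodMk (((frh_inv hM hbij).comp contDiff_fst).clm_apply contDiff_snd)
    exact h.contMDiff

theorem frame_homotopy [T2Space N] [IsManifold (𝓡 4) ∞ N] {κ₁ κ₂ : ℝ × E3 → N} {ε : ℝ}
    (hT : Tubes ![κ₁, κ₂] ε) {M : ℝ → ℝ → E3 →L[ℝ] E3} (hM : ContDiff ℝ ∞ fun q : ℝ × ℝ => M q.1 q.2)
    (hper : ∀ s l, M s (l + 1) = M s l) (hbij : ∀ s l, Function.Bijective (M s l)) {X : Type*}
    [TopologicalSpace X] [ChartedSpace E4 X] (h : IsSurg ![fr κ₁ (M 0), κ₂] X) :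
    IsSurg ![fr κ₁ (M 1), κ₂] X := by
  have hk1 : Thick κ₁ ε := hT.thick 0
  have hk2 : Thick κ₂ ε := hT.thick 1
  have hdisj : ∀ (l : ℝ) (v : E3) (l' : ℝ) (v' : E3), ‖v‖ < ε → ‖v'‖ < ε → κ₁ (l, v) ≠ κ₂ (l', v') :=
    hT.disj 0 1 (by decide)
  have hε := hk1.pos
  obtain ⟨B, hB, hMB⟩ := frh_bound hM.continuous hper
  have hσ : ∀ s : ℝ, Real.smoothTransition s ∈ Icc (0 : ℝ) 1 := fun s =>
    ⟨Real.smoothTransition.nonneg s, Real.smoothTransition.le_one s⟩
  have hρ : 0 < ε / (B + 1) := by positivity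
  have hsmall : ∀ (s l : ℝ) (v : E3), ‖v‖ < ε / (B + 1) → ‖M (Real.smoothTransition s) l v‖ < ε := by
    intro s l v hv
    have h1 := (M (Real.smoothTransition s) l).le_opNorm v
    have h2 := hMB _ (hσ s) l
    have h3 : ‖M (Real.smoothTransition s) l‖ * ‖v‖ ≤ B * ‖v‖ :=
      mul_le_mul_of_nonneg_right h2 (norm_nonneg v)
    rw [lt_div_iff₀ (by positivity)] at hv
    have h4 := norm_nonneg v
    nlinarith
  -- the open set
  have hcomp : IsCompact (κ₂ '' (Icc (0 : ℝ) 1 ×ˢ Metric.closedBall (0 : E3) (ε / 2))) := by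
    refine (isCompact_Icc.prod (isCompact_closedBall _ _)).image_of_continuousOn ?_
    rintro ⟨l, v⟩ ⟨_, hv⟩
    have hv' : ‖v‖ < ε := by
      have h1 : ‖v‖ ≤ ε / 2 := by simpa using hv
      linarith
    exact (hk2.loc l v hv').contMDiffAt.continuousAt.continuousWithinAt
  have hU : IsOpen (κ₂ '' (Icc (0 : ℝ) 1 ×ˢ Metric.closedBall (0 : E3) (ε / 2)))ᶜ :=
    hcomp.isClosed.isOpen_compl
  obtain ⟨F, hF1, δ, hδ, hF2⟩ := germ_iso (K := fun s => fr κ₁ (M (Real.smoothTransition s))) (c := core κ₁)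
    hρ (fun s l v hv => by
      have h1 : ContDiff ℝ ∞ fun q : ℝ × (ℝ × E3) => (q.2.1, M (Real.smoothTransition q.1) q.2.1 q.2.2) := by
        refine (contDiff_fst.comp contDiff_snd).prodMk ?_
        refine ContDiff.clm_apply ?_ (contDiff_snd.comp contDiff_snd)
        have h2 : ContDiff ℝ ∞ fun q : ℝ × (ℝ × E3) => ((Real.smoothTransition q.1, q.2.1) : ℝ × ℝ) :=
          (Real.smoothTransition.contDiff.comp contDiff_fst).prodMk (contDiff_fst.comp contDiff_snd)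
        exact hM.comp h2
      have h3 : ContMDiffAt 𝓘(ℝ, ℝ × E3) (𝓡 4) ∞ κ₁ (l, M (Real.smoothTransition s) l v) :=
        (hk1.loc l _ (hsmall s l v hv)).contMDiffAt
      exact ContMDiffAt.comp (s, (l, v)) (g := κ₁) h3 h1.contMDiff.contMDiffAt)
    (fun s l v hv => by
      show κ₁ (l + 1, M (Real.smoothTransition s) (l + 1) v) = κ₁ (l, M (Real.smoothTransition s) l v)
      rw [hper]
      exact hk1.per l _ (hsmall s l v hv))
    (fun s l => by
      show κ₁ (l, M (Real.smoothTransition s) l 0) = κ₁ (l, 0)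
      rw [map_zero])
    (fun s l => by
      have hMs : ContDiff ℝ ∞ (M (Real.smoothTransition s)) := by
        have h2 : ContDiff ℝ ∞ fun l : ℝ => ((Real.smoothTransition s, l) : ℝ × ℝ) :=
          contDiff_const.prodMk contDiff_id
        exact hM.comp h2
      have h1 := (frh_th _ hMs (hbij (Real.smoothTransition s))).isLocalDiffeomorph (l, 0)
      have h2 : (frh_th _ hMs (hbij (Real.smoothTransition s))) (l, 0) = (l, 0) := by
        show ((l, M (Real.smoothTransition s) l 0) : ℝ × E3) = (l, 0)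
        rw [map_zero]
      exact IsLocalDiffeomorphAt.comp (hf := h1) (g := κ₁)
        (hg := by rw [h2]; exact hk1.loc l 0 (by rw [norm_zero]; exact hε)) ..)
    (fun l l' hll => (hk1.inj l 0 l' 0 (by rw [norm_zero]; exact hε) (by rw [norm_zero]; exact hε) hll).2)
    hU (fun l => by
      rintro ⟨⟨l', v'⟩, ⟨_, hv'⟩, h1⟩
      have hv'' : ‖v'‖ < ε := by
        have h2 : ‖v'‖ ≤ ε / 2 := by simpa using hv'
        linarith
      exact hdisj l 0 l' v' (by rw [norm_zero]; exact hε) hv'' h1.symm) 0 1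
  refine isSurg_germ (isSurg_diffeo h F) ?_
  intro i
  fin_cases i
  · refine ⟨δ, hδ, ?_⟩
    intro l v hv
    have h1 := hF2 l v hv
    simp only [Real.smoothTransition.zero, Real.smoothTransition.one] at h1
    exact h1.symm
  · refine ⟨ε / 2, by positivity, ?_⟩
    intro l v hv
    show κ₂ (l, v) = F (κ₂ (l, v))
    symm
    apply hF1
    intro h1
    apply h1
    refine ⟨(Int.fract l, v), ⟨⟨Int.fract_nonneg l, (Int.fract_lt_one l).le⟩, by simpa using hv.le⟩, ?_⟩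
    have h2 : Function.Periodic (fun t => κ₂ (t, v)) 1 := fun t => hk2.per t v (by linarith)
    have h3 := h2.sub_int_mul_eq (x := l) ⌊l⌋
    rw [mul_one] at h3
    exact h3

end Pool.Agent.ACB
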