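import Pool.Agent.ACB.Bal
import Pool.Agent.ACB.FrH

/-!
# ACB/Lin: tubes with the same core differ by a framing

PROOF.  `transition` with `κ₀ = κ'`, `K s = κ` for all `s`, `s₀ = 0`: for `‖v‖ < δ`: `g = g 0`, `κ' (g (l, v)) = κ (l, v)`, `g` smooth, `g (l + 1, v) = g (l, v) + (1, 0)`, `g (l, 0) = (l, 0)`.  `M l v = (fderiv ℝ g (l, 0) (0, v)).2`:
smooth in `l`, periodic.  `fderiv ℝ g (l, 0) (1, 0) = (1, 0)`; `fderiv ℝ g (l, 0)` is bijective (`g` is a local diffeomorphism at `(l, 0)`: near `(l, 0)` `g = Φ.symm ∘ κ`, `Φ` the partial diffeomorphism of `κ'`, by uniqueness; or: `κ = κ' ∘ g` near `(l, 0)`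
and `κ` has a local inverse), so it has the form `(a, w) ↦ (a + α l w, M l w)` with `M l` bijective.
`K s (l, v) = κ' ((1 - σ s) • g (l, v) + σ s • (l, M l v))`, `σ = Real.smoothTransition`.  For `‖v‖ < ρ` (small: the second component of both points is less than `ε`, by compactness in `l`; convex combination) `K` is smooth; periodic (the argument is
translated by `(1, 0)`); `K s (l, 0) = κ' (l, 0)`; the derivative of `x ↦ (1 - σ) g + σ (l, M l v)` at `(l, 0)` is `(a, w) ↦ (a + (1 - σ) α l w, M l w)`, bijective, so `K s` is a local diffeomorphism at `(l, 0)` (inverse function theorem).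
`germ_iso` with `U` = complement of the closed tube of radius `ε / 2` of `κ₂`: `F (κ (l, v)) = F (K 0 (l, v)) = K 1 (l, v) = fr κ' M (l, v)` near the core, `F = id` near `core κ₂`.  `isSurg_diffeo`, `isSurg_germ`.
-/

open scoped ContDiff Manifold Topology unitInterval
open Set Filter

namespace Pool.Agent.ACB

universe u
variable {N : Type u} [TopologicalSpace N] [ChartedSpace E4 N]

/-- linear part of a transition map along the core -/
noncomputable def lin_M (g : ℝ × E3 → ℝ × E3) (l : ℝ) : E3 →L[ℝ] E3 :=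
  (ContinuousLinearMap.snd ℝ ℝ E3).comp ((fderiv ℝ g (l, 0)).comp (ContinuousLinearMap.inr ℝ ℝ E3))

theorem lin_M_apply (g : ℝ × E3 → ℝ × E3) (l : ℝ) (v : E3) :
    lin_M g l v = (fderiv ℝ g (l, 0) (0, v)).2 := rfl

theorem lin_M_smooth {g : ℝ × E3 → ℝ × E3} (hg : ∀ l : ℝ, ContDiffAt ℝ ∞ g (l, 0)) :
    ContDiff ℝ ∞ (lin_M g) := by
  have h1 : ContDiff ℝ ∞ fun l : ℝ => fderiv ℝ g (l, 0) := by
    rw [contDiff_iff_contDiffAt]
    intro l
    have h2 : ContDiffAt ℝ ∞ (fderiv ℝ g) (l, 0) := (hg l).fderiv_right (m := ∞) (by simp)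
    exact h2.comp l (contDiffAt_id.prodMk contDiffAt_const)
  exact contDiff_const.clm_comp (h1.clm_comp contDiff_const)

theorem lin_M_per {g : ℝ × E3 → ℝ × E3} {δ : ℝ} (hδ : 0 < δ)
    (hp : ∀ (l : ℝ) (v : E3), ‖v‖ < δ → g (l + 1, v) = g (l, v) + (1, 0)) (l : ℝ) :
    lin_M g (l + 1) = lin_M g l := by
  have h1 : (fun x : ℝ × E3 => g (x + (1, 0))) =ᶠ[𝓝 (l, (0 : E3))] fun x => g x + (1, 0) := by
    have h2 : ∀ᶠ x : ℝ × E3 in 𝓝 (l, (0 : E3)), ‖x.2‖ < δ := by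
      have hc : Continuous fun x : ℝ × E3 => ‖x.2‖ := continuous_norm.comp continuous_snd
      refine (hc.tendsto (l, (0 : E3))).eventually (gt_mem_nhds ?_)
      simpa using hδ
    filter_upwards [h2] with x hx
    have h3 : x + ((1 : ℝ), (0 : E3)) = (x.1 + 1, x.2) := by
      ext1 <;> simp
    rw [h3]
    exact hp x.1 x.2 hx
  have h4 : fderiv ℝ g (l + 1, 0) = fderiv ℝ g (l, 0) := by
    have h5 := h1.fderiv_eq (𝕜 := ℝ)
    rw [fderiv_comp_add_right, fderiv_add_const] at h5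
    have h6 : ((l, (0 : E3)) : ℝ × E3) + (1, 0) = (l + 1, 0) := by
      ext1 <;> simp
    rw [h6] at h5
    exact h5
  unfold lin_M
  rw [h4]

theorem lin_A_one {g : ℝ × E3 → ℝ × E3} (hg : ∀ l : ℝ, ContDiffAt ℝ ∞ g (l, 0))
    (h0 : ∀ l : ℝ, g (l, 0) = (l, 0)) (l : ℝ) : fderiv ℝ g (l, 0) (1, 0) = (1, 0) := by
  have h1 : HasFDerivAt g (fderiv ℝ g (l, 0)) (l, 0) := ((hg l).differentiableAt (by simp)).hasFDerivAt
  have h2 : HasDerivAt (fun t : ℝ => ((t, 0) : ℝ × E3)) (1, 0) l :=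
    (hasDerivAt_id l).prodMk (hasDerivAt_const l (0 : E3))
  have h3 : HasDerivAt (g ∘ fun t : ℝ => ((t, 0) : ℝ × E3)) (fderiv ℝ g (l, 0) (1, 0)) l :=
    HasFDerivAt.comp_hasDerivAt l h1 h2
  have h4 : (g ∘ fun t : ℝ => ((t, 0) : ℝ × E3)) = fun t : ℝ => ((t, 0) : ℝ × E3) := funext h0
  rw [h4] at h3
  exact h3.unique h2

theorem lin_A_split {g : ℝ × E3 → ℝ × E3} (hg : ∀ l : ℝ, ContDiffAt ℝ ∞ g (l, 0))
    (h0 : ∀ l : ℝ, g (l, 0) = (l, 0)) (l a : ℝ) (w : E3) :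
    fderiv ℝ g (l, 0) (a, w) = (a + (fderiv ℝ g (l, 0) (0, w)).1, lin_M g l w) := by
  have h1 : ((a, w) : ℝ × E3) = a • (1, 0) + (0, w) := by
    ext1 <;> simp
  rw [h1, map_add, map_smul, lin_A_one hg h0 l]
  ext1
  · simp
  · simp [lin_M_apply]

/-- the transition map has an injective derivative -/
theorem lin_A_inj {κ κ' : ℝ × E3 → N} {g : ℝ × E3 → ℝ × E3} {l : ℝ}
    (hκ : IsLocalDiffeomorphAt 𝓘(ℝ, ℝ × E3) (𝓡 4) ∞ κ (l, 0))
    (hκ' : IsLocalDiffeomorphAt 𝓘(ℝ, ℝ × E3) (𝓡 4) ∞ κ' (l, 0)) (hg : ContDiffAt ℝ ∞ g (l, 0))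
    (h0 : g (l, 0) = (l, 0)) (hc : κ (l, 0) = κ' (l, 0)) (hh : (fun x => κ' (g x)) =ᶠ[𝓝 (l, 0)] κ)
    (x : ℝ × E3) (hx : fderiv ℝ g (l, 0) x = 0) : x = 0 := by
  have h1 : ContMDiffAt (𝓡 4) 𝓘(ℝ, ℝ × E3) ∞ hκ.localInverse (κ (l, 0)) := hκ.localInverse_contMDiffAt
  have h2 : ContMDiffAt 𝓘(ℝ, ℝ × E3) 𝓘(ℝ, ℝ × E3) ∞ (hκ.localInverse ∘ κ') (l, 0) := by
    rw [hc] at h1
    exact h1.comp (l, 0) hκ'.contMDiffAt
  have h3 : DifferentiableAt ℝ (hκ.localInverse ∘ κ') (l, 0) :=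
    (contMDiffAt_iff_contDiffAt.mp h2).differentiableAt (by simp)
  have h4 : HasFDerivAt (hκ.localInverse ∘ κ') (fderiv ℝ (hκ.localInverse ∘ κ') (l, 0)) (g (l, 0)) := by
    rw [h0]
    exact h3.hasFDerivAt
  have h5 := h4.comp (l, (0 : E3)) (hg.differentiableAt (by simp)).hasFDerivAt
  have h6 : ((hκ.localInverse ∘ κ') ∘ g) =ᶠ[𝓝 (l, (0 : E3))] id := by
    have h7 := hκ.localInverse_eventuallyEq_left
    filter_upwards [hh, h7] with y hy hy'
    show hκ.localInverse (κ' (g y)) = y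
    have h8 : κ' (g y) = κ y := hy
    rw [h8]
    exact hy'
  have h9 : HasFDerivAt ((hκ.localInverse ∘ κ') ∘ g) (ContinuousLinearMap.id ℝ (ℝ × E3)) (l, (0 : E3)) :=
    (hasFDerivAt_id _).congr_of_eventuallyEq h6
  have h10 := h5.unique h9
  have h11 := congrArg (fun T : ℝ × E3 →L[ℝ] ℝ × E3 => T x) h10
  simp only [ContinuousLinearMap.comp_apply, ContinuousLinearMap.id_apply] at h11
  rw [hx, map_zero] at h11
  exact h11.symm

theorem lin_bound {M : ℝ → E3 →L[ℝ] E3} (hM : Continuous M) (hper : ∀ l, M (l + 1) = M l) :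
    ∃ B : ℝ, 0 ≤ B ∧ ∀ l, ‖M l‖ ≤ B := by
  obtain ⟨C, hC⟩ := (isCompact_Icc (a := (0 : ℝ)) (b := 1)).exists_bound_of_continuousOn hM.continuousOn
  refine ⟨max C 0, le_max_right _ _, fun l => ?_⟩
  have hp : Function.Periodic M 1 := hper
  obtain ⟨y, hy, he⟩ := hp.exists_mem_Ico₀ one_pos l
  rw [he]
  exact (hC y ⟨hy.1, hy.2.le⟩).trans (le_max_left _ _)

/-- the interpolation -/
noncomputable def lin_G (g : ℝ × E3 → ℝ × E3) (s : ℝ) (x : ℝ × E3) : ℝ × E3 :=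
  (1 - Real.smoothTransition s) • g x + Real.smoothTransition s • (x.1, lin_M g x.1 x.2)

theorem lin_G_smooth {g : ℝ × E3 → ℝ × E3} (hg : ∀ l : ℝ, ContDiffAt ℝ ∞ g (l, 0)) {s : ℝ} {x : ℝ × E3}
    (hx : ContDiffAt ℝ ∞ g x) : ContDiffAt ℝ ∞ (fun q : ℝ × (ℝ × E3) => lin_G g q.1 q.2) (s, x) := by
  have h1 : ContDiff ℝ ∞ fun q : ℝ × (ℝ × E3) => Real.smoothTransition q.1 :=
    Real.smoothTransition.contDiff.comp contDiff_fst
  have h2 : ContDiffAt ℝ ∞ (fun q : ℝ × (ℝ × E3) => g q.2) (s, x) := hx.comp (s, x) contDiffAt_snd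
  have h3 : ContDiff ℝ ∞ fun q : ℝ × (ℝ × E3) => lin_M g q.2.1 :=
    (lin_M_smooth hg).comp (contDiff_fst.comp contDiff_snd)
  have h4 : ContDiff ℝ ∞ fun q : ℝ × (ℝ × E3) => lin_M g q.2.1 q.2.2 :=
    h3.clm_apply (contDiff_snd.comp contDiff_snd)
  have h5 : ContDiff ℝ ∞ fun q : ℝ × (ℝ × E3) => ((q.2.1, lin_M g q.2.1 q.2.2) : ℝ × E3) :=
    (contDiff_fst.comp contDiff_snd).prodMk h4
  exact ((contDiff_const.sub h1).contDiffAt.smul h2).add (h1.smul h5).contDiffAt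

theorem lin_G_smooth' {g : ℝ × E3 → ℝ × E3} (hg : ∀ l : ℝ, ContDiffAt ℝ ∞ g (l, 0)) (s : ℝ) {x : ℝ × E3}
    (hx : ContDiffAt ℝ ∞ g x) : ContDiffAt ℝ ∞ (lin_G g s) x :=
  (lin_G_smooth hg hx).comp x (contDiffAt_const.prodMk contDiffAt_id)

theorem lin_G_core {g : ℝ × E3 → ℝ × E3} (h0 : ∀ l : ℝ, g (l, 0) = (l, 0)) (s l : ℝ) :
    lin_G g s (l, 0) = (l, 0) := by
  unfold lin_G
  rw [h0]
  simp only [map_zero]
  rw [← add_smul, sub_add_cancel, one_smul]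

theorem lin_G_fderiv {g : ℝ × E3 → ℝ × E3} (hg : ∀ l : ℝ, ContDiffAt ℝ ∞ g (l, 0))
    (h0 : ∀ l : ℝ, g (l, 0) = (l, 0)) (s l a : ℝ) (w : E3) :
    fderiv ℝ (lin_G g s) (l, 0) (a, w) =
      (a + (1 - Real.smoothTransition s) * (fderiv ℝ g (l, 0) (0, w)).1, lin_M g l w) := by
  have h1 : HasFDerivAt g (fderiv ℝ g (l, 0)) (l, 0) := ((hg l).differentiableAt (by simp)).hasFDerivAt
  have h2 : HasFDerivAt (fun x : ℝ × E3 => lin_M g x.1) ((fderiv ℝ (lin_M g) l).comp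
      (ContinuousLinearMap.fst ℝ ℝ E3)) (l, (0 : E3)) := by
    have h3 : HasFDerivAt (lin_M g) (fderiv ℝ (lin_M g) l) ((l, (0 : E3)) : ℝ × E3).1 :=
      (((lin_M_smooth hg).differentiable (by simp)) l).hasFDerivAt
    exact h3.comp (l, (0 : E3)) hasFDerivAt_fst
  have h4 := h2.clm_apply (hasFDerivAt_snd (𝕜 := ℝ) (p := (l, (0 : E3))))
  have h5 := (hasFDerivAt_fst (𝕜 := ℝ) (p := (l, (0 : E3)))).prodMk h4
  have h6 := (h1.const_smul (1 - Real.smoothTransition s)).add (h5.const_smul (Real.smoothTransition s))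
  have h7 : fderiv ℝ (lin_G g s) (l, 0) = _ := h6.fderiv
  rw [h7]
  simp only [add_apply, smul_apply, ContinuousLinearMap.prod_apply,
    ContinuousLinearMap.comp_apply, ContinuousLinearMap.coe_fst', ContinuousLinearMap.coe_snd',
    map_zero, add_zero]
  rw [lin_A_split hg h0]
  ext1
  · simp only [Prod.fst_add, Prod.smul_fst, smul_eq_mul]
    ring
  · simp only [Prod.snd_add, Prod.smul_snd]
    rw [← add_smul, sub_add_cancel, one_smul]

theorem linearize [T2Space N] [IsManifold (𝓡 4) ∞ N] {κ κ' κ₂ : ℝ × E3 → N} {ε : ℝ}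
    (hT : Tubes ![κ, κ₂] ε) (hT' : Tubes ![κ', κ₂] ε) (hc : core κ = core κ') :
    ∃ M : ℝ → E3 →L[ℝ] E3, ContDiff ℝ ∞ M ∧ (∀ l, M (l + 1) = M l) ∧ (∀ l, Function.Bijective (M l)) ∧
      ∀ (X : Type) [TopologicalSpace X] [ChartedSpace E4 X], IsSurg ![κ, κ₂] X → IsSurg ![fr κ' M, κ₂] X := by
  have hκ : Thick κ ε := hT.thick 0
  have hκ' : Thick κ' ε := hT'.thick 0
  have hκ₂ : Thick κ₂ ε := hT.thick 1
  have hε : 0 < ε := hκ.pos
  have hc' : ∀ l : ℝ, κ (l, 0) = κ' (l, 0) := fun l => congrFun hc l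
  obtain ⟨gg, δ, η, hδ, hδε, hη, htr⟩ := transition hκ' (K := fun _ => κ) (ρ := ε) hε
    (fun s l v hv => ((hκ.loc l v hv).contMDiffAt).comp (s, (l, v)) (contDiffAt_snd.contMDiffAt))
    (fun _ l v hv => hκ.per l v hv) (fun _ l => hc' l) 0
  let g : ℝ × E3 → ℝ × E3 := gg 0
  have h00 : |(0 : ℝ) - 0| < η := by simpa using hη
  have hgs : ∀ (l : ℝ) (v : E3), ‖v‖ < δ → ContDiffAt ℝ ∞ g (l, v) := fun l v hv =>
    ((htr 0 l v h00 hv).1).comp (l, v) (contDiffAt_const.prodMk contDiffAt_id)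
  have hgκ : ∀ (l : ℝ) (v : E3), ‖v‖ < δ → κ' (g (l, v)) = κ (l, v) := fun l v hv => (htr 0 l v h00 hv).2.1
  have hgn : ∀ (l : ℝ) (v : E3), ‖v‖ < δ → ‖(g (l, v)).2‖ < ε := fun l v hv => (htr 0 l v h00 hv).2.2.1
  have hgp : ∀ (l : ℝ) (v : E3), ‖v‖ < δ → g (l + 1, v) = g (l, v) + (1, 0) := fun l v hv =>
    (htr 0 l v h00 hv).2.2.2.2.1
  have hδ0 : ‖(0 : E3)‖ < δ := by simpa using hδ
  have hg0 : ∀ l : ℝ, g (l, 0) = (l, 0) := fun l => (htr 0 l 0 h00 hδ0).2.2.2.2.2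
  have hgs0 : ∀ l : ℝ, ContDiffAt ℝ ∞ g (l, 0) := fun l => hgs l 0 hδ0
  have hε0 : ‖(0 : E3)‖ < ε := by simpa using hε
  have hnear : ∀ l : ℝ, ∀ᶠ x : ℝ × E3 in 𝓝 (l, (0 : E3)), ‖x.2‖ < δ := by
    intro l
    have hcn : Continuous fun x : ℝ × E3 => ‖x.2‖ := continuous_norm.comp continuous_snd
    refine (hcn.tendsto (l, (0 : E3))).eventually (gt_mem_nhds ?_)
    simpa using hδ
  have hAinj : ∀ (l : ℝ) (x : ℝ × E3), fderiv ℝ g (l, 0) x = 0 → x = 0 := by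
    intro l x hx
    refine lin_A_inj (hκ.loc l 0 hε0) (hκ'.loc l 0 hε0) (hgs0 l) (hg0 l) (hc' l) ?_ x hx
    filter_upwards [hnear l] with y hy
    exact hgκ y.1 y.2 hy
  have hMinj : ∀ (l : ℝ) (w : E3), lin_M g l w = 0 → w = 0 := by
    intro l w hw
    have h1 : fderiv ℝ g (l, 0) (-(fderiv ℝ g (l, 0) (0, w)).1, w) = 0 := by
      rw [lin_A_split hgs0 hg0, hw, neg_add_cancel]
      rfl
    exact congrArg Prod.snd (hAinj l _ h1)
  have hMs : ContDiff ℝ ∞ (lin_M g) := lin_M_smooth hgs0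
  have hMp : ∀ l, lin_M g (l + 1) = lin_M g l := lin_M_per hδ hgp
  refine ⟨lin_M g, hMs, hMp, ?_, ?_⟩
  · intro l
    have hi : Function.Injective (lin_M g l : E3 →ₗ[ℝ] E3) := by
      rw [← LinearMap.ker_eq_bot, LinearMap.ker_eq_bot']
      exact fun w hw => hMinj l w hw
    exact ⟨hi, LinearMap.injective_iff_surjective.mp hi⟩
  · intro X _ _ hX
    obtain ⟨B, hB0, hB⟩ := lin_bound hMs.continuous hMp
    let ρ : ℝ := min δ (ε / (B + 1))
    have hρ : 0 < ρ := lt_min hδ (by positivity)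
    have hMn : ∀ (l : ℝ) (v : E3), ‖v‖ < ρ → ‖lin_M g l v‖ < ε := by
      intro l v hv
      have h1 : ‖v‖ < ε / (B + 1) := lt_of_lt_of_le hv (min_le_right _ _)
      calc ‖lin_M g l v‖ ≤ ‖lin_M g l‖ * ‖v‖ := (lin_M g l).le_opNorm v
        _ ≤ B * ‖v‖ := by gcongr; exact hB l
        _ ≤ (B + 1) * ‖v‖ := by nlinarith [norm_nonneg v]
        _ < (B + 1) * (ε / (B + 1)) := by
            apply mul_lt_mul_of_pos_left h1; positivity
        _ = ε := by field_simp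
    have hGn : ∀ (s l : ℝ) (v : E3), ‖v‖ < ρ → ‖(lin_G g s (l, v)).2‖ < ε := by
      intro s l v hv
      have h1 : (g (l, v)).2 ∈ Metric.ball (0 : E3) ε := by
        rw [mem_ball_zero_iff]
        exact hgn l v (lt_of_lt_of_le hv (min_le_left _ _))
      have h2 : lin_M g l v ∈ Metric.ball (0 : E3) ε := by
        rw [mem_ball_zero_iff]
        exact hMn l v hv
      have h3 := convex_ball (0 : E3) ε h1 h2
        (sub_nonneg.mpr (Real.smoothTransition.le_one s)) (Real.smoothTransition.nonneg s) (by ring)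
      rw [mem_ball_zero_iff] at h3
      exact h3
    have hK : ∀ (s l : ℝ) (v : E3), ‖v‖ < ρ →
        ContMDiffAt 𝓘(ℝ, ℝ × (ℝ × E3)) (𝓡 4) ∞ (fun q : ℝ × (ℝ × E3) => κ' (lin_G g q.1 q.2)) (s, (l, v)) := by
      intro s l v hv
      have h1 : ContMDiffAt 𝓘(ℝ, ℝ × (ℝ × E3)) 𝓘(ℝ, ℝ × E3) ∞
          (fun q : ℝ × (ℝ × E3) => lin_G g q.1 q.2) (s, (l, v)) :=
        (lin_G_smooth hgs0 (hgs l v (lt_of_lt_of_le hv (min_le_left _ _)))).contMDiffAt
      have h2 : ContMDiffAt 𝓘(ℝ, ℝ × E3) (𝓡 4) ∞ κ' (lin_G g s (l, v)) :=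
        (hκ'.loc (lin_G g s (l, v)).1 (lin_G g s (l, v)).2 (hGn s l v hv)).contMDiffAt
      exact ContMDiffAt.comp (x := (s, (l, v))) (g := κ') (f := fun q : ℝ × (ℝ × E3) => lin_G g q.1 q.2) h2 h1
    have hper : ∀ (s l : ℝ) (v : E3), ‖v‖ < ρ → κ' (lin_G g s (l + 1, v)) = κ' (lin_G g s (l, v)) := by
      intro s l v hv
      have h1 : lin_G g s (l + 1, v) = ((lin_G g s (l, v)).1 + 1, (lin_G g s (l, v)).2) := by
        unfold lin_G
        simp only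
        rw [hgp l v (lt_of_lt_of_le hv (min_le_left _ _)), hMp]
        ext1
        · simp only [Prod.fst_add, Prod.smul_fst, smul_eq_mul]
          ring
        · simp only [Prod.snd_add, Prod.smul_snd, add_zero]
      rw [h1]
      exact hκ'.per _ _ (hGn s l v hv)
    have hcore : ∀ s l : ℝ, κ' (lin_G g s (l, 0)) = κ' (l, 0) := fun s l => by rw [lin_G_core hg0]
    have hloc : ∀ s l : ℝ, IsLocalDiffeomorphAt 𝓘(ℝ, ℝ × E3) (𝓡 4) ∞ (fun x => κ' (lin_G g s x)) (l, 0) := by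
      intro s l
      have h1 : IsLocalDiffeomorphAt 𝓘(ℝ, ℝ × E3) 𝓘(ℝ, ℝ × E3) ∞ (lin_G g s) (l, 0) := by
        refine Pool.Agent.CSG.ld_of_fderiv ?_ rfl ?_
        · filter_upwards [hnear l] with y hy
          exact lin_G_smooth' hgs0 s (hgs y.1 y.2 hy)
        · rintro ⟨a, w⟩ hx
          rw [lin_G_fderiv hgs0 hg0] at hx
          have h2 : lin_M g l w = 0 := congrArg Prod.snd hx
          have h3 := hMinj l w h2
          have h4 : a + (1 - Real.smoothTransition s) * (fderiv ℝ g (l, 0) (0, w)).1 = 0 := congrArg Prod.fst hx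
          rw [h3] at h4 ⊢
          have h5 : fderiv ℝ g (l, 0) ((0 : ℝ), (0 : E3)) = 0 := map_zero _
          rw [h5] at h4
          simp only [Prod.fst_zero, mul_zero, add_zero] at h4
          rw [h4]
          rfl
      refine h1.comp (𝓡 4) N ?_
      rw [lin_G_core hg0]
      exact hκ'.loc l 0 hε0
    have hinj : ∀ l l' : ℝ, κ' (l, 0) = κ' (l', 0) → ∃ m : ℤ, l' = l + m := fun l l' he =>
      (hκ'.inj l 0 l' 0 hε0 hε0 he).2
    let C : Set N := κ₂ '' (Icc 0 1 ×ˢ Metric.closedBall 0 (ε / 2))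
    have hCc : IsCompact C := by
      refine (isCompact_Icc.prod (isCompact_closedBall (0 : E3) (ε / 2))).image_of_continuousOn ?_
      rintro ⟨l, v⟩ ⟨-, hv⟩
      rw [mem_closedBall_zero_iff] at hv
      exact (hκ₂.loc l v (by linarith)).contMDiffAt.continuousAt.continuousWithinAt
    have hcU : ∀ l : ℝ, κ' (l, 0) ∈ Cᶜ := by
      rintro l ⟨⟨l', v'⟩, ⟨-, hv'⟩, he⟩
      rw [mem_closedBall_zero_iff] at hv'
      exact hT'.disj 0 1 (by decide) l 0 l' v' hε0 (by linarith) he.symm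
    obtain ⟨F, hF, δ₁, hδ₁, hFK⟩ := germ_iso (K := fun s x => κ' (lin_G g s x)) (c := fun l => κ' (l, 0)) hρ hK
      hper hcore hloc hinj hCc.isClosed.isOpen_compl hcU 0 1
    have h1 := isSurg_diffeo hX F
    refine isSurg_germ h1 ?_
    rw [Fin.forall_fin_two]
    constructor
    · refine ⟨min δ δ₁, lt_min hδ hδ₁, fun l v hv => ?_⟩
      have h2 : F (κ' (lin_G g 0 (l, v))) = κ' (lin_G g 1 (l, v)) :=
        hFK l v (lt_of_lt_of_le hv (min_le_right _ _))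
      have h3 : lin_G g 0 (l, v) = g (l, v) := by
        unfold lin_G
        rw [Real.smoothTransition.zero, sub_zero, one_smul, zero_smul, add_zero]
      have h4 : lin_G g 1 (l, v) = (l, lin_M g l v) := by
        unfold lin_G
        rw [Real.smoothTransition.one, sub_self, zero_smul, one_smul, zero_add]
      rw [h3, h4, hgκ l v (lt_of_lt_of_le hv (min_le_left _ _))] at h2
      exact h2.symm
    · refine ⟨ε / 2, by positivity, fun l v hv => ?_⟩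
      show κ₂ (l, v) = F (κ₂ (l, v))
      refine (hF _ ?_).symm
      rw [mem_compl_iff, not_not]
      refine ⟨(Int.fract l, v), ⟨⟨Int.fract_nonneg l, (Int.fract_lt_one l).le⟩, ?_⟩, ?_⟩
      · rw [mem_closedBall_zero_iff]
        exact hv.le
      · have h5 := hκ₂.per_int (Int.fract l) ⌊l⌋ v (by linarith)
        rw [Int.fract_add_floor] at h5
        exact h5.symm

end Pool.Agent.ACB
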