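import Pool.Agent.ACB.Bal

/-!
# ACB/RpL: reparametrisation of loops of frames

PROOF.  There is a smooth `1`-periodic `β : ℝ → ℝ` with `β l = l - θ` for `|l - θ| < 1/8`: let `b (x) = x * χ x`, `χ` smooth, `χ = 1` on `[-1/8, 1/8]`, support in `(-1/4, 1/4)`, and `β l = b (l - θ - round (l - θ))` (smooth: near `l` with
`|l - θ - m| < 1/2` it is `b (l - θ - m)`, near half integers it is `0`).  `P s l = L (l - σ s * β l)`, `σ = Real.smoothTransition`.  `P 0 = L`; for `|l - θ| < 1/8`: `P 1 l = L θ`.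
-/

open scoped ContDiff Manifold Topology unitInterval
open Set Filter

namespace Pool.Agent.ACB

universe u
variable {N : Type u} [TopologicalSpace N] [ChartedSpace E4 N]

/-- the identity near `0`, cut off -/
noncomputable def rpl_b (x : ℝ) : ℝ := x * Real.smoothTransition ((1 / 16 - x ^ 2) * (64 / 3))

theorem rpl_b_smooth : ContDiff ℝ ∞ rpl_b := by
  unfold rpl_b
  exact contDiff_id.mul (Real.smoothTransition.contDiff.comp
    ((contDiff_const.sub (contDiff_id.pow 2)).mul contDiff_const))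

theorem rpl_b_one {x : ℝ} (h : |x| ≤ 1 / 8) : rpl_b x = x := by
  unfold rpl_b
  rw [Real.smoothTransition.one_of_one_le, mul_one]
  have h1 := sq_le_sq' (by linarith [(abs_le.1 h).1] : -(1 / 8 : ℝ) ≤ x) (abs_le.1 h).2
  linarith

theorem rpl_b_zero {x : ℝ} (h : 1 / 4 ≤ |x|) : rpl_b x = 0 := by
  unfold rpl_b
  rw [Real.smoothTransition.zero_of_nonpos, mul_zero]
  have h1 : (1 / 4 : ℝ) ^ 2 ≤ |x| ^ 2 := pow_le_pow_left₀ (by norm_num) h 2
  rw [sq_abs] at h1
  linarith

theorem rpl_round {x : ℝ} {m : ℤ} (h : |x - m| < 1 / 2) : round x = m := by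
  rw [round_eq, Int.floor_eq_iff]
  have h1 := abs_lt.1 h
  constructor <;> linarith

theorem rpl_smooth : ContDiff ℝ ∞ fun x : ℝ => rpl_b (x - round x) := by
  rw [contDiff_iff_contDiffAt]
  intro x₀
  rcases lt_or_eq_of_le (abs_sub_round x₀) with h | h
  · have h1 : ContDiffAt ℝ ∞ (fun x : ℝ => rpl_b (x - round x₀)) x₀ :=
      (rpl_b_smooth.comp (contDiff_id.sub contDiff_const)).contDiffAt
    refine h1.congr_of_eventuallyEq ?_
    have hev : ∀ᶠ x : ℝ in 𝓝 x₀, |x - round x₀| < 1 / 2 :=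
      (isOpen_lt (by fun_prop) continuous_const).mem_nhds h
    filter_upwards [hev] with x hx
    rw [rpl_round hx]
  · have h1 : ContDiffAt ℝ ∞ (fun _ : ℝ => (0 : ℝ)) x₀ := contDiffAt_const
    refine h1.congr_of_eventuallyEq ?_
    have hev : ∀ᶠ x : ℝ in 𝓝 x₀, |x - x₀| < 1 / 8 :=
      (isOpen_lt (by fun_prop) continuous_const).mem_nhds (by simp)
    filter_upwards [hev] with x hx
    apply rpl_b_zero
    by_contra hn
    rw [not_le] at hn
    have h2 : |x₀ - round x| < 1 / 2 := by
      have h3 : x₀ - round x = -(x - x₀) + (x - round x) := by ring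
      rw [h3]
      have h4 := abs_add_le (-(x - x₀)) (x - round x)
      rw [abs_neg] at h4
      linarith
    have h5 := rpl_round h2
    rw [h5] at h
    have h3 : x₀ - round x = -(x - x₀) + (x - round x) := by ring
    rw [h3] at h
    have h4 := abs_add_le (-(x - x₀)) (x - round x)
    rw [abs_neg] at h4
    linarith

theorem reparam {L : ℝ → E3 →L[ℝ] E3} (hL : ContDiff ℝ ∞ L) (hper : ∀ l, L (l + 1) = L l)
    (hn : ∀ l v, ‖L l v‖ = ‖v‖) (θ : ℝ) :
    ∃ P : ℝ → ℝ → E3 →L[ℝ] E3, (ContDiff ℝ ∞ fun q : ℝ × ℝ => P q.1 q.2) ∧ (∀ s l, P s (l + 1) = P s l) ∧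
      (∀ s l v, ‖P s l v‖ = ‖v‖) ∧ P 0 = L ∧ ∀ l, |l - θ| < 1 / 8 → P 1 l = L θ := by
  refine ⟨fun s l => L (l - Real.smoothTransition s * rpl_b ((l - θ) - round (l - θ))), ?_, ?_, ?_, ?_, ?_⟩
  · have h1 : ContDiff ℝ ∞ fun q : ℝ × ℝ => rpl_b ((q.2 - θ) - round (q.2 - θ)) :=
      rpl_smooth.comp (contDiff_snd.sub contDiff_const)
    exact hL.comp (contDiff_snd.sub ((Real.smoothTransition.contDiff.comp contDiff_fst).mul h1))
  · intro s l
    have h1 : l + 1 - θ = (l - θ) + 1 := by ring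
    have h2 : round (l - θ + 1) = round (l - θ) + 1 := round_add_one _
    show L (l + 1 - Real.smoothTransition s * rpl_b ((l + 1 - θ) - round (l + 1 - θ))) =
      L (l - Real.smoothTransition s * rpl_b ((l - θ) - round (l - θ)))
    rw [h1, h2]
    push_cast
    have h3 : l - θ + 1 - ((round (l - θ) : ℝ) + 1) = l - θ - round (l - θ) := by ring
    rw [h3]
    have h4 : l + 1 - Real.smoothTransition s * rpl_b (l - θ - round (l - θ)) =
        (l - Real.smoothTransition s * rpl_b (l - θ - round (l - θ))) + 1 := by ring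
    rw [h4, hper]
  · intro s l v
    exact hn _ v
  · funext l
    show L (l - Real.smoothTransition 0 * rpl_b ((l - θ) - round (l - θ))) = L l
    rw [Real.smoothTransition.zero, zero_mul, sub_zero]
  · intro l hl
    show L (l - Real.smoothTransition 1 * rpl_b ((l - θ) - round (l - θ))) = L θ
    have h1 : round (l - θ) = 0 := rpl_round (by push_cast; rw [sub_zero]; linarith)
    rw [h1, Real.smoothTransition.one, one_mul]
    push_cast
    rw [sub_zero, rpl_b_one hl.le]
    congr 1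
    ring

end Pool.Agent.ACB
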