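import Pool.Agent.ACB.Bal
import Pool.Agent.ACB.Lin
import Pool.Agent.ACB.GSm
import Pool.Agent.ACB.RpL

/-!
# ACB/NoF: normal form of a framing

PROOF.  `linearize`: `M`.  `gram`: `P` from `M` to an isometric `L₁ = P 1`.  `frame_homotopy` (for `κ'`, `κ₂`): `IsSurg ![fr κ' M, κ₂] X → IsSurg ![fr κ' L₁, κ₂] X`.  `reparam` and `frame_homotopy` (norm preserving linear maps of `E3` are
bijective: injective and finite dimensional): `L₂` with `L₂ l = L₁ θ` for `|l - θ| < 1/8`.  `O` = the linear isometry equivalence `(L₁ θ)⁻¹` (`LinearIsometry.toLinearIsometryEquiv`): `isSurg_rot`: `IsSurg ![fr κ' L₂, κ₂] X → IsSurg ![fr κ' L₃, κ₂] X`,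
`L₃ l v = L₂ l (O v)`, `L₃ l = id` for `|l - θ| < 1/8`.
-/

open scoped ContDiff Manifold Topology unitInterval
open Set Filter

namespace Pool.Agent.ACB

universe u
variable {N : Type u} [TopologicalSpace N] [ChartedSpace E4 N]

theorem normal_frame [T2Space N] [IsManifold (𝓡 4) ∞ N] {κ κ' κ₂ : ℝ × E3 → N} {ε : ℝ}
    (hT : Tubes ![κ, κ₂] ε) (hT' : Tubes ![κ', κ₂] ε) (hc : core κ = core κ') (θ : ℝ) :
    ∃ L : ℝ → E3 →L[ℝ] E3, ContDiff ℝ ∞ L ∧ (∀ l, L (l + 1) = L l) ∧ (∀ l v, ‖L l v‖ = ‖v‖) ∧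
      (∀ l, |l - θ| < 1 / 8 → L l = ContinuousLinearMap.id ℝ E3) ∧
      ∀ (X : Type) [TopologicalSpace X] [ChartedSpace E4 X], IsSurg ![κ, κ₂] X → IsSurg ![fr κ' L, κ₂] X := by
  obtain ⟨M, hM, hMp, hMb, hMs⟩ := linearize hT hT' hc
  obtain ⟨P, hP, hPp, hPb, hP0, hP1⟩ := gram hM hMp hMb
  have hL : ContDiff ℝ ∞ (P 1) := by
    have : (P 1) = (fun q : ℝ × ℝ => P q.1 q.2) ∘ fun l : ℝ => ((1 : ℝ), l) := rfl
    rw [this]
    exact hP.comp (contDiff_const.prodMk contDiff_id)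
  obtain ⟨R, hR, hRp, hRn, hR0, hR1⟩ := reparam hL (hPp 1) hP1 θ
  have hRb : ∀ s l, Function.Bijective (R s l) := by
    intro s l
    have hinj : Function.Injective (R s l) := by
      rw [injective_iff_map_eq_zero]
      intro v hv
      have := hRn s l v
      rw [hv, norm_zero] at this
      exact norm_eq_zero.mp this.symm
    exact ⟨hinj, (LinearMap.injective_iff_surjective (f := (R s l).toLinearMap)).mp hinj⟩
  let T : E3 →ₗᵢ[ℝ] E3 := ⟨(P 1 θ).toLinearMap, hP1 θ⟩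
  let O : E3 ≃ₗᵢ[ℝ] E3 := (T.toLinearIsometryEquiv rfl).symm
  have hO : ∀ v, P 1 θ (O v) = v := by
    intro v
    have : (T.toLinearIsometryEquiv rfl) ((T.toLinearIsometryEquiv rfl).symm v) = v :=
      LinearIsometryEquiv.apply_symm_apply _ v
    exact this
  refine ⟨fun l => (R 1 l).comp (O.toContinuousLinearEquiv : E3 →L[ℝ] E3), ?_, ?_, ?_, ?_, ?_⟩
  · have h1 : ContDiff ℝ ∞ (R 1) := by
      have : (R 1) = (fun q : ℝ × ℝ => R q.1 q.2) ∘ fun l : ℝ => ((1 : ℝ), l) := rfl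
      rw [this]
      exact hR.comp (contDiff_const.prodMk contDiff_id)
    exact h1.clm_comp contDiff_const
  · intro l
    simp only [hRp]
  · intro l v
    show ‖R 1 l (O v)‖ = ‖v‖
    rw [hRn, LinearIsometryEquiv.norm_map]
  · intro l hl
    ext1 v
    show R 1 l (O v) = v
    rw [hR1 l hl, hO]
  · intro X _ _ hX
    have h1 := hMs X hX
    rw [← hP0] at h1
    have h2 := frame_homotopy hT' hP hPp hPb h1
    rw [← hR0] at h2
    have h3 := frame_homotopy hT' hR hRp hRb h2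
    exact isSurg_rot h3 O

end Pool.Agent.ACB
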