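import Pool.Agent.ACB.Bal
import Pool.Agent.ACB.Tbe
import Pool.Agent.CSG.LDa

/-!
# ACB/SrU: the result of a surgery is unique

PROOF of `surg_uniq`.  Define `f : X → X'` by `f (S.A p) = S'.A p` (`p` off the circles), `f (S.Q i (0, v)) = S'.Q i (0, v)`; well defined by `S.cover`, `S.A_inj`, `S.disj`, `S.Q_inj`
(choose; `Classical.choose` on `S.cover q`).  Define `g : X' → X` in the same way; `f` and `g` are inverse to each other.  Smooth: (1) at `q = S.A p`: the set of points off the circles is open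
(`N` Hausdorff, cores compact; finitely many circles), `S.A` is a local diffeomorphism at `p` with partial diffeomorphism `Φ`; near `q` `f = S'.A ∘ Φ.symm`.  (2) first show
`f (S.Q i (z, v)) = S'.Q i (z, v)` for `‖z‖ < ε`: for `z ≠ 0` `z = r * ex l` (`ex_polar`), `S.Q i (z, v) = S.A (κ i (l, r v))`, `κ i (l, r v)` is off the circles (`hT.disj` for
`j ≠ i` with `v' = 0`, injectivity of `κ i` for `j = i`).  So near `q = S.Q i (0, v)` `f = S'.Q i ∘ Ψ.symm`, `Ψ` the partial diffeomorphism of `S.Q_loc`.  Smooth maps with smooth inverse: `Diffeomorph`.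
PROOF of `isSurg_uniq`.  Both surgeries restricted to the smaller radius (`Tubes.mono`, `Surg.mono`).
-/

open scoped ContDiff Manifold Topology unitInterval
open Set Filter

namespace Pool.Agent.ACB

universe u
variable {N : Type u} [TopologicalSpace N] [ChartedSpace E4 N]

theorem sru_off_open [T2Space N] {ι : Type} [Finite ι] {κ : ι → ℝ × E3 → N} {ε : ℝ} (hT : Tubes κ ε) :
    IsOpen {p | Off κ p} := by
  have e : {p | Off κ p} = ⋂ i, (range (core (κ i)))ᶜ := by
    ext p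
    simp only [mem_setOf_eq, mem_iInter, mem_compl_iff, mem_range, not_exists]
    constructor
    · intro h i l hl
      exact h i l hl.symm
    · intro h i l hl
      exact h i l hl.symm
  rw [e]
  exact isOpen_iInter_of_finite fun i => (core_compact (hT.thick i)).isClosed.isOpen_compl

theorem sru_off {ι : Type} {κ : ι → ℝ × E3 → N} {ε : ℝ} (hT : Tubes κ ε) (i : ι) (l r : ℝ) (v : S2)
    (h0 : 0 < r) (h1 : r < ε) : Off κ (κ i (l, r • v.1)) := by
  have hv : ‖(v.1 : E3)‖ = 1 := by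
    have := v.2
    rwa [mem_sphere_zero_iff_norm] at this
  have hn : ‖r • (v.1 : E3)‖ = r := by
    rw [norm_smul, hv, mul_one, Real.norm_eq_abs, abs_of_pos h0]
  have h2 : ‖r • (v.1 : E3)‖ < ε := by rw [hn]; exact h1
  have h3 : ‖(0 : E3)‖ < ε := by rw [norm_zero]; exact (hT.thick i).pos
  intro j l' he
  by_cases hij : i = j
  · subst hij
    have h4 := ((hT.thick i).inj l (r • v.1) l' 0 h2 h3 he).1
    rw [h4, norm_zero] at hn
    exact h0.ne hn
  · exact hT.disj i j hij l (r • v.1) l' 0 h2 h3 he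

section
variable {ι : Type} {κ : ι → ℝ × E3 → N} {ε : ℝ}
    {X : Type*} [TopologicalSpace X] [ChartedSpace E4 X]
    {X' : Type*} [TopologicalSpace X'] [ChartedSpace E4 X']

open Classical in
/-- the comparison map -/
noncomputable def sru_map (S : Surg κ ε X) (S' : Surg κ ε X') (q : X) : X' :=
  if h : ∃ p, Off κ p ∧ q = S.A p then S'.A (Classical.choose h)
  else
    have h2 : ∃ (i : ι) (v : S2), q = S.Q i (0, v) := (S.cover q).resolve_left h
    S'.Q (Classical.choose h2) (0, Classical.choose (Classical.choose_spec h2))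

theorem sru_map_A (S : Surg κ ε X) (S' : Surg κ ε X') {p : N} (hp : Off κ p) :
    sru_map S S' (S.A p) = S'.A p := by
  have h : ∃ p', Off κ p' ∧ S.A p = S.A p' := ⟨p, hp, rfl⟩
  unfold sru_map
  rw [dif_pos h]
  have h1 := Classical.choose_spec h
  rw [← S.A_inj p _ hp h1.1 h1.2]

theorem sru_map_Q0 (S : Surg κ ε X) (S' : Surg κ ε X') (i : ι) (v : S2) :
    sru_map S S' (S.Q i (0, v)) = S'.Q i (0, v) := by
  have h : ¬ ∃ p', Off κ p' ∧ S.Q i (0, v) = S.A p' := by
    rintro ⟨p', hp', he⟩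
    exact S.disj i v p' hp' he
  have h2 : ∃ (j : ι) (w : S2), S.Q i (0, v) = S.Q j (0, w) := ⟨i, v, rfl⟩
  unfold sru_map
  rw [dif_neg h]
  have h3 := Classical.choose_spec (Classical.choose_spec h2)
  obtain ⟨h4, h5⟩ := S.Q_inj _ _ _ _ h3
  show S'.Q (Classical.choose h2) (0, Classical.choose (Classical.choose_spec h2)) = S'.Q i (0, v)
  rw [← h5, ← h4]

theorem sru_map_Q (hT : Tubes κ ε) (S : Surg κ ε X) (S' : Surg κ ε X') (i : ι) (z : ℂ) (v : S2)
    (hz : ‖z‖ < ε) : sru_map S S' (S.Q i (z, v)) = S'.Q i (z, v) := by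
  by_cases h0 : z = 0
  · subst h0
    exact sru_map_Q0 S S' i v
  · obtain ⟨l, hl⟩ := ex_polar z
    have hr : 0 < ‖z‖ := norm_pos_iff.2 h0
    rw [hl, S.glue i l ‖z‖ v hr hz, S'.glue i l ‖z‖ v hr hz]
    exact sru_map_A S S' (sru_off hT i l ‖z‖ v hr hz)

theorem sru_map_map (S : Surg κ ε X) (S' : Surg κ ε X') (q : X) :
    sru_map S' S (sru_map S S' q) = q := by
  rcases S.cover q with ⟨p, hp, rfl⟩ | ⟨i, v, rfl⟩
  · rw [sru_map_A S S' hp, sru_map_A S' S hp]
  · rw [sru_map_Q0 S S', sru_map_Q0 S' S]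

theorem sru_map_ld [T2Space N] [Finite ι] (hT : Tubes κ ε) (S : Surg κ ε X) (S' : Surg κ ε X') (q : X) :
    IsLocalDiffeomorphAt (𝓡 4) (𝓡 4) ∞ (sru_map S S') q := by
  rcases S.cover q with ⟨p, hp, rfl⟩ | ⟨i, v, rfl⟩
  · apply Pool.Agent.CSG.ld_of_comp_left (f := S.A) _ (S.A_loc p hp)
    apply Pool.Agent.CSG.ld_congr (S'.A_loc p hp)
    filter_upwards [(sru_off_open hT).mem_nhds hp] with y hy
    exact sru_map_A S S' hy
  · have hε : (0 : ℝ) < ε := (hT.thick i).pos
    have hz : ‖(0 : ℂ)‖ < ε := by rw [norm_zero]; exact hε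
    apply Pool.Agent.CSG.ld_of_comp_left (f := S.Q i) _ (S.Q_loc i 0 v hz)
    apply Pool.Agent.CSG.ld_congr (S'.Q_loc i 0 v hz)
    have ho : IsOpen {x : ℂ × S2 | ‖x.1‖ < ε} := isOpen_lt (continuous_fst.norm) continuous_const
    filter_upwards [ho.mem_nhds (show ((0 : ℂ), v) ∈ {x : ℂ × S2 | ‖x.1‖ < ε} from hz)] with x hx
    exact sru_map_Q hT S S' i x.1 x.2 hx

end

theorem surg_uniq [T2Space N] {ι : Type} [Finite ι] {κ : ι → ℝ × E3 → N} {ε : ℝ} (hT : Tubes κ ε)
    {X : Type*} [TopologicalSpace X] [ChartedSpace E4 X] (S : Surg κ ε X)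
    {X' : Type*} [TopologicalSpace X'] [ChartedSpace E4 X'] (S' : Surg κ ε X') :
    Nonempty (X ≃ₘ⟮𝓡 4, 𝓡 4⟯ X') := by
  have hb : Function.Bijective (sru_map S S') :=
    ⟨(Function.LeftInverse.injective (sru_map_map S S')), (Function.RightInverse.surjective (sru_map_map S' S))⟩
  exact ⟨IsLocalDiffeomorph.diffeomorphOfBijective (f := sru_map S S') (fun q => sru_map_ld hT S S' q) hb⟩

theorem isSurg_uniq [T2Space N] {n : ℕ} {κ : Fin n → ℝ × E3 → N}
    {X : Type*} [TopologicalSpace X] [ChartedSpace E4 X] (h : IsSurg κ X)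
    {X' : Type*} [TopologicalSpace X'] [ChartedSpace E4 X'] (h' : IsSurg κ X') :
    Nonempty (X ≃ₘ⟮𝓡 4, 𝓡 4⟯ X') := by
  obtain ⟨ε, hT, ⟨S⟩⟩ := h
  obtain ⟨ε', hT', ⟨S'⟩⟩ := h'
  by_cases hle : ε ≤ ε'
  · exact surg_uniq hT S (S'.mono hle)
  · exact surg_uniq hT' (S.mono (not_le.1 hle).le) S'

end Pool.Agent.ACB
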