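import Pool.Agent.ACB.Bal

/-!
# ACB/StD: the double of the handlebody: definition

`N` with two thick circles such that `S⁴` is the surgery of `N` along them, the glued in thick 2-spheres being the standard ones over the points `a`, `b` of the unit disc: `S⁴ ⊆ ℂ × ℝ³`, `Q (z, v) = (a + z, √(1 - |a + z|²) v)`.
So `N` is `S⁴` surgered along two unlinked trivial 2-spheres: `N = (S¹ × S³) # (S¹ × S³)`, and the circles are the two standard generators.
-/

open scoped ContDiff Manifold Topology unitInterval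
open Set Filter

namespace Pool.Agent.ACB

universe u
variable {N : Type u} [TopologicalSpace N] [ChartedSpace E4 N]

/-- the standard thick sphere over the point `a` of the disc -/
noncomputable def stdS (a : ℝ) (z : ℂ) (v : S2) : E5 :=
  !₂[a + z.re, z.im, √(1 - ‖(a : ℂ) + z‖ ^ 2) * v.1 0, √(1 - ‖(a : ℂ) + z‖ ^ 2) * v.1 1,
    √(1 - ‖(a : ℂ) + z‖ ^ 2) * v.1 2]

/-- `N = (S¹ × S³) # (S¹ × S³)` with its two standard thick circles -/
structure Dbl (a b : ℝ) (κ₁ κ₂ : ℝ × E3 → N) (ε : ℝ) where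
  S : Surg ![κ₁, κ₂] ε S4
  tub : Tubes ![κ₁, κ₂] ε
  small : ε ≤ 1 / 4
  ha : |a| = 1 / 2
  hb : b = -a
  std₁ : ∀ (z : ℂ) (v : S2), ‖z‖ < ε → (S.Q 0 (z, v)).1 = stdS a z v
  std₂ : ∀ (z : ℂ) (v : S2), ‖z‖ < ε → (S.Q 1 (z, v)).1 = stdS b z v

end Pool.Agent.ACB
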