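import Pool.Agent.ACB.Bal
import Pool.Agent.ACB.StD
import Pool.Agent.ACB.Tbe

/-!
# ACB/StW: exchange of the two circles of the double

PROOF.  `S.A` is the same, `Q 0 = D.S.Q 1`, `Q 1 = D.S.Q 0`; all fields by `Fin` cases.
-/

open scoped ContDiff Manifold Topology unitInterval
open Set Filter

namespace Pool.Agent.ACB

universe u
variable {N : Type u} [TopologicalSpace N] [ChartedSpace E4 N]

theorem StW_off {κ₁ κ₂ : ℝ × E3 → N} (p : N) : Off ![κ₂, κ₁] p ↔ Off ![κ₁, κ₂] p := by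
  constructor
  · intro h i l
    fin_cases i
    · exact h 1 l
    · exact h 0 l
  · intro h i l
    fin_cases i
    · exact h 1 l
    · exact h 0 l

theorem Dbl.swap {a b : ℝ} {κ₁ κ₂ : ℝ × E3 → N} {ε : ℝ} (D : Dbl a b κ₁ κ₂ ε) : Nonempty (Dbl b a κ₂ κ₁ ε) := by
  have hT : Tubes ![κ₂, κ₁] ε := by
    refine ⟨?_, ?_⟩
    · intro i
      fin_cases i
      · exact D.tub.thick 1
      · exact D.tub.thick 0
    · intro i k hik l v l' v' hv hv'
      fin_cases i <;> fin_cases k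
      · exact absurd rfl hik
      · exact D.tub.disj 1 0 (by decide) l v l' v' hv hv'
      · exact D.tub.disj 0 1 (by decide) l v l' v' hv hv'
      · exact absurd rfl hik
  refine ⟨⟨⟨D.S.A, ![D.S.Q 1, D.S.Q 0], ?_, ?_, ?_, ?_, ?_, ?_, ?_⟩, hT, D.small, ?_, ?_, ?_, ?_⟩⟩
  · intro p hp
    exact D.S.A_loc p ((StW_off p).mp hp)
  · intro p p' hp hp' he
    exact D.S.A_inj p p' ((StW_off p).mp hp) ((StW_off p').mp hp') he
  · intro i z v hz
    fin_cases i
    · exact D.S.Q_loc 1 z v hz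
    · exact D.S.Q_loc 0 z v hz
  · intro i l r v h0 h1
    fin_cases i
    · exact D.S.glue 1 l r v h0 h1
    · exact D.S.glue 0 l r v h0 h1
  · intro i k v v' he
    fin_cases i <;> fin_cases k
    · exact ⟨rfl, (D.S.Q_inj 1 1 v v' he).2⟩
    · have := (D.S.Q_inj 1 0 v v' he).1
      exact absurd this (by decide)
    · have := (D.S.Q_inj 0 1 v v' he).1
      exact absurd this (by decide)
    · exact ⟨rfl, (D.S.Q_inj 0 0 v v' he).2⟩
  · intro i v p hp
    fin_cases i
    · exact D.S.disj 1 v p ((StW_off p).mp hp)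
    · exact D.S.disj 0 v p ((StW_off p).mp hp)
  · intro q
    rcases D.S.cover q with ⟨p, hp, he⟩ | ⟨i, v, he⟩
    · exact Or.inl ⟨p, (StW_off p).mpr hp, he⟩
    · refine Or.inr ?_
      fin_cases i
      · exact ⟨1, v, he⟩
      · exact ⟨0, v, he⟩
  · rw [D.hb, abs_neg, D.ha]
  · rw [D.hb, neg_neg]
  · intro z v hz
    exact D.std₂ z v hz
  · intro z v hz
    exact D.std₁ z v hz

end Pool.Agent.ACB
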