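import Pool.Agent.ACB.Bal
import Pool.Agent.ACB.StD
import Pool.Agent.ACB.Tbe
import Pool.Agent.ACB.FrH

/-!
# ACB/TwD: neck twists of the double

Coordinates of `x ∈ S⁴`: `u = x 0 + i x 1`, `w = (x 2, x 3, x 4)`, `|u|² + |w|² = 1`.

PROOF.  For `u ≠ a` let `l (u) = arg (u - a) / 2π`, so `u = a + |u - a| ex (l (u))`.  `T x = (u, L (l (u)) w)` for `u ≠ a`, `T x = x` for `u = a`; `T` maps `S⁴` to `S⁴`, keeps `u`, and is a bijection (inverse: the same formula with the inverse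
isometries).  `T` is smooth at the points with `u ≠ a` (`L` is `1`-periodic: use a local branch of the argument, or `L ∘ l` is smooth as in `ACB/PlT`: `l (u) = l₀ + arg ((u - a) / (u₀ - a)) / 2π + integer`).
The points `S.A p`, `p` off the circles, are exactly the `x` with `u ≠ a`, `u ≠ b`: (`cover`, `disj`) the others are `S.Q 0 (0, v) = (a, √(3/4) v)` and `S.Q 1 (0, v)`, and every `x ∈ S⁴` with `u = a` has this form.
Define `F : N → N`: for `p` off the circles `S.A (F p) = T (S.A p)` (possible: `T` keeps `u`); `F p = p` on the circles.  `F` is a bijection (the inverse is defined in the same way by `T⁻¹`).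
(a) `F (κ₁ (l, v)) = κ₁ (l, L l v)` for `‖v‖ < ε`: for `v = r w`, `0 < r`, `‖w‖ = 1`: `S.A (κ₁ (l, r w)) = S.Q 0 (r ex l, w) = stdS a (r ex l) w`, `T` of it is `stdS a (r ex l) (L l w) = S.Q 0 (r ex l, L l w) = S.A (κ₁ (l, r L l w))`
(`ex (l (u)) = ex l`, so `l (u) - l ∈ ℤ` (`ex_inj`) and `L (l (u)) = L l`).
(b) there is `0 < δ ≤ ε` with `F (κ₂ (l, v)) = κ₂ (l, v)` for `‖v‖ < δ`: here `u = b + r ex l`, `u - a = (b - a) + r ex l`, and `(b - a) = |b - a| ex θ`; for small `r` the argument of `u - a` is near `2π θ` modulo `2π`, so `L (l (u)) = id`.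
Smoothness of `F` (and of the inverse): off the circles `F = (S.A)⁻¹ ∘ T ∘ S.A` locally; near the core of `κ₁` by (a): `F = κ₁ ∘ (l, L l v) ∘ κ₁⁻¹` locally; near the core of `κ₂` `F = id` by (b).
-/

open scoped ContDiff Manifold Topology unitInterval
open Set Filter

namespace Pool.Agent.ACB

/-! ### local diffeomorphisms -/

section
variable {𝕜 : Type*} [NontriviallyNormedField 𝕜]
  {E : Type*} [NormedAddCommGroup E] [NormedSpace 𝕜 E]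
  {F : Type*} [NormedAddCommGroup F] [NormedSpace 𝕜 F]
  {F' : Type*} [NormedAddCommGroup F'] [NormedSpace 𝕜 F']
  {H₁ : Type*} [TopologicalSpace H₁] {H₂ : Type*} [TopologicalSpace H₂]
  {H₃ : Type*} [TopologicalSpace H₃]
  {I₁ : ModelWithCorners 𝕜 E H₁} {J : ModelWithCorners 𝕜 F H₂} {K : ModelWithCorners 𝕜 F' H₃}
  {M : Type*} [TopologicalSpace M] [ChartedSpace H₁ M]
  {N : Type*} [TopologicalSpace N] [ChartedSpace H₂ N]
  {P : Type*} [TopologicalSpace P] [ChartedSpace H₃ P] {n : WithTop ℕ∞}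

def TwD_restr (Φ : PartialDiffeomorph I₁ J M N n) (U : Set M) (hU : IsOpen U) :
    PartialDiffeomorph I₁ J M N n where
  toPartialEquiv := (Φ.toOpenPartialHomeomorph.restrOpen U hU).toPartialEquiv
  open_source := (Φ.toOpenPartialHomeomorph.restrOpen U hU).open_source
  open_target := (Φ.toOpenPartialHomeomorph.restrOpen U hU).open_target
  contMDiffOn_toFun := Φ.contMDiffOn_toFun.mono inter_subset_left
  contMDiffOn_invFun := Φ.contMDiffOn_invFun.mono inter_subset_left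

theorem TwD_ld_congr {f g : M → N} {x : M} (hf : IsLocalDiffeomorphAt I₁ J n f x)
    (h : g =ᶠ[𝓝 x] f) : IsLocalDiffeomorphAt I₁ J n g x := by
  obtain ⟨Φ, hx, heq⟩ := hf
  obtain ⟨U, hUsub, hU, hxU⟩ := mem_nhds_iff.1 h
  refine ⟨TwD_restr Φ U hU, ⟨hx, hxU⟩, ?_⟩
  rintro y ⟨hy1, hy2⟩
  have h1 : g y = f y := hUsub hy2
  rw [h1]
  exact heq hy1

theorem TwD_ld_id (x : M) : IsLocalDiffeomorphAt I₁ I₁ n (id : M → M) x :=
  (Diffeomorph.refl I₁ M n).isLocalDiffeomorph x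

/-- `g ∘ f` and `f` local diffeomorphisms at `x` imply `g` local diffeomorphism at `f x`. -/
theorem TwD_ld_left {f : M → N} {g : N → P} {x : M}
    (hgf : IsLocalDiffeomorphAt I₁ K n (g ∘ f) x) (hf : IsLocalDiffeomorphAt I₁ J n f x) :
    IsLocalDiffeomorphAt J K n g (f x) := by
  have h1 := hf.localInverse_isLocalDiffeomorphAt
  have h2 : hf.localInverse (f x) = x := hf.localInverse_left_inv hf.localInverse_mem_target
  have h3 : IsLocalDiffeomorphAt J K n ((g ∘ f) ∘ hf.localInverse) (f x) := by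
    refine IsLocalDiffeomorphAt.comp (hf := h1) (hg := ?_) ..
    rw [h2]
    exact hgf
  refine TwD_ld_congr h3 ?_
  filter_upwards [hf.localInverse_eventuallyEq_right] with y hy
  have hy' : f (hf.localInverse y) = y := hy
  show g y = g (f (hf.localInverse y))
  rw [hy']

end

universe u
variable {N : Type u} [TopologicalSpace N] [ChartedSpace E4 N]

/-! ### the linear families -/

structure TwD_R (L : ℝ → E3 →L[ℝ] E3) (θ : ℝ) : Prop where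
  sm : ContDiff ℝ ∞ L
  per : ∀ l, L (l + 1) = L l
  nm : ∀ l v, ‖L l v‖ = ‖v‖
  idt : ∀ l, |l - θ| < 1 / 8 → L l = ContinuousLinearMap.id ℝ E3

theorem TwD_R.perz {L : ℝ → E3 →L[ℝ] E3} {θ : ℝ} (h : TwD_R L θ) (l : ℝ) (m : ℤ) : L (l + m) = L l := by
  have h1 : ∀ n : ℕ, ∀ l, L (l + n) = L l := by
    intro n
    induction n with
    | zero => intro l; simp
    | succ n ih => intro l; rw [Nat.cast_succ, ← add_assoc, h.per, ih]
  obtain ⟨n, rfl | rfl⟩ := m.eq_nat_or_neg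
  · simpa using h1 n l
  · have := h1 n (l + ((-(n : ℤ) : ℤ) : ℝ))
    rw [← this]
    congr 1
    push_cast
    ring

theorem TwD_inv_ex {L : ℝ → E3 →L[ℝ] E3} {θ : ℝ} (h : TwD_R L θ) :
    ∃ L' : ℝ → E3 →L[ℝ] E3, TwD_R L' θ ∧ (∀ l v, L' l (L l v) = v) ∧ ∀ l v, L l (L' l v) = v := by
  have key : ∀ l, ∃ e : E3 ≃L[ℝ] E3, (e : E3 →L[ℝ] E3) = L l := by
    intro l
    let li : E3 →ₗᵢ[ℝ] E3 := ⟨(L l : E3 →ₗ[ℝ] E3), h.nm l⟩
    refine ⟨(li.toLinearIsometryEquiv rfl).toContinuousLinearEquiv, ?_⟩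
    ext v : 1
    rfl
  choose e he using key
  have hinv : ∀ l, ContinuousLinearMap.inverse (L l) = ((e l).symm : E3 →L[ℝ] E3) := by
    intro l
    rw [← he l, ContinuousLinearMap.inverse_equiv]
  have h1 : ∀ l v, ContinuousLinearMap.inverse (L l) (L l v) = v := by
    intro l v
    rw [hinv l, ← he l]
    exact (e l).symm_apply_apply v
  have h2 : ∀ l v, L l (ContinuousLinearMap.inverse (L l) v) = v := by
    intro l v
    rw [hinv l, ← he l]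
    exact (e l).apply_symm_apply v
  refine ⟨fun l => ContinuousLinearMap.inverse (L l), ⟨?_, ?_, ?_, ?_⟩, h1, h2⟩
  · rw [contDiff_iff_contDiffAt]
    intro l
    have h3 : ContDiffAt ℝ ∞ ContinuousLinearMap.inverse (L l) := by
      rw [← he l]
      exact contDiffAt_map_inverse (e l)
    exact h3.comp l h.sm.contDiffAt
  · intro l
    show ContinuousLinearMap.inverse (L (l + 1)) = _
    rw [h.per]
  · intro l v
    rw [← h.nm l, h2]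
  · intro l hl
    show ContinuousLinearMap.inverse (L l) = _
    rw [h.idt l hl, ContinuousLinearMap.inverse_id]

/-- the angle -/
noncomputable def TwD_an (z : ℂ) : ℝ := Complex.arg z / (2 * Real.pi)

theorem TwD_an_spec (z : ℂ) : z = ‖z‖ * ex (TwD_an z) := by
  conv_lhs => rw [← Complex.norm_mul_exp_arg_mul_I z]
  congr 2
  congr 1
  unfold TwD_an
  have := Real.pi_pos.ne'
  push_cast
  field_simp

theorem TwD_ex_add (x y : ℝ) : ex (x + y) = ex x * ex y := by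
  unfold ex
  rw [← Complex.exp_add]
  congr 1
  push_cast
  ring

theorem TwD_ex_norm (x : ℝ) : ‖ex x‖ = 1 := by
  unfold ex
  exact Complex.norm_exp_ofReal_mul_I _

theorem TwD_ex_ne (x : ℝ) : ex x ≠ 0 := by
  intro h
  have := TwD_ex_norm x
  rw [h, norm_zero] at this
  exact zero_ne_one this

/-- polar coordinates determine the angle -/
theorem TwD_an_eq {r l : ℝ} (hr : 0 < r) : ∃ m : ℤ, l = TwD_an (r * ex l) + m := by
  have h1 := TwD_an_spec (r * ex l)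
  have h2 : ‖(r : ℂ) * ex l‖ = r := by
    rw [norm_mul, TwD_ex_norm, mul_one, Complex.norm_real, Real.norm_of_nonneg hr.le]
  rw [h2] at h1
  have h3 : ex (TwD_an (r * ex l)) = ex l := by
    have : (r : ℂ) ≠ 0 := by exact_mod_cast hr.ne'
    exact (mul_left_cancel₀ this h1).symm
  exact ex_inj h3

theorem TwD_L_polar {L : ℝ → E3 →L[ℝ] E3} {θ : ℝ} (h : TwD_R L θ) {r l : ℝ} (hr : 0 < r) :
    L (TwD_an (r * ex l)) = L l := by
  obtain ⟨m, hm⟩ := TwD_an_eq (l := l) hr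
  conv_rhs => rw [hm]
  rw [h.perz]

theorem TwD_L_mul {L : ℝ → E3 →L[ℝ] E3} {θ : ℝ} (h : TwD_R L θ) (z₀ : ℂ) {z : ℂ} (hz : z ≠ 0) (hz₀ : z₀ ≠ 0) :
    L (TwD_an (z₀ * z)) = L (TwD_an z₀ + TwD_an z) := by
  have h1 : z₀ * z = ((‖z₀‖ * ‖z‖ : ℝ) : ℂ) * ex (TwD_an z₀ + TwD_an z) := by
    rw [TwD_ex_add]
    conv_lhs => rw [TwD_an_spec z₀, TwD_an_spec z]
    push_cast
    ring
  rw [h1]
  exact TwD_L_polar h (mul_pos (norm_pos_iff.2 hz₀) (norm_pos_iff.2 hz))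

theorem TwD_an_smooth {z : ℂ} (hz : z ∈ Complex.slitPlane) : ContDiffAt ℝ ∞ TwD_an z := by
  have h1 : ContDiffAt ℝ ∞ Complex.log z := (Complex.contDiffAt_log hz).restrict_scalars ℝ
  have h2 : ContDiffAt ℝ ∞ (fun z => (Complex.log z).im) z := Complex.imCLM.contDiff.contDiffAt.comp z h1
  have h3 : TwD_an = fun z => (Complex.log z).im / (2 * Real.pi) := by
    funext z
    rw [Complex.log_im]
    rfl
  rw [h3]
  exact h2.div_const _

theorem TwD_L_smooth {L : ℝ → E3 →L[ℝ] E3} {θ : ℝ} (h : TwD_R L θ) {z₀ : ℂ} (hz₀ : z₀ ≠ 0) :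
    ContDiffAt ℝ ∞ (fun z => L (TwD_an z)) z₀ := by
  have h1 : ContDiffAt ℝ ∞ (fun z : ℂ => L (TwD_an z₀ + TwD_an (z / z₀))) z₀ := by
    have e1 : ContDiffAt ℝ ∞ (fun z : ℂ => z / z₀) z₀ := by
      have : ContDiff ℂ ∞ (fun z : ℂ => z / z₀) := contDiff_id.div_const _
      exact (this.restrict_scalars ℝ).contDiffAt
    have e2 : ContDiffAt ℝ ∞ TwD_an (z₀ / z₀) := by
      rw [div_self hz₀]
      exact TwD_an_smooth Complex.one_mem_slitPlane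
    have e3 : ContDiffAt ℝ ∞ (fun z : ℂ => TwD_an (z / z₀)) z₀ :=
      ContDiffAt.comp (f := fun z : ℂ => z / z₀) z₀ e2 e1
    have e4 : ContDiffAt ℝ ∞ (fun z : ℂ => TwD_an z₀ + TwD_an (z / z₀)) z₀ := contDiffAt_const.add e3
    exact h.sm.contDiffAt.comp z₀ e4
  refine h1.congr_of_eventuallyEq ?_
  filter_upwards [isOpen_ne.mem_nhds hz₀] with z hz
  have hz' : z ≠ 0 := hz
  have h2 : z₀ * (z / z₀) = z := by field_simp
  have h3 := TwD_L_mul h z₀ (z := z / z₀) (div_ne_zero hz' hz₀) hz₀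
  rw [h2] at h3
  exact h3

/-! ### coordinates of the sphere -/

noncomputable def TwD_u (x : E5) : ℂ := ⟨x 0, x 1⟩
noncomputable def TwD_w (x : E5) : E3 := !₂[x 2, x 3, x 4]
noncomputable def TwD_m (u : ℂ) (w : E3) : E5 := !₂[u.re, u.im, w 0, w 1, w 2]

theorem TwD_u_m (u : ℂ) (w : E3) : TwD_u (TwD_m u w) = u := rfl

theorem TwD_w_m (u : ℂ) (w : E3) : TwD_w (TwD_m u w) = w := by
  ext i
  fin_cases i <;> rfl

theorem TwD_m_uw (x : E5) : TwD_m (TwD_u x) (TwD_w x) = x := by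
  ext i
  fin_cases i <;> rfl

theorem TwD_norm (x : E5) : ‖x‖ ^ 2 = ‖TwD_u x‖ ^ 2 + ‖TwD_w x‖ ^ 2 := by
  rw [EuclideanSpace.norm_sq_eq, EuclideanSpace.norm_sq_eq, ← Complex.normSq_eq_norm_sq, Complex.normSq_apply,
    Fin.sum_univ_five, Fin.sum_univ_three]
  simp only [Real.norm_eq_abs, sq_abs]
  simp only [TwD_u, TwD_w]
  simp
  ring

theorem TwD_norm_m (u : ℂ) (w : E3) : ‖TwD_m u w‖ ^ 2 = ‖u‖ ^ 2 + ‖w‖ ^ 2 := by
  rw [TwD_norm, TwD_u_m, TwD_w_m]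

theorem TwD_m_smooth {X : Type*} [NormedAddCommGroup X] [NormedSpace ℝ X] {f : X → ℂ} {g : X → E3} {x : X}
    (hf : ContDiffAt ℝ ∞ f x) (hg : ContDiffAt ℝ ∞ g x) : ContDiffAt ℝ ∞ (fun x => TwD_m (f x) (g x)) x := by
  rw [contDiffAt_euclidean]
  have hg' := contDiffAt_euclidean.1 hg
  intro i
  fin_cases i
  · exact Complex.reCLM.contDiff.contDiffAt.comp x hf
  · exact Complex.imCLM.contDiff.contDiffAt.comp x hf
  · exact hg' 0
  · exact hg' 1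
  · exact hg' 2

theorem TwD_w_smooth : ContDiff ℝ ∞ TwD_w := by
  rw [contDiff_euclidean]
  have h := contDiff_euclidean.1 (contDiff_id (𝕜 := ℝ) (E := E5) (n := ∞))
  intro i
  fin_cases i
  · exact h 2
  · exact h 3
  · exact h 4

theorem TwD_u_smooth : ContDiff ℝ ∞ TwD_u := by
  have h := contDiff_euclidean.1 (contDiff_id (𝕜 := ℝ) (E := E5) (n := ∞))
  have h1 : TwD_u = fun x => ((x 0 : ℝ) : ℂ) + ((x 1 : ℝ) : ℂ) * Complex.I := by
    funext x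
    apply Complex.ext <;> simp [TwD_u]
  rw [h1]
  have e0 : ContDiff ℝ ∞ fun x : E5 => ((x 0 : ℝ) : ℂ) := Complex.ofRealCLM.contDiff.comp (h 0)
  have e1 : ContDiff ℝ ∞ fun x : E5 => ((x 1 : ℝ) : ℂ) := Complex.ofRealCLM.contDiff.comp (h 1)
  exact e0.add (e1.mul contDiff_const)

/-- projection to the sphere -/
noncomputable def TwD_sph (v : E5) : S4 := open Classical in
  if h : v = 0 then ⟨EuclideanSpace.single 0 1, by simp⟩ else
    ⟨‖v‖⁻¹ • v, by rw [mem_sphere_zero_iff_norm, norm_smul, norm_inv, norm_norm, inv_mul_cancel₀ (norm_ne_zero_iff.2 h)]⟩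

theorem TwD_sph_coe {v : E5} (hv : v ≠ 0) : (TwD_sph v : E5) = ‖v‖⁻¹ • v := by
  unfold TwD_sph
  rw [dif_neg hv]

theorem TwD_sph_smooth {v : E5} (hv : v ≠ 0) : ContMDiffAt 𝓘(ℝ, E5) (𝓡 4) ∞ TwD_sph v := by
  have : Fact (Module.finrank ℝ E5 = 4 + 1) := ⟨by simp⟩
  have hv' : 0 < ‖v‖ := norm_pos_iff.2 hv
  let f : ContDiffBump v := ⟨‖v‖ / 4, ‖v‖ / 2, by linarith, by linarith⟩
  set g : E5 → E5 := fun x => v + f x • (x - v) with hg
  have hgs : ContDiff ℝ ∞ g := contDiff_const.add (f.contDiff.smul (contDiff_id.sub contDiff_const))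
  have hg0 : ∀ x, g x ≠ 0 := by
    intro x hx
    have h1 : f x • (x - v) = -v := by
      have : v + f x • (x - v) = 0 := hx
      exact eq_neg_of_add_eq_zero_right this
    have h2 : |f x| * ‖x - v‖ = ‖v‖ := by
      rw [← Real.norm_eq_abs, ← norm_smul, h1, norm_neg]
    by_cases hd : dist x v < ‖v‖ / 2
    · have h3 : |f x| ≤ 1 := by
        rw [abs_of_nonneg f.nonneg]
        exact f.le_one
      rw [dist_eq_norm] at hd
      have h4 : |f x| * ‖x - v‖ ≤ 1 * ‖x - v‖ := mul_le_mul_of_nonneg_right h3 (norm_nonneg _)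
      linarith
    · have h3 : f x = 0 := f.zero_of_le_dist (not_lt.1 hd)
      rw [h3, abs_zero, zero_mul] at h2
      linarith
  have hF : ContDiff ℝ ∞ fun x => ‖g x‖⁻¹ • g x := by
    have h3 : ContDiff ℝ ∞ fun x => ‖g x‖ := hgs.norm ℝ hg0
    exact (h3.inv fun x => norm_ne_zero_iff.2 (hg0 x)).smul hgs
  have hm : ∀ x, (fun x => ‖g x‖⁻¹ • g x) x ∈ Metric.sphere (0 : E5) 1 := by
    intro x
    rw [mem_sphere_zero_iff_norm]
    change ‖‖g x‖⁻¹ • g x‖ = 1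
    rw [norm_smul, norm_inv, norm_norm, inv_mul_cancel₀ (norm_ne_zero_iff.2 (hg0 x))]
  have h1 := ContMDiff.codRestrict_sphere (n := 4) hF.contMDiff hm
  refine (h1 v).congr_of_eventuallyEq ?_
  have hball : Metric.ball v (‖v‖ / 4) ∈ 𝓝 v := Metric.ball_mem_nhds v (by linarith)
  filter_upwards [hball] with x hx
  have hfx : f x = 1 := f.one_of_mem_closedBall (Metric.ball_subset_closedBall hx)
  have hgx : g x = x := by
    rw [hg]
    change v + f x • (x - v) = x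
    rw [hfx, one_smul, add_sub_cancel]
  have hx0 : x ≠ 0 := by
    rw [← hgx]
    exact hg0 x
  apply Subtype.ext
  rw [TwD_sph_coe hx0]
  change _ = ‖g x‖⁻¹ • g x
  rw [hgx]

/-! ### the twist of the sphere -/

/-- the twist of `ℂ × ℝ³` -/
noncomputable def TwD_G (a : ℝ) (L : ℝ → E3 →L[ℝ] E3) (x : E5) : E5 :=
  TwD_m (TwD_u x) (L (TwD_an (TwD_u x - a)) (TwD_w x))

theorem TwD_G_norm {a θ : ℝ} {L : ℝ → E3 →L[ℝ] E3} (h : TwD_R L θ) (x : E5) : ‖TwD_G a L x‖ = ‖x‖ := by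
  have h1 : ‖TwD_G a L x‖ ^ 2 = ‖x‖ ^ 2 := by
    unfold TwD_G
    rw [TwD_norm_m, TwD_norm x, h.nm]
  exact (sq_eq_sq₀ (norm_nonneg _) (norm_nonneg _)).1 h1

noncomputable def TwD_T (a : ℝ) (L : ℝ → E3 →L[ℝ] E3) (x : S4) : S4 := TwD_sph (TwD_G a L x.1)

theorem TwD_T_coe {a θ : ℝ} {L : ℝ → E3 →L[ℝ] E3} (h : TwD_R L θ) (x : S4) :
    (TwD_T a L x).1 = TwD_G a L x.1 := by
  have hx : ‖(x : E5)‖ = 1 := norm_eq_of_mem_sphere x
  have h1 : ‖TwD_G a L x.1‖ = 1 := by rw [TwD_G_norm h, hx]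
  have h2 : TwD_G a L x.1 ≠ 0 := by
    intro h3
    rw [h3, norm_zero] at h1
    exact zero_ne_one h1
  unfold TwD_T
  rw [TwD_sph_coe h2, h1, inv_one, one_smul]

theorem TwD_T_u {a θ : ℝ} {L : ℝ → E3 →L[ℝ] E3} (h : TwD_R L θ) (x : S4) :
    TwD_u (TwD_T a L x).1 = TwD_u x.1 := by
  rw [TwD_T_coe h]
  exact TwD_u_m _ _

theorem TwD_T_T {a θ : ℝ} {L L' : ℝ → E3 →L[ℝ] E3} (h : TwD_R L θ) (h' : TwD_R L' θ)
    (hi : ∀ l v, L' l (L l v) = v) (x : S4) : TwD_T a L' (TwD_T a L x) = x := by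
  apply Subtype.ext
  rw [TwD_T_coe h', TwD_T_coe h]
  unfold TwD_G
  rw [TwD_u_m, TwD_w_m, hi, TwD_m_uw]

theorem TwD_T_smooth {a θ : ℝ} {L : ℝ → E3 →L[ℝ] E3} (h : TwD_R L θ) {x : S4} (hx : TwD_u x.1 ≠ a) :
    ContMDiffAt (𝓡 4) (𝓡 4) ∞ (TwD_T a L) x := by
  have : Fact (Module.finrank ℝ E5 = 4 + 1) := ⟨by simp⟩
  have h1 : ContDiffAt ℝ ∞ (TwD_G a L) x.1 := by
    unfold TwD_G
    refine TwD_m_smooth TwD_u_smooth.contDiffAt ?_
    have e1 : ContDiffAt ℝ ∞ (fun y : E5 => TwD_u y - a) x.1 := TwD_u_smooth.contDiffAt.sub contDiffAt_const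
    have e2 : ContDiffAt ℝ ∞ (fun y : E5 => L (TwD_an (TwD_u y - a))) x.1 :=
      ContDiffAt.comp (x.1 : E5) (g := fun z : ℂ => L (TwD_an z)) (TwD_L_smooth h (sub_ne_zero.2 hx)) e1
    exact e2.clm_apply TwD_w_smooth.contDiffAt
  have h2 : TwD_G a L x.1 ≠ 0 := by
    intro h3
    have h1 : ‖TwD_G a L x.1‖ = 1 := by rw [TwD_G_norm h, norm_eq_of_mem_sphere x]
    rw [h3, norm_zero] at h1
    exact zero_ne_one h1
  have h3 : ContMDiffAt (𝓡 4) 𝓘(ℝ, E5) ∞ (fun x : S4 => TwD_G a L x.1) x :=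
    ContMDiffAt.comp (f := fun x : S4 => x.1) (g := TwD_G a L) x h1.contMDiffAt (contMDiff_coe_sphere x)
  exact ContMDiffAt.comp x (TwD_sph_smooth h2) h3

theorem TwD_u_cont : Continuous fun x : S4 => TwD_u x.1 := TwD_u_smooth.continuous.comp continuous_subtype_val

theorem TwD_T_ld {a θ : ℝ} {L L' : ℝ → E3 →L[ℝ] E3} (h : TwD_R L θ) (h' : TwD_R L' θ)
    (hi : ∀ l v, L' l (L l v) = v) (hi' : ∀ l v, L l (L' l v) = v) {x : S4} (hx : TwD_u x.1 ≠ a) :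
    IsLocalDiffeomorphAt (𝓡 4) (𝓡 4) ∞ (TwD_T a L) x := by
  refine ⟨⟨⟨TwD_T a L, TwD_T a L', {x | TwD_u x.1 ≠ a}, {x | TwD_u x.1 ≠ a}, fun y hy => ?_, fun y hy => ?_,
    fun y _ => TwD_T_T h h' hi y, fun y _ => TwD_T_T h' h hi' y⟩, ?_, ?_, ?_, ?_⟩, hx, fun _ _ => rfl⟩
  · show TwD_u (TwD_T a L y).1 ≠ a
    rw [TwD_T_u h]
    exact hy
  · show TwD_u (TwD_T a L' y).1 ≠ a
    rw [TwD_T_u h']
    exact hy
  · exact isOpen_ne.preimage TwD_u_cont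
  · exact isOpen_ne.preimage TwD_u_cont
  · exact fun y hy => (TwD_T_smooth h hy).contMDiffWithinAt
  · exact fun y hy => (TwD_T_smooth h' hy).contMDiffWithinAt

/-! ### the points off the circles -/

section
variable {a b : ℝ} {κ₁ κ₂ : ℝ × E3 → N} {ε : ℝ}

theorem TwD_u_std (c : ℝ) (z : ℂ) (v : S2) : TwD_u (stdS c z v) = c + z := by
  apply Complex.ext
  · simp [TwD_u, stdS]
  · simp [TwD_u, stdS]

theorem TwD_std (c : ℝ) (z : ℂ) (v : S2) :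
    stdS c z v = TwD_m (c + z) (√(1 - ‖(c : ℂ) + z‖ ^ 2) • v.1) := by
  ext i
  fin_cases i
  · simp [TwD_m, stdS]
  · simp [TwD_m, stdS]
  · simp [TwD_m, stdS]
  · simp [TwD_m, stdS]
  · simp [TwD_m, stdS]

theorem TwD_ab (D : Dbl a b κ₁ κ₂ ε) : |b - a| = 1 ∧ |b| = 1 / 2 := by
  have h1 := D.ha
  have h2 := D.hb
  subst h2
  constructor
  · rw [show -a - a = -(2 * a) by ring, abs_neg, abs_mul, h1]
    norm_num
  · rw [abs_neg, h1]

theorem TwD_fib (c : ℝ) (hc : |c| = 1 / 2) (x : S4) (hx : TwD_u x.1 = c) : ∃ v : S2, x.1 = stdS c 0 v := by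
  have h1 : ‖(x : E5)‖ = 1 := norm_eq_of_mem_sphere x
  have h2 := TwD_norm x.1
  rw [h1, hx, Complex.norm_real, Real.norm_eq_abs, hc] at h2
  have h3 : ‖TwD_w x.1‖ ^ 2 = 3 / 4 := by linarith
  have h4 : ‖TwD_w x.1‖ = √(3 / 4) := by
    rw [← h3, Real.sqrt_sq (norm_nonneg _)]
  have h5 : √(3 / 4 : ℝ) ≠ 0 := by
    have : (0 : ℝ) < √(3 / 4) := Real.sqrt_pos.2 (by norm_num)
    exact this.ne'
  refine ⟨⟨(√(3 / 4 : ℝ))⁻¹ • TwD_w x.1, ?_⟩, ?_⟩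
  · rw [mem_sphere_zero_iff_norm, norm_smul, norm_inv, h4, Real.norm_of_nonneg (Real.sqrt_nonneg _),
      inv_mul_cancel₀ h5]
  · rw [TwD_std]
    have h6 : 1 - ‖(c : ℂ) + 0‖ ^ 2 = 3 / 4 := by
      rw [add_zero, Complex.norm_real, Real.norm_eq_abs, hc]
      norm_num
    rw [h6, smul_smul, mul_inv_cancel₀ h5, one_smul, add_zero, ← hx, TwD_m_uw]

theorem TwD_A_ne (D : Dbl a b κ₁ κ₂ ε) {p : N} (hp : Off ![κ₁, κ₂] p) :
    TwD_u (D.S.A p).1 ≠ a ∧ TwD_u (D.S.A p).1 ≠ b := by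
  have hε := D.tub.thick 0 |>.pos
  constructor
  · intro h
    obtain ⟨v, hv⟩ := TwD_fib a D.ha _ h
    refine D.S.disj 0 v p hp (Subtype.ext ?_)
    rw [D.std₁ 0 v (by simpa using hε), hv]
  · intro h
    obtain ⟨v, hv⟩ := TwD_fib b (TwD_ab D).2 _ h
    refine D.S.disj 1 v p hp (Subtype.ext ?_)
    rw [D.std₂ 0 v (by simpa using hε), hv]

theorem TwD_A_ex (D : Dbl a b κ₁ κ₂ ε) {q : S4} (h1 : TwD_u q.1 ≠ a) (h2 : TwD_u q.1 ≠ b) :
    ∃ p, Off ![κ₁, κ₂] p ∧ D.S.A p = q := by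
  have hε := D.tub.thick 0 |>.pos
  rcases D.S.cover q with ⟨p, hp, rfl⟩ | ⟨i, v, rfl⟩
  · exact ⟨p, hp, rfl⟩
  · exfalso
    fin_cases i
    · apply h1
      have := D.std₁ 0 v (by simpa using hε)
      show TwD_u (D.S.Q 0 (0, v)).1 = a
      rw [this, TwD_u_std, add_zero]
    · apply h2
      have := D.std₂ 0 v (by simpa using hε)
      show TwD_u (D.S.Q 1 (0, v)).1 = b
      rw [this, TwD_u_std, add_zero]

theorem TwD_off_open [T2Space N] (D : Dbl a b κ₁ κ₂ ε) : IsOpen {p : N | Off ![κ₁, κ₂] p} := by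
  have h : {p : N | Off ![κ₁, κ₂] p} = (range (core κ₁))ᶜ ∩ (range (core κ₂))ᶜ := by
    ext p
    constructor
    · intro hp
      refine ⟨?_, ?_⟩
      · rintro ⟨l, rfl⟩
        exact hp 0 l rfl
      · rintro ⟨l, rfl⟩
        exact hp 1 l rfl
    · rintro ⟨h1, h2⟩ i l hl
      fin_cases i
      · exact h1 ⟨l, hl.symm⟩
      · exact h2 ⟨l, hl.symm⟩
  rw [h]
  have c1 : IsCompact (range (core κ₁)) := core_compact (D.tub.thick 0)
  have c2 : IsCompact (range (core κ₂)) := core_compact (D.tub.thick 1)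
  exact c1.isClosed.isOpen_compl.inter c2.isClosed.isOpen_compl

/-- inverse of `S.A` -/
noncomputable def TwD_B (D : Dbl a b κ₁ κ₂ ε) (q : S4) : N := open Classical in
  if h : ∃ p, Off ![κ₁, κ₂] p ∧ D.S.A p = q then h.choose else κ₁ (0, 0)

theorem TwD_B_A (D : Dbl a b κ₁ κ₂ ε) {p : N} (hp : Off ![κ₁, κ₂] p) : TwD_B D (D.S.A p) = p := by
  have h : ∃ p', Off ![κ₁, κ₂] p' ∧ D.S.A p' = D.S.A p := ⟨p, hp, rfl⟩
  unfold TwD_B
  rw [dif_pos h]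
  exact D.S.A_inj _ _ h.choose_spec.1 hp h.choose_spec.2

theorem TwD_B_ld [T2Space N] (D : Dbl a b κ₁ κ₂ ε) {p : N} (hp : Off ![κ₁, κ₂] p) :
    IsLocalDiffeomorphAt (𝓡 4) (𝓡 4) ∞ (TwD_B D) (D.S.A p) := by
  refine TwD_ld_left (f := D.S.A) ?_ (D.S.A_loc p hp)
  refine TwD_ld_congr (TwD_ld_id p) ?_
  filter_upwards [(TwD_off_open D).mem_nhds hp] with p' hp'
  exact TwD_B_A D hp'

/-- the twist of `N` -/
noncomputable def TwD_F (D : Dbl a b κ₁ κ₂ ε) (L : ℝ → E3 →L[ℝ] E3) (p : N) : N := open Classical in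
  if Off ![κ₁, κ₂] p then TwD_B D (TwD_T a L (D.S.A p)) else p

theorem TwD_F_off {θ : ℝ} (D : Dbl a b κ₁ κ₂ ε) {L : ℝ → E3 →L[ℝ] E3} (h : TwD_R L θ) {p : N}
    (hp : Off ![κ₁, κ₂] p) :
    Off ![κ₁, κ₂] (TwD_F D L p) ∧ D.S.A (TwD_F D L p) = TwD_T a L (D.S.A p) := by
  have h1 := TwD_A_ne D hp
  obtain ⟨p', hp', he⟩ := TwD_A_ex D (q := TwD_T a L (D.S.A p)) (by rw [TwD_T_u h]; exact h1.1)
    (by rw [TwD_T_u h]; exact h1.2)
  have h2 : TwD_F D L p = p' := by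
    unfold TwD_F
    rw [if_pos hp, ← he, TwD_B_A D hp']
  rw [h2]
  exact ⟨hp', he⟩

theorem TwD_F_on (D : Dbl a b κ₁ κ₂ ε) {L : ℝ → E3 →L[ℝ] E3} {p : N}
    (hp : ¬ Off ![κ₁, κ₂] p) : TwD_F D L p = p := by
  unfold TwD_F
  rw [if_neg hp]

theorem TwD_F_eq (D : Dbl a b κ₁ κ₂ ε) {L : ℝ → E3 →L[ℝ] E3} {p : N}
    (hp : Off ![κ₁, κ₂] p) : TwD_F D L p = TwD_B D (TwD_T a L (D.S.A p)) := by
  unfold TwD_F
  rw [if_pos hp]

theorem TwD_F_F {θ : ℝ} (D : Dbl a b κ₁ κ₂ ε) {L L' : ℝ → E3 →L[ℝ] E3} (h : TwD_R L θ) (h' : TwD_R L' θ)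
    (hi : ∀ l v, L' l (L l v) = v) (p : N) : TwD_F D L' (TwD_F D L p) = p := by
  by_cases hp : Off ![κ₁, κ₂] p
  · obtain ⟨h1, h2⟩ := TwD_F_off D h hp
    rw [TwD_F_eq D h1, h2, TwD_T_T h h' hi, TwD_B_A D hp]
  · rw [TwD_F_on D hp, TwD_F_on D hp]

/-! ### near the circles -/

theorem TwD_off₁ (D : Dbl a b κ₁ κ₂ ε) (l : ℝ) {v : E3} (hv : ‖v‖ < ε) (h0 : v ≠ 0) :
    Off ![κ₁, κ₂] (κ₁ (l, v)) := by
  have hε := D.tub.thick 0 |>.pos
  intro i l' hl'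
  fin_cases i
  · exact h0 ((D.tub.thick 0).inj l v l' 0 hv (by simpa using hε) hl').1
  · exact D.tub.disj 0 1 (by decide) l v l' 0 hv (by simpa using hε) hl'

theorem TwD_off₂ (D : Dbl a b κ₁ κ₂ ε) (l : ℝ) {v : E3} (hv : ‖v‖ < ε) (h0 : v ≠ 0) :
    Off ![κ₁, κ₂] (κ₂ (l, v)) := by
  have hε := D.tub.thick 0 |>.pos
  intro i l' hl'
  fin_cases i
  · exact D.tub.disj 1 0 (by decide) l v l' 0 hv (by simpa using hε) hl'
  · exact h0 ((D.tub.thick 1).inj l v l' 0 hv (by simpa using hε) hl').1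

theorem TwD_A₁ (D : Dbl a b κ₁ κ₂ ε) (l : ℝ) {v : E3} (hv : ‖v‖ < ε) (h0 : v ≠ 0) :
    (D.S.A (κ₁ (l, v))).1 = TwD_m (a + ‖v‖ * ex l)
      ((√(1 - ‖(a : ℂ) + ‖v‖ * ex l‖ ^ 2) * ‖v‖⁻¹) • v) := by
  have hr : 0 < ‖v‖ := norm_pos_iff.2 h0
  let w : S2 := ⟨‖v‖⁻¹ • v, by rw [mem_sphere_zero_iff_norm, norm_smul, norm_inv, norm_norm, inv_mul_cancel₀ hr.ne']⟩
  have h1 := D.S.glue 0 l ‖v‖ w hr hv
  have h2 : ‖v‖ • w.1 = v := by
    show ‖v‖ • (‖v‖⁻¹ • v) = v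
    rw [smul_smul, mul_inv_cancel₀ hr.ne', one_smul]
  rw [h2] at h1
  have h3 : D.S.A (κ₁ (l, v)) = D.S.Q 0 (‖v‖ * ex l, w) := h1.symm
  have h4 : ‖(‖v‖ : ℂ) * ex l‖ < ε := by
    rw [norm_mul, TwD_ex_norm, mul_one, Complex.norm_real, norm_norm]
    exact hv
  rw [h3, D.std₁ _ w h4, TwD_std, mul_smul]

theorem TwD_A₂ (D : Dbl a b κ₁ κ₂ ε) (l : ℝ) {v : E3} (hv : ‖v‖ < ε) (h0 : v ≠ 0) :
    TwD_u (D.S.A (κ₂ (l, v))).1 = b + ‖v‖ * ex l := by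
  have hr : 0 < ‖v‖ := norm_pos_iff.2 h0
  let w : S2 := ⟨‖v‖⁻¹ • v, by rw [mem_sphere_zero_iff_norm, norm_smul, norm_inv, norm_norm, inv_mul_cancel₀ hr.ne']⟩
  have h1 := D.S.glue 1 l ‖v‖ w hr hv
  have h2 : ‖v‖ • w.1 = v := by
    show ‖v‖ • (‖v‖⁻¹ • v) = v
    rw [smul_smul, mul_inv_cancel₀ hr.ne', one_smul]
  rw [h2] at h1
  have h3 : D.S.A (κ₂ (l, v)) = D.S.Q 1 (‖v‖ * ex l, w) := h1.symm
  have h4 : ‖(‖v‖ : ℂ) * ex l‖ < ε := by
    rw [norm_mul, TwD_ex_norm, mul_one, Complex.norm_real, norm_norm]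
    exact hv
  rw [h3, D.std₂ _ w h4, TwD_u_std]

theorem TwD_F₁ {θ : ℝ} (D : Dbl a b κ₁ κ₂ ε) {L : ℝ → E3 →L[ℝ] E3} (h : TwD_R L θ) (l : ℝ) {v : E3}
    (hv : ‖v‖ < ε) : TwD_F D L (κ₁ (l, v)) = κ₁ (l, L l v) := by
  by_cases h0 : v = 0
  · subst h0
    rw [map_zero]
    exact TwD_F_on D fun hoff => hoff 0 l rfl
  · have hr : 0 < ‖v‖ := norm_pos_iff.2 h0
    have h1 := TwD_off₁ D l hv h0
    have hLv : ‖L l v‖ < ε := by rw [h.nm]; exact hv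
    have hL0 : L l v ≠ 0 := by
      rw [← norm_pos_iff, h.nm]
      exact hr
    have h1' := TwD_off₁ D l hLv hL0
    obtain ⟨h2, h3⟩ := TwD_F_off D h h1
    refine D.S.A_inj _ _ h2 h1' ?_
    rw [h3]
    apply Subtype.ext
    rw [TwD_T_coe h, TwD_A₁ D l hv h0, TwD_A₁ D l hLv hL0, h.nm]
    unfold TwD_G
    rw [TwD_u_m, TwD_w_m, add_sub_cancel_left, TwD_L_polar h hr, map_smul]

theorem TwD_F₂ {θ : ℝ} (D : Dbl a b κ₁ κ₂ ε) {L : ℝ → E3 →L[ℝ] E3} (h : TwD_R L θ)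
    (hθ : ((b - a : ℝ) : ℂ) = ((|b - a| : ℝ) : ℂ) * ex θ) :
    ∃ δ > 0, δ ≤ ε ∧ ∀ (l : ℝ) (v : E3), ‖v‖ < δ → TwD_F D L (κ₂ (l, v)) = κ₂ (l, v) := by
  have hε := D.tub.thick 0 |>.pos
  have hc : ContinuousAt TwD_an 1 := (TwD_an_smooth Complex.one_mem_slitPlane).continuousAt
  have h1 : TwD_an 1 = 0 := by simp [TwD_an]
  obtain ⟨δ, hδ, hδ'⟩ := Metric.continuousAt_iff.1 hc (1 / 8) (by norm_num)
  refine ⟨min (min δ ε) 1, lt_min (lt_min hδ hε) one_pos, (min_le_left _ _).trans (min_le_right _ _), ?_⟩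
  intro l v hv
  have hv1 : ‖v‖ < δ := hv.trans_le ((min_le_left _ _).trans (min_le_left _ _))
  have hv2 : ‖v‖ < ε := hv.trans_le ((min_le_left _ _).trans (min_le_right _ _))
  have hv3 : ‖v‖ < 1 := hv.trans_le (min_le_right _ _)
  by_cases h0 : v = 0
  · subst h0
    exact TwD_F_on D fun hoff => hoff 1 l rfl
  have hr : 0 < ‖v‖ := norm_pos_iff.2 h0
  have h2 := TwD_off₂ D l hv2 h0
  obtain ⟨h3, h4⟩ := TwD_F_off D h h2
  refine D.S.A_inj _ _ h3 h2 ?_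
  rw [h4]
  apply Subtype.ext
  rw [TwD_T_coe h]
  unfold TwD_G
  have h5 := TwD_A₂ D l hv2 h0
  have h6 : L (TwD_an (TwD_u (D.S.A (κ₂ (l, v))).1 - a)) = ContinuousLinearMap.id ℝ E3 := by
    rw [h5]
    have e1 : (b : ℂ) + ‖v‖ * ex l - a = ex θ * (1 + ‖v‖ * ex (l - θ)) := by
      have e2 : (b : ℂ) - a = ex θ := by
        have := hθ
        rw [(TwD_ab D).1] at this
        push_cast at this
        rw [this, one_mul]
      have e3 : ex l = ex θ * ex (l - θ) := by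
        rw [← TwD_ex_add]
        congr 1
        ring
      rw [mul_add, mul_one, ← e2]
      rw [e3, e2]
      rw [← e2]
      ring
    have e4 : ‖(‖v‖ : ℂ) * ex (l - θ)‖ = ‖v‖ := by
      rw [norm_mul, TwD_ex_norm, mul_one, Complex.norm_real, norm_norm]
    have e5 : (1 + ‖v‖ * ex (l - θ) : ℂ) ≠ 0 := by
      intro e6
      have e7 : (‖v‖ : ℂ) * ex (l - θ) = -1 := by linear_combination e6
      rw [e7, norm_neg, norm_one] at e4
      linarith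
    have e6 := @hδ' (1 + ‖v‖ * ex (l - θ) : ℂ) (by rw [dist_eq_norm, add_sub_cancel_left, e4]; exact hv1)
    rw [h1, Real.dist_eq, sub_zero] at e6
    rw [e1]
    have e8 : ex θ * (1 + ‖v‖ * ex (l - θ)) =
        ((‖(1 + ‖v‖ * ex (l - θ) : ℂ)‖ : ℝ) : ℂ) * ex (θ + TwD_an (1 + ‖v‖ * ex (l - θ))) := by
      rw [TwD_ex_add]
      conv_lhs => rw [TwD_an_spec (1 + ‖v‖ * ex (l - θ))]
      ring
    rw [e8, TwD_L_polar h (norm_pos_iff.2 e5)]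
    apply h.idt
    rw [add_sub_cancel_left]
    exact e6
  rw [h6]
  exact TwD_m_uw _

theorem TwD_ld₀ {θ : ℝ} {L L' : ℝ → E3 →L[ℝ] E3} (h : TwD_R L θ) (h' : TwD_R L' θ)
    (hi : ∀ l v, L' l (L l v) = v) (hi' : ∀ l v, L l (L' l v) = v) (x : ℝ × E3) :
    IsLocalDiffeomorphAt 𝓘(ℝ, ℝ × E3) 𝓘(ℝ, ℝ × E3) ∞ (fun x : ℝ × E3 => (x.1, L x.1 x.2)) x := by
  have sm : ∀ {L : ℝ → E3 →L[ℝ] E3}, ContDiff ℝ ∞ L → ContDiff ℝ ∞ fun x : ℝ × E3 => (x.1, L x.1 x.2) := by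
    intro L hL
    exact contDiff_fst.prodMk ((hL.comp contDiff_fst).clm_apply contDiff_snd)
  refine ⟨⟨⟨fun x : ℝ × E3 => (x.1, L x.1 x.2), fun x : ℝ × E3 => (x.1, L' x.1 x.2), univ, univ,
    fun _ _ => mem_univ _, fun _ _ => mem_univ _, fun y _ => ?_, fun y _ => ?_⟩, isOpen_univ, isOpen_univ,
    (sm h.sm).contMDiff.contMDiffOn, (sm h'.sm).contMDiff.contMDiffOn⟩, mem_univ _, fun _ _ => rfl⟩
  · exact Prod.ext rfl (hi _ _)
  · exact Prod.ext rfl (hi' _ _)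

theorem TwD_F_ld [T2Space N] {θ : ℝ} (D : Dbl a b κ₁ κ₂ ε) {L L' : ℝ → E3 →L[ℝ] E3}
    (h : TwD_R L θ) (h' : TwD_R L' θ) (hi : ∀ l v, L' l (L l v) = v) (hi' : ∀ l v, L l (L' l v) = v)
    (hθ : ((b - a : ℝ) : ℂ) = ((|b - a| : ℝ) : ℂ) * ex θ) (p : N) :
    IsLocalDiffeomorphAt (𝓡 4) (𝓡 4) ∞ (TwD_F D L) p := by
  have hε := D.tub.thick 0 |>.pos
  by_cases hp : Off ![κ₁, κ₂] p
  · have h1 := TwD_A_ne D hp
    obtain ⟨h2, h3⟩ := TwD_F_off D h hp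
    have e1 := TwD_T_ld h h' hi hi' h1.1
    have e2 := TwD_B_ld D h2
    rw [h3] at e2
    have e3 : IsLocalDiffeomorphAt (𝓡 4) (𝓡 4) ∞ (TwD_T a L ∘ D.S.A) p :=
      IsLocalDiffeomorphAt.comp (hf := D.S.A_loc p hp) (hg := e1) ..
    have e4 : IsLocalDiffeomorphAt (𝓡 4) (𝓡 4) ∞ (TwD_B D ∘ (TwD_T a L ∘ D.S.A)) p :=
      IsLocalDiffeomorphAt.comp (hf := e3) (hg := e2) ..
    refine TwD_ld_congr e4 ?_
    filter_upwards [(TwD_off_open D).mem_nhds hp] with p' hp'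
    exact TwD_F_eq D hp'
  · have h1 : ∃ (i : Fin 2) (l : ℝ), p = ![κ₁, κ₂] i (l, 0) := by
      unfold Off at hp
      push Not at hp
      exact hp
    obtain ⟨i, l, hl⟩ := h1
    fin_cases i
    · have hl' : p = κ₁ (l, 0) := hl
      rw [hl']
      have k1 : IsLocalDiffeomorphAt 𝓘(ℝ, ℝ × E3) (𝓡 4) ∞ κ₁ (l, 0) := (D.tub.thick 0).loc l 0 (by simpa using hε)
      refine TwD_ld_left (f := κ₁) ?_ k1
      have k2 := TwD_ld₀ h h' hi hi' (l, 0)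
      have k3 : IsLocalDiffeomorphAt 𝓘(ℝ, ℝ × E3) (𝓡 4) ∞ κ₁ ((fun x : ℝ × E3 => (x.1, L x.1 x.2)) (l, 0)) := by
        show IsLocalDiffeomorphAt 𝓘(ℝ, ℝ × E3) (𝓡 4) ∞ κ₁ (l, L l 0)
        rw [map_zero]
        exact k1
      have k4 : IsLocalDiffeomorphAt 𝓘(ℝ, ℝ × E3) (𝓡 4) ∞ (κ₁ ∘ fun x : ℝ × E3 => (x.1, L x.1 x.2)) (l, 0) :=
        IsLocalDiffeomorphAt.comp (hf := k2) (hg := k3) ..
      refine TwD_ld_congr k4 ?_
      have k5 : {x : ℝ × E3 | ‖x.2‖ < ε} ∈ 𝓝 ((l, 0) : ℝ × E3) := by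
        refine (isOpen_lt (continuous_snd.norm) continuous_const).mem_nhds ?_
        show ‖(0 : E3)‖ < ε
        simpa using hε
      filter_upwards [k5] with x hx
      exact TwD_F₁ D h x.1 hx
    · have hl' : p = κ₂ (l, 0) := hl
      rw [hl']
      have k1 : IsLocalDiffeomorphAt 𝓘(ℝ, ℝ × E3) (𝓡 4) ∞ κ₂ (l, 0) := (D.tub.thick 1).loc l 0 (by simpa using hε)
      refine TwD_ld_left (f := κ₂) ?_ k1
      refine TwD_ld_congr k1 ?_
      obtain ⟨δ, hδ, _, hδ'⟩ := TwD_F₂ D h hθ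
      have k5 : {x : ℝ × E3 | ‖x.2‖ < δ} ∈ 𝓝 ((l, 0) : ℝ × E3) := by
        refine (isOpen_lt (continuous_snd.norm) continuous_const).mem_nhds ?_
        show ‖(0 : E3)‖ < δ
        simpa using hδ
      filter_upwards [k5] with x hx
      exact hδ' x.1 x.2 hx

end

theorem neck_twist [T2Space N] [IsManifold (𝓡 4) ∞ N] {a b : ℝ} {κ₁ κ₂ : ℝ × E3 → N} {ε : ℝ}
    (D : Dbl a b κ₁ κ₂ ε) {L : ℝ → E3 →L[ℝ] E3} (hL : ContDiff ℝ ∞ L) (hper : ∀ l, L (l + 1) = L l)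
    (hn : ∀ l v, ‖L l v‖ = ‖v‖) {θ : ℝ} (hθ : ((b - a : ℝ) : ℂ) = ((|b - a| : ℝ) : ℂ) * ex θ)
    (hLθ : ∀ l, |l - θ| < 1 / 8 → L l = ContinuousLinearMap.id ℝ E3) :
    ∃ F : N ≃ₘ⟮𝓡 4, 𝓡 4⟯ N, ∃ δ > 0, (∀ (l : ℝ) (v : E3), ‖v‖ < δ → F (κ₁ (l, v)) = κ₁ (l, L l v)) ∧
      ∀ (l : ℝ) (v : E3), ‖v‖ < δ → F (κ₂ (l, v)) = κ₂ (l, v) := by
  have h : TwD_R L θ := ⟨hL, hper, hn, hLθ⟩
  obtain ⟨L', h', hi, hi'⟩ := TwD_inv_ex h
  have hld : IsLocalDiffeomorph (𝓡 4) (𝓡 4) ∞ (TwD_F D L) := fun p => TwD_F_ld D h h' hi hi' hθ p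
  have hbij : Function.Bijective (TwD_F D L) :=
    Function.bijective_iff_has_inverse.2 ⟨TwD_F D L', TwD_F_F D h h' hi, TwD_F_F D h' h hi'⟩
  obtain ⟨δ, hδ, hδε, hδ'⟩ := TwD_F₂ D h hθ
  refine ⟨hld.diffeomorphOfBijective hbij, δ, hδ, fun l v hv => ?_, fun l v hv => ?_⟩
  · exact TwD_F₁ D h l (hv.trans_le hδε)
  · exact hδ' l v hv

end Pool.Agent.ACB
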