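import Pool.Agent.ACB.Bal
import Pool.Agent.ACB.NoF
import Pool.Agent.ACB.TwD
import Pool.Agent.ACB.StW
import Pool.Agent.ACB.SrU

/-!
# ACB/BsE: the base case: every surgery on the double along the generators is the 4-sphere

PROOF.  (`ex 0 = 1`, `ex (1/2) = -1`: the directions `θ = 0` for `(a, b) = (-1/2, 1/2)` and `θ = 1/2` for `(1/2, -1/2)`.)
(1) `normal_frame` for `κ = κ₁`, `κ' = k₁`, second circle `κ₂` (all restricted to a common radius: `Thick.mono`, `tubes_pair` for `k₁`, `κ₂`: the cores are disjoint because `core κ₂ = core k₂`), `θ = 0`: `L₁` and `IsSurg ![fr k₁ L₁, κ₂] X`.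
(2) `isSurg_swap`; `normal_frame` for `κ = κ₂`, `κ' = k₂`, second circle `fr k₁ L₁` (thick: it is one of the two circles of an `IsSurg`; its core is `core k₁`, disjoint from `core k₂`), `θ = 1/2`: `L₂` and `IsSurg ![fr k₂ L₂, fr k₁ L₁] X`.
(3) `neck_twist` for `D.swap` (`θ = 1/2`, `b - a = -1`) and `L₂`: `F₂` with `F₂ (k₂ (l, v)) = fr k₂ L₂ (l, v)`, `F₂ (k₁ (l, v)) = k₁ (l, v)` near the cores, hence also `F₂ (fr k₁ L₁ (l, v)) = fr k₁ L₁ (l, v)` (`‖L₁ l v‖ = ‖v‖`).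
`isSurg_diffeo` with `F₂.symm` and `isSurg_germ`: `IsSurg ![k₂, fr k₁ L₁] X`.  (4) `isSurg_swap`; `neck_twist` for `D` (`θ = 0`) and `L₁`, `F₁.symm`: `IsSurg ![k₁, k₂] X`.  (5) `isSurg_uniq` with `⟨ε, D.tub, ⟨D.S⟩⟩`.
-/

open scoped ContDiff Manifold Topology unitInterval
open Set Filter

namespace Pool.Agent.ACB

universe u
variable {N : Type u} [TopologicalSpace N] [ChartedSpace E4 N]

private theorem bse_normal [T2Space N] [IsManifold (𝓡 4) ∞ N] {κ κ' κ₂ : ℝ × E3 → N} {ε : ℝ}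
    (hk : Thick κ' ε) (hc : core κ = core κ') (θ : ℝ) {X : Type} [TopologicalSpace X] [ChartedSpace E4 X]
    (h : IsSurg ![κ, κ₂] X) :
    ∃ L : ℝ → E3 →L[ℝ] E3, ContDiff ℝ ∞ L ∧ (∀ l, L (l + 1) = L l) ∧ (∀ l v, ‖L l v‖ = ‖v‖) ∧
      (∀ l, |l - θ| < 1 / 8 → L l = ContinuousLinearMap.id ℝ E3) ∧ IsSurg ![fr κ' L, κ₂] X := by
  obtain ⟨δ, hT, -⟩ := id h
  have hr : 0 < min δ ε := lt_min (hT.thick 0).pos hk.pos
  have hT1 : Tubes ![κ, κ₂] (min δ ε) := hT.mono hr (min_le_left _ _)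
  have hk1 : Thick κ' (min δ ε) := hk.mono hr (min_le_right _ _)
  have hk2 : Thick κ₂ (min δ ε) := hT1.thick 1
  have hd : ∀ l l', κ' (l, 0) ≠ κ₂ (l', 0) := by
    intro l l' e
    have e1 : κ (l, 0) = κ' (l, 0) := congrFun hc l
    have h01 : (0 : Fin 2) ≠ 1 := by decide
    refine hT1.disj 0 1 h01 l 0 l' 0 (by rw [norm_zero]; exact hr) (by rw [norm_zero]; exact hr) ?_
    show κ (l, 0) = κ₂ (l', 0)
    rw [e1, e]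
  obtain ⟨δ1, hδ1, hle, hT'⟩ := tubes_pair hk1 hk2 hd
  obtain ⟨L, a1, a2, a3, a4, a5⟩ := normal_frame (hT1.mono hδ1 hle) hT' hc θ
  exact ⟨L, a1, a2, a3, a4, a5 X h⟩

private theorem bse_twist [T2Space N] {k₁ k₂ κ₂ : ℝ × E3 → N} {X : Type} [TopologicalSpace X]
    [ChartedSpace E4 X] {L L' : ℝ → E3 →L[ℝ] E3} (hn' : ∀ l v, ‖L' l v‖ = ‖v‖) (F : N ≃ₘ⟮𝓡 4, 𝓡 4⟯ N) {δ : ℝ}
    (hδ : 0 < δ) (h1 : ∀ (l : ℝ) (v : E3), ‖v‖ < δ → F (k₁ (l, v)) = k₁ (l, L l v))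
    (h2 : ∀ (l : ℝ) (v : E3), ‖v‖ < δ → F (k₂ (l, v)) = k₂ (l, v)) (hk : κ₂ = fr k₂ L')
    (h : IsSurg ![fr k₁ L, κ₂] X) : IsSurg ![k₁, κ₂] X := by
  refine isSurg_germ (isSurg_diffeo h F.symm) fun i => ⟨δ, hδ, fun l v hv => ?_⟩
  fin_cases i
  · show k₁ (l, v) = F.symm (k₁ (l, L l v))
    rw [← h1 l v hv]
    exact (F.symm_apply_apply _).symm
  · subst hk
    show k₂ (l, L' l v) = F.symm (k₂ (l, L' l v))
    have := h2 l (L' l v) (by rw [hn']; exact hv)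
    conv_rhs => rw [← this]
    exact (F.symm_apply_apply _).symm

theorem base_case {M : Type} [TopologicalSpace M] [ChartedSpace E4 M] [T2Space M] [IsManifold (𝓡 4) ∞ M]
    {k₁ k₂ : ℝ × E3 → M} {ε : ℝ} (D : Dbl (-1 / 2) (1 / 2) k₁ k₂ ε) {X : Type} [TopologicalSpace X]
    [ChartedSpace E4 X] {κ₁ κ₂ : ℝ × E3 → M} (h : IsSurg ![κ₁, κ₂] X) (h1 : core κ₁ = core k₁)
    (h2 : core κ₂ = core k₂) : Nonempty (X ≃ₘ⟮𝓡 4, 𝓡 4⟯ S4) := by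
  obtain ⟨L₁, a1, a2, a3, a4, a5⟩ := bse_normal (D.tub.thick 0) h1 0 h
  obtain ⟨L₂, b1, b2, b3, b4, b5⟩ := bse_normal (D.tub.thick 1) h2 (1 / 2) (isSurg_swap a5)
  obtain ⟨D'⟩ := D.swap
  have hθ2 : (((-1 / 2 : ℝ) - (1 / 2 : ℝ) : ℝ) : ℂ) = ((|(-1 / 2 : ℝ) - (1 / 2 : ℝ)| : ℝ) : ℂ) * ex (1 / 2) := by
    have e1 : (-1 / 2 : ℝ) - (1 / 2 : ℝ) = -1 := by norm_num
    have e2 : ex (1 / 2) = -1 := by
      rw [ex, show (2 * Real.pi * (1 / 2) : ℝ) = Real.pi by ring, Complex.exp_pi_mul_I]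
    rw [e1, e2]
    simp
  have hθ1 : (((1 / 2 : ℝ) - (-1 / 2 : ℝ) : ℝ) : ℂ) = ((|(1 / 2 : ℝ) - (-1 / 2 : ℝ)| : ℝ) : ℂ) * ex 0 := by
    have e1 : (1 / 2 : ℝ) - (-1 / 2 : ℝ) = 1 := by norm_num
    have e2 : ex 0 = 1 := by
      rw [ex]; simp
    rw [e1, e2]
    simp
  obtain ⟨F₂, δ₂, hδ₂, c1, c2⟩ := neck_twist D' b1 b2 b3 hθ2 b4
  obtain ⟨F₁, δ₁, hδ₁, d1, d2⟩ := neck_twist D a1 a2 a3 hθ1 a4
  have s1 : IsSurg ![k₂, fr k₁ L₁] X := bse_twist (L := L₂) a3 F₂ hδ₂ c1 c2 rfl b5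
  have hid : ∀ (l : ℝ) (v : E3), ‖(ContinuousLinearMap.id ℝ E3) v‖ = ‖v‖ := fun _ _ => rfl
  have s2 : IsSurg ![k₁, k₂] X :=
    bse_twist (L := L₁) (L' := fun _ => ContinuousLinearMap.id ℝ E3) hid F₁ hδ₁ d1 d2 rfl (isSurg_swap s1)
  exact isSurg_uniq s2 ⟨ε, D.tub, ⟨D.S⟩⟩

end Pool.Agent.ACB
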