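import Pool.Agent.ACB.Bal
import Pool.Agent.ACB.Mv1
import Pool.Agent.ACB.Smo

/-!
# ACB/BsM: moving the two circles to the standard cores

PROOF.  Let `W = range (core κ₁) ∪ range (core k₁)` (obstacle: `Thick.circ`, `Obst.range`, `Obst.union`).  `closed_curve` for `core κ₂` with obstacle `W`, `O = univ`: a circle `c` off `W` with `FHom univ (core κ₂) c`.
(a) `isSurg_swap`, `move_N` (first circle `κ₂`, second circle `κ₁`, the new core `c`): `κ₂'` with core `c`, `IsSurg ![κ₂', κ₁] X`.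
(b) `isSurg_swap`, `move_N` (first circle `κ₁`, second `κ₂'`, new core `core k₁`, which avoids `range c`): `κ₁'` with `core κ₁' = core k₁`, `IsSurg ![κ₁', κ₂'] X`.
(c) `isSurg_swap`, `move_N` (first circle `κ₂'`, second `κ₁'`, new core `core k₂`, which avoids `range (core k₁) = range (core κ₁')` by `hk.disj`; `c ~ core κ₂ ~ core k₂`): `κ₂''`.  `isSurg_swap`.
-/

open scoped ContDiff Manifold Topology unitInterval
open Set Filter

namespace Pool.Agent.ACB

universe u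
variable {N : Type u} [TopologicalSpace N] [ChartedSpace E4 N]

theorem bsm_disj {k₁ k₂ : ℝ × E3 → N} {ε : ℝ} (hk : Tubes ![k₁, k₂] ε) (t t' : ℝ) : core k₁ t ≠ core k₂ t' := by
  have h0 := (hk.thick 0).pos
  have h1 := hk.disj 0 1 (by decide) t 0 t' 0 (by simpa using h0) (by simpa using h0)
  simpa [core] using h1

theorem base_move [T2Space N] [IsManifold (𝓡 4) ∞ N] {κ₁ κ₂ k₁ k₂ : ℝ × E3 → N} {ε : ℝ} {X : Type*}
    [TopologicalSpace X] [ChartedSpace E4 X] (h : IsSurg ![κ₁, κ₂] X) (hk : Tubes ![k₁, k₂] ε)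
    (h1 : FHom univ (core κ₁) (core k₁)) (h2 : FHom univ (core κ₂) (core k₂)) :
    ∃ κ₁' κ₂' : ℝ × E3 → N, IsSurg ![κ₁', κ₂'] X ∧ core κ₁' = core k₁ ∧ core κ₂' = core k₂ := by
  have hT : ∃ ε₀ : ℝ, Tubes ![κ₁, κ₂] ε₀ := by
    obtain ⟨ε₀, hT, -⟩ := h
    exact ⟨ε₀, hT⟩
  obtain ⟨ε₀, hT⟩ := hT
  have c1 : Circ (core κ₁) := Thick.circ (κ := κ₁) (by simpa using hT.thick 0)
  have c2 : Circ (core κ₂) := Thick.circ (κ := κ₂) (by simpa using hT.thick 1)
  have d1 : Circ (core k₁) := Thick.circ (κ := k₁) (by simpa using hk.thick 0)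
  have d2 : Circ (core k₂) := Thick.circ (κ := k₂) (by simpa using hk.thick 1)
  have hW : Obst (range (core κ₁) ∪ range (core k₁)) := (Obst.range c1.toSCirc).union (Obst.range d1.toSCirc)
  obtain ⟨c, hc, hcW, hcc⟩ := closed_curve (O := univ) c2.smooth.continuous c2.per hW
    ⟨isOpen_univ, fun _ _ => by simp⟩ (fun t => mem_univ _)
  obtain ⟨κ₂', e2, s2⟩ := move_N (isSurg_swap h) hc (fun t hm => hcW t (Or.inl hm)) hcc
  obtain ⟨κ₁', e1, s1⟩ := move_N (isSurg_swap s2) d1 (by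
    rw [e2]
    rintro t ⟨t', ht'⟩
    exact hcW t' (Or.inr ⟨t, ht'.symm⟩)) h1
  obtain ⟨κ₂'', e3, s3⟩ := move_N (isSurg_swap s1) d2 (by
    rw [e1]
    rintro t ⟨t', ht'⟩
    exact bsm_disj hk t' t ht') (by
    rw [e2]
    exact hcc.symm.trans h2)
  exact ⟨κ₁', κ₂'', isSurg_swap s3, e1, e3⟩

end Pool.Agent.ACB
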