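import Mathlib

/-!
# ACB/Defs: surgery on circles in 4-manifolds, definitions

`N` is a Hausdorff smooth 4-manifold (without boundary).  Circles are smooth maps `c : ℝ → N` of period `1`.
-/

open scoped ContDiff Manifold Topology unitInterval
open Set Filter

namespace Pool.Agent.ACB

/-- Euclidean spaces -/
abbrev E3 := EuclideanSpace ℝ (Fin 3)
abbrev E4 := EuclideanSpace ℝ (Fin 4)
abbrev E5 := EuclideanSpace ℝ (Fin 5)
/-- unit spheres -/
abbrev S2 := Metric.sphere (0 : E3) 1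
abbrev S4 := Metric.sphere (0 : E5) 1

/-- `ex x = exp (2πix)` -/
noncomputable def ex (x : ℝ) : ℂ := Complex.exp ((2 * Real.pi * x : ℝ) * Complex.I)

section
variable {N : Type*} [TopologicalSpace N] [ChartedSpace E4 N]

/-! ### thick circles and surgery -/

/-- A thick circle of radius `ε`: `κ (l, v)`, `l` in `ℝ / ℤ`, `v` in the open ball of radius `ε`. -/
structure Thick (κ : ℝ × E3 → N) (ε : ℝ) : Prop where
  pos : 0 < ε
  per : ∀ (l : ℝ) (v : E3), ‖v‖ < ε → κ (l + 1, v) = κ (l, v)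
  loc : ∀ (l : ℝ) (v : E3), ‖v‖ < ε → IsLocalDiffeomorphAt 𝓘(ℝ, ℝ × E3) (𝓡 4) ∞ κ (l, v)
  inj : ∀ (l : ℝ) (v : E3) (l' : ℝ) (v' : E3), ‖v‖ < ε → ‖v'‖ < ε → κ (l, v) = κ (l', v') →
    v = v' ∧ ∃ m : ℤ, l' = l + m

/-- the core circle of `κ` -/
def core (κ : ℝ × E3 → N) (l : ℝ) : N := κ (l, 0)

/-- a family of thick circles of radius `ε` with disjoint tubes -/
structure Tubes {ι : Type} (κ : ι → ℝ × E3 → N) (ε : ℝ) : Prop where
  thick : ∀ i, Thick (κ i) ε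
  disj : ∀ i j, i ≠ j → ∀ (l : ℝ) (v : E3) (l' : ℝ) (v' : E3), ‖v‖ < ε → ‖v'‖ < ε →
    κ i (l, v) ≠ κ j (l', v')

/-- `p` is not on the circles -/
def Off {ι : Type} (κ : ι → ℝ × E3 → N) (p : N) : Prop := ∀ (i : ι) (l : ℝ), p ≠ κ i (l, 0)

/-- `X` is the result of the surgery on `N` along the thick circles `κ i`: the circles are removed
(`A : N - circles → X`) and for each `i` a copy of `D² × S²` is glued in (`Q i`, `|z| < ε`) by
`Q i (r ex l, v) = A (κ i (l, r v))`, `0 < r < ε`. -/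
structure Surg {ι : Type} (κ : ι → ℝ × E3 → N) (ε : ℝ) (X : Type*) [TopologicalSpace X]
    [ChartedSpace E4 X] where
  A : N → X
  Q : ι → ℂ × S2 → X
  A_loc : ∀ p, Off κ p → IsLocalDiffeomorphAt (𝓡 4) (𝓡 4) ∞ A p
  A_inj : ∀ p p', Off κ p → Off κ p' → A p = A p' → p = p'
  Q_loc : ∀ (i : ι) (z : ℂ) (v : S2), ‖z‖ < ε →
    IsLocalDiffeomorphAt (𝓘(ℝ, ℂ).prod (𝓡 2)) (𝓡 4) ∞ (Q i) (z, v)
  glue : ∀ (i : ι) (l r : ℝ) (v : S2), 0 < r → r < ε → Q i (r * ex l, v) = A (κ i (l, r • v.1))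
  Q_inj : ∀ (i j : ι) (v v' : S2), Q i (0, v) = Q j (0, v') → i = j ∧ v = v'
  disj : ∀ (i : ι) (v : S2) (p : N), Off κ p → Q i (0, v) ≠ A p
  cover : ∀ q : X, (∃ p, Off κ p ∧ q = A p) ∨ ∃ (i : ι) (v : S2), q = Q i (0, v)

/-- germ form -/
def IsSurg {ι : Type} (κ : ι → ℝ × E3 → N) (X : Type*) [TopologicalSpace X]
    [ChartedSpace E4 X] : Prop := ∃ ε : ℝ, Tubes κ ε ∧ Nonempty (Surg κ ε X)

/-! ### loops -/

/-- `g` is the class of the closed curve `c`, up to a path from the base point -/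
def Cls (p : N) (c : ℝ → N) (g : FundamentalGroup N p) : Prop :=
  ∃ (a : Path p (c 0)) (γ : Path (c 0) (c 0)), (∀ t : I, γ t = c t) ∧
    FundamentalGroup.fromPath ⟦(a.trans γ).trans a.symm⟧ = g

/-- free homotopy of closed curves, inside `O` -/
def FHom (O : Set (ℝ × N)) (c c' : ℝ → N) : Prop :=
  ∃ H : ℝ → ℝ → N, Continuous (fun q : ℝ × ℝ => H q.1 q.2) ∧ (∀ s t, H s (t + 1) = H s t) ∧
    H 0 = c ∧ H 1 = c' ∧ ∀ s t, (t, H s t) ∈ O

/-! ### balls, embedded circles -/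

/-- a coordinate ball `b : ℝ⁴ → N` with inverse `b'` -/
structure IsBall (b : E4 → N) (b' : N → E4) : Prop where
  left_inv : ∀ x, b' (b x) = x
  smooth : ContMDiff (𝓡 4) (𝓡 4) ∞ b
  smooth' : ContMDiffOn (𝓡 4) (𝓡 4) ∞ b' (range b)
  isOpen : IsOpen (range b)

/-- `c` is immersed at `t` -/
def Imm (c : ℝ → N) (t : ℝ) : Prop :=
  ∃ (b : E4 → N) (b' : N → E4), IsBall b b' ∧ c t ∈ range b ∧ deriv (b' ∘ c) t ≠ 0

/-- periodic smooth curves -/
structure SCirc (c : ℝ → N) : Prop where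
  smooth : ContMDiff 𝓘(ℝ, ℝ) (𝓡 4) ∞ c
  per : ∀ t, c (t + 1) = c t

/-- embedded circles -/
structure Circ (c : ℝ → N) : Prop extends SCirc c where
  imm : ∀ t, Imm c t
  inj : ∀ t t', c t = c t' → ∃ n : ℤ, t' = t + n

/-- obstacles: closed sets contained in a finite union of smooth curves -/
def Obst (W : Set N) : Prop :=
  IsClosed W ∧ ∃ (n : ℕ) (d : Fin n → ℝ → N), (∀ i, ContMDiff 𝓘(ℝ, ℝ) (𝓡 4) ∞ (d i)) ∧ W ⊆ ⋃ i, range (d i)

/-- ambient isotopic (diffeomorphic) rel a neighbourhood of `W` -/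
def Iso (W : Set N) (c c' : ℝ → N) : Prop :=
  ∃ F : N ≃ₘ⟮𝓡 4, 𝓡 4⟯ N, (∀ t, F (c t) = c' t) ∧ ∃ V : Set N, IsOpen V ∧ W ⊆ V ∧ ∀ x ∈ V, F x = x

/-- modification of `g` on `(p, q) + ℤ`, `q < p + 1`, in the ball `b`: the new curve is `b ∘ k` on `(p, q)` -/
noncomputable def mdf (b : E4 → N) (p q : ℝ) (k : ℝ → E4) (g : ℝ → N) (t : ℝ) : N :=
  open Classical in if t - ⌊t - p⌋ < q then b (k (t - ⌊t - p⌋)) else g t

/-- the zone of `β`: the support made periodic -/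
def Zn (β : ℝ → ℝ) : Set ℝ := {t | ∃ n : ℤ, β (t + n) ≠ 0}

/-- open subsets of `ℝ × N`, periodic in the time -/
structure OpnS (O : Set (ℝ × N)) : Prop where
  isOpen : IsOpen O
  per : ∀ t x, (t + 1, x) ∈ O ↔ (t, x) ∈ O

end

/-- smooth functions `≥ 0` supported in `(p, q)` -/
structure Cut (β : ℝ → ℝ) (p q : ℝ) : Prop where
  smooth : ContDiff ℝ ∞ β
  nonneg : ∀ t, 0 ≤ β t
  supp : ∃ p' q' : ℝ, p < p' ∧ p' < q' ∧ q' < q ∧ ∀ t, β t ≠ 0 → t ∈ Ioo p' q'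

/-- negligible sets of pairs of vectors -/
def Thin (S : Set (E4 × E4)) : Prop := MeasureTheory.volume S = 0

end Pool.Agent.ACB
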