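import Pool.Agent.ACB.Bal
import Pool.Agent.ACB.StD

/-!
# ACB/QsT: the standard thick spheres

PROOF.  For `‖z‖ < 1/4`: `|a + z| ≤ 3/4 < 1`, so `stdS a z v` is in `S4` (`‖v‖ = 1`): define `Q (z, v)` as this point for `‖z‖ < 1/4` and anything else otherwise (`S4` is not empty).  Let `x ∈ S4` with coordinates `u = x 0 + i x 1`,
`w = (x 2, x 3, x 4) ∈ E3`.  For `‖z‖ < 1/4`, `x = Q (z, v)`: `u = a + z`, `w = √(1 - |u|²) v ≠ 0`, so `(z, v) = (u - a, w / ‖w‖)`: injective.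
Local diffeomorphism at `(z, v)`: on the open set `‖z‖ < 1/4` `Q` is smooth (`ContMDiff.codRestrict_sphere` type lemmas at a point: a map into the sphere is smooth if its composition with the inclusion is; the square root is smooth for
`1 - |a + z|² > 0`; multiply by a cutoff or use a globally defined smooth extension to apply `ContMDiff` lemmas), it maps the open set `{‖z‖ < 1/4}` bijectively onto the open set `{x | |u - a| < 1/4, }` of `S4` with smooth inverse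
`x ↦ (u - a, w / ‖w‖)` (`w ≠ 0` there).  So it is a `PartialDiffeomorph`.
-/

open scoped ContDiff Manifold Topology unitInterval
open Set Filter

namespace Pool.Agent.ACB

universe u
variable {N : Type u} [TopologicalSpace N] [ChartedSpace E4 N]

section
variable {E : Type*} [NormedAddCommGroup E] [InnerProductSpace ℝ E]

open scoped Classical in
/-- radial projection to the sphere (`e` at the origin) -/
private noncomputable def qsph (e : Metric.sphere (0 : E) 1) (v : E) : Metric.sphere (0 : E) 1 :=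
  if h : v = 0 then e else ⟨‖v‖⁻¹ • v, by
    rw [mem_sphere_zero_iff_norm, norm_smul, norm_inv, norm_norm, inv_mul_cancel₀ (norm_ne_zero_iff.2 h)]⟩

private theorem qsph_coe (e : Metric.sphere (0 : E) 1) {v : E} (hv : v ≠ 0) : (qsph e v : E) = ‖v‖⁻¹ • v := by
  unfold qsph
  rw [dif_neg hv]

private theorem qsph_smooth {n : ℕ} [Fact (Module.finrank ℝ E = n + 1)] (e : Metric.sphere (0 : E) 1) {v : E}
    (hv : v ≠ 0) : ContMDiffAt 𝓘(ℝ, E) (𝓡 n) ∞ (qsph e) v := by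
  have hv' : 0 < ‖v‖ := norm_pos_iff.2 hv
  let f : ContDiffBump v := ⟨‖v‖ / 4, ‖v‖ / 2, by linarith, by linarith⟩
  set g : E → E := fun x => v + f x • (x - v) with hg
  have hgs : ContDiff ℝ ∞ g := contDiff_const.add (f.contDiff.smul (contDiff_id.sub contDiff_const))
  have hg0 : ∀ x, g x ≠ 0 := by
    intro x hx
    have h1 : f x • (x - v) = -v := by
      have : v + f x • (x - v) = 0 := hx
      exact eq_neg_of_add_eq_zero_right this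
    have h2 : |f x| * ‖x - v‖ = ‖v‖ := by
      rw [← Real.norm_eq_abs, ← norm_smul, h1, norm_neg]
    by_cases hd : dist x v < ‖v‖ / 2
    · have h3 : |f x| ≤ 1 := by
        rw [abs_of_nonneg f.nonneg]
        exact f.le_one
      rw [dist_eq_norm] at hd
      have h4 : |f x| * ‖x - v‖ ≤ 1 * ‖x - v‖ := mul_le_mul_of_nonneg_right h3 (norm_nonneg _)
      linarith
    · have h3 : f x = 0 := f.zero_of_le_dist (not_lt.1 hd)
      rw [h3, abs_zero, zero_mul] at h2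
      linarith
  have hF : ContDiff ℝ ∞ fun x => ‖g x‖⁻¹ • g x := by
    have h3 : ContDiff ℝ ∞ fun x => ‖g x‖ := hgs.norm ℝ hg0
    exact (h3.inv fun x => norm_ne_zero_iff.2 (hg0 x)).smul hgs
  have hm : ∀ x, (fun x => ‖g x‖⁻¹ • g x) x ∈ Metric.sphere (0 : E) 1 := by
    intro x
    rw [mem_sphere_zero_iff_norm]
    change ‖‖g x‖⁻¹ • g x‖ = 1
    rw [norm_smul, norm_inv, norm_norm, inv_mul_cancel₀ (norm_ne_zero_iff.2 (hg0 x))]
  have h1 := ContMDiff.codRestrict_sphere (n := n) hF.contMDiff hm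
  refine (h1 v).congr_of_eventuallyEq ?_
  have hball : Metric.ball v (‖v‖ / 4) ∈ 𝓝 v := Metric.ball_mem_nhds v (by linarith)
  filter_upwards [hball] with x hx
  have hfx : f x = 1 := f.one_of_mem_closedBall (Metric.ball_subset_closedBall hx)
  have hgx : g x = x := by
    rw [hg]
    change v + f x • (x - v) = x
    rw [hfx, one_smul, add_sub_cancel]
  have hx0 : x ≠ 0 := by
    rw [← hgx]
    exact hg0 x
  apply Subtype.ext
  rw [qsph_coe e hx0]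
  change _ = ‖g x‖⁻¹ • g x
  rw [hgx]

end

private theorem qf5 : Fact (Module.finrank ℝ E5 = 4 + 1) := ⟨finrank_euclideanSpace_fin⟩

private theorem qf3 : Fact (Module.finrank ℝ E3 = 2 + 1) := ⟨finrank_euclideanSpace_fin⟩

section

attribute [local instance] qf5 qf3

private noncomputable def qe5 : S4 := ⟨EuclideanSpace.single 0 1, by simp⟩

private noncomputable def qe3 : S2 := ⟨EuclideanSpace.single 0 1, by simp⟩

private noncomputable def qw (x : E5) : E3 := !₂[x 2, x 3, x 4]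

private noncomputable def qu (a : ℝ) (x : E5) : ℂ := ((x 0 - a : ℝ) : ℂ) + ((x 1 : ℝ) : ℂ) * Complex.I

private theorem qw_contDiff : ContDiff ℝ ∞ qw := by
  refine contDiff_euclidean.2 fun i => ?_
  fin_cases i
  · exact (EuclideanSpace.proj (2 : Fin 5) : E5 →L[ℝ] ℝ).contDiff
  · exact (EuclideanSpace.proj (3 : Fin 5) : E5 →L[ℝ] ℝ).contDiff
  · exact (EuclideanSpace.proj (4 : Fin 5) : E5 →L[ℝ] ℝ).contDiff

private theorem qu_contDiff (a : ℝ) : ContDiff ℝ ∞ (qu a) := by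
  have h0 : ContDiff ℝ ∞ fun x : E5 => x 0 := (EuclideanSpace.proj (0 : Fin 5) : E5 →L[ℝ] ℝ).contDiff
  have h1 : ContDiff ℝ ∞ fun x : E5 => x 1 := (EuclideanSpace.proj (1 : Fin 5) : E5 →L[ℝ] ℝ).contDiff
  exact (Complex.ofRealCLM.contDiff.comp (h0.sub contDiff_const)).add
    ((Complex.ofRealCLM.contDiff.comp h1).mul contDiff_const)

private theorem qsq (a : ℝ) (z : ℂ) : ‖(a : ℂ) + z‖ ^ 2 = (a + z.re) ^ 2 + z.im ^ 2 := by
  rw [Complex.sq_norm, Complex.normSq_apply]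
  simp
  ring

private theorem qpos {a : ℝ} (ha : |a| ≤ 1 / 2) {z : ℂ} (hz : ‖z‖ < 1 / 4) : 0 < 1 - ‖(a : ℂ) + z‖ ^ 2 := by
  have h1 : ‖(a : ℂ) + z‖ ≤ ‖(a : ℂ)‖ + ‖z‖ := norm_add_le _ _
  rw [Complex.norm_real, Real.norm_eq_abs] at h1
  have h2 : ‖(a : ℂ) + z‖ < 3 / 4 := by linarith
  nlinarith [norm_nonneg ((a : ℂ) + z)]

private theorem qv_sq (v : S2) : v.1 0 ^ 2 + v.1 1 ^ 2 + v.1 2 ^ 2 = 1 := by
  have h := norm_eq_of_mem_sphere v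
  have h2 : ‖(v : E3)‖ ^ 2 = 1 := by rw [h]; norm_num
  rw [EuclideanSpace.norm_sq_eq, Fin.sum_univ_three] at h2
  simpa [Real.norm_eq_abs, sq_abs] using h2

private theorem qx_sq (x : S4) : x.1 0 ^ 2 + x.1 1 ^ 2 + x.1 2 ^ 2 + x.1 3 ^ 2 + x.1 4 ^ 2 = 1 := by
  have h := norm_eq_of_mem_sphere x
  have h2 : ‖(x : E5)‖ ^ 2 = 1 := by rw [h]; norm_num
  rw [EuclideanSpace.norm_sq_eq, Fin.sum_univ_five] at h2
  simpa [Real.norm_eq_abs, sq_abs] using h2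

private theorem qstd_norm {a : ℝ} (ha : |a| ≤ 1 / 2) {z : ℂ} (hz : ‖z‖ < 1 / 4) (v : S2) :
    ‖stdS a z v‖ = 1 := by
  have hp := qpos ha hz
  have h1 : ‖stdS a z v‖ ^ 2 = 1 := by
    rw [EuclideanSpace.norm_sq_eq, Fin.sum_univ_five]
    have h2 : (√(1 - ‖(a : ℂ) + z‖ ^ 2)) ^ 2 = 1 - ‖(a : ℂ) + z‖ ^ 2 := Real.sq_sqrt hp.le
    have h3 := qv_sq v
    have h4 := qsq a z
    simp only [stdS, Real.norm_eq_abs, sq_abs]
    show (a + z.re) ^ 2 + z.im ^ 2 + (√(1 - ‖(a : ℂ) + z‖ ^ 2) * v.1 0) ^ 2 +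
      (√(1 - ‖(a : ℂ) + z‖ ^ 2) * v.1 1) ^ 2 + (√(1 - ‖(a : ℂ) + z‖ ^ 2) * v.1 2) ^ 2 = 1
    have h5 : (√(1 - ‖(a : ℂ) + z‖ ^ 2) * v.1 0) ^ 2 + (√(1 - ‖(a : ℂ) + z‖ ^ 2) * v.1 1) ^ 2 +
        (√(1 - ‖(a : ℂ) + z‖ ^ 2) * v.1 2) ^ 2 = (√(1 - ‖(a : ℂ) + z‖ ^ 2)) ^ 2 *
        (v.1 0 ^ 2 + v.1 1 ^ 2 + v.1 2 ^ 2) := by ring
    rw [h3, h2, mul_one] at h5
    linarith
  have h2 := norm_nonneg (stdS a z v)
  nlinarith

private noncomputable def qQ (a : ℝ) (p : ℂ × S2) : S4 := qsph qe5 (stdS a p.1 p.2)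

private noncomputable def qR (a : ℝ) (x : S4) : ℂ × S2 := (qu a x.1, qsph qe3 (qw x.1))

private theorem qQ_coe {a : ℝ} (ha : |a| ≤ 1 / 2) {z : ℂ} (hz : ‖z‖ < 1 / 4) (v : S2) :
    (qQ a (z, v)).1 = stdS a z v := by
  have h := qstd_norm ha hz v
  have h0 : stdS a z v ≠ 0 := by
    intro h0
    rw [h0, norm_zero] at h
    exact zero_ne_one h
  show ((qsph qe5 (stdS a z v) : S4) : E5) = _
  rw [qsph_coe _ h0, h, inv_one, one_smul]

private theorem qw_ne {a : ℝ} (ha : |a| ≤ 1 / 2) {x : S4} (hx : ‖qu a x.1‖ < 1 / 4) :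
    ‖qw x.1‖ ^ 2 = 1 - ‖(a : ℂ) + qu a x.1‖ ^ 2 ∧ qw x.1 ≠ 0 := by
  have hp := qpos ha hx
  have h1 : ‖qw x.1‖ ^ 2 = x.1 2 ^ 2 + x.1 3 ^ 2 + x.1 4 ^ 2 := by
    rw [EuclideanSpace.norm_sq_eq, Fin.sum_univ_three]
    simp only [Real.norm_eq_abs, sq_abs]
    rfl
  have h2 := qx_sq x
  have h3 := qsq a (qu a x.1)
  have h4 : (qu a x.1).re = x.1 0 - a := by simp [qu]
  have h5 : (qu a x.1).im = x.1 1 := by simp [qu]
  rw [h4, h5] at h3
  have h6 : ‖qw x.1‖ ^ 2 = 1 - ‖(a : ℂ) + qu a x.1‖ ^ 2 := by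
    rw [h1, h3]
    linear_combination h2
  refine ⟨h6, fun h0 => ?_⟩
  rw [h0, norm_zero] at h6
  have : (0 : ℝ) ^ 2 = 0 := by norm_num
  linarith

private theorem qQ_qR {a : ℝ} (ha : |a| ≤ 1 / 2) {x : S4} (hx : ‖qu a x.1‖ < 1 / 4) : qQ a (qR a x) = x := by
  obtain ⟨h1, h0⟩ := qw_ne ha hx
  have hs : √(1 - ‖(a : ℂ) + qu a x.1‖ ^ 2) = ‖qw x.1‖ := by
    rw [← h1, Real.sqrt_sq (norm_nonneg _)]
  have hn : ‖qw x.1‖ ≠ 0 := norm_ne_zero_iff.2 h0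
  apply Subtype.ext
  have e1 : (qQ a (qR a x)).1 = stdS a (qu a x.1) (qsph qe3 (qw x.1)) := qQ_coe ha hx _
  rw [e1]
  have h4 : (qu a x.1).re = x.1 0 - a := by simp [qu]
  have h5 : (qu a x.1).im = x.1 1 := by simp [qu]
  have e2 : (qsph qe3 (qw x.1)).1 = ‖qw x.1‖⁻¹ • qw x.1 := qsph_coe _ h0
  ext i
  fin_cases i
  · show a + (qu a x.1).re = x.1 0
    rw [h4]; ring
  · show (qu a x.1).im = x.1 1
    exact h5
  · show √(1 - ‖(a : ℂ) + qu a x.1‖ ^ 2) * (qsph qe3 (qw x.1)).1 0 = x.1 2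
    rw [hs, e2]
    show ‖qw x.1‖ * (‖qw x.1‖⁻¹ * x.1 2) = x.1 2
    rw [← mul_assoc, mul_inv_cancel₀ hn, one_mul]
  · show √(1 - ‖(a : ℂ) + qu a x.1‖ ^ 2) * (qsph qe3 (qw x.1)).1 1 = x.1 3
    rw [hs, e2]
    show ‖qw x.1‖ * (‖qw x.1‖⁻¹ * x.1 3) = x.1 3
    rw [← mul_assoc, mul_inv_cancel₀ hn, one_mul]
  · show √(1 - ‖(a : ℂ) + qu a x.1‖ ^ 2) * (qsph qe3 (qw x.1)).1 2 = x.1 4
    rw [hs, e2]
    show ‖qw x.1‖ * (‖qw x.1‖⁻¹ * x.1 4) = x.1 4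
    rw [← mul_assoc, mul_inv_cancel₀ hn, one_mul]

private theorem qu_std (a : ℝ) (z : ℂ) (v : S2) : qu a (stdS a z v) = z := by
  apply Complex.ext
  · have : (qu a (stdS a z v)).re = (a + z.re) - a := by simp [qu, stdS]
    rw [this]; ring
  · simp [qu, stdS]

private theorem qR_qQ {a : ℝ} (ha : |a| ≤ 1 / 2) {z : ℂ} (hz : ‖z‖ < 1 / 4) (v : S2) :
    qR a (qQ a (z, v)) = (z, v) := by
  have hp := qpos ha hz
  have hs : 0 < √(1 - ‖(a : ℂ) + z‖ ^ 2) := Real.sqrt_pos.2 hp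
  have e1 := qQ_coe ha hz v
  have e2 : qw (stdS a z v) = √(1 - ‖(a : ℂ) + z‖ ^ 2) • v.1 := by
    ext i
    fin_cases i <;> rfl
  have hv : ‖(v : E3)‖ = 1 := norm_eq_of_mem_sphere v
  have h0 : √(1 - ‖(a : ℂ) + z‖ ^ 2) • v.1 ≠ 0 := by
    rw [← norm_ne_zero_iff, norm_smul, hv, mul_one, Real.norm_eq_abs, abs_of_pos hs]
    exact hs.ne'
  refine Prod.ext ?_ ?_
  · show qu a (qQ a (z, v)).1 = z
    rw [e1, qu_std]
  · show qsph qe3 (qw (qQ a (z, v)).1) = v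
    rw [e1, e2]
    apply Subtype.ext
    rw [qsph_coe _ h0, norm_smul, hv, mul_one, Real.norm_eq_abs, abs_of_pos hs, smul_smul,
      inv_mul_cancel₀ hs.ne', one_smul]

private theorem qQ_smooth {a : ℝ} (ha : |a| ≤ 1 / 2) {z : ℂ} (hz : ‖z‖ < 1 / 4) (v : S2) :
    ContMDiffAt (𝓘(ℝ, ℂ).prod (𝓡 2)) (𝓡 4) ∞ (qQ a) (z, v) := by
  have hp := qpos ha hz
  have h := qstd_norm ha hz v
  have h0 : stdS a z v ≠ 0 := by
    intro h0
    rw [h0, norm_zero] at h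
    exact zero_ne_one h
  let F : ℂ × E3 → E5 := fun p => !₂[a + p.1.re, p.1.im, √(1 - ‖(a : ℂ) + p.1‖ ^ 2) * p.2 0,
    √(1 - ‖(a : ℂ) + p.1‖ ^ 2) * p.2 1, √(1 - ‖(a : ℂ) + p.1‖ ^ 2) * p.2 2]
  have hF : ContDiffAt ℝ ∞ F (z, v.1) := by
    have k0 : ContDiffAt ℝ ∞ (fun p : ℂ × E3 => √(1 - ‖(a : ℂ) + p.1‖ ^ 2)) (z, v.1) := by
      refine ContDiffAt.sqrt ?_ hp.ne'
      have : ContDiff ℝ ∞ fun p : ℂ × E3 => 1 - ‖(a : ℂ) + p.1‖ ^ 2 :=
        contDiff_const.sub ((contDiff_const.add contDiff_fst).norm_sq ℝ)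
      exact this.contDiffAt
    have k1 : ∀ i : Fin 3, ContDiffAt ℝ ∞ (fun p : ℂ × E3 => p.2 i) (z, v.1) := fun i =>
      ((EuclideanSpace.proj i : E3 →L[ℝ] ℝ).contDiff.comp contDiff_snd).contDiffAt
    have k2 : ContDiff ℝ ∞ fun p : ℂ × E3 => a + p.1.re :=
      contDiff_const.add (Complex.reCLM.contDiff.comp contDiff_fst)
    have k3 : ContDiff ℝ ∞ fun p : ℂ × E3 => p.1.im := Complex.imCLM.contDiff.comp contDiff_fst
    refine contDiffAt_euclidean.2 fun i => ?_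
    fin_cases i
    · exact k2.contDiffAt
    · exact k3.contDiffAt
    · exact k0.mul (k1 0)
    · exact k0.mul (k1 1)
    · exact k0.mul (k1 2)
  have hG : ContMDiffAt (𝓘(ℝ, ℂ).prod (𝓡 2)) 𝓘(ℝ, ℂ × E3) ∞ (fun p : ℂ × S2 => (p.1, (p.2 : E3))) (z, v) :=
    contMDiff_fst.contMDiffAt.prodMk_space
      ((contMDiff_coe_sphere (n := 2)).comp contMDiff_snd).contMDiffAt
  have hH : ContMDiffAt (𝓘(ℝ, ℂ).prod (𝓡 2)) 𝓘(ℝ, E5) ∞ (fun p : ℂ × S2 => stdS a p.1 p.2) (z, v) :=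
    ContMDiffAt.comp (z, v) (g := F) hF.contMDiffAt hG
  exact ContMDiffAt.comp (z, v) (g := qsph qe5) (qsph_smooth (n := 4) qe5 h0) hH

private theorem qR_smooth {a : ℝ} (ha : |a| ≤ 1 / 2) {x : S4} (hx : ‖qu a x.1‖ < 1 / 4) :
    ContMDiffAt (𝓡 4) (𝓘(ℝ, ℂ).prod (𝓡 2)) ∞ (qR a) x := by
  obtain ⟨-, h0⟩ := qw_ne ha hx
  have h1 : ContMDiffAt (𝓡 4) 𝓘(ℝ, ℂ) ∞ (fun x : S4 => qu a x.1) x :=
    ((qu_contDiff a).contMDiff.comp (contMDiff_coe_sphere (n := 4))).contMDiffAt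
  have h2 : ContMDiffAt (𝓡 4) 𝓘(ℝ, E3) ∞ (fun x : S4 => qw x.1) x :=
    (qw_contDiff.contMDiff.comp (contMDiff_coe_sphere (n := 4))).contMDiffAt
  exact h1.prodMk (ContMDiffAt.comp x (g := qsph qe3) (qsph_smooth (n := 2) qe3 h0) h2)

/-- the standard thick sphere as a partial diffeomorphism -/
private noncomputable def qPD {a : ℝ} (ha : |a| ≤ 1 / 2) :
    PartialDiffeomorph (𝓘(ℝ, ℂ).prod (𝓡 2)) (𝓡 4) (ℂ × S2) S4 ∞ where
  toFun := qQ a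
  invFun := qR a
  source := {p | ‖p.1‖ < 1 / 4}
  target := {x | ‖qu a x.1‖ < 1 / 4}
  map_source' := fun p hp => by
    show ‖qu a (qQ a (p.1, p.2)).1‖ < 1 / 4
    rw [qQ_coe ha hp, qu_std]
    exact hp
  map_target' := fun x hx => hx
  left_inv' := fun p hp => qR_qQ ha hp p.2
  right_inv' := fun x hx => qQ_qR ha hx
  open_source := isOpen_lt (continuous_norm.comp continuous_fst) continuous_const
  open_target := isOpen_lt (continuous_norm.comp ((qu_contDiff a).continuous.comp continuous_subtype_val))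
    continuous_const
  contMDiffOn_toFun := fun p hp => (qQ_smooth ha hp p.2).contMDiffWithinAt
  contMDiffOn_invFun := fun x hx => (qR_smooth ha hx).contMDiffWithinAt

private theorem qsT_aux (a : ℝ) (ha : |a| ≤ 1 / 2) :
    ∃ Q : ℂ × S2 → S4, (∀ (z : ℂ) (v : S2), ‖z‖ < 1 / 4 → (Q (z, v)).1 = stdS a z v) ∧
      (∀ (z : ℂ) (v : S2), ‖z‖ < 1 / 4 → IsLocalDiffeomorphAt (𝓘(ℝ, ℂ).prod (𝓡 2)) (𝓡 4) ∞ Q (z, v)) ∧
      ∀ (z : ℂ) (v : S2) (z' : ℂ) (v' : S2), ‖z‖ < 1 / 4 → ‖z'‖ < 1 / 4 → Q (z, v) = Q (z', v') →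
        z = z' ∧ v = v' := by
  refine ⟨qQ a, fun z v hz => qQ_coe ha hz v, fun z v hz => ⟨qPD ha, hz, fun p _ => rfl⟩, ?_⟩
  intro z v z' v' hz hz' h
  have h1 := qR_qQ ha hz v
  rw [h, qR_qQ ha hz' v'] at h1
  exact ⟨(congrArg Prod.fst h1).symm, (congrArg Prod.snd h1).symm⟩

end

theorem std_sphere (a : ℝ) (ha : |a| ≤ 1 / 2) :
    ∃ Q : ℂ × S2 → S4, (∀ (z : ℂ) (v : S2), ‖z‖ < 1 / 4 → (Q (z, v)).1 = stdS a z v) ∧
      (∀ (z : ℂ) (v : S2), ‖z‖ < 1 / 4 → IsLocalDiffeomorphAt (𝓘(ℝ, ℂ).prod (𝓡 2)) (𝓡 4) ∞ Q (z, v)) ∧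
      ∀ (z : ℂ) (v : S2) (z' : ℂ) (v' : S2), ‖z‖ < 1 / 4 → ‖z'‖ < 1 / 4 → Q (z, v) = Q (z', v') →
        z = z' ∧ v = v' := by
  exact qsT_aux a ha

end Pool.Agent.ACB
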