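import Pool.Agent.ACB.Bal

/-!
# ACB/SoT: solid tori in E4

`sol c (l, v) = ((1 + v 0) cos 2πl + c, (1 + v 0) sin 2πl, v 1, v 2)`.

PROOFS.  `sol_loc`: the derivative at `(l, v)` is invertible (`1 + v 0 > 0`; determinant `2π (1 + v 0)`), inverse function theorem; or explicit local inverse: with `ζ = (y 0 - c) + i y 1 ≠ 0`:
`l = l₀ + arg (ζ / ex l₀) / 2π`, `v = (|ζ| - 1, y 2, y 3)`.  `sol_inj`: `|ζ| = 1 + v 0 > 0` determines `v 0`; the arguments agree modulo `2π ℤ`.  `sol_disj`: `y 0 ≤ 2` for `c = 0`, `y 0 ≥ 8` for `c = 10`.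
-/

open scoped ContDiff Manifold Topology unitInterval
open Set Filter

namespace Pool.Agent.ACB

universe u
variable {N : Type u} [TopologicalSpace N] [ChartedSpace E4 N]

/-- an open solid torus in `E4` -/
noncomputable def sol (c : ℝ) (x : ℝ × E3) : E4 :=
  !₂[(1 + x.2 0) * Real.cos (2 * Real.pi * x.1) + c, (1 + x.2 0) * Real.sin (2 * Real.pi * x.1), x.2 1, x.2 2]

theorem SoT_co (i : Fin 3) : ContDiff ℝ ∞ fun x : ℝ × E3 => x.2 i :=
  (EuclideanSpace.proj (𝕜 := ℝ) i).contDiff.comp contDiff_snd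

theorem SoT_co4 (i : Fin 4) : ContDiff ℝ ∞ fun y : E4 => y i :=
  (EuclideanSpace.proj (𝕜 := ℝ) i).contDiff

/-- the complex coordinate, rotated by `-l` turns -/
noncomputable def SoT_w (c l : ℝ) (y : E4) : ℂ :=
  (((y 0 - c : ℝ) : ℂ) + ((y 1 : ℝ) : ℂ) * Complex.I) *
    (((Real.cos (2 * Real.pi * l) : ℝ) : ℂ) - ((Real.sin (2 * Real.pi * l) : ℝ) : ℂ) * Complex.I)

/-- the local inverse -/
noncomputable def SoT_g (c l : ℝ) (y : E4) : ℝ × E3 :=
  (l + (SoT_w c l y).arg / (2 * Real.pi), !₂[‖SoT_w c l y‖ - 1, y 2, y 3])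

theorem SoT_val (c l l' : ℝ) (v : E3) : SoT_w c l (sol c (l', v)) = ((1 + v 0 : ℝ) : ℂ) *
    (Complex.cos ((2 * Real.pi * (l' - l) : ℝ) : ℂ) + Complex.sin ((2 * Real.pi * (l' - l) : ℝ) : ℂ) * Complex.I) := by
  have e : 2 * Real.pi * (l' - l) = 2 * Real.pi * l' - 2 * Real.pi * l := by ring
  have e1 : sol c (l', v) 0 - c = (1 + v 0) * Real.cos (2 * Real.pi * l') := by
    show (1 + v 0) * Real.cos (2 * Real.pi * l') + c - c = _
    ring
  have e2 : sol c (l', v) 1 = (1 + v 0) * Real.sin (2 * Real.pi * l') := rfl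
  unfold SoT_w
  rw [e1, e2, ← Complex.ofReal_cos, ← Complex.ofReal_sin, e, Real.cos_sub, Real.sin_sub]
  apply Complex.ext <;> simp <;> ring

theorem SoT_arg {c l l' : ℝ} {v : E3} (hv : -1 < v 0) (h : 2 * Real.pi * (l' - l) ∈ Ioc (-Real.pi) Real.pi) :
    (SoT_w c l (sol c (l', v))).arg = 2 * Real.pi * (l' - l) := by
  rw [SoT_val]
  exact Complex.arg_mul_cos_add_sin_mul_I (by linarith) h

theorem SoT_norm {c l l' : ℝ} {v : E3} (hv : -1 < v 0) : ‖SoT_w c l (sol c (l', v))‖ = 1 + v 0 := by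
  rw [SoT_val, norm_mul, ← Complex.exp_mul_I, Complex.norm_exp_ofReal_mul_I, mul_one, Complex.norm_real,
    Real.norm_of_nonneg (by linarith)]

theorem SoT_back (c l : ℝ) (y : E4) :
    (1 + (‖SoT_w c l y‖ - 1)) * Real.cos (2 * Real.pi * (l + (SoT_w c l y).arg / (2 * Real.pi))) = y 0 - c ∧
    (1 + (‖SoT_w c l y‖ - 1)) * Real.sin (2 * Real.pi * (l + (SoT_w c l y).arg / (2 * Real.pi))) = y 1 := by
  have e : 2 * Real.pi * (l + (SoT_w c l y).arg / (2 * Real.pi)) = 2 * Real.pi * l + (SoT_w c l y).arg := by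
    field_simp
  have h1 : ‖SoT_w c l y‖ * Real.cos (SoT_w c l y).arg = (SoT_w c l y).re := Complex.norm_mul_cos_arg _
  have h2 : ‖SoT_w c l y‖ * Real.sin (SoT_w c l y).arg = (SoT_w c l y).im := Complex.norm_mul_sin_arg _
  have h3 : (SoT_w c l y).re = (y 0 - c) * Real.cos (2 * Real.pi * l) + y 1 * Real.sin (2 * Real.pi * l) := by
    unfold SoT_w
    generalize Real.cos (2 * Real.pi * l) = C
    generalize Real.sin (2 * Real.pi * l) = S
    simp
  have h4 : (SoT_w c l y).im = y 1 * Real.cos (2 * Real.pi * l) - (y 0 - c) * Real.sin (2 * Real.pi * l) := by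
    unfold SoT_w
    generalize Real.cos (2 * Real.pi * l) = C
    generalize Real.sin (2 * Real.pi * l) = S
    simp
    ring
  have h5 := Real.sin_sq_add_cos_sq (2 * Real.pi * l)
  rw [e, Real.cos_add, Real.sin_add, add_sub_cancel]
  constructor
  · have : ‖SoT_w c l y‖ * (Real.cos (2 * Real.pi * l) * Real.cos (SoT_w c l y).arg -
        Real.sin (2 * Real.pi * l) * Real.sin (SoT_w c l y).arg) =
        Real.cos (2 * Real.pi * l) * (‖SoT_w c l y‖ * Real.cos (SoT_w c l y).arg) -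
        Real.sin (2 * Real.pi * l) * (‖SoT_w c l y‖ * Real.sin (SoT_w c l y).arg) := by ring
    rw [this, h1, h2, h3, h4]
    linear_combination (y 0 - c) * h5
  · have : ‖SoT_w c l y‖ * (Real.sin (2 * Real.pi * l) * Real.cos (SoT_w c l y).arg +
        Real.cos (2 * Real.pi * l) * Real.sin (SoT_w c l y).arg) =
        Real.sin (2 * Real.pi * l) * (‖SoT_w c l y‖ * Real.cos (SoT_w c l y).arg) +
        Real.cos (2 * Real.pi * l) * (‖SoT_w c l y‖ * Real.sin (SoT_w c l y).arg) := by ring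
    rw [this, h1, h2, h3, h4]
    linear_combination (y 1) * h5

theorem sol_loc (c l : ℝ) (v : E3) (hv : ‖v‖ < 1) :
    IsLocalDiffeomorphAt 𝓘(ℝ, ℝ × E3) (𝓡 4) ∞ (sol c) (l, v) := by
  have h2pi : (0 : ℝ) < 2 * Real.pi := by positivity
  have hv0 : -1 < v 0 := by
    have h1 : |v 0| ≤ ‖v‖ := PiLp.norm_apply_le v 0
    have h2 := neg_abs_le (v 0)
    linarith
  have hsm : ContDiff ℝ ∞ (sol c) := by
    rw [contDiff_euclidean]
    intro i
    have p0 : ContDiff ℝ ∞ fun x : ℝ × E3 => x.2 0 := SoT_co 0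
    have p1 : ContDiff ℝ ∞ fun x : ℝ × E3 => x.2 1 := SoT_co 1
    have p2 : ContDiff ℝ ∞ fun x : ℝ × E3 => x.2 2 := SoT_co 2
    have q : ContDiff ℝ ∞ fun x : ℝ × E3 => 2 * Real.pi * x.1 := contDiff_const.mul contDiff_fst
    fin_cases i
    · exact ((contDiff_const.add p0).mul (Real.contDiff_cos.comp q)).add contDiff_const
    · exact (contDiff_const.add p0).mul (Real.contDiff_sin.comp q)
    · exact p1
    · exact p2
  have hzc : ContDiff ℝ ∞ (SoT_w c l) := by
    have r0 : ContDiff ℝ ∞ fun y : E4 => y 0 := SoT_co4 0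
    have r1 : ContDiff ℝ ∞ fun y : E4 => y 1 := SoT_co4 1
    have h1 : ContDiff ℝ ∞ fun y : E4 => (((y 0 - c : ℝ) : ℂ) + ((y 1 : ℝ) : ℂ) * Complex.I) :=
      (Complex.ofRealCLM.contDiff.comp (r0.sub contDiff_const)).add
        ((Complex.ofRealCLM.contDiff.comp r1).mul contDiff_const)
    exact h1.mul contDiff_const
  refine ⟨⟨⟨sol c, SoT_g c l, {x | |x.1 - l| < 1 / 2 ∧ -1 < x.2 0}, {y | SoT_w c l y ∈ Complex.slitPlane},
    ?_, ?_, ?_, ?_⟩, ?_, ?_, ?_, ?_⟩, ⟨by simp, hv0⟩, fun _ _ => rfl⟩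
  · rintro ⟨l', v'⟩ ⟨h1, h2⟩
    simp only at h1 h2
    show SoT_w c l (sol c (l', v')) ∈ Complex.slitPlane
    have h3 : 2 * Real.pi * (l' - l) ∈ Ioo (-Real.pi) Real.pi := by
      rw [abs_lt] at h1
      constructor <;> nlinarith [Real.pi_pos]
    rw [Complex.mem_slitPlane_iff_arg]
    rw [SoT_arg h2 ⟨h3.1, h3.2.le⟩, SoT_val]
    refine ⟨h3.2.ne, ?_⟩
    refine mul_ne_zero (by exact_mod_cast (by linarith : (1 : ℝ) + v' 0 ≠ 0)) ?_
    rw [← Complex.exp_mul_I]
    exact Complex.exp_ne_zero _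
  · intro y hy
    have hy' : SoT_w c l y ∈ Complex.slitPlane := hy
    rw [Complex.mem_slitPlane_iff_arg] at hy'
    have h1 := Complex.arg_le_pi (SoT_w c l y)
    have h2 := Complex.neg_pi_lt_arg (SoT_w c l y)
    have h3 : (SoT_w c l y).arg < Real.pi := lt_of_le_of_ne h1 hy'.1
    have h4 : 0 < ‖SoT_w c l y‖ := norm_pos_iff.mpr hy'.2
    constructor
    · show |l + (SoT_w c l y).arg / (2 * Real.pi) - l| < 1 / 2
      rw [add_sub_cancel_left, abs_lt, lt_div_iff₀ h2pi, div_lt_iff₀ h2pi]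
      constructor <;> linarith
    · show -1 < ‖SoT_w c l y‖ - 1
      linarith
  · rintro ⟨l', v'⟩ ⟨h1, h2⟩
    simp only at h1 h2
    have h3 : 2 * Real.pi * (l' - l) ∈ Ioc (-Real.pi) Real.pi := by
      rw [abs_lt] at h1
      constructor <;> nlinarith [Real.pi_pos]
    show (l + (SoT_w c l (sol c (l', v'))).arg / (2 * Real.pi),
      (!₂[‖SoT_w c l (sol c (l', v'))‖ - 1, sol c (l', v') 2, sol c (l', v') 3] : E3)) = (l', v')
    rw [SoT_arg h2 h3, SoT_norm h2]
    refine Prod.ext ?_ ?_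
    · simp only
      field_simp
      ring
    · ext i
      fin_cases i
      · show 1 + v' 0 - 1 = v' 0
        ring
      · rfl
      · rfl
  · intro y hy
    have h0 := SoT_back c l y
    ext i
    fin_cases i
    · show (1 + (‖SoT_w c l y‖ - 1)) * Real.cos (2 * Real.pi * (l + (SoT_w c l y).arg / (2 * Real.pi))) + c = y 0
      rw [h0.1]
      ring
    · show (1 + (‖SoT_w c l y‖ - 1)) * Real.sin (2 * Real.pi * (l + (SoT_w c l y).arg / (2 * Real.pi))) = y 1
      rw [h0.2]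
    · rfl
    · rfl
  · have c1 : Continuous fun x : ℝ × E3 => |x.1 - l| := by fun_prop
    have c2 : Continuous fun x : ℝ × E3 => x.2 0 := (SoT_co 0).continuous
    exact (isOpen_lt c1 continuous_const).inter (isOpen_lt continuous_const c2)
  · exact Complex.isOpen_slitPlane.preimage hzc.continuous
  · exact hsm.contMDiff.contMDiffOn
  · intro y hy
    have hy' : SoT_w c l y ∈ Complex.slitPlane := hy
    have hne : SoT_w c l y ≠ 0 := Complex.slitPlane_ne_zero hy'
    apply ContMDiffAt.contMDiffWithinAt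
    apply ContDiffAt.contMDiffAt
    have a1 : ContDiffAt ℝ ∞ (fun y => (SoT_w c l y).arg) y := by
      have a2 : ContDiffAt ℝ ∞ Complex.log (SoT_w c l y) := (Complex.contDiffAt_log hy').restrict_scalars ℝ
      have a3 : ContDiffAt ℝ ∞ (fun y => (Complex.log (SoT_w c l y)).im) y :=
        (Complex.imCLM.contDiff.contDiffAt).comp y (a2.comp y hzc.contDiffAt)
      simp only [Complex.log_im] at a3
      exact a3
    have a4 : ContDiffAt ℝ ∞ (fun y => ‖SoT_w c l y‖) y := hzc.contDiffAt.norm ℝ hne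
    have r2 : ContDiff ℝ ∞ fun y : E4 => y 2 := SoT_co4 2
    have r3 : ContDiff ℝ ∞ fun y : E4 => y 3 := SoT_co4 3
    refine ContDiffAt.prodMk (contDiffAt_const.add (a1.div_const _)) ?_
    rw [contDiffAt_euclidean]
    intro i
    fin_cases i
    · exact a4.sub contDiffAt_const
    · exact r2.contDiffAt
    · exact r3.contDiffAt

theorem sol_per (c l : ℝ) (v : E3) : sol c (l + 1, v) = sol c (l, v) := by
  have e : 2 * Real.pi * (l + 1) = 2 * Real.pi * l + 2 * Real.pi := by ring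
  unfold sol
  simp only [e, Real.cos_add_two_pi, Real.sin_add_two_pi]

theorem sol_inj {c l l' : ℝ} {v v' : E3} (hv : ‖v‖ < 1) (hv' : ‖v'‖ < 1) (h : sol c (l, v) = sol c (l', v')) :
    v = v' ∧ ∃ m : ℤ, l' = l + m := by
  have hv0 : -1 < v 0 := by
    have h1 : |v 0| ≤ ‖v‖ := PiLp.norm_apply_le v 0
    have h2 := neg_abs_le (v 0)
    linarith
  have hv0' : -1 < v' 0 := by
    have h1 : |v' 0| ≤ ‖v'‖ := PiLp.norm_apply_le v' 0
    have h2 := neg_abs_le (v' 0)
    linarith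
  have e0 := congrFun (congrArg WithLp.ofLp h) 0
  have e1 := congrFun (congrArg WithLp.ofLp h) 1
  have e2 := congrFun (congrArg WithLp.ofLp h) 2
  have e3 := congrFun (congrArg WithLp.ofLp h) 3
  change (1 + v 0) * Real.cos (2 * Real.pi * l) + c = (1 + v' 0) * Real.cos (2 * Real.pi * l') + c at e0
  change (1 + v 0) * Real.sin (2 * Real.pi * l) = (1 + v' 0) * Real.sin (2 * Real.pi * l') at e1
  change v 1 = v' 1 at e2
  change v 2 = v' 2 at e3
  have e0' : (1 + v 0) * Real.cos (2 * Real.pi * l) = (1 + v' 0) * Real.cos (2 * Real.pi * l') := by linarith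
  have h1 := Real.sin_sq_add_cos_sq (2 * Real.pi * l)
  have h2 := Real.sin_sq_add_cos_sq (2 * Real.pi * l')
  have h3 : (1 + v 0) ^ 2 = (1 + v' 0) ^ 2 := by
    have a1 : ((1 + v 0) * Real.cos (2 * Real.pi * l)) ^ 2 + ((1 + v 0) * Real.sin (2 * Real.pi * l)) ^ 2 = (1 + v 0) ^ 2 := by
      linear_combination (1 + v 0) ^ 2 * h1
    have a2 : ((1 + v' 0) * Real.cos (2 * Real.pi * l')) ^ 2 + ((1 + v' 0) * Real.sin (2 * Real.pi * l')) ^ 2 = (1 + v' 0) ^ 2 := by
      linear_combination (1 + v' 0) ^ 2 * h2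
    rw [← a1, ← a2, e0', e1]
  have h4 : 1 + v 0 = 1 + v' 0 := by
    have := (sq_eq_sq₀ (by linarith : 0 ≤ 1 + v 0) (by linarith : 0 ≤ 1 + v' 0)).mp h3
    exact this
  have h5 : v 0 = v' 0 := by linarith
  constructor
  · ext i
    fin_cases i
    · exact h5
    · exact e2
    · exact e3
  · rw [h4] at e0' e1
    have hp : (1 + v' 0) ≠ 0 := by linarith
    have c1 := mul_left_cancel₀ hp e0'
    have c2 := mul_left_cancel₀ hp e1
    have h6 : Complex.exp ((2 * Real.pi * l' : ℝ) * Complex.I) = Complex.exp ((2 * Real.pi * l : ℝ) * Complex.I) := by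
      rw [Complex.exp_mul_I, Complex.exp_mul_I, ← Complex.ofReal_cos, ← Complex.ofReal_sin, ← Complex.ofReal_cos,
        ← Complex.ofReal_sin, c1, c2]
    obtain ⟨m, hm⟩ := Complex.exp_eq_exp_iff_exists_int.mp h6
    refine ⟨m, ?_⟩
    have h7 := congrArg Complex.im hm
    have h8 : 2 * Real.pi * l' = 2 * Real.pi * l + m * (2 * Real.pi) := by
      simpa using h7
    have h9 : (2 * Real.pi) * l' = (2 * Real.pi) * (l + m) := by linarith
    exact mul_left_cancel₀ (by positivity) h9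

theorem sol_disj {l l' : ℝ} {v v' : E3} (hv : ‖v‖ < 1) (hv' : ‖v'‖ < 1) : sol 0 (l, v) ≠ sol 10 (l', v') := by
  intro h
  have e0 := congrFun (congrArg WithLp.ofLp h) 0
  change (1 + v 0) * Real.cos (2 * Real.pi * l) + 0 = (1 + v' 0) * Real.cos (2 * Real.pi * l') + 10 at e0
  have h1 : |v 0| ≤ ‖v‖ := PiLp.norm_apply_le v 0
  have h1' : |v' 0| ≤ ‖v'‖ := PiLp.norm_apply_le v' 0
  have h2 := abs_lt.mp (lt_of_le_of_lt h1 hv)
  have h2' := abs_lt.mp (lt_of_le_of_lt h1' hv')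
  have h3 := Real.cos_le_one (2 * Real.pi * l)
  have h4 := Real.neg_one_le_cos (2 * Real.pi * l')
  nlinarith [h2.1, h2.2, h2'.1, h2'.2]

end Pool.Agent.ACB
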