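import Pool.Agent.ACB.Bal
import Pool.Agent.ACB.QsT
import Pool.Agent.ACB.SoT
import Pool.Agent.ACB.GluM
import Pool.Agent.ACB.Tbe
import Pool.Agent.ACB.PlT

/-!
# ACB/ExD: the double exists

PROOF.  Let `Q₁, Q₂` be the spheres of `std_sphere` for `a = -1/2, 1/2`.  For `x ∈ S4` let `u x = x 0 + i x 1`.  `glue_mfd` with `N = S4`, `X₀ = {x | u x ≠ -1/2 ∧ u x ≠ 1/2}` (open, not empty), `T c = sol c '' {(l, v) | ‖v‖ < 1/4}`
(open by `sol_loc`), `Y = T 0 ∪ T 10`, `Y₁` = the points with `v ≠ 0` (open), `θ (sol 0 (l, v)) = Q₁ (‖v‖ ex l, v / ‖v‖)`, `θ (sol 10 (l, v)) = Q₂ (‖v‖ ex l, v / ‖v‖)` (well defined by `sol_inj`, `sol_disj`, `ex` is `1`-periodic; choose).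
`hθ`: near a point of `Y₁` `θ` is the composition of a local inverse of `sol c`, of `(l, v) ↦ (‖v‖ ex l, v / ‖v‖)` (local diffeomorphism for `v ≠ 0`: see `ACB/PlT`; inverse `(z, w) ↦ (l₀ + arg (z / z₀) / 2π, ‖z‖ w)`) and of `Q i`.
`hθi`: `Q i` injective, the images of `Q₁` and `Q₂` are disjoint (`|u + 1/2| < 1/4`, `|u - 1/2| < 1/4`).  `hθX`: `u (Q₁ (z, w)) = -1/2 + z ≠ -1/2`, and `≠ 1/2` since `|z| < 1/4`; same for `Q₂`.
`hsep`: `y = sol 0 (l, 0)`, `x ∈ X₀`, `δ = |u x + 1/2| / 2 > 0`: `U = sol 0 '' {‖v‖ < min δ (1/4)} ` (neighbourhood of `y`; it is disjoint from `T 10`), `W = {x' | |u x' + 1/2| > δ}`; same for `sol 10`.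
Result: `V = M`, `A : S4 → M`, `B : E4 → M`.  `k₁ x = B (sol 0 x)`, `k₂ x = B (sol 10 x)`: thick of radius `1/4`, disjoint tubes (`Tubes`).  Surgery on `M` along `k₁, k₂` with result `S4`: `S.A` is an inverse of `A`: `S.A (A x) = x` for `x ∈ X₀` (`Off ![k₁, k₂] q`
iff `q ∈ A '' X₀`: the points of `M` off `A '' X₀` are the `B y`, `y ∈ Y ∖ Y₁`, i.e. the points `k_i (l, 0)`), local diffeomorphism; `S.Q 0 = Q₁`, `S.Q 1 = Q₂`.
`glue`: `0 < r < 1/4`, `w ∈ S2`: `k₁ (l, r w) = B (sol 0 (l, r w)) = A (θ _) = A (Q₁ (r ex l, w))`, so `S.A (k₁ (l, r w)) = Q₁ (r ex l, w)`.  `Q_inj`, `disj`: coordinates `u`.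
`cover`: `x ∈ S4` with `u x = -1/2`: `x = stdS (-1/2) 0 v = Q₁ (0, v)` with `v = w / ‖w‖` (`|w|² = 3/4`).
-/

open scoped ContDiff Manifold Topology unitInterval
open Set Filter

namespace Pool.Agent.ACB

universe u
variable {N : Type u} [TopologicalSpace N] [ChartedSpace E4 N]

/-- being a local diffeomorphism at a point is a local property -/
theorem exd_congr {M M' : Type*} [TopologicalSpace M] [ChartedSpace E4 M] [TopologicalSpace M']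
    [ChartedSpace E4 M'] {f g : M → M'} {x : M} (hf : IsLocalDiffeomorphAt (𝓡 4) (𝓡 4) ∞ f x)
    (h : g =ᶠ[𝓝 x] f) : IsLocalDiffeomorphAt (𝓡 4) (𝓡 4) ∞ g x := by
  obtain ⟨Φ, hx, he⟩ := hf
  obtain ⟨U, hU, hUo, hxU⟩ := mem_nhds_iff.mp h
  have hc : ContinuousOn Φ.toPartialEquiv.symm Φ.target := Φ.contMDiffOn_invFun.continuousOn
  refine ⟨⟨⟨Φ.toFun, Φ.invFun, Φ.source ∩ U, Φ.target ∩ Φ.toPartialEquiv.symm ⁻¹' U, ?_, ?_, ?_, ?_⟩,
    Φ.open_source.inter hUo, hc.isOpen_inter_preimage Φ.open_target hUo,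
    Φ.contMDiffOn_toFun.mono inter_subset_left, Φ.contMDiffOn_invFun.mono inter_subset_left⟩, ⟨hx, hxU⟩, ?_⟩
  · rintro y ⟨hy, hyU⟩
    refine ⟨Φ.map_source hy, ?_⟩
    show Φ.toPartialEquiv.symm (Φ.toPartialEquiv y) ∈ U
    rw [Φ.left_inv hy]
    exact hyU
  · rintro y ⟨hy, hyU⟩
    exact ⟨Φ.map_target hy, hyU⟩
  · rintro y ⟨hy, hyU⟩
    exact Φ.left_inv hy
  · rintro y ⟨hy, hyU⟩
    exact Φ.right_inv hy
  · rintro y ⟨hy, hyU⟩
    show g y = Φ.toPartialEquiv y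
    have h1 : g y = f y := hU hyU
    rw [h1]
    exact he hy

theorem exd_open {E H : Type*} [NormedAddCommGroup E] [NormedSpace ℝ E] [TopologicalSpace H]
    {J : ModelWithCorners ℝ E H} {M M' : Type*} [TopologicalSpace M] [ChartedSpace H M] [TopologicalSpace M']
    [ChartedSpace E4 M'] {f : M → M'} {C : Set M} (hC : IsOpen C)
    (hf : ∀ x ∈ C, IsLocalDiffeomorphAt J (𝓡 4) ∞ f x) : IsOpen (f '' C) := by
  rw [isOpen_iff_mem_nhds]
  rintro _ ⟨x, hx, rfl⟩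
  obtain ⟨Φ, hxΦ, he⟩ := hf x hx
  have h1 : IsOpen (Φ.toOpenPartialHomeomorph '' (Φ.toOpenPartialHomeomorph.source ∩ C)) :=
    Φ.toOpenPartialHomeomorph.isOpen_image_source_inter hC
  refine mem_of_superset (h1.mem_nhds ⟨x, ⟨hxΦ, hx⟩, ?_⟩) ?_
  · exact (he hxΦ).symm
  · rintro _ ⟨y, ⟨hy, hyC⟩, rfl⟩
    exact ⟨y, hyC, he hy⟩

/-- an inverse of an injective local diffeomorphism is a local diffeomorphism -/
theorem exd_inv {M M' : Type*} [TopologicalSpace M] [ChartedSpace E4 M] [TopologicalSpace M']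
    [ChartedSpace E4 M'] {f : M → M'} {C : Set M} (hC : IsOpen C)
    (hf : ∀ x ∈ C, IsLocalDiffeomorphAt (𝓡 4) (𝓡 4) ∞ f x) {R : M' → M} (hR : ∀ x ∈ C, R (f x) = x)
    {x : M} (hx : x ∈ C) : IsLocalDiffeomorphAt (𝓡 4) (𝓡 4) ∞ R (f x) := by
  obtain ⟨Φ, hxΦ, he⟩ := hf x hx
  have h0 : f x = Φ.toPartialEquiv x := he hxΦ
  have h2 : IsLocalDiffeomorphAt (𝓡 4) (𝓡 4) ∞ Φ.symm (f x) := by
    refine ⟨Φ.symm, ?_, fun y _ => rfl⟩
    show f x ∈ Φ.target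
    rw [h0]
    exact Φ.map_source hxΦ
  refine exd_congr h2 ?_
  have h1 : IsOpen (Φ.toOpenPartialHomeomorph '' (Φ.toOpenPartialHomeomorph.source ∩ C)) :=
    Φ.toOpenPartialHomeomorph.isOpen_image_source_inter hC
  refine mem_of_superset (h1.mem_nhds ⟨x, ⟨hxΦ, hx⟩, h0.symm⟩) ?_
  rintro _ ⟨y, ⟨hy, hyC⟩, rfl⟩
  show R (Φ.toPartialEquiv y) = Φ.toPartialEquiv.symm (Φ.toPartialEquiv y)
  have h3 : Φ.toPartialEquiv.symm (Φ.toPartialEquiv y) = y := Φ.left_inv hy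
  have h4 : Φ.toPartialEquiv y = f y := (he hy).symm
  rw [h3, h4, hR y hyC]

/-- the translations of the two solid tori -/
def exd_c (i : Fin 2) : ℝ := ![0, 10] i

/-- the two points -/
noncomputable def exd_a (i : Fin 2) : ℝ := ![-1 / 2, 1 / 2] i

/-- the first complex coordinate -/
def exd_u (x : S4) : ℂ := ⟨x.1 0, x.1 1⟩

theorem exd_u_cont : Continuous exd_u := by
  have h : exd_u = fun x : S4 => ((x.1 0 : ℝ) : ℂ) + ((x.1 1 : ℝ) : ℂ) * Complex.I := by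
    funext x
    apply Complex.ext <;> simp [exd_u]
  rw [h]
  fun_prop

theorem exd_a_abs (i : Fin 2) : |exd_a i| = 1 / 2 := by
  unfold exd_a
  fin_cases i
  · norm_num [abs_of_neg]
  · simp

theorem exd_a_ne {i j : Fin 2} (h : i ≠ j) : ‖((exd_a i : ℝ) : ℂ) - ((exd_a j : ℝ) : ℂ)‖ = 1 := by
  rw [← Complex.ofReal_sub, Complex.norm_real, Real.norm_eq_abs]
  unfold exd_a
  fin_cases i <;> fin_cases j
  · exact absurd rfl h
  · simp only [Fin.zero_eta, Fin.mk_one, Matrix.cons_val_zero, Matrix.cons_val_one]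
    rw [show (-1 / 2 - 1 / 2 : ℝ) = -1 by norm_num]
    simp
  · simp only [Fin.zero_eta, Fin.mk_one, Matrix.cons_val_zero, Matrix.cons_val_one]
    rw [show (1 / 2 - -1 / 2 : ℝ) = 1 by norm_num]
    simp
  · exact absurd rfl h

theorem exd_a_eq {i j : Fin 2} {z z' : ℂ} (hz : ‖z‖ < 1 / 4) (hz' : ‖z'‖ < 1 / 4)
    (h : ((exd_a i : ℝ) : ℂ) + z = ((exd_a j : ℝ) : ℂ) + z') : i = j ∧ z = z' := by
  have h1 : i = j := by
    by_contra hne
    have h2 := exd_a_ne hne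
    have h3 : ((exd_a i : ℝ) : ℂ) - ((exd_a j : ℝ) : ℂ) = z' - z := by
      rw [sub_eq_sub_iff_add_eq_add, h, add_comm]
    rw [h3] at h2
    have h4 := norm_sub_le z' z
    linarith
  subst h1
  exact ⟨rfl, add_left_cancel h⟩

theorem exd_disj {i j : Fin 2} (h : i ≠ j) {l l' : ℝ} {v v' : E3} (hv : ‖v‖ < 1) (hv' : ‖v'‖ < 1) :
    sol (exd_c i) (l, v) ≠ sol (exd_c j) (l', v') := by
  unfold exd_c
  fin_cases i <;> fin_cases j
  · exact absurd rfl h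
  · exact sol_disj hv hv'
  · exact fun he => sol_disj hv' hv he.symm
  · exact absurd rfl h

theorem exd_sol {i j : Fin 2} {l l' : ℝ} {v v' : E3} (hv : ‖v‖ < 1) (hv' : ‖v'‖ < 1)
    (h : sol (exd_c i) (l, v) = sol (exd_c j) (l', v')) : i = j ∧ v = v' ∧ ∃ m : ℤ, l' = l + m := by
  have h1 : i = j := by
    by_contra hne
    exact exd_disj hne hv hv' h
  subst h1
  exact ⟨rfl, sol_inj hv hv' h⟩

theorem exd_thick (c : ℝ) : Thick (sol c) (1 / 4) :=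
  ⟨by norm_num, fun l v _ => sol_per c l v, fun l v hv => sol_loc c l v (by linarith),
    fun l v l' v' hv hv' h => sol_inj (by linarith) (by linarith) h⟩

theorem exd_norm (v : S2) : ‖v.1‖ = 1 := by simp

theorem exd_norm_smul {r : ℝ} (hr : 0 ≤ r) (v : S2) : ‖r • v.1‖ = r := by
  rw [norm_smul, exd_norm, mul_one, Real.norm_eq_abs, abs_of_nonneg hr]

theorem exd_ex (l : ℝ) : ‖ex l‖ = 1 := by
  unfold ex
  exact Complex.norm_exp_ofReal_mul_I _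

theorem exd_norm_ex {r : ℝ} (hr : 0 ≤ r) (l : ℝ) : ‖(r : ℂ) * ex l‖ = r := by
  rw [norm_mul, exd_ex, mul_one, Complex.norm_real, Real.norm_eq_abs, abs_of_nonneg hr]

/-- the direction of a vector -/
noncomputable def exd_dir (v : E3) (hv : v ≠ 0) : S2 :=
  ⟨‖v‖⁻¹ • v, by
    rw [mem_sphere_zero_iff_norm, norm_smul, norm_inv, norm_norm,
      inv_mul_cancel₀ (norm_ne_zero_iff.mpr hv)]⟩

theorem exd_dir_smul (v : E3) (hv : v ≠ 0) : ‖v‖ • (exd_dir v hv).1 = v := by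
  show ‖v‖ • (‖v‖⁻¹ • v) = v
  rw [smul_smul, mul_inv_cancel₀ (norm_ne_zero_iff.mpr hv), one_smul]

theorem exd_cover {i : Fin 2} {Q : ℂ × S2 → S4}
    (hQ : ∀ (z : ℂ) (v : S2), ‖z‖ < 1 / 4 → (Q (z, v)).1 = stdS (exd_a i) z v) {x : S4}
    (hx : exd_u x = ((exd_a i : ℝ) : ℂ)) : ∃ v : S2, x = Q (0, v) := by
  have h0 : x.1 0 = exd_a i := by
    have := congrArg Complex.re hx
    simpa [exd_u] using this
  have h1 : x.1 1 = 0 := by
    have := congrArg Complex.im hx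
    simpa [exd_u] using this
  have hn : ‖x.1‖ = 1 := by simp
  have hs : x.1 0 ^ 2 + x.1 1 ^ 2 + x.1 2 ^ 2 + x.1 3 ^ 2 + x.1 4 ^ 2 = 1 := by
    have h2 := EuclideanSpace.real_norm_sq_eq x.1
    rw [hn, Fin.sum_univ_five] at h2
    linarith
  have ha : exd_a i ^ 2 = 1 / 4 := by
    rw [← sq_abs, exd_a_abs]
    norm_num
  let w : E3 := !₂[x.1 2, x.1 3, x.1 4]
  have hw2 : ‖w‖ ^ 2 = 3 / 4 := by
    rw [EuclideanSpace.real_norm_sq_eq, Fin.sum_univ_three]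
    show x.1 2 ^ 2 + x.1 3 ^ 2 + x.1 4 ^ 2 = 3 / 4
    rw [h0, h1, ha] at hs
    linarith
  have hw0 : w ≠ 0 := by
    intro h
    rw [h, norm_zero] at hw2
    norm_num at hw2
  have hwn : √(1 - ‖((exd_a i : ℝ) : ℂ) + 0‖ ^ 2) = ‖w‖ := by
    rw [add_zero, Complex.norm_real, Real.norm_eq_abs, exd_a_abs, ← Real.sqrt_sq (norm_nonneg w), hw2]
    norm_num
  refine ⟨exd_dir w hw0, Subtype.ext ?_⟩
  rw [hQ 0 _ (by norm_num)]
  have hd : ∀ k, ‖w‖ * (exd_dir w hw0).1 k = w k := by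
    intro k
    have := congrArg (fun y : E3 => y k) (exd_dir_smul w hw0)
    simpa using this
  unfold stdS
  ext k
  fin_cases k
  · show x.1 0 = exd_a i + (0 : ℂ).re
    rw [h0, Complex.zero_re, add_zero]
  · show x.1 1 = (0 : ℂ).im
    rw [h1, Complex.zero_im]
  · show x.1 2 = √(1 - ‖((exd_a i : ℝ) : ℂ) + 0‖ ^ 2) * (exd_dir w hw0).1 0
    rw [hwn, hd]
    rfl
  · show x.1 3 = √(1 - ‖((exd_a i : ℝ) : ℂ) + 0‖ ^ 2) * (exd_dir w hw0).1 1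
    rw [hwn, hd]
    rfl
  · show x.1 4 = √(1 - ‖((exd_a i : ℝ) : ℂ) + 0‖ ^ 2) * (exd_dir w hw0).1 2
    rw [hwn, hd]
    rfl

theorem exd_main : ∃ (M : Type) (_ : TopologicalSpace M) (_ : ChartedSpace E4 M), IsManifold (𝓡 4) ∞ M ∧
    T2Space M ∧ ∃ k : Fin 2 → ℝ × E3 → M, Tubes k (1 / 4) ∧ ∃ S : Surg k (1 / 4) S4,
      ∀ (i : Fin 2) (z : ℂ) (v : S2), ‖z‖ < 1 / 4 → (S.Q i (z, v)).1 = stdS (exd_a i) z v := by
  have hQex : ∀ i : Fin 2, _ := fun i => std_sphere (exd_a i) (exd_a_abs i).le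
  choose Q hQ1 hQ2 hQ3 using hQex
  have hPex : ∀ i : Fin 2, _ := fun i => polar_map (exd_thick (exd_c i))
  choose P hP1 hP2 hP3 using hPex
  have hP : ∀ (i : Fin 2) (z : ℂ) (v : S2), 0 < ‖z‖ → ‖z‖ < 1 / 4 → ∃ l : ℝ,
      P i (z, v) = sol (exd_c i) (l, ‖z‖ • v.1) := by
    intro i z v h0 h1
    obtain ⟨l, hl⟩ := ex_polar z
    refine ⟨l, ?_⟩
    conv_lhs => rw [hl]
    exact hP1 i l ‖z‖ v h0 h1
  have hPP : ∀ (i j : Fin 2) (x x' : ℂ × S2), 0 < ‖x.1‖ → ‖x.1‖ < 1 / 4 → 0 < ‖x'.1‖ → ‖x'.1‖ < 1 / 4 →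
      P i x = P j x' → i = j ∧ x = x' := by
    rintro i j ⟨z, v⟩ ⟨z', v'⟩ h0 h1 h0' h1' he
    obtain ⟨l, hl⟩ := hP i z v h0 h1
    obtain ⟨l', hl'⟩ := hP j z' v' h0' h1'
    have he' := he
    rw [hl, hl'] at he'
    have h2 := exd_sol (by rw [exd_norm_smul h0.le]; linarith) (by rw [exd_norm_smul h0'.le]; linarith) he'
    obtain ⟨rfl, -⟩ := h2
    obtain ⟨h3, h4⟩ := hP3 i z v z' v' h0 h1 h0' h1' he
    exact ⟨rfl, by rw [h3, h4]⟩
  have hu : ∀ (i : Fin 2) (z : ℂ) (v : S2), ‖z‖ < 1 / 4 → exd_u (Q i (z, v)) = ((exd_a i : ℝ) : ℂ) + z := by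
    intro i z v hz
    unfold exd_u
    rw [hQ1 i z v hz]
    apply Complex.ext
    · show exd_a i + z.re = _
      simp
    · show z.im = _
      simp
  let X₀ : Set S4 := {x | ∀ i : Fin 2, exd_u x ≠ ((exd_a i : ℝ) : ℂ)}
  have hX₀ : IsOpen X₀ := by
    have h1 : X₀ = ⋂ i : Fin 2, {x | exd_u x ≠ ((exd_a i : ℝ) : ℂ)} := by
      ext x
      simp [X₀]
    rw [h1]
    exact isOpen_iInter_of_finite fun i => isOpen_ne_fun exd_u_cont continuous_const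
  have hQX : ∀ (i : Fin 2) (z : ℂ) (v : S2), 0 < ‖z‖ → ‖z‖ < 1 / 4 → Q i (z, v) ∈ X₀ := by
    intro i z v h0 h1 j hj
    rw [hu i z v h1] at hj
    have h2 := exd_a_eq (i := i) (j := j) (z := z) (z' := 0) h1 (by norm_num) (by rw [hj, add_zero])
    rw [h2.2, norm_zero] at h0
    exact lt_irrefl _ h0
  have hX₀ne : X₀.Nonempty := by
    have h1 : ‖((1 / 8 : ℝ) : ℂ)‖ = 1 / 8 := by
      rw [Complex.norm_real, Real.norm_eq_abs, abs_of_pos (by norm_num)]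
    exact ⟨_, hQX 0 ((1 / 8 : ℝ) : ℂ) ⟨EuclideanSpace.single 0 1, by simp⟩ (by rw [h1]; norm_num)
      (by rw [h1]; norm_num)⟩
  let Y : Set E4 := ⋃ i : Fin 2, sol (exd_c i) '' {x | ‖x.2‖ < 1 / 4}
  let Y₁ : Set E4 := ⋃ i : Fin 2, P i '' {x | 0 < ‖x.1‖ ∧ ‖x.1‖ < 1 / 4}
  have hY : IsOpen Y := by
    refine isOpen_iUnion fun i => exd_open (J := 𝓘(ℝ, ℝ × E3)) ?_ ?_
    · exact isOpen_lt (continuous_norm.comp continuous_snd) continuous_const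
    · rintro ⟨l, v⟩ hv
      exact sol_loc _ l v (by have : ‖v‖ < 1 / 4 := hv; linarith)
  have hY₁ : IsOpen Y₁ := by
    refine isOpen_iUnion fun i => exd_open (J := 𝓘(ℝ, ℂ).prod (𝓡 2)) ?_ ?_
    · exact (isOpen_lt continuous_const (continuous_norm.comp continuous_fst)).inter
        (isOpen_lt (continuous_norm.comp continuous_fst) continuous_const)
    · rintro ⟨z, v⟩ ⟨h0, h1⟩
      exact hP2 i z v h0 h1
  have hYY : Y₁ ⊆ Y := by
    intro y hy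
    obtain ⟨i, ⟨z, v⟩, ⟨h0, h1⟩, rfl⟩ := mem_iUnion.mp hy
    obtain ⟨l, hl⟩ := hP i z v h0 h1
    refine mem_iUnion.mpr ⟨i, (l, ‖z‖ • v.1), ?_, hl.symm⟩
    show ‖‖z‖ • v.1‖ < 1 / 4
    rw [exd_norm_smul h0.le]
    exact h1
  have hsolY : ∀ (i : Fin 2) (l : ℝ) (v : E3), ‖v‖ < 1 / 4 → sol (exd_c i) (l, v) ∈ Y :=
    fun i l v hv => mem_iUnion.mpr ⟨i, (l, v), hv, rfl⟩
  have hsolP : ∀ (i : Fin 2) (l : ℝ) (v : E3) (hv : v ≠ 0), ‖v‖ < 1 / 4 →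
      sol (exd_c i) (l, v) = P i ((‖v‖ : ℂ) * ex l, exd_dir v hv) := by
    intro i l v hv h1
    rw [hP1 i l ‖v‖ (exd_dir v hv) (norm_pos_iff.mpr hv) h1, exd_dir_smul]
  have hsolY₁ : ∀ (i : Fin 2) (l : ℝ) (v : E3), v ≠ 0 → ‖v‖ < 1 / 4 → sol (exd_c i) (l, v) ∈ Y₁ := by
    intro i l v hv h1
    refine mem_iUnion.mpr ⟨i, ((‖v‖ : ℂ) * ex l, exd_dir v hv), ⟨?_, ?_⟩, (hsolP i l v hv h1).symm⟩
    · show 0 < ‖(‖v‖ : ℂ) * ex l‖
      rw [exd_norm_ex (norm_nonneg v)]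
      exact norm_pos_iff.mpr hv
    · show ‖(‖v‖ : ℂ) * ex l‖ < 1 / 4
      rw [exd_norm_ex (norm_nonneg v)]
      exact h1
  have hcoreY₁ : ∀ (i : Fin 2) (l : ℝ), sol (exd_c i) (l, 0) ∉ Y₁ := by
    intro i l h
    obtain ⟨j, ⟨z, v⟩, ⟨h0, h1⟩, he⟩ := mem_iUnion.mp h
    obtain ⟨l', hl'⟩ := hP j z v h0 h1
    have h0' : 0 < ‖z‖ := h0
    have h1' : ‖z‖ < 1 / 4 := h1
    rw [hl'] at he
    have h2 := (exd_sol (by rw [exd_norm_smul h0'.le]; linarith) (by rw [norm_zero]; norm_num) he).2.1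
    have h3 := exd_norm_smul h0'.le v
    rw [h2, norm_zero] at h3
    linarith
  have hYcase : ∀ y ∈ Y, y ∉ Y₁ → ∃ (i : Fin 2) (l : ℝ), y = sol (exd_c i) (l, 0) := by
    intro y hy hy1
    obtain ⟨i, ⟨l, v⟩, h1, rfl⟩ := mem_iUnion.mp hy
    refine ⟨i, l, ?_⟩
    by_contra hne
    refine hy1 (hsolY₁ i l v ?_ h1)
    rintro rfl
    exact hne rfl
  -- the gluing map
  classical
  let θ : E4 → S4 := fun y =>
    if h : ∃ q : Fin 2 × (ℂ × S2), (0 < ‖q.2.1‖ ∧ ‖q.2.1‖ < 1 / 4) ∧ P q.1 q.2 = y then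
      Q h.choose.1 h.choose.2 else hX₀ne.some
  have hθe : ∀ (i : Fin 2) (x : ℂ × S2), 0 < ‖x.1‖ → ‖x.1‖ < 1 / 4 → θ (P i x) = Q i x := by
    intro i x h0 h1
    have hex : ∃ q : Fin 2 × (ℂ × S2), (0 < ‖q.2.1‖ ∧ ‖q.2.1‖ < 1 / 4) ∧ P q.1 q.2 = P i x :=
      ⟨(i, x), ⟨h0, h1⟩, rfl⟩
    have h2 : θ (P i x) = Q hex.choose.1 hex.choose.2 := dif_pos hex
    obtain ⟨⟨h3, h4⟩, h5⟩ := hex.choose_spec
    obtain ⟨h6, h7⟩ := hPP _ _ _ _ h3 h4 h0 h1 h5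
    rw [h2, h6, h7]
  have hθ : ∀ y ∈ Y₁, IsLocalDiffeomorphAt (𝓡 4) (𝓡 4) ∞ θ y := by
    intro y hy
    obtain ⟨i, ⟨z, v⟩, ⟨h0, h1⟩, rfl⟩ := mem_iUnion.mp hy
    have hl := hP2 i z v h0 h1
    have h2 : IsLocalDiffeomorphAt (𝓡 4) (𝓡 4) ∞ (Q i ∘ hl.localInverse) (P i (z, v)) := by
      refine hl.localInverse_isLocalDiffeomorphAt.comp (𝓡 4) S4 ?_
      rw [hl.localInverse_left_inv hl.localInverse_mem_target]
      exact hQ2 i z v h1
    refine exd_congr h2 ?_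
    have h3 : ContinuousAt hl.localInverse (P i (z, v)) := hl.localInverse_contMDiffAt.continuousAt
    have h4 : hl.localInverse (P i (z, v)) = (z, v) := hl.localInverse_left_inv hl.localInverse_mem_target
    have hopen : IsOpen {x : ℂ × S2 | 0 < ‖x.1‖ ∧ ‖x.1‖ < 1 / 4} :=
      (isOpen_lt continuous_const (continuous_norm.comp continuous_fst)).inter
        (isOpen_lt (continuous_norm.comp continuous_fst) continuous_const)
    have h5 : ∀ᶠ y in 𝓝 (P i (z, v)), hl.localInverse y ∈ {x : ℂ × S2 | 0 < ‖x.1‖ ∧ ‖x.1‖ < 1 / 4} := by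
      apply h3.eventually
      rw [h4]
      exact hopen.mem_nhds ⟨h0, h1⟩
    have h6 := hl.localInverse_eventuallyEq_right
    filter_upwards [h5, h6] with y' h7 h8
    have h9 : P i (hl.localInverse y') = y' := h8
    show θ y' = Q i (hl.localInverse y')
    conv_lhs => rw [← h9]
    exact hθe i _ h7.1 h7.2
  have hθi : InjOn θ Y₁ := by
    intro y hy y' hy' he
    obtain ⟨i, ⟨z, v⟩, ⟨h0, h1⟩, rfl⟩ := mem_iUnion.mp hy
    obtain ⟨j, ⟨z', v'⟩, ⟨h0', h1'⟩, rfl⟩ := mem_iUnion.mp hy'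
    rw [hθe i _ h0 h1, hθe j _ h0' h1'] at he
    have h2 : exd_u (Q i (z, v)) = exd_u (Q j (z', v')) := by rw [he]
    rw [hu i z v h1, hu j z' v' h1'] at h2
    obtain ⟨rfl, -⟩ := exd_a_eq h1 h1' h2
    obtain ⟨h3, h4⟩ := hQ3 i z v z' v' h1 h1' he
    rw [h3, h4]
  have hθX : MapsTo θ Y₁ X₀ := by
    intro y hy
    obtain ⟨i, ⟨z, v⟩, ⟨h0, h1⟩, rfl⟩ := mem_iUnion.mp hy
    rw [hθe i _ h0 h1]
    exact hQX i z v h0 h1
  have hsep : ∀ y ∈ Y, y ∉ Y₁ → ∀ x ∈ X₀, ∃ U ∈ 𝓝 y, ∃ W ∈ 𝓝 x, ∀ z ∈ U, z ∈ Y₁ → θ z ∉ W := by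
    intro y hy hy1 x hx
    obtain ⟨i, l, rfl⟩ := hYcase y hy hy1
    have hδ : 0 < ‖exd_u x - ((exd_a i : ℝ) : ℂ)‖ := norm_pos_iff.mpr (sub_ne_zero.mpr (hx i))
    obtain ⟨δ, hδe⟩ : ∃ δ : ℝ, δ = ‖exd_u x - ((exd_a i : ℝ) : ℂ)‖ / 2 := ⟨_, rfl⟩
    have hδ0 : 0 < δ := by rw [hδe]; linarith
    have hm : 0 < min δ (1 / 4) := lt_min hδ0 (by norm_num)
    refine ⟨sol (exd_c i) '' {x | ‖x.2‖ < min δ (1 / 4)}, ?_,
      {x' | δ < ‖exd_u x' - ((exd_a i : ℝ) : ℂ)‖}, ?_, ?_⟩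
    · refine (exd_open (J := 𝓘(ℝ, ℝ × E3)) ?_ ?_).mem_nhds ⟨(l, 0), ?_, rfl⟩
      · exact isOpen_lt (continuous_norm.comp continuous_snd) continuous_const
      · rintro ⟨l', v'⟩ hv'
        refine sol_loc _ l' v' ?_
        have h1 : ‖v'‖ < min δ (1 / 4) := hv'
        have h2 := min_le_right δ (1 / 4)
        linarith
      · show ‖(0 : E3)‖ < min δ (1 / 4)
        rw [norm_zero]
        exact hm
    · refine (isOpen_lt continuous_const ((exd_u_cont.sub continuous_const).norm)).mem_nhds ?_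
      show δ < ‖exd_u x - ((exd_a i : ℝ) : ℂ)‖
      rw [hδe]
      linarith
    · rintro _ ⟨⟨l', v'⟩, hv', rfl⟩ hz
      have h1 : ‖v'‖ < min δ (1 / 4) := hv'
      have h2 := min_le_right δ (1 / 4)
      have h2' := min_le_left δ (1 / 4)
      obtain ⟨j, ⟨ζ, w⟩, ⟨h3, h4⟩, he⟩ := mem_iUnion.mp hz
      have h3' : 0 < ‖ζ‖ := h3
      have h4' : ‖ζ‖ < 1 / 4 := h4
      obtain ⟨l'', hl''⟩ := hP j ζ w h3 h4
      have he' := he
      rw [hl''] at he'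
      obtain ⟨rfl, h5, -⟩ := exd_sol (by rw [exd_norm_smul h3'.le]; linarith) (by linarith) he'
      have h6 : ‖ζ‖ = ‖v'‖ := by rw [← h5, exd_norm_smul h3'.le]
      rw [← he, hθe j _ h3 h4]
      show ¬ (δ < ‖exd_u (Q j (ζ, w)) - ((exd_a j : ℝ) : ℂ)‖)
      rw [hu j ζ w h4, add_sub_cancel_left, h6]
      linarith
  obtain ⟨V, tV, cV, mV, t2V, A, B, hA, hAi, hB, hBi, hBA, hBd, hcov⟩ :=
    glue_mfd hX₀ hX₀ne hY hY₁ hYY hθ hθi hθX hsep
  let k : Fin 2 → ℝ × E3 → V := fun i x => B (sol (exd_c i) x)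
  have hT : Tubes k (1 / 4) := by
    refine ⟨fun i => ⟨by norm_num, ?_, ?_, ?_⟩, ?_⟩
    · intro l v _
      show B (sol (exd_c i) (l + 1, v)) = B (sol (exd_c i) (l, v))
      rw [sol_per]
    · intro l v hv
      exact (sol_loc (exd_c i) l v (by linarith)).comp (𝓡 4) V (hB _ (hsolY i l v hv))
    · intro l v l' v' hv hv' he
      exact sol_inj (by linarith) (by linarith) (hBi (hsolY i l v hv) (hsolY i l' v' hv') he)
    · intro i j hij l v l' v' hv hv' he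
      exact exd_disj hij (by linarith) (by linarith) (hBi (hsolY i l v hv) (hsolY j l' v' hv') he)
  have hoff1 : ∀ q, Off k q → ∃ x ∈ X₀, q = A x := by
    intro q hq
    rcases hcov q with h | ⟨y, hy, he⟩
    · exact h
    · by_cases hy1 : y ∈ Y₁
      · exact ⟨θ y, hθX hy1, by rw [he, hBA y hy1]⟩
      · obtain ⟨i, l, rfl⟩ := hYcase y hy hy1
        exact absurd he (hq i l)
  have hoff2 : ∀ x ∈ X₀, Off k (A x) := by
    intro x hx i l he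
    exact hBd _ (hsolY i l 0 (by rw [norm_zero]; norm_num)) (hcoreY₁ i l) x hx he.symm
  have : Nonempty S4 := ⟨hX₀ne.some⟩
  let A' : V → S4 := Function.invFunOn A X₀
  have hA' : ∀ x ∈ X₀, A' (A x) = x := fun x hx => hAi.leftInvOn_invFunOn hx
  let S : Surg k (1 / 4) S4 :=
    { A := A'
      Q := Q
      A_loc := by
        intro q hq
        obtain ⟨x, hx, rfl⟩ := hoff1 q hq
        exact exd_inv hX₀ hA hA' hx
      A_inj := by
        intro q q' hq hq' he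
        obtain ⟨x, hx, rfl⟩ := hoff1 q hq
        obtain ⟨x', hx', rfl⟩ := hoff1 q' hq'
        rw [hA' x hx, hA' x' hx'] at he
        rw [he]
      Q_loc := fun i z v hz => hQ2 i z v hz
      glue := by
        intro i l r v h0 h1
        show Q i (r * ex l, v) = A' (B (sol (exd_c i) (l, r • v.1)))
        have h2 : 0 < ‖(r : ℂ) * ex l‖ := by rw [exd_norm_ex h0.le]; exact h0
        have h3 : ‖(r : ℂ) * ex l‖ < 1 / 4 := by rw [exd_norm_ex h0.le]; exact h1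
        have h4 : P i ((r : ℂ) * ex l, v) ∈ Y₁ := mem_iUnion.mpr ⟨i, _, ⟨h2, h3⟩, rfl⟩
        rw [← hP1 i l r v h0 h1, hBA _ h4, hθe i _ h2 h3, hA' _ (hQX i _ v h2 h3)]
      Q_inj := by
        intro i j v v' he
        have h0 : ‖(0 : ℂ)‖ < 1 / 4 := by rw [norm_zero]; norm_num
        have h2 : exd_u (Q i (0, v)) = exd_u (Q j (0, v')) := by rw [he]
        rw [hu i 0 v h0, hu j 0 v' h0] at h2
        obtain ⟨rfl, -⟩ := exd_a_eq h0 h0 h2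
        exact ⟨rfl, (hQ3 i 0 v 0 v' h0 h0 he).2⟩
      disj := by
        intro i v q hq he
        obtain ⟨x, hx, rfl⟩ := hoff1 q hq
        have h0 : ‖(0 : ℂ)‖ < 1 / 4 := by rw [norm_zero]; norm_num
        rw [hA' x hx] at he
        refine hx i ?_
        rw [← he, hu i 0 v h0, add_zero]
      cover := by
        intro x
        by_cases hx : x ∈ X₀
        · exact Or.inl ⟨A x, hoff2 x hx, (hA' x hx).symm⟩
        · right
          have h1 : ∃ i : Fin 2, exd_u x = ((exd_a i : ℝ) : ℂ) := by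
            by_contra hcon
            push Not at hcon
            exact hx hcon
          obtain ⟨i, hi⟩ := h1
          obtain ⟨v, hv⟩ := exd_cover (hQ1 i) hi
          exact ⟨i, v, hv⟩ }
  exact ⟨V, tV, cV, mV, t2V, k, hT, S, fun i z v hz => hQ1 i z v hz⟩

/-- the double `(S¹ × S³) # (S¹ × S³)` exists -/
theorem exists_dbl : ∃ (M : Type) (_ : TopologicalSpace M) (_ : ChartedSpace E4 M), IsManifold (𝓡 4) ∞ M ∧
    T2Space M ∧ ∃ k₁ k₂ : ℝ × E3 → M, Nonempty (Dbl (-1 / 2) (1 / 2) k₁ k₂ (1 / 4)) := by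
  obtain ⟨M, tM, cM, mM, t2M, k, h⟩ := exd_main
  have hk : k = ![k 0, k 1] := by
    funext i
    fin_cases i <;> rfl
  rw [hk] at h
  obtain ⟨hT, S, hS⟩ := h
  refine ⟨M, tM, cM, mM, t2M, k 0, k 1, ⟨⟨S, hT, le_rfl, ?_, ?_, fun z v hz => hS 0 z v hz,
    fun z v hz => hS 1 z v hz⟩⟩⟩
  · exact exd_a_abs 0
  · norm_num

end Pool.Agent.ACB
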