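import Pool.Agent.ACB.Bal
import Pool.Agent.ACB.BsM
import Pool.Agent.ACB.BsE
import Pool.Agent.ACB.Acb

/-!
# ACB/Fin0: surgeries on the double along a pair AC-equivalent to the generators

PROOF.  `two_ac` (symmetric: `ACP.ACEquiv.symm` is not needed, use `h` as given): from `Two p P.1 P.2 X` to `Two p x y X`: `κ₁, κ₂` with `Cls p (core κ₁) x`, `Cls p (core κ₂) y`.  By `cls_unique`
(`Thick.circ` gives the periodicity) `FHom univ (core κ₁) (core k₁)` and the same for `κ₂`.  `base_move`, `base_case`.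
`map_ac`: a homomorphism maps moves to moves (`Relation.ReflTransGen.lift`).
-/

open scoped ContDiff Manifold Topology unitInterval
open Set Filter

namespace Pool.Agent.ACB

universe u
variable {N : Type u} [TopologicalSpace N] [ChartedSpace E4 N]

theorem map_ac {G H : Type} [Group G] [Group H] (φ : G →* H) {P P' : G × G} (h : ACP.ACEquiv P P') :
    ACP.ACEquiv (φ P.1, φ P.2) (φ P'.1, φ P'.2) := ACP.map φ h

theorem double_ac {M : Type} [TopologicalSpace M] [ChartedSpace E4 M] [T2Space M] [IsManifold (𝓡 4) ∞ M]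
    {k₁ k₂ : ℝ × E3 → M} {ε : ℝ} (D : Dbl (-1 / 2) (1 / 2) k₁ k₂ ε) {p : M} {x y : FundamentalGroup M p}
    (hx : Cls p (core k₁) x) (hy : Cls p (core k₂) y) {P : FundamentalGroup M p × FundamentalGroup M p}
    (hP : ACP.ACEquiv P (x, y)) {X : Type} [TopologicalSpace X] [ChartedSpace E4 X] (h : Two p P.1 P.2 X) :
    Nonempty (X ≃ₘ⟮𝓡 4, 𝓡 4⟯ S4) := by
  obtain ⟨κ₁, κ₂, hs, h1, h2⟩ : Two p x y X := two_ac hP h
  have hT : ∃ ε₀ : ℝ, Tubes ![κ₁, κ₂] ε₀ := by
    obtain ⟨ε₀, hT, -⟩ := hs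
    exact ⟨ε₀, hT⟩
  obtain ⟨ε₀, hT⟩ := hT
  have c1 : Circ (core κ₁) := Thick.circ (κ := κ₁) (by simpa using hT.thick 0)
  have c2 : Circ (core κ₂) := Thick.circ (κ := κ₂) (by simpa using hT.thick 1)
  have d1 : Circ (core k₁) := Thick.circ (κ := k₁) (by simpa using D.tub.thick 0)
  have d2 : Circ (core k₂) := Thick.circ (κ := k₂) (by simpa using D.tub.thick 1)
  obtain ⟨κ₁', κ₂', s3, e1, e2⟩ := base_move hs D.tub (cls_unique c1.per d1.per h1 hx)
    (cls_unique c2.per d2.per h2 hy)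
  exact base_case D s3 e1 e2

end Pool.Agent.ACB
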