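import Pool.Agent.ACB.Fin0
import Pool.Agent.ACB.ExD
import Pool.Agent.ACP.MS
import Pool.Agent.ACP.Gordon

/-!
# ACB/Main: homotopy 4-spheres of Andrews-Curtis trivial presentations
-/

open scoped ContDiff Manifold Topology unitInterval
open Set Filter

namespace Pool.Agent.ACB

open Pool.Agent.ACP

/-- The set of quadruples `(m, n; p, k)` generated by the basic family and the two symmetries. -/
inductive GT : ℤ → ℤ → ℤ → ℤ → Prop
  | base (m n p s c : ℤ) (i j : ℕ) (hs : s.natAbs = i + j) (h : s * n = p ∨ s * n = p + 1) :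
      GT m n p (m ^ i * (m + 1) ^ j * c)
  | swap (m n p k : ℤ) (h : GT m n p k) : GT p k m n
  | shift (m n p t : ℤ) (h : GT m n p (m * t)) : GT m n p ((m + 1) * t)
  | shift' (m n p t : ℤ) (h : GT m n p ((m + 1) * t)) : GT m n p (m * t)

theorem GT.triv {m n p k : ℤ} (h : GT m n p k) : Triv (Gordon m n p k) := by
  induction h with
  | base m n p s c i j hs h => exact gordon_triv m n p s c i j hs h
  | swap m n p k _ ih => exact (gordon_swap m n p k).mp ih
  | shift m n p t _ ih => exact (gordon_shift m n p t).mp ih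
  | shift' m n p t _ ih => exact (gordon_shift m n p t).mpr ih

/-- every AC-trivial pair of relators gives only the 4-sphere -/
theorem spheres {M : Type} [TopologicalSpace M] [ChartedSpace E4 M] [T2Space M] [IsManifold (𝓡 4) ∞ M]
    {k₁ k₂ : ℝ × E3 → M} {ε : ℝ} (D : Dbl (-1 / 2) (1 / 2) k₁ k₂ ε) {q : M}
    (φ : F →* FundamentalGroup M q) (hx : Cls q (core k₁) (φ x)) (hy : Cls q (core k₂) (φ y)) {P : F × F}
    (hP : Triv P) :
    Two q (φ P.1) (φ P.2) S4 ∧ ∀ (X : Type) [TopologicalSpace X] [ChartedSpace E4 X],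
      Two q (φ P.1) (φ P.2) X → Nonempty (X ≃ₘ⟮𝓡 4, 𝓡 4⟯ S4) := by
  constructor
  · exact two_ac (P := (φ x, φ y)) (P' := (φ P.1, φ P.2)) (map_ac φ hP).symm
      ⟨k₁, k₂, ⟨ε, D.tub, ⟨D.S⟩⟩, hx, hy⟩
  · intro X _ _ h
    exact double_ac D hx hy (P := (φ P.1, φ P.2)) (map_ac φ hP) h

end Pool.Agent.ACB
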