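import Pool.Agent.ACB.Bal
import Pool.Agent.ACB.Lin
import Pool.Agent.ACB.GSm

/-!
# ACB/NFd: normal form of a tube with given core (diffeomorphism form)

PROOF.  Both steps are in `ACB/Lin.lean` and `ACB/FrH.lean` (proved files: copy the constructions).  (1) As in `linearize`: the family `K s (l, v) = κ' ((1 - σ s) • g (l, v) + σ s • (l, M l v))` and `germ_iso` (for the given `U`) give `F₁` with
`F₁ (κ (l, v)) = κ' (l, M l v)` near the core, `F₁ = id` off `U`.  (2) `gram`: `P` from `M` to an isometric `L = P 1`; `germ_iso` for `K s (l, v) = κ' (l, P (σ s) l v)` (as in `frame_homotopy`) gives `F₂` with `F₂ (κ' (l, M l v)) = κ' (l, L l v)`.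
`F = F₁.trans F₂`.
-/

open scoped ContDiff Manifold Topology unitInterval
open Set Filter

namespace Pool.Agent.ACB

universe u
variable {N : Type u} [TopologicalSpace N] [ChartedSpace E4 N]

/-- step 1: linearisation of the transition map, in a neighbourhood of the core -/
theorem NFd_lin [T2Space N] [IsManifold (𝓡 4) ∞ N] {κ κ' : ℝ × E3 → N} {ε : ℝ} (hκ : Thick κ ε)
    (hκ' : Thick κ' ε) (hc : core κ = core κ') {U : Set N} (hU : IsOpen U) (hcU : ∀ l, κ (l, 0) ∈ U) :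
    ∃ M : ℝ → E3 →L[ℝ] E3, ContDiff ℝ ∞ M ∧ (∀ l, M (l + 1) = M l) ∧ (∀ l, Function.Bijective (M l)) ∧
      ∃ F : N ≃ₘ⟮𝓡 4, 𝓡 4⟯ N, (∀ y, y ∉ U → F y = y) ∧
        ∃ δ > 0, ∀ (l : ℝ) (v : E3), ‖v‖ < δ → F (κ (l, v)) = κ' (l, M l v) := by
  have hε : 0 < ε := hκ.pos
  have hc' : ∀ l : ℝ, κ (l, 0) = κ' (l, 0) := fun l => congrFun hc l
  obtain ⟨gg, δ, η, hδ, hδε, hη, htr⟩ := transition hκ' (K := fun _ => κ) (ρ := ε) hε
    (fun s l v hv => ((hκ.loc l v hv).contMDiffAt).comp (s, (l, v)) (contDiffAt_snd.contMDiffAt))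
    (fun _ l v hv => hκ.per l v hv) (fun _ l => hc' l) 0
  let g : ℝ × E3 → ℝ × E3 := gg 0
  have h00 : |(0 : ℝ) - 0| < η := by simpa using hη
  have hgs : ∀ (l : ℝ) (v : E3), ‖v‖ < δ → ContDiffAt ℝ ∞ g (l, v) := fun l v hv =>
    ((htr 0 l v h00 hv).1).comp (l, v) (contDiffAt_const.prodMk contDiffAt_id)
  have hgκ : ∀ (l : ℝ) (v : E3), ‖v‖ < δ → κ' (g (l, v)) = κ (l, v) := fun l v hv => (htr 0 l v h00 hv).2.1
  have hgn : ∀ (l : ℝ) (v : E3), ‖v‖ < δ → ‖(g (l, v)).2‖ < ε := fun l v hv => (htr 0 l v h00 hv).2.2.1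
  have hgp : ∀ (l : ℝ) (v : E3), ‖v‖ < δ → g (l + 1, v) = g (l, v) + (1, 0) := fun l v hv =>
    (htr 0 l v h00 hv).2.2.2.2.1
  have hδ0 : ‖(0 : E3)‖ < δ := by simpa using hδ
  have hg0 : ∀ l : ℝ, g (l, 0) = (l, 0) := fun l => (htr 0 l 0 h00 hδ0).2.2.2.2.2
  have hgs0 : ∀ l : ℝ, ContDiffAt ℝ ∞ g (l, 0) := fun l => hgs l 0 hδ0
  have hε0 : ‖(0 : E3)‖ < ε := by simpa using hε
  have hnear : ∀ l : ℝ, ∀ᶠ x : ℝ × E3 in 𝓝 (l, (0 : E3)), ‖x.2‖ < δ := by
    intro l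
    have hcn : Continuous fun x : ℝ × E3 => ‖x.2‖ := continuous_norm.comp continuous_snd
    refine (hcn.tendsto (l, (0 : E3))).eventually (gt_mem_nhds ?_)
    simpa using hδ
  have hAinj : ∀ (l : ℝ) (x : ℝ × E3), fderiv ℝ g (l, 0) x = 0 → x = 0 := by
    intro l x hx
    refine lin_A_inj (hκ.loc l 0 hε0) (hκ'.loc l 0 hε0) (hgs0 l) (hg0 l) (hc' l) ?_ x hx
    filter_upwards [hnear l] with y hy
    exact hgκ y.1 y.2 hy
  have hMinj : ∀ (l : ℝ) (w : E3), lin_M g l w = 0 → w = 0 := by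
    intro l w hw
    have h1 : fderiv ℝ g (l, 0) (-(fderiv ℝ g (l, 0) (0, w)).1, w) = 0 := by
      rw [lin_A_split hgs0 hg0, hw, neg_add_cancel]
      rfl
    exact congrArg Prod.snd (hAinj l _ h1)
  have hMs : ContDiff ℝ ∞ (lin_M g) := lin_M_smooth hgs0
  have hMp : ∀ l, lin_M g (l + 1) = lin_M g l := lin_M_per hδ hgp
  refine ⟨lin_M g, hMs, hMp, ?_, ?_⟩
  · intro l
    have hi : Function.Injective (lin_M g l : E3 →ₗ[ℝ] E3) := by
      rw [← LinearMap.ker_eq_bot, LinearMap.ker_eq_bot']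
      exact fun w hw => hMinj l w hw
    exact ⟨hi, LinearMap.injective_iff_surjective.mp hi⟩
  · obtain ⟨B, hB0, hB⟩ := lin_bound hMs.continuous hMp
    let ρ : ℝ := min δ (ε / (B + 1))
    have hρ : 0 < ρ := lt_min hδ (by positivity)
    have hMn : ∀ (l : ℝ) (v : E3), ‖v‖ < ρ → ‖lin_M g l v‖ < ε := by
      intro l v hv
      have h1 : ‖v‖ < ε / (B + 1) := lt_of_lt_of_le hv (min_le_right _ _)
      calc ‖lin_M g l v‖ ≤ ‖lin_M g l‖ * ‖v‖ := (lin_M g l).le_opNorm v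
        _ ≤ B * ‖v‖ := by gcongr; exact hB l
        _ ≤ (B + 1) * ‖v‖ := by nlinarith [norm_nonneg v]
        _ < (B + 1) * (ε / (B + 1)) := by
            apply mul_lt_mul_of_pos_left h1; positivity
        _ = ε := by field_simp
    have hGn : ∀ (s l : ℝ) (v : E3), ‖v‖ < ρ → ‖(lin_G g s (l, v)).2‖ < ε := by
      intro s l v hv
      have h1 : (g (l, v)).2 ∈ Metric.ball (0 : E3) ε := by
        rw [mem_ball_zero_iff]
        exact hgn l v (lt_of_lt_of_le hv (min_le_left _ _))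
      have h2 : lin_M g l v ∈ Metric.ball (0 : E3) ε := by
        rw [mem_ball_zero_iff]
        exact hMn l v hv
      have h3 := convex_ball (0 : E3) ε h1 h2
        (sub_nonneg.mpr (Real.smoothTransition.le_one s)) (Real.smoothTransition.nonneg s) (by ring)
      rw [mem_ball_zero_iff] at h3
      exact h3
    have hK : ∀ (s l : ℝ) (v : E3), ‖v‖ < ρ →
        ContMDiffAt 𝓘(ℝ, ℝ × (ℝ × E3)) (𝓡 4) ∞ (fun q : ℝ × (ℝ × E3) => κ' (lin_G g q.1 q.2)) (s, (l, v)) := by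
      intro s l v hv
      have h1 : ContMDiffAt 𝓘(ℝ, ℝ × (ℝ × E3)) 𝓘(ℝ, ℝ × E3) ∞
          (fun q : ℝ × (ℝ × E3) => lin_G g q.1 q.2) (s, (l, v)) :=
        (lin_G_smooth hgs0 (hgs l v (lt_of_lt_of_le hv (min_le_left _ _)))).contMDiffAt
      have h2 : ContMDiffAt 𝓘(ℝ, ℝ × E3) (𝓡 4) ∞ κ' (lin_G g s (l, v)) :=
        (hκ'.loc (lin_G g s (l, v)).1 (lin_G g s (l, v)).2 (hGn s l v hv)).contMDiffAt
      exact ContMDiffAt.comp (x := (s, (l, v))) (g := κ') (f := fun q : ℝ × (ℝ × E3) => lin_G g q.1 q.2) h2 h1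
    have hper : ∀ (s l : ℝ) (v : E3), ‖v‖ < ρ → κ' (lin_G g s (l + 1, v)) = κ' (lin_G g s (l, v)) := by
      intro s l v hv
      have h1 : lin_G g s (l + 1, v) = ((lin_G g s (l, v)).1 + 1, (lin_G g s (l, v)).2) := by
        unfold lin_G
        simp only
        rw [hgp l v (lt_of_lt_of_le hv (min_le_left _ _)), hMp]
        ext1
        · simp only [Prod.fst_add, Prod.smul_fst, smul_eq_mul]
          ring
        · simp only [Prod.snd_add, Prod.smul_snd, add_zero]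
      rw [h1]
      exact hκ'.per _ _ (hGn s l v hv)
    have hcore : ∀ s l : ℝ, κ' (lin_G g s (l, 0)) = κ' (l, 0) := fun s l => by rw [lin_G_core hg0]
    have hloc : ∀ s l : ℝ, IsLocalDiffeomorphAt 𝓘(ℝ, ℝ × E3) (𝓡 4) ∞ (fun x => κ' (lin_G g s x)) (l, 0) := by
      intro s l
      have h1 : IsLocalDiffeomorphAt 𝓘(ℝ, ℝ × E3) 𝓘(ℝ, ℝ × E3) ∞ (lin_G g s) (l, 0) := by
        refine Pool.Agent.CSG.ld_of_fderiv ?_ rfl ?_
        · filter_upwards [hnear l] with y hy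
          exact lin_G_smooth' hgs0 s (hgs y.1 y.2 hy)
        · rintro ⟨a, w⟩ hx
          rw [lin_G_fderiv hgs0 hg0] at hx
          have h2 : lin_M g l w = 0 := congrArg Prod.snd hx
          have h3 := hMinj l w h2
          have h4 : a + (1 - Real.smoothTransition s) * (fderiv ℝ g (l, 0) (0, w)).1 = 0 := congrArg Prod.fst hx
          rw [h3] at h4 ⊢
          have h5 : fderiv ℝ g (l, 0) ((0 : ℝ), (0 : E3)) = 0 := map_zero _
          rw [h5] at h4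
          simp only [Prod.fst_zero, mul_zero, add_zero] at h4
          rw [h4]
          rfl
      refine h1.comp (𝓡 4) N ?_
      rw [lin_G_core hg0]
      exact hκ'.loc l 0 hε0
    have hinj : ∀ l l' : ℝ, κ' (l, 0) = κ' (l', 0) → ∃ m : ℤ, l' = l + m := fun l l' he =>
      (hκ'.inj l 0 l' 0 hε0 hε0 he).2
    have hcU' : ∀ l : ℝ, κ' (l, 0) ∈ U := by
      intro l
      rw [← hc' l]
      exact hcU l
    obtain ⟨F, hF, δ₁, hδ₁, hFK⟩ := germ_iso (K := fun s x => κ' (lin_G g s x)) (c := fun l => κ' (l, 0)) hρ hK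
      hper hcore hloc hinj hU hcU' 0 1
    refine ⟨F, hF, min δ δ₁, lt_min hδ hδ₁, fun l v hv => ?_⟩
    have h2 : F (κ' (lin_G g 0 (l, v))) = κ' (lin_G g 1 (l, v)) :=
      hFK l v (lt_of_lt_of_le hv (min_le_right _ _))
    have h3 : lin_G g 0 (l, v) = g (l, v) := by
      unfold lin_G
      rw [Real.smoothTransition.zero, sub_zero, one_smul, zero_smul, add_zero]
    have h4 : lin_G g 1 (l, v) = (l, lin_M g l v) := by
      unfold lin_G
      rw [Real.smoothTransition.one, sub_self, zero_smul, one_smul, zero_add]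
    rw [h3, h4, hgκ l v (lt_of_lt_of_le hv (min_le_left _ _))] at h2
    exact h2

/-- step 2: homotopic framings -/
theorem NFd_fr [T2Space N] [IsManifold (𝓡 4) ∞ N] {κ₁ : ℝ × E3 → N} {ε : ℝ}
    (hk1 : Thick κ₁ ε) {U : Set N} (hU : IsOpen U) (hcU : ∀ l, κ₁ (l, 0) ∈ U) {M : ℝ → ℝ → E3 →L[ℝ] E3}
    (hM : ContDiff ℝ ∞ fun q : ℝ × ℝ => M q.1 q.2)
    (hper : ∀ s l, M s (l + 1) = M s l) (hbij : ∀ s l, Function.Bijective (M s l)) :
    ∃ F : N ≃ₘ⟮𝓡 4, 𝓡 4⟯ N, (∀ y, y ∉ U → F y = y) ∧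
      ∃ δ > 0, ∀ (l : ℝ) (v : E3), ‖v‖ < δ → F (κ₁ (l, M 0 l v)) = κ₁ (l, M 1 l v) := by
  have hε := hk1.pos
  obtain ⟨B, hB, hMB⟩ := frh_bound hM.continuous hper
  have hσ : ∀ s : ℝ, Real.smoothTransition s ∈ Icc (0 : ℝ) 1 := fun s =>
    ⟨Real.smoothTransition.nonneg s, Real.smoothTransition.le_one s⟩
  have hρ : 0 < ε / (B + 1) := by positivity
  have hsmall : ∀ (s l : ℝ) (v : E3), ‖v‖ < ε / (B + 1) → ‖M (Real.smoothTransition s) l v‖ < ε := by
    intro s l v hv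
    have h1 := (M (Real.smoothTransition s) l).le_opNorm v
    have h2 := hMB _ (hσ s) l
    have h3 : ‖M (Real.smoothTransition s) l‖ * ‖v‖ ≤ B * ‖v‖ :=
      mul_le_mul_of_nonneg_right h2 (norm_nonneg v)
    rw [lt_div_iff₀ (by positivity)] at hv
    have h4 := norm_nonneg v
    nlinarith
  obtain ⟨F, hF1, δ, hδ, hF2⟩ := germ_iso (K := fun s => fr κ₁ (M (Real.smoothTransition s))) (c := core κ₁)
    hρ (fun s l v hv => by
      have h1 : ContDiff ℝ ∞ fun q : ℝ × (ℝ × E3) => (q.2.1, M (Real.smoothTransition q.1) q.2.1 q.2.2) := by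
        refine (contDiff_fst.comp contDiff_snd).prodMk ?_
        refine ContDiff.clm_apply ?_ (contDiff_snd.comp contDiff_snd)
        have h2 : ContDiff ℝ ∞ fun q : ℝ × (ℝ × E3) => ((Real.smoothTransition q.1, q.2.1) : ℝ × ℝ) :=
          (Real.smoothTransition.contDiff.comp contDiff_fst).prodMk (contDiff_fst.comp contDiff_snd)
        exact hM.comp h2
      have h3 : ContMDiffAt 𝓘(ℝ, ℝ × E3) (𝓡 4) ∞ κ₁ (l, M (Real.smoothTransition s) l v) :=
        (hk1.loc l _ (hsmall s l v hv)).contMDiffAt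
      exact ContMDiffAt.comp (s, (l, v)) (g := κ₁) h3 h1.contMDiff.contMDiffAt)
    (fun s l v hv => by
      show κ₁ (l + 1, M (Real.smoothTransition s) (l + 1) v) = κ₁ (l, M (Real.smoothTransition s) l v)
      rw [hper]
      exact hk1.per l _ (hsmall s l v hv))
    (fun s l => by
      show κ₁ (l, M (Real.smoothTransition s) l 0) = κ₁ (l, 0)
      rw [map_zero])
    (fun s l => by
      have hMs : ContDiff ℝ ∞ (M (Real.smoothTransition s)) := by
        have h2 : ContDiff ℝ ∞ fun l : ℝ => ((Real.smoothTransition s, l) : ℝ × ℝ) :=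
          contDiff_const.prodMk contDiff_id
        exact hM.comp h2
      have h1 := (frh_th _ hMs (hbij (Real.smoothTransition s))).isLocalDiffeomorph (l, 0)
      have h2 : (frh_th _ hMs (hbij (Real.smoothTransition s))) (l, 0) = (l, 0) := by
        show ((l, M (Real.smoothTransition s) l 0) : ℝ × E3) = (l, 0)
        rw [map_zero]
      exact IsLocalDiffeomorphAt.comp (hf := h1) (g := κ₁)
        (hg := by rw [h2]; exact hk1.loc l 0 (by rw [norm_zero]; exact hε)) ..)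
    (fun l l' hll => (hk1.inj l 0 l' 0 (by rw [norm_zero]; exact hε) (by rw [norm_zero]; exact hε) hll).2)
    hU (fun l => hcU l) 0 1
  refine ⟨F, hF1, δ, hδ, fun l v hv => ?_⟩
  have h1 := hF2 l v hv
  simp only [Real.smoothTransition.zero, Real.smoothTransition.one] at h1
  exact h1

theorem tube_nf [T2Space N] [IsManifold (𝓡 4) ∞ N] {κ κ' : ℝ × E3 → N} {ε : ℝ} (h : Thick κ ε)
    (h' : Thick κ' ε) (hc : core κ = core κ') {U : Set N} (hU : IsOpen U) (hcU : ∀ l, κ (l, 0) ∈ U) :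
    ∃ L : ℝ → E3 →L[ℝ] E3, ContDiff ℝ ∞ L ∧ (∀ l, L (l + 1) = L l) ∧ (∀ l v, ‖L l v‖ = ‖v‖) ∧
      ∃ F : N ≃ₘ⟮𝓡 4, 𝓡 4⟯ N, (∀ y, y ∉ U → F y = y) ∧
        ∃ δ > 0, ∀ (l : ℝ) (v : E3), ‖v‖ < δ → F (κ (l, v)) = κ' (l, L l v) := by
  obtain ⟨M, hMs, hMp, hMb, F₁, hF₁, δ₁, hδ₁, h1⟩ := NFd_lin h h' hc hU hcU
  obtain ⟨P, hPs, hPp, hPb, hP0, hP1⟩ := gram hMs hMp hMb
  have hcU' : ∀ l : ℝ, κ' (l, 0) ∈ U := by
    intro l
    have h3 : κ (l, 0) = κ' (l, 0) := congrFun hc l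
    rw [← h3]
    exact hcU l
  obtain ⟨F₂, hF₂, δ₂, hδ₂, h2⟩ := NFd_fr h' hU hcU' hPs hPp hPb
  refine ⟨P 1, ?_, hPp 1, hP1, F₁.trans F₂, ?_, min δ₁ δ₂, lt_min hδ₁ hδ₂, ?_⟩
  · have h2 : ContDiff ℝ ∞ fun l : ℝ => (((1 : ℝ), l) : ℝ × ℝ) := contDiff_const.prodMk contDiff_id
    exact hPs.comp h2
  · intro y hy
    show F₂ (F₁ y) = y
    rw [hF₁ y hy, hF₂ y hy]
  · intro l v hv
    show F₂ (F₁ (κ (l, v))) = κ' (l, P 1 l v)
    rw [h1 l v (lt_of_lt_of_le hv (min_le_left _ _)), ← hP0]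
    exact h2 l v (lt_of_lt_of_le hv (min_le_right _ _))

end Pool.Agent.ACB
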