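import Pool.Agent.ACB.Bal
import Pool.Agent.ACB.Smo

/-!
# ACB/S4h: closed curves in the 4-sphere are homotopic

PROOF.  Fix a point `q ∈ S4`; `{q}` is an obstacle (closed, contained in the range of the constant curve).  `closed_curve` (with `O = univ`): `c ~ c₁`, `c' ~ c₁'`, both avoid `q`.  The stereographic projection
`stereographic (hv : ‖v‖ = 1)` (`OpenPartialHomeomorph` with source `{v}ᶜ`, target `univ`, values in the orthogonal complement `(ℝ ∙ v)ᗮ`) gives the homotopy `H s t = f.symm ((1 - s) • f (c₁ t) + s • f (c₁' t))` for `s ∈ [0, 1]` (`FHom.mk'`).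
-/

open scoped ContDiff Manifold Topology unitInterval
open Set Filter

namespace Pool.Agent.ACB

universe u
variable {N : Type u} [TopologicalSpace N] [ChartedSpace E4 N]

theorem fhom_S4 {c c' : ℝ → S4} (hc : Continuous c) (hper : ∀ t, c (t + 1) = c t) (hc' : Continuous c')
    (hper' : ∀ t, c' (t + 1) = c' t) : FHom univ c c' := by
  obtain ⟨q⟩ : Nonempty S4 := ⟨⟨EuclideanSpace.single 0 1, by simp⟩⟩
  have hW : Obst ({q} : Set S4) := by
    refine ⟨isClosed_singleton, 1, fun _ _ => q, fun _ => contMDiff_const, ?_⟩
    intro x hx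
    rw [mem_singleton_iff] at hx
    subst hx
    exact mem_iUnion.2 ⟨0, 0, rfl⟩
  have hU : OpnS (univ : Set (ℝ × S4)) := ⟨isOpen_univ, fun _ _ => by simp⟩
  obtain ⟨c₁, hc₁, hq₁, H₁⟩ := closed_curve hc hper hW hU (fun _ => mem_univ _)
  obtain ⟨c₂, hc₂, hq₂, H₂⟩ := closed_curve hc' hper' hW hU (fun _ => mem_univ _)
  refine H₁.trans (FHom.trans ?_ H₂.symm)
  have hv : ‖(q : E5)‖ = 1 := by simp
  have hs : ∀ x : S4, x ∉ ({q} : Set S4) → x ∈ (stereographic hv).source := by
    intro x hx
    rw [stereographic_source]
    exact hx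
  have h₁ : Continuous fun t => stereographic hv (c₁ t) :=
    (stereographic hv).continuousOn.comp_continuous hc₁.smooth.continuous fun t => hs _ (hq₁ t)
  have h₂ : Continuous fun t => stereographic hv (c₂ t) :=
    (stereographic hv).continuousOn.comp_continuous hc₂.smooth.continuous fun t => hs _ (hq₂ t)
  refine ⟨fun s t => (stereographic hv).symm ((1 - s) • stereographic hv (c₁ t) + s • stereographic hv (c₂ t)),
    ?_, ?_, ?_, ?_, fun _ _ => mem_univ _⟩
  · refine (stereographic hv).continuousOn_symm.comp_continuous ?_ ?_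
    · exact ((continuous_const.sub continuous_fst).smul (h₁.comp continuous_snd)).add
        (continuous_fst.smul (h₂.comp continuous_snd))
    · intro x
      rw [stereographic_target]
      exact mem_univ _
  · intro s t
    simp only [hc₁.per, hc₂.per]
  · funext t
    simp only [sub_zero, one_smul, zero_smul, add_zero]
    exact (stereographic hv).left_inv (hs _ (hq₁ t))
  · funext t
    simp only [sub_self, one_smul, zero_smul, zero_add]
    exact (stereographic hv).left_inv (hs _ (hq₂ t))

end Pool.Agent.ACB
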